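import Pool.Agent.Sir.Defs
/-!
# Basic facts on `H1 N`
modules: clo, apx, ips
-/

namespace Sir

open MeasureTheory Filter Topology

/-- the dimensions 2 and 3 -/
class Dim (N : ℕ) : Prop where
  h : N = 2 ∨ N = 3

variable {N : ℕ}

/-- `H1` is complete (a closed subspace of a Hilbert space) -/
instance : CompleteSpace (H1 N) :=
  inferInstanceAs (CompleteSpace ↥((graph0 N).topologicalClosure))

theorem fn_memLp (u : H1 N) : MemLp (fn u) 2 (volume : Measure (E N)) := Lp.memLp _

theorem gr_memLp (u : H1 N) : MemLp (gr u) 2 (volume : Measure (E N)) := Lp.memLp _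

theorem fn_add (u v : H1 N) : fn (u + v) =ᵐ[volume] fun x => fn u x + fn v x :=
  Lp.coeFn_add u.val.fst v.val.fst

theorem gr_add (u v : H1 N) : gr (u + v) =ᵐ[volume] fun x => gr u x + gr v x :=
  Lp.coeFn_add u.val.snd v.val.snd

theorem fn_sub (u v : H1 N) : fn (u - v) =ᵐ[volume] fun x => fn u x - fn v x :=
  Lp.coeFn_sub u.val.fst v.val.fst

theorem gr_sub (u v : H1 N) : gr (u - v) =ᵐ[volume] fun x => gr u x - gr v x :=
  Lp.coeFn_sub u.val.snd v.val.snd

theorem fn_smul (c : ℝ) (u : H1 N) : fn (c • u) =ᵐ[volume] fun x => c * fn u x :=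
  Lp.coeFn_smul c u.val.fst

theorem gr_smul (c : ℝ) (u : H1 N) : gr (c • u) =ᵐ[volume] fun x => c • gr u x :=
  Lp.coeFn_smul c u.val.snd

theorem fn_neg (u : H1 N) : fn (-u) =ᵐ[volume] fun x => - fn u x :=
  Lp.coeFn_neg u.val.fst

theorem gr_neg (u : H1 N) : gr (-u) =ᵐ[volume] fun x => - gr u x :=
  Lp.coeFn_neg u.val.snd

theorem fn_zero : fn (0 : H1 N) =ᵐ[volume] fun _ => (0 : ℝ) :=
  Lp.coeFn_zero ℝ 2 (volume : Measure (E N))

theorem gr_zero : gr (0 : H1 N) =ᵐ[volume] fun _ => (0 : E N) :=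
  Lp.coeFn_zero (E N) 2 (volume : Measure (E N))

private theorem clo_grad_cont (φ : E N → ℝ) (h1 : ContDiff ℝ 1 φ) :
    Continuous (fun x => gradient φ x) := by
  unfold gradient
  exact (InnerProductSpace.toDual ℝ (E N)).symm.continuous.comp (h1.continuous_fderiv (by norm_num))

private theorem clo_grad_supp (φ : E N → ℝ) (h2 : HasCompactSupport φ) :
    HasCompactSupport (fun x => gradient φ x) := by
  have h := h2.fderiv (𝕜 := ℝ)
  have h3 := h.comp_left (g := fun L : E N →L[ℝ] ℝ => (InnerProductSpace.toDual ℝ (E N)).symm L)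
    (by simp)
  exact h3

/-- module clo. Every `C¹` function with compact support is in `H1`.
Proof: `z := WithLp.toLp 2 (MemLp.toLp φ _, MemLp.toLp (∇φ) _)` is in `graph0`, use
`Submodule.le_topologicalClosure`; a continuous function with compact support is in `Lp`
(`Continuous.memLp_of_hasCompactSupport`); `∇φ` is continuous with compact support. -/
theorem ofCc (φ : E N → ℝ) (h1 : ContDiff ℝ 1 φ) (h2 : HasCompactSupport φ) :
    ∃ u : H1 N, fn u =ᵐ[volume] φ ∧ gr u =ᵐ[volume] fun x => gradient φ x := by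
  have m1 : MemLp φ 2 (volume : Measure (E N)) := h1.continuous.memLp_of_hasCompactSupport h2
  have m2 : MemLp (fun x => gradient φ x) 2 (volume : Measure (E N)) :=
    (clo_grad_cont φ h1).memLp_of_hasCompactSupport (clo_grad_supp φ h2)
  let z : Amb N := WithLp.toLp 2 (m1.toLp φ, m2.toLp (fun x => gradient φ x))
  have hz : z ∈ graph0 N := ⟨φ, h1, h2, m1.coeFn_toLp, m2.coeFn_toLp⟩
  exact ⟨(⟨z, (graph0 N).le_topologicalClosure hz⟩ : ↥((graph0 N).topologicalClosure)),
    m1.coeFn_toLp, m2.coeFn_toLp⟩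

/-- module clo. Density of `C¹_c` in `H1` (definition of the closure: `mem_closure_iff_seq_limit`). -/
theorem exists_approx (u : H1 N) :
    ∃ (w : ℕ → H1 N) (φ : ℕ → E N → ℝ), (∀ n, ContDiff ℝ 1 (φ n) ∧ HasCompactSupport (φ n) ∧
      fn (w n) =ᵐ[volume] φ n ∧ gr (w n) =ᵐ[volume] fun x => gradient (φ n) x) ∧
      Tendsto w atTop (𝓝 u) := by
  have hu : u.val ∈ closure ((graph0 N : Submodule ℝ (Amb N)) : Set (Amb N)) :=
    Subtype.property (p := (· ∈ (graph0 N).topologicalClosure)) u
  obtain ⟨x, hx, hl⟩ := mem_closure_iff_seq_limit.1 hu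
  choose φ hφ using hx
  refine ⟨fun n => (⟨x n, (graph0 N).le_topologicalClosure ⟨φ n, hφ n⟩⟩ :
    ↥((graph0 N).topologicalClosure)), φ, fun n => hφ n, ?_⟩
  exact tendsto_subtype_rng.2 hl

private theorem clo_l2 {F : Type*} [NormedAddCommGroup F] [InnerProductSpace ℝ F]
    (f : Lp F 2 (volume : Measure (E N))) : ‖f‖ ^ 2 = ∫ x, ‖f x‖ ^ 2 := by
  rw [← real_inner_self_eq_norm_sq, L2.inner_def]
  simp only [real_inner_self_eq_norm_sq]

/-- module clo. Closedness: a limit in `L² × L²` of elements of `H1` is in `H1`. -/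
theorem H1_closed (w : ℕ → H1 N) (f : E N → ℝ) (g : E N → E N) (hf : MemLp f 2 (volume : Measure (E N)))
    (hg : MemLp g 2 (volume : Measure (E N)))
    (h1 : Tendsto (fun n => ∫ x, (fn (w n) x - f x) ^ 2) atTop (𝓝 0))
    (h2 : Tendsto (fun n => ∫ x, ‖gr (w n) x - g x‖ ^ 2) atTop (𝓝 0)) :
    ∃ u : H1 N, fn u =ᵐ[volume] f ∧ gr u =ᵐ[volume] g ∧ Tendsto w atTop (𝓝 u) := by
  let z : Amb N := WithLp.toLp 2 (hf.toLp f, hg.toLp g)
  have hz1 : (z.fst : E N → ℝ) =ᵐ[volume] f := hf.coeFn_toLp
  have hz2 : (z.snd : E N → E N) =ᵐ[volume] g := hg.coeFn_toLp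
  have hlim : Tendsto (fun n => (w n).val) atTop (𝓝 z) := by
    rw [tendsto_iff_norm_sub_tendsto_zero]
    have hsq : Tendsto (fun n => ‖(w n).val - z‖ ^ 2) atTop (𝓝 0) := by
      have e : ∀ n, ‖(w n).val - z‖ ^ 2 =
          (∫ x, (fn (w n) x - f x) ^ 2) + ∫ x, ‖gr (w n) x - g x‖ ^ 2 := by
        intro n
        rw [WithLp.prod_norm_sq_eq_of_L2]
        congr 1
        · rw [clo_l2]
          refine integral_congr_ae ?_
          filter_upwards [Lp.coeFn_sub (w n).val.fst z.fst, hz1] with x a b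
          change ‖((((w n).val.fst - z.fst : Lp ℝ 2 (volume : Measure (E N))) : E N → ℝ)) x‖ ^ 2 = _
          rw [a, Pi.sub_apply, b, Real.norm_eq_abs, sq_abs]
          rfl
        · rw [clo_l2]
          refine integral_congr_ae ?_
          filter_upwards [Lp.coeFn_sub (w n).val.snd z.snd, hz2] with x a b
          change ‖((((w n).val.snd - z.snd : Lp (E N) 2 (volume : Measure (E N))) : E N → E N)) x‖ ^ 2 = _
          rw [a, Pi.sub_apply, b]
          rfl
      simp only [e]
      simpa using h1.add h2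
    have h3 := (Real.continuous_sqrt.tendsto 0).comp hsq
    simp only [Real.sqrt_zero] at h3
    refine h3.congr fun n => ?_
    simp only [Function.comp]
    exact Real.sqrt_sq (norm_nonneg _)
  have hmem : z ∈ (graph0 N).topologicalClosure :=
    (Submodule.isClosed_topologicalClosure _).mem_of_tendsto hlim
      (Eventually.of_forall fun n => Subtype.property (p := (· ∈ (graph0 N).topologicalClosure)) (w n))
  refine ⟨(⟨z, hmem⟩ : ↥((graph0 N).topologicalClosure)), hz1, hz2, ?_⟩
  exact tendsto_subtype_rng.2 hlim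

/-- module wgr. Integration by parts: `∫ u ∂_i φ = - ∫ (∇u)_i φ` (first `u = C¹_c`, where it is
`integral_mul_fderiv_eq_neg_fderiv_mul_of_integrable`, then `exists_approx`). -/
theorem weak_grad (u : H1 N) (φ : E N → ℝ) (h1 : ContDiff ℝ 1 φ) (h2 : HasCompactSupport φ)
    (e : E N) : ∫ x, fn u x * inner ℝ (gradient φ x) e = - ∫ x, inner ℝ (gr u x) e * φ x := by
  obtain ⟨w, ψ, hw, hl⟩ := exists_approx u
  -- the two test functions in `L²`
  have c1 : Continuous (fun x => (inner ℝ (gradient φ x) e : ℝ)) :=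
    (clo_grad_cont φ h1).inner continuous_const
  have s1 : HasCompactSupport (fun x => (inner ℝ (gradient φ x) e : ℝ)) := by
    have := (clo_grad_supp φ h2).comp_left (g := fun v : E N => (inner ℝ v e : ℝ)) (by simp)
    exact this
  have m1 : MemLp (fun x => (inner ℝ (gradient φ x) e : ℝ)) 2 (volume : Measure (E N)) :=
    c1.memLp_of_hasCompactSupport s1
  have c2 : Continuous (fun x => φ x • e) := h1.continuous.smul continuous_const
  have s2 : HasCompactSupport (fun x => φ x • e) := by
    have := h2.comp_left (g := fun t : ℝ => t • e) (by simp)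
    exact this
  have m2 : MemLp (fun x => φ x • e) 2 (volume : Measure (E N)) :=
    c2.memLp_of_hasCompactSupport s2
  have hv : Tendsto (fun n => (w n).val) atTop (𝓝 u.val) := tendsto_subtype_rng.1 hl
  have hv1 : Tendsto (fun n => (w n).val.fst) atTop (𝓝 u.val.fst) :=
    (WithLp.prod_continuous_ofLp 2 _ _ |>.fst.tendsto _).comp hv
  have hv2 : Tendsto (fun n => (w n).val.snd) atTop (𝓝 u.val.snd) :=
    (WithLp.prod_continuous_ofLp 2 _ _ |>.snd.tendsto _).comp hv
  have e1 : ∀ v : H1 N, ∫ x, fn v x * inner ℝ (gradient φ x) e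
      = inner ℝ (m1.toLp _) (v.val.fst) := by
    intro v
    rw [L2.inner_def]
    refine integral_congr_ae ?_
    filter_upwards [m1.coeFn_toLp] with x a
    rw [a, RCLike.inner_apply, conj_trivial]
    rfl
  have e2 : ∀ v : H1 N, ∫ x, inner ℝ (gr v x) e * φ x = inner ℝ (v.val.snd) (m2.toLp _) := by
    intro v
    rw [L2.inner_def]
    refine integral_congr_ae ?_
    filter_upwards [m2.coeFn_toLp] with x a
    rw [a, real_inner_smul_right, mul_comm]
    rfl
  have l1 : Tendsto (fun n => ∫ x, fn (w n) x * inner ℝ (gradient φ x) e) atTop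
      (𝓝 (∫ x, fn u x * inner ℝ (gradient φ x) e)) := by
    simp only [e1]
    exact (continuous_const.inner continuous_id).tendsto _ |>.comp hv1
  have l2 : Tendsto (fun n => ∫ x, inner ℝ (gr (w n) x) e * φ x) atTop
      (𝓝 (∫ x, inner ℝ (gr u x) e * φ x)) := by
    simp only [e2]
    exact (continuous_id.inner continuous_const).tendsto _ |>.comp hv2
  refine tendsto_nhds_unique l1 (l2.neg.congr fun n => ?_)
  obtain ⟨k1, k2, k3, k4⟩ := hw n
  have a1 : ∫ x, inner ℝ (gr (w n) x) e * φ x = ∫ x, (fderiv ℝ (ψ n) x) e * φ x := by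
    refine integral_congr_ae ?_
    filter_upwards [k4] with x a
    rw [a]
    simp [gradient, InnerProductSpace.toDual_symm_apply]
  have a2 : ∫ x, fn (w n) x * inner ℝ (gradient φ x) e = ∫ x, ψ n x * (fderiv ℝ φ x) e := by
    refine integral_congr_ae ?_
    filter_upwards [k3] with x a
    rw [a]
    simp [gradient, InnerProductSpace.toDual_symm_apply]
  rw [a1, a2]
  have dφ : Continuous (fun x => (fderiv ℝ φ x) e) :=
    (h1.continuous_fderiv (by norm_num)).clm_apply continuous_const
  have dψ : Continuous (fun x => (fderiv ℝ (ψ n) x) e) :=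
    (k1.continuous_fderiv (by norm_num)).clm_apply continuous_const
  have i1 : Integrable (fun x => (fderiv ℝ (ψ n) x) e * φ x) (volume : Measure (E N)) :=
    (dψ.mul h1.continuous).integrable_of_hasCompactSupport h2.mul_left
  have i2 : Integrable (fun x => ψ n x * (fderiv ℝ φ x) e) (volume : Measure (E N)) :=
    (k1.continuous.mul dφ).integrable_of_hasCompactSupport k2.mul_right
  have i3 : Integrable (fun x => ψ n x * φ x) (volume : Measure (E N)) :=
    (k1.continuous.mul h1.continuous).integrable_of_hasCompactSupport k2.mul_right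
  exact (integral_mul_fderiv_eq_neg_fderiv_mul_of_integrable i1 i2 i3
    (fun x _ => k1.differentiable (by norm_num) x)
    (fun x _ => h1.differentiable (by norm_num) x)).symm

/-- module wgr. The function determines the element of `H1`: by `weak_grad` the gradient of
`w = u - v` satisfies `∫ ⟨gr w, e⟩ φ = 0` for all `C^∞_c` functions `φ`
(`ae_eq_zero_of_integral_contDiff_smul_eq_zero`). -/
theorem H1_ext {u v : H1 N} (h : fn u =ᵐ[volume] fn v) : u = v := by
  have hg : gr (u - v) =ᵐ[volume] fun _ => (0 : E N) := by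
    refine ae_eq_zero_of_integral_contDiff_smul_eq_zero
      ((gr_memLp (u - v)).locallyIntegrable (by norm_num)) ?_
    intro g g1 g2
    have g1' : ContDiff ℝ 1 g := g1.of_le (by exact_mod_cast le_top)
    have hi : Integrable (fun x => g x • gr (u - v) x) (volume : Measure (E N)) := by
      have hgL : MemLp g 2 (volume : Measure (E N)) := g1.continuous.memLp_of_hasCompactSupport g2
      have := (gr_memLp (u - v)).smul hgL (r := 1)
      exact memLp_one_iff_integrable.1 this
    refine ext_inner_left ℝ fun e => ?_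
    rw [inner_zero_right, ← integral_inner hi e]
    have hw := weak_grad (u - v) g g1' g2 e
    have h0 : ∫ x, fn (u - v) x * inner ℝ (gradient g x) e = 0 := by
      rw [← integral_zero (E N) ℝ (μ := volume)]
      refine integral_congr_ae ?_
      filter_upwards [fn_sub u v, h] with x a b
      rw [a, b]
      simp
    rw [h0] at hw
    have : ∫ x, inner ℝ e (g x • gr (u - v) x) = ∫ x, inner ℝ (gr (u - v) x) e * g x := by
      congr 1
      funext x
      rw [real_inner_smul_right, real_inner_comm, mul_comm]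
    rw [this]
    linarith
  have h2 : gr u =ᵐ[volume] gr v := by
    filter_upwards [hg, gr_sub u v] with x a b
    rw [a] at b
    exact (sub_eq_zero.1 b.symm)
  have e1 : u.val.fst = v.val.fst := Lp.ext h
  have e2 : u.val.snd = v.val.snd := Lp.ext h2
  have e3 : u.val = v.val := by
    refine WithLp.ofLp_injective 2 ?_
    exact Prod.ext e1 e2
  exact Subtype.ext e3

/-- module ips -/
theorem inner_eq (u v : H1 N) : inner ℝ u v = ip 1 u v := by
  have h : (inner ℝ u v : ℝ) = inner ℝ u.val v.val := rfl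
  rw [h, WithLp.prod_inner_apply, L2.inner_def, L2.inner_def]
  unfold ip gX gY
  rw [one_mul, add_comm]
  congr 1
  refine integral_congr_ae (Eventually.of_forall fun x => ?_)
  simp only [RCLike.inner_apply, conj_trivial]
  exact mul_comm _ _

theorem norm_sq_eq (u : H1 N) : ‖u‖ ^ 2 = ip 1 u u := by
  rw [← inner_eq, real_inner_self_eq_norm_sq]

private theorem ips_intX (u v : H1 N) :
    Integrable (fun x => (inner ℝ (gr u x) (gr v x) : ℝ)) (volume : Measure (E N)) :=
  L2.integrable_inner (𝕜 := ℝ) u.val.snd v.val.snd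

private theorem ips_intY (u v : H1 N) :
    Integrable (fun x => fn u x * fn v x) (volume : Measure (E N)) :=
  (fn_memLp u).integrable_mul (fn_memLp v)

/-- module ips -/
theorem gX_add_left (u v w : H1 N) : gX (u + v) w = gX u w + gX v w := by
  unfold gX
  rw [← integral_add (ips_intX u w) (ips_intX v w)]
  refine integral_congr_ae ?_
  filter_upwards [gr_add u v] with x a
  rw [a, inner_add_left]

/-- module ips -/
theorem gX_smul_left (c : ℝ) (u w : H1 N) : gX (c • u) w = c * gX u w := by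
  unfold gX
  rw [← integral_const_mul]
  refine integral_congr_ae ?_
  filter_upwards [gr_smul c u] with x a
  rw [a, real_inner_smul_left]

theorem gX_comm (u v : H1 N) : gX u v = gX v u := by
  unfold gX
  simp only [real_inner_comm]

/-- module ips -/
theorem gY_add_left (u v w : H1 N) : gY (u + v) w = gY u w + gY v w := by
  unfold gY
  rw [← integral_add (ips_intY u w) (ips_intY v w)]
  refine integral_congr_ae ?_
  filter_upwards [fn_add u v] with x a
  rw [a, add_mul]

/-- module ips -/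
theorem gY_smul_left (c : ℝ) (u w : H1 N) : gY (c • u) w = c * gY u w := by
  unfold gY
  rw [← integral_const_mul]
  refine integral_congr_ae ?_
  filter_upwards [fn_smul c u] with x a
  rw [a, mul_assoc]

theorem gY_comm (u v : H1 N) : gY u v = gY v u := by
  unfold gY
  simp only [mul_comm]

theorem gX_add_right (u v w : H1 N) : gX w (u + v) = gX w u + gX w v := by
  rw [gX_comm, gX_add_left, gX_comm u, gX_comm v]

theorem gX_smul_right (c : ℝ) (u w : H1 N) : gX w (c • u) = c * gX w u := by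
  rw [gX_comm, gX_smul_left, gX_comm u]

theorem gY_add_right (u v w : H1 N) : gY w (u + v) = gY w u + gY w v := by
  rw [gY_comm, gY_add_left, gY_comm u, gY_comm v]

theorem gY_smul_right (c : ℝ) (u w : H1 N) : gY w (c • u) = c * gY w u := by
  rw [gY_comm, gY_smul_left, gY_comm u]

theorem ip_comm (l : ℝ) (u v : H1 N) : ip l u v = ip l v u := by
  unfold ip
  rw [gX_comm, gY_comm]

theorem ip_add_left (l : ℝ) (u v w : H1 N) : ip l (u + v) w = ip l u w + ip l v w := by
  unfold ip
  rw [gX_add_left, gY_add_left]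
  ring

theorem ip_add_right (l : ℝ) (u v w : H1 N) : ip l w (u + v) = ip l w u + ip l w v := by
  unfold ip
  rw [gX_add_right, gY_add_right]
  ring

theorem ip_smul_left (l c : ℝ) (u w : H1 N) : ip l (c • u) w = c * ip l u w := by
  unfold ip
  rw [gX_smul_left, gY_smul_left]
  ring

theorem ip_smul_right (l c : ℝ) (u w : H1 N) : ip l w (c • u) = c * ip l w u := by
  unfold ip
  rw [gX_smul_right, gY_smul_right]
  ring

theorem ip_neg_left (l : ℝ) (u w : H1 N) : ip l (-u) w = - ip l u w := by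
  rw [← neg_one_smul ℝ u, ip_smul_left]
  ring

theorem ip_neg_right (l : ℝ) (u w : H1 N) : ip l w (-u) = - ip l w u := by
  rw [← neg_one_smul ℝ u, ip_smul_right]
  ring

theorem ip_sub_left (l : ℝ) (u v w : H1 N) : ip l (u - v) w = ip l u w - ip l v w := by
  rw [sub_eq_add_neg, ip_add_left, ip_neg_left]
  ring

theorem ip_sub_right (l : ℝ) (u v w : H1 N) : ip l w (u - v) = ip l w u - ip l w v := by
  rw [sub_eq_add_neg, ip_add_right, ip_neg_right]
  ring

theorem ip_zero_left (l : ℝ) (w : H1 N) : ip l 0 w = 0 := by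
  have := ip_smul_left l 0 (0 : H1 N) w
  simpa using this

theorem ip_zero_right (l : ℝ) (w : H1 N) : ip l w 0 = 0 := by
  rw [ip_comm, ip_zero_left]

/-- module ips -/
theorem gX_nonneg (u : H1 N) : 0 ≤ gX u u := by
  exact integral_nonneg fun _ => real_inner_self_nonneg

/-- module ips -/
theorem gY_nonneg (u : H1 N) : 0 ≤ gY u u := by
  exact integral_nonneg fun _ => mul_self_nonneg _

/-- module ips: uses `H1_ext` -/
theorem gY_pos {u : H1 N} (h : u ≠ 0) : 0 < gY u u := by
  refine lt_of_le_of_ne (gY_nonneg u) fun h0 => h ?_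
  have h1 := (integral_eq_zero_iff_of_nonneg (fun x => mul_self_nonneg (fn u x))
    (ips_intY u u)).1 h0.symm
  refine H1_ext ?_
  filter_upwards [h1, fn_zero (N := N)] with x a b
  rw [b]
  exact mul_self_eq_zero.1 a

theorem ip_nonneg {l : ℝ} (hl : 0 ≤ l) (u : H1 N) : 0 ≤ ip l u u :=
  add_nonneg (gX_nonneg u) (mul_nonneg hl (gY_nonneg u))

theorem ip_pos {l : ℝ} (hl : 0 < l) {u : H1 N} (h : u ≠ 0) : 0 < ip l u u :=
  add_pos_of_nonneg_of_pos (gX_nonneg u) (mul_pos hl (gY_pos h))

theorem gX_le_ip {l : ℝ} (hl : 0 ≤ l) (u : H1 N) : gX u u ≤ ip l u u :=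
  le_add_of_nonneg_right (mul_nonneg hl (gY_nonneg u))

theorem gY_le_ip {l : ℝ} (u : H1 N) : l * gY u u ≤ ip l u u :=
  le_add_of_nonneg_left (gX_nonneg u)

theorem ip_mono {l l' : ℝ} (h : l ≤ l') (u : H1 N) : ip l u u ≤ ip l' u u :=
  add_le_add le_rfl (mul_le_mul_of_nonneg_right h (gY_nonneg u))

/-- module ips. Cauchy-Schwarz for the nonnegative form `ip l` -/
theorem ip_cs {l : ℝ} (hl : 0 ≤ l) (u v : H1 N) : ip l u v ^ 2 ≤ ip l u u * ip l v v := by
  have key : ∀ t : ℝ, 0 ≤ ip l v v * (t * t) + 2 * ip l u v * t + ip l u u := by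
    intro t
    have h := ip_nonneg hl (u + t • v)
    rw [ip_add_left, ip_add_right, ip_add_right, ip_smul_left, ip_smul_left, ip_smul_right,
      ip_smul_right, ip_comm l v u] at h
    nlinarith [h]
  have hd := discrim_le_zero key
  unfold discrim at hd
  nlinarith [hd]

/-- the norms are equivalent -/
theorem norm_le_ip {l : ℝ} (hl : 0 < l) : ∃ C : ℝ, 0 < C ∧ ∀ u : H1 N, ‖u‖ ^ 2 ≤ C * ip l u u := by
  refine ⟨1 + 1 / l, by positivity, fun u => ?_⟩
  rw [norm_sq_eq]
  have h1 := gX_nonneg u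
  have h2 := gY_nonneg u
  unfold ip
  have e : (1 + 1 / l) * (gX u u + l * gY u u) = gX u u + 1 * gY u u + (l * gY u u + 1 / l * gX u u) := by
    field_simp
    ring
  rw [e]
  have := mul_nonneg hl.le h2
  have h3 : 0 ≤ 1 / l * gX u u := by positivity
  linarith

theorem ip_le_norm (l : ℝ) : ∃ C : ℝ, 0 < C ∧ ∀ u : H1 N, ip l u u ≤ C * ‖u‖ ^ 2 := by
  refine ⟨1 + |l|, by positivity, fun u => ?_⟩
  rw [norm_sq_eq]
  have h1 := gX_nonneg u
  have h2 := gY_nonneg u
  unfold ip
  have h3 : l * gY u u ≤ |l| * gY u u := mul_le_mul_of_nonneg_right (le_abs_self l) h2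
  have h4 : 0 ≤ |l| * gX u u := mul_nonneg (abs_nonneg l) h1
  nlinarith

/-- module ips: continuity of `ip l` in both arguments -/
theorem ip_bound (l : ℝ) : ∃ C : ℝ, 0 < C ∧ ∀ u v : H1 N, |ip l u v| ≤ C * ‖u‖ * ‖v‖ := by
  -- Cauchy-Schwarz for the two forms `gX`, `gY`
  have hX : ∀ u v : H1 N, |gX u v| ≤ ‖u‖ * ‖v‖ := by
    intro u v
    have h := ip_cs (l := 0) le_rfl u v
    unfold ip at h
    simp only [zero_mul, add_zero] at h
    have h1 : gX u u ≤ ‖u‖ ^ 2 := by
      rw [norm_sq_eq]; exact gX_le_ip zero_le_one u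
    have h2 : gX v v ≤ ‖v‖ ^ 2 := by
      rw [norm_sq_eq]; exact gX_le_ip zero_le_one v
    have h3 : gX u v ^ 2 ≤ (‖u‖ * ‖v‖) ^ 2 := by
      rw [mul_pow]
      exact h.trans (mul_le_mul h1 h2 (gX_nonneg v) (sq_nonneg _))
    exact abs_le_of_sq_le_sq h3 (by positivity)
  have hY : ∀ u v : H1 N, |gY u v| ≤ ‖u‖ * ‖v‖ + ‖u‖ * ‖v‖ := by
    intro u v
    have e : gY u v = ip 1 u v - gX u v := by unfold ip; ring
    have h1 : |ip 1 u v| ≤ ‖u‖ * ‖v‖ := by
      rw [← inner_eq]; exact abs_real_inner_le_norm u v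
    rw [e]
    exact (abs_sub _ _).trans (add_le_add h1 (hX u v))
  refine ⟨1 + 2 * |l|, by positivity, fun u v => ?_⟩
  unfold ip
  have h1 := hX u v
  have h2 := hY u v
  have h3 : |gX u v + l * gY u v| ≤ |gX u v| + |l| * |gY u v| := by
    rw [← abs_mul]; exact abs_add_le _ _
  have h4 : |l| * |gY u v| ≤ |l| * (‖u‖ * ‖v‖ + ‖u‖ * ‖v‖) :=
    mul_le_mul_of_nonneg_left h2 (abs_nonneg l)
  nlinarith [h1, h3, h4]

end Sir
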