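import Pool.Agent.Sir.Base
/-!
# Chain rules in `H1`
modules: cha, abm, sqm, mum
-/

namespace Sir

open MeasureTheory Filter Topology

variable {N : ℕ}

private theorem cha_gX_le (u : H1 N) : gX u u ≤ ‖u‖ ^ 2 := by
  rw [norm_sq_eq]
  exact gX_le_ip zero_le_one u

private theorem cha_gY_le (u : H1 N) : gY u u ≤ ‖u‖ ^ 2 := by
  rw [norm_sq_eq]
  have := gY_le_ip (l := 1) u
  linarith

private theorem cha_norm_sq_tendsto (w : ℕ → H1 N) (u : H1 N) (h : Tendsto w atTop (𝓝 u)) :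
    Tendsto (fun n => ‖w n - u‖ ^ 2) atTop (𝓝 0) := by
  have := (tendsto_iff_norm_sub_tendsto_zero.1 h).pow 2
  simpa using this

private theorem cha_fn_sub_sq (u v : H1 N) : ∫ x, (fn u x - fn v x) ^ 2 = gY (u - v) (u - v) := by
  unfold gY
  refine integral_congr_ae ?_
  filter_upwards [fn_sub u v] with x a
  rw [a, sq]

private theorem cha_gr_sub_sq (u v : H1 N) : ∫ x, ‖gr u x - gr v x‖ ^ 2 = gX (u - v) (u - v) := by
  unfold gX
  refine integral_congr_ae ?_
  filter_upwards [gr_sub u v] with x a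
  rw [a, real_inner_self_eq_norm_sq]

private theorem cha_tendsto_fn (w : ℕ → H1 N) (u : H1 N) (h : Tendsto w atTop (𝓝 u)) :
    Tendsto (fun n => ∫ x, (fn (w n) x - fn u x) ^ 2) atTop (𝓝 0) := by
  refine squeeze_zero (fun n => integral_nonneg fun x => sq_nonneg _) (fun n => ?_)
    (cha_norm_sq_tendsto w u h)
  rw [cha_fn_sub_sq]
  exact cha_gY_le _

private theorem cha_tendsto_gr (w : ℕ → H1 N) (u : H1 N) (h : Tendsto w atTop (𝓝 u)) :
    Tendsto (fun n => ∫ x, ‖gr (w n) x - gr u x‖ ^ 2) atTop (𝓝 0) := by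
  refine squeeze_zero (fun n => integral_nonneg fun x => sq_nonneg _) (fun n => ?_)
    (cha_norm_sq_tendsto w u h)
  rw [cha_gr_sub_sq]
  exact cha_gX_le _

private theorem cha_ae_subseq (w : ℕ → H1 N) (u : H1 N) (h : Tendsto w atTop (𝓝 u)) :
    ∃ ns : ℕ → ℕ, StrictMono ns ∧
      ∀ᵐ x : E N, Tendsto (fun i => fn (w (ns i)) x) atTop (𝓝 (fn u x)) := by
  have hv : Tendsto (fun n => (w n).val) atTop (𝓝 u.val) := tendsto_subtype_rng.1 h
  have hv1 : Tendsto (fun n => (w n).val.fst) atTop (𝓝 u.val.fst) :=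
    (WithLp.prod_continuous_ofLp 2 _ _ |>.fst.tendsto _).comp hv
  exact (tendstoInMeasure_of_tendsto_Lp hv1).exists_seq_tendsto_ae

private theorem cha_lip (T : ℝ × ℝ → ℝ) (hT : ContDiff ℝ 1 T) (M : ℝ)
    (hM : ∀ p, ‖fderiv ℝ T p‖ ≤ M) (p q : ℝ × ℝ) :
    (T p - T q) ^ 2 ≤ M ^ 2 * ((p.1 - q.1) ^ 2 + (p.2 - q.2) ^ 2) := by
  have hM0 : 0 ≤ M := (norm_nonneg _).trans (hM p)
  have h := Convex.norm_image_sub_le_of_norm_fderiv_le (f := T) (C := M) (s := Set.univ)
    (x := q) (y := p) (fun x _ => hT.differentiable (by norm_num) x) (fun x _ => hM x)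
    convex_univ trivial trivial
  have h1 : (T p - T q) ^ 2 ≤ (M * ‖p - q‖) ^ 2 := by
    rw [← sq_abs (T p - T q)]
    exact pow_le_pow_left₀ (abs_nonneg _) (by simpa [Real.norm_eq_abs] using h) 2
  have h2 : ‖p - q‖ ^ 2 ≤ (p.1 - q.1) ^ 2 + (p.2 - q.2) ^ 2 := by
    rw [Prod.norm_def]
    rcases max_choice ‖(p - q).1‖ ‖(p - q).2‖ with e | e
    · rw [e, Real.norm_eq_abs, sq_abs, Prod.fst_sub]
      exact le_add_of_nonneg_right (sq_nonneg _)
    · rw [e, Real.norm_eq_abs, sq_abs, Prod.snd_sub]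
      exact le_add_of_nonneg_left (sq_nonneg _)
  calc (T p - T q) ^ 2 ≤ M ^ 2 * ‖p - q‖ ^ 2 := by rw [← mul_pow]; exact h1
    _ ≤ _ := mul_le_mul_of_nonneg_left h2 (sq_nonneg M)

private theorem cha_tle (T : ℝ × ℝ → ℝ) (hT : ContDiff ℝ 1 T) (h0 : T (0, 0) = 0) (M : ℝ)
    (hM : ∀ p, ‖fderiv ℝ T p‖ ≤ M) (p : ℝ × ℝ) : |T p| ≤ M * (|p.1| + |p.2|) := by
  have hM0 : 0 ≤ M := (norm_nonneg _).trans (hM 0)
  have h := cha_lip T hT M hM p (0, 0)
  rw [h0] at h
  simp only [sub_zero] at h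
  have h2 : T p ^ 2 ≤ (M * (|p.1| + |p.2|)) ^ 2 := by
    refine h.trans ?_
    rw [mul_pow]
    refine mul_le_mul_of_nonneg_left ?_ (sq_nonneg M)
    nlinarith [sq_abs p.1, sq_abs p.2, mul_nonneg (abs_nonneg p.1) (abs_nonneg p.2)]
  exact abs_le_of_sq_le_sq h2 (by positivity)

private theorem cha_ev1 (L : ℝ × ℝ →L[ℝ] ℝ) : |L (1, 0)| ≤ ‖L‖ := by
  have := L.le_opNorm (1, 0)
  simpa [Prod.norm_def] using this

private theorem cha_ev2 (L : ℝ × ℝ →L[ℝ] ℝ) : |L (0, 1)| ≤ ‖L‖ := by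
  have := L.le_opNorm (0, 1)
  simpa [Prod.norm_def] using this

private theorem cha_grad (T : ℝ × ℝ → ℝ) (hT : ContDiff ℝ 1 T) (φ ψ : E N → ℝ)
    (h1 : ContDiff ℝ 1 φ) (h2 : ContDiff ℝ 1 ψ) (x : E N) :
    gradient (fun y => T (φ y, ψ y)) x =
      (fderiv ℝ T (φ x, ψ x) (1, 0)) • gradient φ x
        + (fderiv ℝ T (φ x, ψ x) (0, 1)) • gradient ψ x := by
  have d1 : DifferentiableAt ℝ φ x := h1.differentiable (by norm_num) x
  have d2 : DifferentiableAt ℝ ψ x := h2.differentiable (by norm_num) x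
  have dT : DifferentiableAt ℝ T (φ x, ψ x) := hT.differentiable (by norm_num) _
  have hf : fderiv ℝ (fun y => T (φ y, ψ y)) x =
      (fderiv ℝ T (φ x, ψ x)).comp ((fderiv ℝ φ x).prod (fderiv ℝ ψ x)) :=
    (dT.hasFDerivAt.comp x (d1.hasFDerivAt.prodMk d2.hasFDerivAt)).fderiv
  have hs : fderiv ℝ (fun y => T (φ y, ψ y)) x =
      (fderiv ℝ T (φ x, ψ x) (1, 0)) • fderiv ℝ φ x
        + (fderiv ℝ T (φ x, ψ x) (0, 1)) • fderiv ℝ ψ x := by
    rw [hf]
    ext v
    have e : ((fderiv ℝ φ x v, fderiv ℝ ψ x v) : ℝ × ℝ) =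
        (fderiv ℝ φ x v) • ((1, 0) : ℝ × ℝ) + (fderiv ℝ ψ x v) • ((0, 1) : ℝ × ℝ) := by
      ext <;> simp
    change fderiv ℝ T (φ x, ψ x) (fderiv ℝ φ x v, fderiv ℝ ψ x v) = _
    rw [e, map_add, map_smul, map_smul]
    simp only [smul_eq_mul, add_apply, smul_apply]
    ring
  unfold gradient
  rw [hs]
  simp

private theorem cha_meas (A : ℝ × ℝ → ℝ) (hA : Continuous A) (u v : H1 N) :
    AEStronglyMeasurable (fun x => A (fn u x, fn v x)) (volume : Measure (E N)) :=
  hA.comp_aestronglyMeasurable ((fn_memLp u).1.prodMk (fn_memLp v).1)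

private theorem cha_memf (u v : H1 N) (T : ℝ × ℝ → ℝ)
    (hc : AEStronglyMeasurable (fun x => T (fn u x, fn v x)) (volume : Measure (E N)))
    (M : ℝ) (hM : ∀ p : ℝ × ℝ, |T p| ≤ M * (|p.1| + |p.2|)) :
    MemLp (fun x => T (fn u x, fn v x)) 2 (volume : Measure (E N)) := by
  refine MemLp.mono' (g := fun x => M * (|fn u x| + |fn v x|)) ?_ hc
    (Eventually.of_forall fun x => hM _)
  exact (((fn_memLp u).norm.add (fn_memLp v).norm).const_mul M)

private theorem cha_memg (A B : E N → ℝ) (hA : AEStronglyMeasurable A (volume : Measure (E N)))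
    (hB : AEStronglyMeasurable B (volume : Measure (E N)))
    (M : ℝ) (hAM : ∀ x, |A x| ≤ M) (hBM : ∀ x, |B x| ≤ M) (u v : H1 N) :
    MemLp (fun x => A x • gr u x + B x • gr v x) 2 (volume : Measure (E N)) := by
  have hM0 : 0 ≤ M := (abs_nonneg _).trans (hAM 0)
  refine MemLp.mono' (g := fun x => M * ‖gr u x‖ + M * ‖gr v x‖) ?_
    ((hA.smul (gr_memLp u).1).add (hB.smul (gr_memLp v).1)) (Eventually.of_forall fun x => ?_)
  · exact ((gr_memLp u).norm.const_mul M).add ((gr_memLp v).norm.const_mul M)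
  · refine (norm_add_le _ _).trans (add_le_add ?_ ?_)
    · rw [norm_smul]
      exact mul_le_mul_of_nonneg_right (hAM x) (norm_nonneg _)
    · rw [norm_smul]
      exact mul_le_mul_of_nonneg_right (hBM x) (norm_nonneg _)

private theorem cha_alg {F : Type*} [NormedAddCommGroup F] [NormedSpace ℝ F]
    (s t s' t' M d : ℝ) (p q p' q' : F) (h1 : |s| ≤ M) (h2 : |t| ≤ M) (h3 : |s - s'| ≤ d)
    (h4 : |t - t'| ≤ d) :
    ‖s • p + t • q - (s' • p' + t' • q')‖ ^ 2 ≤
      4 * (M ^ 2 * ‖p - p'‖ ^ 2 + M ^ 2 * ‖q - q'‖ ^ 2 + d ^ 2 * (‖p'‖ ^ 2 + ‖q'‖ ^ 2)) := by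
  have e : s • p + t • q - (s' • p' + t' • q') =
      (s • (p - p') + (s - s') • p') + (t • (q - q') + (t - t') • q') := by
    simp only [smul_sub, sub_smul]
    abel
  have k1 : ‖s • (p - p')‖ ≤ M * ‖p - p'‖ := by
    rw [norm_smul]; exact mul_le_mul_of_nonneg_right h1 (norm_nonneg _)
  have k2 : ‖t • (q - q')‖ ≤ M * ‖q - q'‖ := by
    rw [norm_smul]; exact mul_le_mul_of_nonneg_right h2 (norm_nonneg _)
  have k3 : ‖(s - s') • p'‖ ≤ d * ‖p'‖ := by
    rw [norm_smul]; exact mul_le_mul_of_nonneg_right h3 (norm_nonneg _)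
  have k4 : ‖(t - t') • q'‖ ≤ d * ‖q'‖ := by
    rw [norm_smul]; exact mul_le_mul_of_nonneg_right h4 (norm_nonneg _)
  have k : ‖s • p + t • q - (s' • p' + t' • q')‖ ≤
      M * ‖p - p'‖ + d * ‖p'‖ + (M * ‖q - q'‖ + d * ‖q'‖) := by
    rw [e]
    refine (norm_add_le _ _).trans (add_le_add ?_ ?_)
    · exact (norm_add_le _ _).trans (add_le_add k1 k3)
    · exact (norm_add_le _ _).trans (add_le_add k2 k4)
  refine (pow_le_pow_left₀ (norm_nonneg _) k 2).trans ?_
  nlinarith [sq_nonneg (M * ‖p - p'‖ - d * ‖p'‖), sq_nonneg (M * ‖p - p'‖ - M * ‖q - q'‖),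
    sq_nonneg (M * ‖p - p'‖ - d * ‖q'‖), sq_nonneg (d * ‖p'‖ - M * ‖q - q'‖),
    sq_nonneg (d * ‖p'‖ - d * ‖q'‖), sq_nonneg (M * ‖q - q'‖ - d * ‖q'‖)]

/-- module cha. Chain rule for a `C¹` function of two elements of `H1`.
Proof: for `C¹_c` functions `φ, ψ` the function `T(φ,ψ)` is `C¹_c` (here `T (0,0) = 0` is used) with
`∇T(φ,ψ) = ∂₁T(φ,ψ) ∇φ + ∂₂T(φ,ψ) ∇ψ`. Take `exists_approx` for `u` and `v`; after passing to a subsequence
`φ n → fn u`, `ψ n → fn v` a.e. (`TendstoInMeasure.exists_seq_tendsto_ae` or `eLpNorm` version). Then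
`|T(φ n,ψ n) - T(u,v)| ≤ M (|φ n - u| + |ψ n - v|)` (up to a constant) gives `L²` convergence, and
`|∂₁T(φ n,ψ n) ∇φ n - ∂₁T(u,v) ∇u| ≤ M |∇φ n - ∇u| + |∂₁T(φ n,ψ n) - ∂₁T(u,v)| |∇u|`, where the last term tends to `0`
in `L²` by dominated convergence. Finish with `H1_closed`. -/
theorem chain2 (T : ℝ × ℝ → ℝ) (hT : ContDiff ℝ 1 T) (h0 : T (0, 0) = 0) (M : ℝ)
    (hM : ∀ p, ‖fderiv ℝ T p‖ ≤ M) (u v : H1 N) :
    ∃ w : H1 N, fn w =ᵐ[volume] (fun x => T (fn u x, fn v x)) ∧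
      gr w =ᵐ[volume] fun x => (fderiv ℝ T (fn u x, fn v x) (1, 0)) • gr u x
        + (fderiv ℝ T (fn u x, fn v x) (0, 1)) • gr v x := by
  have hM0 : 0 ≤ M := (norm_nonneg _).trans (hM 0)
  obtain ⟨a, φ, ha, la⟩ := exists_approx u
  obtain ⟨b, ψ, hb, lb⟩ := exists_approx v
  obtain ⟨ns, hns, ae1⟩ := cha_ae_subseq a u la
  obtain ⟨ms, hms, ae2⟩ := cha_ae_subseq (fun i => b (ns i)) v (lb.comp hns.tendsto_atTop)
  set k : ℕ → ℕ := fun i => ns (ms i) with hk
  have hkm : StrictMono k := hns.comp hms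
  have lak : Tendsto (fun i => a (k i)) atTop (𝓝 u) := la.comp hkm.tendsto_atTop
  have lbk : Tendsto (fun i => b (k i)) atTop (𝓝 v) := lb.comp hkm.tendsto_atTop
  have ae1' : ∀ᵐ x : E N, Tendsto (fun i => fn (a (k i)) x) atTop (𝓝 (fn u x)) := by
    filter_upwards [ae1] with x hx
    exact hx.comp hms.tendsto_atTop
  have hcomp : ∀ i, ∃ c : H1 N, fn c =ᵐ[volume] (fun x => T (fn (a (k i)) x, fn (b (k i)) x)) ∧
      gr c =ᵐ[volume] fun x => (fderiv ℝ T (fn (a (k i)) x, fn (b (k i)) x) (1, 0)) • gr (a (k i)) x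
        + (fderiv ℝ T (fn (a (k i)) x, fn (b (k i)) x) (0, 1)) • gr (b (k i)) x := by
    intro i
    obtain ⟨p1, p2, p3, p4⟩ := ha (k i)
    obtain ⟨q1, q2, q3, q4⟩ := hb (k i)
    have s1 : ContDiff ℝ 1 (fun x => T (φ (k i) x, ψ (k i) x)) := hT.comp (p1.prodMk q1)
    have s2 : HasCompactSupport (fun x => T (φ (k i) x, ψ (k i) x)) := by
      have hK : IsCompact (tsupport (φ (k i)) ∪ tsupport (ψ (k i))) := p2.union q2
      refine HasCompactSupport.intro hK fun x hx => ?_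
      have h1 : φ (k i) x = 0 := image_eq_zero_of_notMem_tsupport fun h => hx (Or.inl h)
      have h2 : ψ (k i) x = 0 := image_eq_zero_of_notMem_tsupport fun h => hx (Or.inr h)
      simp only [h1, h2, h0]
    obtain ⟨c, c1, c2⟩ := ofCc _ s1 s2
    refine ⟨c, ?_, ?_⟩
    · filter_upwards [c1, p3, q3] with x e1 e2 e3
      rw [e1, e2, e3]
    · filter_upwards [c2, p3, q3, p4, q4] with x e1 e2 e3 e4 e5
      rw [e1, e2, e3, e4, e5]
      exact cha_grad T hT _ _ p1 q1 x
  choose c hc1 hc2 using hcomp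
  have hTle : ∀ p : ℝ × ℝ, |T p| ≤ M * (|p.1| + |p.2|) := cha_tle T hT h0 M hM
  have cf : Continuous (fderiv ℝ T) := hT.continuous_fderiv (by norm_num)
  have c10 : Continuous (fun p => fderiv ℝ T p (1, 0)) := cf.clm_apply continuous_const
  have c01 : Continuous (fun p => fderiv ℝ T p (0, 1)) := cf.clm_apply continuous_const
  have memf := cha_memf u v T (cha_meas T hT.continuous u v) M hTle
  have memg := cha_memg (fun x => fderiv ℝ T (fn u x, fn v x) (1, 0))
    (fun x => fderiv ℝ T (fn u x, fn v x) (0, 1)) (cha_meas _ c10 u v) (cha_meas _ c01 u v) M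
    (fun x => (cha_ev1 _).trans (hM _)) (fun x => (cha_ev2 _).trans (hM _)) u v
  suffices hsuf : Tendsto (fun n => ∫ x, (fn (c n) x - T (fn u x, fn v x)) ^ 2) atTop (𝓝 0) ∧
      Tendsto (fun n => ∫ x, ‖gr (c n) x - ((fderiv ℝ T (fn u x, fn v x) (1, 0)) • gr u x
        + (fderiv ℝ T (fn u x, fn v x) (0, 1)) • gr v x)‖ ^ 2) atTop (𝓝 0) by
    obtain ⟨w, w1, w2, _⟩ := H1_closed c _ _ memf memg hsuf.1 hsuf.2
    exact ⟨w, w1, w2⟩
  constructor
  · -- convergence of the functions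
    have hlim : Tendsto (fun i => M ^ 2 * ((∫ x, (fn (a (k i)) x - fn u x) ^ 2)
        + ∫ x, (fn (b (k i)) x - fn v x) ^ 2)) atTop (𝓝 0) := by
      have := ((cha_tendsto_fn _ u lak).add (cha_tendsto_fn _ v lbk)).const_mul (M ^ 2)
      simpa using this
    refine squeeze_zero (fun n => integral_nonneg fun x => sq_nonneg _) (fun n => ?_) hlim
    have i1 : Integrable (fun x => (fn (a (k n)) x - fn u x) ^ 2) (volume : Measure (E N)) :=
      ((fn_memLp _).sub (fn_memLp _)).integrable_sq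
    have i2 : Integrable (fun x => (fn (b (k n)) x - fn v x) ^ 2) (volume : Measure (E N)) :=
      ((fn_memLp _).sub (fn_memLp _)).integrable_sq
    rw [← integral_add i1 i2, ← integral_const_mul]
    refine integral_mono_of_nonneg (Eventually.of_forall fun x => sq_nonneg _)
      ((i1.add i2).const_mul _) ?_
    filter_upwards [hc1 n] with x e
    rw [e]
    exact cha_lip T hT M hM _ _
  · -- convergence of the gradients
    set δ : ℕ → E N → ℝ := fun i x =>
      ‖fderiv ℝ T (fn (a (k i)) x, fn (b (k i)) x) - fderiv ℝ T (fn u x, fn v x)‖ with hδ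
    set B : E N → ℝ := fun x => ‖gr u x‖ ^ 2 + ‖gr v x‖ ^ 2 with hB
    have iB : Integrable B (volume : Measure (E N)) :=
      ((gr_memLp u).integrable_norm_pow (by norm_num)).add
        ((gr_memLp v).integrable_norm_pow (by norm_num))
    have mδ : ∀ i, AEStronglyMeasurable (δ i) (volume : Measure (E N)) := by
      intro i
      exact ((cf.comp_aestronglyMeasurable ((fn_memLp _).1.prodMk (fn_memLp _).1)).sub
        (cf.comp_aestronglyMeasurable ((fn_memLp _).1.prodMk (fn_memLp _).1))).norm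
    have δle : ∀ i x, δ i x ≤ 2 * M := by
      intro i x
      refine (norm_sub_le _ _).trans ?_
      linarith [hM (fn (a (k i)) x, fn (b (k i)) x), hM (fn u x, fn v x)]
    have δ0 : ∀ i x, 0 ≤ δ i x := fun i x => norm_nonneg _
    have hbd : ∀ i x, ‖δ i x ^ 2 * B x‖ ≤ (2 * M) ^ 2 * B x := by
      intro i x
      have hB0 : 0 ≤ B x := by positivity
      rw [Real.norm_eq_abs, abs_of_nonneg (by positivity)]
      exact mul_le_mul_of_nonneg_right (pow_le_pow_left₀ (δ0 i x) (δle i x) 2) hB0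
    have iδ : ∀ i, Integrable (fun x => δ i x ^ 2 * B x) (volume : Measure (E N)) := by
      intro i
      exact (iB.const_mul ((2 * M) ^ 2)).mono' (((mδ i).pow 2).mul iB.1)
        (Eventually.of_forall fun x => hbd i x)
    have lδ : Tendsto (fun i => ∫ x, δ i x ^ 2 * B x) atTop (𝓝 0) := by
      have h := tendsto_integral_of_dominated_convergence (μ := (volume : Measure (E N)))
        (F := fun i x => δ i x ^ 2 * B x) (f := fun _ => (0 : ℝ)) (fun x => (2 * M) ^ 2 * B x)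
        (fun i => (iδ i).1) (iB.const_mul _) (fun i => Eventually.of_forall fun x => hbd i x) ?_
      · simpa using h
      · filter_upwards [ae1', ae2] with x e1 e2
        have h1 : Tendsto (fun i => fderiv ℝ T (fn (a (k i)) x, fn (b (k i)) x)) atTop
            (𝓝 (fderiv ℝ T (fn u x, fn v x))) :=
          (cf.tendsto _).comp (e1.prodMk_nhds e2)
        have h2 : Tendsto (fun i => δ i x) atTop (𝓝 0) := tendsto_iff_norm_sub_tendsto_zero.1 h1
        have h3 := (h2.pow 2).mul_const (B x)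
        simpa using h3
    have hlim : Tendsto (fun i => 4 * (M ^ 2 * (∫ x, ‖gr (a (k i)) x - gr u x‖ ^ 2)
        + M ^ 2 * (∫ x, ‖gr (b (k i)) x - gr v x‖ ^ 2) + ∫ x, δ i x ^ 2 * B x)) atTop (𝓝 0) := by
      have := ((((cha_tendsto_gr _ u lak).const_mul (M ^ 2)).add
        ((cha_tendsto_gr _ v lbk).const_mul (M ^ 2))).add lδ).const_mul 4
      simpa using this
    refine squeeze_zero (fun n => integral_nonneg fun x => sq_nonneg _) (fun n => ?_) hlim
    have i1 : Integrable (fun x => ‖gr (a (k n)) x - gr u x‖ ^ 2) (volume : Measure (E N)) :=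
      ((gr_memLp _).sub (gr_memLp _)).integrable_norm_pow (by norm_num)
    have i2 : Integrable (fun x => ‖gr (b (k n)) x - gr v x‖ ^ 2) (volume : Measure (E N)) :=
      ((gr_memLp _).sub (gr_memLp _)).integrable_norm_pow (by norm_num)
    have i12 : Integrable (fun x => M ^ 2 * ‖gr (a (k n)) x - gr u x‖ ^ 2
        + M ^ 2 * ‖gr (b (k n)) x - gr v x‖ ^ 2) (volume : Measure (E N)) :=
      (i1.const_mul _).add (i2.const_mul _)
    rw [← integral_const_mul, ← integral_const_mul, ← integral_add (i1.const_mul _) (i2.const_mul _),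
      ← integral_add i12 (iδ n), ← integral_const_mul]
    refine integral_mono_of_nonneg (Eventually.of_forall fun x => sq_nonneg _)
      ((i12.add (iδ n)).const_mul _) ?_
    filter_upwards [hc2 n] with x e
    rw [e]
    have z1 : |fderiv ℝ T (fn (a (k n)) x, fn (b (k n)) x) (1, 0)| ≤ M := (cha_ev1 _).trans (hM _)
    have z2 : |fderiv ℝ T (fn (a (k n)) x, fn (b (k n)) x) (0, 1)| ≤ M := (cha_ev2 _).trans (hM _)
    have z3 : |fderiv ℝ T (fn (a (k n)) x, fn (b (k n)) x) (1, 0)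
        - fderiv ℝ T (fn u x, fn v x) (1, 0)| ≤ δ n x := by
      have := cha_ev1 (fderiv ℝ T (fn (a (k n)) x, fn (b (k n)) x) - fderiv ℝ T (fn u x, fn v x))
      simpa using this
    have z4 : |fderiv ℝ T (fn (a (k n)) x, fn (b (k n)) x) (0, 1)
        - fderiv ℝ T (fn u x, fn v x) (0, 1)| ≤ δ n x := by
      have := cha_ev2 (fderiv ℝ T (fn (a (k n)) x, fn (b (k n)) x) - fderiv ℝ T (fn u x, fn v x))
      simpa using this
    exact cha_alg _ _ _ _ _ _ _ _ _ _ z1 z2 z3 z4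

private theorem cha_lim (T : ℕ → ℝ × ℝ → ℝ) (hT : ∀ n, ContDiff ℝ 1 (T n))
    (h0 : ∀ n, T n (0, 0) = 0) (M : ℝ) (hM : ∀ n p, ‖fderiv ℝ (T n) p‖ ≤ M)
    (S D1 D2 : ℝ × ℝ → ℝ) (hS : ∀ p, Tendsto (fun n => T n p) atTop (𝓝 (S p)))
    (hD1 : ∀ p, Tendsto (fun n => fderiv ℝ (T n) p (1, 0)) atTop (𝓝 (D1 p)))
    (hD2 : ∀ p, Tendsto (fun n => fderiv ℝ (T n) p (0, 1)) atTop (𝓝 (D2 p))) (u v : H1 N) :
    ∃ w : H1 N, fn w =ᵐ[volume] (fun x => S (fn u x, fn v x)) ∧
      gr w =ᵐ[volume] fun x => (D1 (fn u x, fn v x)) • gr u x + (D2 (fn u x, fn v x)) • gr v x := by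
  have hM0 : 0 ≤ M := (norm_nonneg _).trans (hM 0 0)
  have hTle : ∀ n (p : ℝ × ℝ), |T n p| ≤ M * (|p.1| + |p.2|) :=
    fun n => cha_tle (T n) (hT n) (h0 n) M (hM n)
  have hSle : ∀ p : ℝ × ℝ, |S p| ≤ M * (|p.1| + |p.2|) := fun p =>
    le_of_tendsto (hS p).abs (Eventually.of_forall fun n => hTle n p)
  have b1 : ∀ n p, |fderiv ℝ (T n) p (1, 0)| ≤ M := fun n p => (cha_ev1 _).trans (hM n p)
  have b2 : ∀ n p, |fderiv ℝ (T n) p (0, 1)| ≤ M := fun n p => (cha_ev2 _).trans (hM n p)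
  have c1 : ∀ p, |D1 p| ≤ M := fun p =>
    le_of_tendsto (hD1 p).abs (Eventually.of_forall fun n => b1 n p)
  have c2 : ∀ p, |D2 p| ≤ M := fun p =>
    le_of_tendsto (hD2 p).abs (Eventually.of_forall fun n => b2 n p)
  choose c hc1 hc2 using fun n => chain2 (T n) (hT n) (h0 n) M (hM n) u v
  have cf : ∀ n, Continuous (fderiv ℝ (T n)) := fun n => (hT n).continuous_fderiv (by norm_num)
  have mT : ∀ n, AEStronglyMeasurable (fun x => T n (fn u x, fn v x)) (volume : Measure (E N)) :=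
    fun n => cha_meas (T n) (hT n).continuous u v
  have mA : ∀ n, AEStronglyMeasurable (fun x => fderiv ℝ (T n) (fn u x, fn v x) (1, 0))
      (volume : Measure (E N)) :=
    fun n => cha_meas (fun p => fderiv ℝ (T n) p (1, 0)) ((cf n).clm_apply continuous_const) u v
  have mB : ∀ n, AEStronglyMeasurable (fun x => fderiv ℝ (T n) (fn u x, fn v x) (0, 1))
      (volume : Measure (E N)) :=
    fun n => cha_meas (fun p => fderiv ℝ (T n) p (0, 1)) ((cf n).clm_apply continuous_const) u v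
  have mS : AEStronglyMeasurable (fun x => S (fn u x, fn v x)) (volume : Measure (E N)) :=
    aestronglyMeasurable_of_tendsto_ae atTop mT (Eventually.of_forall fun x => hS _)
  have mD1 : AEStronglyMeasurable (fun x => D1 (fn u x, fn v x)) (volume : Measure (E N)) :=
    aestronglyMeasurable_of_tendsto_ae atTop mA (Eventually.of_forall fun x => hD1 _)
  have mD2 : AEStronglyMeasurable (fun x => D2 (fn u x, fn v x)) (volume : Measure (E N)) :=
    aestronglyMeasurable_of_tendsto_ae atTop mB (Eventually.of_forall fun x => hD2 _)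
  have memf := cha_memf u v S mS M hSle
  have memg := cha_memg _ _ mD1 mD2 M (fun x => c1 _) (fun x => c2 _) u v
  suffices hsuf : Tendsto (fun n => ∫ x, (fn (c n) x - S (fn u x, fn v x)) ^ 2) atTop (𝓝 0) ∧
      Tendsto (fun n => ∫ x, ‖gr (c n) x - (D1 (fn u x, fn v x) • gr u x
        + D2 (fn u x, fn v x) • gr v x)‖ ^ 2) atTop (𝓝 0) by
    obtain ⟨w, w1, w2, _⟩ := H1_closed c _ _ memf memg hsuf.1 hsuf.2
    exact ⟨w, w1, w2⟩
  constructor
  · have ib : Integrable (fun x => (2 * M * (|fn u x| + |fn v x|)) ^ 2) (volume : Measure (E N)) :=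
      (((fn_memLp u).norm.add (fn_memLp v).norm).const_mul (2 * M)).integrable_sq
    have h := tendsto_integral_of_dominated_convergence (μ := (volume : Measure (E N)))
      (F := fun n x => (T n (fn u x, fn v x) - S (fn u x, fn v x)) ^ 2) (f := fun _ => (0 : ℝ))
      (fun x => (2 * M * (|fn u x| + |fn v x|)) ^ 2) (fun n => ((mT n).sub mS).pow 2) ib
      (fun n => Eventually.of_forall fun x => ?_) (Eventually.of_forall fun x => ?_)
    · rw [integral_zero] at h
      refine h.congr fun n => ?_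
      refine integral_congr_ae ?_
      filter_upwards [hc1 n] with x e
      rw [e]
    · simp only [Real.norm_eq_abs, abs_pow]
      refine pow_le_pow_left₀ (abs_nonneg _) ?_ 2
      refine (abs_sub _ _).trans ?_
      linarith [hTle n (fn u x, fn v x), hSle (fn u x, fn v x)]
    · have := ((hS (fn u x, fn v x)).sub_const (S (fn u x, fn v x))).pow 2
      simpa using this
  · have ib : Integrable (fun x => (2 * M * (‖gr u x‖ + ‖gr v x‖)) ^ 2) (volume : Measure (E N)) :=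
      (((gr_memLp u).norm.add (gr_memLp v).norm).const_mul (2 * M)).integrable_sq
    have h := tendsto_integral_of_dominated_convergence (μ := (volume : Measure (E N)))
      (F := fun n x => ‖(fderiv ℝ (T n) (fn u x, fn v x) (1, 0) - D1 (fn u x, fn v x)) • gr u x
        + (fderiv ℝ (T n) (fn u x, fn v x) (0, 1) - D2 (fn u x, fn v x)) • gr v x‖ ^ 2)
      (f := fun _ => (0 : ℝ))
      (fun x => (2 * M * (‖gr u x‖ + ‖gr v x‖)) ^ 2)
      (fun n => (((((mA n).sub mD1).smul (gr_memLp u).1).add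
        (((mB n).sub mD2).smul (gr_memLp v).1)).norm.pow 2)) ib
      (fun n => Eventually.of_forall fun x => ?_) (Eventually.of_forall fun x => ?_)
    · rw [integral_zero] at h
      refine h.congr fun n => ?_
      refine integral_congr_ae ?_
      filter_upwards [hc2 n] with x e
      rw [e]
      congr 2
      simp only [sub_smul]
      abel
    · rw [Real.norm_eq_abs, abs_pow, abs_norm]
      refine pow_le_pow_left₀ (norm_nonneg _) ?_ 2
      refine (norm_add_le _ _).trans ?_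
      rw [norm_smul, norm_smul, mul_add]
      refine add_le_add (mul_le_mul_of_nonneg_right ?_ (norm_nonneg _))
        (mul_le_mul_of_nonneg_right ?_ (norm_nonneg _))
      · refine (abs_sub _ _).trans ?_
        linarith [b1 n (fn u x, fn v x), c1 (fn u x, fn v x)]
      · refine (abs_sub _ _).trans ?_
        linarith [b2 n (fn u x, fn v x), c2 (fn u x, fn v x)]
    · have h1 := ((hD1 (fn u x, fn v x)).sub_const (D1 (fn u x, fn v x))).smul_const (gr u x)
      have h2 := ((hD2 (fn u x, fn v x)).sub_const (D2 (fn u x, fn v x))).smul_const (gr v x)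
      have := (h1.add h2).norm.pow 2
      simpa using this

private theorem cha_fst (g : ℝ → ℝ) (hg : ContDiff ℝ 1 g) (p : ℝ × ℝ) :
    fderiv ℝ (fun q : ℝ × ℝ => g q.1) p = (deriv g p.1) • ContinuousLinearMap.fst ℝ ℝ ℝ := by
  have h1 : HasDerivAt g (deriv g p.1) p.1 := (hg.differentiable (by norm_num) p.1).hasDerivAt
  have h2 : HasFDerivAt (fun q : ℝ × ℝ => q.1) (ContinuousLinearMap.fst ℝ ℝ ℝ) p := hasFDerivAt_fst
  exact (h1.comp_hasFDerivAt p h2).fderiv

private theorem cha_fst_norm (g : ℝ → ℝ) (hg : ContDiff ℝ 1 g) (M : ℝ) (hM : ∀ s, |deriv g s| ≤ M)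
    (p : ℝ × ℝ) : ‖fderiv ℝ (fun q : ℝ × ℝ => g q.1) p‖ ≤ M := by
  rw [cha_fst g hg, norm_smul]
  have h1 := ContinuousLinearMap.norm_fst_le ℝ ℝ ℝ
  have h2 := hM p.1
  rw [Real.norm_eq_abs]
  calc |deriv g p.1| * ‖ContinuousLinearMap.fst ℝ ℝ ℝ‖ ≤ M * 1 :=
        mul_le_mul h2 h1 (norm_nonneg _) ((abs_nonneg _).trans h2)
    _ = M := mul_one M

/-- module cha. One function: `T ∘ Prod.fst` in `chain2`. -/
theorem chain1 (T : ℝ → ℝ) (hT : ContDiff ℝ 1 T) (h0 : T 0 = 0) (M : ℝ)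
    (hM : ∀ s, |deriv T s| ≤ M) (u : H1 N) :
    ∃ w : H1 N, fn w =ᵐ[volume] (fun x => T (fn u x)) ∧
      gr w =ᵐ[volume] fun x => (deriv T (fn u x)) • gr u x := by
  obtain ⟨w, h1, h2⟩ := chain2 (fun q : ℝ × ℝ => T q.1) (hT.comp contDiff_fst) h0 M
    (cha_fst_norm T hT M hM) u u
  refine ⟨w, h1, ?_⟩
  filter_upwards [h2] with x e
  rw [e, cha_fst T hT]
  simp

private theorem abm_contDiff (ε : ℝ) (hε : 0 < ε) :
    ContDiff ℝ 1 (fun s : ℝ => Real.sqrt (s ^ 2 + ε ^ 2) - ε) := by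
  refine ContDiff.sub (ContDiff.sqrt ((contDiff_id.pow 2).add contDiff_const) fun s => ?_)
    contDiff_const
  have : 0 < s ^ 2 + ε ^ 2 := by positivity
  exact this.ne'

private theorem abm_deriv (ε : ℝ) (hε : 0 < ε) (s : ℝ) :
    deriv (fun s : ℝ => Real.sqrt (s ^ 2 + ε ^ 2) - ε) s = s / Real.sqrt (s ^ 2 + ε ^ 2) := by
  have hp : s ^ 2 + ε ^ 2 ≠ 0 := by positivity
  have h1 : HasDerivAt (fun s : ℝ => s ^ 2 + ε ^ 2) (2 * s) s := by
    simpa using (hasDerivAt_pow 2 s).add_const (ε ^ 2)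
  have h2 := (h1.sqrt hp).sub_const ε
  rw [h2.deriv]
  field_simp

private theorem abm_deriv_le (ε : ℝ) (hε : 0 < ε) (s : ℝ) :
    |deriv (fun s : ℝ => Real.sqrt (s ^ 2 + ε ^ 2) - ε) s| ≤ 1 := by
  rw [abm_deriv ε hε, abs_div, abs_of_nonneg (Real.sqrt_nonneg _)]
  refine div_le_one_of_le₀ ?_ (Real.sqrt_nonneg _)
  rw [← Real.sqrt_sq_eq_abs]
  exact Real.sqrt_le_sqrt (by nlinarith [sq_nonneg ε])

private theorem abm_lim1 (a : ℝ) (ε : ℕ → ℝ) (hε : Tendsto ε atTop (𝓝 0)) :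
    Tendsto (fun n => Real.sqrt (a + ε n ^ 2) - ε n) atTop (𝓝 (Real.sqrt a)) := by
  have h1 : Tendsto (fun n => a + ε n ^ 2) atTop (𝓝 (a + 0 ^ 2)) :=
    (tendsto_const_nhds).add (hε.pow 2)
  have h2 := ((Real.continuous_sqrt.tendsto _).comp h1).sub hε
  simpa using h2

private theorem abm_lim2 (a s : ℝ) (ha : 0 ≤ a) (hs : a = 0 → s = 0) (ε : ℕ → ℝ)
    (hε : Tendsto ε atTop (𝓝 0)) :
    Tendsto (fun n => s / Real.sqrt (a + ε n ^ 2)) atTop (𝓝 (s / Real.sqrt a)) := by
  rcases ha.eq_or_lt with h | h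
  · rw [hs h.symm]
    simp
  · have h1 : Tendsto (fun n => a + ε n ^ 2) atTop (𝓝 (a + 0 ^ 2)) :=
      (tendsto_const_nhds).add (hε.pow 2)
    have h2 : Tendsto (fun n => Real.sqrt (a + ε n ^ 2)) atTop (𝓝 (Real.sqrt a)) := by
      have := h1.sqrt
      simpa using this
    exact tendsto_const_nhds.div h2 (Real.sqrt_pos.2 h).ne'

private theorem abm_sign (s : ℝ) :
    s / Real.sqrt (s ^ 2) = ((SignType.sign s : SignType) : ℝ) := by
  rw [Real.sqrt_sq_eq_abs]
  rcases lt_trichotomy s 0 with h | h | h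
  · rw [sign_neg h, abs_of_neg h, div_neg, div_self h.ne]
    simp
  · rw [h]; simp
  · rw [sign_pos h, abs_of_pos h, div_self h.ne']
    simp

private theorem abm_eps : Tendsto (fun n : ℕ => (1 : ℝ) / ((n : ℝ) + 1)) atTop (𝓝 0) :=
  tendsto_one_div_add_atTop_nhds_zero_nat

/-- module abm. The absolute value.
Proof: `chain1` with `T s = √(s² + ε²) - ε`, `ε = 1/(n+1)`: `T'(s) = s/√(s²+ε²) → sign s`, dominated convergence in
`L²` for the function and for the gradient, `H1_closed`. -/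
theorem abs_H (u : H1 N) : ∃ w : H1 N, fn w =ᵐ[volume] (fun x => |fn u x|) ∧
    gr w =ᵐ[volume] fun x => ((SignType.sign (fn u x) : SignType) : ℝ) • gr u x := by
  have hp : ∀ n : ℕ, 0 < (1 : ℝ) / ((n : ℝ) + 1) := fun n => by positivity
  obtain ⟨w, h1, h2⟩ := cha_lim
    (fun n (q : ℝ × ℝ) => Real.sqrt (q.1 ^ 2 + (1 / ((n : ℝ) + 1)) ^ 2) - 1 / ((n : ℝ) + 1))
    (fun n => (abm_contDiff _ (hp n)).comp contDiff_fst)
    (fun n => by
      simp only
      rw [zero_pow (by norm_num), zero_add, Real.sqrt_sq (hp n).le, sub_self])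
    1 (fun n => cha_fst_norm _ (abm_contDiff _ (hp n)) 1 (abm_deriv_le _ (hp n)))
    (fun q => |q.1|) (fun q => ((SignType.sign q.1 : SignType) : ℝ)) (fun _ => 0)
    (fun q => by
      rw [← Real.sqrt_sq_eq_abs]
      exact abm_lim1 _ _ abm_eps)
    (fun q => by
      have h := abm_lim2 (q.1 ^ 2) q.1 (sq_nonneg _) (fun h => by simpa using h) _ abm_eps
      rw [abm_sign] at h
      refine h.congr fun n => ?_
      rw [cha_fst _ (abm_contDiff _ (hp n)), abm_deriv _ (hp n)]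
      simp)
    (fun q => by
      refine tendsto_const_nhds.congr fun n => ?_
      rw [cha_fst _ (abm_contDiff _ (hp n))]
      simp) u u
  refine ⟨w, h1, ?_⟩
  filter_upwards [h2] with x e
  rw [e]
  simp

/-- module abm. The gradient vanishes where the function vanishes.
Proof: let `w` be `abs_H u` and `p = (1/2) (u + w)`, so `fn p = max (fn u) 0` and `gr p = (1/2) gr u` a.e. on
`{fn u = 0}`. Apply `abs_H` to `p`: `|fn p| = fn p`, so by `H1_ext` `gr p = sign (fn p) gr p`, which is `0`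
where `fn p = 0`. -/
theorem gr_zero_of_fn_zero (u : H1 N) : ∀ᵐ x : E N, fn u x = 0 → gr u x = 0 := by
  obtain ⟨w, h1, h2⟩ := abs_H u
  obtain ⟨w', k1, k2⟩ := abs_H ((1 / 2 : ℝ) • (u + w))
  have e1 : w' = (1 / 2 : ℝ) • (u + w) := by
    refine H1_ext ?_
    filter_upwards [k1, fn_smul (1 / 2 : ℝ) (u + w), fn_add u w, h1] with x a b c d
    rw [a, b, c, d, abs_of_nonneg]
    have := neg_abs_le (fn u x)
    linarith
  rw [e1] at k2
  filter_upwards [k2, gr_smul (1 / 2 : ℝ) (u + w), gr_add u w, h2,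
    fn_smul (1 / 2 : ℝ) (u + w), fn_add u w, h1] with x a b c d b' c' d' h0
  have hz : fn ((1 / 2 : ℝ) • (u + w)) x = 0 := by
    rw [b', c', d', h0]
    simp
  rw [hz] at a
  simp only [sign_zero, SignType.coe_zero, zero_smul] at a
  rw [b, c, d, h0] at a
  simpa using a

/-- module abm. `|u|` has the same `gX`, `gY`, `ip`. -/
theorem abs_H' (u : H1 N) : ∃ w : H1 N, fn w =ᵐ[volume] (fun x => |fn u x|) ∧
    gX w w = gX u u ∧ gY w w = gY u u := by
  obtain ⟨w, h1, h2⟩ := abs_H u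
  refine ⟨w, h1, ?_, ?_⟩
  · unfold gX
    refine integral_congr_ae ?_
    filter_upwards [h2, gr_zero_of_fn_zero u] with x a b
    rw [a, real_inner_smul_left, real_inner_smul_right]
    rcases lt_trichotomy (fn u x) 0 with h | h | h
    · rw [sign_neg h]; simp
    · rw [b h]; simp
    · rw [sign_pos h]; simp
  · unfold gY
    refine integral_congr_ae ?_
    filter_upwards [h1] with x a
    rw [a, abs_mul_abs_self]

/-- module abm. The positive part and the negative part: `u = p - q`, `p, q ≥ 0`, `p q = 0`, and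
`gX`, `gY` are additive (the gradients of `p` and `q` have disjoint supports). -/
theorem pos_neg_H (u : H1 N) : ∃ p q : H1 N, fn p =ᵐ[volume] (fun x => max (fn u x) 0) ∧
    fn q =ᵐ[volume] (fun x => max (- fn u x) 0) ∧ u = p - q ∧
    gX p q = 0 ∧ gY p q = 0 ∧ gX u u = gX p p + gX q q ∧ gY u u = gY p p + gY q q := by
  obtain ⟨w, h1, h2, h3⟩ := abs_H' u
  have fw : fn ((1 / 2 : ℝ) • (u + w)) =ᵐ[volume] (fun x => max (fn u x) 0) := by
    filter_upwards [fn_smul (1 / 2 : ℝ) (u + w), fn_add u w, h1] with x b c d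
    rw [b, c, d]
    rcases le_total 0 (fn u x) with h | h
    · rw [abs_of_nonneg h, max_eq_left h]; ring
    · rw [abs_of_nonpos h, max_eq_right h]; ring
  have fq : fn ((1 / 2 : ℝ) • (w + (-1 : ℝ) • u)) =ᵐ[volume] (fun x => max (- fn u x) 0) := by
    filter_upwards [fn_smul (1 / 2 : ℝ) (w + (-1 : ℝ) • u), fn_add w ((-1 : ℝ) • u),
      fn_smul (-1 : ℝ) u, h1] with x b c c' d
    rw [b, c, c', d]
    rcases le_total 0 (fn u x) with h | h
    · rw [abs_of_nonneg h, max_eq_right (by linarith)]; ring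
    · rw [abs_of_nonpos h, max_eq_left (by linarith)]; ring
  refine ⟨_, _, fw, fq, ?_, ?_, ?_, ?_, ?_⟩
  · module
  · rw [gX_smul_left, gX_smul_right, gX_add_left, gX_add_right, gX_add_right, gX_smul_right,
      gX_smul_right, h2, gX_comm w u]
    ring
  · rw [gY_smul_left, gY_smul_right, gY_add_left, gY_add_right, gY_add_right, gY_smul_right,
      gY_smul_right, h3, gY_comm w u]
    ring
  · simp only [gX_smul_left, gX_smul_right, gX_add_left, gX_add_right, h2, gX_comm w u]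
    ring
  · simp only [gY_smul_left, gY_smul_right, gY_add_left, gY_add_right, h3, gY_comm w u]
    ring

private theorem sqm_hasFDeriv (ε : ℝ) (hε : 0 < ε) (p : ℝ × ℝ) :
    HasFDerivAt (fun q : ℝ × ℝ => Real.sqrt (q.1 ^ 2 + q.2 ^ 2 + ε ^ 2) - ε)
      ((p.1 / Real.sqrt (p.1 ^ 2 + p.2 ^ 2 + ε ^ 2)) • ContinuousLinearMap.fst ℝ ℝ ℝ
        + (p.2 / Real.sqrt (p.1 ^ 2 + p.2 ^ 2 + ε ^ 2)) • ContinuousLinearMap.snd ℝ ℝ ℝ) p := by
  have hpos : 0 < p.1 ^ 2 + p.2 ^ 2 + ε ^ 2 := by positivity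
  have h1 : HasFDerivAt (fun q : ℝ × ℝ => q.1) (ContinuousLinearMap.fst ℝ ℝ ℝ) p := hasFDerivAt_fst
  have h2 : HasFDerivAt (fun q : ℝ × ℝ => q.2) (ContinuousLinearMap.snd ℝ ℝ ℝ) p := hasFDerivAt_snd
  have h3 := (((h1.pow 2).add (h2.pow 2)).add_const (ε ^ 2)).sqrt hpos.ne'
  have h4 := h3.sub_const ε
  refine h4.congr_fderiv ?_
  have hs := (Real.sqrt_pos.2 hpos).ne'
  ext
  · simp
    field_simp
  · simp
    field_simp

private theorem sqm_contDiff (ε : ℝ) (hε : 0 < ε) :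
    ContDiff ℝ 1 (fun q : ℝ × ℝ => Real.sqrt (q.1 ^ 2 + q.2 ^ 2 + ε ^ 2) - ε) := by
  refine ContDiff.sub (ContDiff.sqrt (((contDiff_fst.pow 2).add (contDiff_snd.pow 2)).add
    contDiff_const) fun s => ?_) contDiff_const
  have : 0 < s.1 ^ 2 + s.2 ^ 2 + ε ^ 2 := by positivity
  exact this.ne'

private theorem sqm_alg (a b : ℝ) (p q : E N) :
    inner ℝ ((a / Real.sqrt (a ^ 2 + b ^ 2)) • p + (b / Real.sqrt (a ^ 2 + b ^ 2)) • q)
      ((a / Real.sqrt (a ^ 2 + b ^ 2)) • p + (b / Real.sqrt (a ^ 2 + b ^ 2)) • q) ≤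
      (inner ℝ p p + inner ℝ q q : ℝ) := by
  have h0 : 0 ≤ a ^ 2 + b ^ 2 := by positivity
  set r := Real.sqrt (a ^ 2 + b ^ 2) with hr
  have hab : (a / r) ^ 2 + (b / r) ^ 2 ≤ 1 := by
    rw [div_pow, div_pow, Real.sq_sqrt h0, ← add_div]
    exact div_self_le_one _
  generalize a / r = s at hab ⊢
  generalize b / r = t at hab ⊢
  have e : inner ℝ (s • p + t • q) (s • p + t • q) =
      s ^ 2 * ‖p‖ ^ 2 + 2 * (s * t) * inner ℝ p q + t ^ 2 * ‖q‖ ^ 2 := by
    rw [real_inner_self_eq_norm_sq, norm_add_sq_real, norm_smul, norm_smul, real_inner_smul_left,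
      real_inner_smul_right, mul_pow, mul_pow, Real.norm_eq_abs, Real.norm_eq_abs, sq_abs, sq_abs]
    ring
  rw [e, real_inner_self_eq_norm_sq, real_inner_self_eq_norm_sq]
  have hpq := abs_le.1 (abs_real_inner_le_norm p q)
  have hc : 2 * (s * t) * inner ℝ p q ≤ (t * ‖p‖) ^ 2 + (s * ‖q‖) ^ 2 := by
    have h1 : 2 * (s * t) * inner ℝ p q ≤ 2 * |s * t| * (‖p‖ * ‖q‖) := by
      have := abs_real_inner_le_norm p q
      calc 2 * (s * t) * inner ℝ p q ≤ |2 * (s * t) * inner ℝ p q| := le_abs_self _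
        _ = 2 * |s * t| * |inner ℝ p q| := by rw [abs_mul, abs_mul]; norm_num
        _ ≤ _ := mul_le_mul_of_nonneg_left this (by positivity)
    have h2 : 2 * |s * t| * (‖p‖ * ‖q‖) = 2 * (|t| * ‖p‖) * (|s| * ‖q‖) := by
      rw [abs_mul]; ring
    have h3 := two_mul_le_add_sq (|t| * ‖p‖) (|s| * ‖q‖)
    have h4 : (|t| * ‖p‖) ^ 2 = (t * ‖p‖) ^ 2 := by rw [mul_pow, mul_pow, sq_abs]
    have h5 : (|s| * ‖q‖) ^ 2 = (s * ‖q‖) ^ 2 := by rw [mul_pow, mul_pow, sq_abs]
    rw [h4, h5] at h3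
    linarith
  have h6 : (s ^ 2 + t ^ 2) * (‖p‖ ^ 2 + ‖q‖ ^ 2) ≤ 1 * (‖p‖ ^ 2 + ‖q‖ ^ 2) :=
    mul_le_mul_of_nonneg_right hab (by positivity)
  nlinarith [hc, h6]

/-- module sqm. The function `√(u²+v²)`.
Proof: `chain2` with `T(s,t) = √(s²+t²+ε²) - ε`. The gradients `(u ∇u + v ∇v)/√(u²+v²+ε²)` converge in `L²` to
`(u ∇u + v ∇v)/√(u²+v²)` (and `0` where `u = v = 0`), whose norm is at most `(|∇u|² + |∇v|²)^{1/2}`. -/
theorem sqrt_H (u v : H1 N) : ∃ w : H1 N,
    fn w =ᵐ[volume] (fun x => Real.sqrt (fn u x ^ 2 + fn v x ^ 2)) ∧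
      gX w w ≤ gX u u + gX v v ∧ gY w w = gY u u + gY v v := by
  have hp : ∀ n : ℕ, 0 < (1 : ℝ) / ((n : ℝ) + 1) := fun n => by positivity
  have hle : ∀ (a b ε : ℝ), |a / Real.sqrt (a ^ 2 + b ^ 2 + ε ^ 2)| ≤ 1 := by
    intro a b ε
    rw [abs_div, abs_of_nonneg (Real.sqrt_nonneg _)]
    refine div_le_one_of_le₀ ?_ (Real.sqrt_nonneg _)
    rw [← Real.sqrt_sq_eq_abs]
    exact Real.sqrt_le_sqrt (by nlinarith [sq_nonneg ε, sq_nonneg b])
  obtain ⟨w, h1, h2⟩ := cha_lim
    (fun n (q : ℝ × ℝ) => Real.sqrt (q.1 ^ 2 + q.2 ^ 2 + (1 / ((n : ℝ) + 1)) ^ 2) - 1 / ((n : ℝ) + 1))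
    (fun n => sqm_contDiff _ (hp n))
    (fun n => by
      simp only
      rw [zero_pow (by norm_num), zero_add, zero_add, Real.sqrt_sq (hp n).le, sub_self])
    2 (fun n p => by
      rw [(sqm_hasFDeriv _ (hp n) p).fderiv]
      refine (norm_add_le _ _).trans ?_
      rw [norm_smul, norm_smul, Real.norm_eq_abs, Real.norm_eq_abs]
      have a1 := ContinuousLinearMap.norm_fst_le ℝ ℝ ℝ
      have a2 := ContinuousLinearMap.norm_snd_le ℝ ℝ ℝ
      have b1 := hle p.1 p.2 (1 / ((n : ℝ) + 1))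
      have b2 := hle p.2 p.1 (1 / ((n : ℝ) + 1))
      rw [add_comm (p.2 ^ 2)] at b2
      have c1 := mul_le_mul b1 a1 (norm_nonneg _) zero_le_one
      have c2 := mul_le_mul b2 a2 (norm_nonneg _) zero_le_one
      linarith)
    (fun q => Real.sqrt (q.1 ^ 2 + q.2 ^ 2)) (fun q => q.1 / Real.sqrt (q.1 ^ 2 + q.2 ^ 2))
    (fun q => q.2 / Real.sqrt (q.1 ^ 2 + q.2 ^ 2))
    (fun q => abm_lim1 _ _ abm_eps)
    (fun q => by
      have h := abm_lim2 (q.1 ^ 2 + q.2 ^ 2) q.1 (by positivity)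
        (fun h => by nlinarith [sq_nonneg q.1, sq_nonneg q.2]) _ abm_eps
      refine h.congr fun n => ?_
      rw [(sqm_hasFDeriv _ (hp n) q).fderiv]
      simp)
    (fun q => by
      have h := abm_lim2 (q.1 ^ 2 + q.2 ^ 2) q.2 (by positivity)
        (fun h => by nlinarith [sq_nonneg q.1, sq_nonneg q.2]) _ abm_eps
      refine h.congr fun n => ?_
      rw [(sqm_hasFDeriv _ (hp n) q).fderiv]
      simp) u v
  refine ⟨w, h1, ?_, ?_⟩
  · unfold gX
    have iX : ∀ z : H1 N, Integrable (fun x => (inner ℝ (gr z x) (gr z x) : ℝ))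
        (volume : Measure (E N)) := fun z => L2.integrable_inner (𝕜 := ℝ) z.val.snd z.val.snd
    rw [← integral_add (iX u) (iX v)]
    refine integral_mono_of_nonneg (Eventually.of_forall fun x => real_inner_self_nonneg)
      ((iX u).add (iX v)) ?_
    filter_upwards [h2] with x a
    change _ ≤ inner ℝ (gr u x) (gr u x) + inner ℝ (gr v x) (gr v x)
    rw [a]
    exact sqm_alg _ _ _ _
  · unfold gY
    have iY : ∀ z : H1 N, Integrable (fun x => fn z x * fn z x) (volume : Measure (E N)) :=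
      fun z => (fn_memLp z).integrable_mul (fn_memLp z)
    rw [← integral_add (iY u) (iY v)]
    refine integral_congr_ae ?_
    filter_upwards [h1] with x a
    rw [a, Real.mul_self_sqrt (by positivity)]
    ring

/-- module mum. Product with a bounded `C¹` function with bounded gradient.
Proof: `χ φ n` is `C¹_c`, `∇(χ φ n) = χ ∇φ n + φ n ∇χ`, `H1_closed`. -/
theorem mul_H (c : E N → ℝ) (hc : ContDiff ℝ 1 c) (M : ℝ) (h1 : ∀ x, |c x| ≤ M)
    (h2 : ∀ x, ‖gradient c x‖ ≤ M) (u : H1 N) :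
    ∃ w : H1 N, fn w =ᵐ[volume] (fun x => c x * fn u x) ∧
      gr w =ᵐ[volume] fun x => c x • gr u x + fn u x • gradient c x := by
  have hM0 : 0 ≤ M := (abs_nonneg _).trans (h1 0)
  obtain ⟨a, φ, ha, la⟩ := exists_approx u
  have cg : Continuous (fun x => gradient c x) := by
    unfold gradient
    exact (InnerProductSpace.toDual ℝ (E N)).symm.continuous.comp
      (hc.continuous_fderiv (by norm_num))
  have hcomp : ∀ i, ∃ w : H1 N, fn w =ᵐ[volume] (fun x => c x * fn (a i) x) ∧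
      gr w =ᵐ[volume] fun x => c x • gr (a i) x + fn (a i) x • gradient c x := by
    intro i
    obtain ⟨p1, p2, p3, p4⟩ := ha i
    obtain ⟨w, w1, w2⟩ := ofCc (fun x => c x * φ i x) (hc.mul p1) p2.mul_left
    refine ⟨w, ?_, ?_⟩
    · filter_upwards [w1, p3] with x e1 e2
      rw [e1, e2]
    · filter_upwards [w2, p3, p4] with x e1 e2 e3
      rw [e1, e2, e3]
      unfold gradient
      have d1 : DifferentiableAt ℝ c x := hc.differentiable (by norm_num) x
      have d2 : DifferentiableAt ℝ (φ i) x := p1.differentiable (by norm_num) x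
      have : fderiv ℝ (fun y => c y * φ i y) x = c x • fderiv ℝ (φ i) x + φ i x • fderiv ℝ c x :=
        (d1.hasFDerivAt.mul d2.hasFDerivAt).fderiv
      rw [this]
      simp
  choose w hw1 hw2 using hcomp
  have mf : MemLp (fun x => c x * fn u x) 2 (volume : Measure (E N)) := by
    refine MemLp.mono' (g := fun x => M * ‖fn u x‖) ((fn_memLp u).norm.const_mul M)
      (hc.continuous.aestronglyMeasurable.mul (fn_memLp u).1) (Eventually.of_forall fun x => ?_)
    rw [norm_mul]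
    exact mul_le_mul_of_nonneg_right (h1 x) (norm_nonneg _)
  have mg : MemLp (fun x => c x • gr u x + fn u x • gradient c x) 2 (volume : Measure (E N)) := by
    refine MemLp.mono' (g := fun x => M * ‖gr u x‖ + M * ‖fn u x‖)
      (((gr_memLp u).norm.const_mul M).add ((fn_memLp u).norm.const_mul M))
      ((hc.continuous.aestronglyMeasurable.smul (gr_memLp u).1).add
        ((fn_memLp u).1.smul cg.aestronglyMeasurable)) (Eventually.of_forall fun x => ?_)
    refine (norm_add_le _ _).trans (add_le_add ?_ ?_)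
    · rw [norm_smul]
      exact mul_le_mul_of_nonneg_right (h1 x) (norm_nonneg _)
    · rw [norm_smul, mul_comm]
      exact mul_le_mul_of_nonneg_right (h2 x) (norm_nonneg _)
  have j1 : ∀ n, Integrable (fun x => (fn (a n) x - fn u x) ^ 2) (volume : Measure (E N)) :=
    fun n => ((fn_memLp _).sub (fn_memLp _)).integrable_sq
  have j2 : ∀ n, Integrable (fun x => ‖gr (a n) x - gr u x‖ ^ 2) (volume : Measure (E N)) :=
    fun n => ((gr_memLp _).sub (gr_memLp _)).integrable_norm_pow (by norm_num)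
  have l1 := cha_tendsto_fn a u la
  have l2 := cha_tendsto_gr a u la
  obtain ⟨z, z1, z2, _⟩ := H1_closed w _ _ mf mg
    (by
      have hl := l1.const_mul (M ^ 2)
      rw [mul_zero] at hl
      refine squeeze_zero (fun n => integral_nonneg fun x => sq_nonneg _) (fun n => ?_) hl
      rw [← integral_const_mul]
      refine integral_mono_of_nonneg (Eventually.of_forall fun x => sq_nonneg _)
        ((j1 n).const_mul _) ?_
      filter_upwards [hw1 n] with x e
      rw [e, ← mul_sub, mul_pow]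
      refine mul_le_mul_of_nonneg_right ?_ (sq_nonneg _)
      rw [← sq_abs (c x)]
      exact pow_le_pow_left₀ (abs_nonneg _) (h1 x) 2)
    (by
      have hl := (l2.add l1).const_mul (2 * M ^ 2)
      rw [add_zero, mul_zero] at hl
      refine squeeze_zero (fun n => integral_nonneg fun x => sq_nonneg _) (fun n => ?_) hl
      rw [← integral_add (j2 n) (j1 n), ← integral_const_mul]
      refine integral_mono_of_nonneg (Eventually.of_forall fun x => sq_nonneg _)
        (((j2 n).add (j1 n)).const_mul _) ?_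
      filter_upwards [hw2 n] with x e
      rw [e]
      have e2 : c x • gr (a n) x + fn (a n) x • gradient c x
          - (c x • gr u x + fn u x • gradient c x) =
          c x • (gr (a n) x - gr u x) + (fn (a n) x - fn u x) • gradient c x := by
        simp only [smul_sub, sub_smul]
        abel
      rw [e2]
      have k1 : ‖c x • (gr (a n) x - gr u x)‖ ≤ M * ‖gr (a n) x - gr u x‖ := by
        rw [norm_smul]; exact mul_le_mul_of_nonneg_right (h1 x) (norm_nonneg _)
      have k2 : ‖(fn (a n) x - fn u x) • gradient c x‖ ≤ M * |fn (a n) x - fn u x| := by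
        rw [norm_smul, mul_comm]; exact mul_le_mul_of_nonneg_right (h2 x) (norm_nonneg _)
      have k3 := (norm_add_le (c x • (gr (a n) x - gr u x))
        ((fn (a n) x - fn u x) • gradient c x)).trans (add_le_add k1 k2)
      refine (pow_le_pow_left₀ (norm_nonneg _) k3 2).trans ?_
      rw [← sq_abs (fn (a n) x - fn u x)]
      nlinarith [sq_nonneg (M * ‖gr (a n) x - gr u x‖ - M * |fn (a n) x - fn u x|)])
  exact ⟨z, z1, z2⟩

end Sir
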