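import Mathlib

/-!
# MP_2cd2dd_an : definitions

`H1 N` is the Sobolev space `H¹(ℝ^N)`: the closure in `L²(ℝ^N) × L²(ℝ^N; ℝ^N)` of the pairs `(φ, ∇φ)`,
`φ` continuously differentiable with compact support.
-/

namespace Sir

open MeasureTheory

/-- the space `ℝ^N` -/
abbrev E (N : ℕ) : Type := EuclideanSpace ℝ (Fin N)

/-- `L²(ℝ^N) × L²(ℝ^N; ℝ^N)` with its Hilbert space norm -/
abbrev Amb (N : ℕ) : Type :=
  WithLp 2 (Lp ℝ 2 (volume : Measure (E N)) × Lp (E N) 2 (volume : Measure (E N)))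

/-- the pairs `(φ, ∇φ)`, `φ` of class `C¹` with compact support -/
def graph0 (N : ℕ) : Submodule ℝ (Amb N) where
  carrier := {z | ∃ φ : E N → ℝ, ContDiff ℝ 1 φ ∧ HasCompactSupport φ ∧
    (z.fst : E N → ℝ) =ᵐ[volume] φ ∧ (z.snd : E N → E N) =ᵐ[volume] fun x => gradient φ x}
  add_mem' := by
    rintro z w ⟨φ, h1, h2, h3, h4⟩ ⟨ψ, k1, k2, k3, k4⟩
    refine ⟨φ + ψ, h1.add k1, h2.add k2, ?_, ?_⟩
    · filter_upwards [h3, k3, Lp.coeFn_add z.fst w.fst] with x a b c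
      change ((z.fst + w.fst : Lp ℝ 2 (volume : Measure (E N))) : E N → ℝ) x = _
      rw [c]
      simp [a, b]
    · filter_upwards [h4, k4, Lp.coeFn_add z.snd w.snd] with x a b c
      change ((z.snd + w.snd : Lp (E N) 2 (volume : Measure (E N))) : E N → E N) x = _
      rw [c]
      simp only [Pi.add_apply, a, b]
      have e : gradient (φ + ψ) x = gradient φ x + gradient ψ x := by
        unfold gradient
        rw [fderiv_add (h1.differentiable (by norm_num) x) (k1.differentiable (by norm_num) x)]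
        simp
      rw [e]
  zero_mem' := by
    refine ⟨fun _ => 0, contDiff_const, HasCompactSupport.zero, ?_, ?_⟩
    · exact Lp.coeFn_zero _ _ _
    · filter_upwards [Lp.coeFn_zero (E N) 2 (volume : Measure (E N))] with x a
      change ((0 : Lp (E N) 2 (volume : Measure (E N))) : E N → E N) x = _
      rw [a]
      simp [gradient]
  smul_mem' := by
    rintro c z ⟨φ, h1, h2, h3, h4⟩
    refine ⟨c • φ, contDiff_const.smul h1, h2.smul_left, ?_, ?_⟩
    · filter_upwards [h3, Lp.coeFn_smul c z.fst] with x a b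
      change ((c • z.fst : Lp ℝ 2 (volume : Measure (E N))) : E N → ℝ) x = _
      rw [b]
      simp [a]
    · filter_upwards [h4, Lp.coeFn_smul c z.snd] with x a b
      change ((c • z.snd : Lp (E N) 2 (volume : Measure (E N))) : E N → E N) x = _
      rw [b]
      simp only [Pi.smul_apply, a]
      have e : gradient (c • φ) x = c • gradient φ x := by
        unfold gradient
        rw [fderiv_const_smul (h1.differentiable (by norm_num) x)]
        simp
      rw [e]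

/-- the Sobolev space `H¹(ℝ^N)` -/
def H1 (N : ℕ) : Type := ↥((graph0 N).topologicalClosure)

noncomputable instance (N : ℕ) : NormedAddCommGroup (H1 N) :=
  inferInstanceAs (NormedAddCommGroup ↥((graph0 N).topologicalClosure))

noncomputable instance (N : ℕ) : InnerProductSpace ℝ (H1 N) :=
  inferInstanceAs (InnerProductSpace ℝ ↥((graph0 N).topologicalClosure))

/-- the underlying pair `(u, ∇u)` -/
def H1.val {N : ℕ} (u : H1 N) : Amb N := Subtype.val (p := (· ∈ (graph0 N).topologicalClosure)) u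

/-- the function `u` itself -/
noncomputable def fn {N : ℕ} (u : H1 N) : E N → ℝ := (u.val.fst : E N → ℝ)

/-- the gradient `∇u` -/
noncomputable def gr {N : ℕ} (u : H1 N) : E N → E N := (u.val.snd : E N → E N)

/-- `∫ ∇u · ∇v` -/
noncomputable def gX {N : ℕ} (u v : H1 N) : ℝ := ∫ x, inner ℝ (gr u x) (gr v x)

/-- `∫ u v` -/
noncomputable def gY {N : ℕ} (u v : H1 N) : ℝ := ∫ x, fn u x * fn v x

/-- `∫ (∇u · ∇v + l u v)` -/
noncomputable def ip {N : ℕ} (l : ℝ) (u v : H1 N) : ℝ := gX u v + l * gY u v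

/-- `∫ u v w z` -/
noncomputable def Q4 {N : ℕ} (u v w z : H1 N) : ℝ := ∫ x, fn u x * fn v x * fn w x * fn z x

/-- the energy `E_β(u,v)` -/
noncomputable def En {N : ℕ} (l1 l2 m1 m2 be : ℝ) (u v : H1 N) : ℝ :=
  (ip l1 u u + ip l2 v v) / 2 - (m1 * Q4 u u u u + 2 * be * Q4 u u v v + m2 * Q4 v v v v) / 4

/-- the set `𝒩_β` -/
def Neh {N : ℕ} (l1 l2 m1 m2 be : ℝ) (u v : H1 N) : Prop :=
  u ≠ 0 ∧ v ≠ 0 ∧ ip l1 u u = m1 * Q4 u u u u + be * Q4 u u v v ∧
    ip l2 v v = m2 * Q4 v v v v + be * Q4 u u v v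

/-- `(u,v)` is a (weak) solution of the system `(S)` -/
def Sol {N : ℕ} (l1 l2 m1 m2 be : ℝ) (u v : H1 N) : Prop :=
  (∀ h : H1 N, ip l1 u h = m1 * Q4 u u u h + be * Q4 v v u h) ∧
    (∀ h : H1 N, ip l2 v h = m2 * Q4 v v v h + be * Q4 u u v h)

/-- the level `A_β` -/
noncomputable def level (N : ℕ) (l1 l2 m1 m2 be : ℝ) : ℝ :=
  sInf {e : ℝ | ∃ u v : H1 N, Neh l1 l2 m1 m2 be u v ∧ e = En l1 l2 m1 m2 be u v}

/-- the system `(S)` has a ground state -/
def HasGS (N : ℕ) (l1 l2 m1 m2 be : ℝ) : Prop :=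
  ∃ u v : H1 N, u ≠ 0 ∧ v ≠ 0 ∧ Sol l1 l2 m1 m2 be u v ∧
    En l1 l2 m1 m2 be u v = level N l1 l2 m1 m2 be

/-- `w ≠ 0` lies on the Nehari manifold of `-Δw + l w = m w³` -/
def SNeh {N : ℕ} (l m : ℝ) (w : H1 N) : Prop := w ≠ 0 ∧ ip l w w = m * Q4 w w w w

/-- the energy of the scalar equation -/
noncomputable def SEn {N : ℕ} (l m : ℝ) (w : H1 N) : ℝ := ip l w w / 2 - m * Q4 w w w w / 4

/-- `w` is a ground state of the scalar equation `-Δw + l w = m w³` -/
def SGS {N : ℕ} (l m : ℝ) (w : H1 N) : Prop :=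
  w ≠ 0 ∧ (∀ h : H1 N, ip l w h = m * Q4 w w w h) ∧ ∀ z : H1 N, SNeh l m z → SEn l m w ≤ SEn l m z

/-- `inf { ∫(|∇φ|² + l' φ²) / ∫ w²φ² : w a ground state of -Δw + l w = m w³ }` -/
noncomputable def tau (N : ℕ) (l m l' : ℝ) : ℝ :=
  sInf {t : ℝ | ∃ w p : H1 N, SGS l m w ∧ Q4 w w p p ≠ 0 ∧ t = ip l' p p / Q4 w w p p}

end Sir
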