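import Pool.Agent.Sir.Tau
/-!
# Step 7 : existence for `β > max(τ1, τ2)` (all parameters)
modules: exa, exb
-/

namespace Sir

open MeasureTheory Filter Topology

variable {N : ℕ}

/-- `(a+b)²` and `p + 2q + r` for a pair -/
noncomputable def nab (l1 l2 : ℝ) (u v : H1 N) : ℝ := ip l1 u u + ip l2 v v

noncomputable def q44 (m1 m2 be : ℝ) (u v : H1 N) : ℝ :=
  m1 * Q4 u u u u + 2 * (be * Q4 u u v v) + m2 * Q4 v v v v

private theorem exa_nab (l1 l2 s : ℝ) (u v : H1 N) :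
    nab l1 l2 (s • u) (s • v) = s ^ 2 * nab l1 l2 u v := by
  unfold nab
  simp only [ip_smul_left, ip_smul_right]
  ring

private theorem exa_q44 (m1 m2 be s : ℝ) (u v : H1 N) :
    q44 m1 m2 be (s • u) (s • v) = s ^ 4 * q44 m1 m2 be u v := by
  unfold q44
  simp only [Q4_smul1, Q4_smul2, Q4_smul3, Q4_smul4]
  ring

private theorem exa_bound [Dim N] {l1 l2 m1 m2 be : ℝ} (h1 : 0 < l1) (h2 : 0 < l2)
    (hm1 : 0 < m1) (hm2 : 0 < m2) (hb : 0 < be) :
    ∃ K : ℝ, 0 < K ∧ ∀ u v : H1 N, q44 m1 m2 be u v ≤ K * nab l1 l2 u v ^ 2 := by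
  obtain ⟨C, hC, hCb⟩ := Q4_bound (N := N)
  obtain ⟨C1, hC1, hC1b⟩ := norm_le_ip (N := N) h1
  obtain ⟨C2, hC2, hC2b⟩ := norm_le_ip (N := N) h2
  refine ⟨m1 * (C * C1 ^ 2) + 2 * (be * (C * (C1 * C2))) + m2 * (C * C2 ^ 2), by positivity,
    fun u v => ?_⟩
  have a0 := ip_nonneg h1.le u
  have b0 := ip_nonneg h2.le v
  have hu := hC1b u
  have hv := hC2b v
  have hu0 : 0 ≤ ‖u‖ ^ 2 := sq_nonneg _
  have hv0 : 0 ≤ ‖v‖ ^ 2 := sq_nonneg _
  have n0 : ip l1 u u ≤ nab l1 l2 u v := by unfold nab; linarith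
  have n1 : ip l2 v v ≤ nab l1 l2 u v := by unfold nab; linarith
  have nn : 0 ≤ nab l1 l2 u v := a0.trans n0
  have hu' : ‖u‖ ^ 2 ≤ C1 * nab l1 l2 u v := hu.trans (mul_le_mul_of_nonneg_left n0 hC1.le)
  have hv' : ‖v‖ ^ 2 ≤ C2 * nab l1 l2 u v := hv.trans (mul_le_mul_of_nonneg_left n1 hC2.le)
  have e1 : Q4 u u u u ≤ C * C1 ^ 2 * nab l1 l2 u v ^ 2 := by
    calc Q4 u u u u ≤ C * ‖u‖ * ‖u‖ * ‖u‖ * ‖u‖ := (le_abs_self _).trans (hCb u u u u)
      _ = C * (‖u‖ ^ 2 * ‖u‖ ^ 2) := by ring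
      _ ≤ C * ((C1 * nab l1 l2 u v) * (C1 * nab l1 l2 u v)) :=
          mul_le_mul_of_nonneg_left (mul_le_mul hu' hu' hu0 (by positivity)) hC.le
      _ = _ := by ring
  have e2 : Q4 u u v v ≤ C * (C1 * C2) * nab l1 l2 u v ^ 2 := by
    calc Q4 u u v v ≤ C * ‖u‖ * ‖u‖ * ‖v‖ * ‖v‖ := (le_abs_self _).trans (hCb u u v v)
      _ = C * (‖u‖ ^ 2 * ‖v‖ ^ 2) := by ring
      _ ≤ C * ((C1 * nab l1 l2 u v) * (C2 * nab l1 l2 u v)) :=
          mul_le_mul_of_nonneg_left (mul_le_mul hu' hv' hv0 (by positivity)) hC.le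
      _ = _ := by ring
  have e3 : Q4 v v v v ≤ C * C2 ^ 2 * nab l1 l2 u v ^ 2 := by
    calc Q4 v v v v ≤ C * ‖v‖ * ‖v‖ * ‖v‖ * ‖v‖ := (le_abs_self _).trans (hCb v v v v)
      _ = C * (‖v‖ ^ 2 * ‖v‖ ^ 2) := by ring
      _ ≤ C * ((C2 * nab l1 l2 u v) * (C2 * nab l1 l2 u v)) :=
          mul_le_mul_of_nonneg_left (mul_le_mul hv' hv' hv0 (by positivity)) hC.le
      _ = _ := by ring
  have f1 := mul_le_mul_of_nonneg_left e1 hm1.le
  have f2 := mul_le_mul_of_nonneg_left e2 hb.le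
  have f3 := mul_le_mul_of_nonneg_left e3 hm2.le
  unfold q44
  calc _ ≤ m1 * (C * C1 ^ 2 * nab l1 l2 u v ^ 2) +
        2 * (be * (C * (C1 * C2) * nab l1 l2 u v ^ 2)) +
        m2 * (C * C2 ^ 2 * nab l1 l2 u v ^ 2) := by linarith
    _ = _ := by ring

/-- module exa. The quotient `(a+b)²/(p+2q+r)` has a minimiser (radially nonincreasing).
Proof: minimising sequence, `symm_pair` (numerator decreases, denominator increases), normalise `a + b = 1`, weak limits,
`RD_comp`, `WC_lsc`. -/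
theorem quot_min [Dim N] {l1 l2 m1 m2 be : ℝ} (h1 : 0 < l1) (h2 : 0 < l2) (hm1 : 0 < m1)
    (hm2 : 0 < m2) (hb : 0 < be) : ∃ (U V : H1 N) (B : ℝ), RD U ∧ RD V ∧ (U ≠ 0 ∨ V ≠ 0) ∧ 0 < B ∧
      nab l1 l2 U V ^ 2 = B * q44 m1 m2 be U V ∧
      ∀ u v : H1 N, B * q44 m1 m2 be u v ≤ nab l1 l2 u v ^ 2 := by
  classical
  -- upper bound of `q44`
  obtain ⟨K, hK0, hK⟩ := exa_bound (N := N) (l1 := l1) (l2 := l2) (m1 := m1) (m2 := m2) (be := be)
    h1 h2 hm1 hm2 hb
  have hq0 : ∀ u v : H1 N, 0 ≤ q44 m1 m2 be u v := fun u v => by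
    unfold q44
    have e1 := Q4_nonneg u u
    have e2 := Q4_nonneg u v
    have e3 := Q4_nonneg v v
    positivity
  have hn0 : ∀ u v : H1 N, 0 ≤ nab l1 l2 u v := fun u v =>
    add_nonneg (ip_nonneg h1.le u) (ip_nonneg h2.le v)
  set S : Set ℝ := {t | ∃ u v : H1 N, 0 < q44 m1 m2 be u v ∧
    t = nab l1 l2 u v ^ 2 / q44 m1 m2 be u v} with hS
  have hSlb : ∀ t ∈ S, 1 / K ≤ t := by
    rintro t ⟨u, v, h3, rfl⟩
    rw [div_le_div_iff₀ hK0 h3, one_mul]
    have := hK u v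
    linarith
  have hSbd : BddBelow S := ⟨1 / K, hSlb⟩
  have hSne : S.Nonempty := by
    obtain ⟨u, hu⟩ := exists_ne (N := N)
    refine ⟨_, u, 0, ?_, rfl⟩
    unfold q44
    have e1 := Q4_pos hu
    have e2 := Q4_nonneg u (0 : H1 N)
    have e3 := Q4_nonneg (0 : H1 N) 0
    positivity
  set B : ℝ := sInf S with hB
  have hBpos : 0 < B := lt_of_lt_of_le (by positivity) (le_csInf hSne hSlb)
  have hBle : ∀ u v : H1 N, B * q44 m1 m2 be u v ≤ nab l1 l2 u v ^ 2 := fun u v => by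
    rcases (hq0 u v).eq_or_lt with h3 | h3
    · rw [← h3, mul_zero]
      exact sq_nonneg _
    · have h4 : B ≤ nab l1 l2 u v ^ 2 / q44 m1 m2 be u v := csInf_le hSbd ⟨u, v, h3, rfl⟩
      rwa [le_div_iff₀ h3] at h4
  -- minimising sequence
  have hseq : ∀ n : ℕ, ∃ U V : H1 N, RD U ∧ RD V ∧ nab l1 l2 U V = 1 ∧
      1 ≤ (B + 1 / ((n : ℝ) + 1)) * q44 m1 m2 be U V := by
    intro n
    have hpos : 0 < 1 / ((n : ℝ) + 1) := by positivity
    obtain ⟨t, ⟨u, v, h3, rfl⟩, h4⟩ := exists_lt_of_csInf_lt hSne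
      (lt_add_of_pos_right B hpos)
    rw [div_lt_iff₀ h3] at h4
    obtain ⟨U, V, hU, hV, g1, g2, g3, g4, g5, g6, g7⟩ := symm_pair u v
    have hnab : nab l1 l2 U V ≤ nab l1 l2 u v := by
      unfold nab ip
      rw [g3, g4]
      linarith
    have hq : q44 m1 m2 be u v ≤ q44 m1 m2 be U V := by
      unfold q44
      rw [g5, g6]
      have := mul_le_mul_of_nonneg_left g7 hb.le
      linarith
    have hqp : 0 < q44 m1 m2 be U V := h3.trans_le hq
    have hnp : 0 < nab l1 l2 U V := by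
      rcases (hn0 U V).eq_or_lt with h5 | h5
      · have h6 := hBle U V
        rw [← h5] at h6
        have h7 := mul_pos hBpos hqp
        nlinarith
      · exact h5
    have hle : nab l1 l2 U V ^ 2 ≤ (B + 1 / ((n : ℝ) + 1)) * q44 m1 m2 be U V := by
      have h5 : nab l1 l2 U V ^ 2 ≤ nab l1 l2 u v ^ 2 := pow_le_pow_left₀ (hn0 U V) hnab 2
      have h6 : (B + 1 / ((n : ℝ) + 1)) * q44 m1 m2 be u v ≤
          (B + 1 / ((n : ℝ) + 1)) * q44 m1 m2 be U V :=
        mul_le_mul_of_nonneg_left hq (by positivity)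
      linarith
    set s : ℝ := Real.sqrt (1 / nab l1 l2 U V) with hs
    have hs2 : s ^ 2 = 1 / nab l1 l2 U V := Real.sq_sqrt (by positivity)
    refine ⟨s • U, s • V, RD_smul hU (Real.sqrt_nonneg _), RD_smul hV (Real.sqrt_nonneg _),
      ?_, ?_⟩
    · rw [exa_nab, hs2, one_div, inv_mul_cancel₀ hnp.ne']
    · rw [exa_q44]
      have h5 : s ^ 4 = 1 / nab l1 l2 U V ^ 2 := by
        rw [show s ^ 4 = (s ^ 2) ^ 2 by ring, hs2, div_pow, one_pow]
      rw [h5]
      have h6 : (B + 1 / ((n : ℝ) + 1)) * (1 / nab l1 l2 U V ^ 2 * q44 m1 m2 be U V) =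
          ((B + 1 / ((n : ℝ) + 1)) * q44 m1 m2 be U V) / nab l1 l2 U V ^ 2 := by ring
      rw [h6, le_div_iff₀ (pow_pos hnp 2), one_mul]
      exact hle
  choose U V hU hV hn hqn using hseq
  obtain ⟨C1, hC1, hC1b⟩ := norm_le_ip (N := N) h1
  obtain ⟨C2, hC2, hC2b⟩ := norm_le_ip (N := N) h2
  have hip1 : ∀ n, ip l1 (U n) (U n) ≤ 1 := fun n => by
    have e1 := hn n
    unfold nab at e1
    have e2 := ip_nonneg h2.le (V n)
    linarith
  have hip2 : ∀ n, ip l2 (V n) (V n) ≤ 1 := fun n => by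
    have e1 := hn n
    unfold nab at e1
    have e2 := ip_nonneg h1.le (U n)
    linarith
  have hbU : ∀ n, ‖U n‖ ≤ Real.sqrt C1 := fun n => by
    refine Real.le_sqrt_of_sq_le ((hC1b (U n)).trans ?_)
    have := mul_le_mul_of_nonneg_left (hip1 n) hC1.le
    linarith
  have hbV : ∀ n, ‖V n‖ ≤ Real.sqrt C2 := fun n => by
    refine Real.le_sqrt_of_sq_le ((hC2b (V n)).trans ?_)
    have := mul_le_mul_of_nonneg_left (hip2 n) hC2.le
    linarith
  obtain ⟨f, U0, hf, hWU⟩ := exists_WC U _ hbU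
  obtain ⟨g, V0, hg, hWV⟩ := exists_WC (fun n => V (f n)) _ fun n => hbV (f n)
  have hWU' : WC (fun n => U (f (g n))) U0 := WC_comp hWU hg
  have hU0 : RD U0 := RD_WC hWU' fun n => hU _
  have hV0 : RD V0 := RD_WC hWV fun n => hV _
  have hcU := RD_comp hWU' fun n => hU _
  have hcV := RD_comp hWV fun n => hV _
  have hq : Tendsto (fun n => q44 m1 m2 be (U (f (g n))) (V (f (g n)))) atTop
      (𝓝 (q44 m1 m2 be U0 V0)) := by
    unfold q44
    have e1 := Q4_tendsto _ _ _ _ U0 U0 U0 U0 hcU hcU hcU hcU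
    have e2 := Q4_tendsto _ _ _ _ U0 U0 V0 V0 hcU hcU hcV hcV
    have e3 := Q4_tendsto _ _ _ _ V0 V0 V0 V0 hcV hcV hcV hcV
    exact ((e1.const_mul m1).add ((e2.const_mul be).const_mul 2)).add (e3.const_mul m2)
  have hfg : Tendsto (fun n => f (g n)) atTop atTop := hf.tendsto_atTop.comp hg.tendsto_atTop
  have hlimB : Tendsto (fun n : ℕ => B + 1 / (((f (g n) : ℕ) : ℝ) + 1)) atTop (𝓝 (B + 0)) :=
    (tendsto_one_div_add_atTop_nhds_zero_nat.comp hfg).const_add B
  have h1q : 1 ≤ B * q44 m1 m2 be U0 V0 := by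
    have e1 := hlimB.mul hq
    rw [add_zero] at e1
    exact ge_of_tendsto' e1 fun n => hqn _
  have hnab : nab l1 l2 U0 V0 ≤ 1 := by
    have e1 := (WC_ip hWU' l1 U0).const_mul 2
    have e2 := (WC_ip hWV l2 V0).const_mul 2
    have e3 : Tendsto (fun n => 2 * ip l1 (U (f (g n))) U0 + 2 * ip l2 (V (f (g n))) V0 -
        nab l1 l2 U0 V0) atTop
        (𝓝 (2 * ip l1 U0 U0 + 2 * ip l2 V0 V0 - nab l1 l2 U0 V0)) :=
      (e1.add e2).sub_const _
    have e4 : 2 * ip l1 U0 U0 + 2 * ip l2 V0 V0 - nab l1 l2 U0 V0 = nab l1 l2 U0 V0 := by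
      unfold nab; ring
    rw [e4] at e3
    refine le_of_tendsto' e3 fun n => ?_
    have e5 := ip_nonneg h1.le (U (f (g n)) - U0)
    have e6 := ip_nonneg h2.le (V (f (g n)) - V0)
    have e7 := hn (f (g n))
    simp only [ip_sub_left, ip_sub_right] at e5 e6
    rw [ip_comm l1 U0 (U (f (g n)))] at e5
    rw [ip_comm l2 V0 (V (f (g n)))] at e6
    unfold nab at e7 ⊢
    linarith
  have hnab2 : nab l1 l2 U0 V0 ^ 2 ≤ 1 := by
    have := pow_le_pow_left₀ (hn0 U0 V0) hnab 2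
    rwa [one_pow] at this
  refine ⟨U0, V0, B, hU0, hV0, ?_, hBpos, ?_, hBle⟩
  · by_contra hcon
    push Not at hcon
    obtain ⟨e1, e2⟩ := hcon
    rw [e1, e2] at h1q
    have e3 : q44 m1 m2 be (0 : H1 N) 0 = 0 := by
      unfold q44
      simp only [Q4_zero1]
      ring
    rw [e3, mul_zero] at h1q
    linarith
  · have := hBle U0 V0
    linarith

private theorem exb_poly {c1 c2 c3 c4 : ℝ}
    (h : ∀ t : ℝ, 0 ≤ c1 * t + c2 * t ^ 2 + c3 * t ^ 3 + c4 * t ^ 4) : c1 = 0 := by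
  have h1 : HasDerivAt (fun t : ℝ => c1 * t + c2 * t ^ 2 + c3 * t ^ 3 + c4 * t ^ 4) c1 0 := by
    have e := (((hasDerivAt_id' (0 : ℝ)).const_mul c1).fun_add
      ((hasDerivAt_pow 2 (0 : ℝ)).const_mul c2)).fun_add ((hasDerivAt_pow 3 (0 : ℝ)).const_mul c3)
    have e2 := e.fun_add ((hasDerivAt_pow 4 (0 : ℝ)).const_mul c4)
    simpa using e2
  have h2 : IsLocalMin (fun t : ℝ => c1 * t + c2 * t ^ 2 + c3 * t ^ 3 + c4 * t ^ 4) 0 := by
    refine Eventually.of_forall fun t => ?_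
    have := h t
    simpa using this
  exact h2.hasDerivAt_eq_zero h1

private theorem exb_lt {B a b q r : ℝ} (ha : 0 < a) (hb : 0 ≤ b) (hr : 0 ≤ r) (hq : b < q)
    (h : ∀ t : ℝ, B * (a + 2 * t ^ 2 * q + t ^ 4 * r) ≤ (a + t ^ 2 * b) ^ 2) : B < a := by
  by_contra hcon
  push Not at hcon
  set T : ℝ := a * (q - b) / (b ^ 2 + 1) with hT
  have hT0 : 0 < T := by
    have : 0 < q - b := sub_pos.mpr hq
    positivity
  have h1 := h (Real.sqrt T)
  have e1 : Real.sqrt T ^ 2 = T := Real.sq_sqrt hT0.le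
  have e2 : Real.sqrt T ^ 4 = T ^ 2 := by
    rw [show Real.sqrt T ^ 4 = (Real.sqrt T ^ 2) ^ 2 by ring, e1]
  rw [e1, e2] at h1
  have hq0 : 0 < q := hb.trans_lt hq
  have e3 : 0 ≤ a + 2 * T * q + T ^ 2 * r := by positivity
  have e4 := mul_le_mul_of_nonneg_right hcon e3
  have e5 : a * (a + 2 * T * q + T ^ 2 * r) ≤ (a + T * b) ^ 2 := e4.trans h1
  have e6 : T * (b ^ 2 + 1) = a * (q - b) := by
    rw [hT]
    field_simp
  have e7 : 0 ≤ a * (T ^ 2 * r) := by positivity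
  have e8 : T * (2 * (a * (q - b))) ≤ T * (T * b ^ 2) := by nlinarith
  have e9 := le_of_mul_le_mul_left e8 hT0
  have e10 : 0 < a * (q - b) := mul_pos ha (sub_pos.mpr hq)
  nlinarith

/-- module exb. Existence for large `β`.
Proof: `quot_min`. `B < S2(l1)/m1`: `tau_lt` gives `w` (`GNo l1 m1`) and `p` with `ip l2 p p < β Q4 w w p p`; for the pair `(w, t p)`:
`nab² = (a + t² b)²`, `q44 = a + 2 t² q + t⁴ r` (`a = m1 P(w)`), `b < q`: for small `t > 0` `nab² < a q44`, `a = S2(l1)/m1`.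
In the same way `B < S2(l2)/m2`. So `V ≠ 0` (else `nab² = a² ≥ S2 P = (S2/m1) q44`) and `U ≠ 0`. Scale the pair such that
`nab = q44` (`nab ↦ t² nab`, `q44 ↦ t⁴ q44`). The derivative of `nab² - B q44 ≥ 0` at the minimiser vanishes in all directions:
with `nab = q44 = B`: `2 nab (2 ip l1 U h) = B (4 m1 Q4 U U U h + 4 β Q4 V V U h)`, i.e. `Sol`. So `(U,V)` is in the Nehari type
set, `En = nab/4 = B/4`, and every `(u,v)` in it has `nab = q44`, so `nab ≥ B` and `En ≥ B/4`. -/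
theorem ex_large [Dim N] {l1 l2 m1 m2 be : ℝ} (h1 : 0 < l1) (h2 : 0 < l2) (hm1 : 0 < m1)
    (hm2 : 0 < m2) (hb1 : tau N l1 m1 l2 < be) (hb2 : tau N l2 m2 l1 < be) :
    HasGS N l1 l2 m1 m2 be := by
  have htau := tau_ge (N := N) h1 hm1 h2
  have hb : 0 < be := by
    have e1 : 0 < m1 * min 1 (l2 / l1) := mul_pos hm1 (lt_min one_pos (by positivity))
    linarith
  obtain ⟨U, V, B, -, -, hUV, hB, hBeq, hBle⟩ := quot_min (N := N) h1 h2 hm1 hm2 hb
  -- the two comparison values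
  have hlt1 : B < S2 N l1 / m1 := by
    obtain ⟨w, p, hw, hp0, hp⟩ := tau_lt (N := N) h1 hm1 hb1
    obtain ⟨-, hv2⟩ := GNo_vals h1 hm1 hw
    rw [← hv2]
    refine exb_lt (r := m2 * Q4 p p p p) (ip_pos h1 hw.1) (ip_nonneg h2.le p)
      (mul_nonneg hm2.le (Q4_nonneg p p)) hp fun t => ?_
    have h3 := hBle w (t • p)
    unfold nab q44 at h3
    simp only [ip_smul_left, ip_smul_right, Q4_smul1, Q4_smul2, Q4_smul3, Q4_smul4] at h3
    rw [← hw.2.1] at h3
    calc B * (ip l1 w w + 2 * t ^ 2 * (be * Q4 w w p p) + t ^ 4 * (m2 * Q4 p p p p))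
        = B * (ip l1 w w + 2 * (be * (t * (t * Q4 w w p p))) +
          m2 * (t * (t * (t * (t * Q4 p p p p))))) := by ring
      _ ≤ (ip l1 w w + t * (t * ip l2 p p)) ^ 2 := h3
      _ = _ := by ring
  have hlt2 : B < S2 N l2 / m2 := by
    obtain ⟨w, p, hw, hp0, hp⟩ := tau_lt (N := N) h2 hm2 hb2
    obtain ⟨-, hv2⟩ := GNo_vals h2 hm2 hw
    rw [← hv2]
    refine exb_lt (r := m1 * Q4 p p p p) (ip_pos h2 hw.1) (ip_nonneg h1.le p)
      (mul_nonneg hm1.le (Q4_nonneg p p)) hp fun t => ?_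
    have h3 := hBle (t • p) w
    unfold nab q44 at h3
    simp only [ip_smul_left, ip_smul_right, Q4_smul1, Q4_smul2, Q4_smul3, Q4_smul4] at h3
    rw [← hw.2.1] at h3
    have e1 : Q4 p p w w = Q4 w w p p := Q4_swapp p p w w
    rw [e1] at h3
    calc B * (ip l2 w w + 2 * t ^ 2 * (be * Q4 w w p p) + t ^ 4 * (m1 * Q4 p p p p))
        = B * (m1 * (t * (t * (t * (t * Q4 p p p p)))) +
          2 * (be * (t * (t * Q4 w w p p))) + ip l2 w w) := by ring
      _ ≤ (t * (t * ip l1 p p) + ip l2 w w) ^ 2 := h3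
      _ = _ := by ring
  -- both components are nonzero
  have hV : V ≠ 0 := by
    intro hV
    have hU : U ≠ 0 := by
      rcases hUV with h | h
      · exact h
      · exact absurd hV h
    have e1 : nab l1 l2 U V = ip l1 U U := by
      unfold nab
      rw [hV, ip_zero_left, add_zero]
    have e2 : q44 m1 m2 be U V = m1 * Q4 U U U U := by
      unfold q44
      have e3 : Q4 U U (0 : H1 N) 0 = 0 := by rw [Q4_swapp, Q4_zero1]
      rw [hV, e3, Q4_zero1]
      ring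
    rw [e1, e2] at hBeq
    have e3 := S2_le h1 U
    have e4 := Q4_pos hU
    have e5 : B * m1 < S2 N l1 := by rwa [lt_div_iff₀ hm1] at hlt1
    have e6 := mul_lt_mul_of_pos_right e5 e4
    nlinarith
  have hU : U ≠ 0 := by
    intro hU
    have e1 : nab l1 l2 U V = ip l2 V V := by
      unfold nab
      rw [hU, ip_zero_left, zero_add]
    have e2 : q44 m1 m2 be U V = m2 * Q4 V V V V := by
      unfold q44
      rw [hU, Q4_zero1, Q4_zero1]
      ring
    rw [e1, e2] at hBeq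
    have e3 := S2_le h2 V
    have e4 := Q4_pos hV
    have e5 : B * m2 < S2 N l2 := by rwa [lt_div_iff₀ hm2] at hlt2
    have e6 := mul_lt_mul_of_pos_right e5 e4
    nlinarith
  -- scaling
  have hn : 0 < nab l1 l2 U V := add_pos (ip_pos h1 hU) (ip_pos h2 hV)
  have hq : 0 < q44 m1 m2 be U V := by
    unfold q44
    have e1 := Q4_pos hU
    have e2 := Q4_nonneg U V
    have e3 := Q4_nonneg V V
    positivity
  set s : ℝ := Real.sqrt (nab l1 l2 U V / q44 m1 m2 be U V) with hs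
  have hs2 : s ^ 2 = nab l1 l2 U V / q44 m1 m2 be U V := Real.sq_sqrt (by positivity)
  have hs0 : s ≠ 0 := (Real.sqrt_pos.mpr (by positivity)).ne'
  set u : H1 N := s • U with hu
  set v : H1 N := s • V with hv
  have hnu : nab l1 l2 u v = B := by
    rw [hu, hv, exa_nab, hs2]
    field_simp
    rw [hBeq]
    ring
  have hqu : q44 m1 m2 be u v = B := by
    rw [hu, hv, exa_q44, show s ^ 4 = (s ^ 2) ^ 2 by ring, hs2]
    have e1 : (nab l1 l2 U V / q44 m1 m2 be U V) ^ 2 * q44 m1 m2 be U V =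
        nab l1 l2 U V ^ 2 / q44 m1 m2 be U V := by
      field_simp
    rw [e1, hBeq, mul_div_assoc, div_self hq.ne', mul_one]
  have hu0 : u ≠ 0 := smul_ne_zero hs0 hU
  have hv0 : v ≠ 0 := smul_ne_zero hs0 hV
  have hSol : Sol l1 l2 m1 m2 be u v := by
    refine ⟨fun h => ?_, fun h => ?_⟩
    · have key := exb_poly (c1 := 4 * B * ip l1 u h - B * (4 * (m1 * Q4 u u u h) +
          4 * (be * Q4 u h v v)))
        (c2 := 2 * B * ip l1 h h + 4 * ip l1 u h ^ 2 - B * (6 * (m1 * Q4 u u h h) +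
          2 * (be * Q4 h h v v)))
        (c3 := 4 * ip l1 u h * ip l1 h h - B * (4 * (m1 * Q4 u h h h)))
        (c4 := ip l1 h h ^ 2 - B * (m1 * Q4 h h h h)) fun t => by
          have h3 := hBle (u + t • h) v
          unfold nab q44 at h3
          rw [P_expand, Q_expand] at h3
          have e1 : ip l1 (u + t • h) (u + t • h) = ip l1 u u + 2 * t * ip l1 u h +
              t ^ 2 * ip l1 h h := by
            simp only [ip_add_left, ip_add_right, ip_smul_left, ip_smul_right]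
            rw [ip_comm l1 h u]
            ring
          rw [e1] at h3
          have e2 := hnu
          have e3 := hqu
          unfold nab at e2
          unfold q44 at e3
          have e4 : ip l1 u u + 2 * t * ip l1 u h + t ^ 2 * ip l1 h h + ip l2 v v =
              B + 2 * t * ip l1 u h + t ^ 2 * ip l1 h h := by linarith
          rw [e4] at h3
          have e5 : m1 * (Q4 u u u u + 4 * t * Q4 u u u h + 6 * t ^ 2 * Q4 u u h h +
              4 * t ^ 3 * Q4 u h h h + t ^ 4 * Q4 h h h h) + 2 * (be * (Q4 u u v v +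
              2 * t * Q4 u h v v + t ^ 2 * Q4 h h v v)) + m2 * Q4 v v v v =
              B + (4 * t * (m1 * Q4 u u u h) + 6 * t ^ 2 * (m1 * Q4 u u h h) +
              4 * t ^ 3 * (m1 * Q4 u h h h) + t ^ 4 * (m1 * Q4 h h h h)) +
              (4 * t * (be * Q4 u h v v) + 2 * t ^ 2 * (be * Q4 h h v v)) := by
            rw [← e3]; ring
          rw [e5] at h3
          nlinarith
      have e1 : Q4 v v u h = Q4 u h v v := Q4_swapp v v u h
      rw [e1]
      have e2 : B * (ip l1 u h - (m1 * Q4 u u u h + be * Q4 u h v v)) = 0 := by linarith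
      have e3 := (mul_eq_zero.mp e2).resolve_left hB.ne'
      linarith
    · have key := exb_poly (c1 := 4 * B * ip l2 v h - B * (4 * (m2 * Q4 v v v h) +
          4 * (be * Q4 v h u u)))
        (c2 := 2 * B * ip l2 h h + 4 * ip l2 v h ^ 2 - B * (6 * (m2 * Q4 v v h h) +
          2 * (be * Q4 h h u u)))
        (c3 := 4 * ip l2 v h * ip l2 h h - B * (4 * (m2 * Q4 v h h h)))
        (c4 := ip l2 h h ^ 2 - B * (m2 * Q4 h h h h)) fun t => by
          have h3 := hBle u (v + t • h)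
          unfold nab q44 at h3
          rw [P_expand, Q4_swapp u u (v + t • h) (v + t • h), Q_expand] at h3
          have e1 : ip l2 (v + t • h) (v + t • h) = ip l2 v v + 2 * t * ip l2 v h +
              t ^ 2 * ip l2 h h := by
            simp only [ip_add_left, ip_add_right, ip_smul_left, ip_smul_right]
            rw [ip_comm l2 h v]
            ring
          rw [e1] at h3
          have e2 := hnu
          have e3 := hqu
          unfold nab at e2
          unfold q44 at e3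
          rw [Q4_swapp u u v v] at e3
          have e4 : ip l1 u u + (ip l2 v v + 2 * t * ip l2 v h + t ^ 2 * ip l2 h h) =
              B + 2 * t * ip l2 v h + t ^ 2 * ip l2 h h := by linarith
          rw [e4] at h3
          have e5 : m1 * Q4 u u u u + 2 * (be * (Q4 v v u u +
              2 * t * Q4 v h u u + t ^ 2 * Q4 h h u u)) +
              m2 * (Q4 v v v v + 4 * t * Q4 v v v h + 6 * t ^ 2 * Q4 v v h h +
              4 * t ^ 3 * Q4 v h h h + t ^ 4 * Q4 h h h h) =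
              B + (4 * t * (m2 * Q4 v v v h) + 6 * t ^ 2 * (m2 * Q4 v v h h) +
              4 * t ^ 3 * (m2 * Q4 v h h h) + t ^ 4 * (m2 * Q4 h h h h)) +
              (4 * t * (be * Q4 v h u u) + 2 * t ^ 2 * (be * Q4 h h u u)) := by
            rw [← e3]; ring
          rw [e5] at h3
          nlinarith
      have e1 : Q4 u u v h = Q4 v h u u := Q4_swapp u u v h
      rw [e1]
      have e2 : B * (ip l2 v h - (m2 * Q4 v v v h + be * Q4 v h u u)) = 0 := by linarith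
      have e3 := (mul_eq_zero.mp e2).resolve_left hB.ne'
      linarith
  rw [HasGS_iff h1 h2]
  refine ⟨u, v, hSol, Neh_of_Sol hu0 hv0 hSol, fun u' v' hN => ?_⟩
  rw [Neh_En (Neh_of_Sol hu0 hv0 hSol), Neh_En hN]
  have e1 := hBle u' v'
  have e2 : q44 m1 m2 be u' v' = nab l1 l2 u' v' := by
    unfold q44 nab
    have := hN.2.2.1
    have := hN.2.2.2
    linarith
  have e3 : 0 < nab l1 l2 u' v' := add_pos (ip_pos h1 hN.1) (ip_pos h2 hN.2.1)
  rw [e2, sq] at e1
  have e4 : B ≤ nab l1 l2 u' v' := le_of_mul_le_mul_right e1 e3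
  have e5 := hnu
  unfold nab at e4 e5
  linarith

end Sir
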