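import Pool.Agent.Sir.Sym
/-!
# The scalar problem: the constant `S2`, optimisers, ground states
modules: sca, scb, scc, scd, sce, scf, scg, sch
-/

namespace Sir

open MeasureTheory Filter Topology

variable {N : ℕ}

/-- `inf ‖u‖_l⁴ / ∫u⁴` -/
noncomputable def S2 (N : ℕ) (l : ℝ) : ℝ :=
  sInf {t : ℝ | ∃ u : H1 N, u ≠ 0 ∧ t = ip l u u ^ 2 / Q4 u u u u}

/-- module sca (a nonzero `ContDiffBump`, `ofCc`) -/
theorem exists_ne [Dim N] : ∃ u : H1 N, u ≠ 0 := by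
  obtain ⟨f⟩ : Nonempty (ContDiffBump (0 : E N)) := ⟨⟨1, 2, by norm_num, by norm_num⟩⟩
  obtain ⟨u, hu, _⟩ := ofCc (N := N) (fun x => f x) f.contDiff f.hasCompactSupport
  refine ⟨u, fun h => ?_⟩
  rw [h] at hu
  have h1 := (fn_zero (N := N)).symm.trans hu
  have h2 := (Continuous.ae_eq_iff_eq (volume : Measure (E N)) continuous_const f.continuous).1 h1
  have h3 := congrFun h2 0
  have h4 : f 0 = 1 := f.one_of_mem_closedBall (Metric.mem_closedBall_self f.rIn_pos.le)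
  rw [h4] at h3
  norm_num at h3

/-- module sca -/
theorem S2_le [Dim N] {l : ℝ} (hl : 0 < l) (u : H1 N) : S2 N l * Q4 u u u u ≤ ip l u u ^ 2 := by
  rcases eq_or_ne u 0 with h | h
  · rw [h, Q4_zero1]
    simp only [mul_zero]
    positivity
  · have hQ := Q4_pos h
    have h1 : S2 N l ≤ ip l u u ^ 2 / Q4 u u u u := by
      unfold S2
      refine csInf_le ⟨0, ?_⟩ ⟨u, h, rfl⟩
      rintro t ⟨v, hv, rfl⟩
      have := Q4_pos hv
      positivity
    rwa [le_div_iff₀ hQ] at h1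

/-- module sca -/
theorem S2_ge [Dim N] {l : ℝ} (c : ℝ) (h : ∀ u : H1 N, u ≠ 0 → c * Q4 u u u u ≤ ip l u u ^ 2) :
    c ≤ S2 N l := by
  unfold S2
  obtain ⟨u, hu⟩ := exists_ne (N := N)
  refine le_csInf ⟨_, u, hu, rfl⟩ ?_
  rintro t ⟨v, hv, rfl⟩
  rw [le_div_iff₀ (Q4_pos hv)]
  exact h v hv

/-- module sca: from `n4_le` and `norm_le_ip` -/
theorem S2_pos [Dim N] {l : ℝ} (hl : 0 < l) : 0 < S2 N l := by
  obtain ⟨C, hC, h1⟩ := n4_le (N := N)
  obtain ⟨D, hD, h2⟩ := norm_le_ip (N := N) hl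
  have h3 : 1 / (C ^ 4 * D ^ 2) ≤ S2 N l := by
    refine S2_ge _ fun u _ => ?_
    rw [one_div_mul_eq_div, div_le_iff₀ (by positivity), ← n4_pow]
    have h4 := h1 u
    have h5 := h2 u
    have h6 : n4 u ^ 4 ≤ (C * ‖u‖) ^ 4 := pow_le_pow_left₀ (n4_nonneg u) h4 4
    have h7 : (‖u‖ ^ 2) ^ 2 ≤ (D * ip l u u) ^ 2 := pow_le_pow_left₀ (by positivity) h5 2
    calc n4 u ^ 4 ≤ (C * ‖u‖) ^ 4 := h6
      _ = C ^ 4 * (‖u‖ ^ 2) ^ 2 := by ring
      _ ≤ C ^ 4 * (D * ip l u u) ^ 2 := mul_le_mul_of_nonneg_left h7 (by positivity)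
      _ = ip l u u ^ 2 * (C ^ 4 * D ^ 2) := by ring
  have h4 : 0 < 1 / (C ^ 4 * D ^ 2) := by positivity
  linarith

/-- module sca: `dil_H` -/
theorem S2_scale [Dim N] {l s : ℝ} (hl : 0 < l) (hs : 0 < s) :
    S2 N (s ^ 2 * l) = s ^ (4 - N) * S2 N l := by
  obtain ⟨T, _, h1, h2⟩ := dil_H (N := N) s hs
  have hsl : 0 < s ^ 2 * l := by positivity
  have hp : 0 < s ^ (4 - N) := by positivity
  apply le_antisymm
  · have h3 : S2 N (s ^ 2 * l) / s ^ (4 - N) ≤ S2 N l := by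
      refine S2_ge _ fun u _ => ?_
      have h4 := S2_le hsl (T u)
      rw [h1, h2] at h4
      have h5 : s ^ (4 - N) * (S2 N (s ^ 2 * l) * Q4 u u u u) ≤
          s ^ (4 - N) * (s ^ (4 - N) * ip l u u ^ 2) := by
        calc s ^ (4 - N) * (S2 N (s ^ 2 * l) * Q4 u u u u)
            = S2 N (s ^ 2 * l) * (s ^ (4 - N) * Q4 u u u u) := by ring
          _ ≤ (s ^ (4 - N) * ip l u u) ^ 2 := h4
          _ = _ := by ring
      have h6 := le_of_mul_le_mul_left h5 hp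
      rw [div_mul_eq_mul_div, div_le_iff₀ hp]
      linarith
    rw [div_le_iff₀ hp] at h3
    linarith
  · refine S2_ge _ fun v _ => ?_
    obtain ⟨u, rfl⟩ := T.surjective v
    rw [h1, h2]
    have h4 := S2_le hl u
    calc s ^ (4 - N) * S2 N l * (s ^ (4 - N) * Q4 u u u u)
        = (s ^ (4 - N)) ^ 2 * (S2 N l * Q4 u u u u) := by ring
      _ ≤ (s ^ (4 - N)) ^ 2 * ip l u u ^ 2 := mul_le_mul_of_nonneg_left h4 (by positivity)
      _ = (s ^ (4 - N) * ip l u u) ^ 2 := by ring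

/-- module sca -/
theorem S2_mono [Dim N] {l l' : ℝ} (hl : 0 < l) (h : l ≤ l') : S2 N l ≤ S2 N l' := by
  refine S2_ge _ fun u _ => ?_
  have h1 := S2_le hl u
  have h2 := ip_mono h u
  have h3 := ip_nonneg hl.le u
  exact h1.trans (pow_le_pow_left₀ h3 h2 2)

/-- module sca: `ip l' u u ≤ (l'/l) ip l u u` -/
theorem S2_upper [Dim N] {l l' : ℝ} (hl : 0 < l) (h : l ≤ l') :
    S2 N l' ≤ (l' / l) ^ 2 * S2 N l := by
  have hl' : 0 < l' := lt_of_lt_of_le hl h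
  have hr : 0 < l' / l := by positivity
  have hr1 : 1 ≤ l' / l := (one_le_div hl).2 h
  have h3 : S2 N l' / (l' / l) ^ 2 ≤ S2 N l := by
    refine S2_ge _ fun u _ => ?_
    have h1 := S2_le hl' u
    have h2 : ip l' u u ≤ l' / l * ip l u u := by
      unfold ip
      have e : l' / l * (gX u u + l * gY u u) = l' / l * gX u u + l' * gY u u := by
        field_simp
      rw [e]
      have := mul_le_mul_of_nonneg_right hr1 (gX_nonneg u)
      linarith
    have h4 := ip_nonneg hl'.le u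
    have h5 := pow_le_pow_left₀ h4 h2 2
    rw [div_mul_eq_mul_div, div_le_iff₀ (by positivity)]
    calc S2 N l' * Q4 u u u u ≤ ip l' u u ^ 2 := h1
      _ ≤ (l' / l * ip l u u) ^ 2 := h5
      _ = ip l u u ^ 2 * (l' / l) ^ 2 := by ring
  rw [div_le_iff₀ (by positivity)] at h3
  linarith

/-- optimiser of the Gagliardo-Nirenberg quotient, on the Nehari manifold of `-Δw + l w = m w³` -/
def GNo (l m : ℝ) (w : H1 N) : Prop :=
  w ≠ 0 ∧ ip l w w = m * Q4 w w w w ∧ ip l w w ^ 2 = S2 N l * Q4 w w w w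

/-- module scb -/
theorem GNo_vals [Dim N] {l m : ℝ} (hl : 0 < l) (hm : 0 < m) {w : H1 N} (h : GNo l m w) :
    Q4 w w w w = S2 N l / m ^ 2 ∧ ip l w w = S2 N l / m := by
  obtain ⟨h0, h1, h2⟩ := h
  have hQ := Q4_pos h0
  have e : Q4 w w w w = S2 N l / m ^ 2 := by
    rw [h1] at h2
    rw [eq_div_iff (by positivity)]
    have h3 : Q4 w w w w * (Q4 w w w w * m ^ 2) = Q4 w w w w * S2 N l := by
      calc Q4 w w w w * (Q4 w w w w * m ^ 2) = (m * Q4 w w w w) ^ 2 := by ring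
        _ = _ := by rw [h2]; ring
    exact mul_left_cancel₀ hQ.ne' h3
  refine ⟨e, ?_⟩
  rw [h1, e]
  field_simp

private theorem scb_smul {l : ℝ} (c : ℝ) (u : H1 N) : ip l (c • u) (c • u) = c ^ 2 * ip l u u := by
  rw [ip_smul_left, ip_smul_right]
  ring

private theorem scb_Q (c : ℝ) (u : H1 N) : Q4 (c • u) (c • u) (c • u) (c • u) = c ^ 4 * Q4 u u u u := by
  rw [Q4_smul1, Q4_smul2, Q4_smul3, Q4_smul4]
  ring

/-- normalised almost optimisers -/
private theorem scb_min [Dim N] {l : ℝ} (hl : 0 < l) {d : ℝ} (hd : 0 < d) :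
    ∃ u : H1 N, ip l u u = 1 ∧ 1 ≤ (S2 N l + d) * Q4 u u u u := by
  obtain ⟨u0, hu0⟩ := exists_ne (N := N)
  have h1 : S2 N l < S2 N l + d := by linarith
  have hne : {t : ℝ | ∃ u : H1 N, u ≠ 0 ∧ t = ip l u u ^ 2 / Q4 u u u u}.Nonempty :=
    ⟨_, u0, hu0, rfl⟩
  obtain ⟨t, ⟨v, hv, rfl⟩, ht⟩ := exists_lt_of_csInf_lt hne h1
  have hQ := Q4_pos hv
  have hi := ip_pos hl hv
  refine ⟨(1 / Real.sqrt (ip l v v)) • v, ?_, ?_⟩
  · rw [scb_smul, div_pow, Real.sq_sqrt hi.le, one_pow, one_div, inv_mul_cancel₀ hi.ne']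
  · have e : (1 / Real.sqrt (ip l v v)) ^ 4 = 1 / ip l v v ^ 2 := by
      rw [div_pow, one_pow]
      congr 1
      rw [show (4 : ℕ) = 2 * 2 by norm_num, pow_mul, Real.sq_sqrt hi.le]
    rw [scb_Q, e]
    rw [div_lt_iff₀ hQ] at ht
    have : (S2 N l + d) * (1 / ip l v v ^ 2 * Q4 v v v v) = ((S2 N l + d) * Q4 v v v v) / ip l v v ^ 2 := by
      ring
    rw [this, le_div_iff₀ (by positivity), one_mul]
    exact ht.le

private theorem scb_norm_bdd {l : ℝ} (hl : 0 < l) (B : ℝ) : ∃ M : ℝ, ∀ u : H1 N, ip l u u ≤ B → ‖u‖ ≤ M := by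
  obtain ⟨D, hD, h2⟩ := norm_le_ip (N := N) hl
  refine ⟨Real.sqrt (D * B), fun u hu => ?_⟩
  apply Real.le_sqrt_of_sq_le
  exact (h2 u).trans (mul_le_mul_of_nonneg_left hu hD.le)

/-- module scb. Existence of a radially nonincreasing optimiser.
Proof: minimising sequence `u n` with `ip l (u n) (u n) = 1`; replace it by radially nonincreasing functions
(`symm_pair` with `v = u`; the quotient decreases); `exists_WC`, `RD_WC`, `RD_comp`: `Q4` converges to `1/S2 > 0`, `WC_lsc`: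
the weak limit is an optimiser; scale it to the Nehari manifold (factor `√(ip/(m Q4))`). -/
theorem exists_GNo [Dim N] {l m : ℝ} (hl : 0 < l) (hm : 0 < m) : ∃ w : H1 N, GNo l m w ∧ RD w := by
  have hd : ∀ n : ℕ, ∃ u : H1 N, RD u ∧ ip l u u ≤ 1 ∧ 1 ≤ (S2 N l + 1 / ((n : ℝ) + 1)) * Q4 u u u u := by
    intro n
    obtain ⟨u, h1, h2⟩ := scb_min (N := N) hl (d := 1 / ((n : ℝ) + 1)) (by positivity)
    obtain ⟨U, V, hU, _, h3, _, h4, _, h5, _, _⟩ := symm_pair u u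
    refine ⟨U, hU, ?_, ?_⟩
    · rw [← h1]
      unfold ip
      rw [h4]
      linarith
    · rw [h5]
      exact h2
  choose u hRD hu1 hu2 using hd
  obtain ⟨M, hM⟩ := scb_norm_bdd (N := N) hl 1
  obtain ⟨f, w, hf, hw⟩ := exists_WC u M (fun n => hM _ (hu1 n))
  have hwRD : RD w := RD_WC hw (fun n => hRD _)
  have hn4 := RD_comp hw (fun n => hRD _)
  have hQt := Q4_tendsto _ _ _ _ w w w w hn4 hn4 hn4 hn4
  have hip : ip l w w ≤ 1 :=
    WC_lsc hw hl.le (tendsto_const_nhds (x := (1 : ℝ))) (Eventually.of_forall fun n => hu1 _)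
  have hS := S2_pos (N := N) hl
  have h1t : Tendsto (fun n : ℕ => (S2 N l + 1 / ((f n : ℝ) + 1)) *
      Q4 (u (f n)) (u (f n)) (u (f n)) (u (f n))) atTop (𝓝 ((S2 N l + 0) * Q4 w w w w)) := by
    refine Tendsto.mul (tendsto_const_nhds.add ?_) hQt
    exact (tendsto_one_div_add_atTop_nhds_zero_nat (𝕜 := ℝ)).comp hf.tendsto_atTop
  have h1 : 1 ≤ S2 N l * Q4 w w w w := by
    have := ge_of_tendsto h1t (Eventually.of_forall fun n => hu2 (f n))
    rwa [add_zero] at this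
  have h2 := S2_le hl w
  have h3 := ip_nonneg hl.le w
  have h4 : ip l w w = 1 := by nlinarith
  have h5 : S2 N l * Q4 w w w w = 1 := by
    rw [h4] at h2
    linarith
  have hQ : Q4 w w w w = 1 / S2 N l := by
    rw [eq_div_iff hS.ne']
    linarith
  have hw0 : w ≠ 0 := by
    intro h
    rw [h, ip_zero_left] at h4
    norm_num at h4
  have hc : 0 < Real.sqrt (S2 N l / m) := Real.sqrt_pos.2 (by positivity)
  have hc2 : Real.sqrt (S2 N l / m) ^ 2 = S2 N l / m := Real.sq_sqrt (by positivity)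
  have hc4 : Real.sqrt (S2 N l / m) ^ 4 = (S2 N l / m) ^ 2 := by
    rw [show (4 : ℕ) = 2 * 2 by norm_num, pow_mul, hc2]
  refine ⟨Real.sqrt (S2 N l / m) • w, ⟨?_, ?_, ?_⟩, RD_smul hwRD hc.le⟩
  · exact smul_ne_zero hc.ne' hw0
  · rw [scb_smul, scb_Q, hc2, hc4, h4, hQ]
    field_simp
  · rw [scb_smul, scb_Q, hc2, hc4, h4, hQ]
    field_simp

private theorem scc_poly1 (a b c d : ℝ)
    (h : ∀ t : ℝ, 0 ≤ a * t + b * t ^ 2 + c * t ^ 3 + d * t ^ 4) : a = 0 := by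
  have h1 : HasDerivAt (fun t : ℝ => a * t + b * t ^ 2 + c * t ^ 3 + d * t ^ 4) a 0 := by
    have h2 := (((hasDerivAt_id' (0 : ℝ)).const_mul a).add
      (((hasDerivAt_id' (0 : ℝ)).pow 2).const_mul b)).add
      (((hasDerivAt_id' (0 : ℝ)).pow 3).const_mul c)
    have h3 := h2.add (((hasDerivAt_id' (0 : ℝ)).pow 4).const_mul d)
    refine (h3.congr_deriv (by norm_num)).congr_of_eventuallyEq (Eventually.of_forall fun t => ?_)
    simp only [Pi.add_apply, Pi.pow_apply]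
  have h2 : IsLocalMin (fun t : ℝ => a * t + b * t ^ 2 + c * t ^ 3 + d * t ^ 4) 0 := by
    refine Eventually.of_forall fun t => ?_
    simpa using h t
  exact h2.hasDerivAt_eq_zero h1

private theorem scc_poly2 (b c d : ℝ)
    (h : ∀ t : ℝ, 0 ≤ b * t ^ 2 + c * t ^ 3 + d * t ^ 4) : 0 ≤ b := by
  have h1 : Tendsto (fun t : ℝ => b + c * t + d * t ^ 2) (𝓝[≠] 0) (𝓝 (b + c * 0 + d * 0 ^ 2)) := by
    refine Tendsto.mono_left ?_ nhdsWithin_le_nhds
    exact (by fun_prop : Continuous fun t : ℝ => b + c * t + d * t ^ 2).tendsto 0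
  have h2 : ∀ᶠ t : ℝ in 𝓝[≠] 0, 0 ≤ b + c * t + d * t ^ 2 := by
    filter_upwards [self_mem_nhdsWithin] with t ht
    have ht2 : 0 < t ^ 2 := by
      have : t ≠ 0 := ht
      positivity
    have h3 := h t
    have e : b * t ^ 2 + c * t ^ 3 + d * t ^ 4 = t ^ 2 * (b + c * t + d * t ^ 2) := by ring
    rw [e] at h3
    exact nonneg_of_mul_nonneg_right h3 ht2
  have h3 := ge_of_tendsto h1 h2
  simpa using h3

private theorem scc_ip (l : ℝ) (w h : H1 N) (t : ℝ) :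
    ip l (w + t • h) (w + t • h) = ip l w w + 2 * t * ip l w h + t ^ 2 * ip l h h := by
  simp only [ip_add_left, ip_add_right, ip_smul_left, ip_smul_right, ip_comm l h w]
  ring

private theorem scc_ineq [Dim N] {l : ℝ} (hl : 0 < l) (w h : H1 N) (t : ℝ) :
    S2 N l * (Q4 w w w w + 4 * t * Q4 w w w h + 6 * t ^ 2 * Q4 w w h h + 4 * t ^ 3 * Q4 w h h h
        + t ^ 4 * Q4 h h h h) ≤ (ip l w w + 2 * t * ip l w h + t ^ 2 * ip l h h) ^ 2 := by
  have h1 := S2_le hl (w + t • h)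
  rwa [P_expand, scc_ip] at h1

/-- module scc. Optimisers are solutions: `t ↦ ip l (w+th) (w+th) ^ 2 - S2 Q4 (w+th) ..` is a polynomial `≥ 0` vanishing at
`t = 0`, so its derivative there is `0`: `4 ip l w w ip l w h = 4 S2 Q4 w w w h`; `S2 = m ip l w w` . -/
theorem GNo_sol [Dim N] {l m : ℝ} (hl : 0 < l) (hm : 0 < m) {w : H1 N} (h : GNo l m w) (z : H1 N) :
    ip l w z = m * Q4 w w w z := by
  have h1 := scc_poly1 (4 * ip l w w * ip l w z - 4 * S2 N l * Q4 w w w z)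
    (4 * ip l w z ^ 2 + 2 * ip l w w * ip l z z - 6 * S2 N l * Q4 w w z z)
    (4 * ip l w z * ip l z z - 4 * S2 N l * Q4 w z z z) (ip l z z ^ 2 - S2 N l * Q4 z z z z) (by
      intro t
      have h2 := scc_ineq hl w z t
      have h3 := h.2.2
      have e : (ip l w w + 2 * t * ip l w z + t ^ 2 * ip l z z) ^ 2 - S2 N l *
          (Q4 w w w w + 4 * t * Q4 w w w z + 6 * t ^ 2 * Q4 w w z z + 4 * t ^ 3 * Q4 w z z z
            + t ^ 4 * Q4 z z z z) =
          (4 * ip l w w * ip l w z - 4 * S2 N l * Q4 w w w z) * t +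
          (4 * ip l w z ^ 2 + 2 * ip l w w * ip l z z - 6 * S2 N l * Q4 w w z z) * t ^ 2 +
          (4 * ip l w z * ip l z z - 4 * S2 N l * Q4 w z z z) * t ^ 3 +
          (ip l z z ^ 2 - S2 N l * Q4 z z z z) * t ^ 4 + (ip l w w ^ 2 - S2 N l * Q4 w w w w) := by
        ring
      rw [← sub_nonneg, e, h3] at h2
      linarith)
  obtain ⟨_, hv⟩ := GNo_vals hl hm h
  have hi := ip_pos hl h.1
  have e : S2 N l = m * ip l w w := by
    rw [hv]
    field_simp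
  rw [e] at h1
  have h2 : (4 * ip l w w) * (ip l w z - m * Q4 w w w z) = 0 := by
    rw [← h1]
    ring
  rcases mul_eq_zero.1 h2 with h3 | h3
  · linarith
  · linarith

/-- module scc. Second variation: with `Q4 w w w z = 0 = ip l w z` the polynomial
`(ip l w w + t² ip l z z)² - S2 (Q4 w w w w + 6 t² Q4 w w z z + 4 t³ Q4 w z z z + t⁴ Q4 z z z z) ≥ 0`, coefficient of `t²`. -/
theorem sec_var [Dim N] {l m : ℝ} (hl : 0 < l) (hm : 0 < m) {w : H1 N} (h : GNo l m w) {z : H1 N}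
    (hz : Q4 w w w z = 0) : 3 * m * Q4 w w z z ≤ ip l z z := by
  have hz' : ip l w z = 0 := by
    rw [GNo_sol hl hm h z, hz, mul_zero]
  have h1 := scc_poly2 (2 * ip l w w * ip l z z - 6 * S2 N l * Q4 w w z z)
    (- 4 * S2 N l * Q4 w z z z) (ip l z z ^ 2 - S2 N l * Q4 z z z z) (by
      intro t
      have h2 := scc_ineq hl w z t
      have h3 := h.2.2
      rw [hz, hz'] at h2
      have e : (ip l w w + 2 * t * 0 + t ^ 2 * ip l z z) ^ 2 - S2 N l *
          (Q4 w w w w + 4 * t * 0 + 6 * t ^ 2 * Q4 w w z z + 4 * t ^ 3 * Q4 w z z z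
            + t ^ 4 * Q4 z z z z) =
          (2 * ip l w w * ip l z z - 6 * S2 N l * Q4 w w z z) * t ^ 2 +
          (- 4 * S2 N l * Q4 w z z z) * t ^ 3 +
          (ip l z z ^ 2 - S2 N l * Q4 z z z z) * t ^ 4 + (ip l w w ^ 2 - S2 N l * Q4 w w w w) := by
        ring
      rw [← sub_nonneg, e, h3] at h2
      linarith)
  obtain ⟨_, hv⟩ := GNo_vals hl hm h
  have hi := ip_pos hl h.1
  have e : S2 N l = m * ip l w w := by
    rw [hv]
    field_simp
  rw [e] at h1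
  have h2 : 0 ≤ (2 * ip l w w) * (ip l z z - 3 * m * Q4 w w z z) := by
    calc (0 : ℝ) ≤ _ := h1
      _ = _ := by ring
  have h3 := nonneg_of_mul_nonneg_right h2 (by positivity)
  linarith

/-- module scc. On the scalar Nehari manifold `ip l z z ≥ S2 / m`. -/
theorem SNeh_ge [Dim N] {l m : ℝ} (hl : 0 < l) (hm : 0 < m) {z : H1 N} (h : SNeh l m z) :
    S2 N l / m ≤ ip l z z ∧ SEn l m z = ip l z z / 4 := by
  obtain ⟨h0, h1⟩ := h
  have hi := ip_pos hl h0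
  have h2 := S2_le hl z
  refine ⟨?_, ?_⟩
  · rw [div_le_iff₀ hm]
    have h3 : ip l z z * S2 N l ≤ ip l z z * (ip l z z * m) := by
      calc ip l z z * S2 N l = m * (S2 N l * Q4 z z z z) := by rw [h1]; ring
        _ ≤ m * ip l z z ^ 2 := mul_le_mul_of_nonneg_left h2 hm.le
        _ = _ := by ring
    exact le_of_mul_le_mul_left h3 hi
  · unfold SEn
    rw [← h1]
    ring

/-- module scc. Scalar ground states are exactly the optimisers on the Nehari manifold. -/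
theorem SGS_iff [Dim N] {l m : ℝ} (hl : 0 < l) (hm : 0 < m) (w : H1 N) : SGS l m w ↔ GNo l m w := by
  constructor
  · rintro ⟨h0, h1, h2⟩
    have hN : SNeh l m w := ⟨h0, h1 w⟩
    obtain ⟨w0, hw0, _⟩ := exists_GNo (N := N) hl hm
    have h3 := h2 w0 ⟨hw0.1, hw0.2.1⟩
    obtain ⟨k1, k2⟩ := SNeh_ge hl hm hN
    obtain ⟨k3, k4⟩ := SNeh_ge hl hm (⟨hw0.1, hw0.2.1⟩ : SNeh l m w0)
    obtain ⟨_, k5⟩ := GNo_vals hl hm hw0
    rw [k2, k4, k5] at h3
    have h4 : ip l w w = S2 N l / m := by linarith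
    refine ⟨h0, h1 w, ?_⟩
    have h5 := h1 w
    rw [h4] at h5 ⊢
    have h6 : Q4 w w w w = S2 N l / m ^ 2 := by
      rw [eq_div_iff (by positivity)]
      calc Q4 w w w w * m ^ 2 = (m * Q4 w w w w) * m := by ring
        _ = S2 N l / m * m := by rw [h5]
        _ = S2 N l := by field_simp
    rw [h6]
    field_simp
  · intro h
    refine ⟨h.1, fun z => GNo_sol hl hm h z, fun z hz => ?_⟩
    obtain ⟨k1, k2⟩ := SNeh_ge hl hm hz
    obtain ⟨_, k4⟩ := SNeh_ge hl hm (⟨h.1, h.2.1⟩ : SNeh l m w)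
    obtain ⟨_, k5⟩ := GNo_vals hl hm h
    rw [k2, k4, k5]
    linarith

/-- module scd. Cauchy-Schwarz and Gagliardo-Nirenberg:
`m Q4 w w h h ≤ m √(Q4 w w w w) √(Q4 h h h h) ≤ ip l h h` since `S2 = m² Q4 w w w w`. -/
theorem cs_le [Dim N] {l m : ℝ} (hl : 0 < l) (hm : 0 < m) {w : H1 N} (h : GNo l m w) (z : H1 N) :
    m * Q4 w w z z ≤ ip l z z := by
  have h1 := Q4_cs w z
  have h2 := S2_le hl z
  obtain ⟨k1, _⟩ := GNo_vals hl hm h
  have hi := ip_nonneg hl.le z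
  have hS := S2_pos (N := N) hl
  have h3 : (m * Q4 w w z z) ^ 2 ≤ ip l z z ^ 2 := by
    calc (m * Q4 w w z z) ^ 2 = m ^ 2 * Q4 w w z z ^ 2 := by ring
      _ ≤ m ^ 2 * (Q4 w w w w * Q4 z z z z) := mul_le_mul_of_nonneg_left h1 (by positivity)
      _ = S2 N l * Q4 z z z z := by
          rw [k1]
          field_simp
      _ ≤ ip l z z ^ 2 := h2
  have h4 : 0 ≤ m * Q4 w w z z := mul_nonneg hm.le (Q4_nonneg w z)
  exact (pow_le_pow_iff_left₀ h4 hi (by norm_num)).1 h3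

/-- module scd. Equality case (equality in Cauchy-Schwarz, `Q4_cs_eq`). -/
theorem cs_eq [Dim N] {l m : ℝ} (hl : 0 < l) (hm : 0 < m) {w : H1 N} (h : GNo l m w) {z : H1 N}
    (hz : ip l z z ≤ m * Q4 w w z z) :
    ∀ᵐ x : E N, fn z x ^ 2 = (Q4 w w z z / Q4 w w w w) * fn w x ^ 2 := by
  have h1 := Q4_cs w z
  have h2 := S2_le hl z
  obtain ⟨k1, _⟩ := GNo_vals hl hm h
  have hi := ip_nonneg hl.le z
  refine Q4_cs_eq h.1 (le_antisymm h1 ?_)
  have h3 : ip l z z ^ 2 ≤ (m * Q4 w w z z) ^ 2 := pow_le_pow_left₀ hi hz 2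
  have h4 : m ^ 2 * (Q4 w w w w * Q4 z z z z) ≤ m ^ 2 * Q4 w w z z ^ 2 := by
    calc m ^ 2 * (Q4 w w w w * Q4 z z z z) = S2 N l * Q4 z z z z := by
          rw [k1]
          field_simp
      _ ≤ ip l z z ^ 2 := h2
      _ ≤ (m * Q4 w w z z) ^ 2 := h3
      _ = _ := by ring
  exact le_of_mul_le_mul_left h4 (by positivity)

/-- module scd. For nonnegative functions equality means proportional (`H1_ext`). -/
theorem cs_eq' [Dim N] {l m : ℝ} (hl : 0 < l) (hm : 0 < m) {w : H1 N} (h : GNo l m w) {z : H1 N}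
    (hz : ip l z z ≤ m * Q4 w w z z) (h1 : ∀ᵐ x : E N, 0 ≤ fn w x) (h2 : ∀ᵐ x : E N, 0 ≤ fn z x) :
    z = Real.sqrt (Q4 w w z z / Q4 w w w w) • w := by
  have h3 := cs_eq hl hm h hz
  have hk : 0 ≤ Q4 w w z z / Q4 w w w w := div_nonneg (Q4_nonneg w z) (Q4_nonneg w w)
  apply H1_ext
  filter_upwards [h3, h1, h2, fn_smul (Real.sqrt (Q4 w w z z / Q4 w w w w)) w] with x a b c d
  rw [d]
  have h4 : (Real.sqrt (Q4 w w z z / Q4 w w w w) * fn w x) ^ 2 = fn z x ^ 2 := by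
    rw [mul_pow, Real.sq_sqrt hk, a]
  have h5 : 0 ≤ Real.sqrt (Q4 w w z z / Q4 w w w w) * fn w x := mul_nonneg (Real.sqrt_nonneg _) b
  exact ((pow_left_inj₀ c h5 (by norm_num)).1 h4.symm)

/-- module scd. The nonnegative kernel element does not change sign: for general `z` with equality one has
`z = c w` for some real `c` (if `w ≥ 0`). Proof: `z = p - q` (`pos_neg_H`), `ip l z z = ip l p p + ip l q q`,
`Q4 w w z z = Q4 w w p p + Q4 w w q q`, so equality holds for `p` and for `q`, hence `p = a w`, `q = b w` with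
`a, b ≥ 0` (`cs_eq'`), and `p q = 0` a.e., so `a = 0` or `b = 0`. -/
theorem cs_eq'' [Dim N] {l m : ℝ} (hl : 0 < l) (hm : 0 < m) {w : H1 N} (h : GNo l m w) {z : H1 N}
    (hz : ip l z z ≤ m * Q4 w w z z) (h1 : ∀ᵐ x : E N, 0 ≤ fn w x) : ∃ c : ℝ, z = c • w := by
  obtain ⟨p, q, hp, hq, hzpq, hX, hY, hXX, hYY⟩ := pos_neg_H z
  have hQpq : Q4 w w p q = 0 := by
    unfold Q4
    rw [integral_eq_zero_of_ae]
    filter_upwards [hp, hq] with x a b
    simp only [Pi.zero_apply]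
    rw [a, b]
    rcases le_total 0 (fn z x) with h2 | h2
    · rw [max_eq_right (a := - fn z x) (by linarith)]
      ring
    · rw [max_eq_right (a := fn z x) h2]
      ring
  have hi : ip l z z = ip l p p + ip l q q := by
    unfold ip
    rw [hXX, hYY]
    ring
  have hQ : Q4 w w z z = Q4 w w p p + Q4 w w q q := by
    rw [hzpq]
    rw [Q4_sub3, Q4_sub4, Q4_sub4, hQpq, Q4_swap34 w w q p, hQpq]
    ring
  have k1 := cs_le hl hm h p
  have k2 := cs_le hl hm h q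
  rw [hi, hQ] at hz
  have hp0 : ∀ᵐ x : E N, 0 ≤ fn p x := by
    filter_upwards [hp] with x a
    rw [a]
    exact le_max_right _ _
  have hq0 : ∀ᵐ x : E N, 0 ≤ fn q x := by
    filter_upwards [hq] with x a
    rw [a]
    exact le_max_right _ _
  have e1 := cs_eq' hl hm h (z := p) (by nlinarith) h1 hp0
  have e2 := cs_eq' hl hm h (z := q) (by nlinarith) h1 hq0
  refine ⟨Real.sqrt (Q4 w w p p / Q4 w w w w) - Real.sqrt (Q4 w w q q / Q4 w w w w), ?_⟩
  rw [sub_smul, ← e1, ← e2]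
  exact hzpq

/-- module sce. Coercivity of `ip l V V - m ∫ w²V²` on the complement of `w`.
Proof: otherwise there are `V n` with `‖V n‖ = 1`, `Q4 w w w (V n) = 0`, `ip l (V n) (V n) - m Q4 w w (V n) (V n) → 0`
(it is `≥ 0` by `cs_le`); weak limit `V`: `Q4 w w (V n) (V n) → Q4 w w V V` (`WC_quart2`), so `ip l (V n) (V n) → m Q4 w w V V`
and `ip l V V ≤ m Q4 w w V V` (`WC_lsc`), `V = c w` by `cs_eq''`, `Q4 w w w V = 0` gives `V = 0`; but then
`ip l (V n) (V n) → 0`, contradiction with `‖V n‖ = 1`. -/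
theorem Lm_coer [Dim N] {l m : ℝ} (hl : 0 < l) (hm : 0 < m) {w : H1 N} (h : GNo l m w)
    (h1 : ∀ᵐ x : E N, 0 ≤ fn w x) :
    ∃ c : ℝ, 0 < c ∧ ∀ V : H1 N, Q4 w w w V = 0 → m * Q4 w w V V + c * ‖V‖ ^ 2 ≤ ip l V V := by
  by_contra hcon
  push Not at hcon
  have hd : ∀ n : ℕ, ∃ V : H1 N, ‖V‖ = 1 ∧ Q4 w w w V = 0 ∧
      ip l V V ≤ m * Q4 w w V V + 1 / ((n : ℝ) + 1) := by
    intro n
    obtain ⟨V, hV, hlt⟩ := hcon (1 / ((n : ℝ) + 1)) (by positivity)
    have hV0 : V ≠ 0 := by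
      intro h0
      rw [h0, ip_zero_left] at hlt
      rw [Q4_swapp, Q4_zero1, norm_zero] at hlt
      norm_num at hlt
    have hVn : 0 < ‖V‖ := norm_pos_iff.2 hV0
    refine ⟨‖V‖⁻¹ • V, ?_, ?_, ?_⟩
    · rw [norm_smul, norm_inv, norm_norm, inv_mul_cancel₀ hVn.ne']
    · rw [Q4_smul4, hV, mul_zero]
    · rw [scb_smul, Q4_smul3, Q4_smul4]
      have e : m * (‖V‖⁻¹ * (‖V‖⁻¹ * Q4 w w V V)) + 1 / ((n : ℝ) + 1) =
          ‖V‖⁻¹ ^ 2 * (m * Q4 w w V V + 1 / ((n : ℝ) + 1) * ‖V‖ ^ 2) := by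
        field_simp
      rw [e]
      exact mul_le_mul_of_nonneg_left hlt.le (by positivity)
  choose V hV1 hV2 hV3 using hd
  obtain ⟨f, V0, hf, hW⟩ := exists_WC V 1 (fun n => (hV1 n).le)
  have h0t : Tendsto (fun n : ℕ => 1 / ((f n : ℝ) + 1)) atTop (𝓝 0) :=
    (tendsto_one_div_add_atTop_nhds_zero_nat (𝕜 := ℝ)).comp hf.tendsto_atTop
  have hQt := WC_quart2 w w hW hW
  have hct : Tendsto (fun n : ℕ => m * Q4 w w (V (f n)) (V (f n)) + 1 / ((f n : ℝ) + 1)) atTop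
      (𝓝 (m * Q4 w w V0 V0 + 0)) := (hQt.const_mul m).add h0t
  rw [add_zero] at hct
  have hle := WC_lsc hW hl.le hct (Eventually.of_forall fun n => hV3 (f n))
  obtain ⟨c, hc⟩ := cs_eq'' hl hm h hle h1
  have h3t := WC_quart w (WC_const w) (WC_const w) hW
  simp only [hV2] at h3t
  have h3 : Q4 w w w V0 = 0 := tendsto_nhds_unique h3t tendsto_const_nhds
  have hQw := Q4_pos h.1
  have hc0 : c = 0 := by
    rw [hc, Q4_smul4] at h3
    rcases mul_eq_zero.1 h3 with h4 | h4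
    · exact h4
    · exact absurd h4 hQw.ne'
  rw [hc0, zero_smul] at hc
  have hQ0 : Q4 w w V0 V0 = 0 := by
    rw [hc, Q4_swapp, Q4_zero1]
  rw [hQ0, mul_zero] at hct
  obtain ⟨D, hD, hn⟩ := norm_le_ip (N := N) hl
  have h5 : ∀ n, 1 / D ≤ m * Q4 w w (V (f n)) (V (f n)) + 1 / ((f n : ℝ) + 1) := by
    intro n
    have h6 := hn (V (f n))
    rw [hV1, one_pow] at h6
    have h7 := hV3 (f n)
    rw [div_le_iff₀ hD]
    calc (1 : ℝ) ≤ D * ip l (V (f n)) (V (f n)) := h6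
      _ ≤ D * (m * Q4 w w (V (f n)) (V (f n)) + 1 / ((f n : ℝ) + 1)) :=
        mul_le_mul_of_nonneg_left h7 hD.le
      _ = _ := by ring
  have h6 := ge_of_tendsto hct (Eventually.of_forall h5)
  have h7 : 0 < 1 / D := by positivity
  linarith

private theorem scf_bdd {l : ℝ} (hl : 0 < l) (u : ℕ → H1 N) {b : ℝ}
    (h1 : Tendsto (fun n => ip l (u n) (u n)) atTop (𝓝 b)) : ∃ M : ℝ, ∀ n, ‖u n‖ ≤ M := by
  obtain ⟨B, hB⟩ := h1.bddAbove_range
  obtain ⟨M, hM⟩ := scb_norm_bdd (N := N) hl B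
  exact ⟨M, fun n => hM _ (hB ⟨n, rfl⟩)⟩

/-- module scf. Compactness of optimising sequences. (`exists_WC`, `RD_comp`, `WC_lsc`, `WC_strong`.) -/
theorem GNo_compact [Dim N] {l m : ℝ} (hl : 0 < l) (hm : 0 < m) (u : ℕ → H1 N) (hu : ∀ n, RD (u n))
    (h1 : Tendsto (fun n => ip l (u n) (u n)) atTop (𝓝 (S2 N l / m)))
    (h2 : Tendsto (fun n => Q4 (u n) (u n) (u n) (u n)) atTop (𝓝 (S2 N l / m ^ 2))) :
    ∃ (f : ℕ → ℕ) (w : H1 N), StrictMono f ∧ GNo l m w ∧ RD w ∧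
      Tendsto (fun n => u (f n)) atTop (𝓝 w) := by
  obtain ⟨M, hM⟩ := scf_bdd hl u h1
  obtain ⟨f, w, hf, hW⟩ := exists_WC u M hM
  have hS := S2_pos (N := N) hl
  have hwRD : RD w := RD_WC hW (fun n => hu _)
  have hn4 := RD_comp hW (fun n => hu _)
  have hQt := Q4_tendsto _ _ _ _ w w w w hn4 hn4 hn4 hn4
  have hQ : Q4 w w w w = S2 N l / m ^ 2 := tendsto_nhds_unique hQt (h2.comp hf.tendsto_atTop)
  have h1f := h1.comp hf.tendsto_atTop
  have hle : ip l w w ≤ S2 N l / m := WC_lsc hW hl.le h1f (Eventually.of_forall fun n => le_rfl)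
  have h3 := S2_le hl w
  have h4 := ip_nonneg hl.le w
  have hge : S2 N l / m ≤ ip l w w := by
    have h5 : (S2 N l / m) ^ 2 ≤ ip l w w ^ 2 := by
      calc (S2 N l / m) ^ 2 = S2 N l * Q4 w w w w := by
            rw [hQ]
            field_simp
        _ ≤ _ := h3
    exact (pow_le_pow_iff_left₀ (by positivity) h4 (by norm_num)).1 h5
  have heq : ip l w w = S2 N l / m := le_antisymm hle hge
  refine ⟨f, w, hf, ⟨?_, ?_, ?_⟩, hwRD, ?_⟩
  · intro h0
    rw [h0, ip_zero_left] at heq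
    have : 0 < S2 N l / m := by positivity
    linarith
  · rw [heq, hQ]
    field_simp
  · rw [heq, hQ]
    field_simp
  · refine WC_strong hW hl ?_
    rw [heq]
    exact h1f

/-- module scf. Convergence of normalised second components.
Proof: it is enough that every subsequence has a subsequence converging to `w` (`tendsto_of_subseq_tendsto`). Let `v n`
converge weakly to `z` (bounded), `RD z`, in `L⁴` (`RD_comp`): `m Q4 w w z z = ip l w w ≥ ip l z z` (`Q4_tendsto`, `WC_lsc`); `cs_eq'`: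
`z = √k w` with `k = Q4 w w z z / Q4 w w w w = 1` (`ip l w w = m Q4 w w w w`). `WC_strong`. -/
theorem eig_conv [Dim N] {l m : ℝ} (hl : 0 < l) (hm : 0 < m) {w : H1 N} (h : GNo l m w) (hw : RD w)
    (u v : ℕ → H1 N) (hv : ∀ n, RD (v n)) (hu : Tendsto (fun n => n4 (u n - w)) atTop (𝓝 0))
    (h1 : Tendsto (fun n => ip l (v n) (v n)) atTop (𝓝 (ip l w w)))
    (h2 : Tendsto (fun n => m * Q4 (u n) (u n) (v n) (v n)) atTop (𝓝 (ip l w w))) :
    Tendsto v atTop (𝓝 w) := by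
  refine tendsto_of_subseq_tendsto fun ns hns => ?_
  have h1' := h1.comp hns
  have h2' := h2.comp hns
  have hu' := hu.comp hns
  obtain ⟨M, hM⟩ := scf_bdd hl (fun n => v (ns n)) h1'
  obtain ⟨f, z, hf, hW⟩ := exists_WC (fun n => v (ns n)) M hM
  refine ⟨f, ?_⟩
  have hzRD : RD z := RD_WC hW (fun n => hv _)
  have hn4 := RD_comp hW (fun n => hv _)
  have hu4 : Tendsto (fun n => n4 (u (ns (f n)) - w)) atTop (𝓝 0) := hu'.comp hf.tendsto_atTop
  have hQt := (Q4_tendsto _ _ _ _ w w z z hu4 hu4 hn4 hn4).const_mul m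
  have hQ : m * Q4 w w z z = ip l w w := tendsto_nhds_unique hQt (h2'.comp hf.tendsto_atTop)
  have h1f : Tendsto (fun n => ip l (v (ns (f n))) (v (ns (f n)))) atTop (𝓝 (ip l w w)) :=
    h1'.comp hf.tendsto_atTop
  have hle : ip l z z ≤ ip l w w := WC_lsc hW hl.le h1f (Eventually.of_forall fun n => le_rfl)
  have hz := cs_eq' hl hm h (z := z) (by rw [hQ]; exact hle) hw.1 hzRD.1
  have hQw := Q4_pos h.1
  have hk : Q4 w w z z / Q4 w w w w = 1 := by
    rw [div_eq_one_iff_eq hQw.ne']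
    have h5 : m * Q4 w w z z = m * Q4 w w w w := by rw [hQ]; exact h.2.1
    exact mul_left_cancel₀ hm.ne' h5
  rw [hk, Real.sqrt_one, one_smul] at hz
  rw [hz] at hW
  exact WC_strong hW hl h1f

/-- module scg. Flat functions: `ip l = 1` and `∫ψ⁴` as small as we like. (`dil_H` with `s → 0` applied to a fixed
function `u`: `ip l (T u) (T u) = s^{4-N} (gX + s^{-2} l gY)`, `Q4 = s^{4-N} Q4`, so `Q4/ip² ≤ C s^{N}`; normalise.) -/
theorem flat [Dim N] {l : ℝ} (hl : 0 < l) {d : ℝ} (hd : 0 < d) :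
    ∃ p : H1 N, ip l p p = 1 ∧ Q4 p p p p < d := by
  obtain ⟨u, hu⟩ := exists_ne (N := N)
  have hY := gY_pos hu
  have hQ := Q4_pos hu
  have hX := gX_nonneg u
  obtain ⟨K, hK⟩ : ∃ K : ℝ, K = Q4 u u u u / (l * gY u u) ^ 2 := ⟨_, rfl⟩
  have hK0 : 0 < K := by rw [hK]; positivity
  obtain ⟨s, hs⟩ : ∃ s : ℝ, s = min 1 (d / (2 * K)) := ⟨_, rfl⟩
  have hs0 : 0 < s := by rw [hs]; exact lt_min one_pos (by positivity)
  have hs1 : s ≤ 1 := by rw [hs]; exact min_le_left _ _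
  have hs2 : s ≤ d / (2 * K) := by rw [hs]; exact min_le_right _ _
  obtain ⟨T, _, h1, h2⟩ := dil_H (N := N) s hs0
  have hTu : T u ≠ 0 := by
    intro h0
    exact hu (T.map_eq_zero_iff.1 h0)
  have ha := ip_pos hl hTu
  have hip : ip l (T u) (T u) = s ^ (4 - N) * ip (l / s ^ 2) u u := by
    rw [← h1]
    congr 1
    field_simp
  have hip2 : s ^ (4 - N) * (l * gY u u / s ^ 2) ≤ ip l (T u) (T u) := by
    rw [hip]
    apply mul_le_mul_of_nonneg_left _ (by positivity)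
    unfold ip
    have : l * gY u u / s ^ 2 = l / s ^ 2 * gY u u := by ring
    rw [this]
    linarith
  have hN4 : 4 - N + N = 4 := by
    rcases (inferInstance : Dim N).h with h | h <;> omega
  have hN1 : 1 ≤ N := by
    rcases (inferInstance : Dim N).h with h | h <;> omega
  refine ⟨(1 / Real.sqrt (ip l (T u) (T u))) • T u, ?_, ?_⟩
  · rw [scb_smul, div_pow, Real.sq_sqrt ha.le, one_pow, one_div, inv_mul_cancel₀ ha.ne']
  · have e : (1 / Real.sqrt (ip l (T u) (T u))) ^ 4 = 1 / ip l (T u) (T u) ^ 2 := by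
      rw [div_pow, one_pow]
      congr 1
      rw [show (4 : ℕ) = 2 * 2 by norm_num, pow_mul, Real.sq_sqrt ha.le]
    rw [scb_Q, e, h2, one_div_mul_eq_div, div_lt_iff₀ (by positivity)]
    have hsq : (s ^ (4 - N) * (l * gY u u / s ^ 2)) ^ 2 ≤ ip l (T u) (T u) ^ 2 :=
      pow_le_pow_left₀ (by positivity) hip2 2
    have h5 : s ^ (4 - N) * Q4 u u u u < d * (s ^ (4 - N) * (l * gY u u / s ^ 2)) ^ 2 := by
      have e2 : d * (s ^ (4 - N) * (l * gY u u / s ^ 2)) ^ 2 =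
          s ^ (4 - N) * (d * (l * gY u u) ^ 2 * (s ^ (4 - N) / s ^ 4)) := by
        field_simp
      rw [e2]
      apply mul_lt_mul_of_pos_left _ (by positivity)
      have e3 : s ^ (4 - N) / s ^ 4 = 1 / s ^ N := by
        have e5 : s ^ 4 = s ^ (4 - N) * s ^ N := by
          rw [← pow_add, hN4]
        rw [e5]
        field_simp
      rw [e3]
      have h6 : s ^ N ≤ s := by
        calc s ^ N ≤ s ^ 1 := pow_le_pow_of_le_one hs0.le hs1 hN1
          _ = s := pow_one s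
      have h7 : K * s < d := by
        have : K * s ≤ K * (d / (2 * K)) := mul_le_mul_of_nonneg_left hs2 hK0.le
        have e6 : K * (d / (2 * K)) = d / 2 := by
          field_simp
        rw [e6] at this
        linarith
      have h8 : Q4 u u u u = K * (l * gY u u) ^ 2 := by
        rw [hK]
        field_simp
      rw [h8, mul_one_div, lt_div_iff₀ (by positivity)]
      have h9 : K * s ^ N < d := lt_of_le_of_lt (mul_le_mul_of_nonneg_left h6 hK0.le) h7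
      calc K * (l * gY u u) ^ 2 * s ^ N = (K * s ^ N) * (l * gY u u) ^ 2 := by ring
        _ < d * (l * gY u u) ^ 2 := mul_lt_mul_of_pos_right h9 (by positivity)
    exact lt_of_lt_of_le h5 (mul_le_mul_of_nonneg_left hsq hd.le)

/-- module scg. The modulus of a ground state. -/
theorem GNo_abs [Dim N] {l m : ℝ} {w w' : H1 N} (h : GNo l m w)
    (h' : fn w' =ᵐ[volume] fun x => |fn w x|) : GNo l m w' := by
  obtain ⟨w2, k1, k2, k3⟩ := abs_H' w
  have e : w' = w2 := H1_ext (h'.trans k1.symm)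
  have hi : ip l w' w' = ip l w w := by
    unfold ip
    rw [e, k2, k3]
  have hQ : Q4 w' w' w' w' = Q4 w w w w := by
    unfold Q4
    apply integral_congr_ae
    filter_upwards [h'] with x a
    rw [a]
    have := abs_mul_abs_self (fn w x)
    calc |fn w x| * |fn w x| * |fn w x| * |fn w x| = (|fn w x| * |fn w x|) * (|fn w x| * |fn w x|) := by
          ring
      _ = _ := by rw [this]; ring
  refine ⟨?_, ?_, ?_⟩
  · intro h0
    have h1 := gY_pos h.1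
    rw [← k3, ← e, h0] at h1
    have h2 : gY (0 : H1 N) 0 = 0 := by
      have := gY_smul_left 0 (0 : H1 N) 0
      simpa using this
    linarith
  · rw [hi, hQ]
    exact h.2.1
  · rw [hi, hQ]
    exact h.2.2

/-- module scg. Scaling of ground states. -/
theorem GNo_scale [Dim N] {l m s : ℝ} (hl : 0 < l) (hs : 0 < s) {T : H1 N ≃ₗ[ℝ] H1 N}
    (h1 : ∀ (l : ℝ) (u v : H1 N), ip (s ^ 2 * l) (T u) (T v) = s ^ (4 - N) * ip l u v)
    (h2 : ∀ u v w z : H1 N, Q4 (T u) (T v) (T w) (T z) = s ^ (4 - N) * Q4 u v w z) (w : H1 N) :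
    GNo (s ^ 2 * l) m (T w) ↔ GNo l m w := by
  have hp : 0 < s ^ (4 - N) := by positivity
  unfold GNo
  rw [h1, h2, S2_scale hl hs]
  refine and_congr ?_ (and_congr ?_ ?_)
  · rw [ne_eq, ne_eq, T.map_eq_zero_iff]
  · constructor
    · intro h
      have : s ^ (4 - N) * ip l w w = s ^ (4 - N) * (m * Q4 w w w w) := by
        rw [h]
        ring
      exact mul_left_cancel₀ hp.ne' this
    · intro h
      rw [h]
      ring
  · constructor
    · intro h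
      have : (s ^ (4 - N)) ^ 2 * ip l w w ^ 2 = (s ^ (4 - N)) ^ 2 * (S2 N l * Q4 w w w w) := by
        calc (s ^ (4 - N)) ^ 2 * ip l w w ^ 2 = (s ^ (4 - N) * ip l w w) ^ 2 := by ring
          _ = _ := h
          _ = _ := by ring
      exact mul_left_cancel₀ (by positivity) this
    · intro h
      rw [mul_pow, h]
      ring

private theorem sch_pow [Dim N] {k : ℝ} (hk : |k| ≤ 1 / 2) :
    1 + (4 - (N : ℝ)) / 2 * k - k ^ 2 ≤ Real.sqrt (1 + k) ^ (4 - N) := by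
  have hk' := abs_le.1 hk
  rcases (inferInstance : Dim N).h with h | h
  · subst h
    rw [show 4 - 2 = 2 by norm_num, Real.sq_sqrt (by linarith)]
    push_cast
    nlinarith [sq_nonneg k]
  · subst h
    rw [show 4 - 3 = 1 by norm_num, pow_one]
    push_cast
    apply Real.le_sqrt_of_sq_le
    nlinarith [sq_nonneg k, sq_nonneg (k ^ 2), mul_nonneg (sq_nonneg k)
      (by nlinarith : (0 : ℝ) ≤ 7 / 4 + k - k ^ 2)]

private theorem sch_main [Dim N] {l m : ℝ} (hl : 0 < l) {w x : H1 N} (hw : ip l w w = m * Q4 w w w w)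
    (hS : S2 N l = m ^ 2 * Q4 w w w w) (hQ : Q4 w w w x = 0) (hi : ip l w x = 0)
    (hx : ip l x x = 3 * m * Q4 w w x x) (k t : ℝ) (hk : |k| ≤ 1 / 2) :
    m ^ 2 * Q4 w w w w * (1 + (4 - (N : ℝ)) / 2 * k - k ^ 2) *
      (Q4 w w w w + 6 * t ^ 2 * Q4 w w x x + 4 * t ^ 3 * Q4 w x x x + t ^ 4 * Q4 x x x x) ≤
      (m * Q4 w w w w + 3 * m * Q4 w w x x * t ^ 2 + l * k * (gY w w + 2 * t * gY w x + t ^ 2 * gY x x)) ^ 2 := by
  have hk' := abs_le.1 hk
  have h1k : 0 < 1 + k := by linarith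
  have hs : 0 < Real.sqrt (1 + k) := Real.sqrt_pos.2 h1k
  have hs2 : Real.sqrt (1 + k) ^ 2 = 1 + k := Real.sq_sqrt h1k.le
  have hl2 : 0 < Real.sqrt (1 + k) ^ 2 * l := by positivity
  have h1 := S2_le hl2 (w + t • x)
  rw [S2_scale hl hs, P_expand, scc_ip, hQ, hs2, hS] at h1
  have hQ0 := Q4_nonneg (w + t • x) (w + t • x)
  rw [P_expand, hQ] at hQ0
  have e1 : ip ((1 + k) * l) w w = ip l w w + l * k * gY w w := by
    unfold ip
    ring
  have e2 : ip ((1 + k) * l) w x = ip l w x + l * k * gY w x := by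
    unfold ip
    ring
  have e3 : ip ((1 + k) * l) x x = ip l x x + l * k * gY x x := by
    unfold ip
    ring
  rw [e1, e2, e3, hw, hi, hx] at h1
  have hpw := sch_pow (N := N) hk
  have hSn : 0 ≤ m ^ 2 * Q4 w w w w := mul_nonneg (sq_nonneg m) (Q4_nonneg w w)
  calc m ^ 2 * Q4 w w w w * (1 + (4 - (N : ℝ)) / 2 * k - k ^ 2) *
      (Q4 w w w w + 6 * t ^ 2 * Q4 w w x x + 4 * t ^ 3 * Q4 w x x x + t ^ 4 * Q4 x x x x)
      = (1 + (4 - (N : ℝ)) / 2 * k - k ^ 2) * (m ^ 2 * Q4 w w w w *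
        (Q4 w w w w + 4 * t * 0 + 6 * t ^ 2 * Q4 w w x x + 4 * t ^ 3 * Q4 w x x x
          + t ^ 4 * Q4 x x x x)) := by ring
    _ ≤ Real.sqrt (1 + k) ^ (4 - N) * (m ^ 2 * Q4 w w w w *
        (Q4 w w w w + 4 * t * 0 + 6 * t ^ 2 * Q4 w w x x + 4 * t ^ 3 * Q4 w x x x
          + t ^ 4 * Q4 x x x x)) := mul_le_mul_of_nonneg_right hpw (mul_nonneg hSn hQ0)
    _ = Real.sqrt (1 + k) ^ (4 - N) * (m ^ 2 * Q4 w w w w) *
        (Q4 w w w w + 4 * t * 0 + 6 * t ^ 2 * Q4 w w x x + 4 * t ^ 3 * Q4 w x x x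
          + t ^ 4 * Q4 x x x x) := by ring
    _ ≤ _ := h1
    _ = _ := by ring

/-- module sch. `∫ w ξ = 0` for a kernel element, WITHOUT the virial identity.
Hypothesis: `ip l ξ h = 3 m Q4 w w ξ h` for all `h`.
Step 1: `h = w`, and `GNo_sol` with `z = ξ`: `Q4 w w w ξ = 0 = ip l w ξ`.
Step 2: for `|k| < l` put `P = Q4 w w w w`, `mm = Q4 w w ξ ξ` (so `ip l ξ ξ = 3 m mm`), `y = gY w ξ`, `Y0 = gY w w`. `S2_le` at
`w + t ξ` and `l + k`, with `S2 N (l+k) = (1+k/l)^{(4-N)/2} S2 N l` (`S2_scale` with `s = √(1+k/l)`; `s^{4-N}` is `1+k/l` for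
N = 2 and `√(1+k/l)` for N = 3) and `S2 N l = m² P`:
`(m P + 3 m mm t² + k (Y0 + 2 t y + t² gY ξ ξ))² ≥ m² P s^{4-N} (P + 6 t² mm + 4 t³ Q4 w ξ ξ ξ + t⁴ Q4 ξ ξ ξ ξ)`.
Step 3: `t = 0`, both signs of `k`: `2 m P Y0 = m² P² e / l`, `e = (4-N)/2` (Pohozaev).
Step 4: expand with `s^{4-N} ≥ 1 + e k/l - C k²`: all terms up to second order cancel except
`4 m P k t y ≥ - C (k² + |k| t² + |t|³)` for small `|k|, |t|`. Put `k = -sign(y) r t` (`0 < r` small, `t → 0⁺`):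
`4 m P r |y| ≤ C r²`, then `r → 0`: `y = 0`. -/
theorem ker_orth [Dim N] {l m : ℝ} (hl : 0 < l) (hm : 0 < m) {w x : H1 N} (h : GNo l m w)
    (hx : ∀ z : H1 N, ip l x z = 3 * m * Q4 w w x z) : Q4 w w w x = 0 ∧ ip l w x = 0 ∧ gY w x = 0 := by
  have hQ : Q4 w w w x = 0 := by
    have h1 := hx w
    rw [ip_comm, GNo_sol hl hm h x] at h1
    have e : Q4 w w x w = Q4 w w w x := Q4_swap34 w w x w
    rw [e] at h1
    have : m * Q4 w w w x = 0 := by linarith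
    rcases mul_eq_zero.1 this with h2 | h2
    · exact absurd h2 hm.ne'
    · exact h2
  have hi : ip l w x = 0 := by rw [GNo_sol hl hm h x, hQ, mul_zero]
  refine ⟨hQ, hi, ?_⟩
  obtain ⟨k1, k2⟩ := GNo_vals hl hm h
  have hP := Q4_pos h.1
  have hS : S2 N l = m ^ 2 * Q4 w w w w := by
    rw [k1]
    field_simp
  have hxx := hx x
  have hmain := sch_main (N := N) (m := m) hl h.2.1 hS hQ hi hxx
  obtain ⟨P, hPd⟩ : ∃ P, P = Q4 w w w w := ⟨_, rfl⟩
  obtain ⟨B, hB⟩ : ∃ B, B = Q4 w w x x := ⟨_, rfl⟩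
  obtain ⟨C3, hC3⟩ : ∃ C3, C3 = Q4 w x x x := ⟨_, rfl⟩
  obtain ⟨C4, hC4⟩ : ∃ C4, C4 = Q4 x x x x := ⟨_, rfl⟩
  obtain ⟨Y0, hY0⟩ : ∃ Y0, Y0 = gY w w := ⟨_, rfl⟩
  obtain ⟨y, hy⟩ : ∃ y, y = gY w x := ⟨_, rfl⟩
  obtain ⟨Yx, hYx⟩ : ∃ Yx, Yx = gY x x := ⟨_, rfl⟩
  obtain ⟨e, he⟩ : ∃ e : ℝ, e = (4 - (N : ℝ)) / 2 := ⟨_, rfl⟩
  rw [← hy]
  rw [← hPd] at hP
  simp only [← hPd, ← hB, ← hC3, ← hC4, ← hY0, ← hy, ← hYx, ← he] at hmain
  -- Pohozaev
  have hPoh : 2 * l * Y0 = m * P * e := by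
    have h1 : Tendsto (fun k : ℝ => (2 * m * P * (l * Y0) - m ^ 2 * P ^ 2 * e) +
        k * (l ^ 2 * Y0 ^ 2 + m ^ 2 * P ^ 2)) (𝓝 0) (𝓝 ((2 * m * P * (l * Y0) - m ^ 2 * P ^ 2 * e) +
        0 * (l ^ 2 * Y0 ^ 2 + m ^ 2 * P ^ 2))) :=
      (by fun_prop : Continuous fun k : ℝ => (2 * m * P * (l * Y0) - m ^ 2 * P ^ 2 * e) +
        k * (l ^ 2 * Y0 ^ 2 + m ^ 2 * P ^ 2)).tendsto 0
    have h2 : ∀ k : ℝ, |k| ≤ 1 / 2 → 0 ≤ k * ((2 * m * P * (l * Y0) - m ^ 2 * P ^ 2 * e) +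
        k * (l ^ 2 * Y0 ^ 2 + m ^ 2 * P ^ 2)) := by
      intro k hk
      have h3 := hmain k 0 hk
      have e3 : (m * P + 3 * m * B * 0 ^ 2 + l * k * (Y0 + 2 * 0 * y + 0 ^ 2 * Yx)) ^ 2 -
          m ^ 2 * P * (1 + e * k - k ^ 2) * (P + 6 * 0 ^ 2 * B + 4 * 0 ^ 3 * C3 + 0 ^ 4 * C4) =
          k * ((2 * m * P * (l * Y0) - m ^ 2 * P ^ 2 * e) + k * (l ^ 2 * Y0 ^ 2 + m ^ 2 * P ^ 2)) := by
        ring
      rw [← e3]
      linarith
    have hsm : ∀ᶠ k : ℝ in 𝓝 0, |k| ≤ 1 / 2 := by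
      have := Metric.closedBall_mem_nhds (0 : ℝ) (by norm_num : (0 : ℝ) < 1 / 2)
      filter_upwards [this] with k hk
      simpa using hk
    have hge : 0 ≤ (2 * m * P * (l * Y0) - m ^ 2 * P ^ 2 * e) + 0 * (l ^ 2 * Y0 ^ 2 + m ^ 2 * P ^ 2) := by
      refine ge_of_tendsto (h1.mono_left nhdsWithin_le_nhds : Tendsto _ (𝓝[>] (0 : ℝ)) _) ?_
      filter_upwards [self_mem_nhdsWithin, nhdsWithin_le_nhds hsm] with k hk0 hk
      exact nonneg_of_mul_nonneg_right (h2 k hk) hk0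
    have hle : (2 * m * P * (l * Y0) - m ^ 2 * P ^ 2 * e) + 0 * (l ^ 2 * Y0 ^ 2 + m ^ 2 * P ^ 2) ≤ 0 := by
      refine le_of_tendsto (h1.mono_left nhdsWithin_le_nhds : Tendsto _ (𝓝[<] (0 : ℝ)) _) ?_
      filter_upwards [self_mem_nhdsWithin, nhdsWithin_le_nhds hsm] with k hk0 hk
      have hk0' : k < 0 := hk0
      have h4 := h2 k hk
      by_contra hcon
      push Not at hcon
      nlinarith [mul_pos_of_neg_of_neg hk0' (neg_lt_zero.2 hcon), mul_pos (neg_pos.2 hk0') hcon]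
    have h5 : m * P * (2 * l * Y0 - m * P * e) = 0 := by nlinarith
    rcases mul_eq_zero.1 h5 with h6 | h6
    · exact absurd h6 (by positivity)
    · linarith
  -- the linear term
  have hfin : ∀ r : ℝ, 0 ≤ (-(4 * m * P * l * y)) * r + (l ^ 2 * Y0 ^ 2 + m ^ 2 * P ^ 2) * r ^ 2 +
      0 * r ^ 3 + 0 * r ^ 4 := by
    intro r
    have hcont : Continuous fun t : ℝ => 2 * (m * P) * (3 * m * B) - 4 * (m * P) * l * r * y -
        2 * (m * P) * l * r * Yx * t +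
        (3 * m * B * t - l * r * Y0 - 2 * l * r * y * t - l * r * Yx * t ^ 2) ^ 2 -
        m ^ 2 * P * (- r ^ 2 * P + (1 - e * r * t - r ^ 2 * t ^ 2) * (6 * B + 4 * t * C3 + t ^ 2 * C4)) := by
      fun_prop
    have ht := hcont.tendsto 0
    have hsm : ∀ᶠ t : ℝ in 𝓝 0, |r * t| ≤ 1 / 2 := by
      have hc : Continuous fun t : ℝ => |r * t| := by fun_prop
      have h6 := hc.tendsto 0
      simp only [mul_zero, abs_zero] at h6
      exact h6.eventually (eventually_le_nhds (by norm_num))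
    have hge := ge_of_tendsto (b := 0) (ht.mono_left nhdsWithin_le_nhds : Tendsto _ (𝓝[>] (0 : ℝ)) _) (by
      filter_upwards [self_mem_nhdsWithin, nhdsWithin_le_nhds hsm] with t ht0 htr
      have ht0' : 0 < t := ht0
      have h7 := hmain (-(r * t)) t (by rwa [abs_neg])
      have e7 : (m * P + 3 * m * B * t ^ 2 + l * (-(r * t)) * (Y0 + 2 * t * y + t ^ 2 * Yx)) ^ 2 -
          m ^ 2 * P * (1 + e * (-(r * t)) - (-(r * t)) ^ 2) *
            (P + 6 * t ^ 2 * B + 4 * t ^ 3 * C3 + t ^ 4 * C4) =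
          t ^ 2 * (2 * (m * P) * (3 * m * B) - 4 * (m * P) * l * r * y -
            2 * (m * P) * l * r * Yx * t +
            (3 * m * B * t - l * r * Y0 - 2 * l * r * y * t - l * r * Yx * t ^ 2) ^ 2 -
            m ^ 2 * P * (- r ^ 2 * P + (1 - e * r * t - r ^ 2 * t ^ 2) *
              (6 * B + 4 * t * C3 + t ^ 2 * C4))) -
          (m * P * r * t) * (2 * l * Y0 - m * P * e) := by
        ring
      have h8 : 0 ≤ t ^ 2 * (2 * (m * P) * (3 * m * B) - 4 * (m * P) * l * r * y -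
            2 * (m * P) * l * r * Yx * t +
            (3 * m * B * t - l * r * Y0 - 2 * l * r * y * t - l * r * Yx * t ^ 2) ^ 2 -
            m ^ 2 * P * (- r ^ 2 * P + (1 - e * r * t - r ^ 2 * t ^ 2) *
              (6 * B + 4 * t * C3 + t ^ 2 * C4))) := by
        rw [hPoh, sub_self, mul_zero, sub_zero] at e7
        rw [← e7]
        linarith
      exact nonneg_of_mul_nonneg_right h8 (by positivity))
    have e8 : (-(4 * m * P * l * y)) * r + (l ^ 2 * Y0 ^ 2 + m ^ 2 * P ^ 2) * r ^ 2 +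
      0 * r ^ 3 + 0 * r ^ 4 = 2 * (m * P) * (3 * m * B) - 4 * (m * P) * l * r * y -
        2 * (m * P) * l * r * Yx * 0 +
        (3 * m * B * 0 - l * r * Y0 - 2 * l * r * y * 0 - l * r * Yx * 0 ^ 2) ^ 2 -
        m ^ 2 * P * (- r ^ 2 * P + (1 - e * r * 0 - r ^ 2 * 0 ^ 2) * (6 * B + 4 * 0 * C3 + 0 ^ 2 * C4)) := by
      ring
    rw [e8]
    exact hge
  have h9 := scc_poly1 _ _ _ _ hfin
  have h10 : 4 * m * P * l * y = 0 := by linarith
  rcases mul_eq_zero.1 h10 with h11 | h11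
  · exact absurd h11 (by positivity)
  · exact h11

end Sir
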