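import Pool.Agent.Sir.Prof
import Pool.Agent.Sir.Scal
/-!
# Nondegeneracy of the scalar ground state
modules: nda, ndb, ndc, ndd, nde, ndf, ndg
-/

namespace Sir

open MeasureTheory Filter Topology

variable {N : ℕ}

/-- module nda. An equation `ip l u h = k ∫ w² u h` in the form needed in `flux`, with `f = (k w² - l) u`. -/
theorem eq_flux [Dim N] {u w : H1 N} {l k : ℝ} (h : ∀ z : H1 N, ip l u z = k * Q4 w w u z) :
    LocallyIntegrable (fun x => (k * fn w x ^ 2 - l) * fn u x) (volume : Measure (E N)) ∧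
      ∀ p : E N → ℝ, ContDiff ℝ 1 p → HasCompactSupport p →
        ∫ x, inner ℝ (gr u x) (gradient p x) = ∫ x, ((k * fn w x ^ 2 - l) * fn u x) * p x := by
  have hw4 := fn_memLp4 w
  have hw2 : MemLp (fun x => fn w x * fn w x) 2 (volume : Measure (E N)) := by
    refine hw4.mul (r := 2) hw4 (hpqr := ⟨?_⟩)
    have e4 : (4 : ENNReal) = 2 * 2 := by norm_num
    rw [← two_mul, e4, ENNReal.mul_inv (Or.inl two_ne_zero) (Or.inl ENNReal.ofNat_ne_top),
      ← mul_assoc, ENNReal.mul_inv_cancel two_ne_zero ENNReal.ofNat_ne_top, one_mul]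
  have h1 : Integrable (fun x => (fn w x * fn w x) * fn u x) (volume : Measure (E N)) :=
    hw2.integrable_mul (fn_memLp u)
  constructor
  · have h2 : LocallyIntegrable (fun x => k * ((fn w x * fn w x) * fn u x))
        (volume : Measure (E N)) := (h1.const_mul k).locallyIntegrable
    have h3 : LocallyIntegrable (fun x => l * fn u x) (volume : Measure (E N)) :=
      ((fn_memLp u).const_mul l).locallyIntegrable (by norm_num)
    refine (h2.sub h3).congr (Eventually.of_forall fun x => ?_)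
    simp only [Pi.sub_apply]
    ring
  · intro p hp1 hp2
    obtain ⟨z, hz1, hz2⟩ := ofCc p hp1 hp2
    have e1 : ∫ x, inner ℝ (gr u x) (gradient p x) = gX u z := by
      refine integral_congr_ae ?_
      filter_upwards [hz2] with x a
      rw [a]
    have e2 : ∫ x, ((k * fn w x ^ 2 - l) * fn u x) * p x =
        ∫ x, (k * (fn w x * fn w x * fn u x * fn z x) - l * (fn u x * fn z x)) := by
      refine integral_congr_ae ?_
      filter_upwards [hz1] with x a
      rw [← a]
      ring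
    have i2 : Integrable (fun x => fn u x * fn z x) (volume : Measure (E N)) :=
      (fn_memLp u).integrable_mul (fn_memLp z)
    rw [e1, e2, integral_sub ((Q4_integrable w w u z).const_mul k) (i2.const_mul l),
      integral_const_mul, integral_const_mul]
    have e3 := h z
    unfold ip at e3
    have e4 : ∫ x, fn u x * fn z x = gY u z := rfl
    have e5 : ∫ x, fn w x * fn w x * fn u x * fn z x = Q4 w w u z := rfl
    rw [e4, e5]
    linarith

private theorem ndb_ae_sphere [Dim N] (r : ℝ) : ∀ᵐ y : E N, ‖y‖ ≠ r := by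
  have hN : N ≠ 0 := by
    rcases (Dim.h (N := N)) with h | h <;> omega
  have : Nonempty (Fin N) := ⟨⟨0, Nat.pos_of_ne_zero hN⟩⟩
  have : Nontrivial (E N) := by
    infer_instance
  rw [ae_iff]
  have h : {y : E N | ¬ ‖y‖ ≠ r} = Metric.sphere (0 : E N) r := by
    ext y
    simp
  rw [h]
  exact Measure.addHaar_sphere _ _ _

private theorem ndb_ii {a b : ℝ} (ha : 0 < a) (hab : a ≤ b) :
    IntervalIntegrable (fun t : ℝ => (t ^ (N - 1))⁻¹) volume a b := by
  refine ContinuousOn.intervalIntegrable ?_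
  rw [Set.uIcc_of_le hab]
  refine ContinuousOn.inv₀ (continuous_pow _).continuousOn fun t ht => ?_
  exact (pow_pos (ha.trans_le ht.1) _).ne'

private theorem ndb_Hk_out {r1 r2 ρ : ℝ} (h : r2 ≤ ρ) : Hk N r1 r2 ρ = 0 := by
  unfold Hk
  exact if_neg (not_lt.2 h)

private theorem ndb_Hk_in {r1 r2 ρ : ℝ} (h2 : r1 < r2) (h : ρ ≤ r1) :
    Hk N r1 r2 ρ = Hk N r1 r2 r1 := by
  unfold Hk
  rw [if_pos (h.trans_lt h2), if_pos h2, max_eq_right h, max_self]

private theorem ndb_Hk_nonneg {r1 r2 : ℝ} (h1 : 0 < r1) (h2 : r1 ≤ r2) (ρ : ℝ) :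
    0 ≤ Hk N r1 r2 ρ := by
  unfold Hk
  split_ifs with h
  · refine intervalIntegral.integral_nonneg (max_le h.le h2) fun t ht => ?_
    have : 0 < t := h1.trans_le ((le_max_right _ _).trans ht.1)
    positivity
  · exact le_rfl

private theorem ndb_Hk_anti {r1 r2 : ℝ} (h1 : 0 < r1) (h2 : r1 ≤ r2) :
    Antitone (Hk N r1 r2) := by
  intro a b hab
  by_cases hb : b < r2
  · unfold Hk
    rw [if_pos hb, if_pos (hab.trans_lt hb)]
    have e1 : 0 < max a r1 := h1.trans_le (le_max_right _ _)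
    have e2 : max a r1 ≤ max b r1 := max_le_max_right _ hab
    have e3 : max b r1 ≤ r2 := max_le hb.le h2
    rw [← intervalIntegral.integral_add_adjacent_intervals (ndb_ii (N := N) e1 e2)
      (ndb_ii (N := N) (e1.trans_le e2) e3)]
    refine le_add_of_nonneg_left ?_
    refine intervalIntegral.integral_nonneg e2 fun t ht => ?_
    have : 0 < t := e1.trans_le ht.1
    positivity
  · rw [ndb_Hk_out (not_lt.1 hb)]
    exact ndb_Hk_nonneg h1 h2 a

private theorem ndb_Hk_le {r1 r2 : ℝ} (h1 : 0 < r1) (h2 : r1 ≤ r2) (ρ : ℝ) :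
    Hk N r1 r2 ρ ≤ (r1 ^ (N - 1))⁻¹ * (r2 - r1) := by
  have h0 : 0 ≤ (r1 ^ (N - 1))⁻¹ * (r2 - r1) := mul_nonneg (by positivity) (sub_nonneg.2 h2)
  unfold Hk
  split_ifs with h
  · have e1 : 0 < max ρ r1 := h1.trans_le (le_max_right _ _)
    have e3 : max ρ r1 ≤ r2 := max_le h.le h2
    have e4 : ∫ t in (max ρ r1)..r2, (t ^ (N - 1))⁻¹ ≤ ∫ _t in (max ρ r1)..r2, (r1 ^ (N - 1))⁻¹ := by
      refine intervalIntegral.integral_mono_on e3 (ndb_ii e1 e3) intervalIntegrable_const
        fun t ht => ?_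
      exact inv_anti₀ (by positivity) (pow_le_pow_left₀ h1.le ((le_max_right _ _).trans ht.1) _)
    refine e4.trans ?_
    rw [intervalIntegral.integral_const, smul_eq_mul, mul_comm]
    refine mul_le_mul_of_nonneg_left ?_ (by positivity)
    linarith [le_max_right ρ r1]
  · exact h0

private theorem ndb_Hk_pos {r1 r2 : ℝ} (h1 : 0 < r1) (h2 : r1 < r2) : 0 < Hk N r1 r2 r1 := by
  unfold Hk
  rw [if_pos h2, max_self]
  refine intervalIntegral.intervalIntegral_pos_of_pos_on (ndb_ii h1 h2.le) (fun t ht => ?_) h2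
  have : 0 < t := h1.trans ht.1
  positivity

private theorem ndb_Hk_meas {r1 r2 : ℝ} (h1 : 0 < r1) (h2 : r1 ≤ r2) :
    Measurable (fun x : E N => Hk N r1 r2 ‖x‖) :=
  (ndb_Hk_anti h1 h2).measurable.comp measurable_norm

/-- the annulus -/
private def ndb_Ann (N : ℕ) (a b : ℝ) : Set (E N) := {x | a < ‖x‖ ∧ ‖x‖ < b}

private theorem ndb_Ann_open (a b : ℝ) : IsOpen (ndb_Ann N a b) :=
  (isOpen_lt continuous_const continuous_norm).inter (isOpen_lt continuous_norm continuous_const)

private theorem ndb_Ann_sub (a b : ℝ) : ndb_Ann N a b ⊆ Metric.closedBall (0 : E N) b := fun x hx => by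
  rw [Metric.mem_closedBall, dist_zero_right]
  exact hx.2.le

private theorem ndb_loc {f : E N → ℝ} (hf : LocallyIntegrable f (volume : Measure (E N)))
    (r : ℝ) : IntegrableOn f (Metric.closedBall (0 : E N) r) :=
  hf.integrableOn_isCompact (isCompact_closedBall _ _)

private theorem ndb_int_mul {f : E N → ℝ} (hf : LocallyIntegrable f (volume : Measure (E N)))
    {r1 r2 : ℝ} (h1 : 0 < r1) (h2 : r1 ≤ r2) :
    IntegrableOn (fun x => f x * Hk N r1 r2 ‖x‖) (ndb_Ann N r1 r2) := by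
  have h3 : IntegrableOn f (ndb_Ann N r1 r2) := (ndb_loc hf r2).mono_set (ndb_Ann_sub _ _)
  refine Integrable.mul_bdd (c := (r1 ^ (N - 1))⁻¹ * (r2 - r1)) h3
    (ndb_Hk_meas h1 h2).aestronglyMeasurable (Eventually.of_forall fun x => ?_)
  rw [Real.norm_eq_abs, abs_of_nonneg (ndb_Hk_nonneg h1 h2 _)]
  exact ndb_Hk_le h1 h2 _

private theorem ndb_split {f : E N → ℝ} (hf : LocallyIntegrable f (volume : Measure (E N)))
    {r1 r2 : ℝ} (h1 : 0 < r1) (h2 : r1 < r2) :
    ∫ x, f x * Hk N r1 r2 ‖x‖ = Hk N r1 r2 r1 * (∫ x in Metric.closedBall (0 : E N) r1, f x) +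
      ∫ x in ndb_Ann N r1 r2, f x * Hk N r1 r2 ‖x‖ := by
  have e1 : (fun x => f x * Hk N r1 r2 ‖x‖) = fun x =>
      (Metric.closedBall (0 : E N) r1).indicator (fun x => Hk N r1 r2 r1 * f x) x +
      (ndb_Ann N r1 r2).indicator (fun x => f x * Hk N r1 r2 ‖x‖) x := by
    funext x
    rcases le_or_gt ‖x‖ r1 with h | h
    · have a1 : x ∈ Metric.closedBall (0 : E N) r1 := by
        rw [Metric.mem_closedBall, dist_zero_right]
        exact h
      have a2 : x ∉ ndb_Ann N r1 r2 := fun hx => absurd hx.1 (not_lt.2 h)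
      rw [Set.indicator_of_mem a1, Set.indicator_of_notMem a2, add_zero, ndb_Hk_in h2 h, mul_comm]
    · have a1 : x ∉ Metric.closedBall (0 : E N) r1 := by
        rw [Metric.mem_closedBall, dist_zero_right]
        exact not_le.2 h
      rw [Set.indicator_of_notMem a1, zero_add]
      rcases lt_or_ge ‖x‖ r2 with h' | h'
      · have a2 : x ∈ ndb_Ann N r1 r2 := ⟨h, h'⟩
        rw [Set.indicator_of_mem a2]
      · have a2 : x ∉ ndb_Ann N r1 r2 := fun hx => absurd hx.2 (not_lt.2 h')
        rw [Set.indicator_of_notMem a2, ndb_Hk_out h', mul_zero]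
  have hc : MeasurableSet (Metric.closedBall (0 : E N) r1) := Metric.isClosed_closedBall.measurableSet
  have ha : MeasurableSet (ndb_Ann N r1 r2) := (ndb_Ann_open _ _).measurableSet
  have i1 : IntegrableOn (fun x => Hk N r1 r2 r1 * f x) (Metric.closedBall (0 : E N) r1) :=
    (ndb_loc hf r1).const_mul _
  have i2 := ndb_int_mul hf h1 h2.le
  refine (congrArg (fun g : E N → ℝ => ∫ x, g x) e1).trans ?_
  rw [integral_add (i1.integrable_indicator hc) (i2.integrable_indicator ha),
    integral_indicator hc, integral_indicator ha, integral_const_mul]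

private theorem ndb_vol_fin (a b : ℝ) : (volume : Measure (E N)) (ndb_Ann N a b) < ⊤ :=
  (measure_mono (ndb_Ann_sub a b)).trans_lt (isCompact_closedBall (0 : E N) b).measure_lt_top

/-- module ndb. UNIQUE CONTINUATION from infinity for radial solutions of `-Δu + l u = k w² u`, `w` radially
nonincreasing.
Proof: profiles `F` of `u`, `V = k W² - l` with `W` the profile of `w`; `V` is bounded on `[r1,∞)` for every `r1 > 0`. Let
`z*` be the infimum of the `z > 0` with `F = 0` on `[z,∞)` (nonempty by `h0`); suppose `z* > 0`. Total flux: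
`∫_{|x|<z*} V u = 0` (test with a `C¹_c` function which is `1` on `ball 0 z*`: `gr u = 0` a.e. outside, `gr_zero_of_fn_zero`).
For `0 < r < z*`, `flux` with `r1 = r`, `r2 = z*`, `F z* = 0`:
`c_N F(r) = ∫_{|x|<z*} V u Hk(|x|) = ∫_{r<|x|<z*} V u (Hk(|x|) - Hk(r))` (subtract `Hk(r)` times the total flux; `Hk` is
constant for `|x| ≤ r`). With `0 ≤ Hk ≤ Hk(r) ≤ C (z*-r)` and `int_radial`: `|F(r)| ≤ C (z*-r) ∫_r^{z*} |F|`, `C` uniform for
`r ≥ z*/2`. So `M = sup_{[r,z*]} |F| ≤ C (z*-r)² M`, `M = 0` for `r` near `z*`: contradiction with the choice of `z*`. -/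
theorem uniq_cont [Dim N] {u w : H1 N} (hu : Rad u) (hw : RD w) {l k : ℝ}
    (h : ∀ z : H1 N, ip l u z = k * Q4 w w u z) {z : ℝ} (hz : 0 < z)
    (h0 : ∀ᵐ x : E N, z < ‖x‖ → fn u x = 0) : u = 0 := by
  obtain ⟨F, hF⟩ := exists_prof hu
  obtain ⟨W, hW⟩ := exists_prof (RD_Rad hw)
  obtain ⟨hWa, hWn⟩ := prof_anti hW hw
  obtain ⟨hloc, htest⟩ := eq_flux h
  set f : E N → ℝ := fun x => (k * fn w x ^ 2 - l) * fn u x with hf
  set S : Set ℝ := {s | 0 < s ∧ ∀ r, s ≤ r → F r = 0} with hS
  have hzS : z ∈ S := ⟨hz, prof_out hF hz h0⟩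
  have hbdd : BddBelow S := ⟨0, fun s hs => hs.1.le⟩
  set zs : ℝ := sInf S with hzs
  have hzs0 : 0 ≤ zs := le_csInf ⟨z, hzS⟩ fun s hs => hs.1.le
  have hF0 : ∀ r, zs < r → F r = 0 := by
    intro r hr
    obtain ⟨s, hs, hsr⟩ := exists_lt_of_csInf_lt ⟨z, hzS⟩ hr
    exact hs.2 r hsr.le
  rcases hzs0.eq_or_lt with h1 | hpos
  · exact prof_zero hF fun r hr => hF0 r (by rw [← h1]; exact hr)
  exfalso
  have hFzs : F zs = 0 := by
    have hc : ContinuousAt F zs := hF.1.continuousAt (Ioi_mem_nhds hpos)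
    have e1 : Tendsto F (𝓝[>] zs) (𝓝 (F zs)) := hc.tendsto.mono_left nhdsWithin_le_nhds
    have e2 : Tendsto F (𝓝[>] zs) (𝓝 0) :=
      tendsto_const_nhds.congr' (by
        filter_upwards [self_mem_nhdsWithin] with r hr
        exact (hF0 r hr).symm)
    exact tendsto_nhds_unique e1 e2
  have hF0' : ∀ r, zs ≤ r → F r = 0 := fun r hr => by
    rcases hr.eq_or_lt with e | e
    · rw [← e, hFzs]
    · exact hF0 r e
  -- `f` vanishes outside the ball
  have hfout : ∀ᵐ x : E N, zs ≤ ‖x‖ → f x = 0 := by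
    filter_upwards [hF.2.1] with x a hx
    rw [hf]
    simp only
    rw [a, hF0' _ hx, mul_zero]
  -- the total flux
  have htot : ∫ x in Metric.closedBall (0 : E N) zs, f x = 0 := by
    obtain ⟨p, hp1, hp2, hp3⟩ : ∃ p : E N → ℝ, ContDiff ℝ 1 p ∧ HasCompactSupport p ∧
        ∀ x, ‖x‖ < zs + 1 → p x = 1 := by
      let g : ContDiffBump (0 : E N) := ⟨zs + 1, zs + 2, by linarith, by linarith⟩
      refine ⟨g, g.contDiff, g.hasCompactSupport, fun x hx => ?_⟩
      refine g.one_of_mem_closedBall ?_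
      rw [Metric.mem_closedBall, dist_zero_right]
      exact hx.le
    have e1 := htest p hp1 hp2
    have e2 : ∫ x, inner ℝ (gr u x) (gradient p x) = 0 := by
      rw [← integral_zero (E N) ℝ]
      refine integral_congr_ae ?_
      filter_upwards [gr_zero_of_fn_zero u, hF.2.1] with x a b
      rcases lt_or_ge ‖x‖ (zs + 1) with hx | hx
      · have e3 : p =ᶠ[𝓝 x] fun _ => (1 : ℝ) := by
          filter_upwards [(isOpen_lt continuous_norm continuous_const).mem_nhds hx] with y hy
          exact hp3 y hy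
        have e4 : gradient p x = 0 := by
          unfold gradient
          rw [e3.fderiv_eq]
          simp
        rw [e4, inner_zero_right]
      · rw [a (by rw [b]; exact hF0' _ (by linarith)), inner_zero_left]
    rw [e2] at e1
    rw [← integral_indicator Metric.isClosed_closedBall.measurableSet, e1]
    refine integral_congr_ae ?_
    filter_upwards [hfout] with x a
    rcases le_or_gt ‖x‖ zs with hx | hx
    · rw [Set.indicator_of_mem (by rw [Metric.mem_closedBall, dist_zero_right]; exact hx),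
        hp3 x (by linarith), mul_one]
    · rw [Set.indicator_of_notMem (by
        rw [Metric.mem_closedBall, dist_zero_right]; exact not_le.2 hx)]
      have := a hx.le
      rw [hf] at this
      simp only at this
      rw [this, zero_mul]
  -- the basic estimate
  set Vm : ℝ := |k| * W (zs / 2) ^ 2 + |l| with hVm
  have hVm0 : 0 ≤ Vm := by positivity
  set B : ℝ := (volume (Metric.closedBall (0 : E N) zs)).toReal with hB
  have hB0 : 0 ≤ B := ENNReal.toReal_nonneg
  have hest : ∀ r M : ℝ, zs / 2 ≤ r → r < zs → (∀ s, r ≤ s → s ≤ zs → |F s| ≤ M) →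
      cN N * |F r| ≤ (((zs / 2) ^ (N - 1))⁻¹ * (zs - r)) * (Vm * M * B) := by
    intro r M hr1 hr2 hM
    have hr0 : 0 < r := by linarith
    have hM0 : 0 ≤ M := (abs_nonneg _).trans (hM r le_rfl hr2.le)
    have e1 := flux hF f hloc htest hr0 hr2.le
    rw [ndb_split hloc hr0 hr2, hFzs] at e1
    -- the flux through the sphere of radius `r`
    have hcl : MeasurableSet (Metric.closedBall (0 : E N) r) :=
      Metric.isClosed_closedBall.measurableSet
    have e2 : ∫ x in Metric.closedBall (0 : E N) r, f x = - ∫ x in ndb_Ann N r zs, f x := by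
      have a1 : (Metric.closedBall (0 : E N) zs) =ᵐ[volume]
          ((Metric.closedBall (0 : E N) r) ∪ ndb_Ann N r zs : Set (E N)) := by
        filter_upwards [ndb_ae_sphere (N := N) zs] with x hx
        refine propext ?_
        show x ∈ Metric.closedBall (0 : E N) zs ↔
          x ∈ (Metric.closedBall (0 : E N) r) ∪ ndb_Ann N r zs
        rw [Set.mem_union, Metric.mem_closedBall, Metric.mem_closedBall, dist_zero_right]
        constructor
        · intro h1
          rcases le_or_gt ‖x‖ r with h2 | h2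
          · exact Or.inl h2
          · exact Or.inr ⟨h2, lt_of_le_of_ne h1 hx⟩
        · rintro (h1 | h1)
          · exact h1.trans hr2.le
          · exact h1.2.le
      rw [setIntegral_congr_set a1, setIntegral_union] at htot
      · linarith
      · rw [Set.disjoint_left]
        intro x hx hx'
        rw [Metric.mem_closedBall, dist_zero_right] at hx
        exact absurd hx'.1 (not_lt.2 hx)
      · exact (ndb_Ann_open _ _).measurableSet
      · exact ndb_loc hloc r
      · exact (ndb_loc hloc zs).mono_set (ndb_Ann_sub _ _)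
    have i1 := ndb_int_mul hloc hr0 hr2.le
    have i2 : IntegrableOn (fun x => Hk N r zs r * f x) (ndb_Ann N r zs) :=
      ((ndb_loc hloc zs).mono_set (ndb_Ann_sub _ _)).const_mul _
    have e3 : cN N * F r = ∫ x in ndb_Ann N r zs, (f x * Hk N r zs ‖x‖ - Hk N r zs r * f x) := by
      rw [integral_sub i1 i2, integral_const_mul]
      rw [e2] at e1
      linarith
    have e4 : ∀ᵐ x ∂(volume.restrict (ndb_Ann N r zs)),
        ‖f x * Hk N r zs ‖x‖ - Hk N r zs r * f x‖ ≤
          ((zs / 2) ^ (N - 1))⁻¹ * (zs - r) * (Vm * M) := by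
      rw [ae_restrict_iff' (ndb_Ann_open _ _).measurableSet]
      filter_upwards [hF.2.1, hW.2.1] with x a b hx
      have a1 : f x * Hk N r zs ‖x‖ - Hk N r zs r * f x =
          f x * (Hk N r zs ‖x‖ - Hk N r zs r) := by ring
      rw [a1, norm_mul, Real.norm_eq_abs, Real.norm_eq_abs]
      have a2 : |Hk N r zs ‖x‖ - Hk N r zs r| ≤ ((zs / 2) ^ (N - 1))⁻¹ * (zs - r) := by
        have b1 := ndb_Hk_nonneg (N := N) hr0 hr2.le ‖x‖
        have b2 := ndb_Hk_anti (N := N) hr0 hr2.le hx.1.le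
        have b3 := ndb_Hk_le (N := N) hr0 hr2.le r
        have b4 : (r ^ (N - 1))⁻¹ * (zs - r) ≤ ((zs / 2) ^ (N - 1))⁻¹ * (zs - r) := by
          refine mul_le_mul_of_nonneg_right ?_ (by linarith)
          exact inv_anti₀ (by positivity) (pow_le_pow_left₀ (by positivity) hr1 _)
        rw [abs_le]
        constructor <;> linarith
      have a3 : |f x| ≤ Vm * M := by
        rw [hf]
        simp only
        rw [a, b, abs_mul]
        refine mul_le_mul ?_ (hM _ hx.1.le hx.2.le) (abs_nonneg _) hVm0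
        have b1 : W ‖x‖ ≤ W (zs / 2) := hWa (Set.mem_Ioi.2 (by linarith))
          (Set.mem_Ioi.2 (hr0.trans hx.1)) (hr1.trans hx.1.le)
        have b2 : 0 ≤ W ‖x‖ := hWn _ (hr0.trans hx.1)
        have b3 : W ‖x‖ ^ 2 ≤ W (zs / 2) ^ 2 := pow_le_pow_left₀ b2 b1 2
        calc |k * W ‖x‖ ^ 2 - l| ≤ |k * W ‖x‖ ^ 2| + |l| := abs_sub _ _
          _ = |k| * W ‖x‖ ^ 2 + |l| := by rw [abs_mul, abs_of_nonneg (sq_nonneg (W ‖x‖))]
          _ ≤ Vm := by
              rw [hVm]
              have := mul_le_mul_of_nonneg_left b3 (abs_nonneg k)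
              linarith
      rw [mul_comm]
      exact mul_le_mul a2 a3 (abs_nonneg _) (mul_nonneg (by positivity) (by linarith))
    have e5 := norm_setIntegral_le_of_norm_le_const_ae (ndb_vol_fin r zs) e4
    rw [← e3, Real.norm_eq_abs, abs_mul, abs_of_pos (cN_pos (N := N))] at e5
    refine e5.trans ?_
    have e6 : (volume : Measure (E N)).real (ndb_Ann N r zs) ≤ B :=
      measureReal_mono (ndb_Ann_sub r zs) (isCompact_closedBall (0 : E N) zs).measure_lt_top.ne
    have e7 : 0 ≤ ((zs / 2) ^ (N - 1))⁻¹ * (zs - r) * (Vm * M) := by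
      have : 0 ≤ zs - r := by linarith
      positivity
    calc ((zs / 2) ^ (N - 1))⁻¹ * (zs - r) * (Vm * M) * (volume : Measure (E N)).real (ndb_Ann N r zs)
        ≤ ((zs / 2) ^ (N - 1))⁻¹ * (zs - r) * (Vm * M) * B := mul_le_mul_of_nonneg_left e6 e7
      _ = _ := by ring
  -- conclusion
  have hcN := cN_pos (N := N)
  set C0 : ℝ := ((zs / 2) ^ (N - 1))⁻¹ * (Vm * B) with hC0
  have hC00 : 0 ≤ C0 := by positivity
  set δ : ℝ := min (zs / 2) (cN N / (2 * (C0 + 1))) with hδ
  have hδ0 : 0 < δ := lt_min (by positivity) (by positivity)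
  have hδ1 : δ ≤ zs / 2 := min_le_left _ _
  have hδ2 : C0 * δ ≤ cN N / 2 := by
    have e1 : δ ≤ cN N / (2 * (C0 + 1)) := min_le_right _ _
    rw [le_div_iff₀ (by positivity)] at e1
    nlinarith
  have hcont : ContinuousOn (fun r => |F r|) (Set.Icc (zs - δ) zs) :=
    (hF.1.mono fun r hr => Set.mem_Ioi.2 (by linarith [hr.1])).abs
  obtain ⟨s0, hs0, hmax⟩ := isCompact_Icc.exists_isMaxOn
    (Set.nonempty_Icc.2 (by linarith : zs - δ ≤ zs)) hcont
  have hmax' : ∀ s, zs - δ ≤ s → s ≤ zs → |F s| ≤ |F s0| := fun s h1 h2 => hmax ⟨h1, h2⟩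
  have hM0 : |F s0| = 0 := by
    rcases hs0.2.eq_or_lt with e | e
    · rw [e, hFzs, abs_zero]
    · have e1 := hest s0 |F s0| (by linarith [hs0.1]) e fun s h1 h2 =>
        hmax' s (hs0.1.trans h1) h2
      have e2 : ((zs / 2) ^ (N - 1))⁻¹ * (zs - s0) * (Vm * |F s0| * B) =
          (C0 * (zs - s0)) * |F s0| := by
        rw [hC0]
        ring
      rw [e2] at e1
      have e3 : C0 * (zs - s0) ≤ cN N / 2 :=
        (mul_le_mul_of_nonneg_left (by linarith [hs0.1]) hC00).trans hδ2
      have e4 : (C0 * (zs - s0)) * |F s0| ≤ cN N / 2 * |F s0| :=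
        mul_le_mul_of_nonneg_right e3 (abs_nonneg _)
      have e5 : cN N * |F s0| ≤ cN N / 2 * |F s0| := e1.trans e4
      have e6 := abs_nonneg (F s0)
      by_contra hne
      have e7 : 0 < |F s0| := lt_of_le_of_ne e6 (Ne.symm hne)
      nlinarith [mul_pos hcN e7]
  have hin : zs - δ ∈ S := by
    refine ⟨by linarith, fun r hr => ?_⟩
    rcases le_or_gt r zs with e | e
    · have := hmax' r hr e
      rw [hM0] at this
      exact abs_eq_zero.1 (le_antisymm this (abs_nonneg _))
    · exact hF0 r e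
  have := csInf_le hbdd hin
  linarith

private theorem ndc_vol [Dim N] {a b : ℝ} (ha : 0 ≤ a) (hab : a ≤ b) :
    (volume : Measure (E N)).real (ndb_Ann N a b) ≤
      (volume : Measure (E N)).real (Metric.ball (0 : E N) 1) * (b ^ N - a ^ N) := by
  have hN : N ≠ 0 := by
    rcases (Dim.h (N := N)) with h | h <;> omega
  have : Nonempty (Fin N) := ⟨⟨0, Nat.pos_of_ne_zero hN⟩⟩
  have : Nontrivial (E N) := by
    infer_instance
  have e1 : (volume : Measure (E N)).real (Metric.ball (0 : E N) b) =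
      b ^ N * (volume : Measure (E N)).real (Metric.ball (0 : E N) 1) := by
    have e0 := Measure.addHaar_ball (volume : Measure (E N)) (0 : E N) (ha.trans hab)
    rw [measureReal_def, e0, ENNReal.toReal_mul, ENNReal.toReal_ofReal (by
      have := ha.trans hab
      positivity), finrank_euclideanSpace_fin, measureReal_def]
  have e2 : (volume : Measure (E N)).real (Metric.closedBall (0 : E N) a) =
      a ^ N * (volume : Measure (E N)).real (Metric.ball (0 : E N) 1) := by
    have := Measure.addHaar_real_closedBall (volume : Measure (E N)) (0 : E N) ha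
    rw [this, finrank_euclideanSpace_fin]
  have e3 : ndb_Ann N a b ∪ Metric.closedBall (0 : E N) a ⊆
      Metric.ball (0 : E N) b ∪ Metric.sphere (0 : E N) a := by
    rintro x (hx | hx)
    · refine Or.inl ?_
      rw [Metric.mem_ball, dist_zero_right]
      exact hx.2
    · rw [Metric.mem_closedBall, dist_zero_right] at hx
      rcases hx.eq_or_lt with e | e
      · refine Or.inr ?_
        rw [Metric.mem_sphere, dist_zero_right]
        exact e
      · refine Or.inl ?_
        rw [Metric.mem_ball, dist_zero_right]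
        exact e.trans_le hab
  have hd : Disjoint (ndb_Ann N a b) (Metric.closedBall (0 : E N) a) := by
    rw [Set.disjoint_left]
    intro x hx hx'
    rw [Metric.mem_closedBall, dist_zero_right] at hx'
    exact absurd hx.1 (not_lt.2 hx')
  have f1 : (volume : Measure (E N)) (Metric.closedBall (0 : E N) a) ≠ ⊤ :=
    (isCompact_closedBall (0 : E N) a).measure_lt_top.ne
  have f2 : (volume : Measure (E N)) (Metric.ball (0 : E N) b) ≠ ⊤ := measure_ball_lt_top.ne
  have f3 : (volume : Measure (E N)) (Metric.sphere (0 : E N) a) = 0 :=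
    Measure.addHaar_sphere _ _ _
  have e4 := measureReal_union (μ := (volume : Measure (E N))) hd
    Metric.isClosed_closedBall.measurableSet (ndb_vol_fin a b).ne f1
  have e5 : (volume : Measure (E N)).real (ndb_Ann N a b ∪ Metric.closedBall (0 : E N) a) ≤
      (volume : Measure (E N)).real (Metric.ball (0 : E N) b ∪ Metric.sphere (0 : E N) a) :=
    measureReal_mono e3 (by
      refine (measure_union_lt_top measure_ball_lt_top ?_).ne
      rw [f3]
      exact ENNReal.zero_lt_top)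
  have e6 : (volume : Measure (E N)).real (Metric.ball (0 : E N) b ∪ Metric.sphere (0 : E N) a) ≤
      (volume : Measure (E N)).real (Metric.ball (0 : E N) b) +
      (volume : Measure (E N)).real (Metric.sphere (0 : E N) a) := measureReal_union_le _ _
  have e7 : (volume : Measure (E N)).real (Metric.sphere (0 : E N) a) = 0 := by
    rw [measureReal_def, f3, ENNReal.toReal_zero]
  rw [e4, e2] at e5
  rw [e7, e1] at e6
  linarith

private theorem ndc_pos [Dim N] {a b : ℝ} (ha : 0 ≤ a) (hab : a < b) :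
    0 < (volume : Measure (E N)).real (ndb_Ann N a b) := by
  have hN : N ≠ 0 := by
    rcases (Dim.h (N := N)) with h | h <;> omega
  have : Nonempty (Fin N) := ⟨⟨0, Nat.pos_of_ne_zero hN⟩⟩
  have : Nontrivial (E N) := by
    infer_instance
  obtain ⟨x, hx⟩ := exists_norm_eq (E N) (c := (a + b) / 2) (by linarith)
  have hne : (ndb_Ann N a b).Nonempty := ⟨x, by
    show a < ‖x‖ ∧ ‖x‖ < b
    rw [hx]
    constructor <;> linarith⟩
  have h1 := (ndb_Ann_open a b).measure_pos (volume : Measure (E N)) hne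
  exact ENNReal.toReal_pos h1.ne' (ndb_vol_fin a b).ne

private theorem ndc_inf [Dim N] (r : ℝ) :
    (volume : Measure (E N)) {x : E N | r < ‖x‖} = ⊤ := by
  have hN : N ≠ 0 := by
    rcases (Dim.h (N := N)) with h | h <;> omega
  have : Nonempty (Fin N) := ⟨⟨0, Nat.pos_of_ne_zero hN⟩⟩
  have : Nontrivial (E N) := by
    infer_instance
  have : NoncompactSpace (E N) := NormedSpace.noncompactSpace ℝ (E N)
  have h1 : (volume : Measure (E N)) Set.univ = ⊤ := measure_univ_of_isAddLeftInvariant _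
  have h2 : (Set.univ : Set (E N)) ⊆ {x : E N | r < ‖x‖} ∪ Metric.closedBall (0 : E N) r := by
    intro x _
    rcases lt_or_ge r ‖x‖ with h | h
    · exact Or.inl h
    · refine Or.inr ?_
      rw [Metric.mem_closedBall, dist_zero_right]
      exact h
  by_contra hne
  have h3 : (volume : Measure (E N)) Set.univ < ⊤ :=
    (measure_mono h2).trans_lt (measure_union_lt_top (lt_top_iff_ne_top.2 hne)
      (isCompact_closedBall (0 : E N) r).measure_lt_top)
  rw [h1] at h3
  exact lt_irrefl _ h3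

/-- module ndc. The profile of a radially nonincreasing scalar ground state is positive and strictly decreasing.
Proof. Positive: if `W z = 0` then `W = 0` on `[z,∞)` (antitone, `≥ 0`), `uniq_cont` with `u = w`, `k = m`: `w = 0`.
Strict: suppose `W = c` on `[r1,r2]`, `r1 < r2`. `flux` with `f = (m w² - l) w` on `[r,r2]` for all `r` in
`[r1,r2)`: `0 = ∫ f Hk = Hk(r) ∫_{|x|<r} f + ∫_{r<|x|<r2} f Hk`; on the annulus `f = f0` is constant. Comparing two values of `r`
(or differentiating in `r`) `∫_{|x|<r} f = 0` for all `r` in `(r1,r2)`, so `f0 = 0`, i.e. `m c² = l` (as `c > 0`), and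
`∫_{|x|<r2} f = 0`. For `r3 > r2`: `flux` on `[r2,r3]`: `c_N (W r3 - W r2) = - ∫_{r2<|x|<r3} f Hk ≥ 0`, because `W ≤ c` there and
`f = W (m W² - l) ≤ 0`. So `W r3 ≥ W r2` for all `r3 > r2`, `W = c > 0` on `[r2,∞)`, impossible for a function in
`L²`. -/
theorem prof_strict [Dim N] {l m : ℝ} (hl : 0 < l) (hm : 0 < m) {w : H1 N} (h : GNo l m w)
    (hw : RD w) {W : ℝ → ℝ} (hW : IsProf w W) :
    StrictAntiOn W (Set.Ioi 0) ∧ ∀ r, 0 < r → 0 < W r := by
  obtain ⟨hWa, hWn⟩ := prof_anti hW hw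
  have hsol : ∀ z : H1 N, ip l w z = m * Q4 w w w z := GNo_sol hl hm h
  have hpos : ∀ r, 0 < r → 0 < W r := by
    intro r hr
    by_contra hcon
    have h0 : W r = 0 := le_antisymm (not_lt.1 hcon) (hWn r hr)
    have h1 : ∀ s, r ≤ s → W s = 0 := fun s hs => le_antisymm
      ((hWa (Set.mem_Ioi.2 hr) (Set.mem_Ioi.2 (hr.trans_le hs)) hs).trans_eq h0)
      (hWn s (hr.trans_le hs))
    refine h.1 (uniq_cont (RD_Rad hw) hw hsol hr ?_)
    filter_upwards [hW.2.1] with x a hx
    rw [a, h1 _ hx.le]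
  refine ⟨?_, hpos⟩
  obtain ⟨hloc, htest⟩ := eq_flux hsol
  set f : E N → ℝ := fun x => (m * fn w x ^ 2 - l) * fn w x with hf
  have hfW : ∀ᵐ x : E N, f x = (m * W ‖x‖ ^ 2 - l) * W ‖x‖ := by
    filter_upwards [hW.2.1] with x a
    rw [hf]
    simp only
    rw [a]
  intro r1 hr1 r2 hr2 hr12
  rw [Set.mem_Ioi] at hr1 hr2
  by_contra hcon
  push Not at hcon
  set c : ℝ := W r2 with hc
  have hc0 : 0 < c := hpos r2 hr2
  have hconst : ∀ s, r1 ≤ s → s ≤ r2 → W s = c := fun s h1 h2 => le_antisymm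
    ((hWa (Set.mem_Ioi.2 hr1) (Set.mem_Ioi.2 (hr1.trans_le h1)) h1).trans hcon)
    (hWa (Set.mem_Ioi.2 (hr1.trans_le h1)) (Set.mem_Ioi.2 hr2) h2)
  set q : ℝ := (m * c ^ 2 - l) * c with hq
  set v1 : ℝ := (volume : Measure (E N)).real (Metric.ball (0 : E N) 1) with hv1
  -- the flux through the spheres
  have hA : ∀ s, r1 ≤ s → s < r2 → ∫ x in Metric.closedBall (0 : E N) s, f x = 0 := by
    intro s h1 h2
    have hs0 : 0 < s := hr1.trans_le h1
    have hest : ∀ t, s < t → t ≤ r2 →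
        |∫ x in Metric.closedBall (0 : E N) s, f x| ≤ |q| * (v1 * (t ^ N - s ^ N)) := by
      intro t h3 h4
      have e1 := flux hW f hloc htest hs0 h3.le
      rw [ndb_split hloc hs0 h3, hconst s h1 h2.le, hconst t (h1.trans h3.le) h4, sub_self,
        mul_zero] at e1
      have hHp : 0 < Hk N s t s := ndb_Hk_pos hs0 h3
      have e4 : ∀ᵐ x ∂(volume.restrict (ndb_Ann N s t)), ‖f x * Hk N s t ‖x‖‖ ≤ |q| * Hk N s t s := by
        rw [ae_restrict_iff' (ndb_Ann_open _ _).measurableSet]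
        filter_upwards [hfW] with x a hx
        rw [norm_mul, Real.norm_eq_abs, Real.norm_eq_abs, a,
          hconst _ (h1.trans hx.1.le) (hx.2.le.trans h4),
          abs_of_nonneg (ndb_Hk_nonneg hs0 h3.le _)]
        exact mul_le_mul_of_nonneg_left (ndb_Hk_anti hs0 h3.le hx.1.le) (abs_nonneg _)
      have e5 := norm_setIntegral_le_of_norm_le_const_ae (ndb_vol_fin s t) e4
      have e6 : Hk N s t s * |∫ x in Metric.closedBall (0 : E N) s, f x| =
          ‖∫ x in ndb_Ann N s t, f x * Hk N s t ‖x‖‖ := by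
        rw [Real.norm_eq_abs]
        have a1 : ∫ x in ndb_Ann N s t, f x * Hk N s t ‖x‖ =
            -(Hk N s t s * ∫ x in Metric.closedBall (0 : E N) s, f x) := by linarith
        rw [a1, abs_neg, abs_mul, abs_of_pos hHp]
      have e7 := ndc_vol (N := N) hs0.le h3.le
      have e8 : Hk N s t s * |∫ x in Metric.closedBall (0 : E N) s, f x| ≤
          Hk N s t s * (|q| * (v1 * (t ^ N - s ^ N))) := by
        rw [e6]
        refine e5.trans ?_
        calc |q| * Hk N s t s * (volume : Measure (E N)).real (ndb_Ann N s t) ≤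
              |q| * Hk N s t s * (v1 * (t ^ N - s ^ N)) :=
              mul_le_mul_of_nonneg_left e7 (mul_nonneg (abs_nonneg _) hHp.le)
          _ = _ := by ring
      exact le_of_mul_le_mul_left e8 hHp
    have hlim : Tendsto (fun t : ℝ => |q| * (v1 * (t ^ N - s ^ N))) (𝓝[>] s) (𝓝 0) := by
      have e1 : Continuous (fun t : ℝ => |q| * (v1 * (t ^ N - s ^ N))) := by fun_prop
      have e2 := e1.tendsto s
      simp only [sub_self, mul_zero] at e2
      exact e2.mono_left nhdsWithin_le_nhds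
    have e3 : |∫ x in Metric.closedBall (0 : E N) s, f x| ≤ 0 := by
      refine ge_of_tendsto hlim ?_
      filter_upwards [Ioc_mem_nhdsGT h2] with t ht
      exact hest t ht.1 ht.2
    exact abs_eq_zero.1 (le_antisymm e3 (abs_nonneg _))
  have hstep : ∀ s, r1 < s → s ≤ r2 → ∫ x in Metric.closedBall (0 : E N) s, f x =
      q * (volume : Measure (E N)).real
        (Metric.closedBall (0 : E N) s \ Metric.closedBall (0 : E N) r1) := by
    intro s h1 h2
    have e1 := setIntegral_sdiff (Metric.isClosed_closedBall.measurableSet)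
      (ndb_loc hloc s) (Metric.closedBall_subset_closedBall (x := (0 : E N)) h1.le)
    rw [hA r1 le_rfl hr12, sub_zero] at e1
    rw [← e1]
    have e2 : ∫ x in Metric.closedBall (0 : E N) s \ Metric.closedBall (0 : E N) r1, f x =
        ∫ _x in Metric.closedBall (0 : E N) s \ Metric.closedBall (0 : E N) r1, q := by
      refine setIntegral_congr_ae ((Metric.isClosed_closedBall.measurableSet).diff
        Metric.isClosed_closedBall.measurableSet) ?_
      filter_upwards [hfW] with x a hx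
      rw [Set.mem_sdiff, Metric.mem_closedBall, Metric.mem_closedBall, dist_zero_right] at hx
      rw [a, hconst _ (not_le.1 hx.2).le (hx.1.trans h2)]
    rw [e2, setIntegral_const, smul_eq_mul, mul_comm]
  have hq0 : q = 0 := by
    have e1 := hstep ((r1 + r2) / 2) (by linarith) (by linarith)
    rw [hA _ (by linarith) (by linarith)] at e1
    have e2 : 0 < (volume : Measure (E N)).real
        (Metric.closedBall (0 : E N) ((r1 + r2) / 2) \ Metric.closedBall (0 : E N) r1) := by
      refine (ndc_pos (N := N) hr1.le (by linarith : r1 < (r1 + r2) / 2)).trans_le ?_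
      refine measureReal_mono (fun x hx => ?_)
        ((measure_mono Set.sdiff_subset).trans_lt
          (isCompact_closedBall (0 : E N) ((r1 + r2) / 2)).measure_lt_top).ne
      rw [Set.mem_sdiff, Metric.mem_closedBall, Metric.mem_closedBall, dist_zero_right]
      exact ⟨hx.2.le, not_le.2 hx.1⟩
    rcases mul_eq_zero.1 e1.symm with e | e
    · exact e
    · exact absurd e e2.ne'
  have hml : m * c ^ 2 - l = 0 := by
    rcases mul_eq_zero.1 hq0 with e | e
    · exact e
    · exact absurd e hc0.ne'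
  have hA2 : ∫ x in Metric.closedBall (0 : E N) r2, f x = 0 := by
    rw [hstep r2 hr12 le_rfl, hq0, zero_mul]
  have hcN := cN_pos (N := N)
  have hbig : ∀ r3, r2 < r3 → W r3 = c := by
    intro r3 h3
    refine le_antisymm (hWa (Set.mem_Ioi.2 hr2) (Set.mem_Ioi.2 (hr2.trans h3)) h3.le) ?_
    have e1 := flux hW f hloc htest hr2 h3.le
    rw [ndb_split hloc hr2 h3, hA2, mul_zero, zero_add] at e1
    have e2 : 0 ≤ - ∫ x in ndb_Ann N r2 r3, f x * Hk N r2 r3 ‖x‖ := by
      rw [← integral_neg]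
      refine setIntegral_nonneg_of_ae_restrict ?_
      rw [EventuallyLE, ae_restrict_iff' (ndb_Ann_open _ _).measurableSet]
      filter_upwards [hfW] with x a hx
      have b1 : 0 < ‖x‖ := hr2.trans hx.1
      have b2 : W ‖x‖ ≤ c := hWa (Set.mem_Ioi.2 hr2) (Set.mem_Ioi.2 b1) hx.1.le
      have b3 : 0 ≤ W ‖x‖ := hWn _ b1
      have b4 : W ‖x‖ ^ 2 ≤ c ^ 2 := pow_le_pow_left₀ b3 b2 2
      have b5 : m * W ‖x‖ ^ 2 - l ≤ 0 := by
        have := mul_le_mul_of_nonneg_left b4 hm.le
        linarith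
      have b6 := ndb_Hk_nonneg (N := N) hr2 h3.le ‖x‖
      show (0 : ℝ) ≤ -(f x * Hk N r2 r3 ‖x‖)
      rw [a]
      have b7 : 0 ≤ -(m * W ‖x‖ ^ 2 - l) * W ‖x‖ * Hk N r2 r3 ‖x‖ :=
        mul_nonneg (mul_nonneg (by linarith) b3) b6
      linarith
    rw [← e1] at e2
    have e3 := nonneg_of_mul_nonneg_right e2 hcN
    linarith
  -- contradiction with integrability
  have hsq : Integrable (fun x => fn w x ^ 2) (volume : Measure (E N)) :=
    (fn_memLp w).integrable_sq
  have hset : MeasurableSet {x : E N | r2 < ‖x‖} :=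
    (isOpen_lt continuous_const continuous_norm).measurableSet
  have hon : IntegrableOn (fun _ : E N => c ^ 2) {x : E N | r2 < ‖x‖} := by
    refine (hsq.integrableOn (s := {x : E N | r2 < ‖x‖})).congr_fun_ae ?_
    rw [EventuallyEq, ae_restrict_iff' hset]
    filter_upwards [hW.2.1] with x a hx
    rw [a, hbig _ hx]
  rw [integrableOn_const_iff (by simp)] at hon
  rcases hon with e | e
  · exact absurd (enorm_eq_zero.1 e) (pow_pos hc0 2).ne'
  · rw [ndc_inf] at e
    exact lt_irrefl _ e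

private theorem ndd_ip {x a b : H1 N} {A B : Set (E N)} (hAB : A ⊆ B)
    (ha : fn a =ᵐ[volume] A.indicator (fn x)) (ha' : gr a =ᵐ[volume] A.indicator (gr x))
    (hb : fn b =ᵐ[volume] B.indicator (fn x)) (hb' : gr b =ᵐ[volume] B.indicator (gr x)) (l : ℝ) :
    ip l a b = ip l a a := by
  have e1 : gX a b = gX a a := by
    refine integral_congr_ae ?_
    filter_upwards [ha', hb'] with y h1 h2
    rw [h1, h2]
    by_cases hy : y ∈ A
    · rw [Set.indicator_of_mem hy, Set.indicator_of_mem (hAB hy)]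
    · rw [Set.indicator_of_notMem hy, inner_zero_left, inner_zero_left]
  have e2 : gY a b = gY a a := by
    refine integral_congr_ae ?_
    filter_upwards [ha, hb] with y h1 h2
    rw [h1, h2]
    by_cases hy : y ∈ A
    · rw [Set.indicator_of_mem hy, Set.indicator_of_mem (hAB hy)]
    · rw [Set.indicator_of_notMem hy, zero_mul, zero_mul]
  unfold ip
  rw [e1, e2]

private theorem ndd_Q {x a b : H1 N} {A B : Set (E N)} (hAB : A ⊆ B)
    (ha : fn a =ᵐ[volume] A.indicator (fn x))
    (hb : fn b =ᵐ[volume] B.indicator (fn x)) (w : H1 N) :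
    Q4 w w a b = Q4 w w a a := by
  refine integral_congr_ae ?_
  filter_upwards [ha, hb] with y h1 h2
  rw [h1, h2]
  by_cases hy : y ∈ A
  · rw [Set.indicator_of_mem hy, Set.indicator_of_mem (hAB hy)]
  · rw [Set.indicator_of_notMem hy]
    ring

private theorem ndd_ann [Dim N] {a b : ℝ} (ha : 0 ≤ a) (hab : a < b)
    (h : ∀ᵐ x : E N, ¬ (a < ‖x‖ ∧ ‖x‖ < b)) : False := by
  have hN : N ≠ 0 := by
    rcases (Dim.h (N := N)) with h | h <;> omega
  have : Nonempty (Fin N) := ⟨⟨0, Nat.pos_of_ne_zero hN⟩⟩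
  have : Nontrivial (E N) := by
    infer_instance
  have hopen : IsOpen {x : E N | a < ‖x‖ ∧ ‖x‖ < b} :=
    (isOpen_lt continuous_const continuous_norm).inter (isOpen_lt continuous_norm continuous_const)
  obtain ⟨x, hx⟩ := exists_norm_eq (E N) (c := (a + b) / 2) (by linarith)
  have hne : {x : E N | a < ‖x‖ ∧ ‖x‖ < b}.Nonempty := ⟨x, by
    show a < ‖x‖ ∧ ‖x‖ < b
    rw [hx]
    constructor <;> linarith⟩
  have h1 := hopen.measure_pos (volume : Measure (E N)) hne
  rw [ae_iff] at h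
  simp only [not_not] at h
  exact h1.ne' h

/-- module ndd. A radial kernel element has at most one sign change.
Proof: zeros `z1` in `(s1,s2)` and `z2` in `(s2,s3)` (intermediate value theorem). `x1 = trunc_H` at `z1`, `x12 = trunc_H`
at `z2`, `x2 = x12 - x1`. Both `x1`, `x2` are nonzero with disjoint supports; from the equation of `x` tested with `x1`, `x12`
(`ip l x x1 = ip l x1 x1` since the function and gradient of `x1` are restrictions to the ball, etc.):
`B(x1,x1) = B(x12,x12) = B(x1,x12) = 0` for the form `B(a,b) = ip l a b - 3 m Q4 w w a b`. Choose `(c1,c2) ≠ 0` with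
`y = c1 x1 + c2 x12`, `Q4 w w w y = 0`; `B(y,y) = 0`. By `sec_var` `B ≥ 0` on the hyperplane `{Q4 w w w · = 0}`, so `B(y,h) = 0` for
all `h` in the hyperplane (Cauchy-Schwarz for nonnegative forms); also `B(y,w) = ip l w y - 3 m Q4 w w w y = 0` (`GNo_sol`),
and every `h` is `h' + c w`: `B(y,h) = 0` for all `h`. `y` vanishes outside the ball of radius `z2`: `uniq_cont` gives `y = 0`. But the
profile of `x` is nonzero at `s1` (so `x1 ≠ 0`; on `(z1,z2)` the function `y` is `c2 x`, nonzero at `s2`, so `c2 = 0`, then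
`c1 x1 = 0`, `c1 = 0`). -/
theorem nodal [Dim N] {l m : ℝ} (hl : 0 < l) (hm : 0 < m) {w x : H1 N} (h : GNo l m w) (hw : RD w)
    (hr : Rad x) (hx : ∀ z : H1 N, ip l x z = 3 * m * Q4 w w x z) {F : ℝ → ℝ} (hF : IsProf x F)
    {s1 s2 s3 : ℝ} (h1 : 0 < s1) (h2 : s1 < s2) (h3 : s2 < s3) :
    ¬ (F s1 * F s2 < 0 ∧ F s2 * F s3 < 0) := by
  rintro ⟨hn1, hn2⟩
  -- zeros
  have hivt : ∀ a b : ℝ, 0 < a → a < b → F a * F b < 0 → ∃ z, a < z ∧ z < b ∧ F z = 0 := by
    intro a b ha hab hneg
    have hc : ContinuousOn F (Set.uIcc a b) := by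
      rw [Set.uIcc_of_le hab.le]
      exact hF.1.mono fun r hr => Set.mem_Ioi.2 (ha.trans_le hr.1)
    have h0 : (0 : ℝ) ∈ Set.uIcc (F a) (F b) := by
      rw [Set.mem_uIcc]
      rcases mul_neg_iff.1 hneg with ⟨e1, e2⟩ | ⟨e1, e2⟩
      · exact Or.inr ⟨e2.le, e1.le⟩
      · exact Or.inl ⟨e1.le, e2.le⟩
    obtain ⟨z, hz, hFz⟩ := intermediate_value_uIcc hc h0
    rw [Set.uIcc_of_le hab.le] at hz
    refine ⟨z, lt_of_le_of_ne hz.1 ?_, lt_of_le_of_ne hz.2 ?_, hFz⟩
    · rintro rfl
      rw [hFz, zero_mul] at hneg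
      exact lt_irrefl _ hneg
    · rintro rfl
      rw [hFz, mul_zero] at hneg
      exact lt_irrefl _ hneg
  obtain ⟨z1, hz1a, hz1b, hFz1⟩ := hivt s1 s2 h1 h2 hn1
  obtain ⟨z2, hz2a, hz2b, hFz2⟩ := hivt s2 s3 (h1.trans h2) h3 hn2
  have hz1 : 0 < z1 := h1.trans hz1a
  have hz12 : z1 < z2 := hz1b.trans hz2a
  obtain ⟨x1, hx1, hx1', hr1⟩ := trunc_H hF hz1 hFz1
  obtain ⟨x2, hx2, hx2', hr2⟩ := trunc_H hF (hz1.trans hz12) hFz2
  have hxx : fn x =ᵐ[volume] (Set.univ : Set (E N)).indicator (fn x) := by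
    rw [Set.indicator_univ]
  have hxx' : gr x =ᵐ[volume] (Set.univ : Set (E N)).indicator (gr x) := by
    rw [Set.indicator_univ]
  have hballs : Metric.ball (0 : E N) z1 ⊆ Metric.ball (0 : E N) z2 :=
    Metric.ball_subset_ball hz12.le
  have b11 : ip l x1 x1 = 3 * m * Q4 w w x1 x1 := by
    rw [← ndd_ip (Set.subset_univ _) hx1 hx1' hxx hxx' l,
      ← ndd_Q (Set.subset_univ _) hx1 hxx w, ip_comm, Q4_swap34]
    exact hx x1
  have b22 : ip l x2 x2 = 3 * m * Q4 w w x2 x2 := by
    rw [← ndd_ip (Set.subset_univ _) hx2 hx2' hxx hxx' l,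
      ← ndd_Q (Set.subset_univ _) hx2 hxx w, ip_comm, Q4_swap34]
    exact hx x2
  have b12 : ip l x1 x2 = 3 * m * Q4 w w x1 x2 := by
    rw [ndd_ip hballs hx1 hx1' hx2 hx2' l, ndd_Q hballs hx1 hx2 w]
    exact b11
  -- the combination
  obtain ⟨c1, c2, hc, hQ⟩ : ∃ c1 c2 : ℝ, ¬ (c1 = 0 ∧ c2 = 0) ∧
      c1 * Q4 w w w x1 + c2 * Q4 w w w x2 = 0 := by
    by_cases h0 : Q4 w w w x1 = 0 ∧ Q4 w w w x2 = 0
    · exact ⟨1, 0, fun h => one_ne_zero h.1, by rw [h0.1]; ring⟩
    · exact ⟨Q4 w w w x2, - Q4 w w w x1, fun h => h0 ⟨neg_eq_zero.1 h.2, h.1⟩, by ring⟩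
  set y : H1 N := c1 • x1 + c2 • x2 with hy
  have hQy : Q4 w w w y = 0 := by
    rw [hy, Q4_add4, Q4_smul4, Q4_smul4]
    exact hQ
  have hByy : ip l y y - 3 * m * Q4 w w y y = 0 := by
    rw [hy]
    simp only [ip_add_left, ip_add_right, ip_smul_left, ip_smul_right, Q4_add3, Q4_add4,
      Q4_smul3, Q4_smul4]
    rw [ip_comm l x2 x1, Q4_swap34 w w x2 x1, b11, b22, b12]
    ring
  -- the kernel
  have hker : ∀ g : H1 N, ip l y g = 3 * m * Q4 w w y g := by
    have hperp : ∀ g : H1 N, Q4 w w w g = 0 → ip l y g = 3 * m * Q4 w w y g := by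
      intro g hg
      have hpos : ∀ t : ℝ, 0 ≤ 2 * t * (ip l y g - 3 * m * Q4 w w y g) +
          t ^ 2 * (ip l g g - 3 * m * Q4 w w g g) := by
        intro t
        have e1 : Q4 w w w (y + t • g) = 0 := by
          rw [Q4_add4, Q4_smul4, hQy, hg]
          ring
        have e2 := sec_var hl hm h e1
        simp only [ip_add_left, ip_add_right, ip_smul_left, ip_smul_right, Q4_add3, Q4_add4,
          Q4_smul3, Q4_smul4] at e2
        rw [ip_comm l g y, Q4_swap34 w w g y] at e2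
        nlinarith
      have hle : ∀ B C : ℝ, (∀ t : ℝ, 0 ≤ 2 * t * B + t ^ 2 * C) → B = 0 := by
        intro B C hBC
        by_contra hB
        have hK : 0 < |C| + 1 := by positivity
        have e1 := hBC (-B / (|C| + 1))
        have e2 : 2 * (-B / (|C| + 1)) * B + (-B / (|C| + 1)) ^ 2 * C =
            (B ^ 2 / (|C| + 1)) * (-2 + C / (|C| + 1)) := by
          field_simp
        rw [e2] at e1
        have e3 : C / (|C| + 1) ≤ 1 := by
          rw [div_le_one hK]
          linarith [le_abs_self C]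
        have e4 : 0 < B ^ 2 / (|C| + 1) := by positivity
        nlinarith
      exact sub_eq_zero.1 (hle _ _ hpos)
    intro g
    have hP : 0 < Q4 w w w w := Q4_pos h.1
    set c : ℝ := Q4 w w w g / Q4 w w w w with hcdef
    have e1 : Q4 w w w (g - c • w) = 0 := by
      rw [Q4_sub4, Q4_smul4, hcdef, div_mul_cancel₀ _ hP.ne', sub_self]
    have e2 := hperp _ e1
    rw [ip_sub_right, Q4_sub4, ip_smul_right, Q4_smul4] at e2
    have e3 : ip l y w = 0 := by
      rw [ip_comm, GNo_sol hl hm h, hQy, mul_zero]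
    have e4 : Q4 w w y w = 0 := by
      rw [Q4_swap34, hQy]
    rw [e3, e4] at e2
    linarith
  -- unique continuation
  have hyfn : fn y =ᵐ[volume] fun p => c1 * (Metric.ball (0 : E N) z1).indicator (fn x) p +
      c2 * (Metric.ball (0 : E N) z2).indicator (fn x) p := by
    filter_upwards [fn_add (c1 • x1) (c2 • x2), fn_smul c1 x1, fn_smul c2 x2, hx1, hx2]
      with p a b c d e
    rw [hy, a, b, c, d, e]
  have hy0 : y = 0 := by
    refine uniq_cont (Rad_add (Rad_smul hr1 c1) (Rad_smul hr2 c2)) hw (l := l) (k := 3 * m) hker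
      (hz1.trans hz12) ?_
    filter_upwards [hyfn] with p a hp
    rw [a, Set.indicator_of_notMem, Set.indicator_of_notMem]
    · ring
    · rw [Metric.mem_ball, dist_zero_right]
      exact not_lt.2 hp.le
    · rw [Metric.mem_ball, dist_zero_right]
      exact not_lt.2 (hz12.trans hp).le
  have hyz : ∀ᵐ p : E N, c1 * (Metric.ball (0 : E N) z1).indicator (fn x) p +
      c2 * (Metric.ball (0 : E N) z2).indicator (fn x) p = 0 := by
    filter_upwards [hyfn, fn_zero (N := N)] with p a b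
    rw [← a, hy0, b]
  -- near a point where `F` does not vanish
  have hnear : ∀ s u v : ℝ, 0 ≤ u → u < s → s < v → F s ≠ 0 →
      ∃ a b : ℝ, u ≤ a ∧ a < b ∧ b ≤ v ∧ ∀ r, a < r → r < b → F r ≠ 0 := by
    intro s u v hu hus hsv hFs
    have hc : ContinuousAt F s := hF.1.continuousAt (Ioi_mem_nhds (hu.trans_lt hus))
    have e1 : {r | F r ≠ 0} ∩ Set.Ioo u v ∈ 𝓝 s :=
      inter_mem (hc.eventually_ne hFs) (Ioo_mem_nhds hus hsv)
    obtain ⟨a, b, hab, hsub⟩ := mem_nhds_iff_exists_Ioo_subset.1 e1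
    refine ⟨max a u, min b v, le_max_right _ _, ?_, min_le_right _ _, fun r e2 e3 => ?_⟩
    · exact (max_lt hab.1 hus).trans (lt_min hab.2 hsv)
    · exact (hsub ⟨(le_max_left _ _).trans_lt e2, e3.trans_le (min_le_left _ _)⟩).1
  have hFs2 : F s2 ≠ 0 := fun e => by
    rw [e, mul_zero] at hn1
    exact lt_irrefl _ hn1
  have hFs1 : F s1 ≠ 0 := fun e => by
    rw [e, zero_mul] at hn1
    exact lt_irrefl _ hn1
  have hc2 : c2 = 0 := by
    by_contra hc2
    obtain ⟨a, b, e1, e2, e3, e4⟩ := hnear s2 z1 z2 hz1.le hz1b hz2a hFs2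
    refine ndd_ann (N := N) (hz1.le.trans e1) e2 ?_
    filter_upwards [hyz, hF.2.1] with p d e hp
    rw [Set.indicator_of_notMem, Set.indicator_of_mem, mul_zero, zero_add, e] at d
    · rcases mul_eq_zero.1 d with d | d
      · exact hc2 d
      · exact e4 _ hp.1 hp.2 d
    · rw [Metric.mem_ball, dist_zero_right]
      exact hp.2.trans_le e3
    · rw [Metric.mem_ball, dist_zero_right]
      exact not_lt.2 (e1.trans hp.1.le)
  have hc1 : c1 = 0 := by
    by_contra hc1
    obtain ⟨a, b, e1, e2, e3, e4⟩ := hnear s1 0 z1 le_rfl h1 hz1a hFs1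
    refine ndd_ann (N := N) e1 e2 ?_
    filter_upwards [hyz, hF.2.1] with p d e hp
    rw [Set.indicator_of_mem, hc2, zero_mul, add_zero, e] at d
    · rcases mul_eq_zero.1 d with d | d
      · exact hc1 d
      · exact e4 _ hp.1 hp.2 d
    · rw [Metric.mem_ball, dist_zero_right]
      exact hp.2.trans_le e3
  exact hc ⟨hc1, hc2⟩

/-- module nde. Pure real analysis: a continuous function on `(0,∞)` without double sign change has a sign pattern. -/
theorem sign_pat (F : ℝ → ℝ) (hF : ContinuousOn F (Set.Ioi 0))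
    (h : ∀ s1 s2 s3 : ℝ, 0 < s1 → s1 < s2 → s2 < s3 → ¬ (F s1 * F s2 < 0 ∧ F s2 * F s3 < 0)) :
    (∀ r, 0 < r → 0 ≤ F r) ∨ (∀ r, 0 < r → F r ≤ 0) ∨
      ∃ r0 : ℝ, 0 < r0 ∧ (((∀ r, 0 < r → r < r0 → 0 ≤ F r) ∧ ∀ r, r0 < r → F r ≤ 0) ∨
        ((∀ r, 0 < r → r < r0 → F r ≤ 0) ∧ ∀ r, r0 < r → 0 ≤ F r)) := by
  -- one direction, for `F` positive somewhere before being negative somewhere
  have key : ∀ G : ℝ → ℝ,
      (∀ s1 s2 s3 : ℝ, 0 < s1 → s1 < s2 → s2 < s3 → ¬ (G s1 * G s2 < 0 ∧ G s2 * G s3 < 0)) →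
      ∀ a b : ℝ, 0 < a → a < b → 0 < G a → G b < 0 →
      ∃ r0 : ℝ, 0 < r0 ∧ ((∀ r, 0 < r → r < r0 → 0 ≤ G r) ∧ ∀ r, r0 < r → G r ≤ 0) := by
    intro G hG a b ha hab hGa hGb
    set S : Set ℝ := {r | 0 < r ∧ G r < 0} with hS
    have hne : S.Nonempty := ⟨b, ha.trans hab, hGb⟩
    have hlow : ∀ r ∈ S, a ≤ r := by
      intro r hr
      by_contra hcon
      push Not at hcon
      exact hG r a b hr.1 hcon hab ⟨mul_neg_of_neg_of_pos hr.2 hGa, mul_neg_of_pos_of_neg hGa hGb⟩
    have hbdd : BddBelow S := ⟨a, hlow⟩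
    have hge : a ≤ sInf S := le_csInf hne hlow
    refine ⟨sInf S, ha.trans_le hge, ?_, ?_⟩
    · intro r hr hr2
      by_contra hcon
      push Not at hcon
      exact absurd (csInf_le hbdd (show r ∈ S from ⟨hr, hcon⟩)) (not_le.2 hr2)
    · intro r hr
      by_contra hcon
      push Not at hcon
      obtain ⟨s, hs, hsr⟩ := exists_lt_of_csInf_lt hne hr
      have has : a < s := lt_of_le_of_ne (hlow s hs) (fun h => by
        have := hs.2
        rw [← h] at this
        exact absurd hGa (not_lt.2 this.le))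
      exact hG a s r ha has hsr ⟨mul_neg_of_pos_of_neg hGa hs.2, mul_neg_of_neg_of_pos hs.2 hcon⟩
  by_cases h1 : ∀ r, 0 < r → 0 ≤ F r
  · exact Or.inl h1
  by_cases h2 : ∀ r, 0 < r → F r ≤ 0
  · exact Or.inr (Or.inl h2)
  push Not at h1 h2
  obtain ⟨b, hb, hFb⟩ := h1
  obtain ⟨a, ha, hFa⟩ := h2
  refine Or.inr (Or.inr ?_)
  rcases lt_trichotomy a b with hab | hab | hab
  · obtain ⟨r0, h0, h3, h4⟩ := key F h a b ha hab hFa hFb
    exact ⟨r0, h0, Or.inl ⟨h3, h4⟩⟩
  · rw [hab] at hFa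
    exact absurd hFa (not_lt.2 hFb.le)
  · obtain ⟨r0, h0, h3, h4⟩ := key (fun r => - F r) (fun s1 s2 s3 e1 e2 e3 => by
      have := h s1 s2 s3 e1 e2 e3
      simpa only [neg_mul_neg] using this) b a hb hab (by simpa using hFb) (by simpa using hFa)
    exact ⟨r0, h0, Or.inr ⟨fun r hr hr2 => by simpa using h3 r hr hr2,
      fun r hr => by simpa using h4 r hr⟩⟩

private theorem ndf_zero {x : H1 N} (g : E N → ℝ) (hg : Integrable g (volume : Measure (E N)))
    (h0 : ∫ y, g y = 0) (h1 : ∀ᵐ y : E N, 0 ≤ g y) (h2 : ∀ᵐ y : E N, g y = 0 → fn x y = 0) :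
    x = 0 := by
  have h3 : g =ᵐ[volume] 0 := (integral_eq_zero_iff_of_nonneg_ae h1 hg).1 h0
  refine H1_ext ?_
  filter_upwards [h3, h2, fn_zero (N := N)] with y e1 e2 e3
  rw [e3]
  exact e2 e1

private theorem ndf_ae_ne [Dim N] : ∀ᵐ y : E N, 0 < ‖y‖ := by
  have hN : N ≠ 0 := by
    rcases (Dim.h (N := N)) with h | h <;> omega
  have : Nonempty (Fin N) := ⟨⟨0, Nat.pos_of_ne_zero hN⟩⟩
  have : Nontrivial (E N) := by
    infer_instance
  have h : ∀ᵐ y : E N, y ≠ 0 := by
    rw [ae_iff]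
    simp
  filter_upwards [h] with y hy
  exact norm_pos_iff.2 hy

/-- module ndf. NONDEGENERACY: the radial kernel of the linearisation is trivial.
Proof: `ker_orth`: `∫ w³x = 0`, `∫ w x = 0`. Profiles `F` of `x`, `W` of `w`. `sign_pat` (`nodal`). If `F ≥ 0` (or `≤ 0`) everywhere:
`∫ w³ x = 0` with `w > 0` gives `x = 0`. Else with `c = W r0`: `∫ x w (w² - c²) = 0` and the integrand has one sign
(`W ≥ c` before `r0`, `≤ c` after), so it vanishes a.e.; `W > 0` and `W ≠ c` except at `r0` (`prof_strict`), so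
`x = 0`. -/
theorem nondeg [Dim N] {l m : ℝ} (hl : 0 < l) (hm : 0 < m) {w x : H1 N} (h : GNo l m w) (hw : RD w)
    (hr : Rad x) (hx : ∀ z : H1 N, ip l x z = 3 * m * Q4 w w x z) : x = 0 := by
  obtain ⟨h1, -, h2⟩ := ker_orth hl hm h hx
  obtain ⟨F, hF⟩ := exists_prof hr
  obtain ⟨W, hW⟩ := exists_prof (RD_Rad hw)
  obtain ⟨hWs, hWp⟩ := prof_strict hl hm h hw hW
  have hint := Q4_integrable w w w x
  have hint2 : Integrable (fun y => fn w y * fn x y) (volume : Measure (E N)) :=
    (fn_memLp w).integrable_mul (fn_memLp x)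
  have h1' : ∫ y, fn w y * fn w y * fn w y * fn x y = 0 := h1
  have h2' : ∫ y, fn w y * fn x y = 0 := h2
  rcases sign_pat F hF.1 (fun s1 s2 s3 e1 e2 e3 => nodal hl hm h hw hr hx hF e1 e2 e3) with
    hs | hs | ⟨r0, hr0, hs⟩
  · refine ndf_zero _ hint h1' ?_ ?_
    · filter_upwards [hF.2.1, hW.2.1, ndf_ae_ne (N := N)] with y a b c
      rw [a, b]
      have := hWp _ c
      have := hs _ c
      positivity
    · filter_upwards [hF.2.1, hW.2.1, ndf_ae_ne (N := N)] with y a b c e
      rw [a, b] at e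
      rw [a]
      have := (hWp _ c).ne'
      simpa [this] using e
  · refine ndf_zero (fun y => - (fn w y * fn w y * fn w y * fn x y)) hint.neg ?_ ?_ ?_
    · rw [integral_neg, h1', neg_zero]
    · filter_upwards [hF.2.1, hW.2.1, ndf_ae_ne (N := N)] with y a b c
      rw [a, b]
      have e1 := hWp _ c
      have e2 := hs _ c
      have e3 : 0 ≤ W ‖y‖ * W ‖y‖ * W ‖y‖ * (- F ‖y‖) :=
        mul_nonneg (by positivity) (by linarith)
      linarith
    · filter_upwards [hF.2.1, hW.2.1, ndf_ae_ne (N := N)] with y a b c e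
      rw [a, b] at e
      rw [a]
      have := (hWp _ c).ne'
      simpa [this] using e
  · set c := W r0 with hc
    have hc0 : 0 < c := hWp r0 hr0
    have hint3 : Integrable (fun y => fn w y * fn w y * fn w y * fn x y - c ^ 2 * (fn w y * fn x y))
        (volume : Measure (E N)) := hint.sub (hint2.const_mul _)
    have h3 : ∫ y, (fn w y * fn w y * fn w y * fn x y - c ^ 2 * (fn w y * fn x y)) = 0 := by
      rw [integral_sub hint (hint2.const_mul _), integral_const_mul, h1', h2']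
      ring
    -- the sign of `W² - c²`
    have hlt : ∀ r, 0 < r → r < r0 → 0 < W r ^ 2 - c ^ 2 := by
      intro r e1 e2
      have e3 := hWs (Set.mem_Ioi.2 e1) (Set.mem_Ioi.2 hr0) e2
      rw [← hc] at e3
      nlinarith
    have hgt : ∀ r, r0 < r → W r ^ 2 - c ^ 2 < 0 := by
      intro r e2
      have e3 := hWs (Set.mem_Ioi.2 hr0) (Set.mem_Ioi.2 (hr0.trans e2)) e2
      have e4 := hWp r (hr0.trans e2)
      rw [← hc] at e3
      nlinarith
    have hrw : ∀ r : ℝ, W r * W r * W r * F r - c ^ 2 * (W r * F r) =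
        W r * (F r * (W r ^ 2 - c ^ 2)) := fun r => by ring
    have hz : ∀ r, 0 < r → r ≠ r0 → W r * (F r * (W r ^ 2 - c ^ 2)) = 0 → F r = 0 := by
      intro r e1 e2 e3
      have e4 := (hWp r e1).ne'
      have e5 : W r ^ 2 - c ^ 2 ≠ 0 := by
        rcases lt_or_gt_of_ne e2 with e | e
        · exact (hlt r e1 e).ne'
        · exact (hgt r e).ne
      rcases mul_eq_zero.1 e3 with e | e
      · exact absurd e e4
      · rcases mul_eq_zero.1 e with e | e
        · exact e
        · exact absurd e e5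
    rcases hs with ⟨hs1, hs2⟩ | ⟨hs1, hs2⟩
    · refine ndf_zero _ hint3 h3 ?_ ?_
      · filter_upwards [hF.2.1, hW.2.1, ndf_ae_ne (N := N), ndb_ae_sphere (N := N) r0] with y a b e1 e2
        rw [a, b, hrw]
        have e3 := hWp _ e1
        refine mul_nonneg e3.le ?_
        rcases lt_or_gt_of_ne e2 with e | e
        · exact mul_nonneg (hs1 _ e1 e) (hlt _ e1 e).le
        · exact mul_nonneg_of_nonpos_of_nonpos (hs2 _ e) (hgt _ e).le
      · filter_upwards [hF.2.1, hW.2.1, ndf_ae_ne (N := N), ndb_ae_sphere (N := N) r0]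
          with y a b e1 e2 e3
        rw [a, b, hrw] at e3
        rw [a]
        exact hz _ e1 e2 e3
    · refine ndf_zero (fun y => -(fn w y * fn w y * fn w y * fn x y - c ^ 2 * (fn w y * fn x y)))
        hint3.neg (by rw [integral_neg, h3, neg_zero]) ?_ ?_
      · filter_upwards [hF.2.1, hW.2.1, ndf_ae_ne (N := N), ndb_ae_sphere (N := N) r0] with y a b e1 e2
        rw [a, b, hrw]
        have e3 := hWp _ e1
        rw [← mul_neg]
        refine mul_nonneg e3.le ?_
        rcases lt_or_gt_of_ne e2 with e | e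
        · have := mul_nonneg_of_nonpos_of_nonpos (hs1 _ e1 e) (neg_nonpos.2 (hlt _ e1 e).le)
          linarith
        · have := mul_nonneg (hs2 _ e) (neg_nonneg.2 (hgt _ e).le)
          linarith
      · filter_upwards [hF.2.1, hW.2.1, ndf_ae_ne (N := N), ndb_ae_sphere (N := N) r0]
          with y a b e1 e2 e3
        rw [a, b, hrw, neg_eq_zero] at e3
        rw [a]
        exact hz _ e1 e2 e3

/-- module ndg. Bounded invertibility of the linearisation on radial functions.
Proof: otherwise there are radial `z n` with `‖z n‖ = 1` and `|B(z n, h)| ≤ ε n ‖h‖`, `ε n → 0`. Weak limit `z`, radial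
(`Rad_WC`), `B(z,h) = 0` for all `h` (`WC_ip`, `WC_quart2`), `z = 0` by `nondeg`; `B(z n, z n) → 0` and
`Q4 w w (z n) (z n) → 0` (`WC_quart2`), so `ip l (z n) (z n) → 0`, contradiction. -/
theorem nd_inv [Dim N] {l m : ℝ} (hl : 0 < l) (hm : 0 < m) {w : H1 N} (h : GNo l m w) (hw : RD w) :
    ∃ C : ℝ, 0 < C ∧ ∀ (z : H1 N) (M : ℝ), Rad z → 0 ≤ M →
      (∀ y : H1 N, |ip l z y - 3 * m * Q4 w w z y| ≤ M * ‖y‖) → ‖z‖ ≤ C * M := by
  by_contra hcon
  push Not at hcon
  have h1 : ∀ n : ℕ, ∃ (z : H1 N) (M : ℝ), Rad z ∧ 0 ≤ M ∧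
      (∀ y : H1 N, |ip l z y - 3 * m * Q4 w w z y| ≤ M * ‖y‖) ∧ ((n : ℝ) + 1) * M < ‖z‖ := by
    intro n
    obtain ⟨z, M, e1, e2, e3, e4⟩ := hcon ((n : ℝ) + 1) (by positivity)
    exact ⟨z, M, e1, e2, e3, e4⟩
  choose z M hr hM hb hlt using h1
  have hz : ∀ n, 0 < ‖z n‖ := fun n => lt_of_le_of_lt (by
    have := hM n
    positivity) (hlt n)
  -- normalisation
  set Z : ℕ → H1 N := fun n => (‖z n‖)⁻¹ • z n with hZ
  have hZn : ∀ n, ‖Z n‖ = 1 := fun n => by
    rw [hZ]
    simp only [norm_smul, norm_inv, norm_norm]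
    exact inv_mul_cancel₀ (hz n).ne'
  have hZr : ∀ n, Rad (Z n) := fun n => Rad_smul (hr n) _
  have hZb : ∀ n (y : H1 N), |ip l (Z n) y - 3 * m * Q4 w w (Z n) y| ≤ 1 / ((n : ℝ) + 1) * ‖y‖ := by
    intro n y
    have e1 : ip l (Z n) y - 3 * m * Q4 w w (Z n) y =
        (‖z n‖)⁻¹ * (ip l (z n) y - 3 * m * Q4 w w (z n) y) := by
      rw [hZ]
      simp only [ip_smul_left, Q4_smul3]
      ring
    rw [e1, abs_mul, abs_of_pos (inv_pos.2 (hz n))]
    have e2 : (‖z n‖)⁻¹ * |ip l (z n) y - 3 * m * Q4 w w (z n) y| ≤ (‖z n‖)⁻¹ * (M n * ‖y‖) :=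
      mul_le_mul_of_nonneg_left (hb n y) (inv_nonneg.2 (hz n).le)
    refine e2.trans ?_
    rw [← mul_assoc]
    refine mul_le_mul_of_nonneg_right ?_ (norm_nonneg y)
    have e3 := hlt n
    have e4 : 0 < (n : ℝ) + 1 := by positivity
    rw [inv_mul_eq_div, div_le_div_iff₀ (hz n) e4]
    linarith
  obtain ⟨f, z0, hf, hwc⟩ := exists_WC Z 1 (fun n => (hZn n).le)
  have hz0r : Rad z0 := Rad_WC hwc (fun n => hZr (f n))
  have htend : Tendsto (fun n : ℕ => 1 / (((f n : ℕ) : ℝ) + 1)) atTop (𝓝 0) :=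
    tendsto_one_div_add_atTop_nhds_zero_nat.comp hf.tendsto_atTop
  have hker : ∀ y : H1 N, ip l z0 y = 3 * m * Q4 w w z0 y := by
    intro y
    have e1 := WC_ip hwc l y
    have e2 := (WC_quart2 w w hwc (WC_const y)).const_mul (3 * m)
    have e3 := e1.sub e2
    have e4 : Tendsto (fun n => ip l (Z (f n)) y - 3 * m * Q4 w w (Z (f n)) y) atTop (𝓝 0) := by
      have e5 := htend.mul_const ‖y‖
      rw [zero_mul] at e5
      exact squeeze_zero_norm (fun n => hZb (f n) y) e5
    exact sub_eq_zero.1 (tendsto_nhds_unique e3 e4)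
  have hz0 : z0 = 0 := nondeg hl hm h hw hz0r hker
  have e1 : Tendsto (fun n => Q4 w w (Z (f n)) (Z (f n))) atTop (𝓝 0) := by
    have := WC_quart2 w w hwc hwc
    rw [hz0, Q4_swapp, Q4_zero1] at this
    exact this
  have e2 : Tendsto (fun n => ip l (Z (f n)) (Z (f n))) atTop (𝓝 0) := by
    have e3 : Tendsto (fun n => ip l (Z (f n)) (Z (f n)) - 3 * m * Q4 w w (Z (f n)) (Z (f n)))
        atTop (𝓝 0) := by
      refine squeeze_zero_norm (fun n => ?_) htend
      have := hZb (f n) (Z (f n))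
      rw [hZn, mul_one] at this
      exact this
    have e4 := e3.add (e1.const_mul (3 * m))
    simp only [mul_zero, add_zero] at e4
    refine e4.congr fun n => ?_
    ring
  obtain ⟨C, hC, hCn⟩ := norm_le_ip (N := N) hl
  have e3 : Tendsto (fun _ : ℕ => (1 : ℝ)) atTop (𝓝 0) := by
    have e4 := e2.const_mul C
    rw [mul_zero] at e4
    refine squeeze_zero (fun _ => zero_le_one) (fun n => ?_) e4
    have := hCn (Z (f n))
    rw [hZn] at this
    simpa using this
  exact zero_ne_one (tendsto_nhds_unique e3 tendsto_const_nhds)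

/-- module ndg. Scalar ground states are isolated among the radial solutions of the same equation: for
`z = v - w`, `ip l z y - 3 m Q4 w w z y = m (3 Q4 w z z y + Q4 z z z y)`, so `‖z‖ ≤ C ‖z‖²`. -/
theorem gs_isolated [Dim N] {l m : ℝ} (hl : 0 < l) (hm : 0 < m) {w : H1 N} (h : GNo l m w)
    (hw : RD w) : ∃ d : ℝ, 0 < d ∧ ∀ v : H1 N, Rad v → (∀ y : H1 N, ip l v y = m * Q4 v v v y) →
      ‖v - w‖ < d → v = w := by
  obtain ⟨C, hC, hinv⟩ := nd_inv hl hm h hw
  obtain ⟨B, hB, hQ⟩ := Q4_bound (N := N)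
  set K : ℝ := C * (m * B * (3 * ‖w‖ + 1)) with hK
  have hK0 : 0 < K := by positivity
  refine ⟨min 1 (1 / K), lt_min one_pos (by positivity), fun v hv hsol hd => ?_⟩
  set z : H1 N := v - w with hz
  have hvw : v = w + z := by rw [hz, add_sub_cancel]
  have hz1 : ‖z‖ < 1 := hd.trans_le (min_le_left _ _)
  have hz2 : ‖z‖ < 1 / K := hd.trans_le (min_le_right _ _)
  have e1 : ∀ y : H1 N, ip l z y - 3 * m * Q4 w w z y = m * (3 * Q4 w z z y + Q4 z z z y) := by
    intro y
    have a1 := hsol y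
    have a2 := GNo_sol hl hm h y
    have a3 : ip l z y = ip l v y - ip l w y := by rw [hz, ip_sub_left]
    rw [a3, a1, a2, hvw]
    simp only [Q4_add1, Q4_add2, Q4_add3]
    have b1 : Q4 w z w y = Q4 w w z y := Q4_swap23 w z w y
    have b2 : Q4 z w w y = Q4 w w z y := by rw [Q4_swap12, Q4_swap23]
    have b3 : Q4 z w z y = Q4 w z z y := Q4_swap12 z w z y
    have b4 : Q4 z z w y = Q4 w z z y := by rw [Q4_swap23, Q4_swap12]
    rw [b1, b2, b3, b4]
    ring
  have e2 : ∀ y : H1 N, |ip l z y - 3 * m * Q4 w w z y| ≤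
      (m * B * (3 * ‖w‖ + 1) * ‖z‖ ^ 2) * ‖y‖ := by
    intro y
    rw [e1 y, abs_mul, abs_of_pos hm]
    have a1 := hQ w z z y
    have a2 := hQ z z z y
    have a3 : |3 * Q4 w z z y + Q4 z z z y| ≤ 3 * |Q4 w z z y| + |Q4 z z z y| := by
      refine (abs_add_le _ _).trans ?_
      rw [abs_mul, abs_of_pos (by norm_num : (0 : ℝ) < 3)]
    have hn := norm_nonneg z
    have a4 : B * ‖z‖ * ‖z‖ * ‖z‖ * ‖y‖ ≤ B * 1 * ‖z‖ * ‖z‖ * ‖y‖ := by gcongr
    calc m * |3 * Q4 w z z y + Q4 z z z y| ≤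
          m * (3 * (B * ‖w‖ * ‖z‖ * ‖z‖ * ‖y‖) + B * 1 * ‖z‖ * ‖z‖ * ‖y‖) := by
          refine mul_le_mul_of_nonneg_left ?_ hm.le
          linarith
      _ = _ := by ring
  have e3 := hinv z _ (Rad_sub hv (RD_Rad hw)) (by positivity) e2
  have e4 : ‖z‖ ≤ K * ‖z‖ * ‖z‖ := by
    refine e3.trans (le_of_eq ?_)
    rw [hK]
    ring
  have e5 : ‖z‖ = 0 := by
    by_contra hne
    have hpos : 0 < ‖z‖ := lt_of_le_of_ne (norm_nonneg z) (Ne.symm hne)
    have e6 : K * ‖z‖ < 1 := by
      rw [lt_div_iff₀ hK0] at hz2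
      linarith
    have e7 : K * ‖z‖ * ‖z‖ < 1 * ‖z‖ := mul_lt_mul_of_pos_right e6 hpos
    linarith
  rw [hvw, norm_eq_zero.1 e5, add_zero]

end Sir
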