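import Pool.Agent.Sir.Tau
import Pool.Agent.Sir.ND
/-!
# Step 8 : existence for `0 < β < τ2`
modules: exc, exd, exe, exf, exg, exh, exi
-/

namespace Sir

open MeasureTheory Filter Topology

variable {N : ℕ}

/-- the function `(xa+yb)/2 - (x²p+2xyq+y²r)/4` -/
noncomputable def ff (a b p q r x y : ℝ) : ℝ :=
  (x * a + y * b) / 2 - (x ^ 2 * p + 2 * x * y * q + y ^ 2 * r) / 4

/-- its supremum over `x, y ≥ 0` -/
noncomputable def Phi (a b p q r : ℝ) : ℝ :=
  sSup {t : ℝ | ∃ x y : ℝ, 0 ≤ x ∧ 0 ≤ y ∧ t = ff a b p q r x y}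

private theorem exc_bd {a b p q r : ℝ} (hp : 0 < p) (hr : 0 < r) (hq : 0 ≤ q) {x y : ℝ} (hx : 0 ≤ x)
    (hy : 0 ≤ y) : ff a b p q r x y ≤ a ^ 2 / (4 * p) + b ^ 2 / (4 * r) := by
  have h1 : x * a / 2 - x ^ 2 * p / 4 ≤ a ^ 2 / (4 * p) := by
    rw [le_div_iff₀ (by positivity)]
    nlinarith [sq_nonneg (a - x * p)]
  have h2 : y * b / 2 - y ^ 2 * r / 4 ≤ b ^ 2 / (4 * r) := by
    rw [le_div_iff₀ (by positivity)]
    nlinarith [sq_nonneg (b - y * r)]
  have h3 : 0 ≤ x * y * q := mul_nonneg (mul_nonneg hx hy) hq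
  unfold ff
  linarith

/-- module exc (real algebra): bounded by `a²/(4p) + b²/(4r)` -/
theorem ff_le_Phi {a b p q r : ℝ} (hp : 0 < p) (hr : 0 < r) (hq : 0 ≤ q) {x y : ℝ} (hx : 0 ≤ x)
    (hy : 0 ≤ y) : ff a b p q r x y ≤ Phi a b p q r := by
  refine le_csSup ⟨a ^ 2 / (4 * p) + b ^ 2 / (4 * r), ?_⟩ ⟨x, y, hx, hy, rfl⟩
  rintro t ⟨x, y, hx, hy, rfl⟩
  exact exc_bd hp hr hq hx hy

/-- module exc -/
theorem Phi_le {a b p q r c : ℝ} (h : ∀ x y : ℝ, 0 ≤ x → 0 ≤ y → ff a b p q r x y ≤ c) :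
    Phi a b p q r ≤ c := by
  refine csSup_le ⟨_, 0, 0, le_rfl, le_rfl, rfl⟩ ?_
  rintro t ⟨x, y, hx, hy, rfl⟩
  exact h x y hx hy

/-- module exc -/
theorem Phi_scale {a b p q r s t : ℝ} (hs : 0 < s) (ht : 0 < t) :
    Phi (s * a) (t * b) (s ^ 2 * p) (s * t * q) (t ^ 2 * r) = Phi a b p q r := by
  unfold Phi
  congr 1
  ext v
  constructor
  · rintro ⟨x, y, hx, hy, rfl⟩
    refine ⟨s * x, t * y, by positivity, by positivity, ?_⟩
    unfold ff
    ring
  · rintro ⟨x, y, hx, hy, rfl⟩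
    refine ⟨x / s, y / t, by positivity, by positivity, ?_⟩
    unfold ff
    field_simp

/-- module exc. Interior maximum: concave function (`q² < p r`), the gradient vanishes at
`x = (ar-bq)/(pr-q²)`, `y = (bp-aq)/(pr-q²)`. -/
theorem Phi_int {a b p q r : ℝ} (hp : 0 < p) (hr : 0 < r) (hq : 0 ≤ q) (h : OmP a b p q r) :
    Phi a b p q r = EEn a b p q r := by
  obtain ⟨h1, h2, h3⟩ := h
  have hD : 0 < p * r - q ^ 2 := by linarith
  set x0 : ℝ := (a * r - b * q) / (p * r - q ^ 2) with hx0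
  set y0 : ℝ := (b * p - a * q) / (p * r - q ^ 2) with hy0
  have e1 : x0 * (p * r - q ^ 2) = a * r - b * q := div_mul_cancel₀ _ hD.ne'
  have e2 : y0 * (p * r - q ^ 2) = b * p - a * q := div_mul_cancel₀ _ hD.ne'
  have ea : p * x0 + q * y0 = a := by
    have : (p * x0 + q * y0) * (p * r - q ^ 2) = a * (p * r - q ^ 2) := by
      linear_combination p * e1 + q * e2
    exact mul_right_cancel₀ hD.ne' this
  have eb : q * x0 + r * y0 = b := by
    have : (q * x0 + r * y0) * (p * r - q ^ 2) = b * (p * r - q ^ 2) := by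
      linear_combination q * e1 + r * e2
    exact mul_right_cancel₀ hD.ne' this
  have eE : EEn a b p q r = (x0 * a + y0 * b) / 4 := by
    unfold EEn
    rw [div_eq_iff (by
      have : (4 * (q ^ 2 - p * r)) < 0 := by linarith
      exact this.ne)]
    linear_combination a * e1 + b * e2
  have key : ∀ x y : ℝ, ff a b p q r x y = EEn a b p q r -
      (p * (x - x0) ^ 2 + 2 * q * (x - x0) * (y - y0) + r * (y - y0) ^ 2) / 4 := by
    intro x y
    rw [eE]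
    unfold ff
    rw [← ea, ← eb]
    ring
  have hpos : ∀ u v : ℝ, 0 ≤ p * u ^ 2 + 2 * q * u * v + r * v ^ 2 := by
    intro u v
    have : 0 ≤ p * (p * u ^ 2 + 2 * q * u * v + r * v ^ 2) := by
      have e : p * (p * u ^ 2 + 2 * q * u * v + r * v ^ 2) =
        (p * u + q * v) ^ 2 + (p * r - q ^ 2) * v ^ 2 := by ring
      rw [e]
      positivity
    exact nonneg_of_mul_nonneg_right this hp
  refine le_antisymm (Phi_le fun x y _ _ => ?_) ?_
  · rw [key]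
    linarith [hpos (x - x0) (y - y0)]
  · have h4 : ff a b p q r x0 y0 = EEn a b p q r := by
      rw [key]
      ring
    rw [← h4]
    refine ff_le_Phi hp hr hq ?_ ?_
    · exact div_nonneg (by linarith) hD.le
    · exact div_nonneg (by linarith) hD.le

/-- module exc. Maximum on the `y` axis: `ff ≤ b²/(4r)` : `b²/(4r) - ff = (r y + q x - b)²/(4r) + x (bq - ar)/(2r)
+ x² (pr - q²)/(4r)`. -/
theorem Phi_b {a b p q r : ℝ} (hp : 0 < p) (hr : 0 < r) (hb : 0 ≤ b) (hq : 0 ≤ q)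
    (hD : q ^ 2 ≤ p * r) (h : a * r ≤ b * q) : Phi a b p q r = b ^ 2 / (4 * r) := by
  refine le_antisymm (Phi_le fun x y hx hy => ?_) ?_
  · rw [le_div_iff₀ (by positivity)]
    have e : b ^ 2 - ff a b p q r x y * (4 * r) = (r * y + q * x - b) ^ 2 +
        2 * x * (b * q - a * r) + x ^ 2 * (p * r - q ^ 2) := by
      unfold ff
      ring
    have h1 : 0 ≤ 2 * x * (b * q - a * r) := mul_nonneg (by linarith) (by linarith)
    have h2 : 0 ≤ x ^ 2 * (p * r - q ^ 2) := mul_nonneg (sq_nonneg _) (by linarith)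
    linarith [sq_nonneg (r * y + q * x - b)]
  · have e : ff a b p q r 0 (b / r) = b ^ 2 / (4 * r) := by
      unfold ff
      field_simp
      ring
    rw [← e]
    exact ff_le_Phi hp hr hq le_rfl (by positivity)

/-- module exc -/
theorem Phi_a {a b p q r : ℝ} (hp : 0 < p) (hr : 0 < r) (ha : 0 ≤ a) (hq : 0 ≤ q)
    (hD : q ^ 2 ≤ p * r) (h : b * p ≤ a * q) : Phi a b p q r = a ^ 2 / (4 * p) := by
  refine le_antisymm (Phi_le fun x y hx hy => ?_) ?_
  · rw [le_div_iff₀ (by positivity)]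
    have e : a ^ 2 - ff a b p q r x y * (4 * p) = (p * x + q * y - a) ^ 2 +
        2 * y * (a * q - b * p) + y ^ 2 * (p * r - q ^ 2) := by
      unfold ff
      ring
    have h1 : 0 ≤ 2 * y * (a * q - b * p) := mul_nonneg (by linarith) (by linarith)
    have h2 : 0 ≤ y ^ 2 * (p * r - q ^ 2) := mul_nonneg (sq_nonneg _) (by linarith)
    linarith [sq_nonneg (p * x + q * y - a)]
  · have e : ff a b p q r (a / p) 0 = a ^ 2 / (4 * p) := by
      unfold ff
      field_simp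
      ring
    rw [← e]
    exact ff_le_Phi hp hr hq (by positivity) le_rfl

/-- module exc. Upper bound if `aq ≤ bp`, `q² < pr`: if `ar ≤ bq` it is `Phi_b`; else `Phi_int` and `EE_b` (or `Phi_a` and
`EE_a`, `EE_b` if `aq = bp`). -/
theorem Phi_upper {a b p q r : ℝ} (hp : 0 < p) (hr : 0 < r) (ha : 0 ≤ a) (hb : 0 ≤ b) (hq : 0 ≤ q)
    (hD : q ^ 2 < p * r) (hbp : a * q ≤ b * p) :
    Phi a b p q r ≤ b ^ 2 / (4 * r) + (b * q - a * r) ^ 2 / (4 * r * (p * r - q ^ 2)) := by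
  have hD' : 0 < p * r - q ^ 2 := by linarith
  have hEb : EEn a b p q r = b ^ 2 / (4 * r) +
      (b * q - a * r) ^ 2 / (4 * r * (p * r - q ^ 2)) := by
    have h1 := EE_b (a := a) (b := b) (p := p) (q := q) (r := r) hr.ne' (by
      have : q ^ 2 - p * r < 0 := by linarith
      exact this.ne)
    have h2 : (b * q - a * r) ^ 2 / (4 * r * (q ^ 2 - p * r)) =
        - ((b * q - a * r) ^ 2 / (4 * r * (p * r - q ^ 2))) := by
      have : 4 * r * (q ^ 2 - p * r) = -(4 * r * (p * r - q ^ 2)) := by ring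
      rw [this, div_neg]
    rw [h2] at h1
    linarith
  rcases le_or_gt (a * r) (b * q) with h1 | h1
  · rw [Phi_b hp hr hb hq hD.le h1]
    have : 0 ≤ (b * q - a * r) ^ 2 / (4 * r * (p * r - q ^ 2)) := by positivity
    linarith
  · rcases hbp.lt_or_eq with h2 | h2
    · rw [Phi_int hp hr hq ⟨by linarith, h1, h2⟩, hEb]
    · rw [Phi_a hp hr ha hq hD.le h2.ge, ← hEb]
      have h3 := EE_a (a := a) (b := b) (p := p) (q := q) (r := r) hp.ne' (by
        have : q ^ 2 - p * r < 0 := by linarith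
        exact this.ne)
      rw [h2, sub_self] at h3
      simp at h3
      linarith

/-- `Phi` of a pair -/
noncomputable def Php (l1 l2 m1 m2 be : ℝ) (u v : H1 N) : ℝ :=
  Phi (ip l1 u u) (ip l2 v v) (m1 * Q4 u u u u) (be * Q4 u u v v) (m2 * Q4 v v v v)

private theorem exd_nonneg {a b p q r : ℝ} (hp : 0 < p) (hr : 0 < r) (hq : 0 ≤ q) :
    0 ≤ Phi a b p q r := by
  have h := ff_le_Phi (a := a) (b := b) hp hr hq (le_refl 0) (le_refl 0)
  have : ff a b p q r 0 0 = 0 := by unfold ff; ring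
  rwa [this] at h

private theorem exd_P [Dim N] {m : ℝ} (hm : 0 < m) {u : H1 N} (hu : u ≠ 0) :
    0 < m * Q4 u u u u := mul_pos hm (Q4_pos hu)

private theorem exd_Q {be : ℝ} (hb : 0 ≤ be) (u v : H1 N) : 0 ≤ be * Q4 u u v v :=
  mul_nonneg hb (Q4_nonneg u v)

private theorem exd_norm [Dim N] {l : ℝ} (hl : 0 < l) {u : H1 N} (hu : u ≠ 0) :
    ∃ s : ℝ, 0 < s ∧ ip l (s • u) (s • u) = 1 := by
  have h := ip_pos hl hu
  refine ⟨1 / Real.sqrt (ip l u u), by positivity, ?_⟩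
  rw [ip_smul_left, ip_smul_right]
  have h2 : Real.sqrt (ip l u u) * Real.sqrt (ip l u u) = ip l u u := Real.mul_self_sqrt h.le
  have h3 : Real.sqrt (ip l u u) ≠ 0 := (Real.sqrt_pos.2 h).ne'
  field_simp
  nlinarith

private theorem exd_scale {l1 l2 m1 m2 be : ℝ} (u v : H1 N) {s t : ℝ} (hs : 0 < s) (ht : 0 < t) :
    Php l1 l2 m1 m2 be (s • u) (t • v) = Php l1 l2 m1 m2 be u v := by
  unfold Php
  refine Eq.trans ?_ (Phi_scale (s := s ^ 2) (t := t ^ 2) (by positivity) (by positivity))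
  congr 1
  · rw [ip_smul_left, ip_smul_right]; ring
  · rw [ip_smul_left, ip_smul_right]; ring
  · rw [Q4_smul1, Q4_smul2, Q4_smul3, Q4_smul4]; ring
  · rw [Q4_smul1, Q4_smul2, Q4_smul3, Q4_smul4]; ring
  · rw [Q4_smul1, Q4_smul2, Q4_smul3, Q4_smul4]; ring

/-- module exd. The infimum of `Php` over pairs of nonzero functions is attained by radially nonincreasing functions.
Proof: minimising sequence with `ip l1 u = ip l2 v = 1` (`Phi_scale`); `symm_pair` gives `(U n, V n)` with `a, b ≤ 1`, the same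
`P, R`, larger `Q`, so every `ff(x,y)` and hence `Php` does not increase. `1/(4 p) ≤ Php ≤ c + 1` bounds `p`, `r` below. Weak
limits `U, V` (`exists_WC`, `RD_WC`), `P, Q, R` converge (`RD_comp`, `Q4_tendsto`), so `U, V ≠ 0`, and
`ff(U,V;x,y) ≤ liminf ff(U n,V n;x,y) ≤ c` for all `x, y ≥ 0` (`WC_lsc`; here `l1, l2 > 0`). -/
theorem Php_min [Dim N] {l1 l2 m1 m2 be : ℝ} (h1 : 0 < l1) (h2 : 0 < l2) (hm1 : 0 < m1)
    (hm2 : 0 < m2) (hb : 0 ≤ be) : ∃ U V : H1 N, RD U ∧ RD V ∧ U ≠ 0 ∧ V ≠ 0 ∧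
      ∀ u v : H1 N, u ≠ 0 → v ≠ 0 → Php l1 l2 m1 m2 be U V ≤ Php l1 l2 m1 m2 be u v := by
  -- the infimum
  set S : Set ℝ := {t : ℝ | ∃ u v : H1 N, u ≠ 0 ∧ v ≠ 0 ∧ t = Php l1 l2 m1 m2 be u v} with hS
  have hnn : ∀ u v : H1 N, u ≠ 0 → v ≠ 0 → 0 ≤ Php l1 l2 m1 m2 be u v := fun u v hu hv =>
    exd_nonneg (exd_P hm1 hu) (exd_P hm2 hv) (exd_Q hb u v)
  have hSne : S.Nonempty := by
    obtain ⟨u, hu⟩ := exists_ne (N := N)
    exact ⟨_, u, u, hu, hu, rfl⟩
  have hSb : BddBelow S := ⟨0, by rintro t ⟨u, v, hu, hv, rfl⟩; exact hnn u v hu hv⟩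
  set c : ℝ := sInf S with hc
  have hcle : ∀ u v : H1 N, u ≠ 0 → v ≠ 0 → c ≤ Php l1 l2 m1 m2 be u v := fun u v hu hv =>
    csInf_le hSb ⟨u, v, hu, hv, rfl⟩
  have hc0 : 0 ≤ c := le_csInf hSne (by rintro t ⟨u, v, hu, hv, rfl⟩; exact hnn u v hu hv)
  -- a normalised minimising sequence of radially nonincreasing functions
  have hseq : ∀ n : ℕ, ∃ U V : H1 N, RD U ∧ RD V ∧ ip l1 U U ≤ 1 ∧ ip l2 V V ≤ 1 ∧
      1 / (4 * (c + 1)) ≤ m1 * Q4 U U U U ∧ 1 / (4 * (c + 1)) ≤ m2 * Q4 V V V V ∧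
      ∀ x y : ℝ, 0 ≤ x → 0 ≤ y → ff (ip l1 U U) (ip l2 V V) (m1 * Q4 U U U U)
        (be * Q4 U U V V) (m2 * Q4 V V V V) x y ≤ c + 1 / ((n : ℝ) + 1) := by
    intro n
    have hpos : (0 : ℝ) < 1 / ((n : ℝ) + 1) := by positivity
    have hle1 : (1 : ℝ) / ((n : ℝ) + 1) ≤ 1 := by
      rw [div_le_one (by positivity)]
      have : (0 : ℝ) ≤ n := Nat.cast_nonneg n
      linarith
    obtain ⟨t, ⟨u, v, hu, hv, rfl⟩, ht⟩ := exists_lt_of_csInf_lt hSne
      (show sInf S < c + 1 / ((n : ℝ) + 1) by rw [← hc]; linarith)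
    obtain ⟨s1, hs1, e1⟩ := exd_norm h1 hu
    obtain ⟨s2, hs2, e2⟩ := exd_norm h2 hv
    rw [← exd_scale u v hs1 hs2] at ht
    set u' := s1 • u with hu'
    set v' := s2 • v with hv'
    have hu0 : u' ≠ 0 := by
      intro h0
      rw [h0, ip_zero_left] at e1
      exact zero_ne_one e1
    have hv0 : v' ≠ 0 := by
      intro h0
      rw [h0, ip_zero_left] at e2
      exact zero_ne_one e2
    have hffu : ∀ x y : ℝ, 0 ≤ x → 0 ≤ y → ff (ip l1 u' u') (ip l2 v' v') (m1 * Q4 u' u' u' u')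
        (be * Q4 u' u' v' v') (m2 * Q4 v' v' v' v') x y ≤ c + 1 / ((n : ℝ) + 1) := by
      intro x y hx hy
      exact (ff_le_Phi (exd_P hm1 hu0) (exd_P hm2 hv0) (exd_Q hb u' v') hx hy).trans ht.le
    have hp := exd_P hm1 hu0
    have hr := exd_P hm2 hv0
    obtain ⟨U, V, k1, k2, k3, k4, k5, k6, k7, k8, k9⟩ := symm_pair u' v'
    refine ⟨U, V, k1, k2, ?_, ?_, ?_, ?_, ?_⟩
    · rw [← e1]
      unfold ip
      rw [k5]
      linarith
    · rw [← e2]
      unfold ip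
      rw [k6]
      linarith
    · rw [k7]
      have h3 := hffu (1 / (m1 * Q4 u' u' u' u')) 0 (by positivity) le_rfl
      rw [e1, e2] at h3
      have h4 : ff 1 1 (m1 * Q4 u' u' u' u') (be * Q4 u' u' v' v') (m2 * Q4 v' v' v' v')
          (1 / (m1 * Q4 u' u' u' u')) 0 = 1 / (4 * (m1 * Q4 u' u' u' u')) := by
        unfold ff
        field_simp
        ring
      rw [h4] at h3
      have h5 : 1 / (4 * (m1 * Q4 u' u' u' u')) ≤ c + 1 := by linarith
      rw [div_le_iff₀ (by positivity)] at h5 ⊢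
      linarith
    · rw [k8]
      have h3 := hffu 0 (1 / (m2 * Q4 v' v' v' v')) le_rfl (by positivity)
      rw [e1, e2] at h3
      have h4 : ff 1 1 (m1 * Q4 u' u' u' u') (be * Q4 u' u' v' v') (m2 * Q4 v' v' v' v')
          0 (1 / (m2 * Q4 v' v' v' v')) = 1 / (4 * (m2 * Q4 v' v' v' v')) := by
        unfold ff
        field_simp
        ring
      rw [h4] at h3
      have h5 : 1 / (4 * (m2 * Q4 v' v' v' v')) ≤ c + 1 := by linarith
      rw [div_le_iff₀ (by positivity)] at h5 ⊢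
      linarith
    · intro x y hx hy
      refine le_trans ?_ (hffu x y hx hy)
      rw [k7, k8]
      unfold ff
      have j1 : x * ip l1 U U ≤ x * ip l1 u' u' := by
        refine mul_le_mul_of_nonneg_left ?_ hx
        unfold ip
        rw [k5]
        linarith
      have j2 : y * ip l2 V V ≤ y * ip l2 v' v' := by
        refine mul_le_mul_of_nonneg_left ?_ hy
        unfold ip
        rw [k6]
        linarith
      have j3 : 2 * x * y * (be * Q4 u' u' v' v') ≤ 2 * x * y * (be * Q4 U U V V) :=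
        mul_le_mul_of_nonneg_left (mul_le_mul_of_nonneg_left k9 hb) (by positivity)
      linarith
  choose u v ru rv iu iv pu pv hff using hseq
  obtain ⟨C1, hC1, hn1⟩ := norm_le_ip (N := N) h1
  obtain ⟨C2, hC2, hn2⟩ := norm_le_ip (N := N) h2
  have bu : ∀ n, ‖u n‖ ≤ Real.sqrt C1 := fun n => by
    refine Real.le_sqrt_of_sq_le ((hn1 (u n)).trans ?_)
    exact mul_le_of_le_one_right hC1.le (iu n)
  have bv : ∀ n, ‖v n‖ ≤ Real.sqrt C2 := fun n => by
    refine Real.le_sqrt_of_sq_le ((hn2 (v n)).trans ?_)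
    exact mul_le_of_le_one_right hC2.le (iv n)
  obtain ⟨f1, U, hf1, hU⟩ := exists_WC u _ bu
  obtain ⟨f2, V, hf2, hV⟩ := exists_WC (fun n => v (f1 n)) _ (fun n => bv _)
  have hU' := WC_comp hU hf2
  -- convergence of the values of the forms
  have hIu : ∀ n, ip l1 (u (f1 (f2 n))) (u (f1 (f2 n))) ∈ Set.Icc (0 : ℝ) 1 := fun n =>
    ⟨ip_nonneg h1.le _, iu _⟩
  obtain ⟨al, _, f3, hf3, hal⟩ := isCompact_Icc.tendsto_subseq hIu
  have hIv : ∀ n, ip l2 (v (f1 (f2 (f3 n)))) (v (f1 (f2 (f3 n)))) ∈ Set.Icc (0 : ℝ) 1 := fun n =>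
    ⟨ip_nonneg h2.le _, iv _⟩
  obtain ⟨bt, _, f4, hf4, hbt⟩ := isCompact_Icc.tendsto_subseq hIv
  set k : ℕ → ℕ := fun n => f1 (f2 (f3 (f4 n))) with hk
  have hkm : StrictMono k := hf1.comp (hf2.comp (hf3.comp hf4))
  have wu : WC (fun n => u (k n)) U := WC_comp (WC_comp hU' hf3) hf4
  have wv : WC (fun n => v (k n)) V := WC_comp (WC_comp hV hf3) hf4
  have au : Tendsto (fun n => ip l1 (u (k n)) (u (k n))) atTop (𝓝 al) :=
    hal.comp hf4.tendsto_atTop
  have av : Tendsto (fun n => ip l2 (v (k n)) (v (k n))) atTop (𝓝 bt) := hbt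
  have RU : RD U := RD_WC wu fun n => ru _
  have RV : RD V := RD_WC wv fun n => rv _
  have cu := RD_comp wu fun n => ru _
  have cv := RD_comp wv fun n => rv _
  have tP : Tendsto (fun n => m1 * Q4 (u (k n)) (u (k n)) (u (k n)) (u (k n))) atTop
      (𝓝 (m1 * Q4 U U U U)) := (Q4_tendsto _ _ _ _ _ _ _ _ cu cu cu cu).const_mul _
  have tQ : Tendsto (fun n => be * Q4 (u (k n)) (u (k n)) (v (k n)) (v (k n))) atTop
      (𝓝 (be * Q4 U U V V)) := (Q4_tendsto _ _ _ _ _ _ _ _ cu cu cv cv).const_mul _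
  have tR : Tendsto (fun n => m2 * Q4 (v (k n)) (v (k n)) (v (k n)) (v (k n))) atTop
      (𝓝 (m2 * Q4 V V V V)) := (Q4_tendsto _ _ _ _ _ _ _ _ cv cv cv cv).const_mul _
  have hU0 : U ≠ 0 := by
    have : 1 / (4 * (c + 1)) ≤ m1 * Q4 U U U U :=
      ge_of_tendsto tP (Eventually.of_forall fun n => pu _)
    intro h0
    rw [h0, Q4_zero1, mul_zero] at this
    have h3 : 0 < 1 / (4 * (c + 1)) := by positivity
    linarith
  have hV0 : V ≠ 0 := by
    have : 1 / (4 * (c + 1)) ≤ m2 * Q4 V V V V :=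
      ge_of_tendsto tR (Eventually.of_forall fun n => pv _)
    intro h0
    rw [h0, Q4_zero1, mul_zero] at this
    have h3 : 0 < 1 / (4 * (c + 1)) := by positivity
    linarith
  have lU : ip l1 U U ≤ al := WC_lsc wu h1.le au (Eventually.of_forall fun n => le_rfl)
  have lV : ip l2 V V ≤ bt := WC_lsc wv h2.le av (Eventually.of_forall fun n => le_rfl)
  refine ⟨U, V, RU, RV, hU0, hV0, fun u' v' hu' hv' => ?_⟩
  refine le_trans (Phi_le fun x y hx hy => ?_) (hcle u' v' hu' hv')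
  have hl : Tendsto (fun n => ff (ip l1 (u (k n)) (u (k n))) (ip l2 (v (k n)) (v (k n)))
      (m1 * Q4 (u (k n)) (u (k n)) (u (k n)) (u (k n)))
      (be * Q4 (u (k n)) (u (k n)) (v (k n)) (v (k n)))
      (m2 * Q4 (v (k n)) (v (k n)) (v (k n)) (v (k n))) x y) atTop
      (𝓝 (ff al bt (m1 * Q4 U U U U) (be * Q4 U U V V) (m2 * Q4 V V V V) x y)) := by
    unfold ff
    exact (((au.const_mul x).add (av.const_mul y)).div_const 2).sub
      ((((tP.const_mul _).add (tQ.const_mul _)).add (tR.const_mul _)).div_const 4)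
  have hr : Tendsto (fun n => c + 1 / (((k n : ℕ) : ℝ) + 1)) atTop (𝓝 (c + 0)) :=
    (tendsto_one_div_add_atTop_nhds_zero_nat.comp hkm.tendsto_atTop).const_add c
  rw [add_zero] at hr
  have h3 := le_of_tendsto_of_tendsto' hl hr (fun n => hff (k n) x y hx hy)
  refine le_trans ?_ h3
  unfold ff
  have j1 : x * ip l1 U U ≤ x * al := mul_le_mul_of_nonneg_left lU hx
  have j2 : y * ip l2 V V ≤ y * bt := mul_le_mul_of_nonneg_left lV hy
  linarith

/-- module exe. Interior case: a ground state. Proof: `proj` gives `(√x U, √y V)` in the Nehari type set with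
`En = EEp U V = Php U V`; every `(u,v)` in the Nehari type set has `Dl < 0` (`Dl_neg`), is in `OmPp` (`Neh_Om`), so
`En u v = EEp u v = Php u v ≥ Php U V`. So it is `IsMin`; `IsMin_sol`, `HasGS_iff`. -/
theorem Php_int [Dim N] {l1 l2 m1 m2 be : ℝ} (h1 : 0 < l1) (h2 : 0 < l2) (hm1 : 0 < m1)
    (hm2 : 0 < m2) (hb : 0 ≤ be) (hb2 : be ^ 2 < m1 * m2) {U V : H1 N} (hU : U ≠ 0) (hV : V ≠ 0)
    (h : ∀ u v : H1 N, u ≠ 0 → v ≠ 0 → Php l1 l2 m1 m2 be U V ≤ Php l1 l2 m1 m2 be u v)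
    (hi : OmPp l1 l2 m1 m2 be U V) : HasGS N l1 l2 m1 m2 be := by
  have hPE : ∀ u v : H1 N, u ≠ 0 → v ≠ 0 → OmPp l1 l2 m1 m2 be u v →
      Php l1 l2 m1 m2 be u v = EEp l1 l2 m1 m2 be u v := fun u v hu hv ho =>
    Phi_int (exd_P hm1 hu) (exd_P hm2 hv) (exd_Q hb u v) ho
  obtain ⟨x, y, hx, hy, k1, k2⟩ := proj h1 h2 hm1 hm2 (Or.inr hi)
  rw [HasGS_iff h1 h2]
  have hmin : IsMin l1 l2 m1 m2 be (Real.sqrt x • U) (Real.sqrt y • V) := by
    refine ⟨k1, fun u v huv => ?_⟩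
    obtain ⟨hu, hv, _, _⟩ := id huv
    have hD := Dl_neg hb2 hu hv
    obtain ⟨_, n2, n3⟩ := Neh_Om huv
    rw [k2, ← n3 hD.ne, ← hPE u v hu hv (n2 hD), ← hPE U V hU hV hi]
    exact h u v hu hv
  obtain ⟨hu, hv, _, _⟩ := id k1
  exact ⟨_, _, IsMin_sol h1 h2 hm1 hm2 hmin (Dl_neg hb2 hu hv).ne, hmin⟩

private theorem exf_real {a p : ℝ} (ha : 0 ≤ a) (hp : 0 < p) {B Q R : ℝ → ℝ} {b' q' r' : ℝ}
    (hB : HasDerivAt B b' 0) (hQ : HasDerivAt Q q' 0) (hR : HasDerivAt R r' 0)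
    (hB0 : 0 < B 0) (hR0 : 0 < R 0) (hBn : ∀ t, 0 ≤ B t) (hQn : ∀ t, 0 ≤ Q t)
    (h1 : a * R 0 ≤ B 0 * Q 0) (h2 : Q 0 ^ 2 < p * R 0)
    (hmin : ∀ᶠ t in 𝓝 (0 : ℝ), Phi a (B 0) p (Q 0) (R 0) ≤ Phi a (B t) p (Q t) (R t)) :
    2 * B 0 * b' * R 0 = B 0 ^ 2 * r' := by
  have hb0 : Phi a (B 0) p (Q 0) (R 0) = B 0 ^ 2 / (4 * R 0) :=
    Phi_b hp hR0 hB0.le (hQn 0) h2.le h1
  -- the differentiable function `g`
  have hg : HasDerivAt (fun t => a * R t - B t * Q t) (a * r' - (b' * Q 0 + B 0 * q')) 0 :=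
    (hR.const_mul a).sub (hB.mul hQ)
  obtain ⟨C, hC0, hC⟩ : ∃ C : ℝ, 0 < C ∧ ∀ᶠ t in 𝓝 (0 : ℝ),
      |(a * R t - B t * Q t) - (a * R 0 - B 0 * Q 0)| ≤ C * |t| := by
    obtain ⟨C, hC⟩ := hg.isBigO_sub.bound
    refine ⟨|C| + 1, by positivity, hC.mono fun t ht => ?_⟩
    simp only [sub_zero, Real.norm_eq_abs] at ht
    refine ht.trans ?_
    have : C ≤ |C| + 1 := by linarith [le_abs_self C]
    exact mul_le_mul_of_nonneg_right this (abs_nonneg t)
  set δ : ℝ := (p * R 0 - Q 0 ^ 2) / 2 with hδ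
  have hδ0 : 0 < δ := by rw [hδ]; linarith
  have cB := hB.continuousAt
  have cQ := hQ.continuousAt
  have cR := hR.continuousAt
  have e1 : ∀ᶠ t in 𝓝 (0 : ℝ), R 0 / 2 < R t :=
    cR.tendsto.eventually_const_lt (by linarith)
  have e2 : ∀ᶠ t in 𝓝 (0 : ℝ), R t < 2 * R 0 :=
    cR.tendsto.eventually_lt_const (by linarith)
  have e3 : ∀ᶠ t in 𝓝 (0 : ℝ), δ < p * R t - Q t ^ 2 := by
    have : Tendsto (fun t => p * R t - Q t ^ 2) (𝓝 0) (𝓝 (p * R 0 - Q 0 ^ 2)) :=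
      (cR.tendsto.const_mul p).sub (cQ.tendsto.pow 2)
    exact this.eventually_const_lt (by rw [hδ]; linarith)
  have e4 : ∀ᶠ t in 𝓝 (0 : ℝ), 0 < B t * p - a * Q t := by
    have : Tendsto (fun t => B t * p - a * Q t) (𝓝 0) (𝓝 (B 0 * p - a * Q 0)) :=
      (cB.tendsto.mul_const p).sub (cQ.tendsto.const_mul a)
    refine this.eventually_const_lt ?_
    have h3 : a * Q 0 * R 0 < B 0 * p * R 0 := by
      calc a * Q 0 * R 0 = (a * R 0) * Q 0 := by ring
        _ ≤ (B 0 * Q 0) * Q 0 := mul_le_mul_of_nonneg_right h1 (hQn 0)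
        _ = B 0 * Q 0 ^ 2 := by ring
        _ < B 0 * (p * R 0) := mul_lt_mul_of_pos_left h2 hB0
        _ = _ := by ring
    have := lt_of_mul_lt_mul_right h3 hR0.le
    linarith
  set K : ℝ := C ^ 2 / (4 * (R 0 / 2) * δ) with hK
  have hK0 : 0 < K := by rw [hK]; positivity
  have key : ∀ᶠ t in 𝓝 (0 : ℝ), 0 ≤ B t ^ 2 * R 0 - B 0 ^ 2 * R t + (8 * R 0 ^ 2 * K) * t ^ 2 := by
    filter_upwards [hmin, hC, e1, e2, e3, e4] with t m1 m2 m3 m4 m5 m6
    have hRt : 0 < R t := by linarith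
    have up : Phi a (B t) p (Q t) (R t) ≤ B t ^ 2 / (4 * R t) + K * t ^ 2 := by
      rcases le_or_gt (a * R t) (B t * Q t) with h3 | h3
      · rw [Phi_b hp hRt (hBn t) (hQn t) (by linarith) h3]
        have : 0 ≤ K * t ^ 2 := by positivity
        linarith
      · have h4 := Phi_upper hp hRt ha (hBn t) (hQn t) (by linarith) (by linarith : a * Q t ≤ B t * p)
        refine h4.trans ?_
        have h5 : (B t * Q t - a * R t) ^ 2 ≤ C ^ 2 * t ^ 2 := by
          have h6 : |B t * Q t - a * R t| ≤ C * |t| := by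
            rw [abs_sub_comm, abs_of_pos (by linarith)]
            have := (abs_le.1 m2).2
            linarith
          have := pow_le_pow_left₀ (abs_nonneg _) h6 2
          rw [sq_abs, mul_pow, sq_abs] at this
          exact this
        have h7 : (B t * Q t - a * R t) ^ 2 / (4 * R t * (p * R t - Q t ^ 2)) ≤
            C ^ 2 * t ^ 2 / (4 * (R 0 / 2) * δ) := by
          refine div_le_div₀ (by positivity) h5 (by positivity) ?_
          refine mul_le_mul (by linarith) m5.le hδ0.le (by positivity)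
        have h8 : C ^ 2 * t ^ 2 / (4 * (R 0 / 2) * δ) = K * t ^ 2 := by
          rw [hK]
          ring
        linarith
    have h9 : B 0 ^ 2 / (4 * R 0) ≤ B t ^ 2 / (4 * R t) + K * t ^ 2 := by
      rw [← hb0]
      exact m1.trans up
    have h10 : B 0 ^ 2 / (4 * R 0) * (4 * R 0 * R t) ≤
        (B t ^ 2 / (4 * R t) + K * t ^ 2) * (4 * R 0 * R t) :=
      mul_le_mul_of_nonneg_right h9 (by positivity)
    have h11 : B 0 ^ 2 / (4 * R 0) * (4 * R 0 * R t) = B 0 ^ 2 * R t := by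
      field_simp
    have h12 : (B t ^ 2 / (4 * R t) + K * t ^ 2) * (4 * R 0 * R t) =
        B t ^ 2 * R 0 + 4 * R 0 * K * t ^ 2 * R t := by
      field_simp
    have h13 : 4 * R 0 * K * t ^ 2 * R t ≤ 4 * R 0 * K * t ^ 2 * (2 * R 0) :=
      mul_le_mul_of_nonneg_left m4.le (by positivity)
    rw [h11, h12] at h10
    linarith
  have hG : HasDerivAt (fun t => B t ^ 2 * R 0 - B 0 ^ 2 * R t + (8 * R 0 ^ 2 * K) * t ^ 2)
      ((2 * B 0 * b') * R 0 - B 0 ^ 2 * r' + (8 * R 0 ^ 2 * K) * 0) 0 := by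
    have k1 : HasDerivAt (fun t => B t ^ 2) (2 * B 0 * b') 0 := by
      simpa using hB.fun_pow 2
    have k2 : HasDerivAt (fun t : ℝ => t ^ 2) 0 0 := by
      simpa using hasDerivAt_pow 2 (0 : ℝ)
    exact ((k1.mul_const _).sub (hR.const_mul _)).add (k2.const_mul _)
  have hloc : IsLocalMin (fun t => B t ^ 2 * R 0 - B 0 ^ 2 * R t + (8 * R 0 ^ 2 * K) * t ^ 2) 0 := by
    filter_upwards [key] with t ht
    have : B 0 ^ 2 * R 0 - B 0 ^ 2 * R 0 + (8 * R 0 ^ 2 * K) * 0 ^ 2 = 0 := by ring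
    rw [this]
    exact ht
  have := hloc.hasDerivAt_eq_zero hG
  linarith

/-- module exf. Case maximum on the `v` axis: `V` (scaled to the Nehari manifold) is a solution of the scalar equation.
Proof: for `z` in `H1` and small `t` let `V t = V + t z`, `b_t = ip l2 V_t V_t` etc. Either `a r_t ≤ b_t q_t`, and
`Php U (V t) = b_t²/(4 r_t)` (`Phi_b`), or `a r_t > b_t q_t`, and then (as `a q_t < b_t p` for small `t` : at `t = 0`
`a q ≤ b q²/r < b p`) the pair is in `OmPp` and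
`Php = EEp = b_t²/(4r_t) + (b_t q_t - a r_t)²/(4 r_t |D_t|) ≤ b_t²/(4r_t) + C t²`, because
`0 < a r_t - b_t q_t ≤ C t` (at `t = 0` it is `≤ 0`). So `b²/(4r) = Php U V ≤ b_t²/(4r_t) + C t²` for small `|t|`, hence the derivative
of `b_t²/(4 r_t)` at `0` vanishes: `4 b ip l2 V z r = 4 b² m2 Q4 V V V z`, `r ip l2 V z = b m2 Q4 V V V z`. Put `v = √(b/r) V`. -/
theorem Php_axis [Dim N] {l1 l2 m1 m2 be : ℝ} (h1 : 0 < l1) (h2 : 0 < l2) (hm1 : 0 < m1)
    (hm2 : 0 < m2) (hb : 0 ≤ be) (hb2 : be ^ 2 < m1 * m2) {U V : H1 N} (hU : U ≠ 0) (hV : V ≠ 0)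
    (hVr : RD V)
    (h : ∀ u v : H1 N, u ≠ 0 → v ≠ 0 → Php l1 l2 m1 m2 be U V ≤ Php l1 l2 m1 m2 be u v)
    (ha : ip l1 U U * (m2 * Q4 V V V V) ≤ ip l2 V V * (be * Q4 U U V V)) :
    ∃ v : H1 N, RD v ∧ v ≠ 0 ∧ (∀ z : H1 N, ip l2 v z = m2 * Q4 v v v z) ∧
      Php l1 l2 m1 m2 be U V = ip l2 v v / 4 ∧ ip l1 U U ≤ be * Q4 U U v v := by
  have hb0 : 0 < ip l2 V V := ip_pos h2 hV
  have hr0 : 0 < m2 * Q4 V V V V := exd_P hm2 hV
  have hp0 : 0 < m1 * Q4 U U U U := exd_P hm1 hU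
  have hD := Dl_neg hb2 hU hV
  unfold Dl at hD
  have hder : ∀ z : H1 N, (m2 * Q4 V V V V) * ip l2 V z = ip l2 V V * (m2 * Q4 V V V z) := by
    intro z
    have eB : ∀ t : ℝ, ip l2 (V + t • z) (V + t • z) =
        ip l2 V V + 2 * t * ip l2 V z + t ^ 2 * ip l2 z z := by
      intro t
      rw [ip_add_left, ip_add_right, ip_add_right, ip_smul_left, ip_smul_left, ip_smul_right,
        ip_smul_right, ip_comm l2 z V]
      ring
    have eR := fun t : ℝ => P_expand V z t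
    have eQ : ∀ t : ℝ, Q4 U U (V + t • z) (V + t • z) =
        Q4 U U V V + 2 * t * Q4 V z U U + t ^ 2 * Q4 z z U U := by
      intro t
      rw [Q4_swapp, Q_expand, Q4_swapp V V U U]
    have dB : HasDerivAt (fun t : ℝ => ip l2 (V + t • z) (V + t • z)) (2 * ip l2 V z) 0 := by
      simp only [eB]
      have k1 : HasDerivAt (fun t : ℝ => 2 * t * ip l2 V z) (2 * 1 * ip l2 V z) 0 :=
        ((hasDerivAt_id (0 : ℝ)).const_mul 2).mul_const _
      have k2 : HasDerivAt (fun t : ℝ => t ^ 2 * ip l2 z z) (0 * ip l2 z z) 0 := by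
        have : HasDerivAt (fun t : ℝ => t ^ 2) 0 0 := by simpa using hasDerivAt_pow 2 (0 : ℝ)
        exact this.mul_const _
      have := (k1.const_add (ip l2 V V)).add k2
      exact this.congr_deriv (by ring)
    have dQ : HasDerivAt (fun t : ℝ => be * Q4 U U (V + t • z) (V + t • z))
        (be * (2 * Q4 V z U U)) 0 := by
      simp only [eQ]
      have k1 : HasDerivAt (fun t : ℝ => 2 * t * Q4 V z U U) (2 * 1 * Q4 V z U U) 0 :=
        ((hasDerivAt_id (0 : ℝ)).const_mul 2).mul_const _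
      have k2 : HasDerivAt (fun t : ℝ => t ^ 2 * Q4 z z U U) (0 * Q4 z z U U) 0 := by
        have : HasDerivAt (fun t : ℝ => t ^ 2) 0 0 := by simpa using hasDerivAt_pow 2 (0 : ℝ)
        exact this.mul_const _
      have := ((k1.const_add (Q4 U U V V)).add k2).const_mul be
      exact this.congr_deriv (by ring)
    have dR : HasDerivAt (fun t : ℝ => m2 * Q4 (V + t • z) (V + t • z) (V + t • z) (V + t • z))
        (m2 * (4 * Q4 V V V z)) 0 := by
      simp only [eR]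
      have k1 : HasDerivAt (fun t : ℝ => 4 * t * Q4 V V V z) (4 * 1 * Q4 V V V z) 0 :=
        ((hasDerivAt_id (0 : ℝ)).const_mul 4).mul_const _
      have k2 : HasDerivAt (fun t : ℝ => 6 * t ^ 2 * Q4 V V z z) (6 * 0 * Q4 V V z z) 0 := by
        have : HasDerivAt (fun t : ℝ => t ^ 2) 0 0 := by simpa using hasDerivAt_pow 2 (0 : ℝ)
        exact (this.const_mul 6).mul_const _
      have k3 : HasDerivAt (fun t : ℝ => 4 * t ^ 3 * Q4 V z z z) (4 * 0 * Q4 V z z z) 0 := by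
        have : HasDerivAt (fun t : ℝ => t ^ 3) 0 0 := by simpa using hasDerivAt_pow 3 (0 : ℝ)
        exact (this.const_mul 4).mul_const _
      have k4 : HasDerivAt (fun t : ℝ => t ^ 4 * Q4 z z z z) (0 * Q4 z z z z) 0 := by
        have : HasDerivAt (fun t : ℝ => t ^ 4) 0 0 := by simpa using hasDerivAt_pow 4 (0 : ℝ)
        exact this.mul_const _
      have := (((((k1.const_add (Q4 V V V V)).add k2).add k3).add k4).const_mul m2)
      exact this.congr_deriv (by ring)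
    have e0 : V + (0 : ℝ) • z = V := by simp
    have hne : ∀ᶠ t in 𝓝 (0 : ℝ), V + t • z ≠ 0 := by
      have hc : ContinuousAt (fun t : ℝ => m2 * Q4 (V + t • z) (V + t • z) (V + t • z) (V + t • z)) 0 :=
        dR.continuousAt
      have := hc.tendsto.eventually_const_lt (show (0 : ℝ) < _ by rw [e0]; exact hr0)
      refine this.mono fun t ht h0 => ?_
      rw [h0, Q4_zero1, mul_zero] at ht
      exact lt_irrefl _ ht
    have hfin := exf_real (a := ip l1 U U) (p := m1 * Q4 U U U U) (ip_nonneg h1.le U) hp0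
      dB dQ dR (by rw [e0]; exact hb0) (by rw [e0]; exact hr0) (fun t => ip_nonneg h2.le _)
      (fun t => exd_Q hb U _) (by rw [e0]; exact ha)
      (by
        rw [e0]
        linarith)
      (by
        filter_upwards [hne] with t ht
        rw [e0]
        exact h U (V + t • z) hU ht)
    rw [e0] at hfin
    have h3 : ip l2 V V * ((m2 * Q4 V V V V) * ip l2 V z) =
        ip l2 V V * (ip l2 V V * (m2 * Q4 V V V z)) := by
      linear_combination hfin / 4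
    exact mul_left_cancel₀ hb0.ne' h3
  set k : ℝ := ip l2 V V / (m2 * Q4 V V V V) with hk
  have hk0 : 0 < k := div_pos hb0 hr0
  set s : ℝ := Real.sqrt k with hs
  have hs0 : 0 < s := Real.sqrt_pos.2 hk0
  have hss : s * s = k := Real.mul_self_sqrt hk0.le
  have hkr : k * (m2 * Q4 V V V V) = ip l2 V V := div_mul_cancel₀ _ hr0.ne'
  have hPb : Php l1 l2 m1 m2 be U V = ip l2 V V ^ 2 / (4 * (m2 * Q4 V V V V)) :=
    Phi_b hp0 hr0 hb0.le (exd_Q hb U V) (by linarith) ha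
  refine ⟨s • V, RD_smul hVr hs0.le, smul_ne_zero hs0.ne' hV, fun z => ?_, ?_, ?_⟩
  · rw [ip_smul_left, Q4_smul1, Q4_smul2, Q4_smul3]
    have h3 : ip l2 V z = k * (m2 * Q4 V V V z) := by
      have h4 := hder z
      rw [← hkr] at h4
      have h5 : (m2 * Q4 V V V V) * ip l2 V z = (m2 * Q4 V V V V) * (k * (m2 * Q4 V V V z)) := by
        rw [h4]; ring
      exact mul_left_cancel₀ hr0.ne' h5
    rw [h3, ← hss]
    ring
  · rw [hPb, ip_smul_left, ip_smul_right]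
    have : s * (s * ip l2 V V) = k * ip l2 V V := by rw [← mul_assoc, hss]
    rw [this, hk]
    field_simp
  · rw [Q4_smul3, Q4_smul4]
    have h3 : be * (s * (s * Q4 U U V V)) = k * (be * Q4 U U V V) := by
      rw [← hss]; ring
    rw [h3, hk, div_mul_eq_mul_div, le_div_iff₀ hr0]
    exact ha

/-- module exg. Upper bound: the pair `(w,w)`, `w` a ground state of `(l2,m2)`, `ρ = ip l1 w w/P(w)`, `β < ρ`, `ρ² ≤ μ1μ2`:
it is in `OmPp` and `EEp = K2 (1 + (ρ-β)²/(μ1μ2-β²))`, `K2 = S2(l2)/(4 m2)`. -/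
theorem Php_ww [Dim N] {l1 l2 m1 m2 be : ℝ} (h1 : 0 < l1) (h2 : 0 < l2) (hm1 : 0 < m1)
    (hm2 : 0 < m2) (hb : 0 ≤ be) {w : H1 N} (hw : GNo l2 m2 w)
    (hr : be < ip l1 w w / Q4 w w w w) (hr2 : (ip l1 w w / Q4 w w w w) ^ 2 ≤ m1 * m2) :
    Php l1 l2 m1 m2 be w w = S2 N l2 / (4 * m2) *
      (1 + (ip l1 w w / Q4 w w w w - be) ^ 2 / (m1 * m2 - be ^ 2)) := by
  have hP : 0 < Q4 w w w w := Q4_pos hw.1
  obtain ⟨hv1, hv2⟩ := GNo_vals h2 hm2 hw
  set P : ℝ := Q4 w w w w with hPd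
  set ρ : ℝ := ip l1 w w / P with hρ
  have ha : ip l1 w w = ρ * P := by
    rw [hρ, div_mul_cancel₀ _ hP.ne']
  have hb' : ip l2 w w = m2 * P := hw.2.1
  have hρ0 : 0 < ρ := hb.trans_lt hr
  have hbM : be ^ 2 < m1 * m2 := lt_of_lt_of_le (by nlinarith) hr2
  have hρb : ρ * be < m1 * m2 := lt_of_lt_of_le (by nlinarith) hr2
  have hOm : OmP (ip l1 w w) (ip l2 w w) (m1 * P) (be * P) (m2 * P) := by
    rw [ha, hb']
    have hPP : 0 < P * P := mul_pos hP hP
    refine ⟨?_, ?_, ?_⟩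
    · have e1 := mul_lt_mul_of_pos_right hbM hPP
      nlinarith
    · have e1 := mul_lt_mul_of_pos_right hr (mul_pos hm2 hPP)
      nlinarith
    · have e1 := mul_lt_mul_of_pos_right hρb hPP
      nlinarith
  unfold Php
  rw [← hPd, Phi_int (mul_pos hm1 hP) (mul_pos hm2 hP) (mul_nonneg hb hP.le) hOm, ha, hb']
  have hS : S2 N l2 = m2 ^ 2 * P := by
    rw [hv1]
    field_simp
  rw [hS]
  unfold EEn
  have hD : m1 * m2 - be ^ 2 ≠ 0 := by linarith [sub_pos.mpr hbM]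
  have hD' : (be * P) ^ 2 - m1 * P * (m2 * P) ≠ 0 := by
    have : (be * P) ^ 2 - m1 * P * (m2 * P) = -(P ^ 2 * (m1 * m2 - be ^ 2)) := by ring
    rw [this]
    exact neg_ne_zero.mpr (mul_ne_zero (pow_ne_zero 2 hP.ne') hD)
  have hD4 : 4 * ((be * P) ^ 2 - m1 * P * (m2 * P)) ≠ 0 := mul_ne_zero four_ne_zero hD'
  rw [div_eq_iff hD4]
  have e2 : (be * P) ^ 2 - m1 * P * (m2 * P) = -(P ^ 2 * (m1 * m2 - be ^ 2)) := by ring
  have e3 : (1 + (ρ - be) ^ 2 / (m1 * m2 - be ^ 2)) * (m1 * m2 - be ^ 2) =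
      (m1 * m2 - be ^ 2) + (ρ - be) ^ 2 := by
    rw [add_mul, one_mul, div_mul_cancel₀ _ hD]
  have e4 : m2 ^ 2 * P / (4 * m2) = m2 * P / 4 := by field_simp
  have e5 : m2 * P / 4 * (1 + (ρ - be) ^ 2 / (m1 * m2 - be ^ 2)) *
      (4 * -(P ^ 2 * (m1 * m2 - be ^ 2))) =
      -(m2 * P ^ 3) * ((1 + (ρ - be) ^ 2 / (m1 * m2 - be ^ 2)) * (m1 * m2 - be ^ 2)) := by ring
  rw [e2, e4, e5, e3]
  ring

/-- module exg. The `u` axis is excluded. Proof: if `b p ≤ a q` at the minimiser then `Php U V = a²/(4p)` (`Phi_a`) and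
`b p ≤ a q ≤ a β √(P R)`, `b ≥ √(S2(l2)) √R`: `√(S2(l2)) p ≤ a β √P`, so `a²/p ≥ S2(l2) p/(β² P) = S2(l2) μ1/β²`. With
`Php_ww`: `μ1 μ2/β² ≤ 1 + (ρ-β)²/(μ1μ2-β²)`, so `(μ1μ2-β²)² ≤ β²(ρ-β)²`, `μ1μ2 ≤ βρ < ρ² ≤ μ1μ2`, contradiction. -/
theorem axis_a [Dim N] {l1 l2 m1 m2 be : ℝ} (h1 : 0 < l1) (h2 : 0 < l2) (hm1 : 0 < m1)
    (hm2 : 0 < m2) (hb : 0 < be) {w : H1 N} (hw : GNo l2 m2 w)
    (hr : be < ip l1 w w / Q4 w w w w) (hr2 : (ip l1 w w / Q4 w w w w) ^ 2 ≤ m1 * m2)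
    {U V : H1 N} (hU : U ≠ 0) (hV : V ≠ 0)
    (h : Php l1 l2 m1 m2 be U V ≤ Php l1 l2 m1 m2 be w w) :
    ip l1 U U * (be * Q4 U U V V) < ip l2 V V * (m1 * Q4 U U U U) := by
  by_contra hcon
  push Not at hcon
  have hPU : 0 < Q4 U U U U := Q4_pos hU
  have hRV : 0 < Q4 V V V V := Q4_pos hV
  have hQ0 : 0 ≤ Q4 U U V V := Q4_nonneg U V
  have hcs := Q4_cs U V
  have ha := ip_pos h1 hU
  have hbp := ip_pos h2 hV
  set a : ℝ := ip l1 U U with hav
  set b : ℝ := ip l2 V V with hbv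
  set P : ℝ := Q4 U U U U with hPv
  set R : ℝ := Q4 V V V V with hRv
  set Q : ℝ := Q4 U U V V with hQv
  set ρ : ℝ := ip l1 w w / Q4 w w w w with hρ
  have hρ0 : 0 < ρ := hb.trans hr
  have hbM : be ^ 2 < m1 * m2 := lt_of_lt_of_le (by nlinarith) hr2
  have hD : (be * Q) ^ 2 ≤ m1 * P * (m2 * R) := by
    have e1 : (be * Q) ^ 2 = be ^ 2 * Q ^ 2 := by ring
    rw [e1]
    calc be ^ 2 * Q ^ 2 ≤ be ^ 2 * (P * R) := mul_le_mul_of_nonneg_left hcs (sq_nonneg _)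
      _ ≤ (m1 * m2) * (P * R) := mul_le_mul_of_nonneg_right hbM.le (by positivity)
      _ = _ := by ring
  have hPhi : Php l1 l2 m1 m2 be U V = a ^ 2 / (4 * (m1 * P)) := by
    unfold Php
    exact Phi_a (mul_pos hm1 hPU) (mul_pos hm2 hRV) ha.le (mul_nonneg hb.le hQ0) hD hcon
  rw [hPhi, Php_ww h1 h2 hm1 hm2 hb.le hw hr hr2] at h
  have hS := S2_le h2 V
  have hSp : 0 < S2 N l2 := S2_pos h2
  rw [← hRv, ← hbv] at hS
  set S : ℝ := S2 N l2 with hSv
  -- `S m1² P ≤ a² be²`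
  have e1 : (b * (m1 * P)) ^ 2 ≤ (a * (be * Q)) ^ 2 :=
    pow_le_pow_left₀ (by positivity) hcon 2
  have e2 : S * R * (m1 * P) ^ 2 ≤ a ^ 2 * be ^ 2 * (P * R) := by
    calc S * R * (m1 * P) ^ 2 ≤ b ^ 2 * (m1 * P) ^ 2 :=
          mul_le_mul_of_nonneg_right hS (sq_nonneg _)
      _ = (b * (m1 * P)) ^ 2 := by ring
      _ ≤ (a * (be * Q)) ^ 2 := e1
      _ = a ^ 2 * be ^ 2 * Q ^ 2 := by ring
      _ ≤ a ^ 2 * be ^ 2 * (P * R) := mul_le_mul_of_nonneg_left hcs (by positivity)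
  have e3 : S * m1 ^ 2 * P ≤ a ^ 2 * be ^ 2 := by
    have e4 : (S * m1 ^ 2 * P) * (P * R) ≤ (a ^ 2 * be ^ 2) * (P * R) := by
      calc _ = S * R * (m1 * P) ^ 2 := by ring
        _ ≤ _ := e2
    exact le_of_mul_le_mul_right e4 (mul_pos hPU hRV)
  have e4 : S * m1 / (4 * be ^ 2) ≤ a ^ 2 / (4 * (m1 * P)) := by
    rw [div_le_div_iff₀ (by positivity) (by positivity)]
    nlinarith
  have e5 := e4.trans h
  have hMb : 0 < m1 * m2 - be ^ 2 := sub_pos.mpr hbM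
  have e6 : m1 * m2 / be ^ 2 ≤ 1 + (ρ - be) ^ 2 / (m1 * m2 - be ^ 2) := by
    have e7 : S * m1 / (4 * be ^ 2) = (S / (4 * m2)) * (m1 * m2 / be ^ 2) := by
      field_simp
    rw [e7] at e5
    exact le_of_mul_le_mul_left e5 (by positivity)
  have e7 : m1 * m2 * (m1 * m2 - be ^ 2) ≤ be ^ 2 * (m1 * m2 - be ^ 2) + be ^ 2 * (ρ - be) ^ 2 := by
    rw [div_le_iff₀ (by positivity)] at e6
    have e8 : (1 + (ρ - be) ^ 2 / (m1 * m2 - be ^ 2)) * be ^ 2 * (m1 * m2 - be ^ 2) =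
        be ^ 2 * (m1 * m2 - be ^ 2) + be ^ 2 * (ρ - be) ^ 2 := by
      field_simp
    rw [← e8]
    exact mul_le_mul_of_nonneg_right e6 hMb.le
  have e8 : (m1 * m2 - be ^ 2) ^ 2 ≤ (be * (ρ - be)) ^ 2 := by nlinarith
  have e9 : m1 * m2 - be ^ 2 ≤ be * (ρ - be) :=
    (pow_le_pow_iff_left₀ hMb.le (mul_nonneg hb.le (sub_pos.mpr hr).le) two_ne_zero).mp e8
  nlinarith

/-- module exh. The `v` axis, lower bound: a solution `v` with `ip l1 U U ≤ β Q4 U U v v` has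
`ip l2 v v = m2 P(v) ≥ m2 S2(l1)/β²` (Cauchy-Schwarz and `S2_le` for `U`). -/
theorem axis_b [Dim N] {l1 l2 m2 be : ℝ} (h1 : 0 < l1) (h2 : 0 < l2)
    (hm2 : 0 < m2) (hb : 0 < be) {U v : H1 N} (hU : U ≠ 0)
    (hv : ∀ z : H1 N, ip l2 v z = m2 * Q4 v v v z) (h : ip l1 U U ≤ be * Q4 U U v v) :
    m2 * S2 N l1 / be ^ 2 ≤ ip l2 v v := by
  have hPU : 0 < Q4 U U U U := Q4_pos hU
  have hS := S2_le h1 U
  have hcs := Q4_cs U v
  have ha := ip_pos h1 hU
  have e1 : ip l1 U U ^ 2 ≤ be ^ 2 * (Q4 U U U U * Q4 v v v v) := by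
    calc ip l1 U U ^ 2 ≤ (be * Q4 U U v v) ^ 2 := pow_le_pow_left₀ ha.le h 2
      _ = be ^ 2 * Q4 U U v v ^ 2 := by ring
      _ ≤ _ := mul_le_mul_of_nonneg_left hcs (sq_nonneg _)
  have e2 : S2 N l1 ≤ be ^ 2 * Q4 v v v v := by
    have e3 : S2 N l1 * Q4 U U U U ≤ (be ^ 2 * Q4 v v v v) * Q4 U U U U := by
      calc _ ≤ _ := hS
        _ ≤ _ := e1
        _ = _ := by ring
    exact le_of_mul_le_mul_right e3 hPU
  rw [hv v, div_le_iff₀ (by positivity)]
  nlinarith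

/-- module exh. Real analysis: `ρ n → m2`, `ρ n² ≤ m1 m2`, `0 < β n < ρ n`, `S n → 1` and
`S n m2²/β n² ≤ 1 + (ρ n - β n)²/(m1m2 - β n²)`. Then `β n → m2` and `(ρ n - β n)²/(m1m2 - β n²) → 0`.
Proof: `(ρ-β)²/(m1m2-β²) ≤ (ρ-β)/(ρ+β)`, so `S m2² (ρ+β) ≤ 2 ρ β²`; a limit point `β∞ ≤ m2` satisfies
`m2²(m2+β∞) ≤ 2 m2 β∞²`, i.e. `(2β∞+m2)(β∞-m2) ≥ 0`. -/
theorem be_lim {m1 m2 : ℝ} (hm1 : 0 < m1) (hm2 : 0 < m2) (rho be S : ℕ → ℝ)
    (h1 : Tendsto rho atTop (𝓝 m2)) (h2 : ∀ n, rho n ^ 2 ≤ m1 * m2) (h3 : ∀ n, 0 < be n)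
    (h4 : ∀ n, be n < rho n) (h5 : Tendsto S atTop (𝓝 1))
    (h6 : ∀ n, S n * m2 ^ 2 / be n ^ 2 ≤ 1 + (rho n - be n) ^ 2 / (m1 * m2 - be n ^ 2)) :
    Tendsto be atTop (𝓝 m2) ∧
      Tendsto (fun n => (rho n - be n) ^ 2 / (m1 * m2 - be n ^ 2)) atTop (𝓝 0) := by
  have hM : ∀ n, rho n ^ 2 - be n ^ 2 ≤ m1 * m2 - be n ^ 2 := fun n => by
    have := h2 n
    linarith
  have hpos : ∀ n, 0 < rho n ^ 2 - be n ^ 2 := fun n => by
    have e1 := h3 n
    have e2 := h4 n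
    nlinarith
  have hρ : ∀ n, 0 < rho n := fun n => (h3 n).trans (h4 n)
  have hq : ∀ n, (rho n - be n) ^ 2 / (m1 * m2 - be n ^ 2) ≤
      (rho n - be n) / (rho n + be n) := fun n => by
    have e1 := h3 n
    have e2 := h4 n
    have e3 := hpos n
    have e4 := hM n
    calc (rho n - be n) ^ 2 / (m1 * m2 - be n ^ 2) ≤
        (rho n - be n) ^ 2 / (rho n ^ 2 - be n ^ 2) :=
          div_le_div_of_nonneg_left (sq_nonneg _) e3 e4
      _ = (rho n - be n) / (rho n + be n) := by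
          have e5 : rho n ^ 2 - be n ^ 2 = (rho n - be n) * (rho n + be n) := by ring
          have e6 : rho n - be n ≠ 0 := (sub_pos.mpr e2).ne'
          have e7 : rho n + be n ≠ 0 := by linarith
          rw [e5]
          field_simp
  -- `s (1 + x) ≤ 2 x²` with `x = be / rho`
  have hx : ∀ n, S n * m2 ^ 2 / rho n ^ 2 ≤
      (2 - S n * m2 ^ 2 / rho n ^ 2) * (be n / rho n) := fun n => by
    have e1 := h3 n
    have e2 := h4 n
    have e0 := hρ n
    have e3 := (h6 n).trans (add_le_add le_rfl (hq n))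
    have e4 : 1 + (rho n - be n) / (rho n + be n) = 2 * rho n / (rho n + be n) := by
      have e7 : rho n + be n ≠ 0 := by linarith
      field_simp
      ring
    rw [e4, div_le_div_iff₀ (by positivity) (by linarith)] at e3
    -- e3 : S m2² (rho + be) ≤ 2 rho be²
    have e5 : S n * m2 ^ 2 * (rho n + be n) ≤ 2 * rho n * (be n * rho n) := by
      refine e3.trans (mul_le_mul_of_nonneg_left ?_ (by positivity))
      nlinarith
    have e6 : S n * m2 ^ 2 / rho n ^ 2 ≤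
        (2 - S n * m2 ^ 2 / rho n ^ 2) * (be n / rho n) ↔
        S n * m2 ^ 2 * (rho n + be n) ≤ 2 * rho n * (be n * rho n) := by
      have e7 : (2 - S n * m2 ^ 2 / rho n ^ 2) * (be n / rho n) - S n * m2 ^ 2 / rho n ^ 2 =
          (2 * rho n * (be n * rho n) - S n * m2 ^ 2 * (rho n + be n)) / rho n ^ 3 := by
        field_simp
        ring
      constructor
      · intro h
        have e8 : 0 ≤ (2 * rho n * (be n * rho n) - S n * m2 ^ 2 * (rho n + be n)) /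
            rho n ^ 3 := by rw [← e7]; linarith
        have e9 := mul_nonneg e8 (pow_pos e0 3).le
        rw [div_mul_cancel₀ _ (pow_pos e0 3).ne'] at e9
        linarith
      · intro h
        have e8 : 0 ≤ (2 * rho n * (be n * rho n) - S n * m2 ^ 2 * (rho n + be n)) /
            rho n ^ 3 := div_nonneg (by linarith) (pow_pos e0 3).le
        rw [← e7] at e8
        linarith
    exact e6.mpr e5
  have hs : Tendsto (fun n => S n * m2 ^ 2 / rho n ^ 2) atTop (𝓝 1) := by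
    have e1 := (h5.mul_const (m2 ^ 2)).div (h1.pow 2) (pow_pos hm2 2).ne'
    have e2 : (1 : ℝ) * m2 ^ 2 / m2 ^ 2 = 1 := by field_simp
    rw [e2] at e1
    exact e1
  have hx1 : Tendsto (fun n => be n / rho n) atTop (𝓝 1) := by
    have e1 : Tendsto (fun n => (S n * m2 ^ 2 / rho n ^ 2) / (2 - S n * m2 ^ 2 / rho n ^ 2)) atTop
        (𝓝 (1 / (2 - 1))) := hs.div (hs.const_sub 2) (by norm_num)
    have e2 : (1 : ℝ) / (2 - 1) = 1 := by norm_num
    rw [e2] at e1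
    refine tendsto_of_tendsto_of_tendsto_of_le_of_le' e1 tendsto_const_nhds ?_ ?_
    · filter_upwards [hs.eventually (gt_mem_nhds (show (1 : ℝ) < 2 by norm_num))] with n hn
      rw [div_le_iff₀ (by linarith)]
      calc _ ≤ _ := hx n
        _ = _ := mul_comm _ _
    · exact Eventually.of_forall fun n => by
        rw [div_le_one (hρ n)]
        exact (h4 n).le
  have hbe : Tendsto be atTop (𝓝 m2) := by
    have e1 := hx1.mul h1
    rw [one_mul] at e1
    refine e1.congr fun n => ?_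
    rw [div_mul_cancel₀ _ (hρ n).ne']
  refine ⟨hbe, ?_⟩
  have e1 : Tendsto (fun n => (rho n - be n) / (rho n + be n)) atTop
      (𝓝 ((m2 - m2) / (m2 + m2))) := (h1.sub hbe).div (h1.add hbe) (by linarith)
  rw [sub_self, zero_div] at e1
  refine squeeze_zero (fun n => ?_) hq e1
  exact div_nonneg (sq_nonneg _) ((hpos n).le.trans (hM n))

/-- module exi. Step 8: `l2 = l` fixed, `l1 → l`.
Proof by contradiction with sequences `l1 n → l`, `be n`, no ground state. `w` = a ground state of `(l,m2)`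
(`exists_GNo`), `ρ n = ip (l1 n) w w/P(w) = m2 + (l1 n - l) gY w w/P(w) → m2`; `ρ n² ≤ m1 m2` (if `m2 < m1` for large `n`; if
`m1 = m2` because `l1 < l`). `be n < tau ≤ ρ n` (`tau_le`), `be n² < ρ n² ≤ m1m2`. `Php_min`: `(U,V)`; not interior (`Php_int`), not
on the `u` axis (`axis_a`), so `a r ≤ b q` and `Php_axis`: `v n`. `axis_b`, `Php_ww`, `S2`-continuity (`S2_upper`, `S2_mono`):
`be_lim` with `S n = S2(l1 n)/S2(l)`: `ip l (v n) (v n) → S2(l)/m2`, `Q4 = ip/m2`. `GNo_compact`: a subsequence converges to `w'`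
(`GNo`, `RD`); `gs_isolated`: `v n = w'` for some `n`. Then `tau_le` for `w'` and `U`: `tau Q4 U U w' w' ≤ ip (l1 n) U U ≤
be n Q4 U U w' w'`, `Q4 > 0` (as `ip (l1 n) U U > 0`): `tau ≤ be n`, contradiction. -/
theorem ex_small [Dim N] {l m1 m2 : ℝ} (hl : 0 < l) (hm2 : 0 < m2) (hm : m2 ≤ m1) :
    ∃ d : ℝ, 0 < d ∧ ∀ l1 be : ℝ, 0 < l1 → |l1 - l| < d → (m2 < m1 ∨ l1 < l) → 0 < be →
      be < tau N l m2 l1 → HasGS N l1 l m1 m2 be := by
  classical
  have hm1 : 0 < m1 := hm2.trans_le hm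
  by_contra hcon
  push Not at hcon
  have hseq : ∀ n : ℕ, ∃ l1 be : ℝ, 0 < l1 ∧ |l1 - l| < 1 / ((n : ℝ) + 1) ∧
      (m2 < m1 ∨ l1 < l) ∧ 0 < be ∧ be < tau N l m2 l1 ∧ ¬ HasGS N l1 l m1 m2 be := fun n =>
    hcon (1 / ((n : ℝ) + 1)) (by positivity)
  choose l1 be hl1 hl1d hcase hbe hbet hno using hseq
  have hl1lim : Tendsto l1 atTop (𝓝 l) := by
    rw [tendsto_iff_norm_sub_tendsto_zero]
    refine squeeze_zero (fun n => norm_nonneg _) (fun n => ?_)
      tendsto_one_div_add_atTop_nhds_zero_nat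
    rw [Real.norm_eq_abs]
    exact (hl1d n).le
  obtain ⟨w, hw, hwRD⟩ := exists_GNo (N := N) hl hm2
  have hP : 0 < Q4 w w w w := Q4_pos hw.1
  set ρ : ℕ → ℝ := fun n => ip (l1 n) w w / Q4 w w w w with hρ
  have hρe : ∀ n, ρ n = m2 + (l1 n - l) * (gY w w / Q4 w w w w) := fun n => by
    have e1 : ip (l1 n) w w = ip l w w + (l1 n - l) * gY w w := by
      unfold ip; ring
    simp only [hρ]
    rw [e1, hw.2.1]
    field_simp
  have hρlim : Tendsto ρ atTop (𝓝 m2) := by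
    have e1 : Tendsto (fun n => m2 + (l1 n - l) * (gY w w / Q4 w w w w)) atTop
        (𝓝 (m2 + (l - l) * (gY w w / Q4 w w w w))) :=
      ((hl1lim.sub_const l).mul_const _).const_add m2
    rw [sub_self, zero_mul, add_zero] at e1
    exact e1.congr fun n => (hρe n).symm
  have hbρ : ∀ n, be n < ρ n := fun n => by
    rw [hρe]
    exact (hbet n).trans_le (tau_self hl hm2 (hl1 n) hw)
  have hρ0 : ∀ n, 0 < ρ n := fun n => (hbe n).trans (hbρ n)
  have hev : ∀ᶠ n in atTop, ρ n ^ 2 ≤ m1 * m2 := by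
    rcases hm.lt_or_eq with h1 | h1
    · have e1 : m2 ^ 2 < m1 * m2 := by nlinarith
      exact ((hρlim.pow 2).eventually (gt_mem_nhds e1)).mono fun n hn => hn.le
    · refine Eventually.of_forall fun n => ?_
      have e1 : l1 n < l := (hcase n).resolve_left (by rw [h1]; exact lt_irrefl _)
      have e2 : ρ n ≤ m2 := by
        rw [hρe]
        have e3 : 0 ≤ gY w w / Q4 w w w w := div_nonneg (gY_nonneg w) hP.le
        have e4 : (l1 n - l) * (gY w w / Q4 w w w w) ≤ 0 :=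
          mul_nonpos_of_nonpos_of_nonneg (by linarith) e3
        linarith
      rw [← h1, sq]
      exact mul_le_mul e2 e2 (hρ0 n).le hm2.le
  obtain ⟨n0, hn0⟩ := eventually_atTop.mp hev
  have hρ2 : ∀ n, ρ (n + n0) ^ 2 ≤ m1 * m2 := fun n => hn0 _ (Nat.le_add_left _ _)
  have hbM : ∀ n, be (n + n0) ^ 2 < m1 * m2 := fun n => by
    have e1 := hρ2 n
    have e2 := hbρ (n + n0)
    have e3 := hbe (n + n0)
    nlinarith
  -- minimisers
  have hmin : ∀ n, ∃ U v : H1 N, U ≠ 0 ∧ RD v ∧ v ≠ 0 ∧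
      (∀ z : H1 N, ip l v z = m2 * Q4 v v v z) ∧
      ip (l1 (n + n0)) U U ≤ be (n + n0) * Q4 U U v v ∧
      ip l v v / 4 ≤ S2 N l / (4 * m2) * (1 + (ρ (n + n0) - be (n + n0)) ^ 2 /
        (m1 * m2 - be (n + n0) ^ 2)) := by
    intro n
    obtain ⟨U, V, hUr, hVr, hU, hV, hm⟩ := Php_min (N := N) (hl1 (n + n0)) hl hm1 hm2
      (hbe (n + n0)).le
    have hww := hm w w hw.1 hw.1
    have hax := axis_a (hl1 (n + n0)) hl hm1 hm2 (hbe (n + n0)) hw (hbρ (n + n0)) (hρ2 n) hU hV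
      hww
    have hnot : ¬ OmPp (l1 (n + n0)) l m1 m2 (be (n + n0)) U V := fun hi =>
      hno (n + n0) (Php_int (hl1 (n + n0)) hl hm1 hm2 (hbe (n + n0)).le (hbM n) hU hV hm hi)
    have hD := Dl_neg (hbM n) hU hV
    have hle : ip (l1 (n + n0)) U U * (m2 * Q4 V V V V) ≤
        ip l V V * (be (n + n0) * Q4 U U V V) := by
      by_contra h1
      push Not at h1
      exact hnot ⟨hD, h1, hax⟩
    obtain ⟨v, hv1, hv2, hv3, hv4, hv5⟩ := Php_axis (hl1 (n + n0)) hl hm1 hm2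
      (hbe (n + n0)).le (hbM n) hU hV hVr hm hle
    refine ⟨U, v, hU, hv1, hv2, hv3, hv5, ?_⟩
    rw [← hv4]
    refine hww.trans (le_of_eq ?_)
    exact Php_ww (hl1 (n + n0)) hl hm1 hm2 (hbe (n + n0)).le hw (hbρ (n + n0)) (hρ2 n)
  choose U v hU hvRD hv0 hvs hUv hvle using hmin
  have hSl : 0 < S2 N l := S2_pos hl
  have hl1lim' : Tendsto (fun n => l1 (n + n0)) atTop (𝓝 l) :=
    hl1lim.comp (tendsto_add_atTop_nat n0)
  have hSlim : Tendsto (fun n => S2 N (l1 (n + n0)) / S2 N l) atTop (𝓝 1) := by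
    have e1 : Tendsto (fun n => min 1 ((l1 (n + n0) / l) ^ 2)) atTop (𝓝 (min 1 ((l / l) ^ 2))) :=
      tendsto_const_nhds.min ((hl1lim'.div_const l).pow 2)
    have e2 : Tendsto (fun n => max 1 ((l1 (n + n0) / l) ^ 2)) atTop (𝓝 (max 1 ((l / l) ^ 2))) :=
      tendsto_const_nhds.max ((hl1lim'.div_const l).pow 2)
    rw [div_self hl.ne', one_pow, min_self] at e1
    rw [div_self hl.ne', one_pow, max_self] at e2
    refine tendsto_of_tendsto_of_tendsto_of_le_of_le e1 e2 (fun n => ?_) (fun n => ?_)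
    · simp only
      rw [le_div_iff₀ hSl]
      rcases le_total (l1 (n + n0)) l with h1 | h1
      · have e3 := S2_upper (N := N) (hl1 (n + n0)) h1
        have e4 : (l / l1 (n + n0)) ^ 2 * (l1 (n + n0) / l) ^ 2 = 1 := by
          rw [← mul_pow, div_mul_div_comm, mul_comm l, div_self, one_pow]
          exact mul_ne_zero (hl1 (n + n0)).ne' hl.ne'
        have e5 : 0 ≤ (l1 (n + n0) / l) ^ 2 := sq_nonneg _
        calc min 1 ((l1 (n + n0) / l) ^ 2) * S2 N l ≤ (l1 (n + n0) / l) ^ 2 * S2 N l :=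
              mul_le_mul_of_nonneg_right (min_le_right _ _) hSl.le
          _ ≤ (l1 (n + n0) / l) ^ 2 * ((l / l1 (n + n0)) ^ 2 * S2 N (l1 (n + n0))) :=
              mul_le_mul_of_nonneg_left e3 e5
          _ = ((l / l1 (n + n0)) ^ 2 * (l1 (n + n0) / l) ^ 2) * S2 N (l1 (n + n0)) := by ring
          _ = S2 N (l1 (n + n0)) := by rw [e4, one_mul]
      · have e3 := S2_mono (N := N) hl h1
        calc min 1 ((l1 (n + n0) / l) ^ 2) * S2 N l ≤ 1 * S2 N l :=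
              mul_le_mul_of_nonneg_right (min_le_left _ _) hSl.le
          _ = S2 N l := one_mul _
          _ ≤ _ := e3
    · simp only
      rw [div_le_iff₀ hSl]
      rcases le_total (l1 (n + n0)) l with h1 | h1
      · have e3 := S2_mono (N := N) (hl1 (n + n0)) h1
        calc S2 N (l1 (n + n0)) ≤ 1 * S2 N l := by rw [one_mul]; exact e3
          _ ≤ _ := mul_le_mul_of_nonneg_right (le_max_left _ _) hSl.le
      · have e3 := S2_upper (N := N) hl h1
        exact e3.trans (mul_le_mul_of_nonneg_right (le_max_right _ _) hSl.le)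
  have hlow : ∀ n, S2 N l / m2 ≤ ip l (v n) (v n) := fun n =>
    (SNeh_ge hl hm2 ⟨hv0 n, hvs n (v n)⟩).1
  have hb6 : ∀ n, S2 N (l1 (n + n0)) / S2 N l * m2 ^ 2 / be (n + n0) ^ 2 ≤
      1 + (ρ (n + n0) - be (n + n0)) ^ 2 / (m1 * m2 - be (n + n0) ^ 2) := fun n => by
    have e1 := axis_b (hl1 (n + n0)) hl hm2 (hbe (n + n0)) (hU n) (hvs n) (hUv n)
    have e2 := hvle n
    have e3 : m2 * S2 N (l1 (n + n0)) / be (n + n0) ^ 2 ≤ S2 N l / m2 *
        (1 + (ρ (n + n0) - be (n + n0)) ^ 2 / (m1 * m2 - be (n + n0) ^ 2)) := by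
      have e4 : S2 N l / (4 * m2) * (1 + (ρ (n + n0) - be (n + n0)) ^ 2 /
          (m1 * m2 - be (n + n0) ^ 2)) = (S2 N l / m2 * (1 + (ρ (n + n0) - be (n + n0)) ^ 2 /
          (m1 * m2 - be (n + n0) ^ 2))) / 4 := by
        field_simp
      rw [e4] at e2
      linarith
    have hb0 := hbe (n + n0)
    have e5 : m2 * S2 N (l1 (n + n0)) / be (n + n0) ^ 2 =
        S2 N l / m2 * (S2 N (l1 (n + n0)) / S2 N l * m2 ^ 2 / be (n + n0) ^ 2) := by
      field_simp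
    rw [e5] at e3
    exact le_of_mul_le_mul_left e3 (by positivity)
  obtain ⟨hbelim, hepslim⟩ := be_lim hm1 hm2 (fun n => ρ (n + n0)) (fun n => be (n + n0))
    (fun n => S2 N (l1 (n + n0)) / S2 N l) (hρlim.comp (tendsto_add_atTop_nat n0)) hρ2
    (fun n => hbe _) (fun n => hbρ _) hSlim hb6
  have hiplim : Tendsto (fun n => ip l (v n) (v n)) atTop (𝓝 (S2 N l / m2)) := by
    have e1 : Tendsto (fun n => S2 N l / m2 * (1 + (ρ (n + n0) - be (n + n0)) ^ 2 /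
        (m1 * m2 - be (n + n0) ^ 2))) atTop (𝓝 (S2 N l / m2 * (1 + 0))) :=
      (hepslim.const_add 1).const_mul _
    rw [add_zero, mul_one] at e1
    refine tendsto_of_tendsto_of_tendsto_of_le_of_le tendsto_const_nhds e1 hlow fun n => ?_
    have e2 := hvle n
    have e4 : S2 N l / (4 * m2) * (1 + (ρ (n + n0) - be (n + n0)) ^ 2 /
        (m1 * m2 - be (n + n0) ^ 2)) = (S2 N l / m2 * (1 + (ρ (n + n0) - be (n + n0)) ^ 2 /
        (m1 * m2 - be (n + n0) ^ 2))) / 4 := by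
      field_simp
    rw [e4] at e2
    simp only
    linarith
  have hQlim : Tendsto (fun n => Q4 (v n) (v n) (v n) (v n)) atTop (𝓝 (S2 N l / m2 ^ 2)) := by
    have e1 := hiplim.div_const m2
    have e2 : S2 N l / m2 / m2 = S2 N l / m2 ^ 2 := by rw [div_div, sq]
    rw [e2] at e1
    refine e1.congr fun n => ?_
    rw [hvs n (v n), mul_div_assoc, mul_comm, div_mul_cancel₀ _ hm2.ne']
  obtain ⟨f, w', hf, hw', hw'RD, hconv⟩ := GNo_compact hl hm2 v hvRD hiplim hQlim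
  obtain ⟨d', hd', hiso⟩ := gs_isolated hl hm2 hw' hw'RD
  have hnear : ∀ᶠ n in atTop, ‖v (f n) - w'‖ < d' := by
    have e1 := tendsto_iff_norm_sub_tendsto_zero.mp hconv
    exact e1.eventually (gt_mem_nhds hd')
  obtain ⟨n, hn⟩ := hnear.exists
  have hveq : v (f n) = w' := hiso (v (f n)) (RD_Rad (hvRD (f n))) (hvs (f n)) hn
  have e1 := tau_le hl hm2 (hl1 (f n + n0)) hw' (U (f n))
  have e2 := hUv (f n)
  rw [hveq] at e2
  have e3 : Q4 w' w' (U (f n)) (U (f n)) = Q4 (U (f n)) (U (f n)) w' w' := Q4_swapp _ _ _ _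
  rw [e3] at e1
  have e4 : 0 < ip (l1 (f n + n0)) (U (f n)) (U (f n)) := ip_pos (hl1 _) (hU _)
  have e5 : 0 < Q4 (U (f n)) (U (f n)) w' w' := by
    by_contra h1
    push Not at h1
    have e6 := mul_nonpos_of_nonneg_of_nonpos (hbe (f n + n0)).le h1
    linarith
  have e6 : tau N l m2 (l1 (f n + n0)) ≤ be (f n + n0) :=
    le_of_mul_le_mul_right (e1.trans e2) e5
  have e7 := hbet (f n + n0)
  linarith

end Sir
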