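import Pool.Agent.Sir.Non
/-!
# Pohozaev ratio; the zero discriminant case without smallness; amplitude scaling
modules: pz, dz, am
-/

namespace Sir

open MeasureTheory Filter Topology

variable {N : ℕ}

private theorem pz_pow [Dim N] {k : ℝ} (hk : |k| ≤ 1 / 2) :
    1 + (4 - (N : ℝ)) / 2 * k - k ^ 2 ≤ Real.sqrt (1 + k) ^ (4 - N) := by
  have hk' := abs_le.1 hk
  rcases (inferInstance : Dim N).h with h | h
  · subst h
    rw [show 4 - 2 = 2 by norm_num, Real.sq_sqrt (by linarith)]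
    push_cast
    nlinarith [sq_nonneg k]
  · subst h
    rw [show 4 - 3 = 1 by norm_num, pow_one]
    push_cast
    apply Real.le_sqrt_of_sq_le
    nlinarith [sq_nonneg k, sq_nonneg (k ^ 2), mul_nonneg (sq_nonneg k)
      (by nlinarith : (0 : ℝ) ≤ 7 / 4 + k - k ^ 2)]

/-- module pz. Pohozaev: all scalar ground states have the same ratio (Step 3 of `ker_orth`: `S2_le` at `w` and `l + k` for both
signs of small `k`, `S2_scale`). -/
theorem pohozaev [Dim N] {l m : ℝ} (hl : 0 < l) (hm : 0 < m) {w : H1 N} (h : GNo l m w) :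
    gY w w / Q4 w w w w = m * (4 - (N : ℝ)) / (4 * l) := by
  obtain ⟨k1, k2⟩ := GNo_vals hl hm h
  have hP := Q4_pos h.1
  have hS : S2 N l = m ^ 2 * Q4 w w w w := by
    rw [k1]
    field_simp
  have hw := h.2.1
  have hmain : ∀ k : ℝ, |k| ≤ 1 / 2 → m ^ 2 * Q4 w w w w * (1 + (4 - (N : ℝ)) / 2 * k - k ^ 2) *
      Q4 w w w w ≤ (m * Q4 w w w w + l * k * gY w w) ^ 2 := by
    intro k hk
    have hk' := abs_le.1 hk
    have h1k : 0 < 1 + k := by linarith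
    have hs : 0 < Real.sqrt (1 + k) := Real.sqrt_pos.2 h1k
    have hs2 : Real.sqrt (1 + k) ^ 2 = 1 + k := Real.sq_sqrt h1k.le
    have hl2 : 0 < Real.sqrt (1 + k) ^ 2 * l := by positivity
    have h1 := S2_le hl2 w
    rw [S2_scale hl hs, hs2, hS] at h1
    have e1 : ip ((1 + k) * l) w w = ip l w w + l * k * gY w w := by
      unfold ip
      ring
    rw [e1, hw] at h1
    have hpw := pz_pow (N := N) hk
    have hSn : 0 ≤ m ^ 2 * Q4 w w w w := mul_nonneg (sq_nonneg m) (Q4_nonneg w w)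
    refine le_trans ?_ h1
    refine mul_le_mul_of_nonneg_right ?_ hP.le
    rw [mul_comm (Real.sqrt (1 + k) ^ (4 - N))]
    exact mul_le_mul_of_nonneg_left hpw hSn
  obtain ⟨P, hPd⟩ : ∃ P, P = Q4 w w w w := ⟨_, rfl⟩
  obtain ⟨Y0, hY0⟩ : ∃ Y0, Y0 = gY w w := ⟨_, rfl⟩
  obtain ⟨e, he⟩ : ∃ e : ℝ, e = (4 - (N : ℝ)) / 2 := ⟨_, rfl⟩
  simp only [← hPd, ← hY0, ← he] at hmain hP ⊢
  have hPoh : 2 * l * Y0 = m * P * e := by
    have h1 : Tendsto (fun k : ℝ => (2 * m * P * (l * Y0) - m ^ 2 * P ^ 2 * e) +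
        k * (l ^ 2 * Y0 ^ 2 + m ^ 2 * P ^ 2)) (𝓝 0) (𝓝 ((2 * m * P * (l * Y0) - m ^ 2 * P ^ 2 * e) +
        0 * (l ^ 2 * Y0 ^ 2 + m ^ 2 * P ^ 2))) :=
      (by fun_prop : Continuous fun k : ℝ => (2 * m * P * (l * Y0) - m ^ 2 * P ^ 2 * e) +
        k * (l ^ 2 * Y0 ^ 2 + m ^ 2 * P ^ 2)).tendsto 0
    have h2 : ∀ k : ℝ, |k| ≤ 1 / 2 → 0 ≤ k * ((2 * m * P * (l * Y0) - m ^ 2 * P ^ 2 * e) +
        k * (l ^ 2 * Y0 ^ 2 + m ^ 2 * P ^ 2)) := by
      intro k hk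
      have h3 := hmain k hk
      have e3 : (m * P + l * k * Y0) ^ 2 - m ^ 2 * P * (1 + e * k - k ^ 2) * P =
          k * ((2 * m * P * (l * Y0) - m ^ 2 * P ^ 2 * e) + k * (l ^ 2 * Y0 ^ 2 + m ^ 2 * P ^ 2)) := by
        ring
      rw [← e3]
      linarith
    have hsm : ∀ᶠ k : ℝ in 𝓝 0, |k| ≤ 1 / 2 := by
      have := Metric.closedBall_mem_nhds (0 : ℝ) (by norm_num : (0 : ℝ) < 1 / 2)
      filter_upwards [this] with k hk
      simpa using hk
    have hge : 0 ≤ (2 * m * P * (l * Y0) - m ^ 2 * P ^ 2 * e) + 0 * (l ^ 2 * Y0 ^ 2 + m ^ 2 * P ^ 2) := by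
      refine ge_of_tendsto (h1.mono_left nhdsWithin_le_nhds : Tendsto _ (𝓝[>] (0 : ℝ)) _) ?_
      filter_upwards [self_mem_nhdsWithin, nhdsWithin_le_nhds hsm] with k hk0 hk
      exact nonneg_of_mul_nonneg_right (h2 k hk) hk0
    have hle : (2 * m * P * (l * Y0) - m ^ 2 * P ^ 2 * e) + 0 * (l ^ 2 * Y0 ^ 2 + m ^ 2 * P ^ 2) ≤ 0 := by
      refine le_of_tendsto (h1.mono_left nhdsWithin_le_nhds : Tendsto _ (𝓝[<] (0 : ℝ)) _) ?_
      filter_upwards [self_mem_nhdsWithin, nhdsWithin_le_nhds hsm] with k hk0 hk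
      have hk0' : k < 0 := hk0
      have h4 := h2 k hk
      by_contra hcon
      push Not at hcon
      nlinarith [mul_pos (neg_pos.2 hk0') hcon]
    have h5 : m * P * (2 * l * Y0 - m * P * e) = 0 := by nlinarith
    rcases mul_eq_zero.1 h5 with h6 | h6
    · exact absurd h6 (by positivity)
    · linarith
  rw [div_eq_div_iff hP.ne' (by positivity), ← sub_eq_zero]
  have e4 : Y0 * (4 * l) - m * (4 - (N : ℝ)) * P = 2 * (2 * l * Y0 - m * P * e) := by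
    rw [he]; ring
  rw [e4, hPoh, sub_self, mul_zero]

/-- the quotient `ip l1 w w / P(w)` for ground states of `(l2,m2)` -/
noncomputable def rho0 (N : ℕ) (l1 l2 m2 : ℝ) : ℝ := m2 * (1 + (l1 / l2 - 1) * ((4 - (N : ℝ)) / 4))

/-- module pz -/
theorem rho0_eq [Dim N] {l1 l2 m2 : ℝ} (h2 : 0 < l2) (hm2 : 0 < m2) {w : H1 N}
    (h : GNo l2 m2 w) : ip l1 w w / Q4 w w w w = rho0 N l1 l2 m2 := by
  have h3 := pohozaev h2 hm2 h
  have h4 := Q4_pos h.1
  have h5 : ip l1 w w = ip l2 w w + (l1 - l2) * gY w w := by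
    unfold ip
    ring
  rw [h5, h.2.1, add_div, mul_div_assoc, mul_div_assoc, div_self h4.ne', mul_one, h3, rho0]
  field_simp

private theorem dz_sq {u v : H1 N} {k : ℝ} (hk : 0 ≤ k)
    (h : ∀ᵐ x : E N, fn v x ^ 2 = k * fn u x ^ 2) (l : ℝ) : ip l v v = k * ip l u u := by
  obtain ⟨U, U1, U2, U3⟩ := abs_H' u
  obtain ⟨V, V1, V2, V3⟩ := abs_H' v
  have hV : V = Real.sqrt k • U := by
    refine H1_ext ?_
    filter_upwards [V1, U1, h, fn_smul (Real.sqrt k) U] with x a b c d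
    rw [a, d, b, ← Real.sqrt_sq_eq_abs, ← Real.sqrt_sq_eq_abs, c, Real.sqrt_mul hk]
  have e1 : ip l v v = ip l V V := by unfold ip; rw [V2, V3]
  have e2 : ip l u u = ip l U U := by unfold ip; rw [U2, U3]
  rw [e1, e2, hV, ip_smul_left, ip_smul_right, ← mul_assoc, Real.mul_self_sqrt hk]

private theorem dz_ip (l : ℝ) (u v : H1 N) (t : ℝ) : ip l (u + t • v) (u + t • v) =
    ip l u u + 2 * t * ip l u v + t ^ 2 * ip l v v := by
  rw [ip_add_left, ip_add_right, ip_add_right, ip_smul_left, ip_smul_left, ip_smul_right,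
    ip_smul_right, ip_comm l v u]
  ring

private theorem dz_pos {c : ℝ} (hc : 0 < c) {F : ℝ → ℝ} (hF : ContinuousAt F 0) :
    ∀ᶠ t in 𝓝[>] (0 : ℝ), 0 < t * (c + t * F t) := by
  have h1 : ContinuousAt (fun t => c + t * F t) 0 :=
    continuousAt_const.add (continuousAt_id.mul hF)
  have h2 : 0 < c + 0 * F 0 := by simpa using hc
  have h3 : ∀ᶠ t in 𝓝[>] (0 : ℝ), 0 < c + t * F t :=
    (h1.tendsto.eventually (lt_mem_nhds h2)).filter_mono nhdsWithin_le_nhds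
  filter_upwards [h3, self_mem_nhdsWithin] with t a b
  exact mul_pos b a

private theorem dz_half [Dim N] {l1 l2 m1 m2 be : ℝ} (h1 : 0 < l1) (h2 : 0 < l2) (hm1 : 0 < m1)
    (hm2 : 0 < m2) (hb : 0 < be) {u v : H1 N}
    (hs : ∀ h : H1 N, ip l1 u h = m1 * Q4 u u u h + be * Q4 v v u h)
    (h : IsMin l1 l2 m1 m2 be u v) {x y : ℝ} (hx : 0 < x) (hy : 0 < y)
    (hx2 : x ^ 2 = m1 * Q4 u u u u) (hy2 : y ^ 2 = m2 * Q4 v v v v)
    (hxy : x * y = be * Q4 u u v v) (z : H1 N) :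
    x * (be * Q4 v v u z) ≤ y * (m1 * Q4 u u u z) := by
  by_contra hc
  push Not at hc
  set k : ℝ := x * (be * Q4 v v u z) - y * (m1 * Q4 u u u z) with hk
  have hkp : 0 < k := by rw [hk]; linarith
  have hNh := h.1
  obtain ⟨-, -, n3, n4'⟩ := hNh
  have ha : ip l1 u u = x * (x + y) := by rw [n3, ← hx2, ← hxy]; ring
  have hb' : ip l2 v v = y * (x + y) := by rw [n4', ← hy2, ← hxy]; ring
  set U := m1 * Q4 u u u z with hU
  set W := be * Q4 v v u z with hW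
  have hI : ip l1 u z = U + W := hs z
  have hW' : be * Q4 u z v v = W := by rw [hW, Q4_swapp v v u z]
  -- expansions
  have ea : ∀ t : ℝ, ip l1 (u + t • z) (u + t • z) =
      x * (x + y) + 2 * t * (U + W) + t ^ 2 * ip l1 z z := by
    intro t; rw [dz_ip, ha, hI]
  have eq : ∀ t : ℝ, be * Q4 (u + t • z) (u + t • z) v v =
      x * y + 2 * t * W + t ^ 2 * (be * Q4 z z v v) := by
    intro t; rw [Q_expand, ← hW', hxy]; ring
  have ep : ∀ t : ℝ, m1 * Q4 (u + t • z) (u + t • z) (u + t • z) (u + t • z) =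
      x ^ 2 + 4 * t * U + t ^ 2 * (6 * (m1 * Q4 u u z z) + 4 * t * (m1 * Q4 u z z z)
        + t ^ 2 * (m1 * Q4 z z z z)) := by
    intro t; rw [P_expand, hx2, hU]; ring
  set A2 := be * Q4 z z v v with hA2
  set I2 := ip l1 z z with hI2
  set F : ℝ → ℝ := fun t => 6 * (m1 * Q4 u u z z) + 4 * t * (m1 * Q4 u z z z)
        + t ^ 2 * (m1 * Q4 z z z z) with hF
  have cF : Continuous F := by rw [hF]; fun_prop
  -- the discriminant
  have ev1 : ∀ᶠ t in 𝓝[>] (0 : ℝ), 0 < t * (4 * y * k + t *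
      ((2 * W + t * A2) ^ 2 + 2 * (x * y) * A2 - F t * y ^ 2)) :=
    dz_pos (c := 4 * y * k)
      (F := fun t => (2 * W + t * A2) ^ 2 + 2 * (x * y) * A2 - F t * y ^ 2) (by positivity)
      (Continuous.continuousAt (by fun_prop))
  have ev2 : ∀ᶠ t in 𝓝[>] (0 : ℝ), 0 < t * (2 * y * k + t *
      (y * (x + y) * A2 - I2 * y ^ 2)) :=
    dz_pos (c := 2 * y * k) (F := fun _ => y * (x + y) * A2 - I2 * y ^ 2) (by positivity)
      continuousAt_const
  have ev3 : ∀ᶠ t in 𝓝[>] (0 : ℝ), 0 < t * (2 * (x + 2 * y) * k + t *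
      ((2 * (U + W) + t * I2) * (2 * W + t * A2) + x * (x + y) * A2 + I2 * (x * y)
        - y * (x + y) * F t)) :=
    dz_pos (c := 2 * (x + 2 * y) * k)
      (F := fun t => (2 * (U + W) + t * I2) * (2 * W + t * A2) + x * (x + y) * A2 + I2 * (x * y)
        - y * (x + y) * F t) (by positivity)
      (Continuous.continuousAt (by fun_prop))
  obtain ⟨t, t1, t2, t3⟩ := (ev1.and (ev2.and ev3)).exists
  have hD : 0 < (be * Q4 (u + t • z) (u + t • z) v v) ^ 2 -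
      m1 * Q4 (u + t • z) (u + t • z) (u + t • z) (u + t • z) * (m2 * Q4 v v v v) := by
    rw [eq, ep, ← hy2]
    refine lt_of_lt_of_eq t1 ?_
    rw [hk]
    ring
  have hOm : OmMp l1 l2 m1 m2 be (u + t • z) v := by
    unfold OmMp OmM
    refine ⟨hD, ?_, ?_⟩
    · rw [← sub_pos, hb', ea, eq, ← hy2]
      refine lt_of_lt_of_eq t2 ?_
      rw [hk]
      ring
    · rw [← sub_pos, hb', ea, eq, ep]
      refine lt_of_lt_of_eq t3 ?_
      rw [hk]
      ring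
  have hmin := min_le h1 h2 hm1 hm2 h (Or.inl hOm)
  have hr : m2 * Q4 v v v v ≠ 0 := by rw [← hy2]; positivity
  have hEE := EE_b (a := ip l1 (u + t • z) (u + t • z)) (b := ip l2 v v)
    (p := m1 * Q4 (u + t • z) (u + t • z) (u + t • z) (u + t • z))
    (q := be * Q4 (u + t • z) (u + t • z) v v) hr hD.ne'
  have hEn : En l1 l2 m1 m2 be u v = (x + y) ^ 2 / 4 := by
    rw [Neh_En h.1, ha, hb']; ring
  have hb4 : ip l2 v v ^ 2 / (4 * (m2 * Q4 v v v v)) = (x + y) ^ 2 / 4 := by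
    rw [hb', ← hy2]; field_simp
  have hpos : 0 < (ip l2 v v * (be * Q4 (u + t • z) (u + t • z) v v) -
      ip l1 (u + t • z) (u + t • z) * (m2 * Q4 v v v v)) ^ 2 /
      (4 * (m2 * Q4 v v v v) * ((be * Q4 (u + t • z) (u + t • z) v v) ^ 2 -
      m1 * Q4 (u + t • z) (u + t • z) (u + t • z) (u + t • z) * (m2 * Q4 v v v v))) := by
    have h3 : 0 < ip l2 v v * (be * Q4 (u + t • z) (u + t • z) v v) -
      ip l1 (u + t • z) (u + t • z) * (m2 * Q4 v v v v) := sub_pos.2 hOm.2.1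
    have h4 : 0 < m2 * Q4 v v v v := by rw [← hy2]; positivity
    positivity
  unfold EEp at hmin
  rw [hEn] at hmin
  rw [hb4] at hEE
  linarith

private theorem dz_Neh_swap {l1 l2 m1 m2 be : ℝ} {u v : H1 N} (h : Neh l1 l2 m1 m2 be u v) :
    Neh l2 l1 m2 m1 be v u := by
  obtain ⟨a, b, c, d⟩ := h
  refine ⟨b, a, ?_, ?_⟩
  · rw [d, Q4_swapp u u v v]
  · rw [c, Q4_swapp u u v v]

private theorem dz_En_swap (l1 l2 m1 m2 be : ℝ) (u v : H1 N) :
    En l2 l1 m2 m1 be v u = En l1 l2 m1 m2 be u v := by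
  unfold En
  rw [Q4_swapp v v u u]
  ring

private theorem dz_IsMin_swap {l1 l2 m1 m2 be : ℝ} {u v : H1 N}
    (h : IsMin l1 l2 m1 m2 be u v) : IsMin l2 l1 m2 m1 be v u := by
  refine ⟨dz_Neh_swap h.1, fun u' v' h' => ?_⟩
  rw [dz_En_swap, ← dz_En_swap l2 l1]
  exact h.2 _ _ (dz_Neh_swap h')

/-- module dz. First part of the proof of `D_zero` (the same proof, another conclusion). -/
theorem D_zero0 [Dim N] {l1 l2 m1 m2 be : ℝ} (h1 : 0 < l1) (h2 : 0 < l2) (hm1 : 0 < m1)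
    (hm2 : 0 < m2) (hb : 0 < be) {u v : H1 N} (hs : Sol l1 l2 m1 m2 be u v)
    (h : IsMin l1 l2 m1 m2 be u v) (hD : Dl m1 m2 be u v = 0) :
    be ^ 2 = m1 * m2 ∧ ∃ k : ℝ, 0 < k ∧ ∀ᵐ x : E N, fn v x ^ 2 = k * fn u x ^ 2 := by
  have hP : 0 < Q4 u u u u := Q4_pos h.1.1
  have hR : 0 < Q4 v v v v := Q4_pos h.1.2.1
  set x : ℝ := Real.sqrt (m1 * Q4 u u u u) with hx
  set y : ℝ := Real.sqrt (m2 * Q4 v v v v) with hy
  have hxp : 0 < x := Real.sqrt_pos.2 (by positivity)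
  have hyp : 0 < y := Real.sqrt_pos.2 (by positivity)
  have hx2 : x ^ 2 = m1 * Q4 u u u u := Real.sq_sqrt (by positivity)
  have hy2 : y ^ 2 = m2 * Q4 v v v v := Real.sq_sqrt (by positivity)
  have hxy : x * y = be * Q4 u u v v := by
    have h3 : (x * y) ^ 2 = (be * Q4 u u v v) ^ 2 := by
      unfold Dl at hD
      rw [mul_pow, hx2, hy2]
      linarith
    have h4 : 0 ≤ be * Q4 u u v v := mul_nonneg hb.le (Q4_nonneg u v)
    exact (pow_left_inj₀ (by positivity) h4 (by norm_num)).1 h3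
  have hle1 := dz_half h1 h2 hm1 hm2 hb hs.1 h hxp hyp hx2 hy2 hxy
  have hxy' : y * x = be * Q4 v v u u := by rw [mul_comm y x, hxy, Q4_swapp]
  have hle2 := dz_half h2 h1 hm2 hm1 hb hs.2 (dz_IsMin_swap h) hyp hxp hy2 hx2 hxy'
  have eq1 : ∀ z : H1 N, (x * be) * Q4 v v u z = (y * m1) * Q4 u u u z := by
    intro z
    have a1 := hle1 z
    have a2 := hle1 (-z)
    rw [Q4_neg4, Q4_neg4] at a2
    linarith
  have eq2 : ∀ z : H1 N, (y * be) * Q4 u u v z = (x * m2) * Q4 v v v z := by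
    intro z
    have a1 := hle2 z
    have a2 := hle2 (-z)
    rw [Q4_neg4, Q4_neg4] at a2
    linarith
  have f1 := Q4_fund _ _ _ _ _ _ _ _ eq1
  have f2 := Q4_fund _ _ _ _ _ _ _ _ eq2
  set k : ℝ := y * m1 / (x * be) with hk
  have hkp : 0 < k := by positivity
  have hsq : ∀ᵐ s : E N, fn v s ^ 2 = k * fn u s ^ 2 := by
    filter_upwards [f1, f2] with s a b
    by_cases hu : fn u s = 0
    · rw [hu] at b ⊢
      have h3 : x * m2 * (fn v s * fn v s * fn v s) = 0 := by rw [← b]; ring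
      have h4 := (mul_eq_zero.1 h3).resolve_left (by positivity)
      have h5 : fn v s = 0 := by
        rcases mul_eq_zero.1 h4 with h6 | h6
        · rcases mul_eq_zero.1 h6 with h7 | h7 <;> exact h7
        · exact h6
      rw [h5]; ring
    · have h3 : fn u s * (x * be * fn v s ^ 2) = fn u s * (y * m1 * fn u s ^ 2) := by
        linear_combination a
      have h4 := mul_left_cancel₀ hu h3
      rw [hk]
      field_simp
      linear_combination h4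
  have hbe : be ^ 2 = m1 * m2 := by
    by_contra hne
    refine h.1.1 (H1_ext ?_)
    filter_upwards [f2, hsq, fn_zero (N := N)] with s b c d
    rw [d]
    by_contra hu
    have hv : fn v s ≠ 0 := by
      intro h0
      rw [h0] at c
      have : 0 < k * fn u s ^ 2 := by positivity
      rw [← c] at this
      norm_num at this
    have h3 : fn v s * (y * be * fn u s ^ 2) = fn v s * (x * m2 * fn v s ^ 2) := by
      linear_combination b
    have h4 := mul_left_cancel₀ hv h3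
    rw [c, hk] at h4
    field_simp at h4
    exact hne (by rw [h4]; ring)
  exact ⟨hbe, k, hkp, hsq⟩

private theorem dz_Q [Dim N] {u v : H1 N} {k : ℝ} (hk : 0 < k)
    (h : ∀ᵐ x : E N, fn v x ^ 2 = k * fn u x ^ 2) (y z : H1 N) : Q4 v v y z = k * Q4 u u y z := by
  have h1 : ∀ᵐ x, fn v x ^ 2 = fn (Real.sqrt k • u) x ^ 2 := by
    filter_upwards [h, fn_smul (Real.sqrt k) u] with x a b
    rw [a, b, mul_pow, Real.sq_sqrt hk.le]
  rw [Q4_congr_sq h1, Q4_smul1, Q4_smul2, ← mul_assoc, Real.mul_self_sqrt hk.le]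

/-- module dz. The zero discriminant is impossible if the level is at most `K2` and `rho0 < β`.
Proof: `D_zero0`; `R = k² P`, `Q = k P` (`Q4_congr_sq`), `b² /(4r) = E` (as `D = 0`; computation of `Neh_ge`) `≤ K2`, with
`b² ≥ S2 R`: so `b² = S2(l2) R` and `w := t⁻¹ v`, `t² = b/(m2 R)`, is `GNo l2 m2`. Now `ip l1 v v = k ip l1 u u` (`|v| = √k |u|`,
`abs_H'`, `H1_ext`), `a = m1 P + β k P`, `b = m2 k² P + β k P`, so
`ip l1 w w/P(w) = t^{-2}.. = m2 (m1 + β k)/(m2 k + β) = β` (because `m1 m2 = β²`): contradiction with `rho0_eq`. -/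
theorem D_zero' [Dim N] {l1 l2 m1 m2 be : ℝ} (h1 : 0 < l1) (h2 : 0 < l2) (hm1 : 0 < m1)
    (hm2 : 0 < m2) (hb : 0 < be) (hr : rho0 N l1 l2 m2 < be) {u v : H1 N}
    (hs : Sol l1 l2 m1 m2 be u v) (h : IsMin l1 l2 m1 m2 be u v)
    (hE : En l1 l2 m1 m2 be u v ≤ S2 N l2 / (4 * m2)) : Dl m1 m2 be u v ≠ 0 := by
  intro hD
  obtain ⟨hbe, k, hk, hsq⟩ := D_zero0 h1 h2 hm1 hm2 hb hs h hD
  have hP : 0 < Q4 u u u u := Q4_pos h.1.1
  have hR : 0 < Q4 v v v v := Q4_pos h.1.2.1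
  have hip := dz_sq hk.le hsq l1
  have hEn := Neh_En h.1
  have hNh := h.1
  obtain ⟨-, -, n3, n4'⟩ := hNh
  have hQ : Q4 u u v v = k * Q4 u u u u := by
    rw [Q4_swapp u u v v, dz_Q hk hsq]
  have hRk : Q4 v v v v = k ^ 2 * Q4 u u u u := by
    rw [dz_Q hk hsq, hQ]; ring
  have hb0 : 0 < ip l2 v v := ip_pos h2 h.1.2.1
  have hSle := S2_le h2 v
  -- equality in the scalar inequality
  have hbS : ip l2 v v ^ 2 = S2 N l2 * Q4 v v v v := by
    refine le_antisymm ?_ hSle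
    have e1 : ip l2 v v ^ 2 = (ip l1 u u + ip l2 v v) * (m2 * Q4 v v v v) := by
      unfold Dl at hD
      rw [n3, n4']
      linear_combination hD
    rw [e1]
    rw [hEn] at hE
    have h3 : ip l1 u u + ip l2 v v ≤ S2 N l2 / m2 := by
      have e2 : S2 N l2 / (4 * m2) = S2 N l2 / m2 / 4 := by field_simp
      rw [e2] at hE
      linarith
    calc (ip l1 u u + ip l2 v v) * (m2 * Q4 v v v v) ≤ S2 N l2 / m2 * (m2 * Q4 v v v v) :=
          mul_le_mul_of_nonneg_right h3 (by positivity)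
      _ = S2 N l2 * Q4 v v v v := by field_simp
  set c : ℝ := ip l2 v v / (m2 * Q4 v v v v) with hc
  have hcp : 0 < c := by positivity
  have hcc : Real.sqrt c * Real.sqrt c = c := Real.mul_self_sqrt hcp.le
  have hw : GNo l2 m2 (Real.sqrt c • v) := by
    have e1 : ip l2 (Real.sqrt c • v) (Real.sqrt c • v) = c * ip l2 v v := by
      rw [ip_smul_left, ip_smul_right, ← mul_assoc, hcc]
    have e2 : Q4 (Real.sqrt c • v) (Real.sqrt c • v) (Real.sqrt c • v) (Real.sqrt c • v) =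
        c ^ 2 * Q4 v v v v := by
      rw [Q4_smul1, Q4_smul2, Q4_smul3, Q4_smul4]
      linear_combination ((Real.sqrt c * Real.sqrt c + c) * Q4 v v v v) * hcc
    refine ⟨?_, ?_, ?_⟩
    · exact smul_ne_zero (Real.sqrt_pos.2 hcp).ne' h.1.2.1
    · rw [e1, e2, hc]; field_simp
    · rw [e1, e2, mul_pow, hbS]; ring
  have hrho := rho0_eq (l1 := l1) h2 hm2 hw
  have e1 : ip l1 (Real.sqrt c • v) (Real.sqrt c • v) = c * ip l1 v v := by
    rw [ip_smul_left, ip_smul_right, ← mul_assoc, hcc]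
  have e2 : Q4 (Real.sqrt c • v) (Real.sqrt c • v) (Real.sqrt c • v) (Real.sqrt c • v) =
      c ^ 2 * Q4 v v v v := by
    rw [Q4_smul1, Q4_smul2, Q4_smul3, Q4_smul4]
    linear_combination ((Real.sqrt c * Real.sqrt c + c) * Q4 v v v v) * hcc
  rw [e1, e2] at hrho
  have e3 : c * ip l1 v v / (c ^ 2 * Q4 v v v v) = be := by
    rw [div_eq_iff (by positivity)]
    have e4 : c * (m2 * Q4 v v v v) = ip l2 v v := by rw [hc]; field_simp
    -- `ip l1 v v * m2 = be * b`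
    have e5 : m2 * ip l1 v v = be * ip l2 v v := by
      rw [hip, n3, n4', hQ, hRk]
      linear_combination (-(k * Q4 u u u u)) * hbe
    have e6 : m2 * (c * ip l1 v v) = m2 * (be * (c ^ 2 * Q4 v v v v)) := by
      linear_combination c * e5 - (be * c) * e4
    exact mul_left_cancel₀ hm2.ne' e6
  rw [e3] at hrho
  linarith

/-- Steps 1 - 4 with the sharp condition `rho0 < β` -/
theorem good_GS' [Dim N] {l1 l2 m1 m2 be : ℝ} (h1 : 0 < l1) (h2 : 0 < l2) (hm1 : 0 < m1)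
    (hm2 : 0 < m2) (hb : 0 < be) (hb2 : m1 * m2 ≤ be ^ 2) (hr : rho0 N l1 l2 m2 < be)
    (h : HasGS N l1 l2 m1 m2 be) :
    ∃ U V : H1 N, RD U ∧ RD V ∧ Sol l1 l2 m1 m2 be U V ∧ IsMin l1 l2 m1 m2 be U V ∧
      0 < Dl m1 m2 be U V ∧ m1 * Q4 U U V V + be * Q4 V V V V ≤ ip l1 V V ∧
      En l1 l2 m1 m2 be U V ≤ S2 N l2 / (4 * m2) := by
  obtain ⟨w, hw, -⟩ := exists_GNo (N := N) h2 hm2
  have hq : ip l1 w w < be * Q4 w w w w := by
    rw [← rho0_eq h2 hm2 hw, div_lt_iff₀ (Q4_pos hw.1)] at hr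
    exact hr
  obtain ⟨u, v, h3, h4⟩ := (HasGS_iff h1 h2).1 h
  have h5 := level_large h1 h2 hm1 hm2 hb hw hq hb2 h4
  have h6 := (Neh_ge h1 h2 hm1 hm2 h4.1).1
  have h8 : 0 < 4 * (m2 * Q4 v v v v) := by
    have := Q4_pos h4.1.2.1
    positivity
  have h7 : 0 ≤ Dl m1 m2 be u v := by
    by_contra hc
    push Not at hc
    have h9 := div_neg_of_neg_of_pos hc h8
    linarith
  have h9 : 0 < Dl m1 m2 be u v := lt_of_le_of_ne h7
    (D_zero' h1 h2 hm1 hm2 hb hr h3 h4 h5).symm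
  obtain ⟨U, V, k1, k2, k3, k4, k5⟩ := radialise h1 h2 hm1 hm2 hb h4 h9
  exact ⟨U, V, k1, k2, k3, k4, k5, ineqII h1 h2 hm1 hm2 hb k4 k5 k1.1,
    level_large h1 h2 hm1 hm2 hb hw hq hb2 k4⟩

open scoped Pointwise in
private theorem am_sInf (S : Set ℝ) {c : ℝ} (hc : 0 ≤ c) :
    sInf ((fun x => c * x) '' S) = c * sInf S := by
  have h := Real.sInf_smul_of_nonneg hc S
  rw [← Set.image_smul] at h
  simpa only [smul_eq_mul] using h

private theorem am_En {l1 l2 m1 m2 be c : ℝ} (hc : 0 < c) (u v : H1 N) :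
    En l1 l2 (c * m1) (c * m2) (c * be) ((Real.sqrt c)⁻¹ • u) ((Real.sqrt c)⁻¹ • v) =
      c⁻¹ * En l1 l2 m1 m2 be u v := by
  have hs : (Real.sqrt c)⁻¹ * (Real.sqrt c)⁻¹ = c⁻¹ := by
    rw [← mul_inv, Real.mul_self_sqrt hc.le]
  have hcc : c * c⁻¹ = 1 := mul_inv_cancel₀ hc.ne'
  set s := (Real.sqrt c)⁻¹ with hsd
  unfold En
  simp only [ip_smul_left, ip_smul_right, Q4_smul1, Q4_smul2, Q4_smul3, Q4_smul4]
  have e1 : ∀ x : ℝ, s * (s * x) = c⁻¹ * x := fun x => by rw [← mul_assoc, hs]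
  simp only [e1]
  have e2 : ∀ x : ℝ, c * x * (c⁻¹ * (c⁻¹ * Q4 u u u u)) = c⁻¹ * (x * Q4 u u u u) := fun x => by
    linear_combination (x * c⁻¹ * Q4 u u u u) * hcc
  linear_combination (-(c⁻¹ * (m1 * Q4 u u u u + 2 * be * Q4 u u v v + m2 * Q4 v v v v) / 4)) * hcc

private theorem am_Neh {l1 l2 m1 m2 be c : ℝ} (hc : 0 < c) {u v : H1 N}
    (h : Neh l1 l2 m1 m2 be u v) :
    Neh l1 l2 (c * m1) (c * m2) (c * be) ((Real.sqrt c)⁻¹ • u) ((Real.sqrt c)⁻¹ • v) := by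
  have hs : (Real.sqrt c)⁻¹ * (Real.sqrt c)⁻¹ = c⁻¹ := by
    rw [← mul_inv, Real.mul_self_sqrt hc.le]
  have hs0 : (Real.sqrt c)⁻¹ ≠ 0 := (inv_pos.2 (Real.sqrt_pos.2 hc)).ne'
  have hcc : c * c⁻¹ = 1 := mul_inv_cancel₀ hc.ne'
  obtain ⟨a1, a2, a3, a4⟩ := h
  have e1 : ∀ x : ℝ, (Real.sqrt c)⁻¹ * ((Real.sqrt c)⁻¹ * x) = c⁻¹ * x := fun x => by
    rw [← mul_assoc, hs]
  refine ⟨smul_ne_zero hs0 a1, smul_ne_zero hs0 a2, ?_, ?_⟩
  · simp only [ip_smul_left, ip_smul_right, Q4_smul1, Q4_smul2, Q4_smul3, Q4_smul4, e1]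
    linear_combination c⁻¹ * a3 - (c⁻¹ * (m1 * Q4 u u u u + be * Q4 u u v v)) * hcc
  · simp only [ip_smul_left, ip_smul_right, Q4_smul1, Q4_smul2, Q4_smul3, Q4_smul4, e1]
    linear_combination c⁻¹ * a4 - (c⁻¹ * (m2 * Q4 v v v v + be * Q4 u u v v)) * hcc

private theorem am_Sol {l1 l2 m1 m2 be c : ℝ} (hc : 0 < c) {u v : H1 N}
    (h : Sol l1 l2 m1 m2 be u v) :
    Sol l1 l2 (c * m1) (c * m2) (c * be) ((Real.sqrt c)⁻¹ • u) ((Real.sqrt c)⁻¹ • v) := by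
  have hs : (Real.sqrt c)⁻¹ * (Real.sqrt c)⁻¹ = c⁻¹ := by
    rw [← mul_inv, Real.mul_self_sqrt hc.le]
  have hcc : c * c⁻¹ = 1 := mul_inv_cancel₀ hc.ne'
  set s := (Real.sqrt c)⁻¹ with hsd
  have hs' : c * (s * s) = 1 := by rw [hs, hcc]
  constructor
  · intro z
    simp only [ip_smul_left, Q4_smul1, Q4_smul2, Q4_smul3]
    linear_combination s * h.1 z - (s * (m1 * Q4 u u u z + be * Q4 v v u z)) * hs'
  · intro z
    simp only [ip_smul_left, Q4_smul1, Q4_smul2, Q4_smul3]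
    linear_combination s * h.2 z - (s * (m2 * Q4 v v v z + be * Q4 u u v z)) * hs'

private theorem am_inv {c : ℝ} (hc : 0 < c) (u : H1 N) :
    (Real.sqrt c⁻¹)⁻¹ • ((Real.sqrt c)⁻¹ • u) = u := by
  rw [smul_smul, Real.sqrt_inv, inv_inv, mul_inv_cancel₀ (Real.sqrt_pos.2 hc).ne', one_smul]

private theorem am_level {l1 l2 m1 m2 be c : ℝ} (hc : 0 < c) :
    level N l1 l2 (c * m1) (c * m2) (c * be) = c⁻¹ * level N l1 l2 m1 m2 be := by
  have hset : {e : ℝ | ∃ u v : H1 N, Neh l1 l2 (c * m1) (c * m2) (c * be) u v ∧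
      e = En l1 l2 (c * m1) (c * m2) (c * be) u v} =
      (fun x => c⁻¹ * x) '' {e : ℝ | ∃ u v : H1 N, Neh l1 l2 m1 m2 be u v ∧
        e = En l1 l2 m1 m2 be u v} := by
    ext e
    rw [Set.mem_image]
    constructor
    · rintro ⟨u, v, h1, rfl⟩
      have h2 := am_Neh (inv_pos.2 hc) h1
      have h3 := am_En (inv_pos.2 hc) (l1 := l1) (l2 := l2) (m1 := c * m1) (m2 := c * m2)
        (be := c * be) u v
      have e1 : ∀ x : ℝ, c⁻¹ * (c * x) = x := fun x => by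
        rw [← mul_assoc, inv_mul_cancel₀ hc.ne', one_mul]
      simp only [e1, inv_inv] at h2 h3
      refine ⟨_, ⟨_, _, h2, rfl⟩, ?_⟩
      rw [h3]
      exact e1 _
    · rintro ⟨y, ⟨u, v, h1, rfl⟩, rfl⟩
      exact ⟨_, _, am_Neh hc h1, (am_En hc u v).symm⟩
  unfold level
  rw [hset, am_sInf _ (inv_pos.2 hc).le]

private theorem am_GS {l1 l2 m1 m2 be c : ℝ} (hc : 0 < c)
    (h : HasGS N l1 l2 m1 m2 be) : HasGS N l1 l2 (c * m1) (c * m2) (c * be) := by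
  obtain ⟨u, v, a1, a2, a3, a4⟩ := h
  have hs0 : (Real.sqrt c)⁻¹ ≠ 0 := (inv_pos.2 (Real.sqrt_pos.2 hc)).ne'
  refine ⟨_, _, smul_ne_zero hs0 a1, smul_ne_zero hs0 a2, am_Sol hc a3, ?_⟩
  rw [am_En hc, am_level hc, a4]

/-- module am. Amplitude scaling `(u,v) ↦ (c^{-1/2} u, c^{-1/2} v)`. -/
theorem HasGS_amp [Dim N] {l1 l2 m1 m2 be c : ℝ} (hc : 0 < c) :
    HasGS N l1 l2 (c * m1) (c * m2) (c * be) ↔ HasGS N l1 l2 m1 m2 be := by
  refine ⟨fun h => ?_, am_GS hc⟩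
  have h2 := am_GS (inv_pos.2 hc) h
  have e1 : ∀ x : ℝ, c⁻¹ * (c * x) = x := fun x => by
    rw [← mul_assoc, inv_mul_cancel₀ hc.ne', one_mul]
  simp only [e1] at h2
  exact h2

private theorem am_GNo [Dim N] {l m c : ℝ} (hc : 0 < c) {w : H1 N} (h : GNo l m w) :
    GNo l (c * m) ((Real.sqrt c)⁻¹ • w) := by
  have hs : (Real.sqrt c)⁻¹ * (Real.sqrt c)⁻¹ = c⁻¹ := by
    rw [← mul_inv, Real.mul_self_sqrt hc.le]
  have hs0 : (Real.sqrt c)⁻¹ ≠ 0 := (inv_pos.2 (Real.sqrt_pos.2 hc)).ne'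
  have hcc : c * c⁻¹ = 1 := mul_inv_cancel₀ hc.ne'
  have e1 : ∀ x : ℝ, (Real.sqrt c)⁻¹ * ((Real.sqrt c)⁻¹ * x) = c⁻¹ * x := fun x => by
    rw [← mul_assoc, hs]
  refine ⟨smul_ne_zero hs0 h.1, ?_, ?_⟩
  · simp only [ip_smul_left, ip_smul_right, Q4_smul1, Q4_smul2, Q4_smul3, Q4_smul4, e1]
    linear_combination c⁻¹ * h.2.1 - (c⁻¹ * (m * Q4 w w w w)) * hcc
  · simp only [ip_smul_left, ip_smul_right, Q4_smul1, Q4_smul2, Q4_smul3, Q4_smul4, e1]
    rw [mul_pow, h.2.2]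
    ring

private theorem am_tau [Dim N] {l m l' c : ℝ} (hl : 0 < l) (hm : 0 < m) (hc : 0 < c)
    {t : ℝ} (h : ∃ w p : H1 N, SGS l m w ∧ Q4 w w p p ≠ 0 ∧ t = ip l' p p / Q4 w w p p) :
    ∃ w p : H1 N, SGS l (c * m) w ∧ Q4 w w p p ≠ 0 ∧ c * t = ip l' p p / Q4 w w p p := by
  obtain ⟨w, p, h1, h2, h3⟩ := h
  have hs : (Real.sqrt c)⁻¹ * (Real.sqrt c)⁻¹ = c⁻¹ := by
    rw [← mul_inv, Real.mul_self_sqrt hc.le]
  have e1 : Q4 ((Real.sqrt c)⁻¹ • w) ((Real.sqrt c)⁻¹ • w) p p = c⁻¹ * Q4 w w p p := by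
    rw [Q4_smul1, Q4_smul2, ← mul_assoc, hs]
  refine ⟨(Real.sqrt c)⁻¹ • w, p, ?_, ?_, ?_⟩
  · rw [SGS_iff hl (mul_pos hc hm)]
    exact am_GNo hc ((SGS_iff hl hm w).1 h1)
  · rw [e1]
    exact mul_ne_zero (inv_pos.2 hc).ne' h2
  · rw [e1, h3]
    field_simp

/-- module am -/
theorem tau_amp [Dim N] {l m l' c : ℝ} (hl : 0 < l) (hm : 0 < m) (hc : 0 < c) :
    tau N l (c * m) l' = c * tau N l m l' := by
  have hset : {t : ℝ | ∃ w p : H1 N, SGS l (c * m) w ∧ Q4 w w p p ≠ 0 ∧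
      t = ip l' p p / Q4 w w p p} =
      (fun x => c * x) '' {t : ℝ | ∃ w p : H1 N, SGS l m w ∧ Q4 w w p p ≠ 0 ∧
        t = ip l' p p / Q4 w w p p} := by
    ext t
    rw [Set.mem_image]
    constructor
    · intro h
      have h2 := am_tau hl (mul_pos hc hm) (inv_pos.2 hc) h
      have e1 : c⁻¹ * (c * m) = m := by rw [← mul_assoc, inv_mul_cancel₀ hc.ne', one_mul]
      rw [e1] at h2
      refine ⟨c⁻¹ * t, h2, ?_⟩
      rw [← mul_assoc, mul_inv_cancel₀ hc.ne', one_mul]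
    · rintro ⟨y, h1, rfl⟩
      exact am_tau hl hm hc h1
  unfold tau
  rw [hset, am_sInf _ hc.le]

end Sir
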