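import Pool.Agent.Sir.ExS
import Pool.Agent.Sir.Poh
/-!
# Uniform Step 8
module: uex (variant of exi)
-/

namespace Sir

open MeasureTheory Filter Topology

variable {N : ℕ}

/-- module uex. As `be_lim` with a sequence `m1 n` (the same proof: only `ρ² ≤ m1 m2` is used). -/
theorem be_lim' {m2 : ℝ} (hm2 : 0 < m2) (m1 rho be S : ℕ → ℝ)
    (h1 : Tendsto rho atTop (𝓝 m2)) (h2 : ∀ n, rho n ^ 2 ≤ m1 n * m2) (h3 : ∀ n, 0 < be n)
    (h4 : ∀ n, be n < rho n) (h5 : Tendsto S atTop (𝓝 1))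
    (h6 : ∀ n, S n * m2 ^ 2 / be n ^ 2 ≤ 1 + (rho n - be n) ^ 2 / (m1 n * m2 - be n ^ 2)) :
    Tendsto be atTop (𝓝 m2) ∧
      Tendsto (fun n => (rho n - be n) ^ 2 / (m1 n * m2 - be n ^ 2)) atTop (𝓝 0) := by
  have hr0 : ∀ n, 0 < rho n := fun n => (h3 n).trans (h4 n)
  have hden : ∀ n, (rho n - be n) * (rho n + be n) ≤ m1 n * m2 - be n ^ 2 := by
    intro n
    have := h2 n
    nlinarith
  have hpos : ∀ n, 0 < (rho n - be n) * (rho n + be n) := fun n =>
    mul_pos (sub_pos.2 (h4 n)) (add_pos (hr0 n) (h3 n))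
  have hle : ∀ n, (rho n - be n) ^ 2 / (m1 n * m2 - be n ^ 2) ≤
      (rho n - be n) / (rho n + be n) := by
    intro n
    have e1 : (rho n - be n) / (rho n + be n) =
        (rho n - be n) ^ 2 / ((rho n - be n) * (rho n + be n)) := by
      have a1 : rho n - be n ≠ 0 := (sub_pos.2 (h4 n)).ne'
      have a2 : rho n + be n ≠ 0 := (add_pos (hr0 n) (h3 n)).ne'
      field_simp
    rw [e1]
    exact div_le_div_of_nonneg_left (sq_nonneg _) (hpos n) (hden n)
  have hS : ∀ n, S n * m2 ^ 2 * (rho n + be n) ≤ 2 * rho n * be n ^ 2 := by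
    intro n
    have e1 := (h6 n).trans (add_le_add_right (hle n) 1)
    have a2 : 0 < rho n + be n := add_pos (hr0 n) (h3 n)
    have e2 : 1 + (rho n - be n) / (rho n + be n) = 2 * rho n / (rho n + be n) := by
      field_simp
      ring
    rw [e2, div_le_div_iff₀ (pow_pos (h3 n) 2) a2] at e1
    linarith
  have hlow : ∀ n, rho n * (S n * m2 ^ 2) ≤ be n * (2 * rho n ^ 2 - S n * m2 ^ 2) := by
    intro n
    have e1 := hS n
    have e2 : 2 * rho n * be n ^ 2 ≤ 2 * rho n * (be n * rho n) := by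
      apply mul_le_mul_of_nonneg_left _ (by linarith [hr0 n])
      nlinarith [h3 n, h4 n]
    nlinarith
  have hA : Tendsto (fun n => S n * m2 ^ 2) atTop (𝓝 (1 * m2 ^ 2)) := h5.mul_const _
  have hB : Tendsto (fun n => 2 * rho n ^ 2 - S n * m2 ^ 2) atTop
      (𝓝 (2 * m2 ^ 2 - 1 * m2 ^ 2)) := ((h1.pow 2).const_mul 2).sub hA
  have hm2' : 0 < 2 * m2 ^ 2 - 1 * m2 ^ 2 := by
    have : 0 < m2 ^ 2 := by positivity
    linarith
  have hC : Tendsto (fun n => rho n * (S n * m2 ^ 2) / (2 * rho n ^ 2 - S n * m2 ^ 2)) atTop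
      (𝓝 m2) := by
    have e1 := (h1.mul hA).div hB hm2'.ne'
    have e2 : m2 * (1 * m2 ^ 2) / (2 * m2 ^ 2 - 1 * m2 ^ 2) = m2 := by
      have : 2 * m2 ^ 2 - 1 * m2 ^ 2 = m2 ^ 2 := by ring
      rw [this]
      field_simp
    rwa [e2] at e1
  have hbe : Tendsto be atTop (𝓝 m2) := by
    refine tendsto_of_tendsto_of_tendsto_of_le_of_le' hC h1 ?_
      (Filter.Eventually.of_forall fun n => (h4 n).le)
    filter_upwards [hB.eventually (lt_mem_nhds hm2')] with n hn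
    rw [div_le_iff₀ hn]
    exact hlow n
  refine ⟨hbe, ?_⟩
  refine squeeze_zero (fun n => ?_) hle ?_
  · exact div_nonneg (sq_nonneg _) ((hpos n).le.trans (hden n))
  · have e1 := (h1.sub hbe).div (h1.add hbe) (by positivity)
    rwa [sub_self, zero_div] at e1

/-- module uex. As `ex_small`, for all `m1` with `rho0² ≤ m1 m2` (the `d` does not depend on `m1`). -/
theorem ex_small' [Dim N] {l m2 : ℝ} (hl : 0 < l) (hm2 : 0 < m2) :
    ∃ d : ℝ, 0 < d ∧ ∀ l1 m1 be : ℝ, 0 < l1 → |l1 - l| < d → 0 < m1 →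
      rho0 N l1 l m2 ^ 2 ≤ m1 * m2 → 0 < be → be < tau N l m2 l1 → HasGS N l1 l m1 m2 be := by
  by_contra hcon
  push Not at hcon
  have h1 : ∀ n : ℕ, ∃ l1 m1 be : ℝ, 0 < l1 ∧ |l1 - l| < 1 / ((n : ℝ) + 1) ∧ 0 < m1 ∧
      rho0 N l1 l m2 ^ 2 ≤ m1 * m2 ∧ 0 < be ∧ be < tau N l m2 l1 ∧ ¬ HasGS N l1 l m1 m2 be :=
    fun n => hcon (1 / ((n : ℝ) + 1)) (by positivity)
  choose l1 m1 be a1 a2 a3 a4 a5 a6 a7 using h1
  obtain ⟨w, hw, -⟩ := exists_GNo (N := N) hl hm2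
  have hP := Q4_pos hw.1
  have hS0 := S2_pos (N := N) hl
  have hl1 : Tendsto l1 atTop (𝓝 l) := by
    rw [tendsto_iff_norm_sub_tendsto_zero]
    refine squeeze_zero (fun n => norm_nonneg _) (fun n => (a2 n).le)
      tendsto_one_div_add_atTop_nhds_zero_nat
  have hq : Tendsto (fun n => l1 n / l) atTop (𝓝 1) := by
    have := hl1.div_const l
    rwa [div_self hl.ne'] at this
  have hrho : ∀ n, ip (l1 n) w w / Q4 w w w w = rho0 N (l1 n) l m2 := fun n =>
    rho0_eq hl hm2 hw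
  have hrl : Tendsto (fun n => rho0 N (l1 n) l m2) atTop (𝓝 m2) := by
    have e1 := (((hq.sub_const 1).mul_const ((4 - (N : ℝ)) / 4)).const_add 1).const_mul m2
    have e2 : m2 * (1 + (1 - 1) * ((4 - (N : ℝ)) / 4)) = m2 := by ring
    rw [e2] at e1
    exact e1
  have htr : ∀ n, tau N l m2 (l1 n) ≤ rho0 N (l1 n) l m2 := by
    intro n
    rw [← hrho n, le_div_iff₀ hP]
    exact tau_le hl hm2 (a1 n) hw w
  have b1 : ∀ n, be n < rho0 N (l1 n) l m2 := fun n => lt_of_lt_of_le (a6 n) (htr n)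
  have b2 : ∀ n, be n ^ 2 < m1 n * m2 := fun n =>
    lt_of_lt_of_le (pow_lt_pow_left₀ (b1 n) (a5 n).le two_ne_zero) (a4 n)
  -- minimisers
  have h2 : ∀ n, ∃ U v : H1 N, RD v ∧ U ≠ 0 ∧ v ≠ 0 ∧ (∀ z : H1 N, ip l v z = m2 * Q4 v v v z) ∧
      ip (l1 n) U U ≤ be n * Q4 U U v v ∧ ip l v v ≤ S2 N l / m2 *
        (1 + (rho0 N (l1 n) l m2 - be n) ^ 2 / (m1 n * m2 - be n ^ 2)) := by
    intro n
    obtain ⟨U, V, c1, c2, c3, c4, c5⟩ := Php_min (N := N) (a1 n) hl (a3 n) hm2 (a5 n).le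
    have c6 := c5 w w hw.1 hw.1
    have d1 := axis_a (a1 n) hl (a3 n) hm2 (a5 n) hw (by rw [hrho]; exact b1 n)
      (by rw [hrho]; exact a4 n) c3 c4 c6
    have d2 : ip (l1 n) U U * (m2 * Q4 V V V V) ≤ ip l V V * (be n * Q4 U U V V) := by
      by_contra hc
      push Not at hc
      exact a7 n (Php_int (a1 n) hl (a3 n) hm2 (a5 n).le (b2 n) c3 c4 c5
        ⟨Dl_neg (b2 n) c3 c4, hc, d1⟩)
    obtain ⟨v, e1, e2, e3, e4, e5⟩ := Php_axis (a1 n) hl (a3 n) hm2 (a5 n).le (b2 n) c3 c4 c2 c5 d2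
    have e6 := Php_ww (a1 n) hl (a3 n) hm2 (a5 n).le hw (by rw [hrho]; exact b1 n)
      (by rw [hrho]; exact a4 n)
    rw [hrho] at e6
    refine ⟨U, v, e1, c3, e2, e3, e5, ?_⟩
    rw [e4, e6] at c6
    have e7 : S2 N l / (4 * m2) = S2 N l / m2 / 4 := by
      rw [div_div, mul_comm 4 m2]
    rw [e7] at c6
    linarith
  choose U v k1 k2 k3 k4 k5 k6 using h2
  -- the constants
  have hSt : Tendsto (fun n => S2 N (l1 n) / S2 N l) atTop (𝓝 1) := by
    have f1 : Tendsto (fun n => min 1 ((l1 n / l) ^ 2)) atTop (𝓝 (min 1 (1 ^ 2))) :=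
      tendsto_const_nhds.min (hq.pow 2)
    have f2 : Tendsto (fun n => max 1 ((l1 n / l) ^ 2)) atTop (𝓝 (max 1 (1 ^ 2))) :=
      tendsto_const_nhds.max (hq.pow 2)
    rw [one_pow, min_self] at f1
    rw [one_pow, max_self] at f2
    refine tendsto_of_tendsto_of_tendsto_of_le_of_le f1 f2 (fun n => ?_) (fun n => ?_)
    · show min 1 ((l1 n / l) ^ 2) ≤ S2 N (l1 n) / S2 N l
      rcases le_total l (l1 n) with g | g
      · refine (min_le_left _ _).trans ?_
        rw [le_div_iff₀ hS0, one_mul]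
        exact S2_mono hl g
      · refine (min_le_right _ _).trans ?_
        rw [le_div_iff₀ hS0]
        have g1 := S2_upper (N := N) (a1 n) g
        have g2 : (l1 n / l) ^ 2 * S2 N l ≤ (l1 n / l) ^ 2 * ((l / l1 n) ^ 2 * S2 N (l1 n)) :=
          mul_le_mul_of_nonneg_left g1 (sq_nonneg _)
        have g3 : (l1 n / l) ^ 2 * ((l / l1 n) ^ 2 * S2 N (l1 n)) = S2 N (l1 n) := by
          have := (a1 n).ne'
          field_simp
        linarith
    · show S2 N (l1 n) / S2 N l ≤ max 1 ((l1 n / l) ^ 2)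
      rcases le_total l (l1 n) with g | g
      · refine le_trans ?_ (le_max_right _ _)
        rw [div_le_iff₀ hS0]
        exact S2_upper hl g
      · refine le_trans ?_ (le_max_left _ _)
        rw [div_le_iff₀ hS0, one_mul]
        exact S2_mono (a1 n) g
  have hax : ∀ n, m2 * S2 N (l1 n) / be n ^ 2 ≤ ip l (v n) (v n) := fun n =>
    axis_b (a1 n) hl hm2 (a5 n) (k2 n) (k4 n) (k5 n)
  obtain ⟨-, g2⟩ := be_lim' hm2 m1 (fun n => rho0 N (l1 n) l m2) be
    (fun n => S2 N (l1 n) / S2 N l) hrl a4 a5 b1 hSt (fun n => by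
      have g := (hax n).trans (k6 n)
      have g3 : S2 N (l1 n) / S2 N l * m2 ^ 2 / be n ^ 2 =
          (m2 / S2 N l) * (m2 * S2 N (l1 n) / be n ^ 2) := by ring
      have g4 := mul_le_mul_of_nonneg_left g (div_pos hm2 hS0).le
      have g5 : m2 / S2 N l * (S2 N l / m2 *
          (1 + (rho0 N (l1 n) l m2 - be n) ^ 2 / (m1 n * m2 - be n ^ 2))) =
          1 + (rho0 N (l1 n) l m2 - be n) ^ 2 / (m1 n * m2 - be n ^ 2) := by
        have := hS0.ne'
        field_simp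
      show S2 N (l1 n) / S2 N l * m2 ^ 2 / be n ^ 2 ≤
        1 + (rho0 N (l1 n) l m2 - be n) ^ 2 / (m1 n * m2 - be n ^ 2)
      rw [g3, ← g5]
      exact g4)
  have hneh : ∀ n, SNeh l m2 (v n) := fun n => ⟨k3 n, k4 n (v n)⟩
  have hip : Tendsto (fun n => ip l (v n) (v n)) atTop (𝓝 (S2 N l / m2)) := by
    have f1 : Tendsto (fun n => S2 N l / m2 *
        (1 + (rho0 N (l1 n) l m2 - be n) ^ 2 / (m1 n * m2 - be n ^ 2))) atTop
        (𝓝 (S2 N l / m2 * (1 + 0))) := (g2.const_add 1).const_mul _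
    rw [add_zero, mul_one] at f1
    exact tendsto_of_tendsto_of_tendsto_of_le_of_le tendsto_const_nhds f1
      (fun n => (SNeh_ge hl hm2 (hneh n)).1) k6
  have hQ : Tendsto (fun n => Q4 (v n) (v n) (v n) (v n)) atTop (𝓝 (S2 N l / m2 ^ 2)) := by
    have f1 := hip.div_const m2
    have f2 : S2 N l / m2 / m2 = S2 N l / m2 ^ 2 := by
      rw [div_div, sq]
    rw [f2] at f1
    refine f1.congr fun n => ?_
    rw [(hneh n).2, mul_div_cancel_left₀ _ hm2.ne']
  obtain ⟨f, w', f1, f2, f3, f4⟩ := GNo_compact hl hm2 v k1 hip hQ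
  obtain ⟨d, hd, hiso⟩ := gs_isolated hl hm2 f2 f3
  have hev : ∀ᶠ n in atTop, ‖v (f n) - w'‖ < d := by
    have f5 := (tendsto_iff_norm_sub_tendsto_zero.1 f4)
    exact f5.eventually (gt_mem_nhds hd)
  obtain ⟨n, hn⟩ := hev.exists
  have hvw : v (f n) = w' := hiso _ (RD_Rad (k1 _)) (k4 _) hn
  have t1 := tau_le hl hm2 (a1 (f n)) f2 (U (f n))
  have t2 := k5 (f n)
  rw [hvw, Q4_swapp] at t2
  have t3 := ip_pos (a1 (f n)) (k2 (f n))
  have t4 : 0 < Q4 w' w' (U (f n)) (U (f n)) := by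
    by_contra hc
    push Not at hc
    have := mul_nonpos_of_nonneg_of_nonpos (a5 (f n)).le hc
    linarith
  have t5 := mul_lt_mul_of_pos_right (a6 (f n)) t4
  linarith

end Sir
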