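import Pool.Agent.Sir.Scal
/-!
# Scalar ground states do not vanish on sets of positive measure (needed for `β < 0` only)
modules: sma, smb
-/

namespace Sir

open MeasureTheory Filter Topology

variable {N : ℕ}

private theorem sma_prim (D : ℝ → ℝ) (hD : Continuous D) :
    ContDiff ℝ 1 (fun s => ∫ t in (0 : ℝ)..s, D t) ∧
      ∀ s, deriv (fun s => ∫ t in (0 : ℝ)..s, D t) s = D s := by
  have h : ∀ s, HasDerivAt (fun s => ∫ t in (0 : ℝ)..s, D t) (D s) s := fun s =>
    intervalIntegral.integral_hasDerivAt_right (hD.intervalIntegrable _ _)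
      (hD.stronglyMeasurableAtFilter _ _) hD.continuousAt
  have h2 : deriv (fun s => ∫ t in (0 : ℝ)..s, D t) = D := by
    funext s
    exact (h s).deriv
  refine ⟨?_, fun s => (h s).deriv⟩
  rw [contDiff_one_iff_deriv]
  refine ⟨fun s => (h s).differentiableAt, ?_⟩
  rw [h2]
  exact hD

private theorem sma_D1 {e : ℝ} (he : 0 < e) : Continuous fun t : ℝ => 1 / (e + max t 0) := by
  refine continuous_const.div (continuous_const.add (continuous_id.max continuous_const)) ?_
  intro t
  have := le_max_right t 0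
  positivity

private theorem sma_D2 {e : ℝ} (he : 0 < e) :
    Continuous fun t : ℝ => 1 / (e + max t 0) ^ 2 := by
  refine continuous_const.div ((continuous_const.add
    (continuous_id.max continuous_const)).pow 2) ?_
  intro t
  have := le_max_right t 0
  positivity

private theorem sma_T1 {e : ℝ} (he : 0 < e) {s : ℝ} (hs : 0 ≤ s) :
    ∫ t in (0 : ℝ)..s, 1 / (e + max t 0) = Real.log (1 + s / e) := by
  have h1 : ∫ t in (0 : ℝ)..s, 1 / (e + max t 0) =
      Real.log (1 + s / e) - Real.log (1 + 0 / e) := by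
    apply intervalIntegral.integral_eq_sub_of_hasDerivAt (f := fun t => Real.log (1 + t / e))
    · intro t ht
      rw [Set.uIcc_of_le hs] at ht
      have ht0 : 0 ≤ t / e := div_nonneg ht.1 he.le
      have h2 : HasDerivAt (fun t : ℝ => 1 + t / e) (1 / e) t :=
        ((hasDerivAt_id t).div_const e).const_add 1
      have h3 := h2.log (by linarith)
      have h4 : 1 / e / (1 + t / e) = 1 / (e + max t 0) := by
        rw [max_eq_left ht.1]
        field_simp
      rwa [h4] at h3
    · exact (sma_D1 he).intervalIntegrable _ _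
  rw [h1, zero_div, add_zero, Real.log_one, sub_zero]

private theorem sma_T2 {e : ℝ} (he : 0 < e) {s : ℝ} (hs : 0 ≤ s) :
    ∫ t in (0 : ℝ)..s, 1 / (e + max t 0) ^ 2 = 1 / e - 1 / (e + s) := by
  have h1 : ∫ t in (0 : ℝ)..s, 1 / (e + max t 0) ^ 2 = (-(e + s)⁻¹) - (-(e + 0)⁻¹) := by
    apply intervalIntegral.integral_eq_sub_of_hasDerivAt (f := fun t => -(e + t)⁻¹)
    · intro t ht
      rw [Set.uIcc_of_le hs] at ht
      have ht0 : 0 < e + t := by linarith [ht.1]
      have h2 : HasDerivAt (fun t : ℝ => e + t) 1 t := (hasDerivAt_id t).const_add e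
      have h3 := (h2.inv ht0.ne').neg
      have h4 : -(-1 / (e + t) ^ 2) = 1 / (e + max t 0) ^ 2 := by
        rw [max_eq_left ht.1]
        ring
      rwa [h4] at h3
    · exact (sma_D2 he).intervalIntegrable _ _
  rw [h1, add_zero, one_div, one_div]
  ring

/-- the cutoff -/
private theorem sma_cut (R : ℝ) : ∃ (a : E N → ℝ), ContDiff ℝ 1 a ∧ HasCompactSupport a ∧
    (∀ x, 0 ≤ a x) ∧ (∀ x, a x ≤ 1) ∧ (∀ x ∈ Metric.ball (0 : E N) R, a x = 1) := by
  let f : ContDiffBump (0 : E N) := ⟨|R| + 1, |R| + 2, by positivity, by linarith⟩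
  refine ⟨f, f.contDiff, f.hasCompactSupport, fun x => f.nonneg, fun x => f.le_one, ?_⟩
  intro x hx
  apply f.one_of_mem_closedBall
  rw [Metric.mem_ball] at hx
  rw [Metric.mem_closedBall]
  show dist x 0 ≤ |R| + 1
  linarith [le_abs_self R]

private theorem sma_grad (a : E N → ℝ) (ha : ContDiff ℝ 1 a) (x : E N) :
    gradient (fun x => a x ^ 2) x = (2 * a x) • gradient a x := by
  have h1 : HasFDerivAt a (fderiv ℝ a x) x := (ha.differentiable (by norm_num) x).hasFDerivAt
  have h2 : HasFDerivAt (fun x => a x ^ 2) ((2 * a x) • fderiv ℝ a x) x := by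
    have h3 := h1.pow 2
    simpa using h3
  unfold gradient
  rw [h2.fderiv, map_smulₛₗ]
  simp

private theorem sma_gnorm (a : E N → ℝ) (x : E N) : ‖gradient a x‖ = ‖fderiv ℝ a x‖ := by
  unfold gradient
  rw [LinearIsometryEquiv.norm_map]

private theorem sma_gcont (a : E N → ℝ) (ha : ContDiff ℝ 1 a) :
    Continuous fun x => gradient a x := by
  unfold gradient
  exact (LinearIsometryEquiv.continuous _).comp (ha.continuous_fderiv (by norm_num))

private theorem sma_gsupp (a : E N → ℝ) (h : HasCompactSupport a) :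
    HasCompactSupport fun x => gradient a x := by
  have h1 := h.fderiv (𝕜 := ℝ)
  unfold gradient
  exact h1.comp_left (map_zero _)

private theorem sma_pt {v g : E N} {a s e l : ℝ} (hs : 0 ≤ s) (he : 0 < e) (hl : 0 < l) :
    inner ℝ v ((1 / (e + s)) • ((2 * a) • g) - (a ^ 2 * (1 / (e + s) ^ 2)) • v) +
      l * (s * (a ^ 2 * (1 / (e + s)))) ≤
      -(1 / 2) * (a ^ 2 * ‖(1 / (e + s)) • v‖ ^ 2) + (2 * ‖g‖ ^ 2 + l * a ^ 2) := by
  have hq : 0 < e + s := by linarith
  have h1 : s * (1 / (e + s)) ≤ 1 := by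
    rw [mul_one_div, div_le_one hq]
    linarith
  have h2 : l * (s * (a ^ 2 * (1 / (e + s)))) ≤ l * a ^ 2 := by
    have h3 : s * (a ^ 2 * (1 / (e + s))) = a ^ 2 * (s * (1 / (e + s))) := by ring
    rw [h3]
    have h4 : a ^ 2 * (s * (1 / (e + s))) ≤ a ^ 2 * 1 :=
      mul_le_mul_of_nonneg_left h1 (sq_nonneg a)
    nlinarith
  rw [inner_sub_right, inner_smul_right, inner_smul_right, inner_smul_right,
    real_inner_self_eq_norm_sq, norm_smul, Real.norm_of_nonneg (by positivity : 0 ≤ 1 / (e + s))]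
  have h5 : |inner ℝ v g| ≤ ‖v‖ * ‖g‖ := abs_real_inner_le_norm v g
  set q := 1 / (e + s) with hqd
  have hq2 : 1 / (e + s) ^ 2 = q ^ 2 := by rw [hqd, div_pow, one_pow]
  rw [hq2]
  have hq0 : 0 < q := by positivity
  have h6 : q * (2 * a * inner ℝ v g) ≤ 2 * (q * |a| * ‖v‖) * ‖g‖ := by
    have h7 : a * inner ℝ v g ≤ |a| * (‖v‖ * ‖g‖) := by
      calc a * inner ℝ v g ≤ |a * inner ℝ v g| := le_abs_self _
        _ = |a| * |inner ℝ v g| := abs_mul _ _
        _ ≤ _ := mul_le_mul_of_nonneg_left h5 (abs_nonneg a)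
    nlinarith
  have h8 : (q * |a| * ‖v‖) ^ 2 = a ^ 2 * (q * ‖v‖) ^ 2 := by
    rw [mul_pow, mul_pow, sq_abs]
    ring
  nlinarith [sq_nonneg (q * |a| * ‖v‖ - 2 * ‖g‖)]

/-- module sma. Logarithmic estimate. For `w ≥ 0` in `H1` with `0 ≤ ip l w z` for all `z ≥ 0` (supersolution) and every ball
there is `C` such that for every `ε > 0` the function `L = log(1 + w/ε)` is in `H1` and `∫_{ball 0 R} |∇L|² ≤ C`.
Proof: test with `z = χ²/(w+ε)` (`chain1`, `mul_H`), `χ` a `C¹` cutoff, `χ = 1` on `ball 0 R`: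
`∫ χ² |∇w|²/(w+ε)² ≤ 2 ∫ |χ| |∇χ| |∇w|/(w+ε) + l ∫ χ² ≤ (1/2) ∫ χ² |∇w|²/(w+ε)² + 2 ∫ |∇χ|² + l ∫ χ²`. (For the chain rule
extend `1/(s+ε)`, `log(1+s/ε)` smoothly with bounded derivative to `s < 0`, e.g. use a `C¹` function which agrees on
`s ≥ 0`.) -/
theorem log_est {l : ℝ} (hl : 0 < l) {w : H1 N} (h0 : ∀ᵐ x : E N, 0 ≤ fn w x)
    (h : ∀ z : H1 N, (∀ᵐ x : E N, 0 ≤ fn z x) → 0 ≤ ip l w z) (R : ℝ) :
    ∃ C : ℝ, ∀ e : ℝ, 0 < e → ∃ L : H1 N, (fn L =ᵐ[volume] fun x => Real.log (1 + fn w x / e)) ∧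
      ∫ x in Metric.ball (0 : E N) R, ‖gr L x‖ ^ 2 ≤ C := by
  obtain ⟨a, ha1, ha2, ha3, ha4, ha5⟩ := sma_cut (N := N) R
  have hc1 : ContDiff ℝ 1 (fun x => a x ^ 2) := ha1.pow 2
  have hc2 : HasCompactSupport (fun x => a x ^ 2) := by
    have := ha2.comp_left (g := fun t : ℝ => t ^ 2) (by norm_num)
    exact this
  have hgc : Continuous fun x => gradient a x := sma_gcont a ha1
  have hgs : HasCompactSupport fun x => gradient a x := sma_gsupp a ha2
  obtain ⟨K, hK⟩ := hgs.exists_bound_of_continuous hgc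
  have hI1 : Integrable (fun x => 2 * ‖gradient a x‖ ^ 2 + l * a x ^ 2) := by
    refine Integrable.add (Integrable.const_mul ?_ 2) (Integrable.const_mul ?_ l)
    · refine Continuous.integrable_of_hasCompactSupport (hgc.norm.pow 2) ?_
      exact hgs.comp_left (g := fun v : E N => ‖v‖ ^ 2) (by simp)
    · exact Continuous.integrable_of_hasCompactSupport (ha1.continuous.pow 2) hc2
  refine ⟨2 * ∫ x, (2 * ‖gradient a x‖ ^ 2 + l * a x ^ 2), fun e he => ?_⟩
  obtain ⟨p1, p2⟩ := sma_prim _ (sma_D1 he)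
  obtain ⟨p3, p4⟩ := sma_prim _ (sma_D2 he)
  have hb1 : ∀ s : ℝ, |1 / (e + max s 0)| ≤ 1 / e := by
    intro s
    have := le_max_right s 0
    rw [abs_of_nonneg (by positivity)]
    exact one_div_le_one_div_of_le he (by linarith)
  have hb2 : ∀ s : ℝ, |1 / (e + max s 0) ^ 2| ≤ 1 / e ^ 2 := by
    intro s
    have := le_max_right s 0
    rw [abs_of_nonneg (by positivity)]
    exact one_div_le_one_div_of_le (by positivity) (pow_le_pow_left₀ he.le (by linarith) 2)
  obtain ⟨L, hL1, hL2⟩ := chain1 _ p1 (intervalIntegral.integral_same) (1 / e)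
    (fun s => by rw [p2]; exact hb1 s) w
  obtain ⟨V, hV1, hV2⟩ := chain1 _ p3 (intervalIntegral.integral_same) (1 / e ^ 2)
    (fun s => by rw [p4]; exact hb2 s) w
  obtain ⟨A, hA1, hA2⟩ := ofCc _ hc1 hc2
  obtain ⟨B, hB1, hB2⟩ := mul_H (fun x => a x ^ 2) hc1 (max 1 (2 * K)) (fun x => by
      rw [abs_of_nonneg (sq_nonneg _)]
      exact (pow_le_one₀ (ha3 x) (ha4 x)).trans (le_max_left _ _)) (fun x => by
      rw [sma_grad a ha1 x, norm_smul]
      refine le_trans ?_ (le_max_right _ _)
      rw [Real.norm_eq_abs, abs_of_nonneg (by linarith [ha3 x])]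
      have h1 := hK x
      have h2 := norm_nonneg (gradient a x)
      have h3 := ha3 x
      have h4 := ha4 x
      nlinarith) V
  refine ⟨L, ?_, ?_⟩
  · filter_upwards [hL1, h0] with x hx hx0
    rw [hx, sma_T1 he hx0]
  -- the test function
  have hz1 : fn ((1 / e) • A - B) =ᵐ[volume] fun x => a x ^ 2 * (1 / (e + fn w x)) := by
    filter_upwards [fn_sub ((1 / e) • A) B, fn_smul (1 / e) A, hA1, hB1, hV1, h0]
      with x b1 b2 b3 b4 b5 b6
    rw [b1, b2, b3, b4, b5, sma_T2 he b6]
    ring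
  have hz2 : gr ((1 / e) • A - B) =ᵐ[volume] fun x =>
      (1 / (e + fn w x)) • ((2 * a x) • gradient a x) -
        (a x ^ 2 * (1 / (e + fn w x) ^ 2)) • gr w x := by
    filter_upwards [gr_sub ((1 / e) • A) B, gr_smul (1 / e) A, hA2, hB2, hV1, hV2, h0]
      with x b1 b2 b3 b4 b5 b6 b7
    rw [b1, b2, b3, b4, b5, b6, sma_T2 he b7, p4, max_eq_left b7, sma_grad a ha1 x]
    rw [sub_smul, smul_smul (a x ^ 2)]
    abel
  have hz0 : ∀ᵐ x : E N, 0 ≤ fn ((1 / e) • A - B) x := by
    filter_upwards [hz1, h0] with x b1 b2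
    rw [b1]
    positivity
  have hz := h _ hz0
  have hgL : gr L =ᵐ[volume] fun x => (1 / (e + fn w x)) • gr w x := by
    filter_upwards [hL2, h0] with x b1 b2
    rw [b1, p2, max_eq_left b2]
  -- integrability
  have hI2 : Integrable (fun x => a x ^ 2 * ‖gr L x‖ ^ 2) := by
    have h1 : Integrable (fun x => ‖gr L x‖ ^ 2) := (gr_memLp L).integrable_norm_pow (by norm_num)
    refine Integrable.bdd_mul (c := 1) h1 (ha1.continuous.pow 2).aestronglyMeasurable ?_
    refine Filter.Eventually.of_forall fun x => ?_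
    rw [Real.norm_eq_abs, abs_of_nonneg (sq_nonneg _)]
    exact pow_le_one₀ (ha3 x) (ha4 x)
  have hI3 : Integrable (fun x => inner ℝ (gr w x) (gr ((1 / e) • A - B) x)) :=
    L2.integrable_inner (𝕜 := ℝ) w.val.snd (((1 / e) • A - B : H1 N).val.snd)
  have hI4 : Integrable (fun x => fn w x * fn ((1 / e) • A - B) x) :=
    (fn_memLp w).integrable_mul (fn_memLp _)
  have hip : ip l w ((1 / e) • A - B) = ∫ x, (inner ℝ (gr w x) (gr ((1 / e) • A - B) x) +
      l * (fn w x * fn ((1 / e) • A - B) x)) := by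
    rw [integral_add hI3 (hI4.const_mul l), integral_const_mul]
    rfl
  have hle : ip l w ((1 / e) • A - B) ≤ ∫ x, (-(1 / 2) * (a x ^ 2 * ‖gr L x‖ ^ 2) +
      (2 * ‖gradient a x‖ ^ 2 + l * a x ^ 2)) := by
    rw [hip]
    refine integral_mono_ae (hI3.add (hI4.const_mul l)) ((hI2.const_mul _).add hI1) ?_
    filter_upwards [hz1, hz2, hgL, h0] with x b1 b2 b3 b4
    rw [b1, b2, b3]
    exact sma_pt b4 he hl
  rw [integral_add (hI2.const_mul _) hI1, integral_const_mul] at hle
  have hfin : ∫ x in Metric.ball (0 : E N) R, ‖gr L x‖ ^ 2 ≤ ∫ x, a x ^ 2 * ‖gr L x‖ ^ 2 := by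
    have h1 : ∫ x in Metric.ball (0 : E N) R, ‖gr L x‖ ^ 2 =
        ∫ x in Metric.ball (0 : E N) R, a x ^ 2 * ‖gr L x‖ ^ 2 := by
      refine setIntegral_congr_fun measurableSet_ball fun x hx => ?_
      rw [ha5 x hx, one_pow, one_mul]
    rw [h1]
    exact setIntegral_le_integral hI2 (Filter.Eventually.of_forall fun x => by positivity)
  linarith

private theorem smb_meas (u : H1 N) : Measurable (fn u) := (Lp.stronglyMeasurable _).measurable

/-- the integral over a translate -/
private theorem smb_shift {R : ℝ} (f : E N → ENNReal) {y : E N}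
    (hy : y ∈ Metric.ball (0 : E N) R) :
    ∫⁻ x in Metric.ball (0 : E N) R, f x ≤
      ∫⁻ h in Metric.ball (0 : E N) (2 * R), f (y + h) := by
  rw [← lintegral_indicator measurableSet_ball, ← lintegral_indicator measurableSet_ball,
    ← lintegral_add_left_eq_self _ y]
  refine lintegral_mono fun h => ?_
  by_cases hh : y + h ∈ Metric.ball (0 : E N) R
  · have h1 : h ∈ Metric.ball (0 : E N) (2 * R) := by
      rw [mem_ball_zero_iff] at hh hy ⊢
      have h2 : ‖h‖ ≤ ‖y + h‖ + ‖y‖ := by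
        have h3 : h = (y + h) - y := by abel
        calc ‖h‖ = ‖(y + h) - y‖ := by rw [← h3]
          _ ≤ _ := norm_sub_le _ _
      linarith
    rw [Set.indicator_of_mem hh, Set.indicator_of_mem h1]
  · rw [Set.indicator_of_notMem hh]
    exact bot_le

private theorem smb_transl {R : ℝ} (L : H1 N) {h : E N}
    (hh : h ∈ Metric.ball (0 : E N) (2 * R)) :
    ∫⁻ y in Metric.ball (0 : E N) R, ENNReal.ofReal ((fn L (y + h) - fn L y) ^ 2) ≤
      ENNReal.ofReal ((2 * R) ^ 2 * ∫ x in Metric.ball (0 : E N) (3 * R), ‖gr L x‖ ^ 2) := by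
  have hI : Integrable (fun x => ‖gr L x‖ ^ 2) := (gr_memLp L).integrable_norm_pow (by norm_num)
  have h1 : MemLp (fun y => fn L (y + h) - fn L y) 2 (volume : Measure (E N)) :=
    ((fn_memLp L).comp_measurePreserving (measurePreserving_add_right volume h)).sub (fn_memLp L)
  have h2 : Integrable (fun y => (fn L (y + h) - fn L y) ^ 2) := h1.integrable_sq
  rw [← ofReal_integral_eq_lintegral_ofReal h2.integrableOn
    (Filter.Eventually.of_forall fun x => sq_nonneg _)]
  refine ENNReal.ofReal_le_ofReal (le_trans (transl_ball L h R) ?_)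
  rw [mem_ball_zero_iff] at hh
  have h3 : ∫ x in Metric.ball (0 : E N) (R + ‖h‖), ‖gr L x‖ ^ 2 ≤
      ∫ x in Metric.ball (0 : E N) (3 * R), ‖gr L x‖ ^ 2 := by
    refine setIntegral_mono_set hI.integrableOn
      (Filter.Eventually.of_forall fun x => by positivity) ?_
    exact (Metric.ball_subset_ball (by linarith)).eventuallyLE
  have h4 : 0 ≤ ∫ x in Metric.ball (0 : E N) (R + ‖h‖), ‖gr L x‖ ^ 2 :=
    integral_nonneg fun x => by positivity
  have h5 : ‖h‖ ^ 2 ≤ (2 * R) ^ 2 := pow_le_pow_left₀ (norm_nonneg h) hh.le 2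
  exact mul_le_mul h5 h3 h4 (by positivity)

/-- module smb. Poincare inequality on a ball for functions vanishing on the set `Z`:
`|Z ∩ B| ∫_B L² ≤ ∫_B ∫_B |L(x) - L(y)|² dx dy ≤ ∫_{|h|<2R} ∫_B |L(x+h)-L(x)|² dx dh ≤ C ∫_{ball 0 (3R)} |∇L|²`
(`transl_ball`). -/
theorem poincare {R : ℝ} (hR : 0 < R) : ∃ C : ℝ, ∀ (L : H1 N) (Z : Set (E N)), MeasurableSet Z →
    Z ⊆ Metric.ball 0 R → (∀ᵐ x : E N, x ∈ Z → fn L x = 0) →
      (volume Z).toReal * ∫ x in Metric.ball (0 : E N) R, fn L x ^ 2 ≤
        C * ∫ x in Metric.ball (0 : E N) (3 * R), ‖gr L x‖ ^ 2 := by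
  refine ⟨(volume (Metric.ball (0 : E N) (2 * R))).toReal * (2 * R) ^ 2, ?_⟩
  intro L Z hZm hZB hZ
  have hm := smb_meas L
  have hB : volume (Metric.ball (0 : E N) (2 * R)) ≠ ⊤ := measure_ball_lt_top.ne
  have hZt : volume Z ≠ ⊤ := ((measure_mono hZB).trans_lt measure_ball_lt_top).ne
  have hI2 : Integrable (fun x => fn L x ^ 2) := (fn_memLp L).integrable_sq
  set G := ∫ x in Metric.ball (0 : E N) (3 * R), ‖gr L x‖ ^ 2 with hG
  have hG0 : 0 ≤ G := integral_nonneg fun x => by positivity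
  -- the double integral
  have h1 : volume Z * ∫⁻ x in Metric.ball (0 : E N) R, ENNReal.ofReal (fn L x ^ 2) =
      ∫⁻ y in Z, ∫⁻ x in Metric.ball (0 : E N) R, ENNReal.ofReal ((fn L x - fn L y) ^ 2) := by
    rw [mul_comm, ← setLIntegral_const]
    refine setLIntegral_congr_fun_ae hZm ?_
    filter_upwards [hZ] with y hy hyZ
    rw [hy hyZ]
    simp only [sub_zero]
  have h2 : ∫⁻ y in Z, ∫⁻ x in Metric.ball (0 : E N) R, ENNReal.ofReal ((fn L x - fn L y) ^ 2) ≤
      ∫⁻ y in Metric.ball (0 : E N) R, ∫⁻ h in Metric.ball (0 : E N) (2 * R),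
        ENNReal.ofReal ((fn L (y + h) - fn L y) ^ 2) := by
    refine le_trans (lintegral_mono_set hZB) ?_
    refine setLIntegral_mono' measurableSet_ball fun y hy => ?_
    exact smb_shift (fun x => ENNReal.ofReal ((fn L x - fn L y) ^ 2)) hy
  have h3 : ∫⁻ y in Metric.ball (0 : E N) R, ∫⁻ h in Metric.ball (0 : E N) (2 * R),
        ENNReal.ofReal ((fn L (y + h) - fn L y) ^ 2) =
      ∫⁻ h in Metric.ball (0 : E N) (2 * R), ∫⁻ y in Metric.ball (0 : E N) R,
        ENNReal.ofReal ((fn L (y + h) - fn L y) ^ 2) := by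
    refine lintegral_lintegral_swap ?_
    refine Measurable.aemeasurable ?_
    exact (((hm.comp (measurable_fst.add measurable_snd)).sub
      (hm.comp measurable_fst)).pow_const 2).ennreal_ofReal
  have h4 : ∫⁻ h in Metric.ball (0 : E N) (2 * R), ∫⁻ y in Metric.ball (0 : E N) R,
        ENNReal.ofReal ((fn L (y + h) - fn L y) ^ 2) ≤
      ENNReal.ofReal ((2 * R) ^ 2 * G) * volume (Metric.ball (0 : E N) (2 * R)) := by
    rw [← setLIntegral_const]
    exact setLIntegral_mono' measurableSet_ball fun h hh => smb_transl L hh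
  have h5 : volume Z * ∫⁻ x in Metric.ball (0 : E N) R, ENNReal.ofReal (fn L x ^ 2) ≤
      ENNReal.ofReal ((2 * R) ^ 2 * G) * volume (Metric.ball (0 : E N) (2 * R)) := by
    rw [h1]
    exact h2.trans (h3.le.trans h4)
  rw [← ofReal_integral_eq_lintegral_ofReal hI2.integrableOn
    (Filter.Eventually.of_forall fun x => sq_nonneg _)] at h5
  have h6 := ENNReal.toReal_mono (ENNReal.mul_ne_top ENNReal.ofReal_ne_top hB) h5
  rw [ENNReal.toReal_mul, ENNReal.toReal_mul,
    ENNReal.toReal_ofReal (integral_nonneg fun x => sq_nonneg _),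
    ENNReal.toReal_ofReal (mul_nonneg (sq_nonneg _) hG0)] at h6
  calc (volume Z).toReal * ∫ x in Metric.ball (0 : E N) R, fn L x ^ 2
      ≤ (2 * R) ^ 2 * G * (volume (Metric.ball (0 : E N) (2 * R))).toReal := h6
    _ = _ := by ring

/-- module smb. Strong maximum principle: a nonnegative supersolution which vanishes on a set of positive measure is zero:
`|Z| ∫_B log(1+w/ε)² ≤ C` for all `ε > 0`, so `w = 0` a.e. on every large ball (`Z` = zero set of a measurable
representative in the ball). -/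
theorem max_princ {l : ℝ} (hl : 0 < l) {w : H1 N} (h0 : ∀ᵐ x : E N, 0 ≤ fn w x)
    (h : ∀ z : H1 N, (∀ᵐ x : E N, 0 ≤ fn z x) → 0 ≤ ip l w z) (hw : w ≠ 0) :
    ∀ᵐ x : E N, fn w x ≠ 0 := by
  have hm := smb_meas w
  by_contra hcon
  apply hw
  have hZ0 : MeasurableSet {x : E N | fn w x = 0} := hm (measurableSet_singleton 0)
  have hpos : volume {x : E N | fn w x = 0} ≠ 0 := by
    intro h1
    apply hcon
    rw [ae_iff]
    simpa using h1
  -- a ball which contains a part of the zero set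
  obtain ⟨n0, hn0⟩ : ∃ n : ℕ, volume ({x : E N | fn w x = 0} ∩ Metric.ball 0 n) ≠ 0 := by
    by_contra hc
    push Not at hc
    apply hpos
    have h1 : {x : E N | fn w x = 0} = ⋃ n : ℕ, ({x : E N | fn w x = 0} ∩ Metric.ball 0 n) := by
      rw [← Set.inter_iUnion, Metric.iUnion_ball_nat, Set.inter_univ]
    rw [h1]
    exact measure_iUnion_null hc
  -- on every larger ball `w` is small
  have hkey : ∀ n : ℕ, n0 ≤ n → 0 < n → ∀ d : ℝ, 0 < d →
      volume.restrict (Metric.ball (0 : E N) n) {x | d ≤ fn w x} = 0 := by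
    intro n hn hn1 d hd
    have hR : (0 : ℝ) < n := by exact_mod_cast hn1
    obtain ⟨C1, hC1⟩ := poincare (N := N) hR
    obtain ⟨C2, hC2⟩ := log_est hl h0 h (3 * (n : ℝ))
    set Z := {x : E N | fn w x = 0} ∩ Metric.ball 0 (n : ℝ) with hZ
    have hZm : MeasurableSet Z := hZ0.inter measurableSet_ball
    have hZp : 0 < (volume Z).toReal := by
      rw [ENNReal.toReal_pos_iff]
      refine ⟨?_, (measure_mono Set.inter_subset_right).trans_lt measure_ball_lt_top⟩
      rw [pos_iff_ne_zero]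
      intro h1
      apply hn0
      refine measure_mono_null ?_ h1
      exact Set.inter_subset_inter_right _ (Metric.ball_subset_ball (by exact_mod_cast hn))
    have hfin : volume.restrict (Metric.ball (0 : E N) n) {x | d ≤ fn w x} ≠ ⊤ := by
      refine ((measure_mono (Set.subset_univ _)).trans_lt ?_).ne
      rw [Measure.restrict_apply_univ]
      exact measure_ball_lt_top
    have hest : ∀ e : ℝ, 0 < e → (volume Z).toReal *
        (Real.log (1 + d / e) ^ 2 *
          (volume.restrict (Metric.ball (0 : E N) n) {x | d ≤ fn w x}).toReal) ≤ |C1| * |C2| := by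
      intro e he
      obtain ⟨L, hL1, hL2⟩ := hC2 e he
      have h1 := hC1 L Z hZm Set.inter_subset_right (by
        filter_upwards [hL1] with x hx hxZ
        have h2 : fn w x = 0 := hxZ.1
        rw [hx, h2, zero_div, add_zero, Real.log_one])
      have h2 : Real.log (1 + d / e) ^ 2 *
          (volume.restrict (Metric.ball (0 : E N) n) {x | d ≤ fn w x}).toReal ≤
          ∫ x in Metric.ball (0 : E N) n, fn L x ^ 2 := by
        have h3 : Integrable (fun x => fn L x ^ 2) (volume.restrict (Metric.ball (0 : E N) n)) :=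
          ((fn_memLp L).integrable_sq).integrableOn
        have h4 := mul_meas_ge_le_integral_of_nonneg
          (Filter.Eventually.of_forall fun x => sq_nonneg (fn L x)) h3 (Real.log (1 + d / e) ^ 2)
        refine le_trans (mul_le_mul_of_nonneg_left ?_ (sq_nonneg _)) h4
        refine ENNReal.toReal_mono ?_ ?_
        · refine ((measure_mono (Set.subset_univ _)).trans_lt ?_).ne
          rw [Measure.restrict_apply_univ]
          exact measure_ball_lt_top
        · refine measure_mono_ae ?_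
          filter_upwards [ae_restrict_of_ae hL1] with x hx hdx
          have hdx' : d ≤ fn w x := hdx
          show Real.log (1 + d / e) ^ 2 ≤ fn L x ^ 2
          rw [hx]
          have h5 : 0 ≤ d / e := (div_pos hd he).le
          refine pow_le_pow_left₀ (Real.log_nonneg (by linarith)) ?_ 2
          refine Real.log_le_log (by linarith) ?_
          have := div_le_div_of_nonneg_right hdx' he.le
          linarith
      calc _ ≤ (volume Z).toReal * ∫ x in Metric.ball (0 : E N) n, fn L x ^ 2 :=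
            mul_le_mul_of_nonneg_left h2 hZp.le
        _ ≤ C1 * ∫ x in Metric.ball (0 : E N) (3 * n), ‖gr L x‖ ^ 2 := h1
        _ ≤ |C1| * ∫ x in Metric.ball (0 : E N) (3 * n), ‖gr L x‖ ^ 2 :=
            mul_le_mul_of_nonneg_right (le_abs_self _) (integral_nonneg fun x => by positivity)
        _ ≤ |C1| * |C2| :=
            mul_le_mul_of_nonneg_left (hL2.trans (le_abs_self _)) (abs_nonneg _)
    by_contra hne
    have hmp : 0 < (volume.restrict (Metric.ball (0 : E N) n) {x | d ≤ fn w x}).toReal :=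
      ENNReal.toReal_pos hne hfin
    -- choose `e` with `log (1 + d / e)` large
    set q := (volume Z).toReal *
      (volume.restrict (Metric.ball (0 : E N) n) {x | d ≤ fn w x}).toReal with hq
    have hq0 : 0 < q := mul_pos hZp hmp
    set t := 1 + (|C1| * |C2|) / q with ht
    have ht1 : 1 ≤ t := by
      have : 0 ≤ (|C1| * |C2|) / q := by positivity
      linarith
    have h6 := hest (d / (Real.exp t - 1)) (by
      have : 1 < Real.exp t := Real.one_lt_exp_iff.2 (by linarith)
      exact div_pos hd (by linarith))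
    have h7 : Real.log (1 + d / (d / (Real.exp t - 1))) = t := by
      have h8 : 1 < Real.exp t := Real.one_lt_exp_iff.2 (by linarith)
      have h9 : Real.exp t - 1 ≠ 0 := by linarith
      have h10 : 1 + d / (d / (Real.exp t - 1)) = Real.exp t := by
        field_simp
        ring
      rw [h10, Real.log_exp]
    rw [h7] at h6
    have h8 : q * t ^ 2 ≤ |C1| * |C2| := by
      calc q * t ^ 2 = _ := by
            rw [hq]
            ring
        _ ≤ _ := h6
    have h9 : q * t = q + |C1| * |C2| := by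
      rw [ht]
      field_simp
    have h10 : 0 ≤ q * t * (t - 1) := mul_nonneg (mul_nonneg hq0.le (by linarith)) (by linarith)
    have h11 : q * t ^ 2 = q * t + q * t * (t - 1) := by ring
    linarith
  -- so `w` vanishes
  have hzero : ∀ᵐ x : E N, fn w x = 0 := by
    have h1 : ∀ n : ℕ, n0 ≤ n → 0 < n →
        ∀ᵐ x ∂(volume.restrict (Metric.ball (0 : E N) n)), fn w x ≤ 0 := by
      intro n hn hn1
      have h2 : ∀ k : ℕ, ∀ᵐ x ∂(volume.restrict (Metric.ball (0 : E N) n)),
          fn w x < 1 / ((k : ℝ) + 1) := by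
        intro k
        rw [ae_iff]
        have h3 := hkey n hn hn1 (1 / ((k : ℝ) + 1)) (by positivity)
        simpa using h3
      filter_upwards [ae_all_iff.2 h2] with x hx
      by_contra hc
      push Not at hc
      obtain ⟨k, hk⟩ := exists_nat_one_div_lt hc
      exact absurd (hx k) (not_lt.2 hk.le)
    have h2 : ∀ᵐ x : E N, fn w x ≤ 0 := by
      have h3 : ∀ n : ℕ, ∀ᵐ x : E N, x ∈ Metric.ball (0 : E N) ((n + n0 + 1 : ℕ) : ℝ) →
          fn w x ≤ 0 := fun n =>
        (ae_restrict_iff' measurableSet_ball).1 (h1 (n + n0 + 1) (by omega) (by omega))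
      filter_upwards [ae_all_iff.2 h3] with x hx
      obtain ⟨m, hm⟩ := exists_nat_gt ‖x‖
      refine hx m ?_
      rw [mem_ball_zero_iff]
      push_cast
      have : (0 : ℝ) ≤ n0 := Nat.cast_nonneg _
      linarith
    filter_upwards [h2, h0] with x b1 b2
    exact le_antisymm b1 b2
  apply H1_ext
  filter_upwards [hzero, fn_zero (N := N)] with x b1 b2
  rw [b1, b2]

/-- module smb -/
theorem GNo_ne_zero [Dim N] {l m : ℝ} (hl : 0 < l) (hm : 0 < m) {w : H1 N} (h : GNo l m w) :
    ∀ᵐ x : E N, fn w x ≠ 0 := by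
  obtain ⟨w', h1, -, -⟩ := abs_H' w
  have h2 := GNo_abs h h1
  have h3 : ∀ᵐ x : E N, 0 ≤ fn w' x := by
    filter_upwards [h1] with x hx
    rw [hx]
    exact abs_nonneg _
  have h4 := max_princ hl h3 (fun z hz => by
    rw [GNo_sol hl hm h2]
    refine mul_nonneg hm.le (integral_nonneg_of_ae ?_)
    filter_upwards [h3, hz] with x a b
    exact mul_nonneg (mul_nonneg (mul_nonneg a a) a) b) h2.1
  filter_upwards [h4, h1] with x a b c
  apply a
  rw [b, c, abs_zero]

end Sir
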