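import Pool.Agent.Sir.Tau
import Pool.Agent.Sir.Smp
/-!
# No ground state for `β < 0`
module: nea
-/

namespace Sir

open MeasureTheory Filter Topology

variable {N : ℕ}

/-- module nea. Proof: for a minimiser `a = μ1 P + β Q ≤ μ1 P`, and `a² ≥ S2(l1) P` gives
`a/4 ≥ S2(l1)/(4 μ1)` with equality only if `β Q = 0` and `a² = S2 P`; the same for `b`. By `level_neg` equality holds, so
`Q = 0` and `u`, `v` are `GNo`; but `fn u ≠ 0`, `fn v ≠ 0` a.e. (`GNo_ne_zero`), so `Q = ∫ u² v² > 0`. -/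
theorem no_GS_neg [Dim N] {l1 l2 m1 m2 be : ℝ} (h1 : 0 < l1) (h2 : 0 < l2) (hm1 : 0 < m1)
    (hm2 : 0 < m2) (hb : be < 0) : ¬ HasGS N l1 l2 m1 m2 be := by
  intro hG
  obtain ⟨u, v, -, hM⟩ := (HasGS_iff h1 h2).1 hG
  have hlev := level_neg h1 h2 hm1 hm2 hM
  have hN := hM.1
  rw [Neh_En hN] at hlev
  obtain ⟨hu, hv, ea, eb⟩ := hN
  have hP := Q4_pos hu
  have hR := Q4_pos hv
  have hQ := Q4_nonneg u v
  have s1 := S2_le h1 u
  have s2 := S2_le h2 v
  have a0 := ip_pos h1 hu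
  have b0 := ip_pos h2 hv
  have S10 := S2_pos (N := N) h1
  have S20 := S2_pos (N := N) h2
  have hbQ : be * Q4 u u v v ≤ 0 := mul_nonpos_of_nonpos_of_nonneg hb.le hQ
  have a1 : S2 N l1 / m1 ≤ ip l1 u u := by
    rw [div_le_iff₀ hm1]
    have k1 : S2 N l1 * ip l1 u u ≤ m1 * (S2 N l1 * Q4 u u u u) := by
      have := mul_le_mul_of_nonneg_left (show ip l1 u u ≤ m1 * Q4 u u u u by linarith) S10.le
      linarith
    have k2 : m1 * (S2 N l1 * Q4 u u u u) ≤ m1 * ip l1 u u ^ 2 :=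
      mul_le_mul_of_nonneg_left s1 hm1.le
    have k3 : S2 N l1 * ip l1 u u ≤ ip l1 u u * m1 * ip l1 u u := by
      calc _ ≤ m1 * ip l1 u u ^ 2 := k1.trans k2
        _ = _ := by ring
    exact le_of_mul_le_mul_right k3 a0
  have b1 : S2 N l2 / m2 ≤ ip l2 v v := by
    rw [div_le_iff₀ hm2]
    have k1 : S2 N l2 * ip l2 v v ≤ m2 * (S2 N l2 * Q4 v v v v) := by
      have := mul_le_mul_of_nonneg_left (show ip l2 v v ≤ m2 * Q4 v v v v by linarith) S20.le
      linarith
    have k2 : m2 * (S2 N l2 * Q4 v v v v) ≤ m2 * ip l2 v v ^ 2 :=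
      mul_le_mul_of_nonneg_left s2 hm2.le
    have k3 : S2 N l2 * ip l2 v v ≤ ip l2 v v * m2 * ip l2 v v := by
      calc _ ≤ m2 * ip l2 v v ^ 2 := k1.trans k2
        _ = _ := by ring
    exact le_of_mul_le_mul_right k3 b0
  have f1 : S2 N l1 / (4 * m1) = S2 N l1 / m1 / 4 := by
    field_simp
  have f2 : S2 N l2 / (4 * m2) = S2 N l2 / m2 / 4 := by
    field_simp
  rw [f1, f2] at hlev
  have a2 : ip l1 u u = S2 N l1 / m1 := by linarith
  have b2 : ip l2 v v = S2 N l2 / m2 := by linarith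
  -- `P = S2/m1²`
  have gu : m1 * Q4 u u u u ≤ ip l1 u u := by
    have k1 : S2 N l1 * Q4 u u u u ≤ ip l1 u u * (S2 N l1 / m1) := by
      calc _ ≤ ip l1 u u ^ 2 := s1
        _ = ip l1 u u * ip l1 u u := by ring
        _ = _ := by rw [← a2]
    have k2 : S2 N l1 * (m1 * Q4 u u u u) ≤ S2 N l1 * ip l1 u u := by
      have := mul_le_mul_of_nonneg_left k1 hm1.le
      have e : m1 * (ip l1 u u * (S2 N l1 / m1)) = S2 N l1 * ip l1 u u := by
        field_simp
      linarith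
    exact le_of_mul_le_mul_left k2 S10
  have gv : m2 * Q4 v v v v ≤ ip l2 v v := by
    have k1 : S2 N l2 * Q4 v v v v ≤ ip l2 v v * (S2 N l2 / m2) := by
      calc _ ≤ ip l2 v v ^ 2 := s2
        _ = ip l2 v v * ip l2 v v := by ring
        _ = _ := by rw [← b2]
    have k2 : S2 N l2 * (m2 * Q4 v v v v) ≤ S2 N l2 * ip l2 v v := by
      have := mul_le_mul_of_nonneg_left k1 hm2.le
      have e : m2 * (ip l2 v v * (S2 N l2 / m2)) = S2 N l2 * ip l2 v v := by
        field_simp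
      linarith
    exact le_of_mul_le_mul_left k2 S20
  have hQ0 : Q4 u u v v = 0 := by
    have k1 : be * Q4 u u v v = 0 := by linarith
    exact (mul_eq_zero.1 k1).resolve_left hb.ne
  have cu : ip l1 u u = m1 * Q4 u u u u := by
    rw [hQ0, mul_zero, add_zero] at ea
    exact ea
  have cv : ip l2 v v = m2 * Q4 v v v v := by
    rw [hQ0, mul_zero, add_zero] at eb
    exact eb
  have Gu : GNo l1 m1 u := by
    refine ⟨hu, cu, ?_⟩
    have : ip l1 u u ^ 2 = ip l1 u u * (m1 * Q4 u u u u) := by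
      rw [← cu]
      ring
    rw [this, a2]
    field_simp
  have Gv : GNo l2 m2 v := by
    refine ⟨hv, cv, ?_⟩
    have : ip l2 v v ^ 2 = ip l2 v v * (m2 * Q4 v v v v) := by
      rw [← cv]
      ring
    rw [this, b2]
    field_simp
  have nu := GNo_ne_zero h1 hm1 Gu
  have nv := GNo_ne_zero h2 hm2 Gv
  have hz : (fun x => fn u x * fn u x * fn v x * fn v x) =ᵐ[(volume : Measure (E N))] 0 := by
    refine (integral_eq_zero_iff_of_nonneg (fun x => ?_) (Q4_integrable u u v v)).1 hQ0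
    change 0 ≤ fn u x * fn u x * fn v x * fn v x
    have : fn u x * fn u x * fn v x * fn v x = (fn u x * fn v x) ^ 2 := by ring
    rw [this]
    positivity
  have hF : ∀ᵐ x : E N, False := by
    filter_upwards [nu, nv, hz] with x a b c
    have c' : fn u x * fn u x * fn v x * fn v x = 0 := c
    exact (mul_ne_zero (mul_ne_zero (mul_ne_zero a a) b) b) c'
  obtain ⟨x, hx⟩ := hF.exists
  exact hx

end Sir
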