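import Pool.Agent.Sir.Poh
import Pool.Agent.Sir.ND
/-!
# Uniform Step 6 : `μ1 = m`, `μ2 = m - h`, `l2 = l + s`, `h, s → 0`, `s ≠ 0` of any sign, `h + 2 al s ≥ c |s|`
(`al = m (4-N)/(4l)` the Pohozaev ratio)
modules: usa, usb, usc, usd, use, usf (variants of sia - sif)
-/

namespace Sir

open MeasureTheory Filter Topology

variable {N : ℕ}

private theorem usa_T [Dim N] (u v : H1 N) : ∃ T : H1 N, (∀ᵐ x : E N, 0 ≤ fn T x) ∧
    (∀ x y : H1 N, Q4 T T x y = Q4 u u x y + Q4 v v x y) ∧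
    ∀ l : ℝ, ip l T T ≤ ip l u u + ip l v v := by
  obtain ⟨T, h1, h2, h3⟩ := sqrt_H u v
  refine ⟨T, ?_, ?_, ?_⟩
  · filter_upwards [h1] with x hx
    rw [hx]
    exact Real.sqrt_nonneg _
  · intro x y
    unfold Q4
    rw [← integral_add (Q4_integrable u u x y) (Q4_integrable v v x y)]
    refine integral_congr_ae ?_
    filter_upwards [h1] with z hz
    rw [hz, Real.mul_self_sqrt (by positivity)]
    ring
  · intro l
    simp only [ip]
    rw [h3]
    linarith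

private theorem usa_P [Dim N] {u v T : H1 N}
    (h : ∀ x y : H1 N, Q4 T T x y = Q4 u u x y + Q4 v v x y) :
    Q4 T T T T = Q4 u u u u + 2 * Q4 u u v v + Q4 v v v v := by
  rw [h T T, Q4_swapp u u T T, Q4_swapp v v T T, h u u, h v v, Q4_swapp v v u u]
  ring

private theorem usa_lo {l s : ℝ} (h0 : 0 < l + s) (v : H1 N) :
    |ip l v v - ip (l + s) v v| ≤ |s| / (l + s) * ip (l + s) v v := by
  have h1 : ip l v v - ip (l + s) v v = -(s * gY v v) := by
    simp only [ip]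
    ring
  have h2 := gY_nonneg v
  have h3 : (l + s) * gY v v ≤ ip (l + s) v v := gY_le_ip v
  rw [h1, abs_neg, abs_mul, abs_of_nonneg h2, div_mul_eq_mul_div, le_div_iff₀ h0]
  calc |s| * gY v v * (l + s) = |s| * ((l + s) * gY v v) := by ring
    _ ≤ |s| * ip (l + s) v v := mul_le_mul_of_nonneg_left h3 (abs_nonneg _)

/-- static bounds: `S2 P4 ≤ (1+δ)² X²` and `X ≤ M P4` -/
private theorem usa_stat [Dim N] {l m s h be : ℝ} (hl : 0 < l) (h0 : 0 < l + s)
    {u v : H1 N} (hN : Neh l (l + s) m (m - h) be u v) :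
    S2 N l * (Q4 u u u u + 2 * Q4 u u v v + Q4 v v v v) ≤
      ((1 + |s| / (l + s)) * (ip l u u + ip (l + s) v v)) ^ 2 ∧
    ip l u u + ip (l + s) v v ≤ max m (max (m - h) be) *
      (Q4 u u u u + 2 * Q4 u u v v + Q4 v v v v) := by
  obtain ⟨hu, hv, ha, hb⟩ := hN
  have P0 := Q4_nonneg u u
  have Q0 := Q4_nonneg u v
  have R0 := Q4_nonneg v v
  constructor
  · obtain ⟨T, -, hT, hi⟩ := usa_T u v
    have h1 := S2_le hl T
    rw [usa_P hT] at h1
    have h2 := ip_nonneg hl.le T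
    have h3 := hi l
    have h4 := (abs_le.1 (usa_lo h0 v)).2
    have h5 := ip_nonneg hl.le u
    have h6 : 0 ≤ |s| / (l + s) := by positivity
    have h7 : ip l T T ≤ (1 + |s| / (l + s)) * (ip l u u + ip (l + s) v v) := by
      nlinarith [mul_nonneg h6 h5]
    exact h1.trans (pow_le_pow_left₀ h2 h7 2)
  · rw [ha, hb]
    have h1 : m ≤ max m (max (m - h) be) := le_max_left _ _
    have h2 : m - h ≤ max m (max (m - h) be) := (le_max_left _ _).trans (le_max_right _ _)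
    have h3 : be ≤ max m (max (m - h) be) := (le_max_right _ _).trans (le_max_right _ _)
    have a1 := mul_le_mul_of_nonneg_right h1 P0
    have a2 := mul_le_mul_of_nonneg_right h2 R0
    have a3 := mul_le_mul_of_nonneg_right h3 Q0
    linarith

private theorem usa_S2 [Dim N] {l s : ℝ} (hl : 0 < l) (h0 : 0 < l + s) :
    S2 N (l + s) ≤ max 1 (((l + s) / l) ^ 2) * S2 N l := by
  have h1 := (S2_pos (N := N) hl).le
  rcases le_total 0 s with hs | hs
  · refine (S2_upper hl (by linarith)).trans ?_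
    exact mul_le_mul_of_nonneg_right (le_max_right _ _) h1
  · refine (S2_mono h0 (by linarith : l + s ≤ l)).trans ?_
    calc S2 N l = 1 * S2 N l := (one_mul _).symm
      _ ≤ _ := mul_le_mul_of_nonneg_right (le_max_left _ _) h1

/-- the sequence `X = a + b` and `P4` converge -/
private theorem usa_lim [Dim N] {l m : ℝ} (hl : 0 < l) (hm : 0 < m) (s h be : ℕ → ℝ) (u v : ℕ → H1 N)
    (hs : Tendsto s atTop (𝓝 0)) (hh : Tendsto h atTop (𝓝 0)) (hbe : Tendsto be atTop (𝓝 m))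
    (h0 : ∀ n, 0 < l + s n) (hm0 : ∀ n, 0 < m - h n)
    (hN : ∀ n, Neh l (l + s n) m (m - h n) (be n) (u n) (v n))
    (hE : ∀ n, En l (l + s n) m (m - h n) (be n) (u n) (v n) ≤ S2 N (l + s n) / (4 * (m - h n))) :
    Tendsto (fun n => ip l (u n) (u n) + ip (l + s n) (v n) (v n)) atTop (𝓝 (S2 N l / m)) ∧
    Tendsto (fun n => Q4 (u n) (u n) (u n) (u n) + 2 * Q4 (u n) (u n) (v n) (v n) +
      Q4 (v n) (v n) (v n) (v n)) atTop (𝓝 (S2 N l / m ^ 2)) ∧
    Tendsto (fun n => |s n| / (l + s n)) atTop (𝓝 0) := by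
  have S0 : 0 < S2 N l := S2_pos hl
  have hls : Tendsto (fun n => l + s n) atTop (𝓝 l) := by
    simpa using hs.const_add l
  have hd : Tendsto (fun n => |s n| / (l + s n)) atTop (𝓝 0) := by
    have h1 := hs.abs.div hls hl.ne'
    rw [abs_zero, zero_div] at h1
    exact h1
  have hmh : Tendsto (fun n => m - h n) atTop (𝓝 m) := by
    simpa using hh.const_sub m
  have hM : Tendsto (fun n => max m (max (m - h n) (be n))) atTop (𝓝 m) := by
    have := (tendsto_const_nhds (x := m)).max (hmh.max hbe)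
    simpa using this
  have hM0 : ∀ n, 0 < max m (max (m - h n) (be n)) := fun n => lt_max_of_lt_left hm
  have hK : Tendsto (fun n => max 1 (((l + s n) / l) ^ 2)) atTop (𝓝 1) := by
    have h1 : Tendsto (fun n => (l + s n) / l) atTop (𝓝 1) := by
      have := hls.div_const l
      rwa [div_self hl.ne'] at this
    have := (tendsto_const_nhds (x := (1 : ℝ))).max (h1.pow 2)
    simpa using this
  have hX0 : ∀ n, 0 < ip l (u n) (u n) + ip (l + s n) (v n) (v n) := fun n =>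
    add_pos (ip_pos hl (hN n).1) (ip_pos (h0 n) (hN n).2.1)
  have hup : ∀ n, ip l (u n) (u n) + ip (l + s n) (v n) (v n) ≤
      max 1 (((l + s n) / l) ^ 2) * S2 N l / (m - h n) := by
    intro n
    have h1 := hE n
    rw [Neh_En (hN n)] at h1
    have h2 : S2 N (l + s n) / (4 * (m - h n)) = S2 N (l + s n) / (m - h n) / 4 := by
      rw [div_div, mul_comm]
    rw [h2] at h1
    have h3 : S2 N (l + s n) / (m - h n) ≤ max 1 (((l + s n) / l) ^ 2) * S2 N l / (m - h n) :=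
      div_le_div_of_nonneg_right (usa_S2 hl (h0 n)) (hm0 n).le
    linarith
  have hdn : ∀ n, 0 ≤ |s n| / (l + s n) := fun n => div_nonneg (abs_nonneg _) (h0 n).le
  have hlo : ∀ n, S2 N l / (max m (max (m - h n) (be n)) * (1 + |s n| / (l + s n)) ^ 2) ≤
      ip l (u n) (u n) + ip (l + s n) (v n) (v n) := by
    intro n
    obtain ⟨h1, h2⟩ := usa_stat hl (h0 n) (hN n)
    have h3 := hX0 n
    have h4 := hM0 n
    have h5 := hdn n
    set X := ip l (u n) (u n) + ip (l + s n) (v n) (v n)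
    set M := max m (max (m - h n) (be n))
    set D := 1 + |s n| / (l + s n)
    set P4 := Q4 (u n) (u n) (u n) (u n) + 2 * Q4 (u n) (u n) (v n) (v n) +
      Q4 (v n) (v n) (v n) (v n)
    have h6 : 0 < D := by
      have : D = 1 + |s n| / (l + s n) := rfl
      linarith
    rw [div_le_iff₀ (by positivity)]
    have h7 : S2 N l * X ≤ (M * (D * X) ^ 2) := by
      calc S2 N l * X ≤ S2 N l * (M * P4) := mul_le_mul_of_nonneg_left h2 S0.le
        _ = M * (S2 N l * P4) := by ring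
        _ ≤ M * (D * X) ^ 2 := mul_le_mul_of_nonneg_left h1 h4.le
    have h8 : S2 N l * X ≤ (X * (M * D ^ 2)) * X := by nlinarith [h7]
    exact le_of_mul_le_mul_right h8 h3
  have l1 : Tendsto (fun n => S2 N l / (max m (max (m - h n) (be n)) *
      (1 + |s n| / (l + s n)) ^ 2)) atTop (𝓝 (S2 N l / m)) := by
    have h1 : Tendsto (fun n => max m (max (m - h n) (be n)) *
      (1 + |s n| / (l + s n)) ^ 2) atTop (𝓝 (m * (1 + 0) ^ 2)) :=
      hM.mul ((hd.const_add 1).pow 2)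
    have h2 : m * (1 + 0) ^ 2 = m := by ring
    rw [h2] at h1
    exact Tendsto.div tendsto_const_nhds h1 hm.ne'
  have l2 : Tendsto (fun n => max 1 (((l + s n) / l) ^ 2) * S2 N l / (m - h n)) atTop
      (𝓝 (S2 N l / m)) := by
    have h1 := (hK.mul_const (S2 N l)).div hmh hm.ne'
    rwa [one_mul] at h1
  have hX : Tendsto (fun n => ip l (u n) (u n) + ip (l + s n) (v n) (v n)) atTop
      (𝓝 (S2 N l / m)) := tendsto_of_tendsto_of_tendsto_of_le_of_le l1 l2 hlo hup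
  refine ⟨hX, ?_, hd⟩
  have l3 : Tendsto (fun n => (ip l (u n) (u n) + ip (l + s n) (v n) (v n)) /
      max m (max (m - h n) (be n))) atTop (𝓝 (S2 N l / m ^ 2)) := by
    have h1 := hX.div hM hm.ne'
    have h2 : S2 N l / m / m = S2 N l / m ^ 2 := by rw [div_div, sq]
    rwa [h2] at h1
  have l4 : Tendsto (fun n => ((1 + |s n| / (l + s n)) * (ip l (u n) (u n) +
      ip (l + s n) (v n) (v n))) ^ 2 / S2 N l) atTop (𝓝 (S2 N l / m ^ 2)) := by
    have h1 := (((hd.const_add 1).mul hX).pow 2).div_const (S2 N l)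
    have h2 : ((1 + 0) * (S2 N l / m)) ^ 2 / S2 N l = S2 N l / m ^ 2 := by
      field_simp
      ring
    rwa [h2] at h1
  refine tendsto_of_tendsto_of_tendsto_of_le_of_le l3 l4 (fun n => ?_) (fun n => ?_)
  · show _ / _ ≤ _
    rw [div_le_iff₀ (hM0 n), mul_comm]
    exact (usa_stat hl (h0 n) (hN n)).2
  · show _ ≤ _ / _
    rw [le_div_iff₀ S0, mul_comm]
    exact (usa_stat hl (h0 n) (hN n)).1

/-- module usa. As `s6_conv`. Here `a + b = m P + (m-h) R + 2 be Q ≤ M n (P + 2Q + R)`, `M n = max m (max (m-h) be) → m`; if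
`l2 < l` use `ip l v v ≤ (l/l2) ip l2 v v`; `S2(l2)/(m-h) → S2(l)/m` (`S2_mono`, `S2_upper`). -/
theorem s6_conv' [Dim N] {l m : ℝ} (hl : 0 < l) (hm : 0 < m) (s h be : ℕ → ℝ) (u v : ℕ → H1 N)
    (hs : Tendsto s atTop (𝓝 0)) (hh : Tendsto h atTop (𝓝 0)) (hbe : Tendsto be atTop (𝓝 m))
    (h0 : ∀ n, 0 < l + s n) (hm0 : ∀ n, 0 < m - h n) (hb0 : ∀ n, 0 < be n)
    (hu : ∀ n, RD (u n)) (hv : ∀ n, RD (v n))
    (hN : ∀ n, Neh l (l + s n) m (m - h n) (be n) (u n) (v n))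
    (hE : ∀ n, En l (l + s n) m (m - h n) (be n) (u n) (v n) ≤ S2 N (l + s n) / (4 * (m - h n))) :
    ∃ (f : ℕ → ℕ) (w : H1 N) (c d : ℝ), StrictMono f ∧ GNo l m w ∧ RD w ∧ 0 ≤ c ∧ 0 ≤ d ∧
      c ^ 2 + d ^ 2 = 1 ∧ Tendsto (fun n => u (f n)) atTop (𝓝 (c • w)) ∧
      Tendsto (fun n => v (f n)) atTop (𝓝 (d • w)) := by
  obtain ⟨hX, hP4, hd⟩ := usa_lim hl hm s h be u v hs hh hbe h0 hm0 hN hE
  have S0 : 0 < S2 N l := S2_pos hl
  have hmh : Tendsto (fun n => m - h n) atTop (𝓝 m) := by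
    simpa using hh.const_sub m
  -- boundedness
  have hlo : ∀ n, |ip l (v n) (v n) - ip (l + s n) (v n) (v n)| ≤
      |s n| / (l + s n) * ip (l + s n) (v n) (v n) := fun n => usa_lo (h0 n) (v n)
  obtain ⟨MX, hMX⟩ := hX.bddAbove_range
  obtain ⟨MD, hMD⟩ := hd.bddAbove_range
  have hMX' : ∀ n, ip l (u n) (u n) + ip (l + s n) (v n) (v n) ≤ MX := fun n =>
    hMX (Set.mem_range_self n)
  have hMD' : ∀ n, |s n| / (l + s n) ≤ MD := fun n => hMD (Set.mem_range_self n)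
  obtain ⟨C, hC, hCn⟩ := norm_le_ip (N := N) hl
  have hbu : ∀ n, ‖u n‖ ≤ Real.sqrt (C * ((1 + MD) * MX)) := by
    intro n
    have h1 := hCn (u n)
    have h2 := hMX' n
    have h3 := ip_nonneg hl.le (u n)
    have h4 := ip_nonneg (h0 n).le (v n)
    have h5 : 0 ≤ |s n| / (l + s n) := div_nonneg (abs_nonneg _) (h0 n).le
    have h6 := hMD' n
    refine Real.le_sqrt_of_sq_le (h1.trans (mul_le_mul_of_nonneg_left ?_ hC.le))
    nlinarith [mul_nonneg (h5.trans h6) ((add_nonneg h3 h4).trans h2)]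
  have hbv : ∀ n, ‖v n‖ ≤ Real.sqrt (C * ((1 + MD) * MX)) := by
    intro n
    have h1 := hCn (v n)
    have h2 := hMX' n
    have h3 := ip_nonneg hl.le (u n)
    have h4 := ip_nonneg (h0 n).le (v n)
    have h5 : 0 ≤ |s n| / (l + s n) := div_nonneg (abs_nonneg _) (h0 n).le
    have h6 := hMD' n
    have h7 := (abs_le.1 (hlo n)).2
    refine Real.le_sqrt_of_sq_le (h1.trans (mul_le_mul_of_nonneg_left ?_ hC.le))
    have h8 : ip l (v n) (v n) ≤ (1 + |s n| / (l + s n)) * ip (l + s n) (v n) (v n) := by linarith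
    have h9 : (1 + |s n| / (l + s n)) * ip (l + s n) (v n) (v n) ≤ (1 + MD) * MX :=
      mul_le_mul (by linarith) (by linarith) h4 (by linarith)
    exact h8.trans h9
  obtain ⟨f1, u0, hf1, hw1⟩ := exists_WC u _ hbu
  obtain ⟨f2, v0, hf2, hw2⟩ := exists_WC (fun n => v (f1 n)) _ (fun n => hbv (f1 n))
  have hf : StrictMono (fun n => f1 (f2 n)) := hf1.comp hf2
  have hwu : WC (fun n => u (f1 (f2 n))) u0 := WC_comp hw1 hf2
  have hwv : WC (fun n => v (f1 (f2 n))) v0 := hw2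
  have hft : Tendsto (fun n => f1 (f2 n)) atTop atTop := hf.tendsto_atTop
  have ru : RD u0 := RD_WC hwu (fun n => hu _)
  have rv : RD v0 := RD_WC hwv (fun n => hv _)
  have cu := RD_comp hwu (fun n => hu _)
  have cv := RD_comp hwv (fun n => hv _)
  have tP := Q4_tendsto _ _ _ _ _ _ _ _ cu cu cu cu
  have tQ := Q4_tendsto _ _ _ _ _ _ _ _ cu cu cv cv
  have tR := Q4_tendsto _ _ _ _ _ _ _ _ cv cv cv cv
  have tb := hbe.comp hft
  have tm := hmh.comp hft
  have td := hd.comp hft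
  -- sum
  have e4 : Q4 u0 u0 u0 u0 + 2 * Q4 u0 u0 v0 v0 + Q4 v0 v0 v0 v0 = S2 N l / m ^ 2 :=
    tendsto_nhds_unique ((tP.add (tQ.const_mul 2)).add tR) (hP4.comp hft)
  have ta : Tendsto (fun n => ip l (u (f1 (f2 n))) (u (f1 (f2 n)))) atTop
      (𝓝 (m * Q4 u0 u0 u0 u0 + m * Q4 u0 u0 v0 v0)) := by
    have h1 := (tP.const_mul m).add (tb.mul tQ)
    refine h1.congr (fun n => ?_)
    exact (hN (f1 (f2 n))).2.2.1.symm
  have tbb : Tendsto (fun n => ip (l + s (f1 (f2 n))) (v (f1 (f2 n))) (v (f1 (f2 n)))) atTop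
      (𝓝 (m * Q4 v0 v0 v0 v0 + m * Q4 u0 u0 v0 v0)) := by
    have h1 := (tm.mul tR).add (tb.mul tQ)
    refine h1.congr (fun n => ?_)
    exact (hN (f1 (f2 n))).2.2.2.symm
  have tb0 : Tendsto (fun n => ip l (v (f1 (f2 n))) (v (f1 (f2 n)))) atTop
      (𝓝 (m * Q4 v0 v0 v0 v0 + m * Q4 u0 u0 v0 v0)) := by
    have h1 : Tendsto (fun n => ip l (v (f1 (f2 n))) (v (f1 (f2 n))) -
        ip (l + s (f1 (f2 n))) (v (f1 (f2 n))) (v (f1 (f2 n)))) atTop (𝓝 0) := by
      refine squeeze_zero_norm (fun n => ?_) (a := fun n => |s (f1 (f2 n))| / (l + s (f1 (f2 n))) *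
        ip (l + s (f1 (f2 n))) (v (f1 (f2 n))) (v (f1 (f2 n)))) ?_
      · exact hlo _
      · have := td.mul tbb
        rw [zero_mul] at this
        exact this
    have h2 := h1.add tbb
    rw [zero_add] at h2
    refine h2.congr (fun n => ?_)
    ring
  have lu : ip l u0 u0 ≤ m * Q4 u0 u0 u0 u0 + m * Q4 u0 u0 v0 v0 :=
    WC_lsc hwu hl.le ta (Eventually.of_forall fun n => le_rfl)
  have lv : ip l v0 v0 ≤ m * Q4 v0 v0 v0 v0 + m * Q4 u0 u0 v0 v0 :=
    WC_lsc hwv hl.le tb0 (Eventually.of_forall fun n => le_rfl)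
  obtain ⟨T, hT0, hT, hTi⟩ := usa_T u0 v0
  have hTP := usa_P hT
  rw [e4] at hTP
  have hTs := S2_le hl T
  rw [hTP] at hTs
  have hTi' := hTi l
  have hTn := ip_nonneg hl.le T
  have hsum : ip l u0 u0 + ip l v0 v0 ≤ S2 N l / m := by
    have h1 : m * (Q4 u0 u0 u0 u0 + 2 * Q4 u0 u0 v0 v0 + Q4 v0 v0 v0 v0) = S2 N l / m := by
      rw [e4]
      field_simp
    linarith
  have hge : S2 N l / m ≤ ip l T T := by
    refine le_of_sq_le_sq ?_ hTn
    calc (S2 N l / m) ^ 2 = S2 N l * (S2 N l / m ^ 2) := by ring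
      _ ≤ _ := hTs
  have hTe : ip l T T = S2 N l / m := le_antisymm (hTi'.trans hsum) hge
  have h4m : m * (Q4 u0 u0 u0 u0 + 2 * Q4 u0 u0 v0 v0 + Q4 v0 v0 v0 v0) = S2 N l / m := by
    rw [e4]
    field_simp
  have eu : ip l u0 u0 = m * Q4 u0 u0 u0 u0 + m * Q4 u0 u0 v0 v0 := by linarith
  have ev : ip l v0 v0 = m * Q4 v0 v0 v0 v0 + m * Q4 u0 u0 v0 v0 := by linarith
  have hTne : T ≠ 0 := by
    rintro rfl
    rw [Q4_zero1] at hTP
    have : 0 < S2 N l / m ^ 2 := by positivity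
    linarith
  have hG : GNo l m T := by
    refine ⟨hTne, ?_, ?_⟩
    · rw [hTe, hTP]
      field_simp
    · rw [hTe, hTP]
      ring
  have hTu : Q4 T T u0 u0 = Q4 u0 u0 u0 u0 + Q4 u0 u0 v0 v0 := by
    rw [hT, Q4_swapp v0 v0 u0 u0]
  have hTv : Q4 T T v0 v0 = Q4 u0 u0 v0 v0 + Q4 v0 v0 v0 v0 := hT _ _
  have cu0 := cs_eq' hl hm hG (z := u0) (by rw [eu, hTu]; linarith) hT0 ru.1
  have cv0 := cs_eq' hl hm hG (z := v0) (by rw [ev, hTv]; linarith) hT0 rv.1
  have hQT := Q4_pos hTne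
  have n1 : 0 ≤ Q4 T T u0 u0 / Q4 T T T T := div_nonneg (Q4_nonneg _ _) hQT.le
  have n2 : 0 ≤ Q4 T T v0 v0 / Q4 T T T T := div_nonneg (Q4_nonneg _ _) hQT.le
  set c := Real.sqrt (Q4 T T u0 u0 / Q4 T T T T) with hc
  set d := Real.sqrt (Q4 T T v0 v0 / Q4 T T T T) with hd'
  have hc0 : 0 ≤ c := Real.sqrt_nonneg _
  have hd0 : 0 ≤ d := Real.sqrt_nonneg _
  have hcd : c ^ 2 + d ^ 2 = 1 := by
    rw [hc, hd', Real.sq_sqrt n1, Real.sq_sqrt n2, ← add_div, hTu, hTv, div_eq_one_iff_eq hQT.ne',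
      hTP, ← e4]
    ring
  have hTr : RD T := by
    by_cases hcz : c = 0
    · have hdz : d ≠ 0 := by
        rintro hz
        rw [hcz, hz] at hcd
        norm_num at hcd
      have h1 : T = d⁻¹ • v0 := by
        rw [cv0, smul_smul, inv_mul_cancel₀ hdz, one_smul]
      rw [h1]
      exact RD_smul rv (inv_nonneg.2 hd0)
    · have h1 : T = c⁻¹ • u0 := by
        rw [cu0, smul_smul, inv_mul_cancel₀ hcz, one_smul]
      rw [h1]
      exact RD_smul ru (inv_nonneg.2 hc0)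
  refine ⟨fun n => f1 (f2 n), T, c, d, hf, hG, hTr, hc0, hd0, hcd, ?_, ?_⟩
  · rw [← cu0]
    exact WC_strong hwu hl (by rw [eu]; exact ta)
  · rw [← cv0]
    exact WC_strong hwv hl (by rw [ev]; exact tb0)

private theorem usb_ip {l : ℝ} {a b : ℕ → H1 N} {a0 b0 : H1 N} (ha : Tendsto a atTop (𝓝 a0))
    (hb : Tendsto b atTop (𝓝 b0)) : Tendsto (fun n => ip l (a n) (b n)) atTop (𝓝 (ip l a0 b0)) := by
  obtain ⟨C, hC, hb1⟩ := ip_bound (N := N) l
  have h1 : Tendsto (fun n => ip l (a n) (b n) - ip l a0 b0) atTop (𝓝 0) := by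
    refine squeeze_zero_norm (a := fun n => C * ‖a n - a0‖ * ‖b n‖ + C * ‖a0‖ * ‖b n - b0‖)
      (fun n => ?_) ?_
    · have h2 : ip l (a n) (b n) - ip l a0 b0 = ip l (a n - a0) (b n) + ip l a0 (b n - b0) := by
        rw [ip_sub_left, ip_sub_right]
        ring
      rw [h2, Real.norm_eq_abs]
      exact (abs_add_le _ _).trans (add_le_add (hb1 _ _) (hb1 _ _))
    · have h2 : Tendsto (fun n => ‖a n - a0‖) atTop (𝓝 0) := by
        have := (ha.sub_const a0).norm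
        rwa [sub_self, norm_zero] at this
      have h3 : Tendsto (fun n => ‖b n - b0‖) atTop (𝓝 0) := by
        have := (hb.sub_const b0).norm
        rwa [sub_self, norm_zero] at this
      have h4 := ((h2.const_mul C).mul hb.norm).add (h3.const_mul (C * ‖a0‖))
      have h5 : C * 0 * ‖b0‖ + C * ‖a0‖ * 0 = 0 := by ring
      rwa [h5] at h4
  have h2 := h1.add_const (ip l a0 b0)
  rw [zero_add] at h2
  refine h2.congr (fun n => ?_)
  ring

private theorem usb_gYe (u v : H1 N) : gY u v = ip 1 u v - ip 0 u v := by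
  simp only [ip]
  ring

private theorem usb_gY {a b : ℕ → H1 N} {a0 b0 : H1 N} (ha : Tendsto a atTop (𝓝 a0))
    (hb : Tendsto b atTop (𝓝 b0)) : Tendsto (fun n => gY (a n) (b n)) atTop (𝓝 (gY a0 b0)) := by
  rw [usb_gYe]
  refine ((usb_ip ha hb).sub (usb_ip ha hb)).congr (fun n => ?_)
  rw [usb_gYe]

private theorem usb_gYb : ∃ C : ℝ, 0 < C ∧ ∀ u v : H1 N, |gY u v| ≤ C * ‖u‖ * ‖v‖ := by
  obtain ⟨C1, h1, k1⟩ := ip_bound (N := N) 1
  obtain ⟨C0, h0, k0⟩ := ip_bound (N := N) 0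
  refine ⟨C1 + C0, by positivity, fun u v => ?_⟩
  rw [usb_gYe]
  refine (abs_sub _ _).trans ?_
  have := add_le_add (k1 u v) (k0 u v)
  linarith

private theorem usb_Q [Dim N] {a b c d : ℕ → H1 N} {a0 b0 c0 d0 : H1 N}
    (ha : Tendsto a atTop (𝓝 a0)) (hb : Tendsto b atTop (𝓝 b0)) (hc : Tendsto c atTop (𝓝 c0))
    (hd : Tendsto d atTop (𝓝 d0)) :
    Tendsto (fun n => Q4 (a n) (b n) (c n) (d n)) atTop (𝓝 (Q4 a0 b0 c0 d0)) :=
  Q4_tendsto _ _ _ _ _ _ _ _ (n4_tendsto ha) (n4_tendsto hb) (n4_tendsto hc) (n4_tendsto hd)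

/-- bounds of `g`, `h`, `t` by `K = h + 2 al sg t` -/
private theorem usb_K {m c0 al sg t h g : ℝ} (hm : 0 < m) (hc0 : 0 < c0) (hal : 0 < al)
    (hsg : sg = 1 ∨ sg = -1) (ht : 0 < t) (hb : 0 < m + g) (hb2 : m * (m - h) ≤ (m + g) ^ 2)
    (hK : (c0 - 2 * al * sg) * t ≤ h) (hg : g ≤ sg * t * al) :
    0 < h + 2 * al * sg * t ∧ c0 * t ≤ h + 2 * al * sg * t ∧
    t ≤ (1 + (1 + 2 * al) / c0) * (h + 2 * al * sg * t) ∧
    |h| ≤ (1 + (1 + 2 * al) / c0) * (h + 2 * al * sg * t) ∧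
    |g| ≤ (1 + (1 + 2 * al) / c0) * (h + 2 * al * sg * t) ∧
    (h + 2 * al * sg * t) / 2 - g ^ 2 / (2 * m) ≤ sg * t * al + g + h := by
  have h1 : c0 * t ≤ h + 2 * al * sg * t := by linarith
  have h2 : 0 < h + 2 * al * sg * t := lt_of_lt_of_le (by positivity) h1
  have h3 : t ≤ (h + 2 * al * sg * t) / c0 := by
    rw [le_div_iff₀ hc0]
    linarith
  have e1 : (1 + (1 + 2 * al) / c0) * (h + 2 * al * sg * t) = (h + 2 * al * sg * t) +
      (h + 2 * al * sg * t) / c0 + 2 * al * ((h + 2 * al * sg * t) / c0) := by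
    ring
  have h4 : 0 < (h + 2 * al * sg * t) / c0 := by positivity
  have h5 : 0 < al * ((h + 2 * al * sg * t) / c0) := by positivity
  have h6 : al * t ≤ al * ((h + 2 * al * sg * t) / c0) := mul_le_mul_of_nonneg_left h3 hal.le
  have hs : |sg * t * al| = al * t := by
    rcases hsg with rfl | rfl
    · rw [abs_of_nonneg (by positivity)]
      ring
    · rw [show (-1 : ℝ) * t * al = -(t * al) by ring, abs_neg, abs_of_nonneg (by positivity)]
      ring
  have hs1 := (abs_le.1 hs.le).1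
  have hs2 := (abs_le.1 hs.le).2
  have hh : |h| ≤ (h + 2 * al * sg * t) + 2 * al * ((h + 2 * al * sg * t) / c0) := by
    rw [abs_le]
    constructor <;> nlinarith
  refine ⟨h2, h1, ?_, ?_, ?_, ?_⟩
  · rw [e1]
    linarith
  · rw [e1]
    linarith
  · rw [abs_le]
    constructor
    · rcases le_total 0 g with hg0 | hg0
      · have : 0 ≤ (1 + (1 + 2 * al) / c0) * (h + 2 * al * sg * t) := by positivity
        linarith
      · have h7 : g ^ 2 ≤ -(m * g) := by nlinarith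
        have h8 : m * (-h) ≤ m * g := by nlinarith
        have h9 : -h ≤ g := le_of_mul_le_mul_left h8 hm
        have h10 := (abs_le.1 hh).2
        rw [e1]
        linarith
    · rw [e1]
      linarith
  · have h7 : -h / 2 - g ^ 2 / (2 * m) ≤ g := by
      have h8 : g ^ 2 / (2 * m) * (2 * m) = g ^ 2 := div_mul_cancel₀ _ (by positivity)
      have h9 : m * (-h / 2 - g ^ 2 / (2 * m)) ≤ m * g := by nlinarith
      exact le_of_mul_le_mul_left h9 hm
    linarith

/-- module usb. The limit is semitrivial. Write `sg ∈ {1,-1}`, `s n = sg t n`, `t n > 0`, `g = be - m`, `al = gY w w/Q4 w w w w`,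
`x = d²`. (II): `g Q - (g + h) R ≥ s gY v v` (`ip l v v = be Q + (m-h) R - s gY v v`). `tau_self`: `g ≤ sg al t`;
`be² ≥ m (m-h)`: `g ≥ -h/2 - C h²`. Hypothesis: `h ≥ (c0 - 2 al sg) t` with `c0 > 0`.
Pass to a subsequence with `k = h/t → k∞ ∈ [c0 - 2 al sg, ∞]`.
If `k∞ < ∞`: `γ = g/t` is bounded, `γ → γ∞ ∈ [-k∞/2, sg al]` (subsequence), and the limit of (II)/t with `d ≠ 0` is
`γ∞ (1-2x) - k∞ x - sg al ≥ 0`; the left side is affine in `γ∞`, at `γ∞ = sg al` it is `-x (2 sg al + k∞) ≤ -x c0 < 0`, at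
`γ∞ = -k∞/2` it is `-(k∞ + 2 sg al)/2 ≤ -c0/2 < 0`: contradiction.
If `k∞ = ∞`: divide (II) by `h`: `θ = lim g/h ∈ [-1/2, 0]`, `θ (1-2x) - x ≥ 0`: at `θ = 0`: `-x < 0`, at `θ = -1/2`: `-1/2 < 0`. -/
theorem s6_zero' [Dim N] {l m c0 : ℝ} (hl : 0 < l) (hm : 0 < m) (hc0 : 0 < c0) (sg : ℝ)
    (hsg : sg = 1 ∨ sg = -1) (t h be : ℕ → ℝ) (u v : ℕ → H1 N) (w : H1 N) (c d : ℝ)
    (hw : GNo l m w) (hc : 0 ≤ c) (hd : 0 ≤ d) (hcd : c ^ 2 + d ^ 2 = 1)
    (ht : ∀ n, 0 < t n) (ht0 : Tendsto t atTop (𝓝 0)) (hh : Tendsto h atTop (𝓝 0))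
    (hbe : Tendsto be atTop (𝓝 m))
    (h0 : ∀ n, 0 < l + sg * t n) (hm0 : ∀ n, 0 < m - h n) (hb0 : ∀ n, 0 < be n)
    (hb2 : ∀ n, m * (m - h n) ≤ be n ^ 2)
    (hhc : ∀ n, (c0 - 2 * (gY w w / Q4 w w w w) * sg) * t n ≤ h n)
    (htau : ∀ n, be n ≤ tau N l m (l + sg * t n))
    (hN : ∀ n, Neh l (l + sg * t n) m (m - h n) (be n) (u n) (v n))
    (hII : ∀ n, m * Q4 (u n) (u n) (v n) (v n) + be n * Q4 (v n) (v n) (v n) (v n) ≤
      ip l (v n) (v n))
    (h1 : Tendsto u atTop (𝓝 (c • w))) (h2 : Tendsto v atTop (𝓝 (d • w))) : d = 0 ∧ c = 1 := by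
  have hP : 0 < Q4 w w w w := Q4_pos hw.1
  have hY : 0 < gY w w := gY_pos hw.1
  set P := Q4 w w w w with hPd
  set al := gY w w / P with hal
  have hal0 : 0 < al := div_pos hY hP
  have hYP : gY w w = al * P := by rw [hal, div_mul_cancel₀ _ hP.ne']
  set A := 1 + (1 + 2 * al) / c0 with hA
  have hA0 : 0 < A := by positivity
  by_cases hd0 : d = 0
  · refine ⟨hd0, ?_⟩
    rw [hd0] at hcd
    nlinarith
  exfalso
  have hdp : 0 < d := lt_of_le_of_ne hd (Ne.symm hd0)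
  set x := d ^ 2 with hx
  have hx0 : 0 < x := by positivity
  have hc2 : c ^ 2 = 1 - x := by linarith
  have hx1 : 0 ≤ 1 - x := by rw [← hc2]; positivity
  -- limits
  have lQ : Tendsto (fun n => Q4 (u n) (u n) (v n) (v n)) atTop (𝓝 ((1 - x) * x * P)) := by
    have h3 := usb_Q h1 h1 h2 h2
    have h4 : Q4 (c • w) (c • w) (d • w) (d • w) = (1 - x) * x * P := by
      rw [Q4_smul1, Q4_smul2, Q4_smul3, Q4_smul4, ← hc2]
      ring
    rwa [h4] at h3
  have lR : Tendsto (fun n => Q4 (v n) (v n) (v n) (v n)) atTop (𝓝 (x ^ 2 * P)) := by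
    have h3 := usb_Q h2 h2 h2 h2
    have h4 : Q4 (d • w) (d • w) (d • w) (d • w) = x ^ 2 * P := by
      rw [Q4_smul1, Q4_smul2, Q4_smul3, Q4_smul4]
      ring
    rwa [h4] at h3
  have lY : Tendsto (fun n => gY (v n) (v n)) atTop (𝓝 (x * (al * P))) := by
    have h3 := usb_gY h2 h2
    have h4 : gY (d • w) (d • w) = x * (al * P) := by
      rw [gY_smul_left, gY_smul_right, hYP]
      ring
    rwa [h4] at h3
  have lg : Tendsto (fun n => be n - m) atTop (𝓝 0) := by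
    have := hbe.sub_const m
    rwa [sub_self] at this
  have key : ∀ n, x ^ 2 * P / 2 ≤ A * (|Q4 (u n) (u n) (v n) (v n) - (1 - x) * x * P| +
      2 * |Q4 (v n) (v n) (v n) (v n) - x ^ 2 * P| + |gY (v n) (v n) - x * (al * P)| +
      x ^ 2 * P * |be n - m| / (2 * m)) := by
    intro n
    have hg : be n - m ≤ sg * t n * al := by
      have h3 := (htau n).trans (tau_self hl hm (h0 n) hw)
      have h4 : l + sg * t n - l = sg * t n := by ring
      rw [h4] at h3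
      linarith
    obtain ⟨k1, k2, k3, k4, k5, k6⟩ := usb_K (c0 := c0) (al := al) (sg := sg) (t := t n) (h := h n)
      (g := be n - m) hm hc0 hal0 hsg (ht n) (by have := hb0 n; linarith)
      (by have := hb2 n; have e : m + (be n - m) = be n := by ring
          rw [e]; exact this) (by have := hhc n; exact this) hg
    set K := h n + 2 * al * sg * t n with hK
    have h3 := hII n
    have h4 : ip l (v n) (v n) = ip (l + sg * t n) (v n) (v n) - sg * t n * gY (v n) (v n) := by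
      simp only [ip]
      ring
    rw [h4, (hN n).2.2.2] at h3
    set Q := Q4 (u n) (u n) (v n) (v n)
    set R := Q4 (v n) (v n) (v n) (v n)
    set Y := gY (v n) (v n)
    set g := be n - m with hgd
    have hbn : be n = m + g := by rw [hgd]; ring
    rw [hbn] at h3
    set q := Q - (1 - x) * x * P with hq
    set r := R - x ^ 2 * P with hr
    set y := Y - x * (al * P) with hy
    have h5 : x * P * ((1 - x) * (sg * t n * al - g) + x * (sg * t n * al + g + h n)) ≤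
        g * q - (g + h n) * r - sg * t n * y := by
      rw [hq, hr, hy]
      nlinarith [h3]
    have h6 : 0 ≤ x * P * ((1 - x) * (sg * t n * al - g)) := by
      have : 0 ≤ sg * t n * al - g := by linarith
      positivity
    have b1 : g * q ≤ A * K * |q| := by
      refine (le_abs_self _).trans ?_
      rw [abs_mul]
      exact mul_le_mul_of_nonneg_right k5 (abs_nonneg _)
    have b2 : -((g + h n) * r) ≤ 2 * (A * K) * |r| := by
      refine (neg_le_abs _).trans ?_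
      rw [abs_mul]
      refine mul_le_mul_of_nonneg_right ((abs_add_le _ _).trans ?_) (abs_nonneg _)
      linarith
    have b3 : -(sg * t n * y) ≤ A * K * |y| := by
      refine (neg_le_abs _).trans ?_
      rw [abs_mul]
      refine mul_le_mul_of_nonneg_right ?_ (abs_nonneg _)
      have : |sg * t n| = t n := by
        rcases hsg with hh | hh <;> rw [hh]
        · rw [one_mul, abs_of_pos (ht n)]
        · rw [neg_one_mul, abs_neg, abs_of_pos (ht n)]
      rw [this]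
      exact k3
    have b4 : g ^ 2 / (2 * m) ≤ A * K * (|g| / (2 * m)) := by
      have e : g ^ 2 / (2 * m) = |g| * (|g| / (2 * m)) := by
        rw [← sq_abs g]
        ring
      rw [e]
      exact mul_le_mul_of_nonneg_right k5 (by positivity)
    have h7 : x ^ 2 * P * (K / 2 - A * K * (|g| / (2 * m))) ≤ A * K * |q| + 2 * (A * K) * |r| +
        A * K * |y| := by
      have h8 : K / 2 - A * K * (|g| / (2 * m)) ≤ sg * t n * al + g + h n := by linarith
      have h9 : x ^ 2 * P * (K / 2 - A * K * (|g| / (2 * m))) ≤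
          x ^ 2 * P * (sg * t n * al + g + h n) := mul_le_mul_of_nonneg_left h8 (by positivity)
      have h10 : x * P * ((1 - x) * (sg * t n * al - g) + x * (sg * t n * al + g + h n)) =
        x * P * ((1 - x) * (sg * t n * al - g)) + x ^ 2 * P * (sg * t n * al + g + h n) := by ring
      linarith
    have h8 : (x ^ 2 * P / 2) * K ≤ (A * (|q| + 2 * |r| + |y| + x ^ 2 * P * |g| / (2 * m))) * K := by
      have e : (A * (|q| + 2 * |r| + |y| + x ^ 2 * P * |g| / (2 * m))) * K =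
        A * K * |q| + 2 * (A * K) * |r| + A * K * |y| + x ^ 2 * P * (A * K * (|g| / (2 * m))) := by
        ring
      rw [e]
      linarith
    exact le_of_mul_le_mul_right h8 k1
  have lim : Tendsto (fun n => A * (|Q4 (u n) (u n) (v n) (v n) - (1 - x) * x * P| +
      2 * |Q4 (v n) (v n) (v n) (v n) - x ^ 2 * P| + |gY (v n) (v n) - x * (al * P)| +
      x ^ 2 * P * |be n - m| / (2 * m))) atTop (𝓝 0) := by
    have a1 := (lQ.sub_const ((1 - x) * x * P)).abs
    have a2 := ((lR.sub_const (x ^ 2 * P)).abs).const_mul 2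
    have a3 := (lY.sub_const (x * (al * P))).abs
    have a4 := ((lg.abs).const_mul (x ^ 2 * P)).div_const (2 * m)
    have a5 := (((a1.add a2).add a3).add a4).const_mul A
    simp only [sub_self, abs_zero, mul_zero, add_zero, zero_div] at a5
    exact a5
  have := ge_of_tendsto' lim key
  have : 0 < x ^ 2 * P / 2 := by positivity
  linarith

/-- module usc. As `s6_dir`. -/
theorem s6_dir' [Dim N] {l m : ℝ} (hl : 0 < l) (hm : 0 < m) (l2 m2 be : ℕ → ℝ) (u v : ℕ → H1 N)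
    (w : H1 N) (hw : GNo l m w) (hwr : RD w) (hl2 : Tendsto l2 atTop (𝓝 l)) (h0 : ∀ n, 0 < l2 n)
    (hm2 : Tendsto m2 atTop (𝓝 m))
    (hbe : Tendsto be atTop (𝓝 m)) (hv : ∀ n, RD (v n))
    (hN : ∀ n, Neh l (l2 n) m (m2 n) (be n) (u n) (v n)) (h1 : Tendsto u atTop (𝓝 w))
    (h2 : Tendsto v atTop (𝓝 0)) :
    ∃ ep : ℕ → ℝ, (∀ n, 0 < ep n) ∧ Tendsto ep atTop (𝓝 0) ∧
      Tendsto (fun n => (ep n)⁻¹ • v n) atTop (𝓝 w) := by
  have hW : 0 < ip l w w := ip_pos hl hw.1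
  have hb : ∀ n, 0 < ip (l2 n) (v n) (v n) := fun n => ip_pos (h0 n) (hN n).2.1
  have hdl : Tendsto (fun n => |l2 n - l|) atTop (𝓝 0) := by
    have h3 := (hl2.sub_const l).abs
    rwa [sub_self, abs_zero] at h3
  have hv0 : Tendsto (fun n => ‖v n‖) atTop (𝓝 0) := by simpa using h2.norm
  -- b → 0
  obtain ⟨C, hC, hCn⟩ := ip_le_norm (N := N) l
  have hbu : ∀ n, ip (l2 n) (v n) (v n) ≤ (1 + |l2 n - l| / l) * (C * ‖v n‖ ^ 2) := by
    intro n
    have h3 : ip (l2 n) (v n) (v n) = ip l (v n) (v n) + (l2 n - l) * gY (v n) (v n) := by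
      simp only [ip]
      ring
    have h4 := gY_nonneg (v n)
    have h5 : l * gY (v n) (v n) ≤ ip l (v n) (v n) := gY_le_ip _
    have h6 : (l2 n - l) * gY (v n) (v n) ≤ |l2 n - l| * gY (v n) (v n) :=
      mul_le_mul_of_nonneg_right (le_abs_self _) h4
    have h7 : |l2 n - l| * gY (v n) (v n) ≤ |l2 n - l| / l * ip l (v n) (v n) := by
      rw [div_mul_eq_mul_div, le_div_iff₀ hl]
      calc |l2 n - l| * gY (v n) (v n) * l = |l2 n - l| * (l * gY (v n) (v n)) := by ring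
        _ ≤ _ := mul_le_mul_of_nonneg_left h5 (abs_nonneg _)
    have h8 : 0 ≤ 1 + |l2 n - l| / l := by positivity
    calc ip (l2 n) (v n) (v n) ≤ (1 + |l2 n - l| / l) * ip l (v n) (v n) := by linarith
      _ ≤ _ := mul_le_mul_of_nonneg_left (hCn (v n)) h8
  have hb0 : Tendsto (fun n => ip (l2 n) (v n) (v n)) atTop (𝓝 0) := by
    refine squeeze_zero (fun n => (hb n).le) hbu ?_
    have h3 := ((hdl.div_const l).const_add 1).mul ((hv0.pow 2).const_mul C)
    have h4 : (1 + 0 / l) * (C * 0 ^ 2) = 0 := by ring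
    rwa [h4] at h3
  set ep : ℕ → ℝ := fun n => Real.sqrt (ip (l2 n) (v n) (v n) / ip l w w) with hep
  have hep0 : ∀ n, 0 < ep n := fun n => Real.sqrt_pos.2 (div_pos (hb n) hW)
  have heps : ∀ n, ep n ^ 2 = ip (l2 n) (v n) (v n) / ip l w w := fun n =>
    Real.sq_sqrt (div_pos (hb n) hW).le
  have hept : Tendsto ep atTop (𝓝 0) := by
    have h3 := (hb0.div_const (ip l w w)).sqrt
    rwa [zero_div, Real.sqrt_zero] at h3
  refine ⟨ep, hep0, hept, ?_⟩
  have hsc : ∀ (k : ℝ) (n : ℕ), ip k ((ep n)⁻¹ • v n) ((ep n)⁻¹ • v n) = ip k (v n) (v n) / ep n ^ 2 := by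
    intro k n
    rw [ip_smul_left, ip_smul_right]
    field_simp
  have h5 : ∀ n, ip (l2 n) ((ep n)⁻¹ • v n) ((ep n)⁻¹ • v n) = ip l w w := by
    intro n
    rw [hsc, heps]
    have := (hb n).ne'
    field_simp
  have h6 : Tendsto (fun n => ip l ((ep n)⁻¹ • v n) ((ep n)⁻¹ • v n)) atTop (𝓝 (ip l w w)) := by
    have h7 : Tendsto (fun n => ip l ((ep n)⁻¹ • v n) ((ep n)⁻¹ • v n) - ip l w w) atTop (𝓝 0) := by
      refine squeeze_zero_norm (a := fun n => |l2 n - l| / l2 n * ip l w w) (fun n => ?_) ?_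
      · have h8 := usa_lo (l := l) (s := l2 n - l) (by have := h0 n; linarith) ((ep n)⁻¹ • v n)
        have h9 : l + (l2 n - l) = l2 n := by ring
        rw [h9, h5] at h8
        exact h8
      · have h8 := (hdl.div hl2 hl.ne').mul_const (ip l w w)
        rw [zero_div, zero_mul] at h8
        exact h8
    have h8 := h7.add_const (ip l w w)
    rw [zero_add] at h8
    refine h8.congr (fun n => ?_)
    ring
  obtain ⟨C4, hC4, hQ4⟩ := Q4_bound (N := N)
  obtain ⟨C1, hC1, hn1⟩ := norm_le_ip (N := N) hl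
  obtain ⟨MB, hMB⟩ := h6.bddAbove_range
  have hMB' : ∀ n, ‖(ep n)⁻¹ • v n‖ ^ 2 ≤ C1 * MB := fun n =>
    (hn1 _).trans (mul_le_mul_of_nonneg_left (hMB (Set.mem_range_self n)) hC1.le)
  have hR : Tendsto (fun n => Q4 (v n) (v n) ((ep n)⁻¹ • v n) ((ep n)⁻¹ • v n)) atTop (𝓝 0) := by
    refine squeeze_zero (fun n => Q4_nonneg _ _) (g := fun n => C4 * ‖v n‖ ^ 2 * (C1 * MB))
      (fun n => ?_) ?_
    · refine (le_abs_self _).trans ((hQ4 _ _ _ _).trans ?_)
      calc C4 * ‖v n‖ * ‖v n‖ * ‖(ep n)⁻¹ • v n‖ * ‖(ep n)⁻¹ • v n‖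
          = C4 * ‖v n‖ ^ 2 * ‖(ep n)⁻¹ • v n‖ ^ 2 := by ring
        _ ≤ _ := mul_le_mul_of_nonneg_left (hMB' n) (by positivity)
    · have h8 := ((hv0.pow 2).const_mul C4).mul_const (C1 * MB)
      have h9 : C4 * 0 ^ 2 * (C1 * MB) = 0 := by ring
      rwa [h9] at h8
  have h7 : Tendsto (fun n => m * Q4 (u n) (u n) ((ep n)⁻¹ • v n) ((ep n)⁻¹ • v n)) atTop
      (𝓝 (ip l w w)) := by
    have e1 : ∀ n, be n * Q4 (u n) (u n) ((ep n)⁻¹ • v n) ((ep n)⁻¹ • v n) =
        ip l w w - m2 n * Q4 (v n) (v n) ((ep n)⁻¹ • v n) ((ep n)⁻¹ • v n) := by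
      intro n
      have h8 := (hN n).2.2.2
      have h9 := (hep0 n).ne'
      rw [← h5 n, hsc, h8, Q4_smul3, Q4_smul4, Q4_smul3, Q4_smul4]
      field_simp
      ring
    have h8 : Tendsto (fun n => be n * Q4 (u n) (u n) ((ep n)⁻¹ • v n) ((ep n)⁻¹ • v n)) atTop
        (𝓝 (ip l w w)) := by
      have h9 := (hm2.mul hR).const_sub (ip l w w)
      rw [mul_zero, sub_zero] at h9
      exact h9.congr (fun n => (e1 n).symm)
    have h9 : Tendsto (fun n => m / be n) atTop (𝓝 1) := by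
      have := (tendsto_const_nhds (x := m)).div hbe hm.ne'
      rwa [div_self hm.ne'] at this
    have h10 := h9.mul h8
    rw [one_mul] at h10
    refine h10.congr' ?_
    filter_upwards [hbe.eventually (lt_mem_nhds hm)] with n hn
    field_simp
  exact eig_conv hl hm hw hwr u (fun n => (ep n)⁻¹ • v n)
    (fun n => RD_smul (hv n) (inv_nonneg.2 (hep0 n).le)) (n4_tendsto h1) h6 h7

private theorem usd_sq [Dim N] {c e : ℝ} (hce : c ^ 2 + e ^ 2 = 1) (u v x y : H1 N) :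
    Q4 (c • u + e • v) (c • u + e • v) x y + Q4 (c • v - e • u) (c • v - e • u) x y =
      Q4 u u x y + Q4 v v x y := by
  have h1 := Q4_swap12 u v x y
  simp only [Q4_add1, Q4_add2, Q4_sub1, Q4_sub2, Q4_smul1, Q4_smul2]
  rw [Q4_swap12 v u x y]
  linear_combination (Q4 u u x y + Q4 v v x y) * hce

private theorem usd_b [Dim N] (u v y : H1 N) : Q4 v v u y = Q4 u v v y := by
  rw [Q4_swap23 v v u y, Q4_swap12 v u v y]

private theorem usd_c [Dim N] (u v y : H1 N) : Q4 u v u y = Q4 u u v y := Q4_swap23 u v u y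

/-- module usd. The rotated system with `m2 = m - h` (as `s6_rot`, one more term). -/
theorem s6_rot' [Dim N] {l m g s h c e : ℝ} {u v : H1 N} (hce : c ^ 2 + e ^ 2 = 1)
    (hS : Sol l (l + s) m (m - h) (m + g) u v) :
    (∀ y : H1 N, ip l (c • u + e • v) y =
      m * (Q4 (c • u + e • v) (c • u + e • v) (c • u + e • v) y +
        Q4 (c • v - e • u) (c • v - e • u) (c • u + e • v) y) +
      g * (c * Q4 v v u y + e * Q4 u u v y) - e * h * Q4 v v v y - e * s * gY v y) ∧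
    (∀ y : H1 N, ip l (c • v - e • u) y =
      m * (Q4 (c • u + e • v) (c • u + e • v) (c • v - e • u) y +
        Q4 (c • v - e • u) (c • v - e • u) (c • v - e • u) y) +
      g * (c * Q4 u u v y - e * Q4 v v u y) - c * h * Q4 v v v y - c * s * gY v y) := by
  obtain ⟨h1, h2⟩ := hS
  constructor
  · intro y
    have a1 := h1 y
    have a2 := h2 y
    have a3 : ip (l + s) v y = ip l v y + s * gY v y := by simp only [ip]; ring
    rw [usd_sq hce, ip_add_left, ip_smul_left, ip_smul_left]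
    simp only [Q4_add3, Q4_smul3]
    linear_combination c * a1 + e * a2 - e * a3
  · intro y
    have a1 := h1 y
    have a2 := h2 y
    have a3 : ip (l + s) v y = ip l v y + s * gY v y := by simp only [ip]; ring
    rw [usd_sq hce, ip_sub_left, ip_smul_left, ip_smul_left]
    simp only [Q4_sub3, Q4_smul3]
    linear_combination c * a2 - e * a1 - c * a3

/-- the angle -/
private theorem use_ce {P : ℝ} (hP : 0 < P) {A B ep : ℕ → ℝ} (hA : Tendsto A atTop (𝓝 P))
    (hB : Tendsto (fun n => B n / ep n) atTop (𝓝 P)) (hB0 : Tendsto B atTop (𝓝 0)) :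
    ∃ c e : ℕ → ℝ, (∀ n, c n ^ 2 + e n ^ 2 = 1) ∧ (∀ᶠ n in atTop, c n * B n - e n * A n = 0) ∧
      Tendsto c atTop (𝓝 1) ∧ Tendsto e atTop (𝓝 0) ∧
      Tendsto (fun n => e n / ep n) atTop (𝓝 1) := by
  have hA0 : ∀ᶠ n in atTop, 0 < A n := hA.eventually (lt_mem_nhds hP)
  have hr : Tendsto (fun n => Real.sqrt (A n ^ 2 + B n ^ 2)) atTop (𝓝 P) := by
    have h1 := ((hA.pow 2).add (hB0.pow 2)).sqrt
    have h2 : Real.sqrt (P ^ 2 + 0 ^ 2) = P := by
      rw [zero_pow two_ne_zero, add_zero, Real.sqrt_sq hP.le]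
    rwa [h2] at h1
  refine ⟨fun n => if 0 < A n then A n / Real.sqrt (A n ^ 2 + B n ^ 2) else 1,
    fun n => if 0 < A n then B n / Real.sqrt (A n ^ 2 + B n ^ 2) else 0, ?_, ?_, ?_, ?_, ?_⟩
  · intro n
    dsimp only
    split_ifs with h
    · have h1 : 0 < A n ^ 2 + B n ^ 2 := by positivity
      rw [div_pow, div_pow, Real.sq_sqrt h1.le, ← add_div, div_self h1.ne']
    · norm_num
  · filter_upwards [hA0] with n hn
    simp only [hn, if_true]
    ring
  · have h1 := hA.div hr hP.ne'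
    rw [div_self hP.ne'] at h1
    refine h1.congr' ?_
    filter_upwards [hA0] with n hn
    simp only [hn, if_true]
    rfl
  · have h1 := hB0.div hr hP.ne'
    rw [zero_div] at h1
    refine h1.congr' ?_
    filter_upwards [hA0] with n hn
    simp only [hn, if_true]
    rfl
  · have h1 := hB.div hr hP.ne'
    rw [div_self hP.ne'] at h1
    refine h1.congr' ?_
    filter_upwards [hA0] with n hn
    simp only [hn, if_true]
    show B n / ep n / _ = _
    rw [div_right_comm]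

/-- `‖V‖ ≤ C t ep` (one `n`) -/
private theorem use_V [Dim N] {l m Cq Cy B κ c1 g t h ep c e sg : ℝ} {u v w : H1 N} (hm : 0 < m)
    (hCq : 0 < Cq) (hCy : 0 < Cy) (hB : 1 ≤ B) (hκ : 0 < κ) (hc1 : 0 < c1) (ht : 0 < t)
    (hep : 0 < ep) (hep1 : ep ≤ 1) (hsg : sg = 1 ∨ sg = -1)
    (hQ : ∀ u v w z : H1 N, |Q4 u v w z| ≤ Cq * ‖u‖ * ‖v‖ * ‖w‖ * ‖z‖)
    (hY : ∀ u v : H1 N, |gY u v| ≤ Cy * ‖u‖ * ‖v‖) (hce : c ^ 2 + e ^ 2 = 1)
    (hS : Sol l (l + sg * t) m (m - h) (m + g) u v) (hu : ‖u‖ ≤ B) (hv : ‖v‖ ≤ B * ep)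
    (hg : |g| ≤ κ * t) (hh : |h| * ep ^ 2 ≤ t)
    (hco : m * Q4 w w (c • v - e • u) (c • v - e • u) + c1 * ‖c • v - e • u‖ ^ 2 ≤
      ip l (c • v - e • u) (c • v - e • u))
    (hsm : m * Cq * (‖c • u + e • v - w‖ * ‖c • u + e • v + w‖ + ‖c • v - e • u‖ ^ 2) ≤ c1 / 2) :
    ‖c • v - e • u‖ ≤ 2 / c1 * (2 * κ * Cq * B ^ 3 + Cq * B ^ 3 + Cy * B) * (t * ep) := by
  have hrot := (s6_rot' hce hS).2 (c • v - e • u)
  set U := c • u + e • v with hU
  set V := c • v - e • u with hV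
  have hc : |c| ≤ 1 := by rw [← sq_le_one_iff_abs_le_one]; nlinarith [sq_nonneg e]
  have he : |e| ≤ 1 := by rw [← sq_le_one_iff_abs_le_one]; nlinarith [sq_nonneg c]
  have hsa : |sg * t| = t := by
    rcases hsg with hh | hh <;> rw [hh]
    · rw [one_mul, abs_of_pos ht]
    · rw [neg_one_mul, abs_neg, abs_of_pos ht]
  have hVn := norm_nonneg V
  have hB0 : 0 < B := by linarith
  have e1 : Q4 U U V V - Q4 w w V V = Q4 (U - w) (U + w) V V := by
    rw [Q4_sub1, Q4_add2 U w U V V, Q4_add2 U w w V V, Q4_swap12 w U V V]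
    ring
  have b1 : |Q4 U U V V - Q4 w w V V| ≤ Cq * (‖U - w‖ * ‖U + w‖) * ‖V‖ ^ 2 := by
    rw [e1]
    refine (hQ _ _ _ _).trans (le_of_eq ?_)
    ring
  have b2 : |Q4 V V V V| ≤ Cq * ‖V‖ ^ 2 * ‖V‖ ^ 2 := by
    refine (hQ _ _ _ _).trans (le_of_eq ?_)
    ring
  have b3 : |Q4 u u v V| ≤ Cq * B ^ 3 * ep * ‖V‖ := by
    refine (hQ _ _ _ _).trans ?_
    have : ‖u‖ * ‖u‖ * ‖v‖ ≤ B * B * (B * ep) :=
      mul_le_mul (mul_le_mul hu hu (norm_nonneg _) hB0.le) hv (norm_nonneg _) (by positivity)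
    calc Cq * ‖u‖ * ‖u‖ * ‖v‖ * ‖V‖ = Cq * (‖u‖ * ‖u‖ * ‖v‖) * ‖V‖ := by ring
      _ ≤ Cq * (B * B * (B * ep)) * ‖V‖ := by gcongr
      _ = _ := by ring
  have b4 : |Q4 v v u V| ≤ Cq * B ^ 3 * ep * ‖V‖ := by
    refine (hQ _ _ _ _).trans ?_
    have : ‖v‖ * ‖v‖ * ‖u‖ ≤ (B * ep) * (B * 1) * B :=
      mul_le_mul (mul_le_mul hv (hv.trans (mul_le_mul_of_nonneg_left hep1 hB0.le))
        (norm_nonneg _) (by positivity)) hu (norm_nonneg _) (by positivity)
    calc Cq * ‖v‖ * ‖v‖ * ‖u‖ * ‖V‖ = Cq * (‖v‖ * ‖v‖ * ‖u‖) * ‖V‖ := by ring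
      _ ≤ Cq * ((B * ep) * (B * 1) * B) * ‖V‖ := by gcongr
      _ = _ := by ring
  have b5 : |Q4 v v v V| ≤ Cq * B ^ 3 * ep ^ 3 * ‖V‖ := by
    refine (hQ _ _ _ _).trans ?_
    have : ‖v‖ * ‖v‖ * ‖v‖ ≤ (B * ep) * (B * ep) * (B * ep) :=
      mul_le_mul (mul_le_mul hv hv (norm_nonneg _) (by positivity)) hv (norm_nonneg _)
        (by positivity)
    calc Cq * ‖v‖ * ‖v‖ * ‖v‖ * ‖V‖ = Cq * (‖v‖ * ‖v‖ * ‖v‖) * ‖V‖ := by ring
      _ ≤ Cq * ((B * ep) * (B * ep) * (B * ep)) * ‖V‖ := by gcongr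
      _ = _ := by ring
  have b6 : |gY v V| ≤ Cy * B * ep * ‖V‖ := by
    refine (hY _ _).trans ?_
    calc Cy * ‖v‖ * ‖V‖ ≤ Cy * (B * ep) * ‖V‖ := by gcongr
      _ = _ := by ring
  have d1 : g * (c * Q4 u u v V - e * Q4 v v u V) ≤ κ * t * (2 * (Cq * B ^ 3 * ep * ‖V‖)) := by
    refine (le_abs_self _).trans ?_
    rw [abs_mul]
    refine mul_le_mul hg ?_ (abs_nonneg _) (by positivity)
    refine (abs_sub _ _).trans ?_
    rw [abs_mul, abs_mul]
    have x1 := mul_le_mul hc b3 (abs_nonneg _) zero_le_one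
    have x2 := mul_le_mul he b4 (abs_nonneg _) zero_le_one
    linarith
  have d2 : -(c * h * Q4 v v v V) ≤ Cq * B ^ 3 * (t * ep) * ‖V‖ := by
    refine (neg_le_abs _).trans ?_
    rw [abs_mul, abs_mul]
    calc |c| * |h| * |Q4 v v v V| ≤ 1 * |h| * (Cq * B ^ 3 * ep ^ 3 * ‖V‖) := by gcongr
      _ = (|h| * ep ^ 2) * (Cq * B ^ 3 * ep * ‖V‖) := by ring
      _ ≤ t * (Cq * B ^ 3 * ep * ‖V‖) := by gcongr
      _ = _ := by ring
  have d3 : -(c * (sg * t) * gY v V) ≤ Cy * B * (t * ep) * ‖V‖ := by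
    refine (neg_le_abs _).trans ?_
    rw [abs_mul, abs_mul, hsa]
    calc |c| * t * |gY v V| ≤ 1 * t * (Cy * B * ep * ‖V‖) := by gcongr
      _ = _ := by ring
  have d4 : m * (Q4 U U V V - Q4 w w V V + Q4 V V V V) ≤ c1 / 2 * ‖V‖ ^ 2 := by
    have x1 := le_abs_self (Q4 U U V V - Q4 w w V V)
    have x2 := le_abs_self (Q4 V V V V)
    have x3 : Q4 U U V V - Q4 w w V V + Q4 V V V V ≤
        Cq * (‖U - w‖ * ‖U + w‖ + ‖V‖ ^ 2) * ‖V‖ ^ 2 := by
      calc Q4 U U V V - Q4 w w V V + Q4 V V V V ≤ Cq * (‖U - w‖ * ‖U + w‖) * ‖V‖ ^ 2 +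
            Cq * ‖V‖ ^ 2 * ‖V‖ ^ 2 := by linarith
        _ = _ := by ring
    calc m * (Q4 U U V V - Q4 w w V V + Q4 V V V V) ≤
          m * (Cq * (‖U - w‖ * ‖U + w‖ + ‖V‖ ^ 2) * ‖V‖ ^ 2) :=
            mul_le_mul_of_nonneg_left x3 hm.le
      _ = (m * Cq * (‖U - w‖ * ‖U + w‖ + ‖V‖ ^ 2)) * ‖V‖ ^ 2 := by ring
      _ ≤ _ := mul_le_mul_of_nonneg_right hsm (by positivity)
  have main : c1 / 2 * ‖V‖ ^ 2 ≤ (2 * κ * Cq * B ^ 3 + Cq * B ^ 3 + Cy * B) * (t * ep) * ‖V‖ := by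
    have x1 : ip l V V = m * (Q4 U U V V - Q4 w w V V + Q4 V V V V) + m * Q4 w w V V +
        g * (c * Q4 u u v V - e * Q4 v v u V) - c * h * Q4 v v v V - c * (sg * t) * gY v V := by
      rw [hrot]
      ring
    have x2 : (2 * κ * Cq * B ^ 3 + Cq * B ^ 3 + Cy * B) * (t * ep) * ‖V‖ =
        κ * t * (2 * (Cq * B ^ 3 * ep * ‖V‖)) + Cq * B ^ 3 * (t * ep) * ‖V‖ +
          Cy * B * (t * ep) * ‖V‖ := by ring
    rw [x2]
    linarith
  rcases hVn.eq_or_lt with h0 | h0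
  · rw [← h0]
    positivity
  · have x1 : c1 / 2 * ‖V‖ ≤ (2 * κ * Cq * B ^ 3 + Cq * B ^ 3 + Cy * B) * (t * ep) := by
      refine le_of_mul_le_mul_right ?_ h0
      calc c1 / 2 * ‖V‖ * ‖V‖ = c1 / 2 * ‖V‖ ^ 2 := by ring
        _ ≤ _ := main
    calc ‖V‖ = 2 / c1 * (c1 / 2 * ‖V‖) := by field_simp
      _ ≤ 2 / c1 * ((2 * κ * Cq * B ^ 3 + Cq * B ^ 3 + Cy * B) * (t * ep)) :=
          mul_le_mul_of_nonneg_left x1 (by positivity)
      _ = _ := by ring

/-- the equation of `z = U - w` -/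
private theorem use_id [Dim N] {l m g h c e s : ℝ} (hl : 0 < l) (hm : 0 < m) {u v w : H1 N}
    (hw : GNo l m w) (hce : c ^ 2 + e ^ 2 = 1) (hS : Sol l (l + s) m (m - h) (m + g) u v)
    (y : H1 N) :
    ip l (c • u + e • v - w) y - 3 * m * Q4 w w (c • u + e • v - w) y =
      m * (3 * Q4 w (c • u + e • v - w) (c • u + e • v - w) y +
        Q4 (c • u + e • v - w) (c • u + e • v - w) (c • u + e • v - w) y) +
      m * Q4 (c • v - e • u) (c • v - e • u) (c • u + e • v) y +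
      g * (c * Q4 v v u y + e * Q4 u u v y) - e * h * Q4 v v v y - e * s * gY v y := by
  have h1 := (s6_rot' hce hS).1 y
  have h2 := GNo_sol hl hm hw y
  set U := c • u + e • v with hU
  set V := c • v - e • u with hV
  set z := U - w with hz
  have hUz : U = w + z := by rw [hz]; abel
  have h3 : Q4 U U U y = Q4 w w w y + 3 * Q4 w w z y + 3 * Q4 w z z y + Q4 z z z y := by
    rw [hUz]
    simp only [Q4_add1, Q4_add2, Q4_add3]
    rw [Q4_swap12 z w w y, Q4_swap23 w z w y, Q4_swap23 z z w y, Q4_swap12 z w z y]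
    ring
  have h4 : ip l z y = ip l U y - ip l w y := by rw [hz, ip_sub_left]
  rw [h4, h1, h2, h3]
  ring

/-- the estimate of `z` (one `n`) -/
private theorem use_z [Dim N] {l m Cq Cy B κ CV g t h ep c e sg : ℝ} (hl : 0 < l) (hm : 0 < m)
    {u v w : H1 N} (hw : GNo l m w)
    (hCq : 0 < Cq) (hCy : 0 < Cy) (hB : 1 ≤ B) (hκ : 0 < κ) (hCV : 0 < CV) (ht : 0 < t)
    (ht1 : t ≤ 1) (hep : 0 < ep) (hep1 : ep ≤ 1) (hsg : sg = 1 ∨ sg = -1)
    (hQ : ∀ u v w z : H1 N, |Q4 u v w z| ≤ Cq * ‖u‖ * ‖v‖ * ‖w‖ * ‖z‖)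
    (hY : ∀ u v : H1 N, |gY u v| ≤ Cy * ‖u‖ * ‖v‖) (hce : c ^ 2 + e ^ 2 = 1)
    (hS : Sol l (l + sg * t) m (m - h) (m + g) u v) (hu : ‖u‖ ≤ B) (hv : ‖v‖ ≤ B * ep)
    (hwB : ‖w‖ ≤ B) (he : |e| ≤ 2 * ep)
    (hg : |g| ≤ κ * t) (hh : |h| * ep ^ 2 ≤ t) (hV : ‖c • v - e • u‖ ≤ CV * (t * ep))
    (hz1 : ‖c • u + e • v - w‖ ≤ 1) (y : H1 N) :
    |ip l (c • u + e • v - w) y - 3 * m * Q4 w w (c • u + e • v - w) y| ≤
      (m * Cq * (3 * B + 1) * ‖c • u + e • v - w‖ ^ 2 +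
        (2 * m * Cq * CV ^ 2 * B + 3 * κ * Cq * B ^ 3 + 2 * Cq * B ^ 3 + 2 * Cy * B) *
          (t * ep ^ 2)) * ‖y‖ := by
  rw [use_id hl hm hw hce hS y]
  have hB0 : 0 < B := by linarith
  have hc : |c| ≤ 1 := by rw [← sq_le_one_iff_abs_le_one]; nlinarith [sq_nonneg e]
  have he1 : |e| ≤ 1 := by rw [← sq_le_one_iff_abs_le_one]; nlinarith [sq_nonneg c]
  have hsa : |sg * t| = t := by
    rcases hsg with hh | hh <;> rw [hh]
    · rw [one_mul, abs_of_pos ht]
    · rw [neg_one_mul, abs_neg, abs_of_pos ht]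
  have hv1 : ‖v‖ ≤ B := hv.trans (by nlinarith)
  have hU : ‖c • u + e • v‖ ≤ 2 * B := by
    refine (norm_add_le _ _).trans ?_
    rw [norm_smul, norm_smul, Real.norm_eq_abs, Real.norm_eq_abs]
    have x1 := mul_le_mul hc hu (norm_nonneg _) zero_le_one
    have x2 := mul_le_mul he1 hv1 (norm_nonneg _) zero_le_one
    linarith
  set U := c • u + e • v with hUd
  set V := c • v - e • u with hVd
  set z := U - w with hzd
  have zn := norm_nonneg z
  have yn := norm_nonneg y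
  have b1 : |m * (3 * Q4 w z z y + Q4 z z z y)| ≤ m * Cq * (3 * B + 1) * ‖z‖ ^ 2 * ‖y‖ := by
    rw [abs_mul, abs_of_pos hm]
    have x1 : |Q4 w z z y| ≤ Cq * B * ‖z‖ ^ 2 * ‖y‖ := by
      refine (hQ _ _ _ _).trans ?_
      calc Cq * ‖w‖ * ‖z‖ * ‖z‖ * ‖y‖ ≤ Cq * B * ‖z‖ * ‖z‖ * ‖y‖ := by gcongr
        _ = _ := by ring
    have x2 : |Q4 z z z y| ≤ Cq * ‖z‖ ^ 2 * ‖y‖ := by
      refine (hQ _ _ _ _).trans ?_
      calc Cq * ‖z‖ * ‖z‖ * ‖z‖ * ‖y‖ ≤ Cq * ‖z‖ * ‖z‖ * 1 * ‖y‖ := by gcongr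
        _ = _ := by ring
    have x3 : |3 * Q4 w z z y + Q4 z z z y| ≤ Cq * (3 * B + 1) * ‖z‖ ^ 2 * ‖y‖ := by
      refine (abs_add_le _ _).trans ?_
      rw [abs_mul, abs_of_pos (by norm_num : (0 : ℝ) < 3)]
      calc 3 * |Q4 w z z y| + |Q4 z z z y| ≤ 3 * (Cq * B * ‖z‖ ^ 2 * ‖y‖) +
            Cq * ‖z‖ ^ 2 * ‖y‖ := by linarith
        _ = _ := by ring
    calc m * |3 * Q4 w z z y + Q4 z z z y| ≤ m * (Cq * (3 * B + 1) * ‖z‖ ^ 2 * ‖y‖) :=
          mul_le_mul_of_nonneg_left x3 hm.le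
      _ = _ := by ring
  have b2 : |m * Q4 V V U y| ≤ 2 * m * Cq * CV ^ 2 * B * (t * ep ^ 2) * ‖y‖ := by
    rw [abs_mul, abs_of_pos hm]
    have x1 : |Q4 V V U y| ≤ Cq * (CV * (t * ep)) * (CV * (1 * ep)) * (2 * B) * ‖y‖ := by
      refine (hQ _ _ _ _).trans ?_
      have : ‖V‖ ≤ CV * (1 * ep) := hV.trans (by gcongr)
      gcongr
    calc m * |Q4 V V U y| ≤ m * (Cq * (CV * (t * ep)) * (CV * (1 * ep)) * (2 * B) * ‖y‖) :=
          mul_le_mul_of_nonneg_left x1 hm.le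
      _ = _ := by ring
  have b3 : |g * (c * Q4 v v u y + e * Q4 u u v y)| ≤ 3 * κ * Cq * B ^ 3 * (t * ep ^ 2) * ‖y‖ := by
    rw [abs_mul]
    have x1 : |Q4 v v u y| ≤ Cq * (B * ep) * (B * ep) * B * ‖y‖ := by
      refine (hQ _ _ _ _).trans ?_
      gcongr
    have x2 : |Q4 u u v y| ≤ Cq * B * B * (B * ep) * ‖y‖ := by
      refine (hQ _ _ _ _).trans ?_
      gcongr
    have x3 : |c * Q4 v v u y + e * Q4 u u v y| ≤ 3 * Cq * B ^ 3 * ep ^ 2 * ‖y‖ := by
      refine (abs_add_le _ _).trans ?_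
      rw [abs_mul, abs_mul]
      calc |c| * |Q4 v v u y| + |e| * |Q4 u u v y| ≤ 1 * (Cq * (B * ep) * (B * ep) * B * ‖y‖) +
            (2 * ep) * (Cq * B * B * (B * ep) * ‖y‖) := by gcongr
        _ = _ := by ring
    calc |g| * |c * Q4 v v u y + e * Q4 u u v y| ≤ (κ * t) * (3 * Cq * B ^ 3 * ep ^ 2 * ‖y‖) := by
          gcongr
      _ = _ := by ring
  have b4 : |e * h * Q4 v v v y| ≤ 2 * Cq * B ^ 3 * (t * ep ^ 2) * ‖y‖ := by
    rw [abs_mul, abs_mul]
    have x1 : |Q4 v v v y| ≤ Cq * (B * ep) * (B * ep) * (B * ep) * ‖y‖ := by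
      refine (hQ _ _ _ _).trans ?_
      gcongr
    calc |e| * |h| * |Q4 v v v y| ≤ (2 * ep) * |h| *
          (Cq * (B * ep) * (B * ep) * (B * ep) * ‖y‖) := by gcongr
      _ = 2 * Cq * B ^ 3 * ((|h| * ep ^ 2) * ep ^ 2) * ‖y‖ := by ring
      _ ≤ _ := by gcongr
  have b5 : |e * (sg * t) * gY v y| ≤ 2 * Cy * B * (t * ep ^ 2) * ‖y‖ := by
    rw [abs_mul, abs_mul, hsa]
    have x1 : |gY v y| ≤ Cy * (B * ep) * ‖y‖ := by
      refine (hY _ _).trans ?_
      gcongr
    calc |e| * t * |gY v y| ≤ (2 * ep) * t * (Cy * (B * ep) * ‖y‖) := by gcongr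
      _ = _ := by ring
  calc |m * (3 * Q4 w z z y + Q4 z z z y) + m * Q4 V V U y + g * (c * Q4 v v u y + e * Q4 u u v y) -
        e * h * Q4 v v v y - e * (sg * t) * gY v y| ≤
        |m * (3 * Q4 w z z y + Q4 z z z y)| + |m * Q4 V V U y| +
        |g * (c * Q4 v v u y + e * Q4 u u v y)| + |e * h * Q4 v v v y| +
        |e * (sg * t) * gY v y| := by
          refine (abs_sub _ _).trans (add_le_add_left ?_ _)
          refine (abs_sub _ _).trans (add_le_add_left ?_ _)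
          refine (abs_add_le _ _).trans (add_le_add_left ?_ _)
          exact abs_add_le _ _
    _ ≤ _ := by
      have : (m * Cq * (3 * B + 1) * ‖z‖ ^ 2 + (2 * m * Cq * CV ^ 2 * B + 3 * κ * Cq * B ^ 3 +
          2 * Cq * B ^ 3 + 2 * Cy * B) * (t * ep ^ 2)) * ‖y‖ =
          m * Cq * (3 * B + 1) * ‖z‖ ^ 2 * ‖y‖ + 2 * m * Cq * CV ^ 2 * B * (t * ep ^ 2) * ‖y‖ +
          3 * κ * Cq * B ^ 3 * (t * ep ^ 2) * ‖y‖ + 2 * Cq * B ^ 3 * (t * ep ^ 2) * ‖y‖ +
          2 * Cy * B * (t * ep ^ 2) * ‖y‖ := by ring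
      linarith

private theorem use_s {m c0 al sg t h g ep P Q R Y : ℝ} (hm : 0 < m) (hc0 : 0 < c0) (hal : 0 < al)
    (hsg : sg = 1 ∨ sg = -1) (ht : 0 < t) (hep : 0 < ep) (hP : 0 < P) (hb : 0 < m + g)
    (hb2 : m * (m - h) ≤ (m + g) ^ 2)
    (hK : (c0 - 2 * al * sg) * t ≤ h) (hg : g ≤ sg * t * al)
    (hII : 0 ≤ g * Q - (g + h) * ep ^ 2 * R - sg * t * Y)
    (hq : |Q - P| ≤ P / 2)
    (hr : P * (1 + (1 + 2 * al) / c0) * |g| / (2 * m) + 2 * (1 + (1 + 2 * al) / c0) * |R - P| ≤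
      P / 4) :
    |g / t - sg * al| ≤ 2 / P * (P * al * ep ^ 2 + al * |Q - P| + |Y - al * P|) ∧
    |h * ep ^ 2 / t| ≤ (1 + (1 + 2 * al) / c0) * (4 / P *
      (P * al * ep ^ 2 + al * |Q - P| + |Y - al * P|)) := by
  obtain ⟨k1, k2, k3, k4, k5, k6⟩ := usb_K hm hc0 hal hsg ht hb hb2 hK hg
  set A := 1 + (1 + 2 * al) / c0 with hA
  set K := h + 2 * al * sg * t with hKd
  have hA0 : 0 < A := by positivity
  set q := Q - P with hqd
  set r := R - P with hrd
  set y := Y - al * P with hyd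
  have hsa : |sg * t| = t := by
    rcases hsg with hh | hh <;> rw [hh]
    · rw [one_mul, abs_of_pos ht]
    · rw [neg_one_mul, abs_neg, abs_of_pos ht]
  have hD : 0 ≤ sg * t * al - g := by linarith
  have h1 : P * (sg * t * al - g) + P * ep ^ 2 * (sg * t * al + g + h) ≤
      P * ep ^ 2 * (sg * t * al) + g * q - (g + h) * ep ^ 2 * r - sg * t * y := by
    rw [hqd, hrd, hyd]
    nlinarith [hII]
  have b0 : P * ep ^ 2 * (sg * t * al) ≤ P * ep ^ 2 * (t * al) := by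
    refine mul_le_mul_of_nonneg_left ?_ (by positivity)
    refine mul_le_mul_of_nonneg_right ?_ hal.le
    exact (le_abs_self _).trans hsa.le
  have b1 : g * q ≤ (al * t) * |q| + (sg * t * al - g) * |q| := by
    have x1 : g * q = sg * t * al * q - (sg * t * al - g) * q := by ring
    have x2 : sg * t * al * q ≤ (al * t) * |q| := by
      refine (le_abs_self _).trans (le_of_eq ?_)
      rw [abs_mul, abs_mul, hsa, abs_of_pos hal]
      ring
    have x3 : -((sg * t * al - g) * q) ≤ (sg * t * al - g) * |q| := by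
      refine (neg_le_abs _).trans (le_of_eq ?_)
      rw [abs_mul, abs_of_nonneg hD]
    linarith
  have b2 : -((g + h) * ep ^ 2 * r) ≤ 2 * (A * K) * ep ^ 2 * |r| := by
    refine (neg_le_abs _).trans ?_
    rw [abs_mul, abs_mul, abs_of_pos (by positivity : (0 : ℝ) < ep ^ 2)]
    refine mul_le_mul_of_nonneg_right (mul_le_mul_of_nonneg_right ((abs_add_le _ _).trans ?_)
      (by positivity)) (abs_nonneg _)
    linarith
  have b3 : -(sg * t * y) ≤ t * |y| := by
    refine (neg_le_abs _).trans (le_of_eq ?_)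
    rw [abs_mul, hsa]
  have b4 : g ^ 2 / (2 * m) ≤ A * K * (|g| / (2 * m)) := by
    have e : g ^ 2 / (2 * m) = |g| * (|g| / (2 * m)) := by
      rw [← sq_abs g]
      ring
    rw [e]
    exact mul_le_mul_of_nonneg_right k5 (by positivity)
  have b5 : P * ep ^ 2 * (K / 2 - A * K * (|g| / (2 * m))) ≤
      P * ep ^ 2 * (sg * t * al + g + h) := mul_le_mul_of_nonneg_left (by linarith) (by positivity)
  have b6 : (sg * t * al - g) * (P / 2) ≤ (sg * t * al - g) * (P - |q|) :=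
    mul_le_mul_of_nonneg_left (by linarith) hD
  have b7 : ep ^ 2 * K * (P / 4) ≤ ep ^ 2 * K * (P / 2 - (P * A * |g| / (2 * m) + 2 * A * |r|)) :=
    mul_le_mul_of_nonneg_left (by linarith) (by positivity)
  set G := P * al * ep ^ 2 + al * |q| + |y| with hG
  have main : (sg * t * al - g) * (P / 2) + ep ^ 2 * K * (P / 4) ≤ t * G := by
    have x1 : ep ^ 2 * K * (P / 2 - (P * A * |g| / (2 * m) + 2 * A * |r|)) =
        P * ep ^ 2 * (K / 2 - A * K * (|g| / (2 * m))) - 2 * (A * K) * ep ^ 2 * |r| := by ring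
    rw [x1] at b7
    have x2 : t * G = P * ep ^ 2 * (t * al) + (al * t) * |q| + t * |y| := by rw [hG]; ring
    rw [x2]
    nlinarith [b6, b7, h1, b0, b1, b2, b3, b5]
  have c1 : 0 ≤ ep ^ 2 * K * (P / 4) := by positivity
  have c2 : 0 ≤ (sg * t * al - g) * (P / 2) := mul_nonneg hD (by positivity)
  constructor
  · have x1 : g / t - sg * al = -((sg * t * al - g) / t) := by
      field_simp
      ring
    rw [x1, abs_neg, abs_of_nonneg (div_nonneg hD ht.le), div_le_iff₀ ht]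
    calc sg * t * al - g = 2 / P * ((sg * t * al - g) * (P / 2)) := by field_simp
      _ ≤ 2 / P * (t * G) := mul_le_mul_of_nonneg_left (by linarith) (by positivity)
      _ = _ := by ring
  · rw [abs_div, abs_mul, abs_of_pos ht, abs_of_pos (by positivity : (0 : ℝ) < ep ^ 2),
      div_le_iff₀ ht]
    calc |h| * ep ^ 2 ≤ A * K * ep ^ 2 := mul_le_mul_of_nonneg_right k4 (by positivity)
      _ = A * (4 / P * (ep ^ 2 * K * (P / 4))) := by field_simp
      _ ≤ A * (4 / P * (t * G)) := by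
        refine mul_le_mul_of_nonneg_left (mul_le_mul_of_nonneg_left (by linarith) (by positivity))
          hA0.le
      _ = _ := by ring

private theorem use_r [Dim N] {l m c0 : ℝ} (hm : 0 < m) (hc0 : 0 < c0) (sg : ℝ)
    (hsg : sg = 1 ∨ sg = -1) (t h g ep : ℕ → ℝ) (u v : ℕ → H1 N)
    (w : H1 N) (hw : w ≠ 0) (ht : ∀ n, 0 < t n)
    (hb0 : ∀ n, 0 < m + g n) (hg0 : Tendsto g atTop (𝓝 0))
    (hb2 : ∀ n, m * (m - h n) ≤ (m + g n) ^ 2)
    (hhc : ∀ n, (c0 - 2 * (gY w w / Q4 w w w w) * sg) * t n ≤ h n)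
    (hga : ∀ n, g n ≤ sg * t n * (gY w w / Q4 w w w w))
    (hS : ∀ n, Sol l (l + sg * t n) m (m - h n) (m + g n) (u n) (v n))
    (hII : ∀ n, m * Q4 (u n) (u n) (v n) (v n) + (m + g n) * Q4 (v n) (v n) (v n) (v n) ≤
      ip l (v n) (v n))
    (h1 : Tendsto u atTop (𝓝 w)) (h2 : ∀ n, 0 < ep n) (h3 : Tendsto ep atTop (𝓝 0))
    (h4 : Tendsto (fun n => (ep n)⁻¹ • v n) atTop (𝓝 w)) :
    Tendsto (fun n => g n / t n) atTop (𝓝 (sg * (gY w w / Q4 w w w w))) ∧
    Tendsto (fun n => h n * ep n ^ 2 / t n) atTop (𝓝 0) := by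
  have hP : 0 < Q4 w w w w := Q4_pos hw
  have hY : 0 < gY w w := gY_pos hw
  have lQ := usb_Q h1 h1 h4 h4
  have lR := usb_Q h4 h4 h4 h4
  have lY := usb_gY h4 h4
  set P := Q4 w w w w with hPd
  set al := gY w w / P with hal
  have hal0 : 0 < al := div_pos hY hP
  have hYP : gY w w = al * P := by rw [hal, div_mul_cancel₀ _ hP.ne']
  rw [hYP] at lY
  set A := 1 + (1 + 2 * al) / c0 with hA
  have hA0 : 0 < A := by positivity
  set v' : ℕ → H1 N := fun n => (ep n)⁻¹ • v n with hv'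
  have hvv : ∀ n, v n = ep n • v' n := by
    intro n
    rw [hv']
    simp only
    rw [smul_smul, mul_inv_cancel₀ (h2 n).ne', one_smul]
  have hI : ∀ n, 0 ≤ g n * Q4 (u n) (u n) (v' n) (v' n) -
      (g n + h n) * ep n ^ 2 * Q4 (v' n) (v' n) (v' n) (v' n) -
      sg * t n * gY (v' n) (v' n) := by
    intro n
    have x1 := hII n
    have x2 : ip l (v n) (v n) = ip (l + sg * t n) (v n) (v n) - sg * t n * gY (v n) (v n) := by
      simp only [ip]
      ring
    rw [x2, (hS n).2 (v n)] at x1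
    have x3 : Q4 (u n) (u n) (v n) (v n) = ep n ^ 2 * Q4 (u n) (u n) (v' n) (v' n) := by
      rw [hvv n, Q4_smul3, Q4_smul4]
      ring
    have x4 : Q4 (v n) (v n) (v n) (v n) = ep n ^ 4 * Q4 (v' n) (v' n) (v' n) (v' n) := by
      rw [hvv n, Q4_smul1, Q4_smul2, Q4_smul3, Q4_smul4]
      ring
    have x5 : gY (v n) (v n) = ep n ^ 2 * gY (v' n) (v' n) := by
      rw [hvv n, gY_smul_left, gY_smul_right]
      ring
    rw [x3, x4, x5] at x1
    have x6 : 0 < ep n ^ 2 := by have := h2 n; positivity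
    refine nonneg_of_mul_nonneg_right (a := ep n ^ 2) ?_ x6
    nlinarith [x1]
  have hev1 : ∀ᶠ n in atTop, |Q4 (u n) (u n) (v' n) (v' n) - P| ≤ P / 2 := by
    have x1 := (lQ.sub_const P).abs
    rw [sub_self, abs_zero] at x1
    exact x1.eventually (ge_mem_nhds (by positivity))
  have hev2 : ∀ᶠ n in atTop, P * A * |g n| / (2 * m) +
      2 * A * |Q4 (v' n) (v' n) (v' n) (v' n) - P| ≤ P / 4 := by
    have x1 := (lR.sub_const P).abs.const_mul (2 * A)
    have x2 := (hg0.abs.const_mul (P * A)).div_const (2 * m)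
    have x3 := x2.add x1
    rw [sub_self, abs_zero, mul_zero, mul_zero, zero_div, add_zero] at x3
    exact x3.eventually (ge_mem_nhds (by positivity))
  have lG : Tendsto (fun n => P * al * ep n ^ 2 + al * |Q4 (u n) (u n) (v' n) (v' n) - P| +
      |gY (v' n) (v' n) - al * P|) atTop (𝓝 0) := by
    have x1 := (lQ.sub_const P).abs.const_mul al
    have x2 := (lY.sub_const (al * P)).abs
    have x3 := (h3.pow 2).const_mul (P * al)
    have x4 := (x3.add x1).add x2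
    simp only [sub_self, abs_zero, mul_zero, add_zero, ne_eq, OfNat.ofNat_ne_zero,
      not_false_eq_true, zero_pow] at x4
    exact x4
  have st : ∀ᶠ n in atTop, |g n / t n - sg * al| ≤ 2 / P * (P * al * ep n ^ 2 +
        al * |Q4 (u n) (u n) (v' n) (v' n) - P| + |gY (v' n) (v' n) - al * P|) ∧
      |h n * ep n ^ 2 / t n| ≤ A * (4 / P * (P * al * ep n ^ 2 +
        al * |Q4 (u n) (u n) (v' n) (v' n) - P| + |gY (v' n) (v' n) - al * P|)) := by
    filter_upwards [hev1, hev2] with n hn1 hn2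
    exact use_s hm hc0 hal0 hsg (ht n) (h2 n) hP (hb0 n) (hb2 n) (hhc n) (hga n) (hI n) hn1 hn2
  constructor
  · have x1 : Tendsto (fun n => g n / t n - sg * al) atTop (𝓝 0) := by
      refine squeeze_zero_norm' (st.mono fun n hn => hn.1) ?_
      have := lG.const_mul (2 / P)
      rwa [mul_zero] at this
    have x2 := x1.add_const (sg * al)
    rw [zero_add] at x2
    refine x2.congr (fun n => ?_)
    ring
  · refine squeeze_zero_norm' (st.mono fun n hn => hn.2) ?_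
    have := (lG.const_mul (4 / P)).const_mul A
    rwa [mul_zero, mul_zero] at this

/-- module use. The asymptotic estimates. `s = sg t`, `al = gY w w/Q4 w w w w`, `g ≤ sg al t`, `-h/2 - C h² ≤ g`, `h ≥ (c0 - 2 al sg) t`.
(1) (II)/(t ep²): `γ (Q-R)/ep² - k R/ep² ≥ sg gY v v/ep²` with `γ = g/t`, `k = h/t`; `Q/ep² → P`, `R/ep⁴ → P`, `gY v v/ep² → al P`. So
`γ (1 - o(1)) - (γ+k) ep² (1+o(1)) ≥ sg al - o(1)`, `γ ≤ sg al`, `k ≥ -C`, `γ ≥ - k/2 - o(k) - o(1)`: hence `γ` is bounded,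
`γ → sg al`, `k ep² → 0`.
(2) `V`: as in `s6_asym`; the new term is `c h Q4 v v v V`, of size `|h| ep³ ‖V‖ = o(t ep) ‖V‖`.
(3) `z`: new term of size `|h| ep⁴ = o(t ep²)`.
(4) limit of `-2 m Q4 w w w z/(t ep²)`: `2 sg al P - sg gY w w = sg gY w w`. -/
theorem s6_asym' [Dim N] {l m c0 : ℝ} (hl : 0 < l) (hm : 0 < m) (hc0 : 0 < c0) (sg : ℝ)
    (hsg : sg = 1 ∨ sg = -1) (t h g ep : ℕ → ℝ) (u v : ℕ → H1 N)
    (w : H1 N) (hw : GNo l m w) (hwr : RD w) (ht : ∀ n, 0 < t n) (ht0 : Tendsto t atTop (𝓝 0))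
    (hh : Tendsto h atTop (𝓝 0)) (h0 : ∀ n, 0 < l + sg * t n) (hm0 : ∀ n, 0 < m - h n)
    (hb0 : ∀ n, 0 < m + g n) (hg0 : Tendsto g atTop (𝓝 0))
    (hb2 : ∀ n, m * (m - h n) ≤ (m + g n) ^ 2)
    (hhc : ∀ n, (c0 - 2 * (gY w w / Q4 w w w w) * sg) * t n ≤ h n)
    (hga : ∀ n, g n ≤ sg * t n * (gY w w / Q4 w w w w))
    (hu : ∀ n, Rad (u n)) (hv : ∀ n, Rad (v n))
    (hS : ∀ n, Sol l (l + sg * t n) m (m - h n) (m + g n) (u n) (v n))
    (hII : ∀ n, m * Q4 (u n) (u n) (v n) (v n) + (m + g n) * Q4 (v n) (v n) (v n) (v n) ≤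
      ip l (v n) (v n)) (hv0 : ∀ n, v n ≠ 0)
    (h1 : Tendsto u atTop (𝓝 w)) (h2 : ∀ n, 0 < ep n) (h3 : Tendsto ep atTop (𝓝 0))
    (h4 : Tendsto (fun n => (ep n)⁻¹ • v n) atTop (𝓝 w)) :
    Tendsto (fun n => g n / t n) atTop (𝓝 (sg * (gY w w / Q4 w w w w))) ∧
    Tendsto (fun n => h n * ep n ^ 2 / t n) atTop (𝓝 0) ∧
    ∃ (c e : ℕ → ℝ) (C : ℝ), (∀ n, c n ^ 2 + e n ^ 2 = 1) ∧ 0 < C ∧
      (∀ᶠ n in atTop, ‖c n • v n - e n • u n‖ ≤ C * (t n * ep n)) ∧
      (∀ᶠ n in atTop, ‖c n • u n + e n • v n - w‖ ≤ C * (t n * ep n ^ 2)) ∧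
      Tendsto (fun n => -2 * m * Q4 w w w (c n • u n + e n • v n - w) / (t n * ep n ^ 2)) atTop
        (𝓝 (sg * gY w w)) := by
  obtain ⟨r1, r2⟩ := use_r hm hc0 sg hsg t h g ep u v w hw.1 ht hb0 hg0 hb2 hhc hga hS hII h1 h2 h3 h4
  refine ⟨r1, r2, ?_⟩
  have hP : 0 < Q4 w w w w := Q4_pos hw.1
  have hY : 0 < gY w w := gY_pos hw.1
  set P := Q4 w w w w with hPd
  set al := gY w w / P with hal
  have hal0 : 0 < al := div_pos hY hP
  have hYP : gY w w = al * P := by rw [hal, div_mul_cancel₀ _ hP.ne']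
  set v' : ℕ → H1 N := fun n => (ep n)⁻¹ • v n with hv'
  have hvv : ∀ n, v n = ep n • v' n := by
    intro n
    rw [hv']
    simp only
    rw [smul_smul, mul_inv_cancel₀ (h2 n).ne', one_smul]
  obtain ⟨Cq, hCq, hQ⟩ := Q4_bound (N := N)
  obtain ⟨Cy, hCy, hYb⟩ := usb_gYb (N := N)
  obtain ⟨c1, hc1, hco⟩ := Lm_coer hl hm hw hwr.1
  obtain ⟨Cn, hCn, hnd⟩ := nd_inv hl hm hw hwr
  -- bounds
  obtain ⟨Bu, hBu⟩ := h1.norm.bddAbove_range
  obtain ⟨Bv, hBv⟩ := h4.norm.bddAbove_range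
  set B := max 1 (max Bu (max Bv ‖w‖)) with hBd
  have hB : 1 ≤ B := le_max_left _ _
  have hB0 : 0 < B := by linarith
  have huB : ∀ n, ‖u n‖ ≤ B := fun n => (hBu (Set.mem_range_self n)).trans
    ((le_max_left _ _).trans (le_max_right _ _))
  have hv'B : ∀ n, ‖v' n‖ ≤ B := fun n => (hBv (Set.mem_range_self n)).trans
    ((le_max_left _ _).trans ((le_max_right _ _).trans (le_max_right _ _)))
  have hwB : ‖w‖ ≤ B := (le_max_right _ _).trans ((le_max_right _ _).trans (le_max_right _ _))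
  have hvB : ∀ n, ‖v n‖ ≤ B * ep n := by
    intro n
    rw [hvv n, norm_smul, Real.norm_eq_abs, abs_of_pos (h2 n), mul_comm]
    exact mul_le_mul_of_nonneg_right (hv'B n) (h2 n).le
  have hvt : Tendsto v atTop (𝓝 0) := by
    have x1 := h3.smul h4
    rw [zero_smul] at x1
    exact x1.congr (fun n => (hvv n).symm)
  -- angle
  have lA : Tendsto (fun n => Q4 w w w (u n)) atTop (𝓝 P) :=
    usb_Q tendsto_const_nhds tendsto_const_nhds tendsto_const_nhds h1
  have lB : Tendsto (fun n => Q4 w w w (v n) / ep n) atTop (𝓝 P) := by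
    have x1 : Tendsto (fun n => Q4 w w w (v' n)) atTop (𝓝 P) :=
      usb_Q tendsto_const_nhds tendsto_const_nhds tendsto_const_nhds h4
    refine x1.congr (fun n => ?_)
    show Q4 w w w ((ep n)⁻¹ • v n) = _
    rw [Q4_smul4, div_eq_inv_mul]
  have lB0 : Tendsto (fun n => Q4 w w w (v n)) atTop (𝓝 0) := by
    have x1 := h3.mul lB
    rw [zero_mul] at x1
    refine x1.congr (fun n => ?_)
    rw [mul_div_cancel₀ _ (h2 n).ne']
  obtain ⟨c, e, hce, horth, lc, le, lee⟩ := use_ce hP lA lB lB0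
  have lV : Tendsto (fun n => c n • v n - e n • u n) atTop (𝓝 0) := by
    have x1 := (lc.smul hvt).sub (le.smul h1)
    simpa using x1
  have lU : Tendsto (fun n => c n • u n + e n • v n) atTop (𝓝 w) := by
    have x1 := (lc.smul h1).add (le.smul hvt)
    simpa using x1
  have lz : Tendsto (fun n => c n • u n + e n • v n - w) atTop (𝓝 0) := by
    have x1 := lU.sub_const w
    rwa [sub_self] at x1
  have ev_g : ∀ᶠ n in atTop, |g n| ≤ (al + 1) * t n := by
    have x1 := r1.abs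
    have x2 : |sg * al| = al := by
      rcases hsg with hh | hh <;> rw [hh]
      · rw [one_mul, abs_of_pos hal0]
      · rw [neg_one_mul, abs_neg, abs_of_pos hal0]
    rw [x2] at x1
    filter_upwards [x1.eventually (ge_mem_nhds (by linarith : al < al + 1))] with n hn
    rw [abs_div, abs_of_pos (ht n), div_le_iff₀ (ht n)] at hn
    exact hn
  have ev_h : ∀ᶠ n in atTop, |h n| * ep n ^ 2 ≤ t n := by
    have x1 := r2.abs
    rw [abs_zero] at x1
    filter_upwards [x1.eventually (ge_mem_nhds (by norm_num : (0 : ℝ) < 1))] with n hn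
    have x2 : 0 < ep n ^ 2 := by have := h2 n; positivity
    rw [abs_div, abs_mul, abs_of_pos (ht n), abs_of_pos x2, div_le_iff₀ (ht n)] at hn
    linarith
  have ev_ep : ∀ᶠ n in atTop, ep n ≤ 1 := h3.eventually (ge_mem_nhds (by norm_num))
  have ev_t : ∀ᶠ n in atTop, t n ≤ 1 := ht0.eventually (ge_mem_nhds (by norm_num))
  have ev_e : ∀ᶠ n in atTop, |e n| ≤ 2 * ep n := by
    have x1 := lee.abs
    rw [abs_one] at x1
    filter_upwards [x1.eventually (ge_mem_nhds (by norm_num : (1 : ℝ) < 2))] with n hn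
    rw [abs_div, abs_of_pos (h2 n), div_le_iff₀ (h2 n)] at hn
    exact hn
  have ev_sm : ∀ᶠ n in atTop, m * Cq * (‖c n • u n + e n • v n - w‖ *
      ‖c n • u n + e n • v n + w‖ + ‖c n • v n - e n • u n‖ ^ 2) ≤ c1 / 2 := by
    have x1 := ((lz.norm.mul (lU.add_const w).norm).add (lV.norm.pow 2)).const_mul (m * Cq)
    rw [norm_zero, zero_mul, zero_pow two_ne_zero, add_zero, mul_zero] at x1
    exact x1.eventually (ge_mem_nhds (by positivity))
  have ev_z1 : ∀ᶠ n in atTop, ‖c n • u n + e n • v n - w‖ ≤ 1 := by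
    have x1 := lz.norm
    rw [norm_zero] at x1
    exact x1.eventually (ge_mem_nhds (by norm_num))
  set CV := 2 / c1 * (2 * (al + 1) * Cq * B ^ 3 + Cq * B ^ 3 + Cy * B) with hCV
  have hCV0 : 0 < CV := by positivity
  have ev_V : ∀ᶠ n in atTop, ‖c n • v n - e n • u n‖ ≤ CV * (t n * ep n) := by
    filter_upwards [ev_g, ev_h, ev_ep, ev_sm, horth] with n a1 a2 a3 a4 a5
    refine use_V hm hCq hCy hB (by linarith) hc1 (ht n) (h2 n) a3 hsg hQ hYb (hce n) (hS n)
      (huB n) (hvB n) a1 a2 ?_ a4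
    refine hco _ ?_
    rw [Q4_sub4, Q4_smul4, Q4_smul4]
    exact a5
  set C2 := m * Cq * (3 * B + 1) with hC2
  set C3 := 2 * m * Cq * CV ^ 2 * B + 3 * (al + 1) * Cq * B ^ 3 + 2 * Cq * B ^ 3 + 2 * Cy * B
    with hC3
  have hC20 : 0 < C2 := by positivity
  have hC30 : 0 < C3 := by positivity
  have ev_z2 : ∀ᶠ n in atTop, Cn * C2 * ‖c n • u n + e n • v n - w‖ ≤ 1 / 2 := by
    have x1 := lz.norm.const_mul (Cn * C2)
    rw [norm_zero, mul_zero] at x1
    exact x1.eventually (ge_mem_nhds (by norm_num))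
  have ev_z : ∀ᶠ n in atTop, ‖c n • u n + e n • v n - w‖ ≤ 2 * Cn * C3 * (t n * ep n ^ 2) := by
    filter_upwards [ev_g, ev_h, ev_ep, ev_t, ev_e, ev_V, ev_z1, ev_z2] with n a1 a2 a3 a4 a5 a6 a7 a8
    have x1 := hnd (c n • u n + e n • v n - w) (C2 * ‖c n • u n + e n • v n - w‖ ^ 2 +
      C3 * (t n * ep n ^ 2)) (Rad_sub (Rad_add (Rad_smul (hu n) _) (Rad_smul (hv n) _))
        (RD_Rad hwr)) (by have := ht n; have := h2 n; positivity)
      (fun y => use_z hl hm hw hCq hCy hB (by linarith) hCV0 (ht n) a4 (h2 n) a3 hsg hQ hYb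
        (hce n) (hS n) (huB n) (hvB n) hwB a5 a1 a2 a6 a7 y)
    set Z := ‖c n • u n + e n • v n - w‖ with hZ
    have x2 : 0 ≤ Z := norm_nonneg _
    have x3 : Cn * C2 * Z * Z ≤ 1 / 2 * Z := mul_le_mul_of_nonneg_right a8 x2
    nlinarith [x1, x3]
  set C := CV + 2 * Cn * C3 with hC
  have hC0 : 0 < C := by positivity
  have fV : ∀ᶠ n in atTop, ‖c n • v n - e n • u n‖ ≤ C * (t n * ep n) := by
    filter_upwards [ev_V] with n hn
    refine hn.trans (mul_le_mul_of_nonneg_right ?_ (by have := ht n; have := h2 n; positivity))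
    have : 0 < 2 * Cn * C3 := by positivity
    linarith
  have fz : ∀ᶠ n in atTop, ‖c n • u n + e n • v n - w‖ ≤ C * (t n * ep n ^ 2) := by
    filter_upwards [ev_z] with n hn
    refine hn.trans (mul_le_mul_of_nonneg_right ?_ (by have := ht n; have := h2 n; positivity))
    linarith
  refine ⟨c, e, C, hce, hC0, fV, fz, ?_⟩
  -- the limit
  have l12 : Tendsto (fun n => (m * (3 * Q4 w (c n • u n + e n • v n - w)
      (c n • u n + e n • v n - w) w + Q4 (c n • u n + e n • v n - w)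
      (c n • u n + e n • v n - w) (c n • u n + e n • v n - w) w) +
      m * Q4 (c n • v n - e n • u n) (c n • v n - e n • u n) (c n • u n + e n • v n) w) /
      (t n * ep n ^ 2)) atTop (𝓝 0) := by
    have lUB : Tendsto (fun n => ‖c n • u n + e n • v n‖) atTop (𝓝 ‖w‖) := lU.norm
    have ev_U : ∀ᶠ n in atTop, ‖c n • u n + e n • v n‖ ≤ B + 1 :=
      lUB.eventually (ge_mem_nhds (by linarith))
    refine squeeze_zero_norm' (a := fun n => m * (3 * (Cq * B * C ^ 2 * B) + Cq * C ^ 2 * B) *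
      (t n * ep n ^ 2) + m * (Cq * C ^ 2 * (B + 1) * B) * t n) ?_ ?_
    · filter_upwards [fV, fz, ev_z1, ev_U] with n a1 a2 a3 a4
      have t0 := ht n
      have e0 := h2 n
      have te : 0 < t n * ep n ^ 2 := by positivity
      set z := c n • u n + e n • v n - w with hz
      set V := c n • v n - e n • u n with hV
      set U := c n • u n + e n • v n with hU
      rw [Real.norm_eq_abs, abs_div, abs_of_pos te, div_le_iff₀ te]
      have y1 : |Q4 w z z w| ≤ Cq * B * (C * (t n * ep n ^ 2)) * (C * (t n * ep n ^ 2)) * B := by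
        refine (hQ _ _ _ _).trans ?_
        gcongr
      have y2 : |Q4 z z z w| ≤ Cq * (C * (t n * ep n ^ 2)) * (C * (t n * ep n ^ 2)) * 1 * B := by
        refine (hQ _ _ _ _).trans ?_
        gcongr
      have y3 : |Q4 V V U w| ≤ Cq * (C * (t n * ep n)) * (C * (t n * ep n)) * (B + 1) * B := by
        refine (hQ _ _ _ _).trans ?_
        gcongr
      have y4 : |m * (3 * Q4 w z z w + Q4 z z z w)| ≤
          m * (3 * (Cq * B * (C * (t n * ep n ^ 2)) * (C * (t n * ep n ^ 2)) * B) +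
            Cq * (C * (t n * ep n ^ 2)) * (C * (t n * ep n ^ 2)) * 1 * B) := by
        rw [abs_mul, abs_of_pos hm]
        refine mul_le_mul_of_nonneg_left ((abs_add_le _ _).trans ?_) hm.le
        rw [abs_mul, abs_of_pos (by norm_num : (0 : ℝ) < 3)]
        linarith
      have y5 : |m * Q4 V V U w| ≤
          m * (Cq * (C * (t n * ep n)) * (C * (t n * ep n)) * (B + 1) * B) := by
        rw [abs_mul, abs_of_pos hm]
        exact mul_le_mul_of_nonneg_left y3 hm.le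
      refine (abs_add_le _ _).trans ((add_le_add y4 y5).trans (le_of_eq ?_))
      ring
    · have x1 := (ht0.mul (h3.pow 2)).const_mul (m * (3 * (Cq * B * C ^ 2 * B) + Cq * C ^ 2 * B))
      have x2 := ht0.const_mul (m * (Cq * C ^ 2 * (B + 1) * B))
      have x3 := x1.add x2
      simp only [ne_eq, OfNat.ofNat_ne_zero, not_false_eq_true, zero_pow, mul_zero, add_zero] at x3
      exact x3
  have l3 : Tendsto (fun n => g n / t n * (c n * Q4 (v' n) (v' n) (u n) w +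
      e n / ep n * Q4 (u n) (u n) (v' n) w)) atTop (𝓝 (sg * al * (1 * P + 1 * P))) :=
    r1.mul ((lc.mul (usb_Q h4 h4 h1 tendsto_const_nhds)).add
      (lee.mul (usb_Q h1 h1 h4 tendsto_const_nhds)))
  have l4 : Tendsto (fun n => e n / ep n * (h n * ep n ^ 2 / t n) * Q4 (v' n) (v' n) (v' n) w)
      atTop (𝓝 (1 * 0 * P)) := (lee.mul r2).mul (usb_Q h4 h4 h4 tendsto_const_nhds)
  have l5 : Tendsto (fun n => e n / ep n * sg * gY (v' n) w) atTop (𝓝 (1 * sg * gY w w)) :=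
    (lee.mul_const sg).mul (usb_gY h4 tendsto_const_nhds)
  have l6 := ((l12.add l3).sub l4).sub l5
  have e6 : 0 + sg * al * (1 * P + 1 * P) - 1 * 0 * P - 1 * sg * gY w w = sg * gY w w := by
    rw [hYP]
    ring
  rw [e6] at l6
  refine l6.congr (fun n => ?_)
  have x1 := use_id hl hm hw (hce n) (hS n) w
  have x2 : ip l (c n • u n + e n • v n - w) w = m * Q4 w w w (c n • u n + e n • v n - w) := by
    rw [ip_comm]
    exact GNo_sol hl hm hw _
  have x3 : Q4 w w (c n • u n + e n • v n - w) w = Q4 w w w (c n • u n + e n • v n - w) :=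
    Q4_swap34 _ _ _ _
  rw [x2, x3] at x1
  have t0 := (ht n).ne'
  have e0 := (h2 n).ne'
  have x4 : Q4 (v n) (v n) (u n) w = ep n ^ 2 * Q4 (v' n) (v' n) (u n) w := by
    rw [hvv n, Q4_smul1, Q4_smul2]
    ring
  have x5 : Q4 (u n) (u n) (v n) w = ep n * Q4 (u n) (u n) (v' n) w := by
    rw [hvv n, Q4_smul3]
  have x6 : Q4 (v n) (v n) (v n) w = ep n ^ 3 * Q4 (v' n) (v' n) (v' n) w := by
    rw [hvv n, Q4_smul1, Q4_smul2, Q4_smul3]
    ring
  have x7 : gY (v n) w = ep n * gY (v' n) w := by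
    rw [hvv n, gY_smul_left]
  rw [x4, x5, x6, x7] at x1
  have x8 : -2 * m * Q4 w w w (c n • u n + e n • v n - w) =
      m * Q4 w w w (c n • u n + e n • v n - w) -
        3 * m * Q4 w w w (c n • u n + e n • v n - w) := by ring
  rw [x8, x1]
  field_simp

private theorem usf_st [Dim N] {l m g h t s c e : ℝ} (hl : 0 < l) (hm : 0 < m) (h0 : 0 < l + s)
    {u v w : H1 N} (hw : GNo l m w) (htau : m + g ≤ tau N l m (l + s)) (hce : c ^ 2 + e ^ 2 = 1)
    (hS : Sol l (l + s) m (m - h) (m + g) u v) (hh : t ≤ h) :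
    (g + t) * Q4 v v v v ≤ (m + g) * (2 * Q4 w (c • u + e • v - w) v v +
      Q4 (c • u + e • v - w) (c • u + e • v - w) v v +
      Q4 (c • v - e • u) (c • v - e • u) v v) := by
  have h1 := tau_le hl hm h0 hw v
  have h2 := mul_le_mul_of_nonneg_right htau (Q4_nonneg w v)
  have h3 := hS.2 v
  have h4 := usd_sq hce u v v v
  set U := c • u + e • v with hU
  set V := c • v - e • u with hV
  set z := U - w with hz
  have hUz : U = w + z := by rw [hz]; abel
  have h5 : Q4 U U v v = Q4 w w v v + 2 * Q4 w z v v + Q4 z z v v := by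
    rw [hUz, Q4_add1, Q4_add2 w z w v v, Q4_add2 w z z v v, Q4_swap12 z w v v]
    ring
  rw [h5] at h4
  have h6 : Q4 u u v v = Q4 w w v v + 2 * Q4 w z v v + Q4 z z v v + Q4 V V v v - Q4 v v v v := by
    linarith
  rw [h3, h6] at h1
  have h7 : t * Q4 v v v v ≤ h * Q4 v v v v := mul_le_mul_of_nonneg_right hh (Q4_nonneg v v)
  nlinarith [h1, h2, h7]

/-- module usf. Contradiction. `tau_le` with `p = v`: `0 ≥ be (Q4 w w v v - Q4 u u v v) - (m-h) Q4 v v v v
= -be (2 Q4 w z v v + Q4 z z v v + Q4 V V v v) + (g + h) Q4 v v v v`. Divide by `t ep⁴`: the first part tends to `sg gY w w`,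
the second is `(γ + k) (P + o(1))` with `γ → sg al`, `k ≥ c0 - 2 al sg`: the liminf of the sum is at least
`sg al P + sg al P + (c0 - 2 al sg) P = c0 P > 0` (if `k → ∞` a fortiori). -/
theorem s6_contra' [Dim N] {l m c0 : ℝ} (hl : 0 < l) (hm : 0 < m) (hc0 : 0 < c0) (sg : ℝ)
    (hsg : sg = 1 ∨ sg = -1) (t h g ep : ℕ → ℝ) (u v : ℕ → H1 N)
    (w : H1 N) (hw : GNo l m w) (hwr : RD w) (ht : ∀ n, 0 < t n) (ht0 : Tendsto t atTop (𝓝 0))
    (hh : Tendsto h atTop (𝓝 0)) (h0 : ∀ n, 0 < l + sg * t n) (hm0 : ∀ n, 0 < m - h n)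
    (hb0 : ∀ n, 0 < m + g n) (hg0 : Tendsto g atTop (𝓝 0))
    (hb2 : ∀ n, m * (m - h n) ≤ (m + g n) ^ 2)
    (hhc : ∀ n, (c0 - 2 * (gY w w / Q4 w w w w) * sg) * t n ≤ h n)
    (htau : ∀ n, m + g n ≤ tau N l m (l + sg * t n))
    (hu : ∀ n, Rad (u n)) (hv : ∀ n, Rad (v n))
    (hS : ∀ n, Sol l (l + sg * t n) m (m - h n) (m + g n) (u n) (v n))
    (hII : ∀ n, m * Q4 (u n) (u n) (v n) (v n) + (m + g n) * Q4 (v n) (v n) (v n) (v n) ≤
      ip l (v n) (v n)) (hv0 : ∀ n, v n ≠ 0)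
    (h1 : Tendsto u atTop (𝓝 w)) (h2 : ∀ n, 0 < ep n) (h3 : Tendsto ep atTop (𝓝 0))
    (h4 : Tendsto (fun n => (ep n)⁻¹ • v n) atTop (𝓝 w)) : False := by
  have hga : ∀ n, g n ≤ sg * t n * (gY w w / Q4 w w w w) := by
    intro n
    have x1 := (htau n).trans (tau_self hl hm (h0 n) hw)
    have x2 : l + sg * t n - l = sg * t n := by ring
    rw [x2] at x1
    linarith
  obtain ⟨r1, r2, c, e, C, hce, hC, fV, fz, lim⟩ := s6_asym' hl hm hc0 sg hsg t h g ep u v w hw hwr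
    ht ht0 hh h0 hm0 hb0 hg0 hb2 hhc hga hu hv hS hII hv0 h1 h2 h3 h4
  have hP : 0 < Q4 w w w w := Q4_pos hw.1
  have hY : 0 < gY w w := gY_pos hw.1
  set P := Q4 w w w w with hPd
  set al := gY w w / P with hal
  have hal0 : 0 < al := div_pos hY hP
  have hYP : gY w w = al * P := by rw [hal, div_mul_cancel₀ _ hP.ne']
  set v' : ℕ → H1 N := fun n => (ep n)⁻¹ • v n with hv'
  have hvv : ∀ n, v n = ep n • v' n := by
    intro n
    rw [hv']
    simp only
    rw [smul_smul, mul_inv_cancel₀ (h2 n).ne', one_smul]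
  obtain ⟨Cq, hCq, hQ⟩ := Q4_bound (N := N)
  obtain ⟨Bv, hBv⟩ := h4.norm.bddAbove_range
  set B := max 1 (max Bv ‖w‖) with hBd
  have hB : 1 ≤ B := le_max_left _ _
  have hB0 : 0 < B := by linarith
  have hv'B : ∀ n, ‖v' n‖ ≤ B := fun n => (hBv (Set.mem_range_self n)).trans
    ((le_max_left _ _).trans (le_max_right _ _))
  have hwB : ‖w‖ ≤ B := (le_max_right _ _).trans (le_max_right _ _)
  have lvw : Tendsto (fun n => ‖v' n - w‖) atTop (𝓝 0) := by
    have x1 := (h4.sub_const w).norm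
    rwa [sub_self, norm_zero] at x1
  -- error term
  have lE : Tendsto (fun n => (2 * (Q4 w (c n • u n + e n • v n - w) (v' n) (v' n) -
      Q4 w (c n • u n + e n • v n - w) w w) +
      Q4 (c n • u n + e n • v n - w) (c n • u n + e n • v n - w) (v' n) (v' n) +
      Q4 (c n • v n - e n • u n) (c n • v n - e n • u n) (v' n) (v' n)) / (t n * ep n ^ 2))
      atTop (𝓝 0) := by
    refine squeeze_zero_norm' (a := fun n => 2 * (Cq * B * C * (2 * B)) * ‖v' n - w‖ +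
      Cq * C ^ 2 * B ^ 2 * (t n * ep n ^ 2) + Cq * C ^ 2 * B ^ 2 * t n) ?_ ?_
    · filter_upwards [fV, fz] with n a1 a2
      have t0 := ht n
      have e0 := h2 n
      have te : 0 < t n * ep n ^ 2 := by positivity
      set z := c n • u n + e n • v n - w with hz
      set V := c n • v n - e n • u n with hV
      rw [Real.norm_eq_abs, abs_div, abs_of_pos te, div_le_iff₀ te]
      have y0 : Q4 w z (v' n) (v' n) - Q4 w z w w = Q4 w z (v' n - w) (v' n + w) := by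
        rw [Q4_sub3, Q4_add4, Q4_add4, Q4_swap34 w z (v' n) w]
        ring
      have y1 : |Q4 w z (v' n) (v' n) - Q4 w z w w| ≤
          Cq * B * (C * (t n * ep n ^ 2)) * ‖v' n - w‖ * (2 * B) := by
        rw [y0]
        refine (hQ _ _ _ _).trans ?_
        have : ‖v' n + w‖ ≤ 2 * B := (norm_add_le _ _).trans (by linarith [hv'B n])
        gcongr
      have y2 : |Q4 z z (v' n) (v' n)| ≤
          Cq * (C * (t n * ep n ^ 2)) * (C * (t n * ep n ^ 2)) * B * B := by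
        refine (hQ _ _ _ _).trans ?_
        have := hv'B n
        gcongr
      have y3 : |Q4 V V (v' n) (v' n)| ≤
          Cq * (C * (t n * ep n)) * (C * (t n * ep n)) * B * B := by
        refine (hQ _ _ _ _).trans ?_
        have := hv'B n
        gcongr
      refine (abs_add_le _ _).trans ((add_le_add (abs_add_le _ _) le_rfl).trans ?_)
      rw [abs_mul, abs_of_pos (by norm_num : (0 : ℝ) < 2)]
      refine (add_le_add (add_le_add (mul_le_mul_of_nonneg_left y1 (by norm_num)) y2) y3).trans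
        (le_of_eq ?_)
      ring
    · have x1 := lvw.const_mul (2 * (Cq * B * C * (2 * B)))
      have x2 := (ht0.mul (h3.pow 2)).const_mul (Cq * C ^ 2 * B ^ 2)
      have x3 := ht0.const_mul (Cq * C ^ 2 * B ^ 2)
      have x4 := (x1.add x2).add x3
      simp only [ne_eq, OfNat.ofNat_ne_zero, not_false_eq_true, zero_pow, mul_zero, add_zero] at x4
      exact x4
  have lmg : Tendsto (fun n => m + g n) atTop (𝓝 m) := by
    have := hg0.const_add m
    rwa [add_zero] at this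
  have lL : Tendsto (fun n => (g n / t n + (c0 - 2 * al * sg)) * Q4 (v' n) (v' n) (v' n) (v' n))
      atTop (𝓝 ((sg * al + (c0 - 2 * al * sg)) * P)) :=
    (r1.add_const _).mul (usb_Q h4 h4 h4 h4)
  have lR : Tendsto (fun n => (m + g n) * (-(1 / m) * (-2 * m * Q4 w w w
      (c n • u n + e n • v n - w) / (t n * ep n ^ 2)) +
      (2 * (Q4 w (c n • u n + e n • v n - w) (v' n) (v' n) -
      Q4 w (c n • u n + e n • v n - w) w w) +
      Q4 (c n • u n + e n • v n - w) (c n • u n + e n • v n - w) (v' n) (v' n) +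
      Q4 (c n • v n - e n • u n) (c n • v n - e n • u n) (v' n) (v' n)) / (t n * ep n ^ 2)))
      atTop (𝓝 (m * (-(1 / m) * (sg * gY w w) + 0))) :=
    lmg.mul ((lim.const_mul _).add lE)
  have hle : ∀ n, (g n / t n + (c0 - 2 * al * sg)) * Q4 (v' n) (v' n) (v' n) (v' n) ≤
      (m + g n) * (-(1 / m) * (-2 * m * Q4 w w w
      (c n • u n + e n • v n - w) / (t n * ep n ^ 2)) +
      (2 * (Q4 w (c n • u n + e n • v n - w) (v' n) (v' n) -
      Q4 w (c n • u n + e n • v n - w) w w) +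
      Q4 (c n • u n + e n • v n - w) (c n • u n + e n • v n - w) (v' n) (v' n) +
      Q4 (c n • v n - e n • u n) (c n • v n - e n • u n) (v' n) (v' n)) / (t n * ep n ^ 2)) := by
    intro n
    have x1 := usf_st hl hm (h0 n) hw (htau n) (hce n) (hS n) (hhc n)
    set z := c n • u n + e n • v n - w with hz
    set V := c n • v n - e n • u n with hV
    have t0 := ht n
    have e0 := h2 n
    have te : 0 < t n * ep n ^ 4 := by positivity
    have x3 : Q4 w z (v n) (v n) = ep n ^ 2 * Q4 w z (v' n) (v' n) := by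
      rw [hvv n, Q4_smul3, Q4_smul4]
      ring
    have x4 : Q4 z z (v n) (v n) = ep n ^ 2 * Q4 z z (v' n) (v' n) := by
      rw [hvv n, Q4_smul3, Q4_smul4]
      ring
    have x5 : Q4 V V (v n) (v n) = ep n ^ 2 * Q4 V V (v' n) (v' n) := by
      have : ∀ V : H1 N, Q4 V V (v n) (v n) = ep n ^ 2 * Q4 V V (v' n) (v' n) := by
        intro V
        rw [hvv n, Q4_smul3, Q4_smul4]
        ring
      exact this V
    have x6 : Q4 (v n) (v n) (v n) (v n) = ep n ^ 4 * Q4 (v' n) (v' n) (v' n) (v' n) := by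
      rw [hvv n, Q4_smul1, Q4_smul2, Q4_smul3, Q4_smul4]
      ring
    rw [x3, x4, x5, x6] at x1
    have x7 : Q4 w z w w = Q4 w w w z := by
      rw [Q4_swap23 w z w w, Q4_swap34 w w z w]
    rw [x7]
    refine le_of_mul_le_mul_right ?_ te
    calc (g n / t n + (c0 - 2 * al * sg)) * Q4 (v' n) (v' n) (v' n) (v' n) * (t n * ep n ^ 4)
        = (g n + (c0 - 2 * al * sg) * t n) * (ep n ^ 4 * Q4 (v' n) (v' n) (v' n) (v' n)) := by
          field_simp
      _ ≤ _ := x1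
      _ = _ := by
          field_simp
          ring
  have fin := le_of_tendsto_of_tendsto' lL lR hle
  have e1 : m * (-(1 / m) * (sg * gY w w) + 0) = -(sg * (al * P)) := by
    rw [hYP]
    field_simp
    ring
  rw [e1] at fin
  have : 0 < c0 * P := by positivity
  nlinarith

private theorem usf_rho [hN : Dim N] {l m c0 sg t h be : ℝ} (hl : 0 < l) (hm : 0 < m) (hc0 : 0 < c0)
    (hsg : sg = 1 ∨ sg = -1) (ht : 0 < t) (h1 : t < l / 2) (h2 : |h| < m)
    (h3 : t < c0 * l ^ 2 / (24 * m)) (h4 : |h| < c0 * l / 8) (h5 : 0 < m - h)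
    (h6 : (c0 - 2 * (m * (4 - (N : ℝ)) / (4 * l)) * sg) * t ≤ h) (hb : 0 < be)
    (hb2 : m * (m - h) ≤ be ^ 2) : rho0 N l (l + sg * t) (m - h) < be := by
  have hν : 0 ≤ (4 - (N : ℝ)) / 4 ∧ (4 - (N : ℝ)) / 4 ≤ 1 := by
    have : (N : ℝ) ≤ 3 := by
      rcases hN.h with h | h <;> rw [h] <;> norm_num
    have h0 : (0 : ℝ) ≤ N := Nat.cast_nonneg N
    constructor <;> linarith
  obtain ⟨ν0, ν1⟩ := hν
  have hal : m * (4 - (N : ℝ)) / (4 * l) = m * ((4 - (N : ℝ)) / 4) / l := by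
    field_simp
  rw [hal] at h6
  unfold rho0
  set ν := (4 - (N : ℝ)) / 4 with hν
  have hs : |sg * t| = t := by
    rcases hsg with hh | hh <;> rw [hh]
    · rw [one_mul, abs_of_pos ht]
    · rw [neg_one_mul, abs_neg, abs_of_pos ht]
  set s := sg * t with hsd
  have hs1 := (abs_le.1 hs.le).1
  have hs2 := (abs_le.1 hs.le).2
  have hls : l / 2 < l + s := by linarith
  have hls0 : 0 < l + s := by linarith
  set x := s / (l + s) with hx
  have hxs : x * (l + s) = s := div_mul_cancel₀ _ hls0.ne'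
  have hxa : |x| ≤ 2 * t / l := by
    rw [hx, abs_div, abs_of_pos hls0, hs, div_le_div_iff₀ hls0 hl]
    nlinarith
  have hxe : l / (l + s) - 1 = -x := by
    rw [hx]
    field_simp
    ring
  rw [hxe]
  have e1 : 2 * (m * ν / l) * s = 2 * m * ν * x + 2 * m * ν * x * s / l := by
    have : s / l = x + x * s / l := by
      rw [← mul_right_inj' hl.ne']
      field_simp
      linarith
    calc 2 * (m * ν / l) * s = 2 * m * ν * (s / l) := by ring
      _ = _ := by rw [this]; ring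
  have key : 0 < h + 2 * ν * x * (m - h) - ν ^ 2 * x ^ 2 * (m - h) := by
    have k1 : c0 * t ≤ h + 2 * (m * ν / l) * s := by
      rw [hsd]
      linarith
    have a0 := abs_nonneg x
    have a1 : |2 * m * ν * x * s / l| ≤ 4 * m * t ^ 2 / l ^ 2 := by
      rw [abs_div, abs_mul, abs_mul, abs_mul, abs_of_pos hl, hs, abs_of_nonneg ν0,
        abs_of_pos (by positivity : 0 < 2 * m)]
      calc 2 * m * ν * |x| * t / l ≤ 2 * m * 1 * (2 * t / l) * t / l := by gcongr
        _ = _ := by field_simp; ring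
    have a2 : |2 * ν * x * h| ≤ 4 * t / l * |h| := by
      rw [abs_mul, abs_mul, abs_of_nonneg (by positivity : 0 ≤ 2 * ν)]
      calc 2 * ν * |x| * |h| ≤ 2 * 1 * (2 * t / l) * |h| := by gcongr
        _ = _ := by ring
    have a3 : ν ^ 2 * x ^ 2 * (m - h) ≤ 8 * m * t ^ 2 / l ^ 2 := by
      have b1 : x ^ 2 ≤ (2 * t / l) ^ 2 := by
        rw [← sq_abs x]
        exact pow_le_pow_left₀ a0 hxa 2
      have b2 : m - h ≤ 2 * m := by
        have := (abs_lt.1 h2).1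
        linarith
      have b3 : ν ^ 2 ≤ 1 := by nlinarith
      calc ν ^ 2 * x ^ 2 * (m - h) ≤ 1 * (2 * t / l) ^ 2 * (2 * m) := by gcongr
        _ = _ := by field_simp; ring
    have a4 : 4 * m * t ^ 2 / l ^ 2 + 8 * m * t ^ 2 / l ^ 2 < c0 * t / 2 := by
      rw [lt_div_iff₀ (by positivity)] at h3
      rw [← add_div, div_lt_iff₀ (by positivity)]
      nlinarith
    have a5 : 4 * t / l * |h| < c0 * t / 2 := by
      have : 4 * t / l * |h| = 4 * t * |h| / l := by ring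
      rw [this, div_lt_iff₀ hl]
      nlinarith
    have c1 := (abs_le.1 a1).2
    have c2 := (abs_le.1 a2).2
    nlinarith [k1, e1, a3, a4, a5, c1, c2]
  refine lt_of_pow_lt_pow_left₀ 2 hb.le (lt_of_lt_of_le ?_ hb2)
  have e2 : ((m - h) * (1 + -x * ν)) ^ 2 = (m - h) * ((m - h) * (1 - ν * x) ^ 2) := by ring
  rw [e2]
  have e3 : (m - h) * (1 - ν * x) ^ 2 < m := by nlinarith [key]
  calc (m - h) * ((m - h) * (1 - ν * x) ^ 2) < (m - h) * m := mul_lt_mul_of_pos_left e3 h5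
    _ = _ := by ring

private theorem usf_sg [Dim N] {l m c0 : ℝ} (hl : 0 < l) (hm : 0 < m) (hc0 : 0 < c0) (sg : ℝ)
    (hsg : sg = 1 ∨ sg = -1) :
    ∃ d : ℝ, 0 < d ∧ ∀ t h be : ℝ, 0 < t → t < d → |h| < d → 0 < l + sg * t → 0 < m - h →
      (c0 - 2 * (m * (4 - (N : ℝ)) / (4 * l)) * sg) * t ≤ h → 0 < be →
      m * (m - h) ≤ be ^ 2 → be ≤ tau N l m (l + sg * t) →
      ¬ HasGS N l (l + sg * t) m (m - h) be := by
  by_contra hcon
  push Not at hcon
  set d0 := min (l / 2) (min m (min (c0 * l ^ 2 / (24 * m)) (c0 * l / 8))) with hd0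
  have hd00 : 0 < d0 := by
    rw [hd0]
    refine lt_min (by positivity) (lt_min hm (lt_min (by positivity) (by positivity)))
  have hd : ∀ n : ℕ, (0 : ℝ) < min d0 (1 / ((n : ℝ) + 1)) := fun n => lt_min hd00 (by positivity)
  choose t h be k1 k2 k3 k4 k5 k6 k7 k8 k9 k10 using
    fun n : ℕ => hcon (min d0 (1 / ((n : ℝ) + 1))) (hd n)
  have l1 : Tendsto (fun n : ℕ => 1 / ((n : ℝ) + 1)) atTop (𝓝 0) :=
    tendsto_one_div_add_atTop_nhds_zero_nat
  have lt0 : Tendsto t atTop (𝓝 0) := squeeze_zero (fun n => (k1 n).le)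
    (fun n => (k2 n).le.trans (min_le_right _ _)) l1
  have lh : Tendsto h atTop (𝓝 0) := squeeze_zero_norm
    (fun n => (k3 n).le.trans (min_le_right _ _)) l1
  have lbe : Tendsto be atTop (𝓝 m) := by
    have x1 : Tendsto (fun n => m * (1 + |l + sg * t n - l| / l)) atTop (𝓝 m) := by
      have y1 : Tendsto (fun n => l + sg * t n - l) atTop (𝓝 0) := by
        have := ((lt0.const_mul sg).const_add l).sub_const l
        rwa [mul_zero, add_zero, sub_self] at this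
      have := (((y1.abs).div_const l).const_add 1).const_mul m
      rwa [abs_zero, zero_div, add_zero, mul_one] at this
    have x2 : Tendsto (fun n => Real.sqrt (m * (m - h n))) atTop (𝓝 m) := by
      have := ((lh.const_sub m).const_mul m).sqrt
      rwa [sub_zero, Real.sqrt_mul_self hm.le] at this
    refine tendsto_of_tendsto_of_tendsto_of_le_of_le x2 x1 (fun n => ?_)
      (fun n => (k9 n).trans (tau_upper hl hm (k4 n)))
    exact Real.sqrt_le_iff.2 ⟨(k7 n).le, k8 n⟩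
  have hgood : ∀ n, ∃ U V : H1 N, RD U ∧ RD V ∧ Sol l (l + sg * t n) m (m - h n) (be n) U V ∧
      IsMin l (l + sg * t n) m (m - h n) (be n) U V ∧
      0 < Dl m (m - h n) (be n) U V ∧ m * Q4 U U V V + be n * Q4 V V V V ≤ ip l V V ∧
      En l (l + sg * t n) m (m - h n) (be n) U V ≤ S2 N (l + sg * t n) / (4 * (m - h n)) := by
    intro n
    have d1 : min d0 (1 / ((n : ℝ) + 1)) ≤ d0 := min_le_left _ _
    have d2 : d0 ≤ l / 2 := min_le_left _ _
    have d3 : d0 ≤ m := (min_le_right _ _).trans (min_le_left _ _)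
    have d4 : d0 ≤ c0 * l ^ 2 / (24 * m) :=
      (min_le_right _ _).trans ((min_le_right _ _).trans (min_le_left _ _))
    have d5 : d0 ≤ c0 * l / 8 :=
      (min_le_right _ _).trans ((min_le_right _ _).trans (min_le_right _ _))
    have y1 := k2 n
    have y2 := k3 n
    refine good_GS' hl (k4 n) hm (k5 n) (k7 n) (k8 n) ?_ (k10 n)
    exact usf_rho hl hm hc0 hsg (k1 n) (by linarith) (by linarith) (by linarith) (by linarith)
      (k5 n) (k6 n) (k7 n) (k8 n)
  choose U V j1 j2 j3 j4 j5 j6 j7 using hgood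
  have hN : ∀ n, Neh l (l + sg * t n) m (m - h n) (be n) (U n) (V n) := fun n => (j4 n).1
  have lst : Tendsto (fun n => sg * t n) atTop (𝓝 0) := by
    have := lt0.const_mul sg
    rwa [mul_zero] at this
  obtain ⟨f, w, c, d, hf, hw, hwr, hc, hd', hcd, hUt, hVt⟩ :=
    s6_conv' hl hm (fun n => sg * t n) h be U V lst lh lbe k4 k5 k7 j1 j2 hN j7
  have hft : Tendsto f atTop atTop := hf.tendsto_atTop
  have hpo := pohozaev hl hm hw
  have hhc : ∀ n, (c0 - 2 * (gY w w / Q4 w w w w) * sg) * t n ≤ h n := by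
    intro n
    rw [hpo]
    exact k6 n
  obtain ⟨hdz, hc1⟩ := s6_zero' hl hm hc0 sg hsg (fun n => t (f n)) (fun n => h (f n))
    (fun n => be (f n)) (fun n => U (f n)) (fun n => V (f n)) w c d hw hc hd' hcd
    (fun n => k1 _) (lt0.comp hft) (lh.comp hft) (lbe.comp hft) (fun n => k4 _) (fun n => k5 _)
    (fun n => k7 _) (fun n => k8 _) (fun n => hhc _) (fun n => k9 _) (fun n => hN _)
    (fun n => j6 _) hUt hVt
  rw [hc1, one_smul] at hUt
  rw [hdz, zero_smul] at hVt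
  have ll2 : Tendsto (fun n => l + sg * t (f n)) atTop (𝓝 l) := by
    have := (lst.comp hft).const_add l
    rwa [add_zero] at this
  have lm2 : Tendsto (fun n => m - h (f n)) atTop (𝓝 m) := by
    have := (lh.comp hft).const_sub m
    rwa [sub_zero] at this
  obtain ⟨ep, hep0, hept, hepv⟩ := s6_dir' hl hm (fun n => l + sg * t (f n))
    (fun n => m - h (f n)) (fun n => be (f n)) (fun n => U (f n)) (fun n => V (f n)) w hw hwr
    ll2 (fun n => k4 _) lm2 (lbe.comp hft) (fun n => j2 _) (fun n => hN _) hUt hVt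
  have r2 : ∀ n, m + (be (f n) - m) = be (f n) := fun n => by ring
  have lg : Tendsto (fun n => be (f n) - m) atTop (𝓝 0) := by
    have := (lbe.comp hft).sub_const m
    rwa [sub_self] at this
  refine s6_contra' hl hm hc0 sg hsg (fun n => t (f n)) (fun n => h (f n))
    (fun n => be (f n) - m) ep (fun n => U (f n)) (fun n => V (f n)) w hw hwr (fun n => k1 _)
    (lt0.comp hft) (lh.comp hft) (fun n => k4 _) (fun n => k5 _) ?_ lg ?_ (fun n => hhc _) ?_
    (fun n => RD_Rad (j1 _)) (fun n => RD_Rad (j2 _)) ?_ ?_ (fun n => (hN (f n)).2.1) hUt hep0 hept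
    hepv
  · intro n
    rw [r2]
    exact k7 _
  · intro n
    rw [r2]
    exact k8 _
  · intro n
    rw [r2]
    exact k9 _
  · intro n
    rw [r2]
    exact j3 _
  · intro n
    rw [r2]
    exact j6 _

/-- module usf. Step 6, uniform version. Assembly by contradiction as in `nonex_six`: sequences with `d = 1/(n+1)`; pass to a
subsequence on which `l2 n - l` has constant sign `sg`, `t n = |l2 n - l|`, `h n = m - m2 n`; `al = m(4-N)/(4l)` is
`gY w w/Q4 w w w w` by `pohozaev`. `good_GS'` needs `rho0 N l l2 m2 < be`: `rho0 = m2 (1 + (l/l2 - 1)(4-N)/4)`,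
`rho0/m = 1 - h/m - (4-N)/(4l) s + O(s² + |h s|)` and `be ≥ √(m(m-h)) = m (1 - h/(2m) - O(h²))`, and
`h + 2 al s ≥ c0 |s|` gives `√(m m2) - rho0 = (h + 2 al s)/2 + O(s² + h²)`: positive if `|s|, |h|` are small: careful when
`|h| ≫ |s|`: then `h > 0` (as `h ≥ -C|s|`), and `√(m m2) - m2 = √m2 (√m - √m2) ≥ h/3`, `|m2 - rho0| ≤ C|s|`; so either
`h ≥ K|s|` with `K` large (fine), or `|h| ≤ K|s|` and the error is `O(s²) ≤ c0|s|/4`. `be → m`: `√(m m2) ≤ be ≤ tau` and `tau_upper`. Then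
`s6_conv'`, `s6_zero'`, `s6_dir'`, `s6_contra'`. -/
theorem nonex_six' [Dim N] {l m c0 : ℝ} (hl : 0 < l) (hm : 0 < m) (hc0 : 0 < c0) :
    ∃ d : ℝ, 0 < d ∧ ∀ l2 m2 be : ℝ, 0 < l2 → 0 < m2 → l2 ≠ l → |l2 - l| < d → |m2 - m| < d →
      c0 * |l2 - l| ≤ (m - m2) + 2 * (m * (4 - (N : ℝ)) / (4 * l)) * (l2 - l) → 0 < be →
      m * m2 ≤ be ^ 2 → be ≤ tau N l m l2 → ¬ HasGS N l l2 m m2 be := by
  obtain ⟨d1, hd1, k1⟩ := usf_sg (N := N) hl hm hc0 1 (Or.inl rfl)
  obtain ⟨d2, hd2, k2⟩ := usf_sg (N := N) hl hm hc0 (-1) (Or.inr rfl)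
  refine ⟨min d1 d2, lt_min hd1 hd2, ?_⟩
  intro l2 m2 be h1 h2 h3 h4 h5 h6 h7 h8 h9
  have e2 : m - (m - m2) = m2 := by ring
  have h5' : |m - m2| < min d1 d2 := by rwa [abs_sub_comm]
  rcases lt_or_gt_of_ne h3 with h | h
  · have e1 : l + -1 * (l - l2) = l2 := by ring
    have x1 := k2 (l - l2) (m - m2) be (by linarith) (by
      rw [abs_sub_comm, abs_of_pos (by linarith : 0 < l - l2)] at h4
      exact h4.trans_le (min_le_right _ _)) (h5'.trans_le (min_le_right _ _))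
    rw [e1, e2] at x1
    refine x1 h1 h2 ?_ h7 h8 h9
    rw [abs_sub_comm, abs_of_pos (by linarith : 0 < l - l2)] at h6
    linarith
  · have e1 : l + 1 * (l2 - l) = l2 := by ring
    have x1 := k1 (l2 - l) (m - m2) be (by linarith) (by
      rw [abs_of_pos (by linarith : 0 < l2 - l)] at h4
      exact h4.trans_le (min_le_left _ _)) (h5'.trans_le (min_le_left _ _))
    rw [e1, e2] at x1
    refine x1 h1 h2 ?_ h7 h8 h9
    rw [abs_of_pos (by linarith : 0 < l2 - l)] at h6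
    linarith

end Sir
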