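import Pool.Agent.Sir.FiveU
import Pool.Agent.Sir.SixU
import Pool.Agent.Sir.ExL
import Pool.Agent.Sir.ExU
import Pool.Agent.Sir.Neg
/-!
# The uniform theorem
-/

namespace Sir

open MeasureTheory Filter Topology

variable {N : ℕ}

/-- scaling to `l1 = 1` -/
theorem HasGS_one [Dim N] {l1 l2 m1 m2 be : ℝ} (h1 : 0 < l1) :
    HasGS N l1 l2 m1 m2 be ↔ HasGS N 1 (l2 / l1) m1 m2 be := by
  have h := HasGS_scale (N := N) (l1 := 1) (l2 := l2 / l1) (m1 := m1) (m2 := m2) (be := be)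
    (Real.sqrt_pos.2 h1)
  rw [Real.sq_sqrt h1.le, mul_one, mul_div_cancel₀ l2 h1.ne'] at h
  exact h

/-- scaling to `l2 = 1` -/
theorem HasGS_one' [Dim N] {l1 l2 m1 m2 be : ℝ} (h2 : 0 < l2) :
    HasGS N l1 l2 m1 m2 be ↔ HasGS N (l1 / l2) 1 m1 m2 be := by
  have h := HasGS_scale (N := N) (l1 := l1 / l2) (l2 := 1) (m1 := m1) (m2 := m2) (be := be)
    (Real.sqrt_pos.2 h2)
  rw [Real.sq_sqrt h2.le, mul_one, mul_div_cancel₀ l1 h2.ne'] at h
  exact h

theorem tau_one [Dim N] {l m l' : ℝ} (hl : 0 < l) (hm : 0 < m) :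
    tau N l m l' = tau N 1 m (l' / l) := by
  have h := tau_scale (N := N) (l := 1) (m := m) (l' := l' / l) one_pos hm (Real.sqrt_pos.2 hl)
  rw [Real.sq_sqrt hl.le, mul_one, mul_div_cancel₀ l' hl.ne'] at h
  exact h

/-- amplitude scaling to `m1 = 1` -/
theorem HasGS_m1 [Dim N] {l1 l2 m1 m2 be : ℝ} (h : 0 < m1) :
    HasGS N l1 l2 m1 m2 be ↔ HasGS N l1 l2 1 (m2 / m1) (be / m1) := by
  have h := HasGS_amp (N := N) (l1 := l1) (l2 := l2) (m1 := 1) (m2 := m2 / m1) (be := be / m1) h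
  rw [mul_one, mul_div_cancel₀ m2 (ne_of_gt ‹0 < m1›), mul_div_cancel₀ be (ne_of_gt ‹0 < m1›)] at h
  exact h

/-- amplitude scaling to `m2 = 1` -/
theorem HasGS_m2 [Dim N] {l1 l2 m1 m2 be : ℝ} (h : 0 < m2) :
    HasGS N l1 l2 m1 m2 be ↔ HasGS N l1 l2 (m1 / m2) 1 (be / m2) := by
  have h := HasGS_amp (N := N) (l1 := l1) (l2 := l2) (m1 := m1 / m2) (m2 := 1) (be := be / m2) h
  rw [mul_one, mul_div_cancel₀ m1 (ne_of_gt ‹0 < m2›), mul_div_cancel₀ be (ne_of_gt ‹0 < m2›)] at h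
  exact h

theorem tau_m [Dim N] {l m l' : ℝ} (hl : 0 < l) (hm : 0 < m) :
    tau N l m l' = m * tau N l 1 l' := by
  have h := tau_amp (N := N) (l := l) (m := 1) (l' := l') hl one_pos hm
  rw [mul_one] at h
  exact h

/-- assembly -/
theorem asm [Dim N] {l1 l2 m1 m2 be : ℝ} (h1 : 0 < l1) (h2 : 0 < l2) (hm1 : 0 < m1)
    (hm2 : 0 < m2) (hr0 : 0 < rho0 N l1 l2 m2) (hr : rho0 N l1 l2 m2 ^ 2 < m1 * m2)
    (hn : 0 < be → m1 * m2 ≤ be ^ 2 → be ≤ tau N l1 m1 l2 → ¬ HasGS N l1 l2 m1 m2 be)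
    (he : 0 < be → be < tau N l2 m2 l1 → HasGS N l1 l2 m1 m2 be) :
    HasGS N l1 l2 m1 m2 be ↔ (0 ≤ be ∧ be < min (tau N l1 m1 l2) (tau N l2 m2 l1)) ∨
      max (tau N l1 m1 l2) (tau N l2 m2 l1) < be := by
  have ht2 : tau N l2 m2 l1 ≤ rho0 N l1 l2 m2 := by
    obtain ⟨w, hw, -⟩ := exists_GNo (N := N) h2 hm2
    rw [← rho0_eq h2 hm2 hw, le_div_iff₀ (Q4_pos hw.1)]
    exact tau_le h2 hm2 h1 hw w
  have ht0 : 0 < min (tau N l1 m1 l2) (tau N l2 m2 l1) := by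
    have h3 := tau_ge (N := N) (l' := l1) h2 hm2 h1
    have h4 := tau_ge (N := N) (l' := l2) h1 hm1 h2
    have h5 : 0 < m2 * min 1 (l1 / l2) := mul_pos hm2 (lt_min one_pos (div_pos h1 h2))
    have h6 : 0 < m1 * min 1 (l2 / l1) := mul_pos hm1 (lt_min one_pos (div_pos h2 h1))
    exact lt_min (by linarith) (by linarith)
  constructor
  · intro h
    by_contra hc
    push Not at hc
    obtain ⟨hc1, hc2⟩ := hc
    rcases lt_or_ge be 0 with hb | hb
    · exact no_GS_neg h1 h2 hm1 hm2 hb h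
    · have hb2 := hc1 hb
      have hb3 : 0 < be := lt_of_lt_of_le ht0 hb2
      rcases lt_or_ge (be ^ 2) (m1 * m2) with h4 | h4
      · rcases min_le_iff.1 hb2 with h5 | h5
        · refine nonex_small h2 h1 hm2 hm1 h5 ?_ (HasGS_swap.1 h)
          rw [mul_comm]
          exact h4
        · exact nonex_small h1 h2 hm1 hm2 h5 h4 h
      · have h5 : rho0 N l1 l2 m2 < be := by
          by_contra hc3
          push Not at hc3
          have h6 : be ^ 2 ≤ rho0 N l1 l2 m2 ^ 2 := pow_le_pow_left₀ hb hc3 2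
          linarith
        rcases le_max_iff.1 hc2 with h6 | h6
        · exact hn hb3 h4 h6 h
        · linarith
  · rintro (⟨h3, h4⟩ | h3)
    · rcases h3.lt_or_eq with h5 | h5
      · exact he h5 (lt_of_lt_of_le h4 (min_le_right _ _))
      · rw [← h5]
        exact GS_zero h1 h2 hm1 hm2
    · exact ex_large h1 h2 hm1 hm2 (lt_of_le_of_lt (le_max_left _ _) h3)
        (lt_of_le_of_lt (le_max_right _ _) h3)

/-- module ral (real analysis). `e0 = (4-N)/2` in `(0,1]`, `ep > 0`: there is `d > 0` such that for `0 < |L| < d`,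
`ep |L| ≤ M + e0 L`:
(1) `0 < 1 + (e^{-L} - 1) e0/2` and `(1 + (e^{-L} - 1) e0/2)² < e^M` (`e^M ≥ 1 + M ≥ 1 - e0 L + ep |L|`, the left side is
`1 - e0 L + O(L²)`);
(2) `ep/4 |e^L - 1| ≤ (1 - e^{-M}) + e0 (e^L - 1)`;
(3) `e^{-M} < 1 + d'` and `|e^L - 1| < d'`, `|e^{-L} - 1| < d'` for a given `d' > 0`.
Proof of (2): `e^L - 1 ≥ L`; `1 - e^{-M}` is increasing in `M`, `M ≥ μ := -e0 L + ep |L|`, `1 - e^{-μ} ≥ μ - μ²` for `|μ| ≤ 1`;
`|e^L - 1| ≤ 2|L|`. (3) `-M ≤ e0 L - ep|L| ≤ |L|`. -/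
theorem real_asm {e0 ep d' : ℝ} (h0 : 0 < e0) (h1 : e0 ≤ 1) (hep : 0 < ep) (hd' : 0 < d') :
    ∃ d : ℝ, 0 < d ∧ ∀ L M : ℝ, |L| < d → ep * |L| ≤ M + e0 * L → L ≠ 0 →
      0 < 1 + (Real.exp (-L) - 1) * (e0 / 2) ∧
      (1 + (Real.exp (-L) - 1) * (e0 / 2)) ^ 2 < Real.exp M ∧
      ep / 4 * |Real.exp L - 1| ≤ (1 - Real.exp (-M)) + e0 * (Real.exp L - 1) ∧
      Real.exp (-M) < 1 + d' ∧ |Real.exp L - 1| < d' ∧ |Real.exp (-L) - 1| < d' := by
  have hp2 : 0 < 2 * (ep + 1) ^ 2 := by positivity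
  refine ⟨min 1 (min (ep / (2 * (ep + 1) ^ 2)) (d' / 2)), by positivity, ?_⟩
  intro L M hL hM hL0
  have hd1 : |L| < 1 := lt_of_lt_of_le hL (min_le_left _ _)
  have hd2 : |L| < ep / (2 * (ep + 1) ^ 2) :=
    lt_of_lt_of_le hL ((min_le_right _ _).trans (min_le_left _ _))
  have hd3 : |L| < d' / 2 := lt_of_lt_of_le hL ((min_le_right _ _).trans (min_le_right _ _))
  have hLp : 0 < |L| := abs_pos.2 hL0
  have hsq : L ^ 2 = |L| * |L| := by rw [abs_mul_abs_self, sq]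
  rw [lt_div_iff₀ hp2] at hd2
  have hA : |Real.exp L - 1 - L| ≤ L ^ 2 := Real.abs_exp_sub_one_sub_id_le hd1.le
  have hB : |Real.exp (-L) - 1 - (-L)| ≤ (-L) ^ 2 :=
    Real.abs_exp_sub_one_sub_id_le (by rw [abs_neg]; exact hd1.le)
  have hB' : (-L) ^ 2 = |L| * |L| := by rw [neg_sq, hsq]
  rw [hsq, abs_le] at hA
  rw [hB', abs_le] at hB
  have hLL : |L| * |L| ≤ |L| := mul_le_of_le_one_left hLp.le hd1.le
  have hl1 := le_abs_self L
  have hl2 := neg_abs_le L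
  have hC : |Real.exp L - 1| ≤ 2 * |L| := by
    rw [abs_le]
    constructor <;> linarith
  have hD : |Real.exp (-L) - 1| ≤ 2 * |L| := by
    rw [abs_le]
    constructor <;> linarith
  have hE : Real.exp |L| ≤ 1 + 2 * |L| := by
    have h2 := Real.abs_exp_sub_one_sub_id_le (x := |L|) (by rw [abs_abs]; exact hd1.le)
    rw [abs_le] at h2
    have h3 : |L| ^ 2 = |L| * |L| := sq _
    rw [h3] at h2
    linarith
  have hexp := Real.exp_pos (-L)
  have hel : |e0 * L| ≤ |L| := by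
    rw [abs_mul, abs_of_pos h0]
    exact mul_le_of_le_one_left hLp.le h1
  rw [abs_le] at hel
  refine ⟨?_, ?_, ?_, ?_, by linarith, by linarith⟩
  · have h2 : 1 + (Real.exp (-L) - 1) * (e0 / 2) = Real.exp (-L) * (e0 / 2) + (1 - e0 / 2) := by
      ring
    have h3 := mul_pos hexp (half_pos h0)
    linarith
  · have h2 := Real.add_one_le_exp M
    have h3 : (Real.exp (-L) - 1) ^ 2 ≤ 4 * (|L| * |L|) := by
      have h4 : (Real.exp (-L) - 1) ^ 2 = |Real.exp (-L) - 1| ^ 2 := (sq_abs _).symm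
      have h5 : 4 * (|L| * |L|) = (2 * |L|) ^ 2 := by ring
      rw [h4, h5]
      exact pow_le_pow_left₀ (abs_nonneg _) hD 2
    have h6 : (1 + (Real.exp (-L) - 1) * (e0 / 2)) ^ 2 =
        1 + e0 * (Real.exp (-L) - 1) + (Real.exp (-L) - 1) ^ 2 * (e0 ^ 2 / 4) := by ring
    have h7 : (Real.exp (-L) - 1) ^ 2 * (e0 ^ 2 / 4) ≤ |L| * |L| := by
      have h8 : e0 ^ 2 ≤ 1 := pow_le_one₀ h0.le h1
      have h9 : 0 ≤ (Real.exp (-L) - 1) ^ 2 := sq_nonneg _
      have h10 : (Real.exp (-L) - 1) ^ 2 * (e0 ^ 2 / 4) ≤ (Real.exp (-L) - 1) ^ 2 * (1 / 4) :=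
        mul_le_mul_of_nonneg_left (by linarith) h9
      linarith
    have h10 : e0 * (Real.exp (-L) - 1) ≤ e0 * (-L) + |L| * |L| := by
      have h11 : Real.exp (-L) - 1 ≤ -L + |L| * |L| := by linarith [hB.2]
      have h12 := mul_le_mul_of_nonneg_left h11 h0.le
      have h13 : e0 * (|L| * |L|) ≤ |L| * |L| := mul_le_of_le_one_left (mul_pos hLp hLp).le h1
      have h14 : e0 * (-L + |L| * |L|) = e0 * (-L) + e0 * (|L| * |L|) := by ring
      linarith
    have h14 : 2 * (|L| * |L|) < ep * |L| := by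
      have h15 : 2 * |L| < ep := by
        have h16 : |L| * 2 ≤ |L| * (2 * (ep + 1) ^ 2) := by
          apply mul_le_mul_of_nonneg_left _ hLp.le
          have h18 : 2 * (ep + 1) ^ 2 = 2 + 4 * ep + 2 * ep ^ 2 := by ring
          have h19 := sq_nonneg ep
          linarith
        linarith
      have h17 := mul_lt_mul_of_pos_right h15 hLp
      linarith
    rw [h6]
    linarith
  · set mu := ep * |L| - e0 * L with hmu
    have h2 : mu ≤ M := by linarith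
    have hpL : 0 < ep * |L| := mul_pos hep hLp
    have h3 : |mu| ≤ (ep + 1) * |L| := by
      rw [abs_le]
      constructor <;> linarith
    have h4 : (ep + 1) * |L| ≤ 1 := by
      by_contra hc
      push Not at hc
      have h12 : (ep + 1) * 1 < (ep + 1) * ((ep + 1) * |L|) :=
        mul_lt_mul_of_pos_left hc (by linarith)
      have h13 : (ep + 1) * ((ep + 1) * |L|) = (|L| * (2 * (ep + 1) ^ 2)) / 2 := by ring
      linarith
    have h5 := Real.abs_exp_sub_one_sub_id_le (x := -mu) (by rw [abs_neg]; linarith)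
    rw [abs_le] at h5
    have h6 : Real.exp (-M) ≤ Real.exp (-mu) := Real.exp_le_exp.2 (by linarith)
    have h7 : (-mu) ^ 2 ≤ ((ep + 1) * |L|) ^ 2 := by
      rw [neg_sq, ← sq_abs mu]
      exact pow_le_pow_left₀ (abs_nonneg _) h3 2
    have h8 : e0 * L ≤ e0 * (Real.exp L - 1) := by
      have := Real.add_one_le_exp L
      exact mul_le_mul_of_nonneg_left (by linarith) h0.le
    have h9 : ((ep + 1) * |L|) ^ 2 ≤ ep / 2 * |L| := by
      have h10 : ((ep + 1) * |L|) ^ 2 = (|L| * (2 * (ep + 1) ^ 2)) * |L| / 2 := by ring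
      rw [h10]
      have h14 : (|L| * (2 * (ep + 1) ^ 2)) * |L| ≤ ep * |L| :=
        mul_le_mul_of_nonneg_right hd2.le hLp.le
      linarith
    have h11 : ep / 4 * |Real.exp L - 1| ≤ ep / 4 * (2 * |L|) :=
      mul_le_mul_of_nonneg_left hC (by positivity)
    linarith [h5.2]
  · have h2 : -M ≤ |L| := by
      have hpL : 0 < ep * |L| := mul_pos hep hLp
      linarith
    have h3 : Real.exp (-M) ≤ Real.exp |L| := Real.exp_le_exp.2 h2
    linarith

/-- one order of the scalar levels -/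
theorem uni_one [Dim N] {ep : ℝ} (hep : 0 < ep) : ∃ d : ℝ, 0 < d ∧
    ∀ l1 l2 m1 m2 be : ℝ, 0 < l1 → 0 < l2 → 0 < m1 → 0 < m2 → l1 ≠ l2 →
      |Real.log (l2 / l1)| < d →
      ep * |Real.log (l2 / l1)| ≤
        Real.log (m1 / m2) + (4 - (N : ℝ)) / 2 * Real.log (l2 / l1) →
      (HasGS N l1 l2 m1 m2 be ↔ (0 ≤ be ∧ be < min (tau N l1 m1 l2) (tau N l2 m2 l1)) ∨
        max (tau N l1 m1 l2) (tau N l2 m2 l1) < be) := by
  have he0 : 0 < (4 - (N : ℝ)) / 2 ∧ (4 - (N : ℝ)) / 2 ≤ 1 := by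
    rcases (‹Dim N›).h with rfl | rfl
    · norm_num
    · norm_num
  obtain ⟨d6, hd6, H6⟩ := nonex_six' (N := N) (l := 1) (m := 1) (c0 := ep / 4) one_pos one_pos
    (by positivity)
  set d6' : ℝ := min d6 (1 / 2) with hd6'
  have hd60 : 0 < d6' := by positivity
  have hth : 0 < 1 - d6' / 2 := by
    have : d6' ≤ 1 / 2 := min_le_right _ _
    linarith
  obtain ⟨d5, hd5, H5⟩ := nonex_five' (N := N) (l := 1) (m1 := 1) (th := 1 - d6' / 2) one_pos hth
    (by linarith)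
  obtain ⟨d8, hd8, H8⟩ := ex_small' (N := N) (l := 1) (m2 := 1) one_pos one_pos
  obtain ⟨d, hd, H⟩ := real_asm he0.1 he0.2 hep (d' := min d6' (min d5 d8)) (by positivity)
  refine ⟨d, hd, ?_⟩
  intro l1 l2 m1 m2 be h1 h2 hm1 hm2 hne hL hM
  set L : ℝ := Real.log (l2 / l1) with hLdef
  set M : ℝ := Real.log (m1 / m2) with hMdef
  have hx : Real.exp L = l2 / l1 := Real.exp_log (div_pos h2 h1)
  have hx' : Real.exp (-L) = l1 / l2 := by
    rw [Real.exp_neg, hx, inv_div]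
  have hy : Real.exp M = m1 / m2 := Real.exp_log (div_pos hm1 hm2)
  have hy' : Real.exp (-M) = m2 / m1 := by
    rw [Real.exp_neg, hy, inv_div]
  have hL0 : L ≠ 0 := by
    intro hc
    have h3 : l2 / l1 = 1 := by
      rw [← hx, hc, Real.exp_zero]
    rw [div_eq_one_iff_eq h1.ne'] at h3
    exact hne h3.symm
  obtain ⟨a1, a2, a3, a4, a5, a6⟩ := H L M hL hM hL0
  rw [hx'] at a1 a2 a6
  rw [hy] at a2
  rw [hx, hy'] at a3
  rw [hy'] at a4
  rw [hx] at a5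
  have hrho : rho0 N l1 l2 m2 = m2 * (1 + (l1 / l2 - 1) * ((4 - (N : ℝ)) / 2 / 2)) := by
    unfold rho0
    ring
  refine asm h1 h2 hm1 hm2 ?_ ?_ ?_ ?_
  · rw [hrho]
    exact mul_pos hm2 a1
  · rw [hrho, mul_pow]
    have h3 := mul_lt_mul_of_pos_left a2 (pow_pos hm2 2)
    have h4 : m2 ^ 2 * (m1 / m2) = m1 * m2 := by
      field_simp
    linarith
  · intro b1 b2 b3
    rw [HasGS_one h1, HasGS_m1 hm1]
    have c1 : 0 < be / m1 := div_pos b1 hm1
    have c2 : 1 * (m2 / m1) ≤ (be / m1) ^ 2 := by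
      rw [one_mul, div_pow, div_le_div_iff₀ hm1 (pow_pos hm1 2)]
      nlinarith
    have c3 : be / m1 ≤ tau N 1 1 (l2 / l1) := by
      rw [tau_one h1 hm1, tau_m one_pos hm1] at b3
      rw [div_le_iff₀ hm1]
      linarith
    have c4 : 0 < m2 / m1 := div_pos hm2 hm1
    have c5 : 0 < l2 / l1 := div_pos h2 h1
    rcases le_or_gt (m2 / m1) (1 - d6' / 2) with h3 | h3
    · exact H5 (l2 / l1) (m2 / m1) (be / m1) c5
        (lt_of_lt_of_le a5 ((min_le_right _ _).trans (min_le_left _ _))) c4 h3 c1 c2 c3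
    · refine H6 (l2 / l1) (m2 / m1) (be / m1) c5 c4 ?_ ?_ ?_ ?_ c1 c2 c3
      · intro hc
        rw [div_eq_one_iff_eq h1.ne'] at hc
        exact hne hc.symm
      · exact lt_of_lt_of_le a5 ((min_le_left _ _).trans (min_le_left _ _))
      · have h4 : m2 / m1 < 1 + d6' := lt_of_lt_of_le a4 (by
          have := min_le_left d6' (min d5 d8)
          linarith)
        have h5 : d6' ≤ d6 := min_le_left _ _
        rw [abs_lt]
        constructor
        · linarith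
        · linarith
      · have h4 : 2 * (1 * (4 - (N : ℝ)) / (4 * 1)) = (4 - (N : ℝ)) / 2 := by ring
        rw [h4]
        exact a3
  · intro b1 b2
    rw [HasGS_one' h2, HasGS_m2 hm2]
    have c1 : 0 < be / m2 := div_pos b1 hm2
    have c3 : be / m2 < tau N 1 1 (l1 / l2) := by
      rw [tau_one h2 hm2, tau_m one_pos hm2] at b2
      rw [div_lt_iff₀ hm2]
      linarith
    refine H8 (l1 / l2) (m1 / m2) (be / m2) (div_pos h1 h2)
      (lt_of_lt_of_le a6 ((min_le_right _ _).trans (min_le_right _ _))) (div_pos hm1 hm2) ?_ c1 c3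
    have h3 : rho0 N (l1 / l2) 1 1 = 1 + (l1 / l2 - 1) * ((4 - (N : ℝ)) / 2 / 2) := by
      unfold rho0
      ring
    rw [h3, mul_one]
    exact a2.le

/-- **Uniform theorem** -/
theorem main_uni (N : ℕ) (hN : N = 2 ∨ N = 3) (ep : ℝ) (hep : 0 < ep) :
    ∃ d : ℝ, 0 < d ∧ ∀ l1 l2 m1 m2 : ℝ, 0 < l1 → 0 < l2 → 0 < m1 → 0 < m2 → l1 ≠ l2 →
      |Real.log (l2 / l1)| < d →
      ep * |Real.log (l2 / l1)| ≤
        |Real.log (m1 / m2) + (4 - (N : ℝ)) / 2 * Real.log (l2 / l1)| →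
      ∀ be : ℝ, (HasGS N l1 l2 m1 m2 be ↔
        (0 ≤ be ∧ be < min (tau N l1 m1 l2) (tau N l2 m2 l1)) ∨
          max (tau N l1 m1 l2) (tau N l2 m2 l1) < be) := by
  have : Dim N := ⟨hN⟩
  obtain ⟨d, hd, H⟩ := uni_one (N := N) hep
  refine ⟨d, hd, ?_⟩
  intro l1 l2 m1 m2 h1 h2 hm1 hm2 hne hL hM be
  rcases le_or_gt 0 (Real.log (m1 / m2) + (4 - (N : ℝ)) / 2 * Real.log (l2 / l1)) with h3 | h3
  · rw [abs_of_nonneg h3] at hM
    exact H l1 l2 m1 m2 be h1 h2 hm1 hm2 hne hL hM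
  · rw [abs_of_neg h3] at hM
    have h4 : Real.log (l1 / l2) = - Real.log (l2 / l1) := by
      rw [← Real.log_inv, inv_div]
    have h5 : Real.log (m2 / m1) = - Real.log (m1 / m2) := by
      rw [← Real.log_inv, inv_div]
    rw [HasGS_swap, H l2 l1 m2 m1 be h2 h1 hm2 hm1 hne.symm (by rw [h4, abs_neg]; exact hL)
      (by rw [h4, h5, abs_neg]; linarith), min_comm, max_comm]

end Sir
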