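import Pool.Agent.Sir.Poh
import Pool.Agent.Sir.ND
/-!
# Uniform Step 5 : `μ1 = m1`, `μ2 = m2` arbitrary in `(0, th]`, `th < m1`
modules: ufa, ufb, ufc, ufd, ufe (variants of fia - fie)
-/

namespace Sir

open MeasureTheory Filter Topology

variable {N : ℕ}

/-- module ufa. As `s5_est`, constants uniform in `m2 ∈ (0,th]`: with `Y(v) ≤ b/l2`, `b = β Q + m2 R`,
`(β - m1 + C|s|) Q ≥ (β - m2 - C|s| m2) R`, and `β - m2 (1+C|s|) ≥ √m2 (√m1 - √m2 (1 + C|s|)) > 0` for small `|s|`. So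
`β ≥ m1 - C|s|`, then `β - m2(1+C|s|) ≥ (m1 - th)/2` and `R ≤ C'|s| Q`. -/
theorem s5_est' [Dim N] {l m1 th : ℝ} (hl : 0 < l) (hth : 0 < th) (hm : th < m1) :
    ∃ C d : ℝ, 0 < C ∧ 0 < d ∧ ∀ (l2 m2 be : ℝ) (u v : H1 N), |l2 - l| < d → 0 < m2 → m2 ≤ th →
      0 < be → m1 * m2 ≤ be ^ 2 → be ≤ m1 * (1 + |l2 - l| / l) → Neh l l2 m1 m2 be u v →
      m1 * Q4 u u v v + be * Q4 v v v v ≤ ip l v v →
      Q4 v v v v ≤ C * |l2 - l| * Q4 u u v v ∧ |be - m1| ≤ C * |l2 - l| ∧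
        Q4 u u v v ≤ C * |l2 - l| * Q4 u u u u := by
  have hm1 : 0 < m1 := hth.trans hm
  set k : ℝ := m1 - th with hk
  have hk0 : 0 < k := by linarith
  refine ⟨10 * m1 / (l * k) + 4 * m1 / l, min (l / 2) (k * l / (12 * m1)), by positivity,
    lt_min (by positivity) (by positivity), ?_⟩
  intro l2 m2 be u v hd hm2 hm2t hbe hb2 hbu hN hII
  have hd1 : |l2 - l| < l / 2 := hd.trans_le (min_le_left _ _)
  have hd2 : |l2 - l| < k * l / (12 * m1) := hd.trans_le (min_le_right _ _)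
  have hs0 := abs_nonneg (l2 - l)
  set s : ℝ := |l2 - l| with hs
  have hl2 : l / 2 < l2 := by
    have := (abs_lt.1 hd1).1
    linarith
  have hsl : s / l < 1 / 2 := by
    rw [div_lt_iff₀ hl]
    linarith
  have hsl0 : 0 ≤ s / l := by positivity
  have hsk : 12 * (m1 * (s / l)) ≤ k := by
    have h1 : s * (12 * m1) < k * l := (lt_div_iff₀ (by positivity)).1 hd2
    have h2 : 12 * (m1 * (s / l)) = s * (12 * m1) / l := by ring
    rw [h2, div_le_iff₀ hl]
    exact h1.le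
  obtain ⟨hu, hv, -, hb⟩ := hN
  have hR : 0 < Q4 v v v v := Q4_pos hv
  have hP : 0 < Q4 u u u u := Q4_pos hu
  have hQ0 : 0 ≤ Q4 u u v v := Q4_nonneg u v
  have hcs := Q4_cs u v
  set P := Q4 u u u u
  set Q := Q4 u u v v
  set R := Q4 v v v v
  set Y := gY v v with hY
  have hY0 : 0 ≤ Y := gY_nonneg v
  have hipl : ip l v v = ip l2 v v - (l2 - l) * Y := by
    unfold ip
    ring
  have hYle : l2 * Y ≤ m2 * R + be * Q := by
    rw [← hb]
    exact gY_le_ip v
  have hbm : be - m1 ≤ m1 * s / l := by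
    have : m1 * (1 + s / l) = m1 + m1 * s / l := by ring
    linarith
  have hbe2 : be ≤ 2 * m1 := by nlinarith
  -- `s Y ≤ (2 s / l) (m2 R + be Q)`
  have hsY : s * Y ≤ 2 * s / l * (m2 * R + be * Q) := by
    have h1 : l / 2 * Y ≤ m2 * R + be * Q := (mul_le_mul_of_nonneg_right hl2.le hY0).trans hYle
    have h2 : Y ≤ 2 / l * (m2 * R + be * Q) := by
      rw [div_mul_eq_mul_div, le_div_iff₀ hl]
      linarith
    calc s * Y ≤ s * (2 / l * (m2 * R + be * Q)) := mul_le_mul_of_nonneg_left h2 hs0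
      _ = _ := by ring
  have hsY2 : -(s * Y) ≤ (l2 - l) * Y := by
    have : -s ≤ l2 - l := neg_abs_le _
    nlinarith
  have h1 : (be - m2) * R ≤ (be - m1) * Q + 2 * s / l * (m2 * R + be * Q) := by
    rw [hipl, hb] at hII
    linarith
  have h3 : (be - m2 * (1 + 2 * (s / l))) * R ≤ (be - m1 + 4 * m1 * s / l) * Q := by
    have e1 : 2 * s / l * (m2 * R + be * Q) = (m2 * (2 * (s / l))) * R + 2 * s / l * be * Q := by
      ring
    have e3 : 2 * s / l * be * Q ≤ 4 * m1 * s / l * Q := by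
      refine mul_le_mul_of_nonneg_right ?_ hQ0
      have : 0 ≤ 2 * s / l := by positivity
      calc 2 * s / l * be ≤ 2 * s / l * (2 * m1) := mul_le_mul_of_nonneg_left hbe2 this
        _ = _ := by ring
    linarith
  -- `m2 (1 + 2 s / l) < be`
  have hbig : m2 * (1 + 2 * (s / l)) < be := by
    refine lt_of_pow_lt_pow_left₀ 2 hbe.le (lt_of_lt_of_le ?_ hb2)
    have e1 : (1 + 2 * (s / l)) ^ 2 ≤ 1 + 6 * (s / l) := by nlinarith
    have e2 : m2 * (1 + 2 * (s / l)) ^ 2 ≤ th * (1 + 6 * (s / l)) :=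
      mul_le_mul hm2t e1 (sq_nonneg _) hth.le
    have e3 : th * (1 + 6 * (s / l)) < m1 := by
      have e4 : th * (s / l) ≤ m1 * (s / l) := mul_le_mul_of_nonneg_right hm.le hsl0
      have e5 : th * (1 + 6 * (s / l)) = th + 6 * (th * (s / l)) := by ring
      linarith
    have e6 : (m2 * (1 + 2 * (s / l))) ^ 2 = m2 * (m2 * (1 + 2 * (s / l)) ^ 2) := by ring
    rw [e6, mul_comm m1 m2]
    exact mul_lt_mul_of_pos_left (e2.trans_lt e3) hm2
  have hQ : 0 < Q := by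
    rcases hQ0.lt_or_eq with e | e
    · exact e
    · rw [← e, mul_zero] at h3
      have : 0 < (be - m2 * (1 + 2 * (s / l))) * R := mul_pos (by linarith) hR
      linarith
  have h4 : 0 < be - m1 + 4 * m1 * s / l := by
    have e1 : 0 < (be - m1 + 4 * m1 * s / l) * Q :=
      lt_of_lt_of_le (mul_pos (by linarith) hR) h3
    exact pos_of_mul_pos_left e1 hQ.le
  have h5 : R ≤ 10 * m1 / (l * k) * s * Q := by
    have e0 : k / 2 * R ≤ (be - m2 * (1 + 2 * (s / l))) * R := by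
      refine mul_le_mul_of_nonneg_right ?_ hR.le
      have f1 : m2 * (1 + 2 * (s / l)) ≤ th * (1 + 2 * (s / l)) :=
        mul_le_mul_of_nonneg_right hm2t (by positivity)
      have f2 : th * (1 + 2 * (s / l)) = th + 2 * (th * (s / l)) := by ring
      have f3 : th * (s / l) ≤ m1 * (s / l) := mul_le_mul_of_nonneg_right hm.le hsl0
      have f4 : 4 * m1 * s / l = 4 * (m1 * (s / l)) := by ring
      rw [f4] at h4
      linarith
    have e1 : (be - m1 + 4 * m1 * s / l) * Q ≤ (5 * m1 * s / l) * Q := by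
      refine mul_le_mul_of_nonneg_right ?_ hQ.le
      have : 5 * m1 * s / l = m1 * s / l + 4 * m1 * s / l := by ring
      linarith
    have e2 : k / 2 * R ≤ (5 * m1 * s / l) * Q := (e0.trans h3).trans e1
    have e3 : 10 * m1 / (l * k) * s * Q = (2 / k) * ((5 * m1 * s / l) * Q) := by
      field_simp
      ring
    rw [e3]
    calc R = (2 / k) * (k / 2 * R) := by field_simp
      _ ≤ _ := mul_le_mul_of_nonneg_left e2 (by positivity)
  have h6 : R ≤ (10 * m1 / (l * k) + 4 * m1 / l) * s * Q := by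
    refine h5.trans (mul_le_mul_of_nonneg_right (mul_le_mul_of_nonneg_right ?_ hs0) hQ.le)
    have : 0 ≤ 4 * m1 / l := by positivity
    linarith
  refine ⟨h6, ?_, ?_⟩
  · have e1 : |be - m1| ≤ 4 * m1 * s / l := by
      rw [abs_le]
      refine ⟨by linarith, hbm.trans ?_⟩
      have : 4 * m1 * s / l = m1 * s / l + 3 * (m1 * s / l) := by ring
      have e2 : 0 ≤ m1 * s / l := by positivity
      linarith
    refine e1.trans ?_
    have e2 : 4 * m1 * s / l = 4 * m1 / l * s := by ring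
    rw [e2]
    refine mul_le_mul_of_nonneg_right ?_ hs0
    have : 0 ≤ 10 * m1 / (l * k) := by positivity
    linarith
  · have e1 : Q ^ 2 ≤ P * ((10 * m1 / (l * k) + 4 * m1 / l) * s * Q) :=
      hcs.trans (mul_le_mul_of_nonneg_left h6 hP.le)
    have e2 : Q * Q ≤ Q * ((10 * m1 / (l * k) + 4 * m1 / l) * s * P) := by
      calc Q * Q = Q ^ 2 := by ring
        _ ≤ _ := e1
        _ = _ := by ring
    exact le_of_mul_le_mul_left e2 hQ

/-- module ufb. As `s5_level`, uniform in `m2 ∈ (0,th]`: the pair `(w + t p, w)` is in `OmMp` for all `m2 ∈ (0,th]` (the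
conditions are monotone in `r`), and `EEp ≤ a²/(4p)` by `EE_a`, which does not contain `m2`. -/
theorem s5_level' [Dim N] {l m1 th : ℝ} (hl : 0 < l) (hth : 0 < th) (hm : th < m1) {e : ℝ}
    (he : 0 < e) : ∃ d : ℝ, 0 < d ∧ ∀ (l2 m2 be : ℝ) (u v : H1 N), 0 < l2 → |l2 - l| < d →
      0 < m2 → m2 ≤ th → |be - m1| < d → IsMin l l2 m1 m2 be u v →
      En l l2 m1 m2 be u v < S2 N l / (4 * m1) + e := by
  have hm1 : 0 < m1 := hth.trans hm
  obtain ⟨w, hw, -⟩ := exists_GNo (N := N) hl hm1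
  obtain ⟨hw1, hw2⟩ := GNo_vals hl hm1 hw
  have hP : 0 < Q4 w w w w := Q4_pos hw.1
  set P := Q4 w w w w with hPdef
  have hA : ip l w w = m1 * P := hw.2.1
  have hS : S2 N l = m1 ^ 2 * P := by
    rw [hw1]
    field_simp
  -- choice of `δ`
  obtain ⟨t, ht0, hδ1, hδ2⟩ : ∃ t : ℝ, 0 < t ∧
      (m1 * P + (2 * t * Real.sqrt (m1 * P) + t ^ 2)) * (th * P) < m1 * P * (m1 * P) ∧
      (m1 * P + (2 * t * Real.sqrt (m1 * P) + t ^ 2)) ^ 2 / (4 * (m1 * P)) <
        S2 N l / (4 * m1) + e := by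
    have c1 : Continuous (fun t : ℝ =>
        (m1 * P + (2 * t * Real.sqrt (m1 * P) + t ^ 2)) * (th * P)) := by fun_prop
    have c2 : Continuous (fun t : ℝ =>
        (m1 * P + (2 * t * Real.sqrt (m1 * P) + t ^ 2)) ^ 2 / (4 * (m1 * P))) := by fun_prop
    have e1 : ∀ᶠ t : ℝ in 𝓝 0,
        (m1 * P + (2 * t * Real.sqrt (m1 * P) + t ^ 2)) * (th * P) < m1 * P * (m1 * P) := by
      refine (c1.tendsto 0).eventually_lt_const ?_
      simp only [mul_zero, zero_mul, zero_add, ne_eq, OfNat.ofNat_ne_zero, not_false_eq_true,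
        zero_pow, add_zero]
      have : th * P < m1 * P := mul_lt_mul_of_pos_right hm hP
      exact mul_lt_mul_of_pos_left this (by positivity)
    have e2 : ∀ᶠ t : ℝ in 𝓝 0,
        (m1 * P + (2 * t * Real.sqrt (m1 * P) + t ^ 2)) ^ 2 / (4 * (m1 * P)) <
        S2 N l / (4 * m1) + e := by
      refine (c2.tendsto 0).eventually_lt_const ?_
      simp only [mul_zero, zero_mul, zero_add, ne_eq, OfNat.ofNat_ne_zero, not_false_eq_true,
        zero_pow, add_zero]
      rw [hS]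
      have : (m1 * P) ^ 2 / (4 * (m1 * P)) = m1 ^ 2 * P / (4 * m1) := by
        field_simp
      rw [this]
      linarith
    have e3 : ∀ᶠ t : ℝ in 𝓝[>] 0, 0 < t := self_mem_nhdsWithin
    obtain ⟨t, a1, a2, a3⟩ := (e3.and ((e1.filter_mono nhdsWithin_le_nhds).and
      (e2.filter_mono nhdsWithin_le_nhds))).exists
    exact ⟨t, a1, a2, a3⟩
  set δ : ℝ := 2 * t * Real.sqrt (m1 * P) + t ^ 2 with hδ
  -- flat functions
  have hflat : ∀ n : ℕ, ∃ p : H1 N, ip l p p = 1 ∧ Q4 p p p p < 1 / ((n : ℝ) + 1) ∧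
      0 ≤ ip l w p := by
    intro n
    obtain ⟨p, h1, h2⟩ := flat (N := N) hl (d := 1 / ((n : ℝ) + 1)) (by positivity)
    rcases le_total 0 (ip l w p) with h3 | h3
    · exact ⟨p, h1, h2, h3⟩
    · refine ⟨-p, ?_, ?_, ?_⟩
      · rw [ip_neg_left, ip_neg_right, neg_neg, h1]
      · rw [Q4_neg1, Q4_neg2, Q4_neg3, Q4_neg4, neg_neg, neg_neg]
        exact h2
      · rw [ip_neg_right]
        linarith
  choose p hp1 hp2 hp3 using hflat
  have hn4 : Tendsto (fun n => n4 (p n)) atTop (𝓝 0) := by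
    have h1 : Tendsto (fun n => Q4 (p n) (p n) (p n) (p n)) atTop (𝓝 0) :=
      squeeze_zero (fun n => Q4_nonneg _ _) (fun n => (hp2 n).le)
        tendsto_one_div_add_atTop_nhds_zero_nat
    have h2 := h1.rpow_const (p := (1 : ℝ) / 4) (Or.inr (by norm_num))
    rw [Real.zero_rpow (by norm_num)] at h2
    exact h2
  set U : ℕ → H1 N := fun n => w + t • p n with hU
  have hUw : Tendsto (fun n => n4 (U n - w)) atTop (𝓝 0) := by
    have h1 : ∀ n, n4 (U n - w) = |t| * n4 (p n) := fun n => by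
      rw [hU]
      simp only [add_sub_cancel_left]
      exact n4_smul _ _
    simp only [h1]
    have := hn4.const_mul |t|
    rwa [mul_zero] at this
  have hww : Tendsto (fun _ : ℕ => n4 (w - w)) atTop (𝓝 0) := by
    have : n4 (w - w) = 0 := by
      rw [sub_self]
      unfold n4
      rw [Q4_zero1, Real.zero_rpow (by norm_num)]
    rw [this]
    exact tendsto_const_nhds
  have hPU : Tendsto (fun n => Q4 (U n) (U n) (U n) (U n)) atTop (𝓝 P) :=
    Q4_tendsto U U U U w w w w hUw hUw hUw hUw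
  have hQU : Tendsto (fun n => Q4 (U n) (U n) w w) atTop (𝓝 P) :=
    Q4_tendsto U U (fun _ => w) (fun _ => w) w w w w hUw hUw hww hww
  have haU : ∀ n, ip l (U n) (U n) = m1 * P + (2 * t * ip l w (p n) + t ^ 2) := by
    intro n
    rw [hU]
    simp only [ip_add_left, ip_add_right, ip_smul_left, ip_smul_right]
    rw [ip_comm l (p n) w, hp1, hA]
    ring
  have hσ : ∀ n, ip l w (p n) ≤ Real.sqrt (m1 * P) := by
    intro n
    have h1 := ip_cs hl.le w (p n)
    rw [hp1, mul_one, hA] at h1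
    exact Real.le_sqrt_of_sq_le h1
  have ha1 : ∀ n, m1 * P + t ^ 2 ≤ ip l (U n) (U n) := by
    intro n
    rw [haU]
    have := hp3 n
    have : 0 ≤ 2 * t * ip l w (p n) := by positivity
    linarith
  have ha2 : ∀ n, ip l (U n) (U n) ≤ m1 * P + δ := by
    intro n
    rw [haU, hδ]
    have h1 : 2 * t * ip l w (p n) ≤ 2 * t * Real.sqrt (m1 * P) :=
      mul_le_mul_of_nonneg_left (hσ n) (by positivity)
    linarith
  have hmP : 0 < m1 * P := by positivity
  have hδ0 : 0 < δ := by positivity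
  -- a good `n`
  obtain ⟨n, g1, g2, g3, g4, g5⟩ : ∃ n : ℕ,
      0 < (m1 * Q4 (U n) (U n) w w) ^ 2 - m1 * Q4 (U n) (U n) (U n) (U n) * (th * P) ∧
      ip l (U n) (U n) * (th * P) < ip l w w * (m1 * Q4 (U n) (U n) w w) ∧
      ip l w w * (m1 * Q4 (U n) (U n) (U n) (U n)) <
        ip l (U n) (U n) * (m1 * Q4 (U n) (U n) w w) ∧
      (ip l (U n) (U n)) ^ 2 / (4 * (m1 * Q4 (U n) (U n) (U n) (U n))) < S2 N l / (4 * m1) + e ∧
      0 < Q4 (U n) (U n) (U n) (U n) := by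
    have k1 : ∀ᶠ n in atTop,
        0 < (m1 * Q4 (U n) (U n) w w) ^ 2 - m1 * Q4 (U n) (U n) (U n) (U n) * (th * P) := by
      have := ((hQU.const_mul m1).pow 2).sub ((hPU.const_mul m1).mul_const (th * P))
      refine this.eventually_const_lt ?_
      have : (m1 * P) ^ 2 - m1 * P * (th * P) = m1 * P * (P * (m1 - th)) := by ring
      rw [this]
      have : 0 < m1 - th := by linarith
      positivity
    have k2 : ∀ᶠ n in atTop,
        (m1 * P + δ) * (th * P) < ip l w w * (m1 * Q4 (U n) (U n) w w) := by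
      have := (hQU.const_mul m1).const_mul (ip l w w)
      refine this.eventually_const_lt ?_
      rw [hA]
      exact hδ1
    have k3 : ∀ᶠ n in atTop, ip l w w * (m1 * Q4 (U n) (U n) (U n) (U n)) <
        (m1 * P + t ^ 2) * (m1 * Q4 (U n) (U n) w w) := by
      have a1 := (hPU.const_mul m1).const_mul (ip l w w)
      have a2 := (hQU.const_mul m1).const_mul (m1 * P + t ^ 2)
      refine a1.eventually_lt a2 ?_
      rw [hA]
      refine mul_lt_mul_of_pos_right ?_ hmP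
      have : 0 < t ^ 2 := by positivity
      linarith
    have k4 : ∀ᶠ n in atTop, (m1 * P + δ) ^ 2 / (4 * (m1 * Q4 (U n) (U n) (U n) (U n))) <
        S2 N l / (4 * m1) + e := by
      have a1 : Tendsto (fun n => (m1 * P + δ) ^ 2 / (4 * (m1 * Q4 (U n) (U n) (U n) (U n))))
          atTop (𝓝 ((m1 * P + δ) ^ 2 / (4 * (m1 * P)))) :=
        tendsto_const_nhds.div ((hPU.const_mul m1).const_mul 4) (by positivity)
      exact a1.eventually_lt_const hδ2
    have k5 : ∀ᶠ n in atTop, 0 < Q4 (U n) (U n) (U n) (U n) := hPU.eventually_const_lt hP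
    obtain ⟨n, b1, b2, b3, b4, b5⟩ := (k1.and (k2.and (k3.and (k4.and k5)))).exists
    refine ⟨n, b1, ?_, ?_, ?_, b5⟩
    · exact (mul_le_mul_of_nonneg_right (ha2 n) (by positivity)).trans_lt b2
    · refine b3.trans_le (mul_le_mul_of_nonneg_right (ha1 n) ?_)
      have := Q4_nonneg (U n) w
      positivity
    · refine lt_of_le_of_lt ?_ b4
      refine div_le_div_of_nonneg_right ?_ (by positivity)
      exact pow_le_pow_left₀ (ip_nonneg hl.le _) (ha2 n) 2
  -- openness in the parameters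
  set u1 : H1 N := U n
  have hopen : ∀ᶠ x : ℝ × ℝ in 𝓝 (l, m1),
      (0 < (x.2 * Q4 u1 u1 w w) ^ 2 - m1 * Q4 u1 u1 u1 u1 * (th * P)) ∧
      (ip l u1 u1 * (th * P) < ip x.1 w w * (x.2 * Q4 u1 u1 w w)) ∧
      (ip x.1 w w * (m1 * Q4 u1 u1 u1 u1) < ip l u1 u1 * (x.2 * Q4 u1 u1 w w)) := by
    have hip : Continuous (fun x : ℝ × ℝ => ip x.1 w w) := by
      unfold ip
      fun_prop
    have c1 : Continuous (fun x : ℝ × ℝ =>
        (x.2 * Q4 u1 u1 w w) ^ 2 - m1 * Q4 u1 u1 u1 u1 * (th * P)) := by fun_prop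
    have c2 : Continuous (fun x : ℝ × ℝ => ip x.1 w w * (x.2 * Q4 u1 u1 w w)) := by fun_prop
    have c3 : Continuous (fun x : ℝ × ℝ => ip x.1 w w * (m1 * Q4 u1 u1 u1 u1)) := by fun_prop
    have c4 : Continuous (fun x : ℝ × ℝ => ip l u1 u1 * (x.2 * Q4 u1 u1 w w)) := by fun_prop
    refine ((c1.tendsto (l, m1)).eventually_const_lt g1).and
      (((c2.tendsto (l, m1)).eventually_const_lt g2).and
      ((c3.tendsto (l, m1)).eventually_lt (c4.tendsto (l, m1)) g3))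
  obtain ⟨d, hd, hball⟩ := Metric.eventually_nhds_iff.1 hopen
  refine ⟨d, hd, fun l2 m2 be u v hl2 h1 hm2 hm2t h2 hmin => ?_⟩
  have hin := hball (y := (l2, be)) (by
    rw [Prod.dist_eq, max_lt_iff, Real.dist_eq, Real.dist_eq]
    exact ⟨h1, h2⟩)
  obtain ⟨i1, i2, i3⟩ := hin
  have hmt : m2 * P ≤ th * P := mul_le_mul_of_nonneg_right hm2t hP.le
  have i1' : 0 < (be * Q4 u1 u1 w w) ^ 2 - m1 * Q4 u1 u1 u1 u1 * (m2 * P) := by
    have e0 : 0 ≤ m1 * Q4 u1 u1 u1 u1 := mul_nonneg hm1.le g5.le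
    have e1 := mul_le_mul_of_nonneg_left hmt e0
    have e2 : 0 < (be * Q4 u1 u1 w w) ^ 2 - m1 * Q4 u1 u1 u1 u1 * (th * P) := i1
    linarith
  have i2' : ip l u1 u1 * (m2 * P) < ip l2 w w * (be * Q4 u1 u1 w w) :=
    (mul_le_mul_of_nonneg_left hmt (ip_nonneg hl.le _)).trans_lt i2
  have hOm : OmMp l l2 m1 m2 be u1 w := ⟨i1', i2', i3⟩
  refine (min_le hl hl2 hm1 hm2 hmin (Or.inl hOm)).trans_lt ?_
  refine lt_of_le_of_lt ?_ g4
  have hp' : m1 * Q4 u1 u1 u1 u1 ≠ 0 := by positivity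
  have e1 := EE_a (a := ip l u1 u1) (b := ip l2 w w) (p := m1 * Q4 u1 u1 u1 u1)
    (q := be * Q4 u1 u1 w w) (r := m2 * P) hp' i1'.ne'
  have e2 : 0 ≤ (ip l u1 u1 * (be * Q4 u1 u1 w w) - ip l2 w w * (m1 * Q4 u1 u1 u1 u1)) ^ 2 /
      (4 * (m1 * Q4 u1 u1 u1 u1) * ((be * Q4 u1 u1 w w) ^ 2 - m1 * Q4 u1 u1 u1 u1 * (m2 * P))) := by
    positivity
  rw [← e1] at e2
  have e3 : EEp l l2 m1 m2 be u1 w = EEn (ip l u1 u1) (ip l2 w w) (m1 * Q4 u1 u1 u1 u1)
    (be * Q4 u1 u1 w w) (m2 * P) := rfl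
  rw [e3]
  linarith

/-- module ufc. As `s5_conv` with a sequence `m2 n ∈ (0,th]`. -/
theorem s5_conv' [Dim N] {l m1 th : ℝ} (hl : 0 < l) (hth : 0 < th) (hm : th < m1)
    (l2 m2 be s e : ℕ → ℝ) (u v : ℕ → H1 N) (hl2 : Tendsto l2 atTop (𝓝 l)) (h0 : ∀ n, 0 < l2 n)
    (hm2 : ∀ n, 0 < m2 n ∧ m2 n ≤ th)
    (hbe : Tendsto be atTop (𝓝 m1)) (hs : Tendsto s atTop (𝓝 0)) (he : Tendsto e atTop (𝓝 0))
    (hu : ∀ n, RD (u n)) (hv : ∀ n, RD (v n))
    (hN : ∀ n, Neh l (l2 n) m1 (m2 n) (be n) (u n) (v n))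
    (hQ : ∀ n, 0 < Q4 (u n) (u n) (v n) (v n))
    (h1 : ∀ n, Q4 (v n) (v n) (v n) (v n) ≤ s n * Q4 (u n) (u n) (v n) (v n))
    (h2 : ∀ n, Q4 (u n) (u n) (v n) (v n) ≤ s n * Q4 (u n) (u n) (u n) (u n))
    (h3 : ∀ n, En l (l2 n) m1 (m2 n) (be n) (u n) (v n) ≤ S2 N l / (4 * m1) + e n) :
    ∃ (f : ℕ → ℕ) (w : H1 N) (ep : ℕ → ℝ), StrictMono f ∧ GNo l m1 w ∧ RD w ∧
      Tendsto (fun n => u (f n)) atTop (𝓝 w) ∧ (∀ n, 0 < ep n) ∧ Tendsto ep atTop (𝓝 0) ∧
      Tendsto (fun n => (ep n)⁻¹ • v (f n)) atTop (𝓝 w) := by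
  have hm1 : 0 < m1 := hth.trans hm
  set P : ℕ → ℝ := fun n => Q4 (u n) (u n) (u n) (u n) with hPd
  set Q : ℕ → ℝ := fun n => Q4 (u n) (u n) (v n) (v n) with hQd
  set R : ℕ → ℝ := fun n => Q4 (v n) (v n) (v n) (v n) with hRd
  set a : ℕ → ℝ := fun n => ip l (u n) (u n) with had
  set b : ℕ → ℝ := fun n => ip (l2 n) (v n) (v n) with hbd
  have hP : ∀ n, 0 < P n := fun n => Q4_pos (hN n).1
  have hR : ∀ n, 0 < R n := fun n => Q4_pos (hN n).2.1
  have hQ' : ∀ n, 0 < Q n := hQ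
  have ha : ∀ n, a n = m1 * P n + be n * Q n := fun n => (hN n).2.2.1
  have hb : ∀ n, b n = m2 n * R n + be n * Q n := fun n => (hN n).2.2.2
  have hs0 : ∀ n, 0 < s n := fun n => by
    have e1 : 0 < s n * P n := (hQ' n).trans_le (h2 n)
    exact pos_of_mul_pos_left e1 (hP n).le
  have hE : ∀ n, a n + b n ≤ S2 N l / m1 + 4 * e n := fun n => by
    have e1 := h3 n
    rw [Neh_En (hN n)] at e1
    have e2 : S2 N l / (4 * m1) = (S2 N l / m1) / 4 := by field_simp
    rw [e2] at e1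
    have e3 : (a n + b n) / 4 ≤ S2 N l / m1 / 4 + e n := e1
    linarith
  have hS : 0 < S2 N l := S2_pos hl
  -- the quotients
  have hb0 : ∀ n, 0 < b n := fun n => ip_pos (h0 n) (hN n).2.1
  have hbe0 : ∀ᶠ n in atTop, 0 < be n := hbe.eventually_const_lt hm1
  have haub : ∀ n, a n ≤ S2 N l / m1 + 4 * e n := fun n => by
    have := hE n
    have := hb0 n
    linarith
  have halb : ∀ᶠ n in atTop, S2 N l / (m1 + be n * s n) ≤ a n := by
    filter_upwards [hbe0] with n hn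
    have e1 : a n ≤ (m1 + be n * s n) * P n := by
      rw [ha n]
      have := mul_le_mul_of_nonneg_left (h2 n) hn.le
      have e2 : be n * (s n * Q4 (u n) (u n) (u n) (u n)) = be n * s n * P n := by
        rw [hPd]
        ring
      rw [e2] at this
      linarith
    have e2 : S2 N l * P n ≤ a n ^ 2 := S2_le hl (u n)
    have hk : 0 < m1 + be n * s n := by
      have := hs0 n
      positivity
    have ha0 : 0 < a n := ip_pos hl (hN n).1
    rw [div_le_iff₀ hk]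
    have e3 : S2 N l * a n ≤ (m1 + be n * s n) * (a n * a n) := by
      calc S2 N l * a n ≤ S2 N l * ((m1 + be n * s n) * P n) :=
            mul_le_mul_of_nonneg_left e1 hS.le
        _ = (m1 + be n * s n) * (S2 N l * P n) := by ring
        _ ≤ (m1 + be n * s n) * (a n ^ 2) := mul_le_mul_of_nonneg_left e2 hk.le
        _ = _ := by ring
    have e4 : S2 N l * a n ≤ (a n * (m1 + be n * s n)) * a n := by
      refine e3.trans (le_of_eq ?_)
      ring
    exact le_of_mul_le_mul_right e4 ha0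
  have hbes : Tendsto (fun n => be n * s n) atTop (𝓝 0) := by
    have := hbe.mul hs
    rwa [mul_zero] at this
  have hat : Tendsto a atTop (𝓝 (S2 N l / m1)) := by
    have e1 : Tendsto (fun n => S2 N l / (m1 + be n * s n)) atTop (𝓝 (S2 N l / m1)) := by
      have := (tendsto_const_nhds (x := S2 N l)).div ((tendsto_const_nhds (x := m1)).add hbes)
        (by rw [add_zero]; exact hm1.ne')
      rwa [add_zero] at this
    have e2 : Tendsto (fun n => S2 N l / m1 + 4 * e n) atTop (𝓝 (S2 N l / m1)) := by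
      have := (tendsto_const_nhds (x := S2 N l / m1)).add (he.const_mul 4)
      rwa [mul_zero, add_zero] at this
    exact tendsto_of_tendsto_of_tendsto_of_le_of_le' e1 e2 halb (Eventually.of_forall haub)
  -- `P n → S2/m1²`
  have hPub : ∀ᶠ n in atTop, P n ≤ a n / m1 := by
    filter_upwards [hbe0] with n hn
    rw [le_div_iff₀ hm1, ha n]
    have := mul_nonneg hn.le (hQ' n).le
    linarith
  have hPlb : ∀ᶠ n in atTop, a n / (m1 + be n * s n) ≤ P n := by
    filter_upwards [hbe0] with n hn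
    have hk : 0 < m1 + be n * s n := by
      have := hs0 n
      positivity
    rw [div_le_iff₀ hk, ha n]
    have := mul_le_mul_of_nonneg_left (h2 n) hn.le
    have e2 : be n * (s n * Q4 (u n) (u n) (u n) (u n)) = be n * s n * P n := by
      rw [hPd]
      ring
    rw [e2] at this
    have e3 : be n * Q n ≤ be n * s n * P n := this
    linarith
  have hPt : Tendsto P atTop (𝓝 (S2 N l / m1 ^ 2)) := by
    have e0 : S2 N l / m1 ^ 2 = S2 N l / m1 / m1 := by
      field_simp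
    rw [e0]
    have e1 : Tendsto (fun n => a n / (m1 + be n * s n)) atTop (𝓝 (S2 N l / m1 / m1)) := by
      have := hat.div ((tendsto_const_nhds (x := m1)).add hbes)
        (by rw [add_zero]; exact hm1.ne')
      rwa [add_zero] at this
    exact tendsto_of_tendsto_of_tendsto_of_le_of_le' e1 (hat.div_const m1) hPlb hPub
  obtain ⟨f, w, hf, hw, hwr, huw⟩ := GNo_compact hl hm1 u hu hat hPt
  have hft := hf.tendsto_atTop
  -- the normalisation
  set ε : ℕ → ℝ := fun n => Real.sqrt (Q n / P n) with hε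
  have hε0 : ∀ n, 0 < ε n := fun n => Real.sqrt_pos.2 (div_pos (hQ' n) (hP n))
  have hε2 : ∀ n, ε n ^ 2 = Q n / P n := fun n =>
    Real.sq_sqrt (div_pos (hQ' n) (hP n)).le
  have hQP : Tendsto (fun n => Q n / P n) atTop (𝓝 0) :=
    squeeze_zero (fun n => (div_pos (hQ' n) (hP n)).le)
      (fun n => by rw [div_le_iff₀ (hP n)]; exact h2 n) hs
  have hεt : Tendsto ε atTop (𝓝 0) := by
    have := (Real.continuous_sqrt.tendsto 0).comp hQP
    rwa [Real.sqrt_zero] at this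
  have hval := GNo_vals hl hm1 hw
  have hRQ : Tendsto (fun n => R n / Q n) atTop (𝓝 0) :=
    squeeze_zero (fun n => (div_pos (hR n) (hQ' n)).le)
      (fun n => by rw [div_le_iff₀ (hQ' n)]; exact h1 n) hs
  have hb2 : ∀ n, b n / ε n ^ 2 = m2 n * (R n / Q n) * P n + be n * P n := fun n => by
    rw [hε2, hb]
    have := (hQ' n).ne'
    have := (hP n).ne'
    field_simp
  have hb2t : Tendsto (fun n => b n / ε n ^ 2) atTop (𝓝 (S2 N l / m1)) := by
    simp only [hb2]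
    have e0 : Tendsto (fun n => m2 n * (R n / Q n)) atTop (𝓝 0) := by
      have e3 := hRQ.const_mul th
      rw [mul_zero] at e3
      refine squeeze_zero (fun n => mul_nonneg (hm2 n).1.le (div_pos (hR n) (hQ' n)).le)
        (fun n => mul_le_mul_of_nonneg_right (hm2 n).2 (div_pos (hR n) (hQ' n)).le) e3
    have e1 := (e0.mul hPt).add (hbe.mul hPt)
    have e2 : 0 * (S2 N l / m1 ^ 2) + m1 * (S2 N l / m1 ^ 2) = S2 N l / m1 := by
      field_simp
      ring
    rwa [e2] at e1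
  -- `ip l v' v'`
  have hipv : ∀ n, ip l ((ε n)⁻¹ • v n) ((ε n)⁻¹ • v n) =
      b n / ε n ^ 2 - (l2 n - l) * (gY (v n) (v n) / ε n ^ 2) := fun n => by
    rw [ip_smul_left, ip_smul_right]
    have e1 : ip l (v n) (v n) = b n - (l2 n - l) * gY (v n) (v n) := by
      rw [hbd]
      unfold ip
      ring
    rw [e1]
    have := (hε0 n).ne'
    field_simp
  have hY : Tendsto (fun n => (l2 n - l) * (gY (v n) (v n) / ε n ^ 2)) atTop (𝓝 0) := by
    have e1 : ∀ n, |(l2 n - l) * (gY (v n) (v n) / ε n ^ 2)| ≤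
        |l2 n - l| * ((b n / ε n ^ 2) / l2 n) := fun n => by
      rw [abs_mul]
      refine mul_le_mul_of_nonneg_left ?_ (abs_nonneg _)
      have e2 : 0 ≤ gY (v n) (v n) / ε n ^ 2 := div_nonneg (gY_nonneg _) (by positivity)
      rw [abs_of_nonneg e2, le_div_iff₀ (h0 n), div_mul_eq_mul_div]
      refine div_le_div_of_nonneg_right ?_ (by positivity)
      rw [mul_comm]
      exact gY_le_ip (v n)
    refine squeeze_zero_norm e1 ?_
    have e3 : Tendsto (fun n => |l2 n - l|) atTop (𝓝 0) := by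
      have := (hl2.sub_const l).abs
      rwa [sub_self, abs_zero] at this
    have e4 := e3.mul (hb2t.div hl2 hl.ne')
    rwa [zero_mul] at e4
  have hv1 : Tendsto (fun n => ip l ((ε n)⁻¹ • v n) ((ε n)⁻¹ • v n)) atTop
      (𝓝 (ip l w w)) := by
    simp only [hipv]
    have := hb2t.sub hY
    rwa [sub_zero, ← hval.2] at this
  have hv2 : Tendsto (fun n => m1 * Q4 (u n) (u n) ((ε n)⁻¹ • v n) ((ε n)⁻¹ • v n)) atTop
      (𝓝 (ip l w w)) := by
    have e1 : ∀ n, m1 * Q4 (u n) (u n) ((ε n)⁻¹ • v n) ((ε n)⁻¹ • v n) = m1 * P n := fun n => by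
      rw [Q4_smul3, Q4_smul4]
      have e2 : (ε n)⁻¹ * ((ε n)⁻¹ * Q4 (u n) (u n) (v n) (v n)) = Q n / ε n ^ 2 := by
        rw [hQd]
        have := (hε0 n).ne'
        field_simp
      rw [e2, hε2]
      have := (hQ' n).ne'
      have := (hP n).ne'
      field_simp
    simp only [e1]
    have e2 := hPt.const_mul m1
    have e3 : m1 * (S2 N l / m1 ^ 2) = ip l w w := by
      rw [hval.2]
      field_simp
    rwa [e3] at e2
  refine ⟨f, w, fun n => ε (f n), hf, hw, hwr, huw, fun n => hε0 _, hεt.comp hft, ?_⟩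
  exact eig_conv hl hm1 hw hwr (fun n => u (f n)) (fun n => (ε (f n))⁻¹ • v (f n))
    (fun n => RD_smul (hv _) (inv_nonneg.2 (hε0 _).le)) (n4_tendsto huw) (hv1.comp hft)
    (hv2.comp hft)

private theorem ufd_Q4t [Dim N] {u v w z : ℕ → H1 N} {u0 v0 w0 z0 : H1 N}
    (hu : Tendsto u atTop (𝓝 u0)) (hv : Tendsto v atTop (𝓝 v0)) (hw : Tendsto w atTop (𝓝 w0))
    (hz : Tendsto z atTop (𝓝 z0)) :
    Tendsto (fun n => Q4 (u n) (v n) (w n) (z n)) atTop (𝓝 (Q4 u0 v0 w0 z0)) :=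
  Q4_tendsto _ _ _ _ _ _ _ _ (n4_tendsto hu) (n4_tendsto hv) (n4_tendsto hw) (n4_tendsto hz)

private theorem ufd_small [Dim N] {A B C D : ℕ → H1 N} {a b c : ℝ}
    (hA : ∀ᶠ n in atTop, ‖A n‖ ≤ a) (hB : ∀ᶠ n in atTop, ‖B n‖ ≤ b)
    (hC : ∀ᶠ n in atTop, ‖C n‖ ≤ c) (hD : Tendsto D atTop (𝓝 0)) :
    Tendsto (fun n => Q4 (A n) (B n) (C n) (D n)) atTop (𝓝 0) := by
  obtain ⟨K, hK, hQ⟩ := Q4_bound (N := N)
  have h1 : Tendsto (fun n => K * a * b * c * ‖D n‖) atTop (𝓝 0) := by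
    have := hD.norm.const_mul (K * a * b * c)
    rwa [norm_zero, mul_zero] at this
  refine squeeze_zero_norm' ?_ h1
  filter_upwards [hA, hB, hC] with n e1 e2 e3
  refine (hQ _ _ _ _).trans ?_
  have a0 : 0 ≤ a := (norm_nonneg _).trans e1
  have b0 : 0 ≤ b := (norm_nonneg _).trans e2
  gcongr

private theorem ufd_bdd {u : ℕ → H1 N} {u0 : H1 N} (hu : Tendsto u atTop (𝓝 u0)) :
    ∀ᶠ n in atTop, ‖u n‖ ≤ ‖u0‖ + 1 := by
  have := hu.norm.eventually_lt_const (lt_add_one ‖u0‖)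
  filter_upwards [this] with n hn
  exact hn.le

/-- module ufd. As `s5_contra` with a sequence `m2 n ∈ (0,th]`: at the end `m1 P(w) ≤ th P(w)`. -/
theorem s5_contra' [Dim N] {l m1 th : ℝ} (hl : 0 < l) (hth : 0 < th) (hm : th < m1)
    (l2 m2 be ep : ℕ → ℝ) (u v : ℕ → H1 N) (w : H1 N) (hw : GNo l m1 w) (hwr : RD w)
    (hm2 : ∀ n, 0 < m2 n ∧ m2 n ≤ th)
    (hl2 : ∀ n, 0 < l2 n) (hbe : Tendsto be atTop (𝓝 m1)) (hu : ∀ n, Rad (u n))
    (hS : ∀ n, Sol l (l2 n) m1 (m2 n) (be n) (u n) (v n)) (htau : ∀ n, be n ≤ tau N l m1 (l2 n))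
    (h1 : Tendsto u atTop (𝓝 w)) (h2 : ∀ n, 0 < ep n) (h3 : Tendsto ep atTop (𝓝 0))
    (h4 : Tendsto (fun n => (ep n)⁻¹ • v n) atTop (𝓝 w)) : False := by
  have hm1 : 0 < m1 := hth.trans hm
  have hP : 0 < Q4 w w w w := Q4_pos hw.1
  obtain ⟨B, hB, hQb⟩ := Q4_bound (N := N)
  obtain ⟨Cn, hCn, hinv⟩ := nd_inv hl hm1 hw hwr
  set z : ℕ → H1 N := fun n => u n - w with hz
  set V : ℕ → H1 N := fun n => (ep n)⁻¹ • v n with hV
  have hvV : ∀ n, v n = ep n • V n := fun n => by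
    rw [hV]
    simp only
    rw [smul_smul, mul_inv_cancel₀ (h2 n).ne', one_smul]
  have huz : ∀ n, u n = w + z n := fun n => by
    rw [hz]
    simp only
    rw [add_sub_cancel]
  have hz0 : Tendsto z atTop (𝓝 0) := by
    have := h1.sub_const w
    rwa [sub_self] at this
  have hep2 : Tendsto (fun n => ep n ^ 2) atTop (𝓝 0) := by
    have := h3.pow 2
    rwa [zero_pow (by norm_num)] at this
  -- the equation for `z`
  have heq : ∀ n (y : H1 N), ip l (z n) y - 3 * m1 * Q4 w w (z n) y =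
      be n * Q4 (v n) (v n) (u n) y + m1 * (3 * Q4 w (z n) (z n) y + Q4 (z n) (z n) (z n) y) := by
    intro n y
    have a1 := (hS n).1 y
    have a2 := GNo_sol hl hm1 hw y
    have a3 : ip l (z n) y = ip l (u n) y - ip l w y := by
      rw [hz]
      simp only
      rw [ip_sub_left]
    have a4 : Q4 (u n) (u n) (u n) y = Q4 w w w y + 3 * Q4 w w (z n) y + 3 * Q4 w (z n) (z n) y +
        Q4 (z n) (z n) (z n) y := by
      rw [huz n]
      simp only [Q4_add1, Q4_add2, Q4_add3]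
      have b1 : Q4 w (z n) w y = Q4 w w (z n) y := Q4_swap23 w (z n) w y
      have b2 : Q4 (z n) w w y = Q4 w w (z n) y := by rw [Q4_swap12, Q4_swap23]
      have b3 : Q4 (z n) w (z n) y = Q4 w (z n) (z n) y := Q4_swap12 (z n) w (z n) y
      have b4 : Q4 (z n) (z n) w y = Q4 w (z n) (z n) y := by rw [Q4_swap23, Q4_swap12]
      rw [b1, b2, b3, b4]
      ring
    rw [a3, a1, a2, a4]
    ring
  -- step 1
  set Kv : ℝ := ‖w‖ + 1 with hKv
  have hKv0 : 0 < Kv := by positivity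
  have hVb : ∀ᶠ n in atTop, ‖V n‖ ≤ Kv := ufd_bdd h4
  have hub : ∀ᶠ n in atTop, ‖u n‖ ≤ Kv := ufd_bdd h1
  have hbeb : ∀ᶠ n in atTop, |be n| ≤ m1 + 1 := by
    have := hbe.abs.eventually_lt_const (show |m1| < m1 + 1 by rw [abs_of_pos hm1]; linarith)
    filter_upwards [this] with n hn
    exact hn.le
  have hz1 : ∀ᶠ n in atTop, ‖z n‖ ≤ 1 := by
    have := hz0.norm.eventually_lt_const (show ‖(0 : H1 N)‖ < 1 by simp)
    filter_upwards [this] with n hn
    exact hn.le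
  set K2 : ℝ := Cn * (m1 * B * (3 * Kv + 1)) with hK2
  have hK20 : 0 < K2 := by positivity
  have hz2 : ∀ᶠ n in atTop, K2 * ‖z n‖ ≤ 1 / 2 := by
    have := (hz0.norm.const_mul K2).eventually_lt_const (show K2 * ‖(0 : H1 N)‖ < 1 / 2 by simp)
    filter_upwards [this] with n hn
    exact hn.le
  set K : ℝ := 2 * (Cn * ((m1 + 1) * B * Kv ^ 3)) with hK
  have hK0 : 0 < K := by positivity
  have hzK : ∀ᶠ n in atTop, ‖z n‖ ≤ K * ep n ^ 2 := by
    filter_upwards [hVb, hub, hbeb, hz1, hz2] with n e1 e2 e3 e4 e5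
    have hest : ∀ y : H1 N, |ip l (z n) y - 3 * m1 * Q4 w w (z n) y| ≤
        ((m1 + 1) * B * Kv ^ 3 * ep n ^ 2 + m1 * B * (3 * Kv + 1) * ‖z n‖ ^ 2) * ‖y‖ := by
      intro y
      rw [heq]
      have f1 : |be n * Q4 (v n) (v n) (u n) y| ≤ (m1 + 1) * B * Kv ^ 3 * ep n ^ 2 * ‖y‖ := by
        rw [hvV n, Q4_smul1, Q4_smul2, abs_mul, abs_mul, abs_mul, abs_of_pos (h2 n)]
        have := hQb (V n) (V n) (u n) y
        have hep := (h2 n).le
        calc |be n| * (ep n * (ep n * |Q4 (V n) (V n) (u n) y|)) ≤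
              (m1 + 1) * (ep n * (ep n * (B * ‖V n‖ * ‖V n‖ * ‖u n‖ * ‖y‖))) := by gcongr
          _ ≤ (m1 + 1) * (ep n * (ep n * (B * Kv * Kv * Kv * ‖y‖))) := by gcongr
          _ = _ := by ring
      have f2 : |Q4 w (z n) (z n) y| ≤ B * Kv * ‖z n‖ ^ 2 * ‖y‖ := by
        refine (hQb _ _ _ _).trans ?_
        have : ‖w‖ ≤ Kv := by rw [hKv]; linarith
        calc B * ‖w‖ * ‖z n‖ * ‖z n‖ * ‖y‖ ≤ B * Kv * ‖z n‖ * ‖z n‖ * ‖y‖ := by gcongr
          _ = _ := by ring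
      have f3 : |Q4 (z n) (z n) (z n) y| ≤ B * ‖z n‖ ^ 2 * ‖y‖ := by
        refine (hQb _ _ _ _).trans ?_
        calc B * ‖z n‖ * ‖z n‖ * ‖z n‖ * ‖y‖ ≤ B * 1 * ‖z n‖ * ‖z n‖ * ‖y‖ := by gcongr
          _ = _ := by ring
      have f4 : |m1 * (3 * Q4 w (z n) (z n) y + Q4 (z n) (z n) (z n) y)| ≤
          m1 * (3 * |Q4 w (z n) (z n) y| + |Q4 (z n) (z n) (z n) y|) := by
        rw [abs_mul, abs_of_pos hm1]
        refine mul_le_mul_of_nonneg_left ?_ hm1.le
        refine (abs_add_le _ _).trans ?_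
        rw [abs_mul, abs_of_pos (by norm_num : (0 : ℝ) < 3)]
      have f5 : m1 * (3 * |Q4 w (z n) (z n) y| + |Q4 (z n) (z n) (z n) y|) ≤
          m1 * (3 * (B * Kv * ‖z n‖ ^ 2 * ‖y‖) + B * ‖z n‖ ^ 2 * ‖y‖) :=
        mul_le_mul_of_nonneg_left (by linarith) hm1.le
      refine (abs_add_le _ _).trans ?_
      calc _ ≤ (m1 + 1) * B * Kv ^ 3 * ep n ^ 2 * ‖y‖ +
            m1 * (3 * (B * Kv * ‖z n‖ ^ 2 * ‖y‖) + B * ‖z n‖ ^ 2 * ‖y‖) :=
            add_le_add f1 (f4.trans f5)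
        _ = _ := by ring
    have g1 := hinv (z n) _ (Rad_sub (hu n) (RD_Rad hwr)) (by positivity) hest
    have g2 : Cn * ((m1 + 1) * B * Kv ^ 3 * ep n ^ 2 + m1 * B * (3 * Kv + 1) * ‖z n‖ ^ 2) =
        K / 2 * ep n ^ 2 + K2 * ‖z n‖ * ‖z n‖ := by
      rw [hK, hK2]
      ring
    rw [g2] at g1
    have g3 : K2 * ‖z n‖ * ‖z n‖ ≤ 1 / 2 * ‖z n‖ :=
      mul_le_mul_of_nonneg_right e5 (norm_nonneg _)
    linarith
  -- the normalised difference
  set Z : ℕ → H1 N := fun n => (ep n ^ 2)⁻¹ • z n with hZ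
  have hzZ : ∀ n, z n = ep n ^ 2 • Z n := fun n => by
    rw [hZ]
    simp only
    rw [smul_smul, mul_inv_cancel₀ (pow_pos (h2 n) 2).ne', one_smul]
  have hZb : ∀ᶠ n in atTop, ‖Z n‖ ≤ K := by
    filter_upwards [hzK] with n hn
    rw [hZ]
    simp only
    have := pow_pos (h2 n) 2
    rw [norm_smul, Real.norm_eq_abs, abs_of_pos (inv_pos.2 this), inv_mul_le_iff₀ this]
    linarith
  have hwb : ∀ᶠ _n : ℕ in atTop, ‖w‖ ≤ ‖w‖ := Eventually.of_forall fun _ => le_rfl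
  -- step 2
  have hT : Tendsto (fun n => -2 * m1 * Q4 w w w (Z n)) atTop (𝓝 (m1 * Q4 w w w w)) := by
    have e1 : ∀ n, -2 * m1 * Q4 w w w (Z n) = be n * Q4 (V n) (V n) (u n) w +
        m1 * (3 * (Q4 w w (Z n) (z n)) + Q4 w (Z n) (z n) (z n)) := by
      intro n
      have a1 := heq n w
      have a2 : ip l (z n) w = m1 * Q4 w w w (z n) := by
        rw [ip_comm, GNo_sol hl hm1 hw]
      have a3 : Q4 w w (z n) w = Q4 w w w (z n) := Q4_swap34 w w (z n) w
      have a4 : Q4 w (z n) (z n) w = Q4 w w (z n) (z n) := by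
        rw [Q4_swap34 w (z n) (z n) w, Q4_swap23 w (z n) w (z n)]
      have a5 : Q4 (z n) (z n) (z n) w = Q4 w (z n) (z n) (z n) := by
        rw [Q4_swap34, Q4_swap23, Q4_swap12]
      rw [a2, a3, a4, a5] at a1
      have b1 : Q4 w w w (z n) = ep n ^ 2 * Q4 w w w (Z n) := by
        rw [← Q4_smul4, ← hzZ]
      have b2 : Q4 (v n) (v n) (u n) w = ep n ^ 2 * Q4 (V n) (V n) (u n) w := by
        rw [hvV n, Q4_smul1, Q4_smul2]
        ring
      have b3 : Q4 w w (z n) (z n) = ep n ^ 2 * Q4 w w (Z n) (z n) := by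
        rw [← Q4_smul3, ← hzZ]
      have b4 : Q4 w (z n) (z n) (z n) = ep n ^ 2 * Q4 w (Z n) (z n) (z n) := by
        rw [← Q4_smul2, ← hzZ]
      rw [b1, b2, b3, b4] at a1
      have b5 : (ep n ^ 2) ≠ 0 := (pow_pos (h2 n) 2).ne'
      refine mul_left_cancel₀ b5 ?_
      linarith
    have e2 := (hbe.mul (ufd_Q4t h4 h4 h1 (tendsto_const_nhds (x := w)))).add
      (((ufd_small hwb hwb hZb hz0).const_mul 3).add
        (ufd_small hwb hZb hz1 hz0) |>.const_mul m1)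
    simp only [mul_zero, add_zero] at e2
    exact e2.congr fun n => (e1 n).symm
  -- step 3
  have hineq : ∀ n, be n * (-2 * Q4 w (Z n) (V n) (V n) - Q4 (Z n) (z n) (V n) (V n)) ≤
      th * Q4 (V n) (V n) (V n) (V n) := by
    intro n
    refine le_trans ?_ (mul_le_mul_of_nonneg_right (hm2 n).2 (Q4_nonneg (V n) (V n)))
    have a1 := tau_le hl hm1 (hl2 n) hw (v n)
    have a2 : be n * Q4 w w (v n) (v n) ≤ ip (l2 n) (v n) (v n) :=
      (mul_le_mul_of_nonneg_right (htau n) (Q4_nonneg w (v n))).trans a1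
    rw [(hS n).2 (v n)] at a2
    have a3 : Q4 (u n) (u n) (v n) (v n) = Q4 w w (v n) (v n) + 2 * Q4 w (z n) (v n) (v n) +
        Q4 (z n) (z n) (v n) (v n) := by
      rw [huz n]
      simp only [Q4_add1, Q4_add2]
      rw [Q4_swap12 (z n) w]
      ring
    rw [a3] at a2
    have b1 : Q4 w (z n) (v n) (v n) = ep n ^ 4 * Q4 w (Z n) (V n) (V n) := by
      rw [hvV n, Q4_smul3, Q4_smul4]
      nth_rewrite 1 [hzZ n]
      rw [Q4_smul2]
      ring
    have b2 : Q4 (z n) (z n) (v n) (v n) = ep n ^ 4 * Q4 (Z n) (z n) (V n) (V n) := by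
      rw [hvV n, Q4_smul3, Q4_smul4]
      nth_rewrite 1 [hzZ n]
      rw [Q4_smul1]
      ring
    have b3 : Q4 (v n) (v n) (v n) (v n) = ep n ^ 4 * Q4 (V n) (V n) (V n) (V n) := by
      rw [hvV n, Q4_smul1, Q4_smul2, Q4_smul3, Q4_smul4]
      ring
    rw [b1, b2, b3] at a2
    have b4 : 0 < ep n ^ 4 := pow_pos (h2 n) 4
    refine le_of_mul_le_mul_left ?_ b4
    linarith
  have hVw : Tendsto (fun n => V n - w) atTop (𝓝 0) := by
    have := h4.sub_const w
    rwa [sub_self] at this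
  have hTV : Tendsto (fun n => Q4 w (Z n) (V n) (V n) - Q4 w w w (Z n)) atTop (𝓝 0) := by
    have e1 : ∀ n, Q4 w (Z n) (V n) (V n) - Q4 w w w (Z n) =
        Q4 w (Z n) (V n) (V n - w) + Q4 w (Z n) w (V n - w) := by
      intro n
      rw [Q4_sub4, Q4_sub4]
      have a1 : Q4 w w w (Z n) = Q4 w (Z n) w w := by
        rw [Q4_swap34 w w w (Z n), Q4_swap23 w w (Z n) w]
      have a2 : Q4 w (Z n) (V n) w = Q4 w (Z n) w (V n) := Q4_swap34 _ _ _ _
      rw [a1, a2]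
      ring
    simp only [e1]
    have := (ufd_small hwb hZb hVb hVw).add (ufd_small hwb hZb hwb hVw)
    rwa [add_zero] at this
  have hlim1 : Tendsto (fun n => be n * (-2 * Q4 w (Z n) (V n) (V n) -
      Q4 (Z n) (z n) (V n) (V n))) atTop (𝓝 (m1 * Q4 w w w w)) := by
    have e1 : Tendsto (fun n => Q4 (Z n) (z n) (V n) (V n)) atTop (𝓝 0) := by
      have := ufd_small hZb hVb hVb hz0
      refine this.congr fun n => ?_
      rw [Q4_swap34, Q4_swap23]
    have e2 : Tendsto (fun n => -2 * Q4 w (Z n) (V n) (V n)) atTop (𝓝 (Q4 w w w w)) := by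
      have f1 := (hT.const_mul (m1⁻¹)).add (hTV.const_mul (-2))
      have f2 : m1⁻¹ * (m1 * Q4 w w w w) + -2 * 0 = Q4 w w w w := by
        field_simp
        ring
      rw [f2] at f1
      refine f1.congr fun n => ?_
      field_simp
      ring
    have e3 := hbe.mul (e2.sub e1)
    rwa [sub_zero] at e3
  have hlim2 : Tendsto (fun n => th * Q4 (V n) (V n) (V n) (V n)) atTop
      (𝓝 (th * Q4 w w w w)) := (ufd_Q4t h4 h4 h4 h4).const_mul th
  have hfin : m1 * Q4 w w w w ≤ th * Q4 w w w w := le_of_tendsto_of_tendsto' hlim1 hlim2 hineq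
  have := le_of_mul_le_mul_right hfin hP
  linarith

private theorem ufe_dim (N : ℕ) [h : Dim N] : 0 ≤ (4 - (N : ℝ)) / 4 ∧ (4 - (N : ℝ)) / 4 ≤ 1 := by
  rcases h.h with h1 | h1 <;> rw [h1] <;> norm_num

/-- module ufe. Assembly as `nonex_five`, with `good_GS'`: `rho0 N l l2 m2 ≤ m2 (1 + |l - l2|/l2) < √(m1 m2) ≤ be` for
small `|l2 - l|`, because `√m2 (1 + |l-l2|/l2) ≤ √th (1 + ..) < √m1`. -/
theorem nonex_five' [Dim N] {l m1 th : ℝ} (hl : 0 < l) (hth : 0 < th) (hm : th < m1) :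
    ∃ d : ℝ, 0 < d ∧ ∀ l2 m2 be : ℝ, 0 < l2 → |l2 - l| < d → 0 < m2 → m2 ≤ th → 0 < be →
      m1 * m2 ≤ be ^ 2 → be ≤ tau N l m1 l2 → ¬ HasGS N l l2 m1 m2 be := by
  have hm1 : 0 < m1 := hth.trans hm
  by_contra hcon
  push Not at hcon
  have hseq : ∀ n : ℕ, ∃ l2 m2 be : ℝ, 0 < l2 ∧ |l2 - l| < 1 / ((n : ℝ) + 1) ∧ 0 < m2 ∧ m2 ≤ th ∧
      0 < be ∧ m1 * m2 ≤ be ^ 2 ∧ be ≤ tau N l m1 l2 ∧ HasGS N l l2 m1 m2 be := fun n => by
    obtain ⟨l2, m2, be, e1, e2, e3, e4, e5, e6, e7, e8⟩ := hcon (1 / ((n : ℝ) + 1)) (by positivity)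
    exact ⟨l2, m2, be, e1, e2, e3, e4, e5, e6, e7, e8⟩
  choose l2 m2 be hl2 hd hm2 hm2t hbe hb2 htau hGS using hseq
  have habs : Tendsto (fun n => |l2 n - l|) atTop (𝓝 0) :=
    squeeze_zero (fun n => abs_nonneg _) (fun n => (hd n).le)
      tendsto_one_div_add_atTop_nhds_zero_nat
  have hl2t : Tendsto l2 atTop (𝓝 l) := by
    rw [tendsto_iff_dist_tendsto_zero]
    simpa [Real.dist_eq] using habs
  have hbu : ∀ n, be n ≤ m1 * (1 + |l2 n - l| / l) := fun n =>
    (htau n).trans (tau_upper hl hm1 (hl2 n))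
  -- eventually there are good ground states
  have hgood : ∀ᶠ n in atTop, ∃ U V : H1 N, RD U ∧ RD V ∧ Sol l (l2 n) m1 (m2 n) (be n) U V ∧
      IsMin l (l2 n) m1 (m2 n) (be n) U V ∧ 0 < Dl m1 (m2 n) (be n) U V ∧
      m1 * Q4 U U V V + be n * Q4 V V V V ≤ ip l V V := by
    have k1 : ∀ᶠ n in atTop, th * (1 + |l2 n - l| / l2 n) ^ 2 < m1 := by
      have e1 : Tendsto (fun n => th * (1 + |l2 n - l| / l2 n) ^ 2) atTop
          (𝓝 (th * (1 + 0 / l) ^ 2)) :=
        ((tendsto_const_nhds.add (habs.div hl2t hl.ne')).pow 2).const_mul th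
      refine e1.eventually_lt_const ?_
      rw [zero_div, add_zero, one_pow, mul_one]
      exact hm
    filter_upwards [k1] with n e1
    have hq : 0 ≤ |l2 n - l| / l2 n := div_nonneg (abs_nonneg _) (hl2 n).le
    have hrho : rho0 N l (l2 n) (m2 n) ≤ m2 n * (1 + |l2 n - l| / l2 n) := by
      unfold rho0
      refine mul_le_mul_of_nonneg_left ?_ (hm2 n).le
      have a1 : (l / l2 n - 1) * ((4 - (N : ℝ)) / 4) ≤ |l / l2 n - 1| * 1 := by
        refine (le_abs_self _).trans ?_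
        rw [abs_mul]
        refine mul_le_mul_of_nonneg_left ?_ (abs_nonneg _)
        have := ufe_dim N
        rw [abs_le]
        constructor <;> linarith [this.1, this.2]
      have a2 : |l / l2 n - 1| = |l2 n - l| / l2 n := by
        have b1 : l / l2 n - 1 = (l - l2 n) / l2 n := by
          have := (hl2 n).ne'
          field_simp
        rw [b1, abs_div, abs_of_pos (hl2 n), abs_sub_comm]
      rw [a2, mul_one] at a1
      linarith
    have hlt : m2 n * (1 + |l2 n - l| / l2 n) < be n := by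
      refine lt_of_pow_lt_pow_left₀ 2 (hbe n).le (lt_of_lt_of_le ?_ (hb2 n))
      have a1 : (m2 n * (1 + |l2 n - l| / l2 n)) ^ 2 =
          m2 n * (m2 n * (1 + |l2 n - l| / l2 n) ^ 2) := by ring
      have a2 : m2 n * (1 + |l2 n - l| / l2 n) ^ 2 ≤ th * (1 + |l2 n - l| / l2 n) ^ 2 :=
        mul_le_mul_of_nonneg_right (hm2t n) (sq_nonneg _)
      rw [a1, mul_comm m1]
      exact mul_lt_mul_of_pos_left (a2.trans_lt e1) (hm2 n)
    obtain ⟨U, V, k1, k2, k3, k4, k5, k6, _⟩ := good_GS' hl (hl2 n) hm1 (hm2 n) (hbe n) (hb2 n)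
      (hrho.trans_lt hlt) (hGS n)
    exact ⟨U, V, k1, k2, k3, k4, k5, k6⟩
  obtain ⟨C, d, hC, hd0, hest⟩ := s5_est' (N := N) hl hth hm
  have hev : ∀ᶠ n in atTop, |l2 n - l| < d := habs.eventually_lt_const hd0
  obtain ⟨n0, hn0⟩ := eventually_atTop.1 (hgood.and hev)
  have hgood' : ∀ n, ∃ U V : H1 N, RD U ∧ RD V ∧ Sol l (l2 (n + n0)) m1 (m2 (n + n0)) (be (n + n0)) U V ∧
      IsMin l (l2 (n + n0)) m1 (m2 (n + n0)) (be (n + n0)) U V ∧ 0 < Dl m1 (m2 (n + n0)) (be (n + n0)) U V ∧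
      m1 * Q4 U U V V + be (n + n0) * Q4 V V V V ≤ ip l V V := fun n =>
    (hn0 (n + n0) (Nat.le_add_left _ _)).1
  choose u v hu hv hsol hmin hDl hII using hgood'
  have hshift : Tendsto (fun n : ℕ => n + n0) atTop atTop := tendsto_add_atTop_nat n0
  have hN : ∀ n, Neh l (l2 (n + n0)) m1 (m2 (n + n0)) (be (n + n0)) (u n) (v n) := fun n => (hmin n).1
  have hest' := fun n => hest (l2 (n + n0)) (m2 (n + n0)) (be (n + n0)) (u n) (v n)
    (hn0 (n + n0) (Nat.le_add_left _ _)).2 (hm2 _) (hm2t _) (hbe _) (hb2 _) (hbu _) (hN n) (hII n)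
  set s : ℕ → ℝ := fun n => C * |l2 (n + n0) - l| with hs
  have hst : Tendsto s atTop (𝓝 0) := by
    have := (habs.comp hshift).const_mul C
    rwa [mul_zero] at this
  have hbet : Tendsto (fun n => be (n + n0)) atTop (𝓝 m1) := by
    rw [tendsto_iff_dist_tendsto_zero]
    refine squeeze_zero (fun n => dist_nonneg) (fun n => ?_) hst
    rw [Real.dist_eq]
    exact (hest' n).2.1
  -- the energies
  set e : ℕ → ℝ := fun n =>
    max 0 (En l (l2 (n + n0)) m1 (m2 (n + n0)) (be (n + n0)) (u n) (v n) - S2 N l / (4 * m1)) with he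
  have het : Tendsto e atTop (𝓝 0) := by
    rw [Metric.tendsto_nhds]
    intro ε hε
    obtain ⟨d', hd', hlev⟩ := s5_level' (N := N) hl hth hm hε
    have f1 : ∀ᶠ n in atTop, |l2 (n + n0) - l| < d' :=
      (habs.comp hshift).eventually_lt_const hd'
    have f2 : ∀ᶠ n in atTop, |be (n + n0) - m1| < d' := by
      have := (hbet.sub_const m1).abs
      rw [sub_self, abs_zero] at this
      exact this.eventually_lt_const hd'
    filter_upwards [f1, f2] with n g1 g2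
    have g3 := hlev _ _ _ (u n) (v n) (hl2 _) g1 (hm2 _) (hm2t _) g2 (hmin n)
    rw [Real.dist_eq, sub_zero, abs_of_nonneg (le_max_left _ _)]
    exact max_lt hε (by linarith)
  have hQ : ∀ n, 0 < Q4 (u n) (u n) (v n) (v n) := by
    intro n
    rcases (Q4_nonneg (u n) (v n)).lt_or_eq with g | g
    · exact g
    · have g1 := hDl n
      unfold Dl at g1
      rw [← g] at g1
      have g2 : 0 < Q4 (u n) (u n) (u n) (u n) := Q4_pos (hN n).1
      have g3 : 0 < Q4 (v n) (v n) (v n) (v n) := Q4_pos (hN n).2.1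
      have g4 : 0 < m1 * Q4 (u n) (u n) (u n) (u n) * (m2 (n + n0) * Q4 (v n) (v n) (v n) (v n)) := by
        have g5 := hm2 (n + n0)
        positivity
      nlinarith
  obtain ⟨f, w, ep, hf, hw, hwr, huw, hep, hept, hvw⟩ := s5_conv' hl hth hm
    (fun n => l2 (n + n0)) (fun n => m2 (n + n0)) (fun n => be (n + n0)) s e u v
    (hl2t.comp hshift) (fun n => hl2 _) (fun n => ⟨hm2 _, hm2t _⟩) hbet hst het hu hv hN hQ (fun n => (hest' n).1) (fun n => (hest' n).2.2)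
    (fun n => by
      have : En l (l2 (n + n0)) m1 (m2 (n + n0)) (be (n + n0)) (u n) (v n) - S2 N l / (4 * m1) ≤ e n :=
        le_max_right _ _
      linarith)
  exact s5_contra' hl hth hm (fun n => l2 (f n + n0)) (fun n => m2 (f n + n0))
    (fun n => be (f n + n0)) ep (fun n => u (f n)) (fun n => v (f n)) w hw hwr
    (fun n => ⟨hm2 _, hm2t _⟩) (fun n => hl2 _)
    (hbet.comp hf.tendsto_atTop) (fun n => RD_Rad (hu _)) (fun n => hsol _)
    (fun n => htau _) huw hep hept hvw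

end Sir
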