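import Pool.Agent.Sir.Base
/-!
# Gagliardo-Nirenberg inequality in dimensions 2 and 3
modules: gna, gnb, gnc
-/

namespace Sir

open MeasureTheory Filter Topology

variable {N : ℕ}

private theorem gna_cs {f g : E N → ℝ} (hf : Integrable (fun x => f x ^ 2) (volume : Measure (E N)))
    (hg : Integrable (fun x => g x ^ 2) (volume : Measure (E N)))
    (hfg : Integrable (fun x => f x * g x) (volume : Measure (E N))) :
    (∫ x, f x * g x) ^ 2 ≤ (∫ x, f x ^ 2) * ∫ x, g x ^ 2 := by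
  have key : ∀ t : ℝ, 0 ≤ (∫ x, f x ^ 2) * (t * t) + (2 * ∫ x, f x * g x) * t + ∫ x, g x ^ 2 := by
    intro t
    have h1 : 0 ≤ ∫ x, (t * f x + g x) ^ 2 := integral_nonneg fun x => sq_nonneg _
    have h2 : ∫ x, (t * f x + g x) ^ 2 =
        (∫ x, f x ^ 2) * (t * t) + (2 * ∫ x, f x * g x) * t + ∫ x, g x ^ 2 := by
      have e : (fun x => (t * f x + g x) ^ 2) =
          fun x => (t * t) * f x ^ 2 + (2 * t) * (f x * g x) + g x ^ 2 := by
        ext x; ring
      have a1 : Integrable (fun x => (t * t) * f x ^ 2) (volume : Measure (E N)) := hf.const_mul _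
      have a2 : Integrable (fun x => (2 * t) * (f x * g x)) (volume : Measure (E N)) :=
        hfg.const_mul _
      have a3 : Integrable (fun x => (t * t) * f x ^ 2 + (2 * t) * (f x * g x))
        (volume : Measure (E N)) := a1.add a2
      rw [e, integral_add a3 hg, integral_add a1 a2, integral_const_mul, integral_const_mul]
      ring
    rw [← h2]; exact h1
  have := discrim_le_zero key
  unfold discrim at this
  nlinarith

private theorem gna_int_pow (φ : E N → ℝ) (h1 : Continuous φ) (h2 : HasCompactSupport φ) (k : ℕ)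
    (hk : k ≠ 0) : Integrable (fun x => φ x ^ k) (volume : Measure (E N)) := by
  refine (h1.pow k).integrable_of_hasCompactSupport ?_
  refine h2.mono fun x hx => ?_
  simp only [Function.mem_support] at hx ⊢
  intro h; exact hx (by simp [h, hk])

private theorem gna_grad_norm (φ : E N → ℝ) (x : E N) : ‖gradient φ x‖ = ‖fderiv ℝ φ x‖ := by
  unfold gradient
  simp

private theorem gna_fd_cont (φ : E N → ℝ) (h1 : ContDiff ℝ 1 φ) :
    Continuous fun x => fderiv ℝ φ x := h1.continuous_fderiv (by norm_num)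

private theorem gna_int_fd (φ : E N → ℝ) (h1 : ContDiff ℝ 1 φ) (h2 : HasCompactSupport φ) (k : ℕ)
    (hk : k ≠ 0) : Integrable (fun x => ‖fderiv ℝ φ x‖ ^ k) (volume : Measure (E N)) := by
  refine ((gna_fd_cont φ h1).norm.pow k).integrable_of_hasCompactSupport ?_
  refine (h2.fderiv ℝ).mono fun x hx => ?_
  simp only [Function.mem_support] at hx ⊢
  intro h; exact hx (by simp [h, hk])

/-- module gna. Dimension 2.
Proof: `MeasureTheory.eLpNorm_le_eLpNorm_fderiv_one` (Gagliardo-Nirenberg-Sobolev with p = 1, p' = 2) applied to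
`φ²` (which is `C¹_c`, with `∇(φ²) = 2 φ ∇φ`): `‖φ²‖_2 ≤ C ‖∇(φ²)‖_1 ≤ 2C ‖φ‖_2 ‖∇φ‖_2` (Hoelder). Square it.
(`‖fderiv ℝ φ x‖ = ‖gradient φ x‖` since `toDual` is an isometry.) -/
theorem gn2 : ∃ C : ℝ, 0 < C ∧ ∀ φ : E 2 → ℝ, ContDiff ℝ 1 φ → HasCompactSupport φ →
    ∫ x, φ x ^ 4 ≤ C * (∫ x, φ x ^ 2) * ∫ x, ‖gradient φ x‖ ^ 2 := by
  classical
  set C0 : NNReal := lintegralPowLePowLIntegralFDerivConst (volume : Measure (E 2)) 2 with hC0
  refine ⟨4 * C0 + 1, by positivity, fun φ h1 h2 => ?_⟩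
  simp only [gna_grad_norm]
  have hf1 : ContDiff ℝ 1 (fun x => φ x ^ 2) := h1.pow 2
  have hf2 : HasCompactSupport (fun x => φ x ^ 2) := by
    refine h2.mono fun x hx => ?_
    simp only [Function.mem_support] at hx ⊢
    intro h; exact hx (by simp [h])
  have hp : Real.HolderConjugate (Module.finrank ℝ (E 2)) 2 := by
    simp only [E, finrank_euclideanSpace, Fintype.card_fin]
    exact ⟨by norm_num, by norm_num, by norm_num⟩
  have key := lintegral_pow_le_pow_lintegral_fderiv (volume : Measure (E 2)) hf1 hf2 hp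
  rw [← hC0] at key
  have e1 : ∫⁻ x, ‖φ x ^ 2‖ₑ ^ (2 : ℝ) = ENNReal.ofReal (∫ x, φ x ^ 4) := by
    rw [ofReal_integral_eq_lintegral_ofReal (gna_int_pow φ h1.continuous h2 4 (by norm_num))
      (Eventually.of_forall fun x => by positivity)]
    refine lintegral_congr fun x => ?_
    rw [Real.enorm_eq_ofReal (by positivity), ENNReal.ofReal_rpow_of_nonneg (by positivity) (by norm_num)]
    congr 1
    rw [Real.rpow_two]; ring
  have hfd : ∀ x, fderiv ℝ (fun x => φ x ^ 2) x = (2 * φ x) • fderiv ℝ φ x := by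
    intro x
    have := (h1.differentiable (by norm_num) x).hasFDerivAt.pow 2
    rw [this.fderiv]
    simp
  have e2 : ∫⁻ x, ‖fderiv ℝ (fun x => φ x ^ 2) x‖ₑ
      = ENNReal.ofReal (2 * ∫ x, |φ x| * ‖fderiv ℝ φ x‖) := by
    rw [← integral_const_mul, ofReal_integral_eq_lintegral_ofReal]
    · refine lintegral_congr fun x => ?_
      rw [hfd, ← ofReal_norm, norm_smul]
      congr 1
      rw [Real.norm_eq_abs, abs_mul, abs_two]; ring
    · refine Integrable.const_mul ?_ _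
      refine Continuous.integrable_of_hasCompactSupport
        (h1.continuous.abs.mul (gna_fd_cont φ h1).norm) ?_
      refine h2.mono fun x hx => ?_
      simp only [Function.mem_support] at hx ⊢
      intro h; exact hx (by simp [h])
    · exact Eventually.of_forall fun x => by positivity
  rw [e1, e2, ENNReal.ofReal_rpow_of_nonneg (by positivity) (by norm_num)] at key
  have hint : Integrable (fun x => |φ x| * ‖fderiv ℝ φ x‖) (volume : Measure (E 2)) := by
    refine Continuous.integrable_of_hasCompactSupport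
        (h1.continuous.abs.mul (gna_fd_cont φ h1).norm) ?_
    refine h2.mono fun x hx => ?_
    simp only [Function.mem_support] at hx ⊢
    intro h; exact hx (by simp [h])
  have hcs := gna_cs (f := fun x => |φ x|) (g := fun x => ‖fderiv ℝ φ x‖)
    (by simpa using gna_int_pow φ h1.continuous h2 2 (by norm_num)) (gna_int_fd φ h1 h2 2 (by norm_num)) hint
  simp only [sq_abs] at hcs
  have key2 : ∫ x, φ x ^ 4 ≤ C0 * (2 * ∫ x, |φ x| * ‖fderiv ℝ φ x‖) ^ 2 := by
    have h0 : (0 : ℝ) ≤ C0 * (2 * ∫ x, |φ x| * ‖fderiv ℝ φ x‖) ^ 2 := by positivity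
    rw [← ENNReal.ofReal_le_ofReal_iff h0, ENNReal.ofReal_mul (by positivity)]
    rw [Real.rpow_two] at key
    simpa using key
  have hX : 0 ≤ (∫ x, φ x ^ 2) * ∫ x, ‖fderiv ℝ φ x‖ ^ 2 :=
    mul_nonneg (integral_nonneg fun x => by positivity) (integral_nonneg fun x => by positivity)
  have hc0 : (0 : ℝ) ≤ C0 := C0.2
  calc ∫ x, φ x ^ 4 ≤ C0 * (2 * ∫ x, |φ x| * ‖fderiv ℝ φ x‖) ^ 2 := key2
    _ = 4 * C0 * (∫ x, |φ x| * ‖fderiv ℝ φ x‖) ^ 2 := by ring
    _ ≤ 4 * C0 * ((∫ x, φ x ^ 2) * ∫ x, ‖fderiv ℝ φ x‖ ^ 2) := by gcongr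
    _ ≤ (4 * C0 + 1) * (∫ x, φ x ^ 2) * ∫ x, ‖fderiv ℝ φ x‖ ^ 2 := by nlinarith

/-- module gnb. Dimension 3.
Proof: `MeasureTheory.eLpNorm_le_eLpNorm_fderiv_of_eq` (p = 2, p' = 6) gives `∫ φ⁶ ≤ C (∫ |∇φ|²)³`, and
`(∫ φ⁴)² ≤ ∫ φ² ∫ φ⁶` by Cauchy-Schwarz. -/
theorem gn3 : ∃ C : ℝ, 0 < C ∧ ∀ φ : E 3 → ℝ, ContDiff ℝ 1 φ → HasCompactSupport φ →
    (∫ x, φ x ^ 4) ^ 2 ≤ C * (∫ x, φ x ^ 2) * (∫ x, ‖gradient φ x‖ ^ 2) ^ 3 := by
  classical
  set C0 : NNReal := eLpNormLESNormFDerivOfEqInnerConst (volume : Measure (E 3)) ((2 : NNReal) : ℝ) with hC0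
  refine ⟨(C0 : ℝ) ^ 6 + 1, by positivity, fun φ h1 h2 => ?_⟩
  simp only [gna_grad_norm]
  have key := eLpNorm_le_eLpNorm_fderiv_of_eq_inner (volume : Measure (E 3)) (F' := ℝ) h1 h2
    (p := 2) (p' := 6) (by norm_num) (by simp [E]) (by simp [E]; norm_num)
  have hA : eLpNorm φ ((6 : NNReal) : ENNReal) (volume : Measure (E 3)) ^ (6 : ℝ)
      = ENNReal.ofReal (∫ x, φ x ^ 6) := by
    have := eLpNorm_nnreal_pow_eq_lintegral (f := φ) (μ := (volume : Measure (E 3)))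
      (p := 6) (by norm_num)
    have e6 : ((6 : NNReal) : ℝ) = 6 := by norm_num
    rw [e6] at this
    rw [this, ofReal_integral_eq_lintegral_ofReal (gna_int_pow φ h1.continuous h2 6 (by norm_num))
      (Eventually.of_forall fun x => by positivity)]
    refine lintegral_congr fun x => ?_
    rw [Real.enorm_eq_ofReal_abs, ENNReal.ofReal_rpow_of_nonneg (by positivity) (by norm_num)]
    congr 1
    rw [show (6 : ℝ) = ((6 : ℕ) : ℝ) by norm_num, Real.rpow_natCast]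
    exact (Even.pow_abs (by decide) _)
  have hB : eLpNorm (fderiv ℝ φ) ((2 : NNReal) : ENNReal) (volume : Measure (E 3)) ^ (2 : ℝ)
      = ENNReal.ofReal (∫ x, ‖fderiv ℝ φ x‖ ^ 2) := by
    have := eLpNorm_nnreal_pow_eq_lintegral (f := fderiv ℝ φ) (μ := (volume : Measure (E 3)))
      (p := 2) (by norm_num)
    have e6 : ((2 : NNReal) : ℝ) = 2 := by norm_num
    rw [e6] at this
    rw [this, ofReal_integral_eq_lintegral_ofReal (gna_int_fd φ h1 h2 2 (by norm_num))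
      (Eventually.of_forall fun x => by positivity)]
    refine lintegral_congr fun x => ?_
    rw [← ofReal_norm, ENNReal.ofReal_rpow_of_nonneg (by positivity) (by norm_num)]
    congr 1
    rw [Real.rpow_two]
  have key6 : ENNReal.ofReal (∫ x, φ x ^ 6) ≤
      ENNReal.ofReal ((C0 : ℝ) ^ 6 * (∫ x, ‖fderiv ℝ φ x‖ ^ 2) ^ 3) := by
    rw [← hA, ENNReal.ofReal_mul (by positivity), ENNReal.ofReal_pow (by positivity),
      ENNReal.ofReal_pow (integral_nonneg fun x => by positivity), ← hB]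
    calc eLpNorm φ ((6 : NNReal) : ENNReal) (volume : Measure (E 3)) ^ (6 : ℝ)
        ≤ ((C0 : ENNReal) * eLpNorm (fderiv ℝ φ) ((2 : NNReal) : ENNReal) (volume : Measure (E 3))) ^ (6 : ℝ) := by
          refine ENNReal.rpow_le_rpow ?_ (by norm_num)
          exact key
      _ = _ := by
          rw [ENNReal.mul_rpow_of_nonneg _ _ (by norm_num)]
          congr 1
          · rw [show (6 : ℝ) = ((6 : ℕ) : ℝ) by norm_num, ENNReal.rpow_natCast]
            simp
          · rw [← ENNReal.rpow_natCast, ← ENNReal.rpow_mul]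
            norm_num
  have hR : 0 ≤ (C0 : ℝ) ^ 6 * (∫ x, ‖fderiv ℝ φ x‖ ^ 2) ^ 3 := by
    have : 0 ≤ ∫ x, ‖fderiv ℝ φ x‖ ^ 2 := integral_nonneg fun x => by positivity
    positivity
  have key6' := (ENNReal.ofReal_le_ofReal_iff hR).1 key6
  have hcs := gna_cs (f := fun x => φ x) (g := fun x => φ x ^ 3)
    (gna_int_pow φ h1.continuous h2 2 (by norm_num))
    (by simpa only [← pow_mul] using gna_int_pow φ h1.continuous h2 (3 * 2) (by norm_num))
    (by
      have := gna_int_pow φ h1.continuous h2 4 (by norm_num)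
      refine this.congr (Eventually.of_forall fun x => ?_)
      ring)
  have e4 : (fun x => φ x * φ x ^ 3) = fun x => φ x ^ 4 := by ext x; ring
  have e6 : (fun x => (φ x ^ 3) ^ 2) = fun x => φ x ^ 6 := by ext x; ring
  rw [e4, e6] at hcs
  have hY : 0 ≤ ∫ x, φ x ^ 2 := integral_nonneg fun x => by positivity
  have hX : 0 ≤ (∫ x, ‖fderiv ℝ φ x‖ ^ 2) ^ 3 := by
    have : 0 ≤ ∫ x, ‖fderiv ℝ φ x‖ ^ 2 := integral_nonneg fun x => by positivity
    positivity
  calc (∫ x, φ x ^ 4) ^ 2 ≤ (∫ x, φ x ^ 2) * ∫ x, φ x ^ 6 := hcs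
    _ ≤ (∫ x, φ x ^ 2) * ((C0 : ℝ) ^ 6 * (∫ x, ‖fderiv ℝ φ x‖ ^ 2) ^ 3) := by gcongr
    _ ≤ ((C0 : ℝ) ^ 6 + 1) * (∫ x, φ x ^ 2) * (∫ x, ‖fderiv ℝ φ x‖ ^ 2) ^ 3 := by
        nlinarith [mul_nonneg hY hX]

/-- module gnc. Both dimensions: from `gn2`, `gn3` (for N = 2: `P² ≤ C² Y² X² ≤ C² Y (X+Y)³`). -/
theorem gnc [Dim N] : ∃ C : ℝ, 0 < C ∧ ∀ φ : E N → ℝ, ContDiff ℝ 1 φ → HasCompactSupport φ →
    (∫ x, φ x ^ 4) ^ 2 ≤
      C * (∫ x, φ x ^ 2) * ((∫ x, ‖gradient φ x‖ ^ 2) + ∫ x, φ x ^ 2) ^ 3 := by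
  rcases (Dim.h : N = 2 ∨ N = 3) with rfl | rfl
  · obtain ⟨C, hC, H⟩ := gn2
    refine ⟨C ^ 2, by positivity, fun φ h1 h2 => ?_⟩
    have h := H φ h1 h2
    have hP : 0 ≤ ∫ x, φ x ^ 4 := integral_nonneg fun x => by positivity
    have hY : 0 ≤ ∫ x, φ x ^ 2 := integral_nonneg fun x => by positivity
    have hX : 0 ≤ ∫ x, ‖gradient φ x‖ ^ 2 := integral_nonneg fun x => by positivity
    generalize (∫ x, φ x ^ 4) = P at *
    generalize (∫ x, φ x ^ 2) = Y at *
    generalize (∫ x, ‖gradient φ x‖ ^ 2) = X at *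
    have h3 : Y * X ^ 2 ≤ (X + Y) ^ 3 := by
      have e : (X + Y) ^ 3 = Y * X ^ 2 + (X ^ 3 + 2 * X ^ 2 * Y + 3 * X * Y ^ 2 + Y ^ 3) := by ring
      rw [e]
      have : 0 ≤ X ^ 3 + 2 * X ^ 2 * Y + 3 * X * Y ^ 2 + Y ^ 3 := by positivity
      linarith
    calc P ^ 2 ≤ (C * Y * X) ^ 2 := by gcongr
      _ = C ^ 2 * Y * (Y * X ^ 2) := by ring
      _ ≤ C ^ 2 * Y * (X + Y) ^ 3 := by gcongr
  · obtain ⟨C, hC, H⟩ := gn3
    refine ⟨C, hC, fun φ h1 h2 => ?_⟩
    have h := H φ h1 h2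
    have hY : 0 ≤ ∫ x, φ x ^ 2 := integral_nonneg fun x => by positivity
    have hX : 0 ≤ ∫ x, ‖gradient φ x‖ ^ 2 := integral_nonneg fun x => by positivity
    generalize (∫ x, φ x ^ 4) = P at *
    generalize (∫ x, φ x ^ 2) = Y at *
    generalize (∫ x, ‖gradient φ x‖ ^ 2) = X at *
    refine h.trans ?_
    have : X ^ 3 ≤ (X + Y) ^ 3 := by gcongr; linarith
    gcongr

private theorem gnc_gY (u : H1 N) : gY u u = ‖u.val.fst‖ ^ 2 := by
  rw [← real_inner_self_eq_norm_sq, L2.inner_def]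
  unfold gY fn
  refine integral_congr_ae (Eventually.of_forall fun x => ?_)
  simp only [real_inner_self_eq_norm_sq, Real.norm_eq_abs, sq_abs]
  ring

private theorem gnc_le (u : H1 N) : ‖u.val.fst‖ ≤ ‖u‖ := by
  have h : ‖u.val.fst‖ ^ 2 ≤ ‖u‖ ^ 2 := by
    rw [← gnc_gY, norm_sq_eq]
    have := gY_le_ip (l := 1) u
    linarith
  exact (abs_le_of_sq_le_sq' h (norm_nonneg _)).2

private theorem gnc_fst_sub (u v : H1 N) : (u - v).val.fst = u.val.fst - v.val.fst := rfl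

private theorem gnc_tendsto {w : ℕ → H1 N} {u : H1 N} (h : Tendsto w atTop (𝓝 u)) :
    Tendsto (fun n => (w n).val.fst) atTop (𝓝 u.val.fst) := by
  rw [tendsto_iff_norm_sub_tendsto_zero] at h ⊢
  refine squeeze_zero (fun n => norm_nonneg _) (fun n => ?_) h
  rw [← gnc_fst_sub]
  exact gnc_le _

private theorem gnc_main [Dim N] : ∃ C : ℝ, 0 < C ∧ ∀ u : H1 N,
    ∫⁻ x, ‖fn u x‖ₑ ^ 4 ≤ ENNReal.ofReal (√(C * gY u u * (‖u‖ ^ 2) ^ 3)) := by
  obtain ⟨C, hC, H⟩ := gnc (N := N)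
  refine ⟨C, hC, fun u => ?_⟩
  obtain ⟨w, φ, h1, h2⟩ := exists_approx u
  have hL := gnc_tendsto h2
  have hM : TendstoInMeasure (volume : Measure (E N)) (fun n => (((w n).val.fst : Lp ℝ 2 (volume : Measure (E N))) : E N → ℝ)) atTop
      ((u.val.fst : Lp ℝ 2 (volume : Measure (E N))) : E N → ℝ) :=
    tendstoInMeasure_of_tendsto_Lp hL
  obtain ⟨ns, hns, hae⟩ := hM.exists_seq_tendsto_ae
  have hns' := hns.tendsto_atTop
  -- the real bound for the approximations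
  have hb : ∀ n, ∫⁻ x, ‖fn (w n) x‖ₑ ^ 4 ≤ ENNReal.ofReal (√(C * gY (w n) (w n) * (‖w n‖ ^ 2) ^ 3)) := by
    intro n
    obtain ⟨a1, a2, a3, a4⟩ := h1 n
    have e1 : ∫⁻ x, ‖fn (w n) x‖ₑ ^ 4 = ENNReal.ofReal (∫ x, φ n x ^ 4) := by
      rw [ofReal_integral_eq_lintegral_ofReal (gna_int_pow (φ n) a1.continuous a2 4 (by norm_num))
        (Eventually.of_forall fun x => by positivity)]
      refine lintegral_congr_ae ?_
      filter_upwards [a3] with x hx
      rw [hx, Real.enorm_eq_ofReal_abs, ← ENNReal.ofReal_pow (abs_nonneg _)]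
      congr 1
      exact (Even.pow_abs (by decide) _)
    rw [e1]
    refine ENNReal.ofReal_le_ofReal (Real.le_sqrt_of_sq_le ?_)
    have e2 : gY (w n) (w n) = ∫ x, φ n x ^ 2 := by
      unfold gY
      refine integral_congr_ae ?_
      filter_upwards [a3] with x hx
      rw [hx]; ring
    have e3 : gX (w n) (w n) = ∫ x, ‖gradient (φ n) x‖ ^ 2 := by
      unfold gX
      refine integral_congr_ae ?_
      filter_upwards [a4] with x hx
      rw [hx, real_inner_self_eq_norm_sq]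
    have e4 : ‖w n‖ ^ 2 = (∫ x, ‖gradient (φ n) x‖ ^ 2) + ∫ x, φ n x ^ 2 := by
      rw [norm_sq_eq]; unfold ip; rw [e2, e3]; ring
    rw [e4, e2]
    exact H (φ n) a1 a2
  have hgY : Tendsto (fun n => gY (w n) (w n)) atTop (𝓝 (gY u u)) := by
    simp only [gnc_gY]
    exact (hL.norm.pow 2)
  have hB : Tendsto (fun n => ENNReal.ofReal (√(C * gY (w n) (w n) * (‖w n‖ ^ 2) ^ 3))) atTop
      (𝓝 (ENNReal.ofReal (√(C * gY u u * (‖u‖ ^ 2) ^ 3)))) := by
    refine ENNReal.tendsto_ofReal ?_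
    refine (Real.continuous_sqrt.tendsto _).comp ?_
    exact (hgY.const_mul C).mul ((h2.norm.pow 2).pow 3)
  have hB' := hB.comp hns'
  calc ∫⁻ x, ‖fn u x‖ₑ ^ 4 = ∫⁻ x, liminf (fun k => ‖fn (w (ns k)) x‖ₑ ^ 4) atTop := by
        refine lintegral_congr_ae ?_
        filter_upwards [hae] with x hx
        symm
        refine Tendsto.liminf_eq ?_
        exact (((ENNReal.continuous_pow 4).comp continuous_enorm).tendsto _).comp hx
    _ ≤ liminf (fun k => ∫⁻ x, ‖fn (w (ns k)) x‖ₑ ^ 4) atTop := by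
        refine lintegral_liminf_le' fun k => ?_
        exact ((Lp.aestronglyMeasurable (w (ns k)).val.fst).enorm).pow_const 4
    _ ≤ liminf (fun k => ENNReal.ofReal (√(C * gY (w (ns k)) (w (ns k)) * (‖w (ns k)‖ ^ 2) ^ 3))) atTop :=
        liminf_le_liminf (Eventually.of_forall fun k => hb (ns k))
    _ = _ := hB'.liminf_eq

/-- module gnc. `H1 ⊂ L⁴`. Proof: `exists_approx`; the approximations `φ n` are Cauchy in `L⁴` by `gnc` applied to
`φ n - φ m`, so they converge in `L⁴`, and the limit is `fn u` because they converge to `fn u` in `L²`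
(alternatively: a.e. convergent subsequence and Fatou). -/
theorem fn_memLp4 [Dim N] (u : H1 N) : MemLp (fn u) 4 (volume : Measure (E N)) := by
  obtain ⟨C, hC, H⟩ := gnc_main (N := N)
  refine ⟨Lp.aestronglyMeasurable _, ?_⟩
  rw [eLpNorm_lt_top_iff_lintegral_rpow_enorm_lt_top (by norm_num) (by norm_num)]
  have h := H u
  have e : ∫⁻ x, ‖fn u x‖ₑ ^ (4 : ENNReal).toReal = ∫⁻ x, ‖fn u x‖ₑ ^ 4 := by
    refine lintegral_congr fun x => ?_
    rw [show (4 : ENNReal).toReal = ((4 : ℕ) : ℝ) by norm_num, ENNReal.rpow_natCast]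
  rw [e]
  exact h.trans_lt ENNReal.ofReal_lt_top

/-- module gnc. The Gagliardo-Nirenberg inequality in `H1` (Fatou for an a.e. convergent subsequence of
`exists_approx`). -/
theorem gn [Dim N] : ∃ C : ℝ, 0 < C ∧ ∀ u : H1 N,
    (∫ x, fn u x ^ 4) ^ 2 ≤ C * gY u u * (‖u‖ ^ 2) ^ 3 := by
  obtain ⟨C, hC, H⟩ := gnc_main (N := N)
  refine ⟨C, hC, fun u => ?_⟩
  have h := H u
  have hnn : 0 ≤ C * gY u u * (‖u‖ ^ 2) ^ 3 := by
    have := gY_nonneg u
    positivity
  have e : ∫ x, fn u x ^ 4 = (∫⁻ x, ‖fn u x‖ₑ ^ 4).toReal := by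
    have hm : AEStronglyMeasurable (fun x => fn u x ^ 4) (volume : Measure (E N)) :=
      (Lp.aestronglyMeasurable u.val.fst).pow 4
    rw [integral_eq_lintegral_of_nonneg_ae (Eventually.of_forall fun x => by positivity) hm]
    congr 1
    refine lintegral_congr fun x => ?_
    rw [Real.enorm_eq_ofReal_abs, ← ENNReal.ofReal_pow (abs_nonneg _)]
    congr 1
    exact (Even.pow_abs (by decide) _).symm
  rw [e]
  have h2 : (∫⁻ x, ‖fn u x‖ₑ ^ 4).toReal ≤ √(C * gY u u * (‖u‖ ^ 2) ^ 3) := by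
    refine ENNReal.toReal_le_of_le_ofReal (Real.sqrt_nonneg _) h
  calc (∫⁻ x, ‖fn u x‖ₑ ^ 4).toReal ^ 2 ≤ (√(C * gY u u * (‖u‖ ^ 2) ^ 3)) ^ 2 := by
        gcongr
    _ = _ := Real.sq_sqrt hnn

end Sir
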