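import Pool.Agent.Sir.Tau
/-!
# Steps 1 - 4
modules: noa, nob, noc, nod, noe, nof
-/

namespace Sir

open MeasureTheory Filter Topology

variable {N : ℕ}

private theorem noa_K [Dim N] {l2 m2 : ℝ} (h2 : 0 < l2) (hm2 : 0 < m2) {w : H1 N}
    (hw : GNo l2 m2 w) : ip l2 w w = m2 * Q4 w w w w ∧ 0 < Q4 w w w w ∧
      m2 * Q4 w w w w = S2 N l2 / m2 ∧ S2 N l2 / (4 * m2) = m2 * Q4 w w w w / 4 := by
  obtain ⟨h3, h4⟩ := GNo_vals h2 hm2 hw
  refine ⟨hw.2.1, Q4_pos hw.1, ?_, ?_⟩
  · rw [h3]; field_simp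
  · rw [h3]; field_simp

private theorem noa_EE {a p q r : ℝ} (hr : 0 < r) (hD : q ^ 2 - p * r ≠ 0) :
    EEn a r p q r = r / 4 - r * (q - a) ^ 2 / (4 * (q ^ 2 - p * r)) := by
  unfold EEn
  rw [show 2 * a * r * q - a ^ 2 * r - r ^ 2 * p = r * (q ^ 2 - p * r) - r * (q - a) ^ 2 by ring,
    sub_div]
  congr 1
  exact mul_div_mul_right r 4 hD

private theorem noa_Q [Dim N] (u v w : H1 N) (t : ℝ) : Q4 w w (u + t • v) (u + t • v) =
    Q4 w w u u + 2 * t * Q4 w w u v + t ^ 2 * Q4 w w v v := by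
  rw [Q4_swapp w w, Q_expand, Q4_swapp u u, Q4_swapp u v, Q4_swapp v v]

private theorem noa_ip (l : ℝ) (u v : H1 N) (t : ℝ) : ip l (u + t • v) (u + t • v) =
    ip l u u + 2 * t * ip l u v + t ^ 2 * ip l v v := by
  rw [ip_add_left, ip_add_right, ip_add_right, ip_smul_left, ip_smul_left, ip_smul_right,
    ip_smul_right, ip_comm l v u]
  ring

private theorem noa_pair [Dim N] {l1 l2 m2 be : ℝ} (h1 : 0 < l1) (h2 : 0 < l2) (hm2 : 0 < m2)
    (hbe : 0 < be) (hb : tau N l2 m2 l1 ≤ be) {e : ℝ} (he : 0 < e) :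
    ∃ w p : H1 N, GNo l2 m2 w ∧ 0 < Q4 w w p p ∧ be * Q4 w w p p < ip l1 p p ∧
      ip l1 p p < (be + e) * Q4 w w p p := by
  obtain ⟨w, p0, hw, hp0, hlt⟩ := tau_lt (N := N) h2 hm2 (l' := l1) (t := be + e) (by linarith)
  by_cases hc : be * Q4 w w p0 p0 < ip l1 p0 p0
  · exact ⟨w, p0, hw, hp0, hc, hlt⟩
  push Not at hc
  have hR : 0 < Q4 w w w w := Q4_pos hw.1
  have hd : 0 < 1 / ((be + e) ^ 2 * Q4 w w w w) := by positivity
  obtain ⟨p1, hp1, hp1'⟩ := flat (N := N) h1 hd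
  have hcs := Q4_cs w p1
  have hQ1 : (be + e) * Q4 w w p1 p1 < 1 := by
    have h3 : ((be + e) * Q4 w w p1 p1) ^ 2 < 1 := by
      rw [lt_div_iff₀ (by positivity)] at hp1'
      have h4 : (be + e) ^ 2 * Q4 w w p1 p1 ^ 2 ≤ (be + e) ^ 2 * (Q4 w w w w * Q4 p1 p1 p1 p1) :=
        mul_le_mul_of_nonneg_left hcs (sq_nonneg _)
      rw [mul_pow]
      nlinarith [h4, hp1']
    have h5 := abs_lt_of_sq_lt_sq (a := (be + e) * Q4 w w p1 p1) (b := 1) (by simpa using h3) zero_le_one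
    exact (abs_lt.1 h5).2
  set c : ℝ := be + e / 2 with hcdef
  have hcpos : 0 < c := by positivity
  set f0 : ℝ := ip l1 p0 p0 - c * Q4 w w p0 p0 with hf0
  have hf0neg : f0 < 0 := by
    have : 0 < e / 2 * Q4 w w p0 p0 := by positivity
    rw [hf0, hcdef]
    nlinarith
  set A : ℝ := 1 - c * Q4 w w p1 p1 with hA
  have hQ1n : 0 ≤ Q4 w w p1 p1 := Q4_nonneg w p1
  have hApos : 0 < A := by
    rw [hA, hcdef]
    nlinarith [mul_nonneg he.le hQ1n]
  set B : ℝ := ip l1 p0 p1 - c * Q4 w w p0 p1 with hB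
  have hf : ∀ t : ℝ, ip l1 (p0 + t • p1) (p0 + t • p1) - c * Q4 w w (p0 + t • p1) (p0 + t • p1) =
      f0 + 2 * B * t + A * t ^ 2 := by
    intro t
    rw [noa_ip, noa_Q, hp1, hf0, hA, hB]
    ring
  have hΔ : 0 ≤ B ^ 2 - A * f0 := by nlinarith [sq_nonneg B, mul_pos hApos (neg_pos.2 hf0neg)]
  set s : ℝ := Real.sqrt (B ^ 2 - A * f0) with hs
  have hs2 : s ^ 2 = B ^ 2 - A * f0 := Real.sq_sqrt hΔ
  set t : ℝ := (s - B) / A with ht
  have hroot : f0 + 2 * B * t + A * t ^ 2 = 0 := by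
    rw [ht]
    field_simp
    nlinarith [hs2]
  have hp : ip l1 (p0 + t • p1) (p0 + t • p1) = c * Q4 w w (p0 + t • p1) (p0 + t • p1) := by
    have := hf t
    rw [hroot] at this
    linarith
  have hne : p0 + t • p1 ≠ 0 := by
    intro h0
    have h3 : p0 = (-t) • p1 := by
      rw [neg_smul]
      exact eq_neg_of_add_eq_zero_left h0
    have h4 : f0 = t ^ 2 * A := by
      rw [hf0, h3, ip_smul_left, ip_smul_right, Q4_smul3, Q4_smul4, hp1, hA]
      ring
    have : 0 ≤ t ^ 2 * A := by positivity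
    linarith
  have hip : 0 < ip l1 (p0 + t • p1) (p0 + t • p1) := ip_pos h1 hne
  have hQp : 0 < Q4 w w (p0 + t • p1) (p0 + t • p1) := by
    rw [hp] at hip
    exact (mul_pos_iff_of_pos_left hcpos).1 hip
  refine ⟨w, p0 + t • p1, hw, hQp, ?_, ?_⟩
  · rw [hp, hcdef]
    have : 0 < e / 2 * Q4 w w (p0 + t • p1) (p0 + t • p1) := by positivity
    linarith
  · rw [hp, hcdef]
    have : 0 < e / 2 * Q4 w w (p0 + t • p1) (p0 + t • p1) := by positivity
    linarith

/-- module noa. Step 1, upper bound of the level: if `tau N l2 m2 l1 ≤ β` and `β² < μ1 μ2`.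
Proof: let `e > 0`. There are a ground state `w` of `(l2,m2)` and `p` with `β Q4 w w p p < ip l1 p p < (β+e) Q4 w w p p`:
`tau_lt` gives `p0` with quotient `< β + e`; if its quotient is `≤ β` move from `p0` along `p0 + t p1` (`p1` flat, sign such that no
cancellation, or simply any `p1` with a large quotient, e.g. `flat`) and use the intermediate value theorem (the quotient tends
to a value `> β + e`); the path never meets a zero of `Q4 w w · ·` before crossing (or argue with the continuous function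
`t ↦ ip l1 p p - (β + e/2) Q4 w w p p` which is negative at `p0` and positive at `p1`). The pair `(p, w)` (first component `p`, second
`w`, `b = r`) has `D < 0`, `q < a`, and `aq < bp` for small `e`: it is in `OmPp`, and
`EEp = K2 + r(a-q)²/(4|D|) ≤ K2 + e² m2 Q4 w w w w/(4(μ1μ2-β²))` (`(a-q)² ≤ e² Q² ≤ e² P R`, `|D| ≥ (μ1μ2-β²) P R`). `aq < bp`:
`a q ≤ (β+e) β Q² ≤ (β+e) β P R < μ1μ2 P R = b p`. -/
theorem level_small [Dim N] {l1 l2 m1 m2 be : ℝ} (h1 : 0 < l1) (h2 : 0 < l2) (hm1 : 0 < m1)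
    (hm2 : 0 < m2) (hb : tau N l2 m2 l1 ≤ be) (hb2 : be ^ 2 < m1 * m2) {u v : H1 N}
    (h : IsMin l1 l2 m1 m2 be u v) : En l1 l2 m1 m2 be u v ≤ S2 N l2 / (4 * m2) := by
  have htau : 0 < tau N l2 m2 l1 :=
    lt_of_lt_of_le (mul_pos hm2 (lt_min one_pos (div_pos h1 h2))) (tau_ge h2 hm2 h1)
  have hbe : 0 < be := lt_of_lt_of_le htau hb
  set κ : ℝ := m1 * m2 - be ^ 2 with hκ
  have hκ0 : 0 < κ := by rw [hκ]; linarith
  have hS : 0 < S2 N l2 := S2_pos h2
  set r0 : ℝ := S2 N l2 / m2 with hr0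
  have hr0p : 0 < r0 := div_pos hS hm2
  refine le_of_forall_pos_le_add fun ε hε => ?_
  set e : ℝ := min 1 (min (κ / be) (4 * κ * ε / r0)) with he
  have he0 : 0 < e := lt_min one_pos (lt_min (div_pos hκ0 hbe) (by positivity))
  have he1 : e ≤ 1 := min_le_left _ _
  have he2 : be * (be + e) ≤ m1 * m2 := by
    have h3 : e ≤ κ / be := (min_le_right _ _).trans (min_le_left _ _)
    rw [le_div_iff₀ hbe] at h3
    nlinarith
  have he3 : e * r0 ≤ 4 * κ * ε := by
    have h3 : e ≤ 4 * κ * ε / r0 := (min_le_right _ _).trans (min_le_right _ _)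
    rwa [le_div_iff₀ hr0p] at h3
  obtain ⟨w, p, hw, hp, hlo, hhi⟩ := noa_pair h1 h2 hm2 hbe hb he0
  obtain ⟨k1, k2, k3, k4⟩ := noa_K h2 hm2 hw
  have hcs := Q4_cs w p
  have hQs : Q4 p p w w = Q4 w w p p := Q4_swapp p p w w
  have hPp : 0 < Q4 p p p p := by
    by_contra hc
    push Not at hc
    have : Q4 w w p p ^ 2 ≤ 0 := hcs.trans (mul_nonpos_of_nonneg_of_nonpos k2.le hc)
    nlinarith
  set R : ℝ := Q4 w w w w with hR
  set P : ℝ := Q4 p p p p with hP
  set Q : ℝ := Q4 w w p p with hQ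
  have hQ2 : 0 < Q ^ 2 := by positivity
  -- the discriminant
  have hD : (be * Q) ^ 2 - m1 * P * (m2 * R) < 0 := by
    have h3 : be ^ 2 * Q ^ 2 < m1 * m2 * Q ^ 2 := mul_lt_mul_of_pos_right hb2 hQ2
    have h4 : m1 * m2 * Q ^ 2 ≤ m1 * m2 * (R * P) := mul_le_mul_of_nonneg_left hcs (by positivity)
    have h5 : (be * Q) ^ 2 - m1 * P * (m2 * R) = be ^ 2 * Q ^ 2 - m1 * m2 * (R * P) := by ring
    rw [h5]
    linarith
  have hDle : κ * Q ^ 2 ≤ -((be * Q) ^ 2 - m1 * P * (m2 * R)) := by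
    have h4 : m1 * m2 * Q ^ 2 ≤ m1 * m2 * (R * P) := mul_le_mul_of_nonneg_left hcs (by positivity)
    have h5 : -((be * Q) ^ 2 - m1 * P * (m2 * R)) = m1 * m2 * (R * P) - be ^ 2 * Q ^ 2 := by ring
    have h6 : κ * Q ^ 2 = m1 * m2 * Q ^ 2 - be ^ 2 * Q ^ 2 := by rw [hκ]; ring
    rw [h5, h6]
    linarith
  have hOm : OmPp l1 l2 m1 m2 be p w := by
    unfold OmPp OmP
    rw [hQs, k1]
    refine ⟨hD, ?_, ?_⟩
    · have : 0 < m2 * R := by positivity
      nlinarith
    · have h3 : ip l1 p p * (be * Q) < (be + e) * Q * (be * Q) :=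
        mul_lt_mul_of_pos_right hhi (by positivity)
      have h4 : be * (be + e) * Q ^ 2 ≤ m1 * m2 * Q ^ 2 := mul_le_mul_of_nonneg_right he2 hQ2.le
      have h5 : m1 * m2 * Q ^ 2 ≤ m1 * m2 * (R * P) := mul_le_mul_of_nonneg_left hcs (by positivity)
      calc ip l1 p p * (be * Q) < (be + e) * Q * (be * Q) := h3
        _ = be * (be + e) * Q ^ 2 := by ring
        _ ≤ m1 * m2 * Q ^ 2 := h4
        _ ≤ m1 * m2 * (R * P) := h5
        _ = m2 * R * (m1 * P) := by ring
  have hmin := min_le h1 h2 hm1 hm2 h (Or.inr hOm)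
  refine hmin.trans ?_
  unfold EEp
  rw [hQs, k1, noa_EE (by positivity) hD.ne, k4]
  have h3 : (be * Q - ip l1 p p) ^ 2 ≤ (e * Q) ^ 2 := by
    have h4 : 0 ≤ ip l1 p p - be * Q := by linarith
    have h5 : ip l1 p p - be * Q ≤ e * Q := by linarith
    nlinarith
  have h6 : - (m2 * R * (be * Q - ip l1 p p) ^ 2 / (4 * ((be * Q) ^ 2 - m1 * P * (m2 * R)))) =
      m2 * R * (be * Q - ip l1 p p) ^ 2 / (4 * -((be * Q) ^ 2 - m1 * P * (m2 * R))) := by
    rw [mul_neg, div_neg]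
  have h7 : m2 * R * (be * Q - ip l1 p p) ^ 2 / (4 * -((be * Q) ^ 2 - m1 * P * (m2 * R))) ≤ ε := by
    rw [div_le_iff₀ (by linarith)]
    have h8 : m2 * R * (be * Q - ip l1 p p) ^ 2 ≤ m2 * R * (e * Q) ^ 2 :=
      mul_le_mul_of_nonneg_left h3 (by positivity)
    have h9 : m2 * R * (e * Q) ^ 2 ≤ (e * r0) * Q ^ 2 := by
      rw [k3, mul_pow]
      have h12 : e ^ 2 ≤ e := by nlinarith
      have h13 : e ^ 2 * (r0 * Q ^ 2) ≤ e * (r0 * Q ^ 2) :=
        mul_le_mul_of_nonneg_right h12 (mul_nonneg hr0p.le hQ2.le)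
      calc r0 * (e ^ 2 * Q ^ 2) = e ^ 2 * (r0 * Q ^ 2) := by ring
        _ ≤ e * (r0 * Q ^ 2) := h13
        _ = e * r0 * Q ^ 2 := by ring
    have h10 : (e * r0) * Q ^ 2 ≤ 4 * κ * ε * Q ^ 2 := mul_le_mul_of_nonneg_right he3 hQ2.le
    have h11 : 4 * ε * (κ * Q ^ 2) ≤ 4 * ε * -((be * Q) ^ 2 - m1 * P * (m2 * R)) :=
      mul_le_mul_of_nonneg_left hDle (by positivity)
    calc m2 * R * (be * Q - ip l1 p p) ^ 2 ≤ m2 * R * (e * Q) ^ 2 := h8
      _ ≤ (e * r0) * Q ^ 2 := h9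
      _ ≤ 4 * κ * ε * Q ^ 2 := h10
      _ = 4 * ε * (κ * Q ^ 2) := by ring
      _ ≤ 4 * ε * -((be * Q) ^ 2 - m1 * P * (m2 * R)) := h11
      _ = ε * (4 * -((be * Q) ^ 2 - m1 * P * (m2 * R))) := by ring
  rw [sub_eq_add_neg, h6]
  exact add_le_add le_rfl h7

/-- Step 1 (all parameters). -/
theorem nonex_small [Dim N] {l1 l2 m1 m2 be : ℝ} (h1 : 0 < l1) (h2 : 0 < l2) (hm1 : 0 < m1)
    (hm2 : 0 < m2) (hb : tau N l2 m2 l1 ≤ be) (hb2 : be ^ 2 < m1 * m2) :
    ¬ HasGS N l1 l2 m1 m2 be := by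
  intro h
  obtain ⟨u, v, -, h4⟩ := (HasGS_iff h1 h2).1 h
  have h5 := level_small h1 h2 hm1 hm2 hb hb2 h4
  have h6 := (Neh_ge h1 h2 hm1 hm2 h4.1).1
  have h7 := Dl_neg hb2 h4.1.1 h4.1.2.1
  have h8 : 0 < 4 * (m2 * Q4 v v v v) := by
    have := Q4_pos h4.1.2.1
    positivity
  have h9 := div_neg_of_neg_of_pos h7 h8
  linarith

private theorem nob_cont_ip (l : ℝ) (w p : H1 N) :
    Continuous fun t : ℝ => ip l (w + t • p) (w + t • p) := by
  simp only [noa_ip]
  fun_prop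

private theorem nob_cont_Q [Dim N] (w p z : H1 N) :
    Continuous fun t : ℝ => Q4 (w + t • p) (w + t • p) z z := by
  simp only [Q_expand]
  fun_prop

private theorem nob_cont_P [Dim N] (w p : H1 N) :
    Continuous fun t : ℝ => Q4 (w + t • p) (w + t • p) (w + t • p) (w + t • p) := by
  simp only [P_expand]
  fun_prop

/-- module nob. Crossing: for a ground state `w` of `(l2,m2)` with quotient `ip l1 w w / Q4 w w w w < β` and `e > 0` small flat
`p`, the pair `(w + t p, w)`.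
Statement: if at some `u0 = w + t0 p` (`t0 > 0`) one has `a = q`, with `q > a` for `0 ≤ t < t0` and `q < a` for `t > t0`
and the discriminant is nonzero at `t0`, then the level is at most `K2`. -/
theorem level_cross [Dim N] {l1 l2 m1 m2 be : ℝ} (h1 : 0 < l1) (h2 : 0 < l2) (hm1 : 0 < m1)
    (hm2 : 0 < m2) (hb : 0 < be) {w p : H1 N} (hw : GNo l2 m2 w) {t0 : ℝ} (ht : 0 < t0)
    (h3 : ∀ t, 0 ≤ t → t < t0 →
      ip l1 (w + t • p) (w + t • p) < be * Q4 (w + t • p) (w + t • p) w w)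
    (h4 : ∀ t, t0 < t → be * Q4 (w + t • p) (w + t • p) w w < ip l1 (w + t • p) (w + t • p))
    (hD : Dl m1 m2 be (w + t0 • p) w ≠ 0) {u v : H1 N} (h : IsMin l1 l2 m1 m2 be u v) :
    En l1 l2 m1 m2 be u v ≤ S2 N l2 / (4 * m2) := by
  obtain ⟨k1, k2, k3, k4⟩ := noa_K h2 hm2 hw
  have ca := nob_cont_ip l1 w p
  have cQ := nob_cont_Q w p w
  have cP := nob_cont_P w p
  set a : ℝ → ℝ := fun t => ip l1 (w + t • p) (w + t • p) with ha
  set q : ℝ → ℝ := fun t => be * Q4 (w + t • p) (w + t • p) w w with hq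
  set pp : ℝ → ℝ := fun t => m1 * Q4 (w + t • p) (w + t • p) (w + t • p) (w + t • p) with hpp
  set r : ℝ := m2 * Q4 w w w w with hr
  have hrp : 0 < r := mul_pos hm2 k2
  have cq : Continuous q := continuous_const.mul cQ
  have cpp : Continuous pp := continuous_const.mul cP
  set D : ℝ → ℝ := fun t => q t ^ 2 - pp t * r with hDd
  have cD : Continuous D := (cq.pow 2).sub (cpp.mul continuous_const)
  have hD0 : D t0 ≠ 0 := hD
  have haq : a t0 = q t0 := by
    apply le_antisymm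
    · refine le_of_tendsto_of_tendsto (b := 𝓝[<] t0) (f := a) (g := q)
        ((ca.tendsto t0).mono_left nhdsWithin_le_nhds) ((cq.tendsto t0).mono_left nhdsWithin_le_nhds)
        ?_
      filter_upwards [Ioo_mem_nhdsLT ht] with t ht'
      exact (h3 t ht'.1.le ht'.2).le
    · refine le_of_tendsto_of_tendsto (b := 𝓝[>] t0) (f := q) (g := a)
        ((cq.tendsto t0).mono_left nhdsWithin_le_nhds) ((ca.tendsto t0).mono_left nhdsWithin_le_nhds)
        ?_
      filter_upwards [self_mem_nhdsWithin] with t ht'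
      exact (h4 t ht').le
  have hEE : ∀ t, D t ≠ 0 → EEp l1 l2 m1 m2 be (w + t • p) w =
      r / 4 - r * (q t - a t) ^ 2 / (4 * D t) := by
    intro t ht'
    unfold EEp
    rw [k1]
    exact noa_EE hrp ht'
  rcases lt_or_gt_of_ne hD0 with hneg | hpos
  · -- negative discriminant: approach from the right
    have e1 : ∀ᶠ t in 𝓝[>] t0, D t < 0 :=
      ((cD.tendsto t0).eventually (gt_mem_nhds hneg)).filter_mono nhdsWithin_le_nhds
    have e2 : ∀ᶠ t in 𝓝[>] t0, a t * q t - r * pp t < 0 := by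
      have c : Continuous fun t => a t * q t - r * pp t := (ca.mul cq).sub (continuous_const.mul cpp)
      have h0 : a t0 * q t0 - r * pp t0 < 0 := by
        rw [haq]
        have : D t0 = q t0 ^ 2 - pp t0 * r := rfl
        nlinarith
      exact ((c.tendsto t0).eventually (gt_mem_nhds h0)).filter_mono nhdsWithin_le_nhds
    have lim : Tendsto (fun t => r / 4 - r * (q t - a t) ^ 2 / (4 * D t)) (𝓝[>] t0) (𝓝 (r / 4)) := by
      have c : ContinuousAt (fun t => r / 4 - r * (q t - a t) ^ 2 / (4 * D t)) t0 := by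
        refine continuousAt_const.sub (ContinuousAt.div ?_ ?_ ?_)
        · exact (continuous_const.mul ((cq.sub ca).pow 2)).continuousAt
        · exact (continuous_const.mul cD).continuousAt
        · exact mul_ne_zero (by norm_num) hD0
      have h0 : r / 4 - r * (q t0 - a t0) ^ 2 / (4 * D t0) = r / 4 := by
        rw [haq]; simp
      have := c.tendsto
      rw [h0] at this
      exact this.mono_left nhdsWithin_le_nhds
    rw [k4]
    refine ge_of_tendsto lim ?_
    filter_upwards [e1, e2, self_mem_nhdsWithin] with t t1 t2 t3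
    rw [← hEE t t1.ne]
    refine min_le h1 h2 hm1 hm2 h (Or.inr ?_)
    unfold OmPp OmP
    rw [k1]
    refine ⟨t1, ?_, ?_⟩
    · have h5 : q t < a t := h4 t t3
      exact (by nlinarith : r * q t < a t * r)
    · exact (by linarith : a t * q t < r * pp t)
  · -- positive discriminant: approach from the left
    have e1 : ∀ᶠ t in 𝓝[<] t0, 0 < D t :=
      ((cD.tendsto t0).eventually (lt_mem_nhds hpos)).filter_mono nhdsWithin_le_nhds
    have e2 : ∀ᶠ t in 𝓝[<] t0, 0 < a t * q t - r * pp t := by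
      have c : Continuous fun t => a t * q t - r * pp t := (ca.mul cq).sub (continuous_const.mul cpp)
      have h0 : 0 < a t0 * q t0 - r * pp t0 := by
        rw [haq]
        have : D t0 = q t0 ^ 2 - pp t0 * r := rfl
        nlinarith
      exact ((c.tendsto t0).eventually (lt_mem_nhds h0)).filter_mono nhdsWithin_le_nhds
    have e3 : ∀ᶠ t in 𝓝[<] t0, 0 < t ∧ t < t0 := Ioo_mem_nhdsLT ht
    obtain ⟨t, t1, t2, t3, t4⟩ := (e1.and (e2.and e3)).exists
    have h5 : a t < q t := h3 t t3.le t4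
    have hOm : OmMp l1 l2 m1 m2 be (w + t • p) w := by
      unfold OmMp OmM
      rw [k1]
      refine ⟨t1, ?_, ?_⟩
      · exact (by nlinarith : a t * r < r * q t)
      · exact (by linarith : r * pp t < a t * q t)
    refine (min_le h1 h2 hm1 hm2 h (Or.inl hOm)).trans ?_
    rw [hEE t t1.ne', k4]
    have : 0 ≤ r * (q t - a t) ^ 2 / (4 * D t) := by positivity
    linarith

private theorem noc_sq {u v : H1 N} {k : ℝ} (hk : 0 ≤ k)
    (h : ∀ᵐ x : E N, fn v x ^ 2 = k * fn u x ^ 2) (l : ℝ) : ip l v v = k * ip l u u := by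
  obtain ⟨U, U1, U2, U3⟩ := abs_H' u
  obtain ⟨V, V1, V2, V3⟩ := abs_H' v
  have hV : V = Real.sqrt k • U := by
    refine H1_ext ?_
    filter_upwards [V1, U1, h, fn_smul (Real.sqrt k) U] with x a b c d
    rw [a, d, b, ← Real.sqrt_sq_eq_abs, ← Real.sqrt_sq_eq_abs, c, Real.sqrt_mul hk]
  have e1 : ip l v v = ip l V V := by unfold ip; rw [V2, V3]
  have e2 : ip l u u = ip l U U := by unfold ip; rw [U2, U3]
  rw [e1, e2, hV, ip_smul_left, ip_smul_right, ← mul_assoc, Real.mul_self_sqrt hk]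

private theorem noc_seq [Dim N] {l1 l2 m2 be : ℝ} (h1 : 0 < l1) (h2 : 0 < l2)
    (hm2 : 0 < m2) (hb : 0 < be) {w : H1 N} (hw : GNo l2 m2 w)
    (hq : ip l1 w w < be * Q4 w w w w) :
    ∃ (p : ℕ → H1 N) (t : ℕ → ℝ) (n0 : ℕ), (∀ n, n0 ≤ n → 0 < t n ∧
      (∀ s, 0 ≤ s → s < t n → ip l1 (w + s • p n) (w + s • p n) <
        be * Q4 (w + s • p n) (w + s • p n) w w) ∧
      (∀ s, t n < s → be * Q4 (w + s • p n) (w + s • p n) w w <
        ip l1 (w + s • p n) (w + s • p n)) ∧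
      ip l1 (w + t n • p n) (w + t n • p n) =
        be * Q4 (w + t n • p n) (w + t n • p n) w w) ∧
      Tendsto (fun n => n4 (w + t n • p n - w)) atTop (𝓝 0) := by
  have hR : 0 < Q4 w w w w := Q4_pos hw.1
  choose p hp1 hp2 using fun n : ℕ => flat (N := N) h1 (d := (1 / ((n : ℝ) + 1)) ^ 4) (by positivity)
  have hn4 : ∀ n, n4 (p n) ≤ 1 / ((n : ℝ) + 1) := by
    intro n
    have h3 : n4 (p n) ^ 4 < (1 / ((n : ℝ) + 1)) ^ 4 := by rw [n4_pow]; exact hp2 n
    exact (lt_of_pow_lt_pow_left₀ 4 (by positivity) h3).le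
  have hn4' : ∀ n, n4 (p n) ≤ 1 := fun n => (hn4 n).trans (by
    rw [div_le_one (by positivity)]
    have : (0 : ℝ) ≤ (n : ℝ) := Nat.cast_nonneg n
    linarith)
  have lim4 : Tendsto (fun n => n4 (p n)) atTop (𝓝 0) :=
    squeeze_zero (fun n => n4_nonneg _) hn4 tendsto_one_div_add_atTop_nhds_zero_nat
  set g0 : ℝ := be * Q4 w w w w - ip l1 w w with hg0
  have hg0p : 0 < g0 := by rw [hg0]; linarith
  set A : ℕ → ℝ := fun n => 1 - be * Q4 (p n) (p n) w w with hA
  set B : ℕ → ℝ := fun n => be * Q4 w (p n) w w - ip l1 w (p n) with hB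
  -- the quadratic
  have hg : ∀ n s, be * Q4 (w + s • p n) (w + s • p n) w w -
      ip l1 (w + s • p n) (w + s • p n) = g0 + 2 * B n * s - A n * s ^ 2 := by
    intro n s
    rw [noa_ip, Q_expand, hp1, hg0, hA, hB]
    ring
  have hQbd : ∀ n, |Q4 (p n) (p n) w w| ≤ n4 w ^ 2 * n4 (p n) := by
    intro n
    refine (Q4_le _ _ _ _).trans ?_
    have h3 := hn4' n
    have h4 := n4_nonneg (p n)
    have h5 := n4_nonneg w
    calc n4 (p n) * n4 (p n) * n4 w * n4 w = (n4 w ^ 2 * n4 (p n)) * n4 (p n) := by ring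
      _ ≤ (n4 w ^ 2 * n4 (p n)) * 1 := mul_le_mul_of_nonneg_left h3 (by positivity)
      _ = _ := mul_one _
  have limA : Tendsto A atTop (𝓝 1) := by
    have h3 : Tendsto (fun n => Q4 (p n) (p n) w w) atTop (𝓝 0) := by
      refine squeeze_zero_norm (fun n => ?_) (by simpa using lim4.const_mul (n4 w ^ 2))
      exact hQbd n
    have := (h3.const_mul be).const_sub 1
    simpa using this
  obtain ⟨n0, hn0⟩ := eventually_atTop.1 (limA.eventually (lt_mem_nhds (by norm_num : (1 / 2 : ℝ) < 1)))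
  set C1 : ℝ := be * n4 w ^ 3 + (ip l1 w w + 1) with hC1
  have hipw : 0 ≤ ip l1 w w := ip_nonneg h1.le w
  have hC1p : 0 < C1 := by
    have := n4_nonneg w
    positivity
  have hBbd : ∀ n, |B n| ≤ C1 := by
    intro n
    have h3 : |Q4 w (p n) w w| ≤ n4 w ^ 3 := by
      refine (Q4_le _ _ _ _).trans ?_
      have h5 := n4_nonneg w
      calc n4 w * n4 (p n) * n4 w * n4 w = n4 w ^ 3 * n4 (p n) := by ring
        _ ≤ n4 w ^ 3 * 1 := mul_le_mul_of_nonneg_left (hn4' n) (by positivity)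
        _ = _ := mul_one _
    have h4 : |ip l1 w (p n)| ≤ ip l1 w w + 1 := by
      have h5 := ip_cs h1.le w (p n)
      rw [hp1, mul_one] at h5
      refine abs_le_of_sq_le_sq ?_ (by positivity)
      nlinarith
    calc |B n| ≤ |be * Q4 w (p n) w w| + |ip l1 w (p n)| := abs_sub _ _
      _ ≤ be * n4 w ^ 3 + (ip l1 w w + 1) := by
        refine add_le_add ?_ h4
        rw [abs_mul, abs_of_pos hb]
        exact mul_le_mul_of_nonneg_left h3 hb.le
  set t : ℕ → ℝ := fun n => (B n + Real.sqrt (B n ^ 2 + A n * g0)) / A n with ht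
  have key : ∀ n, n0 ≤ n → 0 < t n ∧ A n * t n ^ 2 = g0 + 2 * B n * t n ∧
      t n ≤ 2 * g0 + 4 * C1 + 1 := by
    intro n hn
    have hAn : 1 / 2 < A n := hn0 n hn
    have hAp : 0 < A n := by linarith
    have hΔ : 0 ≤ B n ^ 2 + A n * g0 := by positivity
    have hs2 := Real.sq_sqrt hΔ
    have hsgt : |B n| < Real.sqrt (B n ^ 2 + A n * g0) := by
      rw [← Real.sqrt_sq_eq_abs]
      exact Real.sqrt_lt_sqrt (sq_nonneg _) (by nlinarith [mul_pos hAp hg0p])
    have htp : 0 < t n := by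
      refine div_pos ?_ hAp
      have := neg_abs_le (B n)
      linarith
    have hroot : A n * t n ^ 2 = g0 + 2 * B n * t n := by
      have e1 : A n * t n = B n + Real.sqrt (B n ^ 2 + A n * g0) := by
        rw [ht]; field_simp
      have e2 : A n * (A n * t n ^ 2) = A n * (g0 + 2 * B n * t n) := by
        calc A n * (A n * t n ^ 2) = (A n * t n) ^ 2 := by ring
          _ = (B n + Real.sqrt (B n ^ 2 + A n * g0)) ^ 2 := by rw [e1]
          _ = B n ^ 2 + 2 * B n * Real.sqrt (B n ^ 2 + A n * g0) + (B n ^ 2 + A n * g0) := by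
              rw [add_sq, hs2]
          _ = A n * g0 + 2 * B n * (B n + Real.sqrt (B n ^ 2 + A n * g0)) := by ring
          _ = A n * (g0 + 2 * B n * t n) := by rw [← e1]; ring
      exact mul_left_cancel₀ hAp.ne' e2
    refine ⟨htp, hroot, ?_⟩
    by_contra hc
    push Not at hc
    have hBn := (abs_le.1 (hBbd n)).2
    have hT1 : 1 < t n := by linarith
    have e3 : t n ^ 2 / 2 < A n * t n ^ 2 := by
      have : 0 < t n ^ 2 := by positivity
      nlinarith
    have e4 : g0 ≤ g0 * t n := by nlinarith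
    have e5 : 2 * B n * t n ≤ 2 * C1 * t n := by nlinarith
    have e6 : t n ^ 2 / 2 < (g0 + 2 * C1) * t n := by nlinarith
    nlinarith
  refine ⟨p, t, n0, fun n hn => ?_, ?_⟩
  · obtain ⟨t1, t2, t3⟩ := key n hn
    have hAn : 1 / 2 < A n := hn0 n hn
    have hfac : ∀ s, g0 + 2 * B n * s - A n * s ^ 2 = -(s - t n) * (g0 / t n + A n * s) := by
      intro s
      have e1 : 2 * B n = A n * t n - g0 / t n := by
        field_simp
        nlinarith [t2]
      have e2 : g0 / t n * t n = g0 := by field_simp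
      rw [e1]
      nlinarith [e2]
    refine ⟨t1, ?_, ?_, ?_⟩
    · intro s s0 s1
      have h3 := hg n s
      rw [hfac s] at h3
      have : 0 < -(s - t n) * (g0 / t n + A n * s) := by
        refine mul_pos (by linarith) ?_
        have : 0 ≤ A n * s := by positivity
        have : 0 < g0 / t n := by positivity
        linarith
      linarith
    · intro s s1
      have h3 := hg n s
      rw [hfac s] at h3
      have : 0 < (s - t n) * (g0 / t n + A n * s) := by
        refine mul_pos (by linarith) ?_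
        have : 0 ≤ A n * s := by
          have : 0 < s := by linarith
          positivity
        have : 0 < g0 / t n := by positivity
        linarith
      linarith
    · have h3 := hg n (t n)
      rw [hfac (t n)] at h3
      simp only [sub_self, neg_zero, zero_mul] at h3
      linarith
  · have hT : 0 ≤ 2 * g0 + 4 * C1 + 1 := by positivity
    refine squeeze_zero' (Eventually.of_forall fun n => n4_nonneg _) ?_
      (by simpa using lim4.const_mul (2 * g0 + 4 * C1 + 1))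
    filter_upwards [eventually_ge_atTop n0] with n hn
    obtain ⟨t1, t2, t3⟩ := key n hn
    rw [add_sub_cancel_left, n4_smul, abs_of_pos t1]
    exact mul_le_mul_of_nonneg_right t3 (n4_nonneg _)

/-- module noc. Step 2 (a). The level is at most `K2` for `β² ≥ μ1 μ2`, if the quotient of the ground state `w` itself is `< β`.
Proof: `g(t) = β Q4 (w+tp)(w+tp) w w - ip l1 (w+tp) (w+tp) = g0 + g1 t - g2 t²` with `g0 > 0` and
`g2 = ip l1 p p - β Q4 p p w w > 0` for flat `p` (`flat`: `ip l1 p p = 1`, `Q4 p p w w ≤ √(P(p) P(w))` small): exactly one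
positive zero `t0`, `t0 ≤ T` with `T` independent of `p` (`|g1| ≤ 2(β C + √(ip l1 w w))`). Discriminant at `t0`: if
`β² > μ1μ2`, take `P(p)` so small that `Q4 (w+t0p)(w+t0p) w w` and `P(w + t0 p)` are so close to `P(w)` that `D > 0`.
If `β² = μ1μ2`: `D = β²(Q² - P R) ≤ 0`, and `D = 0` would give `(w+t0p)² = k w²` a.e. (`Q4_cs_eq`, roles: `u = w`), hence
`|w + t0 p| = √k |w|`, `ip l1 (w+t0p)(w+t0p) = k ip l1 w w` (`abs_H'`, `H1_ext`), `Q = k P(w)`, and `a = q` contradicts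
quotient `< β`. Then `level_cross`. -/
theorem level_large [Dim N] {l1 l2 m1 m2 be : ℝ} (h1 : 0 < l1) (h2 : 0 < l2) (hm1 : 0 < m1)
    (hm2 : 0 < m2) (hb : 0 < be) {w : H1 N} (hw : GNo l2 m2 w)
    (hq : ip l1 w w < be * Q4 w w w w) (hb2 : m1 * m2 ≤ be ^ 2) {u v : H1 N}
    (h : IsMin l1 l2 m1 m2 be u v) : En l1 l2 m1 m2 be u v ≤ S2 N l2 / (4 * m2) := by
  obtain ⟨p, t, n0, hpt, lim⟩ := noc_seq h1 h2 hm2 hb hw hq
  have hR : 0 < Q4 w w w w := Q4_pos hw.1
  have lc : Tendsto (fun _ : ℕ => n4 (w - w)) atTop (𝓝 0) := by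
    rw [sub_self]
    have : n4 (0 : H1 N) = 0 := by
      have := n4_smul (0 : ℝ) (0 : H1 N)
      simpa using this
    rw [this]
    exact tendsto_const_nhds
  have limQ : Tendsto (fun n => Q4 (w + t n • p n) (w + t n • p n) w w) atTop (𝓝 (Q4 w w w w)) :=
    Q4_tendsto _ _ (fun _ => w) (fun _ => w) w w w w lim lim lc lc
  have limP : Tendsto (fun n => Q4 (w + t n • p n) (w + t n • p n) (w + t n • p n) (w + t n • p n))
      atTop (𝓝 (Q4 w w w w)) :=
    Q4_tendsto _ _ _ _ w w w w lim lim lim lim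
  have evQ := limQ.eventually (lt_mem_nhds hR)
  have evn := eventually_ge_atTop n0
  rcases hb2.lt_or_eq with hlt | heq
  · have limD : Tendsto (fun n => Dl m1 m2 be (w + t n • p n) w) atTop
        (𝓝 ((be * Q4 w w w w) ^ 2 - m1 * Q4 w w w w * (m2 * Q4 w w w w))) :=
      ((limQ.const_mul be).pow 2).sub ((limP.const_mul m1).mul_const _)
    have hpos : 0 < (be * Q4 w w w w) ^ 2 - m1 * Q4 w w w w * (m2 * Q4 w w w w) := by
      have : (be * Q4 w w w w) ^ 2 - m1 * Q4 w w w w * (m2 * Q4 w w w w) =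
          (be ^ 2 - m1 * m2) * Q4 w w w w ^ 2 := by ring
      rw [this]
      exact mul_pos (by linarith) (by positivity)
    obtain ⟨n, e1, e2⟩ := ((limD.eventually (lt_mem_nhds hpos)).and evn).exists
    obtain ⟨t1, t2, t3, t4⟩ := hpt n e2
    exact level_cross h1 h2 hm1 hm2 hb hw t1 t2 t3 e1.ne' h
  · obtain ⟨n, e1, e2⟩ := (evQ.and evn).exists
    obtain ⟨t1, t2, t3, t4⟩ := hpt n e2
    refine level_cross h1 h2 hm1 hm2 hb hw t1 t2 t3 (fun hD => ?_) h
    set U := w + t n • p n with hU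
    have hcs : Q4 w w U U ^ 2 = Q4 w w w w * Q4 U U U U := by
      have h3 : be ^ 2 * (Q4 U U w w ^ 2 - Q4 U U U U * Q4 w w w w) = 0 := by
        unfold Dl at hD
        rw [← hD, ← heq]
        ring_nf
        rw [show be ^ 2 = m1 * m2 from heq.symm]
        ring
      have h4 := (mul_eq_zero.1 h3).resolve_left (by positivity)
      rw [Q4_swapp w w U U]
      linarith
    have hsq := Q4_cs_eq hw.1 hcs
    have hQU : Q4 w w U U = Q4 U U w w := Q4_swapp w w U U
    have hkpos : 0 < Q4 w w U U / Q4 w w w w := by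
      rw [hQU]; exact div_pos e1 hR
    have h5 := noc_sq hkpos.le hsq l1
    rw [t4, ← hQU] at h5
    have h6 : be * Q4 w w U U = (Q4 w w U U / Q4 w w w w) * (be * Q4 w w w w) := by
      field_simp
    rw [h6] at h5
    have h7 := mul_left_cancel₀ hkpos.ne' h5
    linarith

private theorem nod_pos {c : ℝ} (hc : 0 < c) {F : ℝ → ℝ} (hF : ContinuousAt F 0) :
    ∀ᶠ t in 𝓝[>] (0 : ℝ), 0 < t * (c + t * F t) := by
  have h1 : ContinuousAt (fun t => c + t * F t) 0 :=
    continuousAt_const.add (continuousAt_id.mul hF)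
  have h2 : 0 < c + 0 * F 0 := by simpa using hc
  have h3 : ∀ᶠ t in 𝓝[>] (0 : ℝ), 0 < c + t * F t :=
    (h1.tendsto.eventually (lt_mem_nhds h2)).filter_mono nhdsWithin_le_nhds
  filter_upwards [h3, self_mem_nhdsWithin] with t a b
  exact mul_pos b a

private theorem nod_half [Dim N] {l1 l2 m1 m2 be : ℝ} (h1 : 0 < l1) (h2 : 0 < l2) (hm1 : 0 < m1)
    (hm2 : 0 < m2) (hb : 0 < be) {u v : H1 N}
    (hs : ∀ h : H1 N, ip l1 u h = m1 * Q4 u u u h + be * Q4 v v u h)
    (h : IsMin l1 l2 m1 m2 be u v) {x y : ℝ} (hx : 0 < x) (hy : 0 < y)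
    (hx2 : x ^ 2 = m1 * Q4 u u u u) (hy2 : y ^ 2 = m2 * Q4 v v v v)
    (hxy : x * y = be * Q4 u u v v) (z : H1 N) :
    x * (be * Q4 v v u z) ≤ y * (m1 * Q4 u u u z) := by
  by_contra hc
  push Not at hc
  set k : ℝ := x * (be * Q4 v v u z) - y * (m1 * Q4 u u u z) with hk
  have hkp : 0 < k := by rw [hk]; linarith
  have hNh := h.1
  obtain ⟨-, -, n3, n4'⟩ := hNh
  have ha : ip l1 u u = x * (x + y) := by rw [n3, ← hx2, ← hxy]; ring
  have hb' : ip l2 v v = y * (x + y) := by rw [n4', ← hy2, ← hxy]; ring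
  set U := m1 * Q4 u u u z with hU
  set W := be * Q4 v v u z with hW
  have hI : ip l1 u z = U + W := hs z
  have hW' : be * Q4 u z v v = W := by rw [hW, Q4_swapp v v u z]
  -- expansions
  have ea : ∀ t : ℝ, ip l1 (u + t • z) (u + t • z) =
      x * (x + y) + 2 * t * (U + W) + t ^ 2 * ip l1 z z := by
    intro t; rw [noa_ip, ha, hI]
  have eq : ∀ t : ℝ, be * Q4 (u + t • z) (u + t • z) v v =
      x * y + 2 * t * W + t ^ 2 * (be * Q4 z z v v) := by
    intro t; rw [Q_expand, ← hW', hxy]; ring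
  have ep : ∀ t : ℝ, m1 * Q4 (u + t • z) (u + t • z) (u + t • z) (u + t • z) =
      x ^ 2 + 4 * t * U + t ^ 2 * (6 * (m1 * Q4 u u z z) + 4 * t * (m1 * Q4 u z z z)
        + t ^ 2 * (m1 * Q4 z z z z)) := by
    intro t; rw [P_expand, hx2, hU]; ring
  set A2 := be * Q4 z z v v with hA2
  set I2 := ip l1 z z with hI2
  set F : ℝ → ℝ := fun t => 6 * (m1 * Q4 u u z z) + 4 * t * (m1 * Q4 u z z z)
        + t ^ 2 * (m1 * Q4 z z z z) with hF
  have cF : Continuous F := by rw [hF]; fun_prop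
  -- the discriminant
  have ev1 : ∀ᶠ t in 𝓝[>] (0 : ℝ), 0 < t * (4 * y * k + t *
      ((2 * W + t * A2) ^ 2 + 2 * (x * y) * A2 - F t * y ^ 2)) :=
    nod_pos (c := 4 * y * k)
      (F := fun t => (2 * W + t * A2) ^ 2 + 2 * (x * y) * A2 - F t * y ^ 2) (by positivity)
      (Continuous.continuousAt (by fun_prop))
  have ev2 : ∀ᶠ t in 𝓝[>] (0 : ℝ), 0 < t * (2 * y * k + t *
      (y * (x + y) * A2 - I2 * y ^ 2)) :=
    nod_pos (c := 2 * y * k) (F := fun _ => y * (x + y) * A2 - I2 * y ^ 2) (by positivity)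
      continuousAt_const
  have ev3 : ∀ᶠ t in 𝓝[>] (0 : ℝ), 0 < t * (2 * (x + 2 * y) * k + t *
      ((2 * (U + W) + t * I2) * (2 * W + t * A2) + x * (x + y) * A2 + I2 * (x * y)
        - y * (x + y) * F t)) :=
    nod_pos (c := 2 * (x + 2 * y) * k)
      (F := fun t => (2 * (U + W) + t * I2) * (2 * W + t * A2) + x * (x + y) * A2 + I2 * (x * y)
        - y * (x + y) * F t) (by positivity)
      (Continuous.continuousAt (by fun_prop))
  obtain ⟨t, t1, t2, t3⟩ := (ev1.and (ev2.and ev3)).exists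
  have hD : 0 < (be * Q4 (u + t • z) (u + t • z) v v) ^ 2 -
      m1 * Q4 (u + t • z) (u + t • z) (u + t • z) (u + t • z) * (m2 * Q4 v v v v) := by
    rw [eq, ep, ← hy2]
    refine lt_of_lt_of_eq t1 ?_
    rw [hk]
    ring
  have hOm : OmMp l1 l2 m1 m2 be (u + t • z) v := by
    unfold OmMp OmM
    refine ⟨hD, ?_, ?_⟩
    · rw [← sub_pos, hb', ea, eq, ← hy2]
      refine lt_of_lt_of_eq t2 ?_
      rw [hk]
      ring
    · rw [← sub_pos, hb', ea, eq, ep]
      refine lt_of_lt_of_eq t3 ?_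
      rw [hk]
      ring
  have hmin := min_le h1 h2 hm1 hm2 h (Or.inl hOm)
  have hr : m2 * Q4 v v v v ≠ 0 := by rw [← hy2]; positivity
  have hEE := EE_b (a := ip l1 (u + t • z) (u + t • z)) (b := ip l2 v v)
    (p := m1 * Q4 (u + t • z) (u + t • z) (u + t • z) (u + t • z))
    (q := be * Q4 (u + t • z) (u + t • z) v v) hr hD.ne'
  have hEn : En l1 l2 m1 m2 be u v = (x + y) ^ 2 / 4 := by
    rw [Neh_En h.1, ha, hb']; ring
  have hb4 : ip l2 v v ^ 2 / (4 * (m2 * Q4 v v v v)) = (x + y) ^ 2 / 4 := by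
    rw [hb', ← hy2]; field_simp
  have hpos : 0 < (ip l2 v v * (be * Q4 (u + t • z) (u + t • z) v v) -
      ip l1 (u + t • z) (u + t • z) * (m2 * Q4 v v v v)) ^ 2 /
      (4 * (m2 * Q4 v v v v) * ((be * Q4 (u + t • z) (u + t • z) v v) ^ 2 -
      m1 * Q4 (u + t • z) (u + t • z) (u + t • z) (u + t • z) * (m2 * Q4 v v v v))) := by
    have h3 : 0 < ip l2 v v * (be * Q4 (u + t • z) (u + t • z) v v) -
      ip l1 (u + t • z) (u + t • z) * (m2 * Q4 v v v v) := sub_pos.2 hOm.2.1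
    have h4 : 0 < m2 * Q4 v v v v := by rw [← hy2]; positivity
    positivity
  unfold EEp at hmin
  rw [hEn] at hmin
  rw [hb4] at hEE
  linarith

private theorem nod_Neh_swap {l1 l2 m1 m2 be : ℝ} {u v : H1 N} (h : Neh l1 l2 m1 m2 be u v) :
    Neh l2 l1 m2 m1 be v u := by
  obtain ⟨a, b, c, d⟩ := h
  refine ⟨b, a, ?_, ?_⟩
  · rw [d, Q4_swapp u u v v]
  · rw [c, Q4_swapp u u v v]

private theorem nod_En_swap (l1 l2 m1 m2 be : ℝ) (u v : H1 N) :
    En l2 l1 m2 m1 be v u = En l1 l2 m1 m2 be u v := by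
  unfold En
  rw [Q4_swapp v v u u]
  ring

private theorem nod_IsMin_swap {l1 l2 m1 m2 be : ℝ} {u v : H1 N}
    (h : IsMin l1 l2 m1 m2 be u v) : IsMin l2 l1 m2 m1 be v u := by
  refine ⟨nod_Neh_swap h.1, fun u' v' h' => ?_⟩
  rw [nod_En_swap, ← nod_En_swap l2 l1]
  exact h.2 _ _ (nod_Neh_swap h')

/-- module nod. Step 2 (c). A ground state with zero discriminant.
Proof: `x = √p`, `y = √r`, `q = x y`, `a = x(x+y)`, `b = y(x+y)`. For `z` in `H1` let `k(z) = x β Q4 v v u z - y μ1 Q4 u u u z`.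
If `k(z) > 0` the pair `(u + t z, v)` has for small `t > 0` discriminant `4 t y k(z) + O(t²) > 0`,
`b q - a r = 2 t y k(z) + O(t²) > 0` and `a q - b p = 2 t (x+2y) k(z) + O(t²) > 0` (here `Sol` is used:
`ip l1 u z = μ1 Q4 u u u z + β Q4 v v u z`), so it is in `OmMp` and `EEp < b²/(4r) = En u v` (`EE_b`; `b²/(4r) = E` by
`Neh_ge`'s computation with `D = 0`), contradiction with `min_le`. Hence `k = 0` and by `Q4_fund`
`x β v² u = y μ1 u³` a.e.; by symmetry `y β u² v = x μ2 v³` a.e. So a.e. `u ≠ 0 ↔ v ≠ 0` and there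
`v² = k u²`, `k = y μ1/(x β)`, `1/k = x μ2/(y β)`: `β² = μ1 μ2`. Then `|v| = √k |u|`, `ip l2 v v = k ip l2 u u`
(`abs_H'`, `H1_ext`), i.e. `b = k a + k (l2 - l1) Y(u)`: `y (x+y)(1 - μ1/β) = k (l2 - l1) gY u u`. If `μ1 = β` then `l1 = l2`. And
`k l1 gY u u ≤ k a = y (x+y) μ1/β` gives the last claim. -/
theorem D_zero [Dim N] {l1 l2 m1 m2 be : ℝ} (h1 : 0 < l1) (h2 : 0 < l2) (hm1 : 0 < m1)
    (hm2 : 0 < m2) (hb : 0 < be) {u v : H1 N} (hs : Sol l1 l2 m1 m2 be u v)
    (h : IsMin l1 l2 m1 m2 be u v) (hD : Dl m1 m2 be u v = 0) :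
    be ^ 2 = m1 * m2 ∧ (m1 = be → l1 = l2) ∧ (m1 - be) * l1 ≤ |l2 - l1| * m1 := by
  have hP : 0 < Q4 u u u u := Q4_pos h.1.1
  have hR : 0 < Q4 v v v v := Q4_pos h.1.2.1
  set x : ℝ := Real.sqrt (m1 * Q4 u u u u) with hx
  set y : ℝ := Real.sqrt (m2 * Q4 v v v v) with hy
  have hxp : 0 < x := Real.sqrt_pos.2 (by positivity)
  have hyp : 0 < y := Real.sqrt_pos.2 (by positivity)
  have hx2 : x ^ 2 = m1 * Q4 u u u u := Real.sq_sqrt (by positivity)
  have hy2 : y ^ 2 = m2 * Q4 v v v v := Real.sq_sqrt (by positivity)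
  have hxy : x * y = be * Q4 u u v v := by
    have h3 : (x * y) ^ 2 = (be * Q4 u u v v) ^ 2 := by
      unfold Dl at hD
      rw [mul_pow, hx2, hy2]
      linarith
    have h4 : 0 ≤ be * Q4 u u v v := mul_nonneg hb.le (Q4_nonneg u v)
    exact (pow_left_inj₀ (by positivity) h4 (by norm_num)).1 h3
  have hle1 := nod_half h1 h2 hm1 hm2 hb hs.1 h hxp hyp hx2 hy2 hxy
  have hxy' : y * x = be * Q4 v v u u := by rw [mul_comm y x, hxy, Q4_swapp]
  have hle2 := nod_half h2 h1 hm2 hm1 hb hs.2 (nod_IsMin_swap h) hyp hxp hy2 hx2 hxy'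
  have eq1 : ∀ z : H1 N, (x * be) * Q4 v v u z = (y * m1) * Q4 u u u z := by
    intro z
    have a1 := hle1 z
    have a2 := hle1 (-z)
    rw [Q4_neg4, Q4_neg4] at a2
    linarith
  have eq2 : ∀ z : H1 N, (y * be) * Q4 u u v z = (x * m2) * Q4 v v v z := by
    intro z
    have a1 := hle2 z
    have a2 := hle2 (-z)
    rw [Q4_neg4, Q4_neg4] at a2
    linarith
  have f1 := Q4_fund _ _ _ _ _ _ _ _ eq1
  have f2 := Q4_fund _ _ _ _ _ _ _ _ eq2
  set k : ℝ := y * m1 / (x * be) with hk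
  have hkp : 0 < k := by positivity
  have hsq : ∀ᵐ s : E N, fn v s ^ 2 = k * fn u s ^ 2 := by
    filter_upwards [f1, f2] with s a b
    by_cases hu : fn u s = 0
    · rw [hu] at b ⊢
      have h3 : x * m2 * (fn v s * fn v s * fn v s) = 0 := by rw [← b]; ring
      have h4 := (mul_eq_zero.1 h3).resolve_left (by positivity)
      have h5 : fn v s = 0 := by
        rcases mul_eq_zero.1 h4 with h6 | h6
        · rcases mul_eq_zero.1 h6 with h7 | h7 <;> exact h7
        · exact h6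
      rw [h5]; ring
    · have h3 : fn u s * (x * be * fn v s ^ 2) = fn u s * (y * m1 * fn u s ^ 2) := by
        linear_combination a
      have h4 := mul_left_cancel₀ hu h3
      rw [hk]
      field_simp
      linear_combination h4
  have hbe : be ^ 2 = m1 * m2 := by
    by_contra hne
    refine h.1.1 (H1_ext ?_)
    filter_upwards [f2, hsq, fn_zero (N := N)] with s b c d
    rw [d]
    by_contra hu
    have hv : fn v s ≠ 0 := by
      intro h0
      rw [h0] at c
      have : 0 < k * fn u s ^ 2 := by positivity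
      rw [← c] at this
      norm_num at this
    have h3 : fn v s * (y * be * fn u s ^ 2) = fn v s * (x * m2 * fn v s ^ 2) := by
      linear_combination b
    have h4 := mul_left_cancel₀ hv h3
    rw [c, hk] at h4
    field_simp at h4
    exact hne (by rw [h4]; ring)
  have hip := noc_sq hkp.le hsq l2
  have hNh := h.1
  obtain ⟨-, -, n3, n4'⟩ := hNh
  have ha : ip l1 u u = x * (x + y) := by rw [n3, ← hx2, ← hxy]; ring
  have hb' : ip l2 v v = y * (x + y) := by rw [n4', ← hy2, ← hxy]; ring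
  have hu0 : u ≠ 0 := h.1.1
  have hY : 0 < gY u u := gY_pos hu0
  have e1 : ip l2 u u = ip l1 u u + (l2 - l1) * gY u u := by unfold ip; ring
  have hka : k * (x * (x + y)) * be = y * (x + y) * m1 := by rw [hk]; field_simp
  have hmain : y * (x + y) * (be - m1) = be * k * (l2 - l1) * gY u u := by
    rw [hb', e1, ha] at hip
    linear_combination be * hip + hka
  refine ⟨hbe, fun hm => ?_, ?_⟩
  · rw [hm, sub_self, mul_zero] at hmain
    have h3 : l2 - l1 = 0 := by
      have h4 : (be * k * gY u u) * (l2 - l1) = 0 := by linear_combination -hmain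
      exact (mul_eq_zero.1 h4).resolve_left (by positivity)
    linarith
  · have h3 : k * (l1 * gY u u) ≤ k * (x * (x + y)) := by
      refine mul_le_mul_of_nonneg_left ?_ hkp.le
      rw [← ha]
      exact gY_le_ip u
    have h4 : be * (k * (l1 * gY u u)) ≤ y * (x + y) * m1 := by
      calc be * (k * (l1 * gY u u)) ≤ be * (k * (x * (x + y))) := mul_le_mul_of_nonneg_left h3 hb.le
        _ = y * (x + y) * m1 := by rw [← hka]; ring
    have h5 : y * (x + y) * ((m1 - be) * l1) ≤ y * (x + y) * (|l2 - l1| * m1) := by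
      have h6 : y * (x + y) * ((m1 - be) * l1) = (l1 - l2) * (be * (k * (l1 * gY u u))) := by
        linear_combination (-l1) * hmain
      have h7 : (l1 - l2) * (be * (k * (l1 * gY u u))) ≤ |l2 - l1| * (be * (k * (l1 * gY u u))) := by
        refine mul_le_mul_of_nonneg_right ?_ (by positivity)
        rw [abs_sub_comm]
        exact le_abs_self _
      have h8 : |l2 - l1| * (be * (k * (l1 * gY u u))) ≤ |l2 - l1| * (y * (x + y) * m1) :=
        mul_le_mul_of_nonneg_left h4 (abs_nonneg _)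
      rw [h6]
      refine h7.trans (h8.trans (le_of_eq ?_))
      ring
    exact le_of_mul_le_mul_left h5 (by positivity)

private theorem noe_IsMin [Dim N] {l1 l2 m1 m2 be : ℝ} {u v u' v' : H1 N}
    (h : IsMin l1 l2 m1 m2 be u v) (ha : ip l1 u' u' = ip l1 u u) (hb : ip l2 v' v' = ip l2 v v)
    (hp : Q4 u' u' u' u' = Q4 u u u u) (hr : Q4 v' v' v' v' = Q4 v v v v)
    (hq : Q4 u' u' v' v' = Q4 u u v v) : IsMin l1 l2 m1 m2 be u' v' := by
  have hne : ∀ z z' : H1 N, z ≠ 0 → Q4 z' z' z' z' = Q4 z z z z → z' ≠ 0 := by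
    intro z z' hz he h0
    have := Q4_pos hz
    rw [← he, h0, Q4_zero1] at this
    exact lt_irrefl _ this
  obtain ⟨⟨n1, n2, n3, n4'⟩, hm⟩ := h
  refine ⟨⟨hne _ _ n1 hp, hne _ _ n2 hr, by rw [ha, hp, hq, n3], by rw [hb, hr, hq, n4']⟩, ?_⟩
  intro u'' v'' h''
  have e : En l1 l2 m1 m2 be u' v' = En l1 l2 m1 m2 be u v := by
    unfold En; rw [ha, hb, hp, hr, hq]
  rw [e]
  exact hm _ _ h''

private theorem noe_n4 [Dim N] {a : ℕ → H1 N} {U : H1 N} (h : WC a U)
    (h2 : Tendsto (fun n => gY (a n - U) (a n - U)) atTop (𝓝 0)) :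
    Tendsto (fun n => n4 (a n - U)) atTop (𝓝 0) := by
  obtain ⟨C, hC, hgn⟩ := n4_gn (N := N)
  obtain ⟨M, hM⟩ := WC_bdd h
  have hM' : ∀ n, ‖a n - U‖ ≤ M + ‖U‖ := fun n => (norm_sub_le _ _).trans (by linarith [hM n])
  have hb : ∀ n, n4 (a n - U) ^ 8 ≤ C * gY (a n - U) (a n - U) * (M + ‖U‖) ^ 6 := by
    intro n
    refine (hgn _).trans ?_
    refine mul_le_mul_of_nonneg_left (pow_le_pow_left₀ (norm_nonneg _) (hM' n) 6) ?_
    exact mul_nonneg hC.le (gY_nonneg _)
  have hl : Tendsto (fun n => C * gY (a n - U) (a n - U) * (M + ‖U‖) ^ 6) atTop (𝓝 0) := by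
    have := (h2.const_mul C).mul_const ((M + ‖U‖) ^ 6)
    simpa using this
  have h8 : Tendsto (fun n => n4 (a n - U) ^ 8) atTop (𝓝 0) :=
    squeeze_zero (fun n => pow_nonneg (n4_nonneg _) 8) hb hl
  rw [tendsto_order]
  refine ⟨fun c hc => Eventually.of_forall fun n => lt_of_lt_of_le hc (n4_nonneg _), fun c hc => ?_⟩
  filter_upwards [h8.eventually (gt_mem_nhds (pow_pos hc 8))] with n hn
  exact lt_of_pow_lt_pow_left₀ 8 hc.le hn

/-- module noe. Step 3. A minimiser with positive discriminant yields one with radially nonincreasing components.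
Proof. `(|u|,|v|)` (`abs_H'`) is again in the Nehari type set with the same energy and discriminant. Let
`S(u',v')` be: nonnegative, `IsMin`, same `gX, gY, Q4` data as `(|u|,|v|)`, in particular the same `Q4 u' u' v' v'`. If `(u',v')` has
`S` and `(u'',v'')` is a simultaneous polarisation, then `a, b, p, r` agree and `Q'' ≥ Q'` (`pol_Q`); if `Q'' > Q'`, `EE_q` gives a pair
in `OmMp` with smaller `EEp`, contradiction with `min_le`. So `Q'' = Q'` and `S(u'',v'')`. By induction the whole orbit has `S`, hence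
consists of weak solutions (`IsMin_sol`). `orb_RD`: a sequence `(a n, b n)` in the orbit converges in `L²` and weakly to
`(U,V)`, `RD U`, `RD V`; bounded in `H1`, so it converges in `L⁴` (`n4_gn`); `ip l1 (a n - a m) (a n - a m)` is by the equations
`≤ C n4 (a n - a m) + ...`, so it converges in `H1` (or: `ip l1 (a n) (a n) = μ1 P + β Q → ip l1 U U` because the weak limit
satisfies the equation, then `WC_strong`). So `(U,V)` has the same data and energy. -/
theorem radialise [Dim N] {l1 l2 m1 m2 be : ℝ} (h1 : 0 < l1) (h2 : 0 < l2) (hm1 : 0 < m1)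
    (hm2 : 0 < m2) (hb : 0 < be) {u v : H1 N} (h : IsMin l1 l2 m1 m2 be u v)
    (hD : 0 < Dl m1 m2 be u v) :
    ∃ U V : H1 N, RD U ∧ RD V ∧ Sol l1 l2 m1 m2 be U V ∧ IsMin l1 l2 m1 m2 be U V ∧
      0 < Dl m1 m2 be U V := by
  obtain ⟨u0, u1, u2, u3⟩ := abs_H' u
  obtain ⟨v0, v1, v2, v3⟩ := abs_H' v
  have su : ∀ᵐ x, fn u0 x ^ 2 = fn u x ^ 2 := by
    filter_upwards [u1] with x a; rw [a, sq_abs]
  have sv : ∀ᵐ x, fn v0 x ^ 2 = fn v x ^ 2 := by
    filter_upwards [v1] with x a; rw [a, sq_abs]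
  have nu : ∀ᵐ x : E N, 0 ≤ fn u0 x := by
    filter_upwards [u1] with x a; rw [a]; exact abs_nonneg _
  have nv : ∀ᵐ x : E N, 0 ≤ fn v0 x := by
    filter_upwards [v1] with x a; rw [a]; exact abs_nonneg _
  have hp0 : Q4 u0 u0 u0 u0 = Q4 u u u u := by
    rw [Q4_congr_sq su, Q4_swapp u u, Q4_congr_sq su]
  have hr0 : Q4 v0 v0 v0 v0 = Q4 v v v v := by
    rw [Q4_congr_sq sv, Q4_swapp v v, Q4_congr_sq sv]
  have hq0 : Q4 u0 u0 v0 v0 = Q4 u u v v := by
    rw [Q4_congr_sq su, Q4_swapp u u, Q4_congr_sq sv, Q4_swapp]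
  have hP : 0 < Q4 u u u u := Q4_pos h.1.1
  have hR : 0 < Q4 v v v v := Q4_pos h.1.2.1
  have ha : 0 < ip l1 u u := ip_pos h1 h.1.1
  have hb' : 0 < ip l2 v v := ip_pos h2 h.1.2.1
  have hQ : 0 < Q4 u u v v := by
    refine lt_of_le_of_ne (Q4_nonneg u v) fun h0 => ?_
    unfold Dl at hD
    rw [← h0] at hD
    have : 0 < m1 * Q4 u u u u * (m2 * Q4 v v v v) := by positivity
    nlinarith
  obtain ⟨k1, k2, k3⟩ := Neh_Om h.1
  have hOm : OmMp l1 l2 m1 m2 be u v := k1 hD
  -- the orbit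
  have horb : ∀ a b : H1 N, Orb u0 v0 a b → ip l1 a a = ip l1 u u ∧ ip l2 b b = ip l2 v v ∧
      Q4 a a a a = Q4 u u u u ∧ Q4 b b b b = Q4 v v v v ∧ Q4 a a b b = Q4 u u v v := by
    intro a b hab
    obtain ⟨-, e1, e2, e3, e4, e5, e6, e7, -⟩ := Orb_inv nu nv hab
    have f1 : ip l1 a a = ip l1 u u := by unfold ip; rw [e1, e3, u2, u3]
    have f2 : ip l2 b b = ip l2 v v := by unfold ip; rw [e2, e4, v2, v3]
    rw [hp0] at e5
    rw [hr0] at e6
    rw [hq0] at e7
    refine ⟨f1, f2, e5, e6, ?_⟩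
    by_contra hne
    have hlt : be * Q4 u u v v < be * Q4 a a b b :=
      mul_lt_mul_of_pos_left (lt_of_le_of_ne e7 (Ne.symm hne)) hb
    obtain ⟨g1, g2⟩ := EE_q (mul_pos hm1 hP) (mul_pos hm2 hR) ha hb' (mul_pos hb hQ) hOm hlt
    have hOm' : OmMp l1 l2 m1 m2 be a b := by
      unfold OmMp; rw [f1, f2, e5, e6]; exact g1
    have hmin := min_le h1 h2 hm1 hm2 h (Or.inl hOm')
    have hE := k3 hD.ne'
    unfold EEp at hmin hE
    rw [f1, f2, e5, e6] at hmin
    linarith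
  obtain ⟨a, b, U, V, o1, o2, o3, o4, o5, o6, o7⟩ := orb_RD nu nv
  have n4a := noe_n4 o4 o6
  have n4b := noe_n4 o5 o7
  have n4c : ∀ z : H1 N, Tendsto (fun _ : ℕ => n4 (z - z)) atTop (𝓝 0) := by
    intro z
    rw [sub_self]
    have : n4 (0 : H1 N) = 0 := by
      have := n4_smul (0 : ℝ) (0 : H1 N)
      simpa using this
    rw [this]
    exact tendsto_const_nhds
  have hPU : Q4 U U U U = Q4 u u u u := by
    have := Q4_tendsto a a a a U U U U n4a n4a n4a n4a
    exact tendsto_nhds_unique this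
      (tendsto_const_nhds.congr fun n => (horb _ _ (o1 n)).2.2.1.symm)
  have hRV : Q4 V V V V = Q4 v v v v := by
    have := Q4_tendsto b b b b V V V V n4b n4b n4b n4b
    exact tendsto_nhds_unique this
      (tendsto_const_nhds.congr fun n => (horb _ _ (o1 n)).2.2.2.1.symm)
  have hQU : Q4 U U V V = Q4 u u v v := by
    have := Q4_tendsto a a b b U U V V n4a n4a n4b n4b
    exact tendsto_nhds_unique this
      (tendsto_const_nhds.congr fun n => (horb _ _ (o1 n)).2.2.2.2.symm)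
  have hsol : ∀ n, Sol l1 l2 m1 m2 be (a n) (b n) := by
    intro n
    obtain ⟨f1, f2, f3, f4, f5⟩ := horb _ _ (o1 n)
    refine IsMin_sol h1 h2 hm1 hm2 (noe_IsMin h f1 f2 f3 f4 f5) ?_
    unfold Dl at hD ⊢
    rw [f3, f4, f5]
    exact hD.ne'
  have hSol : Sol l1 l2 m1 m2 be U V := by
    constructor
    · intro z
      have c1 := WC_ip o4 l1 z
      have c2 := ((Q4_tendsto a a a (fun _ => z) U U U z n4a n4a n4a (n4c z)).const_mul m1).add
        ((Q4_tendsto b b a (fun _ => z) V V U z n4b n4b n4a (n4c z)).const_mul be)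
      exact tendsto_nhds_unique c1 (c2.congr fun n => ((hsol n).1 z).symm)
    · intro z
      have c1 := WC_ip o5 l2 z
      have c2 := ((Q4_tendsto b b b (fun _ => z) V V V z n4b n4b n4b (n4c z)).const_mul m2).add
        ((Q4_tendsto a a b (fun _ => z) U U V z n4a n4a n4b (n4c z)).const_mul be)
      exact tendsto_nhds_unique c1 (c2.congr fun n => ((hsol n).2 z).symm)
  have hN := h.1
  obtain ⟨-, -, n3, n4'⟩ := hN
  have hipU : ip l1 U U = ip l1 u u := by
    rw [hSol.1 U, Q4_swapp V V U U, hPU, hQU, n3]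
  have hipV : ip l2 V V = ip l2 v v := by
    rw [hSol.2 V, hRV, hQU, n4']
  refine ⟨U, V, o2, o3, hSol, noe_IsMin h hipU hipV hPU hRV hQU, ?_⟩
  unfold Dl at hD ⊢
  rw [hPU, hRV, hQU]
  exact hD

private theorem nof_Q [Dim N] {u s w : H1 N}
    (h : fn w =ᵐ[volume] fun x => Real.sqrt (fn u x ^ 2 + fn s x ^ 2)) (y z : H1 N) :
    Q4 w w y z = Q4 u u y z + Q4 s s y z := by
  have i1 := Q4_integrable u u y z
  have i2 := Q4_integrable s s y z
  unfold Q4
  rw [← integral_add i1 i2]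
  refine integral_congr_ae ?_
  filter_upwards [h] with x a
  have e : fn w x * fn w x = fn u x ^ 2 + fn s x ^ 2 := by
    rw [a, Real.mul_self_sqrt (by positivity)]
  rw [e]
  ring

/-- module nof. Step 4, inequality (II).
Proof: for `t > 0` let `w t` be `sqrt_H` of `(u, √t v)`: `fn (w t) = √(u² + t v²)`; `|fn (w t) - fn u| ≤ √t |fn v|` (`u ≥ 0`), so
`w t → u` in `L²`; it is bounded in `H1`, so weakly (`WC_of_L2`), and `liminf ip l1 (w t) (w t) ≥ ip l1 u u` (`WC_lsc`) while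
`ip l1 (w t) (w t) ≤ a + t ip l1 v v`: `a_t → a`. `p_t = μ1(P + 2tQ + t²R)`, `q_t = β(Q + t R)`, `b, r` fixed. For small `t` the pair
`(w t, v)` is in `OmMp` (an open condition), and so are the numbers `(a + t ip l1 v v, b, p_t, q_t, r)`; by `EE_mono_a` and
`min_le`: `g(t) := EEn (a + t ip l1 v v) b p_t q_t r ≥ En u v = g(0)` for small `t > 0`, so
`0 ≤ g'(0) = (1/2) ip l1 v v - (1/4) 2 μ1 Q - (1/2) β R`. -/
theorem ineqII [Dim N] {l1 l2 m1 m2 be : ℝ} (h1 : 0 < l1) (h2 : 0 < l2) (hm1 : 0 < m1)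
    (hm2 : 0 < m2) (hb : 0 < be) {u v : H1 N} (h : IsMin l1 l2 m1 m2 be u v)
    (hD : 0 < Dl m1 m2 be u v) (hu : ∀ᵐ x : E N, 0 ≤ fn u x) :
    m1 * Q4 u u v v + be * Q4 v v v v ≤ ip l1 v v := by
  by_contra hc
  push Not at hc
  have hP : 0 < Q4 u u u u := Q4_pos h.1.1
  have hR : 0 < Q4 v v v v := Q4_pos h.1.2.1
  obtain ⟨k1, k2, k3⟩ := Neh_Om h.1
  have hEn := k3 hD.ne'
  have hN := h.1
  obtain ⟨-, -, n3, n4'⟩ := hN
  set a := ip l1 u u with ha
  set b := ip l2 v v with hb'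
  set P := Q4 u u u u with hPd
  set Q := Q4 u u v v with hQd
  set R := Q4 v v v v with hRd
  set A := ip l1 v v with hA
  -- the sequence
  set t : ℕ → ℝ := fun n => 1 / ((n : ℝ) + 1) with ht
  have tp : ∀ n, 0 < t n := fun n => by rw [ht]; positivity
  have t1 : ∀ n, t n ≤ 1 := fun n => by
    rw [ht]
    simp only
    rw [div_le_one (by positivity)]
    have : (0 : ℝ) ≤ (n : ℝ) := Nat.cast_nonneg n
    linarith
  have lt0 : Tendsto t atTop (𝓝 0) := tendsto_one_div_add_atTop_nhds_zero_nat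
  have lt0' : Tendsto t atTop (𝓝[>] 0) :=
    tendsto_nhdsWithin_iff.2 ⟨lt0, Eventually.of_forall fun n => tp n⟩
  choose w w1 w2 w3 using fun n => sqrt_H u (Real.sqrt (t n) • v)
  have hss : ∀ n, Real.sqrt (t n) * Real.sqrt (t n) = t n := fun n => Real.mul_self_sqrt (tp n).le
  have w2' : ∀ n, gX (w n) (w n) ≤ gX u u + t n * gX v v := by
    intro n
    have := w2 n
    rw [gX_smul_left, gX_smul_right, ← mul_assoc, hss] at this
    exact this
  have w3' : ∀ n, gY (w n) (w n) = gY u u + t n * gY v v := by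
    intro n
    rw [w3 n, gY_smul_left, gY_smul_right, ← mul_assoc, hss]
  have hup : ∀ n, ip l1 (w n) (w n) ≤ a + t n * A := by
    intro n
    have e : a + t n * A = (gX u u + t n * gX v v) + l1 * (gY u u + t n * gY v v) := by
      rw [ha, hA]; unfold ip; ring
    rw [e, ← w3' n]
    unfold ip
    linarith [w2' n]
  have hQw : ∀ n, Q4 (w n) (w n) v v = Q + t n * R := by
    intro n
    rw [nof_Q (w1 n), Q4_smul1, Q4_smul2, ← mul_assoc, hss]
  have hPw : ∀ n, Q4 (w n) (w n) (w n) (w n) = P + 2 * t n * Q + t n ^ 2 * R := by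
    intro n
    rw [nof_Q (w1 n), Q4_swapp u u, Q4_swapp _ _ (w n) (w n), nof_Q (w1 n), nof_Q (w1 n)]
    simp only [Q4_smul1, Q4_smul2, Q4_smul3, Q4_smul4]
    rw [Q4_swapp v v u u]
    have := hss n
    linear_combination (2 * Q + (t n + Real.sqrt (t n) * Real.sqrt (t n)) * R) * this
  -- weak convergence
  have hM : ∀ n, ‖w n‖ ≤ ‖u‖ + ‖v‖ := by
    intro n
    have e1 : ‖w n‖ ^ 2 ≤ (‖u‖ + ‖v‖) ^ 2 := by
      have f1 := norm_sq_eq (w n)
      have f2 := norm_sq_eq u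
      have f3 := norm_sq_eq v
      unfold ip at f1 f2 f3
      have g1 := w2' n
      have g2 := w3' n
      have g3 := gX_nonneg v
      have g4 := gY_nonneg v
      have g5 : t n * gX v v ≤ gX v v := by nlinarith [t1 n]
      have g6 : t n * gY v v ≤ gY v v := by nlinarith [t1 n]
      nlinarith [norm_nonneg u, norm_nonneg v, mul_nonneg (norm_nonneg u) (norm_nonneg v)]
    exact (pow_le_pow_iff_left₀ (norm_nonneg _) (by positivity) (by norm_num)).1 e1
  have hL2 : Tendsto (fun n => ∫ x, (fn (w n) x - fn u x) ^ 2) atTop (𝓝 0) := by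
    have hl : Tendsto (fun n => t n * gY v v) atTop (𝓝 0) := by
      simpa using lt0.mul_const (gY v v)
    refine squeeze_zero (fun n => integral_nonneg fun x => sq_nonneg _) (fun n => ?_) hl
    unfold gY
    rw [← integral_const_mul]
    refine integral_mono_of_nonneg (Eventually.of_forall fun x => sq_nonneg _)
      (((fn_memLp v).integrable_mul (fn_memLp v)).const_mul _) ?_
    filter_upwards [w1 n, fn_smul (Real.sqrt (t n)) v, hu] with x e1 e2 e3
    rw [e1, e2]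
    have hs := hss n
    have h3 : 0 ≤ Real.sqrt (fn u x ^ 2 + (Real.sqrt (t n) * fn v x) ^ 2) - fn u x := by
      rw [sub_nonneg]
      exact Real.le_sqrt_of_sq_le (by nlinarith [sq_nonneg (Real.sqrt (t n) * fn v x)])
    have h4 : Real.sqrt (fn u x ^ 2 + (Real.sqrt (t n) * fn v x) ^ 2) ^ 2 =
        fn u x ^ 2 + (Real.sqrt (t n) * fn v x) ^ 2 := Real.sq_sqrt (by positivity)
    have h5 : (Real.sqrt (t n) * fn v x) ^ 2 = t n * (fn v x * fn v x) := by
      rw [mul_pow, sq, hs]; ring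
    nlinarith [mul_nonneg e3 h3]
  obtain ⟨w', hw', hWC⟩ := WC_of_L2 w _ hM (fn u) (fn_memLp u) hL2
  have hwu : w' = u := H1_ext hw'
  rw [hwu] at hWC
  have hlow : ∀ c, c < a → ∀ᶠ n in atTop, c < ip l1 (w n) (w n) := by
    intro c hca
    by_contra hne
    rw [not_eventually] at hne
    obtain ⟨f, hf, hf2⟩ := extraction_of_frequently_atTop hne
    have := WC_lsc (WC_comp hWC hf) h1.le (c := fun _ => c) (c0 := c) tendsto_const_nhds
      (Eventually.of_forall fun n => not_lt.1 (hf2 n))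
    linarith
  have hlim : Tendsto (fun n => ip l1 (w n) (w n)) atTop (𝓝 a) := by
    rw [tendsto_order]
    refine ⟨hlow, fun c hca => ?_⟩
    have hl : Tendsto (fun n => a + t n * A) atTop (𝓝 a) := by
      simpa using (lt0.mul_const A).const_add a
    filter_upwards [hl.eventually (gt_mem_nhds hca)] with n hn
    exact lt_of_le_of_lt (hup n) hn
  -- the perturbed data
  set D : ℝ := (be * Q) ^ 2 - m1 * P * (m2 * R) with hDd
  have hDp : 0 < D := hD
  have cpt : Tendsto (fun n => m1 * (P + 2 * t n * Q + t n ^ 2 * R)) atTop (𝓝 (m1 * P)) := by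
    have c : Continuous fun s : ℝ => m1 * (P + 2 * s * Q + s ^ 2 * R) := by fun_prop
    have h0 : Tendsto (fun s : ℝ => m1 * (P + 2 * s * Q + s ^ 2 * R)) (𝓝 0) (𝓝 (m1 * P)) := by
      simpa using c.tendsto 0
    exact h0.comp lt0
  have cqt : Tendsto (fun n => be * (Q + t n * R)) atTop (𝓝 (be * Q)) := by
    have c : Continuous fun s : ℝ => be * (Q + s * R) := by fun_prop
    have h0 : Tendsto (fun s : ℝ => be * (Q + s * R)) (𝓝 0) (𝓝 (be * Q)) := by
      simpa using c.tendsto 0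
    exact h0.comp lt0
  have cat : Tendsto (fun n => a + t n * A) atTop (𝓝 a) := by
    simpa using (lt0.mul_const A).const_add a
  have hr : 0 < m2 * R := mul_pos hm2 hR
  obtain ⟨-, q1, q2⟩ := k1 hD
  have OmEv : ∀ s : ℕ → ℝ, Tendsto s atTop (𝓝 a) → ∀ᶠ n in atTop,
      OmM (s n) b (m1 * (P + 2 * t n * Q + t n ^ 2 * R)) (be * (Q + t n * R)) (m2 * R) := by
    intro s hs
    have c1 := (cqt.pow 2).sub (cpt.mul_const (m2 * R))
    have c2 := (cqt.const_mul b).sub (hs.mul_const (m2 * R))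
    have c3 := (hs.mul cqt).sub (cpt.const_mul b)
    filter_upwards [c1.eventually (lt_mem_nhds hDp), c2.eventually (lt_mem_nhds (sub_pos.2 q1)),
      c3.eventually (lt_mem_nhds (sub_pos.2 q2))] with n d1 d2 d3
    exact ⟨d1, sub_pos.1 d2, sub_pos.1 d3⟩
  -- strict inequality for the explicit data
  set al : ℝ := b * (be * R) - A * (m2 * R) with hal
  set bt : ℝ := 2 * (be * Q) * (be * R) - 2 * (m1 * Q) * (m2 * R) with hbt
  set ga : ℝ := (be * R) ^ 2 - m1 * R * (m2 * R) with hga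
  have hcpos : 0 < D * (2 * al - bt) := by
    have e : 2 * al - bt = 2 * (m2 * R) * (m1 * Q + be * R - A) := by
      rw [hal, hbt, n4']
      ring
    rw [e]
    have : 0 < m1 * Q + be * R - A := by linarith
    positivity
  have ev := lt0'.eventually (nod_pos hcpos (F := fun _ => al ^ 2 - ga * D) continuousAt_const)
  obtain ⟨n, g1, g2, g3⟩ := (ev.and ((OmEv _ hlim).and (OmEv _ cat))).exists
  have hOm : OmMp l1 l2 m1 m2 be (w n) v := by
    unfold OmMp
    rw [hPw, hQw]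
    exact g2
  have hmin := min_le h1 h2 hm1 hm2 h (Or.inl hOm)
  unfold EEp at hmin hEn
  rw [hPw, hQw] at hmin
  have hmono := EE_mono_a hr g2 g3 (hup n)
  have hE1 := EE_b (a := a + t n * A) (b := b) hr.ne' g3.1.ne'
  have hE0 := EE_b (a := a) (b := b) (p := m1 * P) (q := be * Q) hr.ne' hDp.ne'
  -- numerators
  have num0 : b * (be * Q) - a * (m2 * R) = D := by
    rw [n3, n4', hDd]; ring
  have num1 : b * (be * (Q + t n * R)) - (a + t n * A) * (m2 * R) = D + t n * al := by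
    rw [hal]
    linear_combination num0
  have den1 : (be * (Q + t n * R)) ^ 2 - m1 * (P + 2 * t n * Q + t n ^ 2 * R) * (m2 * R) =
      D + t n * bt + t n ^ 2 * ga := by
    rw [hDd, hbt, hga]; ring
  have hden1 : 0 < D + t n * bt + t n ^ 2 * ga := by rw [← den1]; exact g3.1
  rw [num1, den1] at hE1
  rw [num0] at hE0
  have hE0' : D ^ 2 / (4 * (m2 * R) * ((be * Q) ^ 2 - m1 * P * (m2 * R))) = D / (4 * (m2 * R)) := by
    change D ^ 2 / (4 * (m2 * R) * D) = D / (4 * (m2 * R))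
    field_simp
  have hlt : D / (4 * (m2 * R)) < (D + t n * al) ^ 2 / (4 * (m2 * R) * (D + t n * bt + t n ^ 2 * ga)) := by
    rw [div_lt_div_iff₀ (by positivity) (by positivity)]
    have e : D * (D + t n * bt + t n ^ 2 * ga) < (D + t n * al) ^ 2 := by
      have : (D + t n * al) ^ 2 - D * (D + t n * bt + t n ^ 2 * ga) =
          t n * (D * (2 * al - bt) + t n * (al ^ 2 - ga * D)) := by ring
      rw [← sub_pos, this]
      exact g1
    calc D * (4 * (m2 * R) * (D + t n * bt + t n ^ 2 * ga))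
        = (4 * (m2 * R)) * (D * (D + t n * bt + t n ^ 2 * ga)) := by ring
      _ < (4 * (m2 * R)) * ((D + t n * al) ^ 2) := mul_lt_mul_of_pos_left e (by positivity)
      _ = (D + t n * al) ^ 2 * (4 * (m2 * R)) := by ring
  rw [hE0'] at hE0
  linarith

/-- Steps 1 - 4 together: a ground state with `β² ≥ μ1 μ2` and level at most `K2` gives a radially nonincreasing one with
positive discriminant and (II), unless the discriminant is zero. -/
theorem good_GS [Dim N] {l1 l2 m1 m2 be : ℝ} (h1 : 0 < l1) (h2 : 0 < l2) (hm1 : 0 < m1)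
    (hm2 : 0 < m2) (hb : 0 < be) (hb2 : m1 * m2 ≤ be ^ 2) {w : H1 N} (hw : GNo l2 m2 w)
    (hq : ip l1 w w < be * Q4 w w w w) (hz : m1 = be → l1 ≠ l2)
    (hz' : m1 * m2 = be ^ 2 → m1 ≠ be → |l2 - l1| * m1 < (m1 - be) * l1)
    (h : HasGS N l1 l2 m1 m2 be) :
    ∃ U V : H1 N, RD U ∧ RD V ∧ Sol l1 l2 m1 m2 be U V ∧ IsMin l1 l2 m1 m2 be U V ∧
      0 < Dl m1 m2 be U V ∧ m1 * Q4 U U V V + be * Q4 V V V V ≤ ip l1 V V ∧
      En l1 l2 m1 m2 be U V ≤ S2 N l2 / (4 * m2) := by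
  obtain ⟨u, v, h3, h4⟩ := (HasGS_iff h1 h2).1 h
  have h5 := level_large h1 h2 hm1 hm2 hb hw hq hb2 h4
  have h6 := (Neh_ge h1 h2 hm1 hm2 h4.1).1
  have h8 : 0 < 4 * (m2 * Q4 v v v v) := by
    have := Q4_pos h4.1.2.1
    positivity
  have h7 : 0 ≤ Dl m1 m2 be u v := by
    by_contra hc
    push Not at hc
    have h9 := div_neg_of_neg_of_pos hc h8
    linarith
  rcases h7.lt_or_eq with h9 | h9
  · obtain ⟨U, V, k1, k2, k3, k4, k5⟩ := radialise h1 h2 hm1 hm2 hb h4 h9
    exact ⟨U, V, k1, k2, k3, k4, k5, ineqII h1 h2 hm1 hm2 hb k4 k5 k1.1,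
      level_large h1 h2 hm1 hm2 hb hw hq hb2 k4⟩
  · obtain ⟨k1, k2, k3⟩ := D_zero h1 h2 hm1 hm2 hb h3 h4 h9.symm
    by_cases hmb : m1 = be
    · exact absurd (k2 hmb) (hz hmb)
    · exact absurd k3 (not_le.2 (hz' k1.symm hmb))

end Sir
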