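import Pool.Agent.Sir.RD
/-!
# Polarisation
modules: pla, plb, plc, pld
-/

namespace Sir

open MeasureTheory Filter Topology

variable {N : ℕ}

/-- reflection in the hyperplane `⟨x,e⟩ = c` (for a unit vector `e`) -/
noncomputable def refl (e : E N) (c : ℝ) (x : E N) : E N := x - (2 * (inner ℝ x e - c)) • e

/-- polarisation of the function `f` with respect to the half space `⟨x,e⟩ < c` -/
noncomputable def polf (e : E N) (c : ℝ) (f : E N → ℝ) (x : E N) : ℝ :=
  if inner ℝ x e < c then max (f x) (f (refl e c x)) else min (f x) (f (refl e c x))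

/-- `u'` is the polarisation of `u` -/
def IsPol (e : E N) (c : ℝ) (u u' : H1 N) : Prop := fn u' =ᵐ[volume] polf e c (fn u)

private theorem pla_side (e : E N) (he : ‖e‖ = 1) (c : ℝ) (x : E N) :
    inner ℝ (refl e c x) e - c = -(inner ℝ x e - c) := by
  unfold refl
  rw [inner_sub_left, real_inner_smul_left, real_inner_self_eq_norm_sq, he]
  ring

private theorem pla_invol (e : E N) (he : ‖e‖ = 1) (c : ℝ) (x : E N) :
    refl e c (refl e c x) = x := by
  have h := pla_side e he c x
  have h1 : refl e c (refl e c x) = refl e c x - (2 * (inner ℝ (refl e c x) e - c)) • e := rfl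
  rw [h1, h]
  unfold refl
  rw [sub_sub, ← add_smul]
  have : 2 * (inner ℝ x e - c) + 2 * -(inner ℝ x e - c) = 0 := by ring
  rw [this]
  simp

/-- module pla. `refl e c` is (the map of) an affine isometry, an involution. -/
theorem refl_aff (e : E N) (he : ‖e‖ = 1) (c : ℝ) :
    ∃ g : E N ≃ᵃⁱ[ℝ] E N, (∀ x, g x = refl e c x) ∧ ∀ x, refl e c (refl e c x) = x := by
  refine ⟨((ℝ ∙ e)ᗮ.reflection).toAffineIsometryEquiv.trans
    (AffineIsometryEquiv.constVAdd ℝ (E N) ((2 * c) • e)), fun x => ?_, pla_invol e he c⟩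
  simp only [AffineIsometryEquiv.coe_trans, Function.comp_apply, AffineIsometryEquiv.coe_constVAdd,
    LinearIsometryEquiv.coe_toAffineIsometryEquiv, vadd_eq_add]
  rw [Submodule.reflection_orthogonal_apply, Submodule.reflection_singleton_apply]
  unfold refl
  rw [he, real_inner_comm]
  simp only [RCLike.ofReal_real_eq_id, id]
  module

/-- module pla. The side changes under the reflection. -/
theorem refl_side (e : E N) (he : ‖e‖ = 1) (c : ℝ) (x : E N) :
    inner ℝ (refl e c x) e - c = -(inner ℝ x e - c) := pla_side e he c x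

/-- module pla. `|σx|² - |x|² = 4 c (c - ⟨x,e⟩)` -/
theorem refl_norm (e : E N) (he : ‖e‖ = 1) (c : ℝ) (x : E N) :
    ‖refl e c x‖ ^ 2 = ‖x‖ ^ 2 + 4 * c * (c - inner ℝ x e) := by
  unfold refl
  rw [norm_sub_sq_real, real_inner_smul_right, norm_smul, he, Real.norm_eq_abs, mul_one, sq_abs]
  ring

private theorem pla_mp (e : E N) (he : ‖e‖ = 1) (c : ℝ) :
    MeasurePreserving (refl e c) (volume : Measure (E N)) volume := by
  have h1 : MeasurePreserving ((ℝ ∙ e)ᗮ.reflection : E N → E N) volume volume :=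
    ((ℝ ∙ e)ᗮ.reflection).measurePreserving
  have h2 : MeasurePreserving (fun x : E N => (2 * c) • e + x) volume volume :=
    measurePreserving_add_left volume _
  have h3 := h2.comp h1
  convert h3 using 1
  ext1 x
  simp only [Function.comp_apply]
  rw [Submodule.reflection_orthogonal_apply, Submodule.reflection_singleton_apply]
  unfold refl
  rw [he, real_inner_comm]
  simp only [RCLike.ofReal_real_eq_id, id]
  module

private theorem pla_ae (e : E N) (he : ‖e‖ = 1) (c : ℝ) {p : E N → Prop}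
    (h : ∀ᵐ x : E N, p x) : ∀ᵐ x : E N, p (refl e c x) :=
  (pla_mp e he c).quasiMeasurePreserving.ae h

private theorem pla_int (e : E N) (he : ‖e‖ = 1) (c : ℝ) (F : E N → ℝ) :
    ∫ x, F (refl e c x) = ∫ x, F x := by
  obtain ⟨g, h1, _⟩ := refl_aff e he c
  have h2 : MeasurableEmbedding (refl e c) := by
    have : (refl e c) = (g.toHomeomorph : E N → E N) := by
      ext1 x
      exact (h1 x).symm
    rw [this]
    exact g.toHomeomorph.measurableEmbedding
  exact (pla_mp e he c).integral_comp h2 F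

private theorem pla_intble (e : E N) (he : ‖e‖ = 1) (c : ℝ) {F : E N → ℝ}
    (hF : Integrable F (volume : Measure (E N))) : Integrable (fun x => F (refl e c x)) :=
  (pla_mp e he c).integrable_comp_of_integrable hF

private theorem pla_int_le (e : E N) (he : ‖e‖ = 1) (c : ℝ) {F G : E N → ℝ}
    (hF : Integrable F (volume : Measure (E N))) (hG : Integrable G (volume : Measure (E N)))
    (h : ∀ᵐ x : E N, F x + F (refl e c x) ≤ G x + G (refl e c x)) :
    ∫ x, F x ≤ ∫ x, G x := by
  have h1 : ∫ x, (F x + F (refl e c x)) ≤ ∫ x, (G x + G (refl e c x)) :=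
    integral_mono_ae (hF.add (pla_intble e he c hF)) (hG.add (pla_intble e he c hG)) h
  rw [integral_add hF (pla_intble e he c hF), integral_add hG (pla_intble e he c hG),
    pla_int e he c, pla_int e he c] at h1
  linarith

private theorem pla_int_eq (e : E N) (he : ‖e‖ = 1) (c : ℝ) {F G : E N → ℝ}
    (hF : Integrable F (volume : Measure (E N))) (hG : Integrable G (volume : Measure (E N)))
    (h : ∀ᵐ x : E N, G x + G (refl e c x) = F x + F (refl e c x)) :
    ∫ x, G x = ∫ x, F x :=
  le_antisymm (pla_int_le e he c hG hF (h.mono fun _ h => h.le))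
    (pla_int_le e he c hF hG (h.mono fun _ h => h.ge))

/-- the three cases -/
private theorem pla_cases (e : E N) (he : ‖e‖ = 1) (c : ℝ) {u u' : H1 N} (h : IsPol e c u u') :
    ∀ᵐ x : E N,
      (inner ℝ x e < c ∧ fn u' x = max (fn u x) (fn u (refl e c x)) ∧
        fn u' (refl e c x) = min (fn u x) (fn u (refl e c x))) ∨
      (c < inner ℝ x e ∧ fn u' x = min (fn u x) (fn u (refl e c x)) ∧
        fn u' (refl e c x) = max (fn u x) (fn u (refl e c x))) ∨
      (refl e c x = x ∧ fn u' x = fn u x) := by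
  filter_upwards [h, pla_ae e he c h] with x h1 h2
  have h3 := pla_side e he c x
  unfold polf at h1 h2
  rw [pla_invol e he c] at h2
  rcases lt_trichotomy (inner ℝ x e) c with h4 | h4 | h4
  · left
    rw [if_pos h4] at h1
    rw [if_neg (by linarith), min_comm] at h2
    exact ⟨h4, h1, h2⟩
  · right; right
    have h5 : refl e c x = x := by
      unfold refl
      rw [h4]
      simp
    rw [h5] at h1
    refine ⟨h5, ?_⟩
    rw [h1]
    simp
  · right; left
    rw [if_neg (by linarith)] at h1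
    rw [if_pos (by linarith), max_comm] at h2
    exact ⟨h4, h1, h2⟩

private theorem pla_sq_int (u : H1 N) : Integrable (fun x => fn u x * fn u x) (volume : Measure (E N)) := by
  have := (fn_memLp u).integrable_sq
  simpa [sq] using this

/-- the sign of the half space -/
private noncomputable def pla_s (e : E N) (c : ℝ) (x : E N) : ℝ := if inner ℝ x e < c then 1 else -1

private theorem pla_abs (e : E N) (c : ℝ) (x : E N) : |pla_s e c x| = 1 := by
  unfold pla_s
  split_ifs <;> simp

private theorem pla_sqs (e : E N) (c : ℝ) (x : E N) : pla_s e c x * pla_s e c x = 1 := by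
  unfold pla_s
  split_ifs <;> norm_num

private theorem pla_cont {V : Type*} [AddCommGroup V] [Module ℝ V] [TopologicalSpace V]
    [IsTopologicalAddGroup V] (e : E N) (c : ℝ)
    (g : E N → V) (hg : Continuous g) (h0 : ∀ x, inner ℝ x e = c → g x = 0) :
    Continuous fun x => pla_s e c x • g x := by
  have h1 : (fun x => pla_s e c x • g x) =
      fun x => if c ≤ inner ℝ x e then -g x else g x := by
    ext1 x
    unfold pla_s
    by_cases h : inner ℝ x e < c
    · rw [if_pos h, if_neg (not_le.2 h), one_smul]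
    · rw [if_neg h, if_pos (not_lt.1 h), neg_one_smul]
  rw [h1]
  refine Continuous.if_le hg.neg hg continuous_const (by fun_prop) ?_
  intro x hx
  rw [h0 x hx.symm, neg_zero]

private theorem pla_der (e : E N) (c : ℝ) (G : E N → ℝ) (x : E N) (G' : E N →L[ℝ] ℝ)
    (hG : HasFDerivAt G G' x) (h0 : inner ℝ x e = c → G x = 0 ∧ G' = 0) :
    HasFDerivAt (fun y => pla_s e c y * G y) (pla_s e c x • G') x := by
  have hc : Continuous fun y : E N => (inner ℝ y e : ℝ) := by fun_prop
  rcases lt_trichotomy (inner ℝ x e) c with h | h | h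
  · have h1 : (fun y => pla_s e c y * G y) =ᶠ[𝓝 x] G := by
      filter_upwards [hc.continuousAt.eventually_lt continuousAt_const h] with y hy
      unfold pla_s
      rw [if_pos hy, one_mul]
    have h2 : pla_s e c x • G' = G' := by
      unfold pla_s
      rw [if_pos h, one_smul]
    rw [h2]
    exact hG.congr_of_eventuallyEq h1
  · obtain ⟨k1, k2⟩ := h0 h
    rw [k2, smul_zero]
    rw [hasFDerivAt_iff_isLittleO]
    rw [hasFDerivAt_iff_isLittleO, k2] at hG
    rw [← Asymptotics.isLittleO_norm_left] at hG ⊢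
    refine hG.congr_left fun y => ?_
    simp only [k1, mul_zero, sub_zero, zero_apply, Real.norm_eq_abs, abs_mul,
      pla_abs, one_mul]
  · have h1 : (fun y => pla_s e c y * G y) =ᶠ[𝓝 x] fun y => - G y := by
      filter_upwards [continuousAt_const.eventually_lt hc.continuousAt h] with y hy
      unfold pla_s
      rw [if_neg (not_lt.2 (le_of_lt hy))]
      ring
    have h2 : pla_s e c x • G' = -G' := by
      unfold pla_s
      rw [if_neg (not_lt.2 h.le)]
      ext y
      simp
    rw [h2]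
    exact hG.neg.congr_of_eventuallyEq h1

private theorem pla_smooth (e : E N) (c : ℝ) (φ : E N → ℝ) (h1 : ContDiff ℝ 1 φ)
    (h2 : HasCompactSupport φ) (h0 : ∀ x, inner ℝ x e = c → φ x = 0) (ε : ℝ) (hε : 0 < ε) :
    ContDiff ℝ 1 (fun x => pla_s e c x * (Real.sqrt (φ x ^ 2 + ε ^ 2) - ε)) ∧
      HasCompactSupport (fun x => pla_s e c x * (Real.sqrt (φ x ^ 2 + ε ^ 2) - ε)) ∧
      ∀ x, gradient (fun x => pla_s e c x * (Real.sqrt (φ x ^ 2 + ε ^ 2) - ε)) x =
        (pla_s e c x * (φ x / Real.sqrt (φ x ^ 2 + ε ^ 2))) • gradient φ x := by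
  have hpos : ∀ x, 0 < φ x ^ 2 + ε ^ 2 := fun x => by positivity
  have hder : ∀ x, HasFDerivAt (fun x => Real.sqrt (φ x ^ 2 + ε ^ 2) - ε)
      ((φ x / Real.sqrt (φ x ^ 2 + ε ^ 2)) • fderiv ℝ φ x) x := by
    intro x
    have k1 : HasFDerivAt φ (fderiv ℝ φ x) x := (h1.differentiable (by norm_num) x).hasFDerivAt
    have k2 : HasDerivAt (fun t : ℝ => Real.sqrt (t ^ 2 + ε ^ 2) - ε)
        (φ x / Real.sqrt (φ x ^ 2 + ε ^ 2)) (φ x) := by
      have k3 : HasDerivAt (fun t : ℝ => t ^ 2 + ε ^ 2) (2 * φ x) (φ x) := by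
        simpa using (hasDerivAt_pow 2 (φ x)).add_const (ε ^ 2)
      have k4 := (k3.sqrt (hpos x).ne').sub_const ε
      rw [mul_div_mul_left _ _ (by norm_num : (2 : ℝ) ≠ 0)] at k4
      exact k4
    exact k2.comp_hasFDerivAt x k1
  have hval : ∀ x, φ x = 0 → Real.sqrt (φ x ^ 2 + ε ^ 2) - ε = 0 := by
    intro x hx
    rw [hx]
    simp [Real.sqrt_sq hε.le]
  have hF : ∀ x, HasFDerivAt (fun x => pla_s e c x * (Real.sqrt (φ x ^ 2 + ε ^ 2) - ε))
      (pla_s e c x • ((φ x / Real.sqrt (φ x ^ 2 + ε ^ 2)) • fderiv ℝ φ x)) x := by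
    intro x
    refine pla_der e c _ x _ (hder x) fun hx => ?_
    refine ⟨hval x (h0 x hx), ?_⟩
    rw [h0 x hx]
    simp
  refine ⟨?_, ?_, ?_⟩
  · rw [contDiff_one_iff_fderiv]
    refine ⟨fun x => (hF x).differentiableAt, ?_⟩
    have : fderiv ℝ (fun x => pla_s e c x * (Real.sqrt (φ x ^ 2 + ε ^ 2) - ε)) =
        fun x => pla_s e c x • ((φ x / Real.sqrt (φ x ^ 2 + ε ^ 2)) • fderiv ℝ φ x) := by
      ext1 x
      exact (hF x).fderiv
    rw [this]
    refine pla_cont e c _ ?_ ?_
    · have k1 : Continuous (fderiv ℝ φ) := h1.continuous_fderiv (by norm_num)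
      have k2 : Continuous φ := h1.continuous
      refine Continuous.smul (Continuous.div k2 (by fun_prop) fun x => ?_) k1
      exact (Real.sqrt_pos.2 (hpos x)).ne'
    · intro x hx
      rw [h0 x hx]
      simp
  · refine h2.mono ?_
    intro x hx
    rw [Function.mem_support] at hx ⊢
    intro h
    exact hx (by rw [hval x h, mul_zero])
  · intro x
    unfold gradient
    rw [(hF x).fderiv, map_smul, map_smul, smul_smul]

/-- locality of the gradient -/
private theorem pla_loc (u v : H1 N) (U : Set (E N)) (hU : IsOpen U)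
    (h : ∀ᵐ x : E N, x ∈ U → fn u x = fn v x) : ∀ᵐ x : E N, x ∈ U → gr u x = gr v x := by
  have key : ∀ a : E N, ∀ᵐ x : E N, x ∈ U → inner ℝ (gr (u - v) x) a = 0 := by
    intro a
    have hmem : MemLp (fun x => inner ℝ (gr (u - v) x) a) 2 (volume : Measure (E N)) :=
      (gr_memLp (u - v)).inner_const a
    refine hU.ae_eq_zero_of_integral_contDiff_smul_eq_zero
      ((hmem.locallyIntegrable (by norm_num)).locallyIntegrableOn _) ?_
    intro φ k1 k2 k3
    have k4 := weak_grad (u - v) φ (k1.of_le (by exact_mod_cast le_top)) k2 a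
    have k5 : ∫ x, fn (u - v) x * inner ℝ (gradient φ x) a = 0 := by
      have : ∀ᵐ x : E N, fn (u - v) x * inner ℝ (gradient φ x) a = 0 := by
        filter_upwards [h, fn_sub u v] with x hx hx2
        by_cases hxU : x ∈ U
        · rw [hx2, hx hxU, sub_self, zero_mul]
        · have k6 : x ∉ tsupport φ := fun hx => hxU (k3 hx)
          have k7 : gradient φ x = 0 := by
            unfold gradient
            have : fderiv ℝ φ x = 0 := by
              by_contra hne
              exact k6 (support_fderiv_subset ℝ hne)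
            rw [this, map_zero]
          rw [k7, inner_zero_left, mul_zero]
      rw [integral_congr_ae this, integral_zero]
    rw [k5] at k4
    have k6 : ∫ x, inner ℝ (gr (u - v) x) a * φ x = 0 := by linarith
    simpa [smul_eq_mul, mul_comm] using k6
  have hall : ∀ᵐ x : E N, ∀ i : Fin N, x ∈ U →
      inner ℝ (gr (u - v) x) (EuclideanSpace.single i (1 : ℝ)) = 0 :=
    ae_all_iff.2 fun i => key _
  filter_upwards [hall, gr_sub u v] with x hx hx2 hxU
  have h0 : gr (u - v) x = 0 := by
    ext i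
    have := hx i hxU
    simpa [EuclideanSpace.inner_single_right] using this
  rw [hx2] at h0
  exact sub_eq_zero.1 h0

private theorem pla_fix (e : E N) (c : ℝ) (x : E N) (h : inner ℝ x e = c) : refl e c x = x := by
  unfold refl
  rw [h]
  simp

private theorem pla_norm_le (z b : H1 N) (h1 : ∀ᵐ x : E N, |fn z x| ≤ |fn b x|)
    (h2 : ∀ᵐ x : E N, ‖gr z x‖ ≤ ‖gr b x‖) : ‖z‖ ≤ ‖b‖ := by
  refine le_of_sq_le_sq ?_ (norm_nonneg _)
  rw [norm_sq_eq, norm_sq_eq]
  unfold ip gX gY
  have k1 : ∫ x, inner ℝ (gr z x) (gr z x) ≤ ∫ x, (inner ℝ (gr b x) (gr b x) : ℝ) := by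
    simp only [real_inner_self_eq_norm_sq]
    refine integral_mono_ae (gr_memLp z).norm.integrable_sq (gr_memLp b).norm.integrable_sq ?_
    filter_upwards [h2] with x hx
    exact pow_le_pow_left₀ (norm_nonneg _) hx 2
  have k2 : ∫ x, fn z x * fn z x ≤ ∫ x, fn b x * fn b x := by
    refine integral_mono_ae (pla_sq_int z) (pla_sq_int b) ?_
    filter_upwards [h1] with x hx
    have := mul_self_le_mul_self (abs_nonneg _) hx
    simpa only [abs_mul_abs_self] using this
  linarith

/-- the sequence which gives `odd_H` -/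
private theorem pla_odd (e : E N) (he : ‖e‖ = 1) (c : ℝ) (w : H1 N)
    (hw : (fun x => fn w (refl e c x)) =ᵐ[volume] fun x => - fn w x) :
    ∃ z : H1 N, fn z =ᵐ[volume] fun x => pla_s e c x * |fn w x| := by
  obtain ⟨g, hg1, hg2⟩ := refl_aff e he c
  obtain ⟨T, hT⟩ := aff_H g
  have hTf : ∀ u : H1 N, fn (T u) =ᵐ[volume] fun x => fn u (refl e c x) := by
    intro u
    have := (hT u).1
    simp only [hg1] at this
    exact this
  have hTw : T w = -w := H1_ext ((hTf w).trans (hw.trans (fn_neg w).symm))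
  obtain ⟨a, φ, ha, hlim⟩ := exists_approx w
  -- odd approximations
  set b : ℕ → H1 N := fun n => (1 / 2 : ℝ) • (a n - T (a n)) with hb
  have hblim : Tendsto b atTop (𝓝 w) := by
    have h1 : Tendsto b atTop (𝓝 ((1 / 2 : ℝ) • (w - T w))) :=
      (hlim.sub ((T.continuous.tendsto w).comp hlim)).const_smul _
    rw [hTw] at h1
    convert h1 using 2
    rw [sub_neg_eq_add, ← two_smul ℝ w, smul_smul]
    norm_num
  have hrefl : ContDiff ℝ 1 (refl e c : E N → E N) := by
    unfold refl
    exact contDiff_id.sub ((contDiff_const.mul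
      ((contDiff_id.inner ℝ contDiff_const).sub contDiff_const)).smul contDiff_const)
  set ψ : ℕ → E N → ℝ := fun n x => (1 / 2 : ℝ) * (φ n x - φ n (refl e c x)) with hψ
  have hψ1 : ∀ n, ContDiff ℝ 1 (ψ n) := fun n =>
    contDiff_const.mul ((ha n).1.sub ((ha n).1.comp hrefl))
  have hψ2 : ∀ n, HasCompactSupport (ψ n) := by
    intro n
    have h1 : HasCompactSupport (fun x => φ n (refl e c x)) := by
      have h3 : (fun x => φ n (refl e c x)) = φ n ∘ g.toHomeomorph := by
        ext1 x
        simp only [Function.comp_apply]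
        rw [← hg1]
        rfl
      rw [h3]
      exact (ha n).2.1.comp_homeomorph g.toHomeomorph
    exact ((ha n).2.1.sub h1).mul_left
  have hψ0 : ∀ n x, inner ℝ x e = c → ψ n x = 0 := by
    intro n x hx
    simp only [hψ]
    rw [pla_fix e c x hx]
    simp
  have hbf : ∀ n, fn (b n) =ᵐ[volume] ψ n := by
    intro n
    filter_upwards [fn_smul (1 / 2 : ℝ) (a n - T (a n)), fn_sub (a n) (T (a n)), hTf (a n),
      (ha n).2.2.1, pla_ae e he c (ha n).2.2.1] with x k1 k2 k3 k4 k5
    simp only [hb, hψ]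
    rw [k1, k2, k3, k4, k5]
  have hbg : ∀ n, gr (b n) =ᵐ[volume] fun x => gradient (ψ n) x := by
    intro n
    obtain ⟨v, hv1, hv2⟩ := ofCc (ψ n) (hψ1 n) (hψ2 n)
    have : b n = v := H1_ext ((hbf n).trans hv1.symm)
    rw [this]
    exact hv2
  -- the parameters
  set V : ℕ → ℝ := fun n => (volume (tsupport (ψ n))).toReal with hV
  have hV0 : ∀ n, 0 ≤ V n := fun n => ENNReal.toReal_nonneg
  set ε : ℕ → ℝ := fun n => 1 / (((n : ℝ) + 1) * (1 + V n)) with hε
  have hε0 : ∀ n, 0 < ε n := fun n => by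
    have := hV0 n
    positivity
  have hεV : ∀ n, ε n ^ 2 * V n ≤ 1 / ((n : ℝ) + 1) := by
    intro n
    have h1 := hV0 n
    have h2 : ε n ≤ 1 / ((n : ℝ) + 1) := by
      apply one_div_le_one_div_of_le (by positivity)
      nlinarith [mul_nonneg (show (0 : ℝ) ≤ (n : ℝ) + 1 by positivity) h1]
    have h3 : ε n * V n ≤ 1 := by
      simp only [hε]
      rw [one_div, inv_mul_le_iff₀ (by positivity)]
      nlinarith [mul_nonneg (show (0 : ℝ) ≤ (n : ℝ) by positivity) h1,
        (show (0 : ℝ) ≤ (n : ℝ) by positivity)]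
    have h4 : ε n ^ 2 * V n = ε n * (ε n * V n) := by ring
    rw [h4]
    calc ε n * (ε n * V n) ≤ ε n * 1 := mul_le_mul_of_nonneg_left h3 (hε0 n).le
      _ = ε n := mul_one _
      _ ≤ _ := h2
  have hsm := fun n => pla_smooth e c (ψ n) (hψ1 n) (hψ2 n) (hψ0 n) (ε n) (hε0 n)
  have hz := fun n => ofCc _ (hsm n).1 (hsm n).2.1
  choose z hz1 hz2 using hz
  -- elementary inequalities
  have el1 : ∀ t ε : ℝ, 0 < ε → |Real.sqrt (t ^ 2 + ε ^ 2) - ε| ≤ |t| := by
    intro t ε hε
    have h1 : ε ≤ Real.sqrt (t ^ 2 + ε ^ 2) := Real.le_sqrt_of_sq_le (by nlinarith [sq_nonneg t])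
    rw [abs_of_nonneg (by linarith)]
    have h2 : Real.sqrt (t ^ 2 + ε ^ 2) ≤ |t| + ε := by
      rw [Real.sqrt_le_left (by positivity)]
      nlinarith [sq_abs t, abs_nonneg t, mul_nonneg (abs_nonneg t) hε.le]
    linarith
  have el2 : ∀ t ε : ℝ, 0 < ε → |t / Real.sqrt (t ^ 2 + ε ^ 2)| ≤ 1 := by
    intro t ε hε
    have h1 : 0 < Real.sqrt (t ^ 2 + ε ^ 2) := Real.sqrt_pos.2 (by positivity)
    rw [abs_div, abs_of_pos h1, div_le_one h1]
    exact Real.abs_le_sqrt (by nlinarith [sq_nonneg ε])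
  have el3 : ∀ t ε : ℝ, 0 < ε → abs (Real.sqrt (t ^ 2 + ε ^ 2) - ε - |t|) ≤ ε := by
    intro t ε hε
    have h2 : Real.sqrt (t ^ 2 + ε ^ 2) ≤ |t| + ε := by
      rw [Real.sqrt_le_left (by positivity)]
      nlinarith [sq_abs t, abs_nonneg t, mul_nonneg (abs_nonneg t) hε.le]
    have h3 : |t| ≤ Real.sqrt (t ^ 2 + ε ^ 2) := Real.abs_le_sqrt (by nlinarith [sq_nonneg ε])
    rw [abs_le]
    constructor <;> linarith
  -- boundedness
  obtain ⟨M, hM⟩ : ∃ M : ℝ, ∀ n, ‖b n‖ ≤ M := by
    obtain ⟨M, hM⟩ := hblim.norm.bddAbove_range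
    exact ⟨M, fun n => hM ⟨n, rfl⟩⟩
  have hzb : ∀ n, ‖z n‖ ≤ M := by
    intro n
    refine (pla_norm_le (z n) (b n) ?_ ?_).trans (hM n)
    · filter_upwards [hz1 n, hbf n] with x k1 k2
      rw [k1, k2, abs_mul, pla_abs, one_mul]
      exact el1 _ _ (hε0 n)
    · filter_upwards [hz2 n, hbg n] with x k1 k2
      rw [k1, k2, (hsm n).2.2 x, norm_smul, Real.norm_eq_abs, abs_mul, pla_abs, one_mul]
      exact mul_le_of_le_one_left (norm_nonneg _) (el2 _ _ (hε0 n))
  set f : E N → ℝ := fun x => pla_s e c x * |fn w x| with hf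
  have hmeas : Measurable (pla_s e c : E N → ℝ) := by
    unfold pla_s
    refine Measurable.ite ?_ measurable_const measurable_const
    exact measurableSet_lt (by fun_prop) measurable_const
  have hfm : MemLp f 2 (volume : Measure (E N)) := by
    refine (fn_memLp w).of_le (hmeas.aestronglyMeasurable.mul
      (fn_memLp w).aestronglyMeasurable.norm) ?_
    refine Eventually.of_forall fun x => ?_
    simp only [hf, Real.norm_eq_abs, abs_mul, pla_abs, one_mul, abs_abs, le_refl]
  have hL2 : Tendsto (fun n => ∫ x, (fn (z n) x - f x) ^ 2) atTop (𝓝 0) := by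
    have hub : ∀ n, ∫ x, (fn (z n) x - f x) ^ 2 ≤
        2 * (1 / ((n : ℝ) + 1)) + 2 * ‖b n - w‖ ^ 2 := by
      intro n
      have hts : MeasurableSet (tsupport (ψ n)) := (isClosed_tsupport _).measurableSet
      have hfin : volume (tsupport (ψ n)) ≠ ⊤ := (hψ2 n).isCompact.measure_lt_top.ne
      have i1 : Integrable ((tsupport (ψ n)).indicator fun _ => ε n ^ 2)
          (volume : Measure (E N)) :=
        (integrable_indicator_iff hts).2 (integrableOn_const hfin)
      have i2 : Integrable (fun x => fn (b n - w) x * fn (b n - w) x)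
          (volume : Measure (E N)) := pla_sq_int _
      have i3 : ∫ x, (tsupport (ψ n)).indicator (fun _ => ε n ^ 2) x = ε n ^ 2 * V n := by
        rw [integral_indicator hts, setIntegral_const, smul_eq_mul, mul_comm]
        rfl
      have i4 : ∫ x, (fn (z n) x - f x) ^ 2 ≤
          ∫ x, (2 * (tsupport (ψ n)).indicator (fun _ => ε n ^ 2) x +
            2 * (fn (b n - w) x * fn (b n - w) x)) := by
        refine integral_mono_ae ?_ ((i1.const_mul 2).add (i2.const_mul 2)) ?_
        · exact ((fn_memLp (z n)).sub hfm).integrable_sq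
        · filter_upwards [hz1 n, hbf n, fn_sub (b n) w] with x k1 k2 k3
          rw [k1, k3, k2]
          simp only [hf]
          have k4 : (pla_s e c x * (Real.sqrt (ψ n x ^ 2 + ε n ^ 2) - ε n) -
              pla_s e c x * |fn w x|) ^ 2 =
              ((Real.sqrt (ψ n x ^ 2 + ε n ^ 2) - ε n) - |fn w x|) ^ 2 := by
            have := pla_sqs e c x
            calc _ = (pla_s e c x * pla_s e c x) *
              ((Real.sqrt (ψ n x ^ 2 + ε n ^ 2) - ε n) - |fn w x|) ^ 2 := by ring
              _ = _ := by rw [this, one_mul]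
          rw [k4]
          have k5 : ((Real.sqrt (ψ n x ^ 2 + ε n ^ 2) - ε n) - |ψ n x|) ^ 2 ≤
              (tsupport (ψ n)).indicator (fun _ => ε n ^ 2) x := by
            by_cases hx : x ∈ tsupport (ψ n)
            · rw [Set.indicator_of_mem hx, ← sq_abs]
              exact pow_le_pow_left₀ (abs_nonneg _) (el3 _ _ (hε0 n)) 2
            · rw [Set.indicator_of_notMem hx, image_eq_zero_of_notMem_tsupport hx]
              simp [Real.sqrt_sq (hε0 n).le]
          have k6 : (|ψ n x| - |fn w x|) ^ 2 ≤ (ψ n x - fn w x) * (ψ n x - fn w x) := by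
            rw [← sq, ← sq_abs (ψ n x - fn w x), ← sq_abs (|ψ n x| - |fn w x|)]
            exact pow_le_pow_left₀ (abs_nonneg _) (abs_abs_sub_abs_le_abs_sub _ _) 2
          nlinarith [sq_nonneg (((Real.sqrt (ψ n x ^ 2 + ε n ^ 2) - ε n) - |ψ n x|) -
            (|ψ n x| - |fn w x|))]
      rw [integral_add (i1.const_mul 2) (i2.const_mul 2), integral_const_mul,
        integral_const_mul, i3] at i4
      have i5 : ∫ x, fn (b n - w) x * fn (b n - w) x ≤ ‖b n - w‖ ^ 2 := by
        rw [norm_sq_eq]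
        have := gY_le_ip (l := 1) (b n - w)
        rw [one_mul] at this
        exact this
      have i6 := hεV n
      linarith
    refine squeeze_zero (fun n => integral_nonneg fun x => sq_nonneg _) hub ?_
    have t1 : Tendsto (fun n : ℕ => 2 * (1 / ((n : ℝ) + 1))) atTop (𝓝 (2 * 0)) :=
      tendsto_one_div_add_atTop_nhds_zero_nat.const_mul 2
    have t2 : Tendsto (fun n => 2 * ‖b n - w‖ ^ 2) atTop (𝓝 (2 * 0 ^ 2)) := by
      have : Tendsto (fun n => ‖b n - w‖) atTop (𝓝 0) := tendsto_iff_norm_sub_tendsto_zero.1 hblim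
      exact (this.pow 2).const_mul 2
    simpa using t1.add t2
  obtain ⟨z0, hz0, _⟩ := WC_of_L2 z M hzb f hfm hL2
  exact ⟨z0, hz0⟩

/-- module pla. An odd function times the sign of the half space: if `fn w ∘ σ = - fn w` then
`s |w|`, `s = 1` on `⟨x,e⟩ < c`, `s = -1` elsewhere, is in `H1`, with the same `gX`.
Proof: approximate `w` by odd `C¹_c` functions `φ` (`exists_approx` and `(φ - φ∘σ)/2`); with
`T(t) = √(t²+ε²) - ε` (so `T(0) = T'(0) = 0`) the function `s T(φ)` is `C¹_c` because `T(φ)` and its gradient vanish on the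
hyperplane, and its gradient is `s T'(φ) ∇φ`. So `s T(w)` is in `H1` with gradient `s T'(w) ∇w` (as in `chain1`); let
`ε → 0`: gradient `s sign(w) ∇w`. Use `gr_zero_of_fn_zero`. -/
theorem odd_H (e : E N) (he : ‖e‖ = 1) (c : ℝ) (w : H1 N)
    (hw : (fun x => fn w (refl e c x)) =ᵐ[volume] fun x => - fn w x) :
    ∃ z : H1 N, (fn z =ᵐ[volume] fun x => (if inner ℝ x e < c then 1 else -1) * |fn w x|) ∧
      gX z z = gX w w ∧
      (gr z =ᵐ[volume] fun x => ((if inner ℝ x e < c then 1 else -1) *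
        ((SignType.sign (fn w x) : SignType) : ℝ)) • gr w x) := by
  obtain ⟨z, hz⟩ := pla_odd e he c w hw
  obtain ⟨v, hv1, hv2⟩ := abs_H w
  have hU1 : IsOpen {x : E N | inner ℝ x e < c} := isOpen_lt (by fun_prop) continuous_const
  have hU2 : IsOpen {x : E N | c < inner ℝ x e} := isOpen_lt continuous_const (by fun_prop)
  have l1 := pla_loc z v _ hU1 (by
    filter_upwards [hz, hv1] with x k1 k2 k3
    rw [k1, k2]
    unfold pla_s
    rw [if_pos k3, one_mul])
  have l2 := pla_loc z (-v) _ hU2 (by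
    filter_upwards [hz, hv1, fn_neg v] with x k1 k2 k4 k3
    rw [k1, k4, k2]
    unfold pla_s
    rw [if_neg (not_lt.2 (le_of_lt k3))]
    ring)
  have hgr : (gr z =ᵐ[volume] fun x => ((if inner ℝ x e < c then 1 else -1) *
        ((SignType.sign (fn w x) : SignType) : ℝ)) • gr w x) := by
    filter_upwards [l1, l2, hv2, gr_neg v, gr_zero_of_fn_zero z, hz, hw] with x m1 m2 m3 m4 m5 m6 m7
    rcases lt_trichotomy (inner ℝ x e) c with h | h | h
    · rw [if_pos h, one_mul, m1 h, m3]
    · rw [pla_fix e c x h] at m7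
      have h0 : fn w x = 0 := by linarith
      rw [m5 (by rw [m6, h0]; simp), h0]
      simp
    · rw [if_neg (not_lt.2 h.le), m2 h, m4, m3]
      rw [neg_one_mul, neg_smul]
  refine ⟨z, hz, ?_, hgr⟩
  unfold gX
  refine integral_congr_ae ?_
  filter_upwards [hgr, gr_zero_of_fn_zero w] with x m1 m2
  by_cases h0 : fn w x = 0
  · rw [m1, m2 h0]
    simp
  · rw [m1, real_inner_smul_left, real_inner_smul_right]
    have hs : ((SignType.sign (fn w x) : SignType) : ℝ) * ((SignType.sign (fn w x) : SignType) : ℝ)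
        = 1 := by
      rcases lt_or_gt_of_ne h0 with h | h
      · rw [sign_neg h]; norm_num
      · rw [sign_pos h]; norm_num
    have hs2 : (if inner ℝ x e < c then (1 : ℝ) else -1) * (if inner ℝ x e < c then (1 : ℝ) else -1)
        = 1 := by split_ifs <;> norm_num
    calc _ = ((if inner ℝ x e < c then (1 : ℝ) else -1) * (if inner ℝ x e < c then (1 : ℝ) else -1)) *
          (((SignType.sign (fn w x) : SignType) : ℝ) * ((SignType.sign (fn w x) : SignType) : ℝ)) *
          inner ℝ (gr w x) (gr w x) := by ring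
      _ = _ := by rw [hs, hs2]; ring

private theorem plb_gX (g : E N ≃ᵃⁱ[ℝ] E N) (e : E N) (he : ‖e‖ = 1) (c : ℝ)
    (hg : ∀ x, g x = refl e c x) (T : H1 N ≃ₗᵢ[ℝ] H1 N)
    (hT : ∀ u : H1 N, gr (T u) =ᵐ[volume] fun x => g.linearIsometryEquiv.symm (gr u (g x)))
    (u v : H1 N) : gX (T u) (T v) = gX u v := by
  unfold gX
  have h1 : ∫ x, inner ℝ (gr (T u) x) (gr (T v) x) =
      ∫ x, (inner ℝ (gr u (refl e c x)) (gr v (refl e c x)) : ℝ) := by
    refine integral_congr_ae ?_
    filter_upwards [hT u, hT v] with x k1 k2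
    rw [k1, k2, LinearIsometryEquiv.inner_map_map, hg]
  rw [h1]
  exact pla_int e he c (fun x => (inner ℝ (gr u x) (gr v x) : ℝ))

/-- module plb. The polarisation of an element of `H1` is in `H1` and has the same Dirichlet integral.
Proof: with `σ = refl e c`, `g0 = (u + u∘σ)/2` (even), `g1 = (u - u∘σ)/2` (odd) one has
`polf = g0 + s |g1|`. `gX` is additive on `g0 + (odd)`: `∫ ∇g0·∇(odd) = 0` by the change of variables `σ`; `u = g0 + g1`. -/
theorem pol_H (e : E N) (he : ‖e‖ = 1) (c : ℝ) (u : H1 N) :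
    ∃ u' : H1 N, IsPol e c u u' ∧ gX u' u' = gX u u := by
  obtain ⟨g, hg1, hg2⟩ := refl_aff e he c
  obtain ⟨T, hT⟩ := aff_H g
  have hTf : ∀ u : H1 N, fn (T u) =ᵐ[volume] fun x => fn u (refl e c x) := by
    intro u
    have := (hT u).1
    simp only [hg1] at this
    exact this
  have hTg := plb_gX g e he c hg1 T (fun u => (hT u).2)
  have hTT : T (T u) = u := by
    refine H1_ext ?_
    filter_upwards [hTf (T u), pla_ae e he c (hTf u)] with x k1 k2
    rw [k1, k2, hg2]
  set g0 : H1 N := (1 / 2 : ℝ) • (u + T u) with hg0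
  set g1 : H1 N := (1 / 2 : ℝ) • (u - T u) with hg1'
  have hu : u = g0 + g1 := by
    rw [hg0, hg1', ← smul_add, add_add_sub_cancel, ← two_smul ℝ u, smul_smul]
    norm_num
  have hT0 : T g0 = g0 := by
    rw [hg0, map_smul, map_add, hTT, add_comm]
  have hT1 : T g1 = -g1 := by
    rw [hg1', map_smul, map_sub, hTT, ← smul_neg, neg_sub]
  have f0 : fn g0 =ᵐ[volume] fun x => (1 / 2 : ℝ) * (fn u x + fn u (refl e c x)) := by
    filter_upwards [fn_smul (1 / 2 : ℝ) (u + T u), fn_add u (T u), hTf u] with x k1 k2 k3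
    rw [hg0, k1, k2, k3]
  have f1 : fn g1 =ᵐ[volume] fun x => (1 / 2 : ℝ) * (fn u x - fn u (refl e c x)) := by
    filter_upwards [fn_smul (1 / 2 : ℝ) (u - T u), fn_sub u (T u), hTf u] with x k1 k2 k3
    rw [hg1', k1, k2, k3]
  obtain ⟨z, hz1, hz2, _⟩ := odd_H e he c g1 (by
    filter_upwards [f1, pla_ae e he c f1] with x k1 k2
    rw [k1, k2, hg2]
    ring)
  have hTz : T z = -z := by
    refine H1_ext ?_
    filter_upwards [hTf z, pla_ae e he c hz1, hz1, fn_neg z, f1, pla_ae e he c f1] with x k1 k2 k3 k4 k5 k6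
    rw [k1, k2, k4, k3, k5, k6, hg2]
    have hside := pla_side e he c x
    rcases lt_trichotomy (inner ℝ x e) c with h | h | h
    · rw [if_pos h, if_neg (by linarith), abs_mul, abs_mul, abs_sub_comm]
      ring
    · rw [pla_fix e c x h]
      simp
    · rw [if_neg (not_lt.2 h.le), if_pos (by linarith), abs_mul, abs_mul, abs_sub_comm]
      ring
  have o1 : gX g0 g1 = 0 := by
    have := hTg g0 g1
    rw [hT0, hT1, ← neg_one_smul ℝ g1, gX_smul_right] at this
    linarith
  have o2 : gX g0 z = 0 := by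
    have := hTg g0 z
    rw [hT0, hTz, ← neg_one_smul ℝ z, gX_smul_right] at this
    linarith
  refine ⟨g0 + z, ?_, ?_⟩
  · filter_upwards [fn_add g0 z, hz1, f0, f1] with x k1 k2 k3 k4
    rw [k1, k2, k3, k4]
    unfold polf
    have a1 : |1 / 2 * (fn u x - fn u (refl e c x))| = 1 / 2 * |fn u x - fn u (refl e c x)| := by
      rw [abs_mul]
      norm_num
    rw [a1]
    split_ifs
    · rcases le_total (fn u x) (fn u (refl e c x)) with h3 | h3
      · rw [max_eq_right h3, abs_of_nonpos (by linarith)]; ring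
      · rw [max_eq_left h3, abs_of_nonneg (by linarith)]; ring
    · rcases le_total (fn u x) (fn u (refl e c x)) with h3 | h3
      · rw [min_eq_left h3, abs_of_nonpos (by linarith)]; ring
      · rw [min_eq_right h3, abs_of_nonneg (by linarith)]; ring
  · have e1 : gX (g0 + z) (g0 + z) = gX g0 g0 + gX z z := by
      rw [gX_add_left, gX_add_right, gX_add_right, o2, gX_comm z g0, o2]
      ring
    have e2 : gX u u = gX g0 g0 + gX g1 g1 := by
      rw [hu, gX_add_left, gX_add_right, gX_add_right, o1, gX_comm g1 g0, o1]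
      ring
    rw [e1, e2, hz2]

/-- since `H1_ext` holds every polarisation has the same Dirichlet integral -/
theorem pol_gX (e : E N) (he : ‖e‖ = 1) (c : ℝ) {u u' : H1 N} (h : IsPol e c u u') :
    gX u' u' = gX u u := by
  obtain ⟨u2, h2, h3⟩ := pol_H e he c u
  have : u' = u2 := H1_ext (h.trans h2.symm)
  rw [this, h3]

/-- module plc. Equimeasurability: `∫ F(u')  = ∫ F(u)` for `F(t) = t², t⁴`: split into the half space and its reflection:
for the two values `{u x, u (σ x)} = {u' x, u' (σ x)}` as multisets. -/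
theorem pol_gY (e : E N) (he : ‖e‖ = 1) (c : ℝ) {u u' : H1 N} (h : IsPol e c u u') :
    gY u' u' = gY u u := by
  unfold gY
  refine pla_int_eq e he c (pla_sq_int u) (pla_sq_int u') ?_
  filter_upwards [pla_cases e he c h] with x hx
  rcases hx with ⟨_, h1, h2⟩ | ⟨_, h1, h2⟩ | ⟨h1, h2⟩
  · rw [h1, h2]
    rcases le_total (fn u x) (fn u (refl e c x)) with h3 | h3
    · rw [max_eq_right h3, min_eq_left h3]; ring
    · rw [max_eq_left h3, min_eq_right h3]
  · rw [h1, h2]
    rcases le_total (fn u x) (fn u (refl e c x)) with h3 | h3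
    · rw [max_eq_right h3, min_eq_left h3]
    · rw [max_eq_left h3, min_eq_right h3]; ring
  · rw [h1, h2]

/-- module plc -/
theorem pol_P [Dim N] (e : E N) (he : ‖e‖ = 1) (c : ℝ) {u u' : H1 N} (h : IsPol e c u u') :
    Q4 u' u' u' u' = Q4 u u u u := by
  unfold Q4
  refine pla_int_eq e he c (Q4_integrable u u u u) (Q4_integrable u' u' u' u') ?_
  filter_upwards [pla_cases e he c h] with x hx
  rcases hx with ⟨_, h1, h2⟩ | ⟨_, h1, h2⟩ | ⟨h1, h2⟩
  · rw [h1, h2]
    rcases le_total (fn u x) (fn u (refl e c x)) with h3 | h3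
    · rw [max_eq_right h3, min_eq_left h3]; ring
    · rw [max_eq_left h3, min_eq_right h3]
  · rw [h1, h2]
    rcases le_total (fn u x) (fn u (refl e c x)) with h3 | h3
    · rw [max_eq_right h3, min_eq_left h3]
    · rw [max_eq_left h3, min_eq_right h3]; ring
  · rw [h1, h2]

/-- module plc. For nonnegative functions `∫ u'² v'² ≥ ∫ u² v²`
(`max max + min min ≥` for the squares at `x` and `σ x`). -/
theorem pol_Q [Dim N] (e : E N) (he : ‖e‖ = 1) (c : ℝ) {u u' v v' : H1 N} (hu : IsPol e c u u')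
    (hv : IsPol e c v v') (h1 : ∀ᵐ x : E N, 0 ≤ fn u x) (h2 : ∀ᵐ x : E N, 0 ≤ fn v x) :
    Q4 u u v v ≤ Q4 u' u' v' v' := by
  unfold Q4
  refine pla_int_le e he c (Q4_integrable u u v v) (Q4_integrable u' u' v' v') ?_
  have key : ∀ a b p q : ℝ, 0 ≤ a → 0 ≤ b → 0 ≤ p → 0 ≤ q → b ≤ a → q ≤ p →
      b * b * p * p + a * a * q * q ≤ a * a * p * p + b * b * q * q := by
    intro a b p q ha hb hp hq hab hqp
    have h3 : b * b ≤ a * a := mul_self_le_mul_self hb hab
    have h4 : q * q ≤ p * p := mul_self_le_mul_self hq hqp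
    nlinarith [mul_nonneg (sub_nonneg.2 h3) (sub_nonneg.2 h4)]
  filter_upwards [pla_cases e he c hu, pla_cases e he c hv, h1, h2, pla_ae e he c h1,
    pla_ae e he c h2] with x hx hy a1 a2 a3 a4
  rcases hx with ⟨k0, k1, k2⟩ | ⟨k0, k1, k2⟩ | ⟨k1, k2⟩
  · rcases hy with ⟨m0, m1, m2⟩ | ⟨m0, m1, m2⟩ | ⟨m1, m2⟩
    · rw [k1, k2, m1, m2]
      rcases le_total (fn u x) (fn u (refl e c x)) with h3 | h3
      · rw [max_eq_right h3, min_eq_left h3]
        rcases le_total (fn v x) (fn v (refl e c x)) with h4 | h4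
        · rw [max_eq_right h4, min_eq_left h4]
          linarith
        · rw [max_eq_left h4, min_eq_right h4]
          exact key _ _ _ _ a3 a1 a2 a4 h3 h4
      · rw [max_eq_left h3, min_eq_right h3]
        rcases le_total (fn v x) (fn v (refl e c x)) with h4 | h4
        · rw [max_eq_right h4, min_eq_left h4]
          have := key _ _ _ _ a1 a3 a4 a2 h3 h4
          linarith
        · rw [max_eq_left h4, min_eq_right h4]
    · exact absurd m0 (not_lt.2 k0.le)
    · rw [m1] at k1 k2
      rw [max_self] at k1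
      rw [m1, k1, m2]
  · rcases hy with ⟨m0, m1, m2⟩ | ⟨m0, m1, m2⟩ | ⟨m1, m2⟩
    · exact absurd m0 (not_lt.2 k0.le)
    · rw [k1, k2, m1, m2]
      rcases le_total (fn u x) (fn u (refl e c x)) with h3 | h3
      · rw [max_eq_right h3, min_eq_left h3]
        rcases le_total (fn v x) (fn v (refl e c x)) with h4 | h4
        · rw [max_eq_right h4, min_eq_left h4]
        · rw [max_eq_left h4, min_eq_right h4]
          have := key _ _ _ _ a3 a1 a2 a4 h3 h4
          linarith
      · rw [max_eq_left h3, min_eq_right h3]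
        rcases le_total (fn v x) (fn v (refl e c x)) with h4 | h4
        · rw [max_eq_right h4, min_eq_left h4]
          have := key _ _ _ _ a1 a3 a4 a2 h3 h4
          linarith
        · rw [max_eq_left h4, min_eq_right h4]
          linarith
    · rw [m1] at k1 k2
      rw [min_self] at k1
      rw [m1, k1, m2]
  · rcases hy with ⟨m0, m1, m2⟩ | ⟨m0, m1, m2⟩ | ⟨m1, m2⟩
    · rw [k1] at m1 m2
      rw [max_self] at m1
      rw [k1, k2, m1]
    · rw [k1] at m1 m2
      rw [min_self] at m1
      rw [k1, k2, m1]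
    · rw [k1, k2, m2]

/-- module plc -/
theorem pol_nonneg (e : E N) (he : ‖e‖ = 1) (c : ℝ) {u u' : H1 N} (h : IsPol e c u u')
    (h1 : ∀ᵐ x : E N, 0 ≤ fn u x) : ∀ᵐ x : E N, 0 ≤ fn u' x := by
  filter_upwards [h, h1, pla_ae e he c h1] with x a1 a2 a3
  rw [a1]
  unfold polf
  split_ifs
  · exact le_max_of_le_left a2
  · exact le_min a2 a3

private theorem pld_add (e : E N) (he : ‖e‖ = 1) (c : ℝ) {u u' : H1 N} (h : IsPol e c u u') :
    ∀ᵐ x : E N, fn u' x + fn u' (refl e c x) = fn u x + fn u (refl e c x) := by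
  filter_upwards [pla_cases e he c h] with x hx
  rcases hx with ⟨_, h1, h2⟩ | ⟨_, h1, h2⟩ | ⟨h1, h2⟩
  · rw [h1, h2, max_add_min]
  · rw [h1, h2, min_add_max]
  · rw [h1, h2]

/-- module pld. Polarisation is a contraction in `L²`
(`(max a b - max a' b')² + (min a b - min a' b')² ≤ (a-a')² + (b-b')²`). -/
theorem pol_contr (e : E N) (he : ‖e‖ = 1) (c : ℝ) {u u' v v' : H1 N} (hu : IsPol e c u u')
    (hv : IsPol e c v v') : gY (u' - v') (u' - v') ≤ gY (u - v) (u - v) := by
  unfold gY
  refine pla_int_le e he c (pla_sq_int (u' - v')) (pla_sq_int (u - v)) ?_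
  have key : ∀ a b p q : ℝ, (max a b - max p q) * (max a b - max p q) +
      (min a b - min p q) * (min a b - min p q) ≤ (a - p) * (a - p) + (b - q) * (b - q) := by
    intro a b p q
    rcases le_total a b with h1 | h1 <;> rcases le_total p q with h2 | h2
    · rw [max_eq_right h1, min_eq_left h1, max_eq_right h2, min_eq_left h2]; linarith
    · rw [max_eq_right h1, min_eq_left h1, max_eq_left h2, min_eq_right h2]
      nlinarith [mul_nonneg (sub_nonneg.2 h1) (sub_nonneg.2 h2)]
    · rw [max_eq_left h1, min_eq_right h1, max_eq_right h2, min_eq_left h2]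
      nlinarith [mul_nonneg (sub_nonneg.2 h1) (sub_nonneg.2 h2)]
    · rw [max_eq_left h1, min_eq_right h1, max_eq_left h2, min_eq_right h2]
  filter_upwards [pla_cases e he c hu, pla_cases e he c hv, fn_sub u' v', fn_sub u v,
    pla_ae e he c (fn_sub u' v'), pla_ae e he c (fn_sub u v)] with x hx hy a1 a2 a3 a4
  rw [a1, a2, a3, a4]
  rcases hx with ⟨k0, k1, k2⟩ | ⟨k0, k1, k2⟩ | ⟨k1, k2⟩
  · rcases hy with ⟨m0, m1, m2⟩ | ⟨m0, m1, m2⟩ | ⟨m1, m2⟩
    · rw [k1, k2, m1, m2]
      exact key _ _ _ _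
    · exact absurd m0 (not_lt.2 k0.le)
    · rw [m1] at k1 k2
      rw [max_self] at k1
      rw [m1, k1, m2]
  · rcases hy with ⟨m0, m1, m2⟩ | ⟨m0, m1, m2⟩ | ⟨m1, m2⟩
    · exact absurd m0 (not_lt.2 k0.le)
    · rw [k1, k2, m1, m2, add_comm]
      exact key _ _ _ _
    · rw [m1] at k1 k2
      rw [min_self] at k1
      rw [m1, k1, m2]
  · rcases hy with ⟨m0, m1, m2⟩ | ⟨m0, m1, m2⟩ | ⟨m1, m2⟩
    · rw [k1] at m1 m2
      rw [max_self] at m1
      rw [k1, k2, m1]
    · rw [k1] at m1 m2
      rw [min_self] at m1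
      rw [k1, k2, m1]
    · rw [k1, k2, m2]

/-- module pld. Tails do not increase (for `c ≥ 0`, nonnegative `u`): for `x` in the half space `‖x‖ ≤ ‖σ x‖`. -/
theorem pol_tail (e : E N) (he : ‖e‖ = 1) (c : ℝ) (hc : 0 ≤ c) {u u' : H1 N} (h : IsPol e c u u')
    (h1 : ∀ᵐ x : E N, 0 ≤ fn u x) (R : ℝ) :
    ∫ x in (Metric.ball (0 : E N) R)ᶜ, fn u' x ^ 2 ≤
      ∫ x in (Metric.ball (0 : E N) R)ᶜ, fn u x ^ 2 := by
  classical
  have hm : MeasurableSet (Metric.ball (0 : E N) R)ᶜ := measurableSet_ball.compl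
  rw [← integral_indicator hm, ← integral_indicator hm]
  refine pla_int_le e he c ((fn_memLp u').integrable_sq.indicator hm)
    ((fn_memLp u).integrable_sq.indicator hm) ?_
  filter_upwards [pla_cases e he c h, h1, pla_ae e he c h1] with x hx a1 a2
  have hn := refl_norm e he c x
  have hmem : ∀ z : E N, z ∈ (Metric.ball (0 : E N) R)ᶜ ↔ R ≤ ‖z‖ := by
    intro z
    simp
  have key : ∀ p q : ℝ, 0 ≤ p → 0 ≤ q → (min p q) ^ 2 ≤ p ^ 2 ∧ (min p q) ^ 2 ≤ q ^ 2 ∧
      (max p q) ^ 2 + (min p q) ^ 2 = p ^ 2 + q ^ 2 := by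
    intro p q hp hq
    rcases le_total p q with h3 | h3
    · rw [min_eq_left h3, max_eq_right h3]
      refine ⟨le_rfl, pow_le_pow_left₀ hp h3 2, by ring⟩
    · rw [min_eq_right h3, max_eq_left h3]
      exact ⟨pow_le_pow_left₀ hq h3 2, le_rfl, rfl⟩
  obtain ⟨k1, k2, k3⟩ := key _ _ a1 a2
  simp only [Set.indicator_apply, hmem]
  rcases hx with ⟨k0, m1, m2⟩ | ⟨k0, m1, m2⟩ | ⟨m1, m2⟩
  · have h4 : ‖x‖ ≤ ‖refl e c x‖ := by
      refine le_of_sq_le_sq ?_ (norm_nonneg _)
      rw [hn]
      nlinarith [mul_nonneg hc (sub_nonneg.2 k0.le)]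
    rw [m1, m2]
    by_cases h5 : R ≤ ‖x‖
    · rw [if_pos h5, if_pos (h5.trans h4), if_pos h5, if_pos (h5.trans h4)]
      linarith
    · rw [if_neg h5, if_neg h5]
      split_ifs <;> linarith
  · have h4 : ‖refl e c x‖ ≤ ‖x‖ := by
      refine le_of_sq_le_sq ?_ (norm_nonneg _)
      rw [hn]
      nlinarith [mul_nonneg hc (sub_nonneg.2 k0.le)]
    rw [m1, m2]
    by_cases h5 : R ≤ ‖refl e c x‖
    · rw [if_pos h5, if_pos (h5.trans h4), if_pos h5, if_pos (h5.trans h4)]
      linarith
    · rw [if_neg h5, if_neg h5]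
      split_ifs <;> linarith
  · rw [m1, m2]

/-- the Gaussian weight -/
noncomputable def gau (x : E N) : ℝ := Real.exp (- ‖x‖ ^ 2)

/-- module pld -/
theorem gau_memLp : MemLp (gau : E N → ℝ) 2 (volume : Measure (E N)) := by
  have hc : Continuous (gau : E N → ℝ) := by
    unfold gau
    fun_prop
  rw [memLp_two_iff_integrable_sq hc.aestronglyMeasurable]
  have h1 := GaussianFourier.integral_rexp_neg_mul_sq_norm (V := E N) (b := 2) (by norm_num)
  have h2 : ∫ v : E N, Real.exp (-2 * ‖v‖ ^ 2) ≠ 0 := by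
    rw [h1]
    positivity
  have h3 := Integrable.of_integral_ne_zero h2
  refine h3.congr (Eventually.of_forall fun x => ?_)
  simp only [gau]
  rw [← Real.exp_nat_mul]
  congr 1
  push_cast
  ring

private theorem pld_gint (u : H1 N) : Integrable (fun x => fn u x * gau x) (volume : Measure (E N)) :=
  (fn_memLp u).integrable_mul gau_memLp

/-- module pld. `∫ u' g - ∫ u g = ∫_H (u' - u)(g - g∘σ) ≥ 0`, `g - g∘σ > 0` in `H` if `c > 0`; equality only if `u' = u`. -/
theorem pol_gau (e : E N) (he : ‖e‖ = 1) (c : ℝ) (hc : 0 < c) {u u' : H1 N} (h : IsPol e c u u') :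
    ∫ x, fn u x * gau x ≤ ∫ x, fn u' x * gau x ∧
      (∫ x, fn u' x * gau x ≤ ∫ x, fn u x * gau x → u' = u) := by
  set D : E N → ℝ := fun x => (fn u' x - fn u x) * (gau x - gau (refl e c x)) with hD
  have hgau : ∀ x y : E N, ‖x‖ ^ 2 < ‖y‖ ^ 2 → gau y < gau x := by
    intro x y hxy
    unfold gau
    exact Real.exp_lt_exp.2 (by linarith)
  have hpos : ∀ᵐ x : E N, 0 ≤ D x ∧ (D x = 0 → fn u' x = fn u x) := by
    filter_upwards [pla_cases e he c h] with x hx
    have hn := refl_norm e he c x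
    rcases hx with ⟨k0, m1, m2⟩ | ⟨k0, m1, m2⟩ | ⟨m1, m2⟩
    · have h4 : gau (refl e c x) < gau x := by
        apply hgau
        rw [hn]
        nlinarith [mul_pos hc (sub_pos.2 k0)]
      have h5 : fn u x ≤ fn u' x := by rw [m1]; exact le_max_left _ _
      refine ⟨mul_nonneg (sub_nonneg.2 h5) (sub_nonneg.2 h4.le), fun h6 => ?_⟩
      rcases mul_eq_zero.1 h6 with h7 | h7
      · linarith
      · linarith
    · have h4 : gau x < gau (refl e c x) := by
        apply hgau
        rw [hn]
        nlinarith [mul_pos hc (sub_pos.2 k0)]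
      have h5 : fn u' x ≤ fn u x := by rw [m1]; exact min_le_left _ _
      refine ⟨mul_nonneg_of_nonpos_of_nonpos (sub_nonpos.2 h5) (sub_nonpos.2 h4.le), fun h6 => ?_⟩
      rcases mul_eq_zero.1 h6 with h7 | h7
      · linarith
      · linarith
    · refine ⟨?_, fun _ => m2⟩
      simp only [hD, m2, sub_self, zero_mul, le_refl]
  have hDi : D =ᵐ[volume] fun x => (fn u' x * gau x + fn u' (refl e c x) * gau (refl e c x)) -
      (fn u x * gau x + fn u (refl e c x) * gau (refl e c x)) := by
    filter_upwards [pld_add e he c h] with x hx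
    simp only [hD]
    have : fn u' (refl e c x) = fn u x + fn u (refl e c x) - fn u' x := by linarith
    rw [this]
    ring
  have i1 := pld_gint u'
  have i2 := pld_gint u
  have i3 := pla_intble e he c i1
  have i4 := pla_intble e he c i2
  have hDint : Integrable D (volume : Measure (E N)) := by
    refine Integrable.congr ?_ hDi.symm
    exact (i1.add i3).sub (i2.add i4)
  have hDval : ∫ x, D x = 2 * (∫ x, fn u' x * gau x) - 2 * ∫ x, fn u x * gau x := by
    have j1 : ∫ x, (fn u' x * gau x + fn u' (refl e c x) * gau (refl e c x)) =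
        2 * ∫ x, fn u' x * gau x := by
      rw [integral_add i1 i3, pla_int e he c (fun x => fn u' x * gau x)]
      ring
    have j2 : ∫ x, (fn u x * gau x + fn u (refl e c x) * gau (refl e c x)) =
        2 * ∫ x, fn u x * gau x := by
      rw [integral_add i2 i4, pla_int e he c (fun x => fn u x * gau x)]
      ring
    rw [integral_congr_ae hDi, ← j1, ← j2]
    exact integral_sub (i1.add i3) (i2.add i4)
  have hDnn : 0 ≤ ∫ x, D x := integral_nonneg_of_ae (hpos.mono fun x hx => hx.1)
  refine ⟨by linarith, fun h6 => ?_⟩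
  have h7 : ∫ x, D x = 0 := le_antisymm (by linarith) hDnn
  rw [integral_eq_zero_iff_of_nonneg_ae (hpos.mono fun x hx => hx.1) hDint] at h7
  refine H1_ext ?_
  filter_upwards [hpos, h7] with x h8 h9
  exact h8.2 h9

private theorem pld_int_ball (u : H1 N) (s : Set (E N)) (hs : volume s ≠ ⊤) :
    IntegrableOn (fn u) s (volume : Measure (E N)) := by
  have : IsFiniteMeasure ((volume : Measure (E N)).restrict s) :=
    ⟨by rw [Measure.restrict_apply_univ]; exact hs.lt_top⟩
  exact ((fn_memLp u).restrict s).integrable (by norm_num)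

private theorem pld_lt {u : H1 N} 
    (h : ∀ (e : E N) (c : ℝ), ‖e‖ = 1 → 0 < c → IsPol e c u u) (r : ℝ) (x y : E N)
    (hxy : ‖x‖ < ‖y‖) :
    ∫ z in Metric.ball y r, fn u z ≤ ∫ z in Metric.ball x r, fn u z := by
  classical
  have hne : y - x ≠ 0 := by
    intro h0
    rw [sub_eq_zero] at h0
    rw [h0] at hxy
    exact lt_irrefl _ hxy
  have hd : 0 < ‖y - x‖ := norm_pos_iff.2 hne
  set d := ‖y - x‖ with hdd
  set e : E N := d⁻¹ • (y - x) with hee
  set c : ℝ := (‖y‖ ^ 2 - ‖x‖ ^ 2) / (2 * d) with hcc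
  have he : ‖e‖ = 1 := by
    rw [hee, norm_smul, ← hdd, Real.norm_eq_abs, abs_of_pos (inv_pos.2 hd)]
    exact inv_mul_cancel₀ hd.ne'
  have hc : 0 < c := by
    have h1 : ‖x‖ ^ 2 < ‖y‖ ^ 2 := pow_lt_pow_left₀ hxy (norm_nonneg _) (by norm_num)
    exact div_pos (by linarith) (by linarith)
  have hxe : inner ℝ x e - c = - (d / 2) := by
    have h1 : d ^ 2 = ‖y‖ ^ 2 - 2 * inner ℝ x y + ‖x‖ ^ 2 := by
      rw [hdd, norm_sub_sq_real, real_inner_comm]
    rw [hee, real_inner_smul_right, inner_sub_right, real_inner_self_eq_norm_sq, hcc]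
    field_simp
    linarith
  have hx : refl e c x = y := by
    unfold refl
    rw [hxe, hee, smul_smul]
    have : 2 * -(d / 2) * d⁻¹ = -1 := by field_simp
    rw [this]
    simp
  obtain ⟨g, hg1, hg2⟩ := refl_aff e he c
  have hiso : ∀ z w : E N, dist (refl e c z) (refl e c w) = dist z w := by
    intro z w
    rw [← hg1, ← hg1]
    exact g.dist_map z w
  have hy : refl e c y = x := by rw [← hx, hg2]
  have hB : ∀ z : E N, z ∈ Metric.ball y r ↔ refl e c z ∈ Metric.ball x r := by
    intro z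
    rw [Metric.mem_ball, Metric.mem_ball, ← hiso z y, hy]
  have hdist : ∀ z : E N, ‖refl e c z - x‖ ^ 2 = ‖z - x‖ ^ 2 - 2 * d * (inner ℝ z e - c) := by
    intro z
    have h1 : refl e c z - x = (z - x) - (2 * (inner ℝ z e - c)) • e := by
      unfold refl
      abel
    rw [h1, norm_sub_sq_real, real_inner_smul_right, norm_smul, he, Real.norm_eq_abs, mul_one,
      sq_abs, inner_sub_left]
    have h2 : inner ℝ x e = c - d / 2 := by linarith
    rw [h2]
    ring
  have hmy : MeasurableSet (Metric.ball y r) := measurableSet_ball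
  have hmx : MeasurableSet (Metric.ball x r) := measurableSet_ball
  rw [← integral_indicator hmy, ← integral_indicator hmx]
  have hfy : Integrable ((Metric.ball y r).indicator (fn u)) (volume : Measure (E N)) :=
    (integrable_indicator_iff hmy).2 (pld_int_ball u _ (measure_ball_lt_top).ne)
  have hfx : Integrable ((Metric.ball x r).indicator (fn u)) (volume : Measure (E N)) :=
    (integrable_indicator_iff hmx).2 (pld_int_ball u _ (measure_ball_lt_top).ne)
  refine pla_int_le e he c hfy hfx ?_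
  filter_upwards [pla_cases e he c (h e c he hc)] with z hz
  simp only [Set.indicator_apply, hB, hg2]
  rcases hz with ⟨k0, m1, m2⟩ | ⟨k0, m1, m2⟩ | ⟨m1, m2⟩
  · have h4 : fn u (refl e c z) ≤ fn u z := by
      conv_rhs => rw [m1]
      exact le_max_right _ _
    have h5 : refl e c z ∈ Metric.ball x r → z ∈ Metric.ball x r := by
      rw [mem_ball_iff_norm, mem_ball_iff_norm]
      intro h6
      refine lt_of_le_of_lt (le_of_sq_le_sq ?_ (norm_nonneg _)) h6
      rw [hdist]
      nlinarith [mul_nonneg hd.le (sub_nonneg.2 k0.le)]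
    by_cases h6 : refl e c z ∈ Metric.ball x r
    · rw [if_pos h6, if_pos (h5 h6), if_pos (h5 h6), if_pos h6]
    · by_cases h7 : z ∈ Metric.ball x r
      · rw [if_neg h6, if_pos h7, if_pos h7, if_neg h6]
        linarith
      · rw [if_neg h6, if_neg h7, if_neg h7, if_neg h6]
  · have h4 : fn u z ≤ fn u (refl e c z) := by
      conv_lhs => rw [m1]
      exact min_le_right _ _
    have h5 : z ∈ Metric.ball x r → refl e c z ∈ Metric.ball x r := by
      rw [mem_ball_iff_norm, mem_ball_iff_norm]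
      intro h6
      refine lt_of_le_of_lt (le_of_sq_le_sq ?_ (norm_nonneg _)) h6
      rw [hdist]
      nlinarith [mul_nonneg hd.le (sub_nonneg.2 k0.le)]
    by_cases h6 : z ∈ Metric.ball x r
    · rw [if_pos (h5 h6), if_pos h6, if_pos h6, if_pos (h5 h6)]
    · by_cases h7 : refl e c z ∈ Metric.ball x r
      · rw [if_pos h7, if_neg h6, if_neg h6, if_pos h7]
        linarith
      · rw [if_neg h7, if_neg h6, if_neg h6, if_neg h7]
  · rw [m1]

/-- module pld. A nonnegative function fixed by all polarisations with `c > 0` is radially nonincreasing.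
Proof: for `‖x‖ < ‖y‖` let `e = (y-x)/‖y-x‖`, `c = (‖y‖²-‖x‖²)/(2‖y-x‖) > 0`: then `refl e c x = y`, and `u ≥ u∘σ` a.e. on
`H`; `∫_{ball x r} u - ∫_{ball y r} u = ∫_H (1_{ball x r} - 1_{ball y r})(u - u∘σ) ≥ 0` because `ball y r ∩ H ⊆ ball x r`.
For `‖x‖ = ‖y‖` use the continuity of `y ↦ ∫_{ball y r} u`. -/
theorem RD_of_fixed {u : H1 N} (h1 : ∀ᵐ x : E N, 0 ≤ fn u x)
    (h : ∀ (e : E N) (c : ℝ), ‖e‖ = 1 → 0 < c → IsPol e c u u) : RD u := by
  refine ⟨h1, fun r x y hr hxy => ?_⟩
  rcases hxy.lt_or_eq with h2 | h2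
  · exact pld_lt h r x y h2
  by_cases hy : y = 0
  · rw [hy, norm_zero, norm_eq_zero] at h2
    rw [hy, h2]
  have hny : 0 < ‖y‖ := norm_pos_iff.2 hy
  -- for `s < r`
  have key : ∀ s : ℝ, s < r → ∫ z in Metric.ball y s, fn u z ≤ ∫ z in Metric.ball x r, fn u z := by
    intro s hs
    set t : ℝ := (r - s) / (2 * ‖y‖) with ht
    have ht0 : 0 < t := div_pos (by linarith) (by linarith)
    set w : E N := (1 + t) • y with hw
    have hw1 : ‖x‖ < ‖w‖ := by
      rw [hw, norm_smul, Real.norm_eq_abs, abs_of_pos (by linarith), h2]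
      nlinarith
    have hw2 : Metric.ball y s ⊆ Metric.ball w r := by
      refine Metric.ball_subset_ball' ?_
      have : dist y w = t * ‖y‖ := by
        rw [dist_comm, dist_eq_norm, hw]
        have : (1 + t) • y - y = t • y := by module
        rw [this, norm_smul, Real.norm_eq_abs, abs_of_pos ht0]
      rw [this, ht]
      have : (r - s) / (2 * ‖y‖) * ‖y‖ = (r - s) / 2 := by field_simp
      rw [this]
      linarith
    refine le_trans ?_ (pld_lt h r x w hw1)
    refine setIntegral_mono_set (pld_int_ball u _ (measure_ball_lt_top).ne) ?_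
      (LE.le.eventuallyLE hw2)
    exact ae_restrict_of_ae h1
  -- exhaust the ball
  have hmono : Monotone (fun n : ℕ => Metric.ball y (r - 1 / ((n : ℝ) + 1))) := by
    intro m n hmn
    refine Metric.ball_subset_ball ?_
    have : (1 : ℝ) / ((n : ℝ) + 1) ≤ 1 / ((m : ℝ) + 1) := by
      apply one_div_le_one_div_of_le (by positivity)
      have : (m : ℝ) ≤ n := by exact_mod_cast hmn
      linarith
    linarith
  have hun : (⋃ n : ℕ, Metric.ball y (r - 1 / ((n : ℝ) + 1))) = Metric.ball y r := by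
    ext z
    simp only [Set.mem_iUnion, Metric.mem_ball]
    constructor
    · rintro ⟨n, hn⟩
      have : (0 : ℝ) < 1 / ((n : ℝ) + 1) := by positivity
      linarith
    · intro hz
      obtain ⟨n, hn⟩ := exists_nat_one_div_lt (sub_pos.2 hz)
      exact ⟨n, by linarith⟩
  have hlim := tendsto_setIntegral_of_monotone (μ := (volume : Measure (E N))) (f := fn u)
    (s := fun n : ℕ => Metric.ball y (r - 1 / ((n : ℝ) + 1))) (fun n => measurableSet_ball) hmono
    (by rw [hun]; exact pld_int_ball u _ (measure_ball_lt_top).ne)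
  rw [hun] at hlim
  refine le_of_tendsto hlim (Eventually.of_forall fun n => key _ ?_)
  have : (0 : ℝ) < 1 / ((n : ℝ) + 1) := by positivity
  linarith

end Sir
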