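import Pool.Agent.Sir.RD
/-!
# The profile of a radial element of `H1`
modules: pra, prb, prc, prd, pre, prf, prg
-/

namespace Sir

open MeasureTheory Filter Topology

variable {N : ℕ}

/-- the area of the unit sphere -/
noncomputable def cN (N : ℕ) : ℝ := N * (volume (Metric.ball (0 : E N) 1)).toReal

private theorem pra_dim (N : ℕ) : Module.finrank ℝ (E N) = N := by
  simp [E]

private theorem pra_two_le [Dim N] : 2 ≤ N := by
  rcases (Dim.h : N = 2 ∨ N = 3) with h | h <;> omega

private theorem pra_nontriv [Dim N] : Nontrivial (E N) := by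
  have := pra_two_le (N := N)
  apply Module.nontrivial_of_finrank_pos (R := ℝ)
  rw [pra_dim]; omega

/-- module pra -/
theorem cN_pos [Dim N] : 0 < cN N := by
  have := pra_two_le (N := N)
  unfold cN
  have h1 : (0 : ℝ) < N := by
    have : 0 < N := by omega
    exact_mod_cast this
  have h2 : 0 < (volume (Metric.ball (0 : E N) 1)).toReal :=
    ENNReal.toReal_pos (Metric.measure_ball_pos _ _ one_pos).ne' measure_ball_lt_top.ne
  positivity

/-- module pra. Integration of radial functions (`MeasureTheory.integral_fun_norm_addHaar`). -/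
theorem int_radial [Dim N] (f : ℝ → ℝ) :
    ∫ x : E N, f ‖x‖ = cN N * ∫ r in Set.Ioi (0 : ℝ), r ^ (N - 1) * f r := by
  have := pra_nontriv (N := N)
  rw [integral_fun_norm_addHaar (volume : Measure (E N)) f, pra_dim]
  unfold cN
  simp only [smul_eq_mul, nsmul_eq_mul, Measure.real]
  ring

private theorem pra_integrable [Dim N] {f : ℝ → ℝ} :
    Integrable (fun x : E N => f ‖x‖) (volume : Measure (E N)) ↔
      IntegrableOn (fun r : ℝ => r ^ (N - 1) * f r) (Set.Ioi 0) := by
  have := pra_nontriv (N := N)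
  have h := integrable_fun_norm_addHaar (volume : Measure (E N)) (f := f)
  rw [pra_dim] at h
  exact h

private theorem pra_iso {x y : E N} (h : ‖x‖ = ‖y‖) : ∃ R : E N ≃ₗᵢ[ℝ] E N, R x = y :=
  ⟨_, Submodule.reflection_sub h⟩

private noncomputable def pra_mean (f : E N → ℝ) (r : ℝ) (x : E N) : ℝ :=
  ⨍ y in Metric.closedBall x r, f y

private theorem pra_mean_iso {f : E N → ℝ} (R : E N ≃ₗᵢ[ℝ] E N)
    (hR : (fun x => f (R x)) =ᵐ[volume] f) (r : ℝ) (x : E N) :
    pra_mean f r (R x) = pra_mean f r x := by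
  unfold pra_mean
  have hmp : MeasurePreserving (R : E N → E N) volume volume := R.measurePreserving
  have hpre : (R : E N → E N) ⁻¹' Metric.closedBall (R x) r = Metric.closedBall x r := by
    ext y
    simp only [Set.mem_preimage, Metric.mem_closedBall]
    rw [R.dist_map]
  have h1 : volume (Metric.closedBall (R x) r) = volume (Metric.closedBall x r) := by
    rw [← hpre, hmp.measure_preimage Metric.isClosed_closedBall.measurableSet.nullMeasurableSet]
  have h2 : ∫ y in Metric.closedBall (R x) r, f y = ∫ y in Metric.closedBall x r, f y := by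
    rw [← hmp.setIntegral_preimage_emb R.toHomeomorph.measurableEmbedding, hpre]
    exact setIntegral_congr_ae Metric.isClosed_closedBall.measurableSet
      (by filter_upwards [hR] with y hy _ using hy)
  rw [setAverage_eq, setAverage_eq, h2]
  simp only [Measure.real, h1]

private theorem pra_mean_meas {f : E N → ℝ} (hf : StronglyMeasurable f) (r : ℝ) :
    Measurable (fun x => pra_mean f r x) := by
  have hvol : ∀ x : E N, volume.real (Metric.closedBall x r) =
      volume.real (Metric.closedBall (0 : E N) r) := by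
    intro x
    simp only [Measure.real, Measure.addHaar_closedBall_center]
  have e : (fun x => pra_mean f r x) = fun x => (volume.real (Metric.closedBall (0 : E N) r))⁻¹ *
      ∫ y, (if dist y x ≤ r then f y else 0) := by
    ext x
    unfold pra_mean
    rw [setAverage_eq, hvol, smul_eq_mul, ← integral_indicator Metric.isClosed_closedBall.measurableSet]
    congr 1
  rw [e]
  refine Measurable.const_mul ?_ _
  refine StronglyMeasurable.measurable ?_
  refine StronglyMeasurable.integral_prod_right (f := fun (x : E N) (y : E N) => if dist y x ≤ r then f y else 0) ?_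
  have hset : MeasurableSet {p : E N × E N | dist p.2 p.1 ≤ r} :=
    (isClosed_le (continuous_snd.dist continuous_fst) continuous_const).measurableSet
  have : (Function.uncurry fun (x : E N) (y : E N) => if dist y x ≤ r then f y else 0) =
      Set.indicator {p : E N × E N | dist p.2 p.1 ≤ r} (fun p => f p.2) := by
    ext p
    rfl
  rw [this]
  exact (hf.comp_measurable measurable_snd).indicator hset

/-- module pra. A radial element of `H1` is almost everywhere a (measurable) function of the norm.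
Proof: the means over `ball x (1/(n+1))` are continuous in `x` and depend only on `‖x‖` (invariance, the isometry group is
transitive on spheres), and converge to `fn u x` a.e. (Lebesgue differentiation). -/
theorem Rad_prof0 [Dim N] {u : H1 N} (hu : Rad u) : ∃ F : ℝ → ℝ, Measurable F ∧
    fn u =ᵐ[volume] fun x => F ‖x‖ := by
  have := pra_nontriv (N := N)
  obtain ⟨e, he⟩ := exists_norm_eq (E N) (zero_le_one : (0 : ℝ) ≤ 1)
  refine ⟨fun r => limsup (fun n : ℕ => pra_mean (fn u) (1 / ((n : ℝ) + 1)) (r • e)) atTop, ?_, ?_⟩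
  · refine Measurable.limsup fun n => ?_
    exact (pra_mean_meas (Lp.stronglyMeasurable u.val.fst) _).comp (measurable_id.smul_const e)
  · have hloc : LocallyIntegrable (fn u) (volume : Measure (E N)) :=
      (fn_memLp u).locallyIntegrable (by norm_num)
    have h := IsUnifLocDoublingMeasure.ae_tendsto_average (volume : Measure (E N)) hloc 1
    filter_upwards [h] with x hx
    have hδ : Tendsto (fun n : ℕ => 1 / ((n : ℝ) + 1)) atTop (𝓝[>] 0) := by
      rw [tendsto_nhdsWithin_iff]
      exact ⟨tendsto_one_div_add_atTop_nhds_zero_nat, Eventually.of_forall fun n => by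
        simp only [Set.mem_Ioi]; positivity⟩
    have h1 := hx (fun _ : ℕ => x) (fun n : ℕ => 1 / ((n : ℝ) + 1)) hδ
      (Eventually.of_forall fun n => by
        simp only [one_mul]
        exact Metric.mem_closedBall_self (by positivity))
    have h2 : ∀ n : ℕ, pra_mean (fn u) (1 / ((n : ℝ) + 1)) (‖x‖ • e) =
        ⨍ y in Metric.closedBall x (1 / ((n : ℝ) + 1)), fn u y := by
      intro n
      obtain ⟨R, hR⟩ := pra_iso (N := N) (x := x) (y := ‖x‖ • e) (by
        rw [norm_smul, he, norm_norm, mul_one])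
      rw [← hR, pra_mean_iso R (hu R)]
      rfl
    simp only [h2]
    exact h1.limsup_eq.symm

/-- `F` is the continuous profile of the radial function `u`; the third property is the fundamental theorem of
calculus `c_N (F r2 - F r1) = ∫_{r1 < |x| < r2} ∇u · x / |x|^N`. -/
def IsProf (u : H1 N) (F : ℝ → ℝ) : Prop :=
  ContinuousOn F (Set.Ioi 0) ∧ (fn u =ᵐ[volume] fun x => F ‖x‖) ∧
    ∀ r1 r2 : ℝ, 0 < r1 → r1 ≤ r2 → cN N * (F r2 - F r1) =
      ∫ x in {x : E N | r1 < ‖x‖ ∧ ‖x‖ < r2}, inner ℝ (gr u x) x / ‖x‖ ^ N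

private theorem prb_contDiff {k : ℝ → ℝ} (hk : ContDiff ℝ 1 k) {a c : ℝ} (ha : 0 < a)
    (h0 : ∀ r, r < a → k r = c) : ContDiff ℝ 1 (fun x : E N => k ‖x‖) := by
  rw [contDiff_iff_contDiffAt]
  intro x
  by_cases hx : x = 0
  · subst hx
    have h1 : (fun x : E N => k ‖x‖) =ᶠ[𝓝 0] fun _ => c := by
      have h2 : ∀ᶠ x : E N in 𝓝 0, ‖x‖ < a := by
        have h3 := (continuous_norm (E := E N)).tendsto 0
        rw [norm_zero] at h3
        exact h3.eventually (gt_mem_nhds ha)
      filter_upwards [h2] with x hx using h0 _ hx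
    exact contDiffAt_const.congr_of_eventuallyEq h1
  · exact hk.contDiffAt.comp x (contDiffAt_norm ℝ hx)

private theorem prb_hasFDeriv_norm {x : E N} (hx : x ≠ 0) :
    HasFDerivAt (fun x : E N => ‖x‖) ((1 / ‖x‖) • innerSL ℝ x) x := by
  have h1 := (hasStrictFDerivAt_norm_sq x).hasFDerivAt
  have hx' : 0 < ‖x‖ := norm_pos_iff.2 hx
  have h2 := h1.sqrt (by positivity)
  have e : (fun y : E N => √(‖y‖ ^ 2)) = fun y => ‖y‖ := by
    ext y; exact Real.sqrt_sq (norm_nonneg _)
  rw [e] at h2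
  refine h2.congr_fderiv ?_
  rw [Real.sqrt_sq (norm_nonneg _)]
  ext y
  simp
  field_simp

private theorem prb_gradient {k : ℝ → ℝ} (hk : ContDiff ℝ 1 k) {a c : ℝ} (ha : 0 < a)
    (h0 : ∀ r, r < a → k r = c) (x : E N) :
    gradient (fun x : E N => k ‖x‖) x = (deriv k ‖x‖ / ‖x‖) • x := by
  by_cases hx : x = 0
  · subst hx
    have h1 : (fun x : E N => k ‖x‖) =ᶠ[𝓝 0] fun _ => c := by
      have h2 : ∀ᶠ x : E N in 𝓝 0, ‖x‖ < a := by
        have h3 := (continuous_norm (E := E N)).tendsto 0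
        rw [norm_zero] at h3
        exact h3.eventually (gt_mem_nhds ha)
      filter_upwards [h2] with x hx using h0 _ hx
    unfold gradient
    rw [h1.fderiv_eq]
    simp
  · have h1 := prb_hasFDeriv_norm hx
    have h2 : HasDerivAt k (deriv k ‖x‖) ‖x‖ :=
      (hk.differentiable (by norm_num) ‖x‖).hasDerivAt
    have h3 := h2.comp_hasFDerivAt x h1
    have h4 : HasGradientAt (fun x : E N => k ‖x‖) ((deriv k ‖x‖ / ‖x‖) • x) x := by
      rw [hasGradientAt_iff_hasFDerivAt]
      refine h3.congr_fderiv ?_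
      ext y
      simp
      ring
    exact h4.gradient

private theorem prb_zero_deriv {s : ℝ → ℝ} {a b : ℝ} (hs : ContDiff ℝ 1 s)
    (hab : ∀ r, r ∉ Set.Ioo a b → s r = 0) : ∀ r, r ∉ Set.Ioo a b → deriv s r = 0 := by
  intro r hr
  have hc : Continuous (deriv s) := hs.continuous_deriv (by norm_num)
  have hin : ∀ r, (r < a ∨ b < r) → deriv s r = 0 := by
    intro r hr
    have : s =ᶠ[𝓝 r] fun _ => 0 := by
      rcases hr with hr | hr
      · filter_upwards [gt_mem_nhds hr] with y hy
        exact hab y (fun h => absurd h.1 (not_lt.2 hy.le))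
      · filter_upwards [lt_mem_nhds hr] with y hy
        exact hab y (fun h => absurd h.2 (not_lt.2 hy.le))
    rw [this.deriv_eq]; simp
  by_cases hab' : a < b
  · rcases not_and_or.1 (fun h : a < r ∧ r < b => hr h) with h | h
    · rcases (not_lt.1 h).lt_or_eq with h | h
      · exact hin r (Or.inl h)
      · subst h
        have h1 : Tendsto (deriv s) (𝓝[<] r) (𝓝 (deriv s r)) := (hc.tendsto r).mono_left nhdsWithin_le_nhds
        have h2 : Tendsto (deriv s) (𝓝[<] r) (𝓝 0) := by
          refine tendsto_const_nhds.congr' ?_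
          filter_upwards [self_mem_nhdsWithin] with y hy
          exact (hin y (Or.inl hy)).symm
        exact tendsto_nhds_unique h1 h2
    · rcases (not_lt.1 h).lt_or_eq with h | h
      · exact hin r (Or.inr h)
      · subst h
        have h1 : Tendsto (deriv s) (𝓝[>] b) (𝓝 (deriv s b)) := (hc.tendsto b).mono_left nhdsWithin_le_nhds
        have h2 : Tendsto (deriv s) (𝓝[>] b) (𝓝 0) := by
          refine tendsto_const_nhds.congr' ?_
          filter_upwards [self_mem_nhdsWithin] with y hy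
          exact (hin y (Or.inr hy)).symm
        exact tendsto_nhds_unique h1 h2
  · have : s = fun _ => 0 := by
      ext y
      exact hab y (fun h => hab' (h.1.trans h.2))
    rw [this]; simp

/-- module prb. Weak form of the fundamental theorem: for `C¹` functions `s` with compact support in `(0,∞)`
`∫ ⟨∇u, x⟩ |x|^{-N} s(|x|) = - ∫ u s'(|x|) |x|^{1-N}`.
Proof: the vector field `V(x) = s(|x|) x / |x|^N` is `C¹_c` with divergence `s'(|x|) |x|^{1-N}` (`div (x/|x|^N) = 0`); apply
`weak_grad` to each component `V_i` with `e = e_i` and sum. -/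
theorem weak_radial [Dim N] (u : H1 N) (s : ℝ → ℝ) (hs : ContDiff ℝ 1 s) {a b : ℝ} (ha : 0 < a)
    (hab : ∀ r, r ∉ Set.Ioo a b → s r = 0) :
    ∫ x, inner ℝ (gr u x) x / ‖x‖ ^ N * s ‖x‖ = - ∫ x, fn u x * (deriv s ‖x‖ / ‖x‖ ^ (N - 1)) := by
  have hN := pra_two_le (N := N)
  have hs0 := prb_zero_deriv hs hab
  -- the function `q r = s r / r ^ N`
  set q : ℝ → ℝ := fun r => s r / r ^ N with hq
  have hqa : ∀ r, r < a → q r = 0 := by
    intro r hr
    simp only [hq]
    rw [hab r (fun h => absurd h.1 (not_lt.2 hr.le)), zero_div]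
  have hqb : ∀ r, b ≤ r → q r = 0 := by
    intro r hr
    simp only [hq]
    rw [hab r (fun h => absurd h.2 (not_lt.2 hr)), zero_div]
  have hqC : ContDiff ℝ 1 q := by
    rw [contDiff_iff_contDiffAt]
    intro r
    by_cases hr : r < a
    · have : q =ᶠ[𝓝 r] fun _ => 0 := by
        filter_upwards [gt_mem_nhds hr] with y hy using hqa y hy
      exact contDiffAt_const.congr_of_eventuallyEq this
    · have hr' : 0 < r := ha.trans_le (not_lt.1 hr)
      exact hs.contDiffAt.div (contDiffAt_id.pow N) (by positivity)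
  have hqd : ∀ r, 0 < r → deriv q r = deriv s r / r ^ N - N * s r / r ^ (N + 1) := by
    intro r hr
    have h1 : HasDerivAt s (deriv s r) r := (hs.differentiable (by norm_num) r).hasDerivAt
    have h2 : HasDerivAt q _ r := h1.div (hasDerivAt_pow N r) (by positivity)
    rw [h2.deriv]
    have hrN : r ^ N = r ^ (N - 1) * r := by
      rw [← pow_succ]; congr 1; omega
    field_simp
    rw [pow_succ, hrN]
    ring
  set g : E N → ℝ := fun x => q ‖x‖ with hg
  have hgC : ContDiff ℝ 1 g := prb_contDiff hqC ha hqa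
  have hgg : ∀ x, gradient g x = (deriv q ‖x‖ / ‖x‖) • x := prb_gradient hqC ha hqa
  have hgs : HasCompactSupport g := by
    refine HasCompactSupport.of_support_subset_isCompact (isCompact_closedBall (0 : E N) b) ?_
    intro x hx
    rw [Function.mem_support] at hx
    rw [mem_closedBall_zero_iff]
    by_contra h
    exact hx (hqb _ (not_le.1 h).le)
  -- the components
  set ei : Fin N → E N := fun i => EuclideanSpace.single i (1 : ℝ) with hei
  have hV : ∀ i : Fin N, ContDiff ℝ 1 (fun x : E N => g x * x i) := by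
    intro i
    refine hgC.mul ?_
    exact (EuclideanSpace.proj i : E N →L[ℝ] ℝ).contDiff
  have hVs : ∀ i : Fin N, HasCompactSupport (fun x : E N => g x * x i) := fun i => hgs.mul_right
  have hVg : ∀ (i : Fin N) (x : E N), inner ℝ (gradient (fun x : E N => g x * x i) x) (ei i) =
      g x + x i * (deriv q ‖x‖ / ‖x‖) * x i := by
    intro i x
    have h1 : HasFDerivAt g (fderiv ℝ g x) x := (hgC.differentiable (by norm_num) x).hasFDerivAt
    have h2 : HasFDerivAt (fun x : E N => x i) (EuclideanSpace.proj i : E N →L[ℝ] ℝ) x :=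
      (EuclideanSpace.proj i : E N →L[ℝ] ℝ).hasFDerivAt
    have h3 := h1.mul h2
    unfold gradient
    have h4 : fderiv ℝ (fun x : E N => g x * x i) x = _ := h3.fderiv
    rw [h4]
    rw [← InnerProductSpace.toDual_apply_apply, LinearIsometryEquiv.apply_symm_apply]
    have h5 : (fderiv ℝ g x) (ei i) = (deriv q ‖x‖ / ‖x‖) * x i := by
      have h6 := hgg x
      unfold gradient at h6
      have h7 : fderiv ℝ g x = (InnerProductSpace.toDual ℝ (E N)) ((deriv q ‖x‖ / ‖x‖) • x) := by
        rw [← h6, LinearIsometryEquiv.apply_symm_apply]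
      rw [h7, InnerProductSpace.toDual_apply_apply, real_inner_smul_left, hei]
      congr 1
      simp [EuclideanSpace.inner_single_right]
    simp [h5]
    simp [hei]
    ring
  have key : ∀ i : Fin N, ∫ x, fn u x * (g x + x i * (deriv q ‖x‖ / ‖x‖) * x i) =
      - ∫ x, inner ℝ (gr u x) (ei i) * (g x * x i) := by
    intro i
    have h := weak_grad u (fun x : E N => g x * x i) (hV i) (hVs i) (ei i)
    simp only [hVg] at h
    exact h
  have hVc : ∀ i : Fin N, MemLp (fun x : E N => g x * x i) 2 (volume : Measure (E N)) := fun i =>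
    (hV i).continuous.memLp_of_hasCompactSupport (hVs i)
  have hWc : ∀ i : Fin N, MemLp (fun x : E N => g x + x i * (deriv q ‖x‖ / ‖x‖) * x i) 2
      (volume : Measure (E N)) := by
    intro i
    have e : (fun x : E N => g x + x i * (deriv q ‖x‖ / ‖x‖) * x i) = fun x =>
        inner ℝ (gradient (fun x : E N => g x * x i) x) (ei i) := by
      ext x; rw [hVg]
    rw [e]
    have hcg : Continuous (fun x : E N => gradient (fun x : E N => g x * x i) x) := by
      unfold gradient
      exact (LinearIsometryEquiv.continuous _).comp ((hV i).continuous_fderiv (by norm_num))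
    have hsg : HasCompactSupport (fun x : E N => gradient (fun x : E N => g x * x i) x) := by
      refine ((hVs i).fderiv ℝ).mono fun x hx => ?_
      simp only [Function.mem_support] at hx ⊢
      intro h; apply hx; unfold gradient; rw [h]; simp
    refine (hcg.inner continuous_const).memLp_of_hasCompactSupport ?_
    refine hsg.mono fun x hx => ?_
    simp only [Function.mem_support] at hx ⊢
    intro h; apply hx; rw [h]; simp
  have hi1 : ∀ i : Fin N, Integrable (fun x : E N => fn u x * (g x + x i * (deriv q ‖x‖ / ‖x‖) * x i))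
      (volume : Measure (E N)) := fun i => (fn_memLp u).integrable_mul (hWc i)
  have hi2 : ∀ i : Fin N, Integrable (fun x : E N => inner ℝ (gr u x) (ei i) * (g x * x i))
      (volume : Measure (E N)) := fun i =>
    ((gr_memLp u).inner_const (ei i)).integrable_mul (hVc i)
  have hsum : ∑ i : Fin N, ∫ x, fn u x * (g x + x i * (deriv q ‖x‖ / ‖x‖) * x i) =
      ∑ i : Fin N, - ∫ x, inner ℝ (gr u x) (ei i) * (g x * x i) := Finset.sum_congr rfl fun i _ => key i
  rw [← integral_finsetSum _ (fun i _ => hi1 i), Finset.sum_neg_distrib,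
    ← integral_finsetSum _ (fun i _ => hi2 i)] at hsum
  have hR : (fun x : E N => ∑ i : Fin N, inner ℝ (gr u x) (ei i) * (g x * x i)) =
      fun x => inner ℝ (gr u x) x / ‖x‖ ^ N * s ‖x‖ := by
    ext x
    have h1 : inner ℝ (gr u x) x = ∑ i : Fin N, (gr u x) i * x i := by
      rw [PiLp.inner_apply]
      refine Finset.sum_congr rfl fun i _ => ?_
      simp [mul_comm]
    have h2 : ∀ i : Fin N, inner ℝ (gr u x) (ei i) = (gr u x) i := by
      intro i
      simp [hei, EuclideanSpace.inner_single_right]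
    simp only [h2, h1]
    rw [Finset.sum_div, Finset.sum_mul]
    refine Finset.sum_congr rfl fun i _ => ?_
    simp only [hg, hq]
    ring
  have hL : (fun x : E N => ∑ i : Fin N, fn u x * (g x + x i * (deriv q ‖x‖ / ‖x‖) * x i)) =
      fun x => fn u x * (deriv s ‖x‖ / ‖x‖ ^ (N - 1)) := by
    ext x
    rw [← Finset.mul_sum, Finset.sum_add_distrib]
    congr 1
    have h1 : ∑ i : Fin N, x i * (deriv q ‖x‖ / ‖x‖) * x i = (deriv q ‖x‖ / ‖x‖) * ‖x‖ ^ 2 := by
      rw [EuclideanSpace.norm_sq_eq, Finset.mul_sum]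
      refine Finset.sum_congr rfl fun i _ => ?_
      rw [Real.norm_eq_abs, sq_abs]
      ring
    rw [h1]
    simp only [Finset.sum_const, Finset.card_univ, Fintype.card_fin, nsmul_eq_mul]
    by_cases hx : x = 0
    · subst hx
      have h2 : g 0 = 0 := by
        simp only [hg, norm_zero]; exact hqa 0 ha
      have h3 : deriv s ‖(0 : E N)‖ = 0 := by
        rw [norm_zero]
        exact hs0 0 (fun h => absurd h.1 (not_lt.2 ha.le))
      rw [h2, h3]
      simp
    · have hx' : 0 < ‖x‖ := norm_pos_iff.2 hx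
      rw [hqd _ hx']
      simp only [hg, hq]
      have e1 : ‖x‖ ^ N = ‖x‖ ^ (N - 1) * ‖x‖ := by
        rw [← pow_succ]; congr 1; omega
      have e2 : ‖x‖ ^ (N + 1) = ‖x‖ ^ (N - 1) * ‖x‖ * ‖x‖ := by
        rw [pow_succ, e1]
      rw [e2, e1]
      field_simp
      ring
  rw [hR, hL] at hsum
  linarith

private theorem prc_int {D g : ℝ → ℝ} (hD : LocallyIntegrableOn D (Set.Ioi 0) volume)
    (hg : Continuous g) {a b : ℝ} (ha : 0 < a) (h0 : ∀ r, r ∉ Set.Ioo a b → g r = 0) :
    IntegrableOn (fun r => D r * g r) (Set.Ioi 0) volume := by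
  have h1 : IntegrableOn D (Set.Icc a b) volume :=
    hD.integrableOn_compact_subset (fun x hx => ha.trans_le hx.1) isCompact_Icc
  have h2 := h1.mul_continuousOn hg.continuousOn isCompact_Icc
  refine h2.of_forall_sdiff_eq_zero measurableSet_Ioi fun x hx => ?_
  have : g x = 0 := h0 x fun h => hx.2 ⟨h.1.le, h.2.le⟩
  simp [this]

private theorem prc_prim {w : ℝ → ℝ} (hw : Continuous w) {a b : ℝ} (ha : 0 < a)
    (h0 : ∀ r, r ∉ Set.Ioo a b → w r = 0) (hz : ∫ r, w r = 0) :
    ∃ s : ℝ → ℝ, ContDiff ℝ 1 s ∧ (∀ r, r ∉ Set.Ioo a b → s r = 0) ∧ deriv s = w := by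
  have hd : ∀ r, HasDerivAt (fun r => ∫ t in (0 : ℝ)..r, w t) (w r) r := fun r =>
    intervalIntegral.integral_hasDerivAt_right (hw.intervalIntegrable _ _)
      hw.stronglyMeasurable.stronglyMeasurableAtFilter hw.continuousAt
  have hder : deriv (fun r => ∫ t in (0 : ℝ)..r, w t) = w := by
    ext r; exact (hd r).deriv
  refine ⟨fun r => ∫ t in (0 : ℝ)..r, w t, ?_, ?_, hder⟩
  · rw [contDiff_one_iff_deriv]
    refine ⟨fun r => (hd r).differentiableAt, ?_⟩
    rw [hder]; exact hw
  · intro r hr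
    by_cases hra : a < r
    · have hbr : b ≤ r := by
        by_contra h
        exact hr ⟨hra, not_le.1 h⟩
      simp only
      rw [intervalIntegral.integral_eq_integral_of_support_subset, hz]
      intro x hx
      rw [Function.mem_support] at hx
      have : x ∈ Set.Ioo a b := by
        by_contra h; exact hx (h0 x h)
      exact ⟨ha.trans this.1, this.2.le.trans hbr⟩
    · have hra' := not_lt.1 hra
      have : Set.EqOn w (fun _ => 0) (Set.uIcc 0 r) := by
        intro x hx
        refine h0 x fun h => ?_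
        have h1 : x ≤ max 0 r := hx.2
        have h2 : max 0 r ≤ a := max_le ha.le hra'
        exact absurd h.1 (not_lt.2 (h1.trans h2))
      simp only
      rw [intervalIntegral.integral_congr this]
      simp

/-- module prc. du Bois-Reymond on `(0,∞)`: if `∫ D s' = 0` for all `C¹` functions `s` with compact support in `(0,∞)`
then `D` is a.e. constant on `(0,∞)`. Proof: for `g` continuous with compact support in `(0,∞)` let
`s(r) = ∫_0^r (g - (∫g) k)` with a fixed `k ∈ C_c(0,∞)`, `∫ k = 1`: `∫ D g = (∫ D k) ∫ g`, i.e. `∫ (D - c) g = 0` for all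
`g`. -/
theorem du_bois (D : ℝ → ℝ) (hD : LocallyIntegrableOn D (Set.Ioi 0) volume)
    (h : ∀ (s : ℝ → ℝ) (a b : ℝ), ContDiff ℝ 1 s → 0 < a → (∀ r, r ∉ Set.Ioo a b → s r = 0) →
      ∫ r in Set.Ioi (0 : ℝ), D r * deriv s r = 0) :
    ∃ c : ℝ, ∀ᵐ r ∂(volume.restrict (Set.Ioi (0 : ℝ))), D r = c := by
  let B : ContDiffBump (2 : ℝ) := ⟨1 / 2, 1, by norm_num, by norm_num⟩
  set k : ℝ → ℝ := B.normed volume with hk
  have hkc : Continuous k := B.continuous_normed
  have hk1 : ∫ r, k r = 1 := B.integral_normed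
  have hk0 : ∀ r, r ∉ Set.Ioo (1 : ℝ) 3 → k r = 0 := by
    intro r hr
    by_contra hne
    have h1 : r ∈ Function.support k := hne
    rw [hk, B.support_normed_eq] at h1
    apply hr
    have h2 : |r - 2| < 1 := by
      have := Metric.mem_ball.1 h1
      rwa [Real.dist_eq] at this
    rw [abs_lt] at h2
    exact ⟨by linarith [h2.1], by linarith [h2.2]⟩
  set c : ℝ := ∫ r in Set.Ioi (0 : ℝ), D r * k r with hc
  refine ⟨c, ?_⟩
  have key : ∀ᵐ r : ℝ, r ∈ Set.Ioi (0 : ℝ) → D r - c = 0 := by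
    refine isOpen_Ioi.ae_eq_zero_of_integral_contDiff_smul_eq_zero
      (hD.sub ((locallyIntegrable_const c).locallyIntegrableOn _)) ?_
    intro g hg1 hg2 hg3
    have hgc : Continuous g := hg1.continuous
    -- the support
    set K : Set ℝ := tsupport g ∪ Set.Icc 1 3 with hK
    have hKc : IsCompact K := IsCompact.union hg2 isCompact_Icc
    have hKn : K.Nonempty := ⟨1, Or.inr ⟨le_refl _, by norm_num⟩⟩
    have hK0 : K ⊆ Set.Ioi 0 := by
      rintro x (hx | hx)
      · exact hg3 hx
      · exact lt_of_lt_of_le one_pos hx.1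
    obtain ⟨m, hmK, hm⟩ := hKc.exists_isLeast hKn
    obtain ⟨M, hMK, hM⟩ := hKc.exists_isGreatest hKn
    have hm0 : 0 < m := hK0 hmK
    have hnot : ∀ r, r ∉ Set.Ioo (m / 2) (M + 1) → r ∉ K := by
      intro r hr hrK
      have h1 : m ≤ r := hm hrK
      have h2 : r ≤ M := hM hrK
      exact hr ⟨by linarith, by linarith⟩
    have hg0 : ∀ r, r ∉ Set.Ioo (m / 2) (M + 1) → g r = 0 := fun r hr =>
      image_eq_zero_of_notMem_tsupport fun h => hnot r hr (Or.inl h)
    have hk0' : ∀ r, r ∉ Set.Ioo (m / 2) (M + 1) → k r = 0 := fun r hr =>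
      hk0 r fun h => hnot r hr (Or.inr ⟨h.1.le, h.2.le⟩)
    set G : ℝ := ∫ r, g r with hG
    have hgi : Integrable g volume := hgc.integrable_of_hasCompactSupport hg2
    have hki : Integrable k volume := B.integrable_normed
    set w : ℝ → ℝ := fun r => g r - G * k r with hw
    have hwc : Continuous w := hgc.sub (hkc.const_mul G)
    have hw0 : ∀ r, r ∉ Set.Ioo (m / 2) (M + 1) → w r = 0 := fun r hr => by
      simp only [hw]; rw [hg0 r hr, hk0' r hr]; ring
    have hwz : ∫ r, w r = 0 := by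
      simp only [hw]
      rw [integral_sub hgi (hki.const_mul G), integral_const_mul, hk1, ← hG]
      ring
    obtain ⟨s, hs1, hs2, hs3⟩ := prc_prim hwc (half_pos hm0) hw0 hwz
    have h1 := h s (m / 2) (M + 1) hs1 (half_pos hm0) hs2
    rw [hs3] at h1
    have iDg := prc_int hD hgc (half_pos hm0) hg0
    have iDk := prc_int hD hkc (half_pos hm0) hk0'
    have h2 : ∫ r in Set.Ioi (0 : ℝ), D r * w r =
        (∫ r in Set.Ioi (0 : ℝ), D r * g r) - G * c := by
      have e : (fun r => D r * w r) = fun r => D r * g r - G * (D r * k r) := by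
        ext r; simp only [hw]; ring
      rw [e, integral_sub iDg (iDk.const_mul G), integral_const_mul]
    have h3 : ∫ x, g x • (D x - c) = ∫ x in Set.Ioi (0 : ℝ), g x • (D x - c) := by
      symm
      refine setIntegral_eq_integral_of_forall_compl_eq_zero fun x hx => ?_
      have : g x = 0 := by
        refine hg0 x fun h => hx ?_
        exact (half_pos hm0).trans h.1
      simp [this]
    have h4 : ∫ x in Set.Ioi (0 : ℝ), g x = G := by
      rw [hG]
      refine setIntegral_eq_integral_of_forall_compl_eq_zero fun x hx => ?_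
      refine hg0 x fun h => hx ?_
      exact (half_pos hm0).trans h.1
    rw [h3]
    have e : (fun x => g x • (D x - c)) = fun x => D x * g x - c * g x := by
      ext x; rw [smul_eq_mul]; ring
    rw [e, integral_sub iDg (hgi.integrableOn.const_mul c), integral_const_mul, h4]
    linarith
  rw [ae_restrict_iff' measurableSet_Ioi]
  filter_upwards [key] with r hr h
  have := hr h
  linarith

private theorem prd_ae [Dim N] {P : ℝ → Prop}
    (h : ∀ᵐ r ∂(volume.restrict (Set.Ioi (0 : ℝ))), P r) : ∀ᵐ x : E N, P ‖x‖ := by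
  obtain ⟨Z, hZ1, hZ2, hZ3⟩ := exists_measurable_superset_of_null (ae_iff.1 h)
  have h1 : ∀ᵐ r ∂(volume.restrict (Set.Ioi (0 : ℝ))), r ∉ Z := by
    rw [ae_iff]; simpa using hZ3
  have h2 : (fun r : ℝ => r ^ (N - 1) * Z.indicator (fun _ => (1 : ℝ)) r)
      =ᵐ[volume.restrict (Set.Ioi (0 : ℝ))] fun _ => 0 := by
    filter_upwards [h1] with r hr
    simp [hr]
  have hI : IntegrableOn (fun r : ℝ => r ^ (N - 1) * Z.indicator (fun _ => (1 : ℝ)) r) (Set.Ioi 0) :=
    (integrable_zero _ _ _).congr h2.symm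
  have h3 : Integrable (fun x : E N => Z.indicator (fun _ => (1 : ℝ)) ‖x‖)
    (volume : Measure (E N)) := pra_integrable.2 hI
  have h4 : ∫ x : E N, Z.indicator (fun _ => (1 : ℝ)) ‖x‖ = 0 := by
    rw [int_radial, integral_congr_ae h2]
    simp
  have h5 := (integral_eq_zero_iff_of_nonneg (fun x => by
    simp only [Pi.zero_apply]
    exact Set.indicator_nonneg (fun _ _ => zero_le_one) _) h3).1 h4
  filter_upwards [h5] with x hx
  by_contra hn
  have h6 : ‖x‖ ∈ Z := hZ1 hn
  simp [h6] at hx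

private noncomputable def prd_W (u : H1 N) (x : E N) : ℝ := inner ℝ (gr u x) x / ‖x‖ ^ N

private theorem prd_Wm (u : H1 N) : Measurable (prd_W u) := by
  unfold prd_W
  have h : Measurable (gr u) := (Lp.stronglyMeasurable u.val.snd).measurable
  exact (h.inner measurable_id).div (measurable_norm.pow_const N)

private theorem prd_Wle [Dim N] (u : H1 N) (x : E N) :
    |prd_W u x| ≤ ‖gr u x‖ * (‖x‖ ^ (N - 1))⁻¹ := by
  have hN := pra_two_le (N := N)
  unfold prd_W
  rw [abs_div, abs_of_nonneg (by positivity : (0 : ℝ) ≤ ‖x‖ ^ N)]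
  by_cases hx : x = 0
  · subst hx
    simp only [inner_zero_right, abs_zero, zero_div]
    positivity
  have hx' : 0 < ‖x‖ := norm_pos_iff.2 hx
  rw [div_le_iff₀ (by positivity)]
  have e1 : ‖x‖ ^ N = ‖x‖ ^ (N - 1) * ‖x‖ := by
    rw [← pow_succ]; congr 1; omega
  calc |inner ℝ (gr u x) x| ≤ ‖gr u x‖ * ‖x‖ := abs_real_inner_le_norm _ _
    _ = ‖gr u x‖ * (‖x‖ ^ (N - 1))⁻¹ * ‖x‖ ^ N := by
        rw [e1]; field_simp

private theorem prd_gint (u : H1 N) (b : ℝ) :
    IntegrableOn (fun x => ‖gr u x‖) (Metric.closedBall (0 : E N) b) volume := by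
  have h : LocallyIntegrable (gr u) (volume : Measure (E N)) :=
    (gr_memLp u).locallyIntegrable (by norm_num)
  exact (h.integrableOn_isCompact (isCompact_closedBall (0 : E N) b)).norm

private theorem prd_Wint [Dim N] (u : H1 N) {a b : ℝ} (ha : 0 < a) :
    IntegrableOn (prd_W u) {x : E N | a ≤ ‖x‖ ∧ ‖x‖ ≤ b} volume := by
  have hms : MeasurableSet {x : E N | a ≤ ‖x‖ ∧ ‖x‖ ≤ b} :=
    ((isClosed_le continuous_const continuous_norm).inter
      (isClosed_le continuous_norm continuous_const)).measurableSet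
  have h1 : IntegrableOn (fun x => ‖gr u x‖ * (a ^ (N - 1))⁻¹) {x : E N | a ≤ ‖x‖ ∧ ‖x‖ ≤ b} volume := by
    refine Integrable.mul_const ?_ _
    refine (prd_gint u b).mono_set fun x hx => ?_
    rw [mem_closedBall_zero_iff]; exact hx.2
  refine Integrable.mono' h1 (prd_Wm u).aestronglyMeasurable ?_
  refine (ae_restrict_iff' hms).2 (Eventually.of_forall fun x hx => ?_)
  rw [Real.norm_eq_abs]
  refine (prd_Wle u x).trans ?_
  refine mul_le_mul_of_nonneg_left ?_ (norm_nonneg _)
  exact inv_anti₀ (by positivity) (pow_le_pow_left₀ ha.le hx.1 _)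

private noncomputable def prd_chi (t ρ : ℝ) : ℝ := (if ρ ≤ t then 1 else 0) - (if ρ ≤ 1 then 1 else 0)

private theorem prd_chi_le (t ρ : ℝ) : |prd_chi t ρ| ≤ 1 := by
  unfold prd_chi
  split_ifs <;> norm_num

private theorem prd_chi_zero {t ρ : ℝ} (h : ρ < min t 1 ∨ max t 1 < ρ) : prd_chi t ρ = 0 := by
  unfold prd_chi
  rcases h with h | h
  · rw [lt_min_iff] at h
    simp [h.1.le, h.2.le]
  · rw [max_lt_iff] at h
    simp [not_le.2 h.1, not_le.2 h.2]

private theorem prd_chi_meas : Measurable (fun p : ℝ × ℝ => prd_chi p.1 p.2) := by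
  unfold prd_chi
  refine Measurable.sub ?_ ?_
  · exact Measurable.ite (isClosed_le continuous_snd continuous_fst).measurableSet
      measurable_const measurable_const
  · exact Measurable.ite (isClosed_le continuous_snd continuous_const).measurableSet
      measurable_const measurable_const

private noncomputable def prd_G (u : H1 N) (t : ℝ) : ℝ := ∫ x, prd_W u x * prd_chi t ‖x‖

/-- the dominating function -/
private theorem prd_dom [Dim N] (u : H1 N) {a b : ℝ} (ha : 0 < a) :
    Integrable (Set.indicator {x : E N | min a 1 ≤ ‖x‖ ∧ ‖x‖ ≤ max b 1} (fun x => |prd_W u x|))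
      (volume : Measure (E N)) := by
  have hms : MeasurableSet {x : E N | min a 1 ≤ ‖x‖ ∧ ‖x‖ ≤ max b 1} :=
    ((isClosed_le continuous_const continuous_norm).inter
      (isClosed_le continuous_norm continuous_const)).measurableSet
  rw [integrable_indicator_iff hms]
  exact (prd_Wint u (lt_min ha one_pos)).abs

private theorem prd_dom_le (u : H1 N) {a b t : ℝ} (h1 : a ≤ t) (h2 : t ≤ b) (x : E N) :
    |prd_W u x * prd_chi t ‖x‖| ≤
      Set.indicator {x : E N | min a 1 ≤ ‖x‖ ∧ ‖x‖ ≤ max b 1} (fun x => |prd_W u x|) x := by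
  by_cases hx : x ∈ {x : E N | min a 1 ≤ ‖x‖ ∧ ‖x‖ ≤ max b 1}
  · rw [Set.indicator_of_mem hx, abs_mul]
    have := prd_chi_le t ‖x‖
    nlinarith [abs_nonneg (prd_W u x)]
  · rw [Set.indicator_of_notMem hx]
    have : prd_chi t ‖x‖ = 0 := by
      refine prd_chi_zero ?_
      simp only [Set.mem_ofPred_eq, not_and_or, not_le] at hx
      rcases hx with hx | hx
      · exact Or.inl (hx.trans_le (min_le_min_right 1 h1))
      · exact Or.inr ((max_le_max_right 1 h2).trans_lt hx)
    rw [this]; simp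

private theorem prd_int1 [Dim N] (u : H1 N) {t : ℝ} (ht : 0 < t) :
    Integrable (fun x => prd_W u x * prd_chi t ‖x‖) (volume : Measure (E N)) := by
  refine Integrable.mono' (prd_dom u (a := t) (b := t) ht) ?_
    (Eventually.of_forall fun x => prd_dom_le u le_rfl le_rfl x)
  refine Measurable.aestronglyMeasurable ?_
  refine (prd_Wm u).mul ?_
  exact prd_chi_meas.comp (measurable_const.prodMk measurable_norm)

private theorem prd_sphere [Dim N] (t : ℝ) : ∀ᵐ x : E N, ‖x‖ ≠ t := by
  have := pra_nontriv (N := N)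
  have h := Measure.addHaar_sphere (volume : Measure (E N)) 0 t
  rw [ae_iff]
  have e : {x : E N | ¬ ‖x‖ ≠ t} = Metric.sphere 0 t := by
    ext x; simp
  rw [e]; exact h

private theorem prd_Gcont [Dim N] (u : H1 N) : ContinuousOn (prd_G u) (Set.Ioi 0) := by
  intro t ht
  refine ContinuousAt.continuousWithinAt ?_
  have ht' : (0 : ℝ) < t := ht
  unfold prd_G
  refine continuousAt_of_dominated (bound := Set.indicator {x : E N | min (t / 2) 1 ≤ ‖x‖ ∧
    ‖x‖ ≤ max (t + 1) 1} (fun x => |prd_W u x|)) ?_ ?_ (prd_dom u (half_pos ht')) ?_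
  · refine Eventually.of_forall fun s => Measurable.aestronglyMeasurable ?_
    exact (prd_Wm u).mul (prd_chi_meas.comp (measurable_const.prodMk measurable_norm))
  · filter_upwards [Ioo_mem_nhds (half_lt_self ht') (lt_add_one t)] with s hs
    exact Eventually.of_forall fun x => prd_dom_le u hs.1.le hs.2.le x
  · filter_upwards [prd_sphere (N := N) t] with x hx
    refine ContinuousAt.mul continuousAt_const ?_
    have : (fun s => prd_chi s ‖x‖) =ᶠ[𝓝 t] fun _ => prd_chi t ‖x‖ := by
      rcases lt_or_gt_of_ne hx with h | h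
      · filter_upwards [lt_mem_nhds h] with s hs
        unfold prd_chi
        simp [hs.le, h.le]
      · filter_upwards [gt_mem_nhds h] with s hs
        unfold prd_chi
        simp [not_le.2 hs, not_le.2 h]
    exact continuousAt_const.congr this.symm

private theorem prd_Gdiff [Dim N] (u : H1 N) {r1 r2 : ℝ} (h1 : 0 < r1) (h2 : r1 ≤ r2) :
    prd_G u r2 - prd_G u r1 =
      ∫ x in {x : E N | r1 < ‖x‖ ∧ ‖x‖ < r2}, inner ℝ (gr u x) x / ‖x‖ ^ N := by
  have hms : MeasurableSet {x : E N | r1 < ‖x‖ ∧ ‖x‖ < r2} :=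
    ((isOpen_lt continuous_const continuous_norm).inter
      (isOpen_lt continuous_norm continuous_const)).measurableSet
  unfold prd_G
  rw [← integral_sub (prd_int1 u (h1.trans_le h2)) (prd_int1 u h1), ← integral_indicator hms]
  refine integral_congr_ae ?_
  filter_upwards [prd_sphere (N := N) r2] with x hx
  by_cases hx1 : x ∈ {x : E N | r1 < ‖x‖ ∧ ‖x‖ < r2}
  · rw [Set.indicator_of_mem hx1]
    have a1 : ‖x‖ ≤ r2 := hx1.2.le
    have a2 : ¬ ‖x‖ ≤ r1 := not_le.2 hx1.1
    unfold prd_chi prd_W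
    simp only [a1, a2, if_true, if_false]
    ring
  · rw [Set.indicator_of_notMem hx1]
    have : prd_chi r2 ‖x‖ = prd_chi r1 ‖x‖ := by
      unfold prd_chi
      simp only [Set.mem_ofPred_eq, not_and_or, not_lt] at hx1
      rcases hx1 with h | h
      · simp [h, h.trans h2]
      · have h' : r2 < ‖x‖ := lt_of_le_of_ne h (Ne.symm hx)
        simp [not_le.2 h', not_le.2 (h2.trans_lt h')]
    rw [this]; ring

private theorem prd_fub [Dim N] (u : H1 N) (s : ℝ → ℝ) (hs : ContDiff ℝ 1 s) {a b : ℝ} (ha : 0 < a)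
    (hab : ∀ r, r ∉ Set.Ioo a b → s r = 0) :
    ∫ x, prd_W u x * s ‖x‖ = - ∫ t in Set.Ioi (0 : ℝ), prd_G u t * deriv s t := by
  have hs0 := prb_zero_deriv hs hab
  have hsc : Continuous (deriv s) := hs.continuous_deriv (by norm_num)
  have hss : HasCompactSupport (deriv s) := by
    refine HasCompactSupport.of_support_subset_isCompact (isCompact_Icc (a := a) (b := b)) ?_
    intro r hr
    by_contra h
    exact hr (hs0 r fun h' => h ⟨h'.1.le, h'.2.le⟩)
  have hsi : Integrable (deriv s) volume := hsc.integrable_of_hasCompactSupport hss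
  -- the joint function
  have hH : Integrable (Function.uncurry fun (x : E N) (t : ℝ) =>
      prd_W u x * prd_chi t ‖x‖ * deriv s t) ((volume : Measure (E N)).prod volume) := by
    have h1 := (prd_dom u (a := a) (b := b) ha).mul_prod hsi.abs
    refine Integrable.mono' h1 ?_ (Eventually.of_forall fun p => ?_)
    · refine Measurable.aestronglyMeasurable ?_
      refine Measurable.mul (Measurable.mul ((prd_Wm u).comp measurable_fst) ?_)
        (hsc.measurable.comp measurable_snd)
      exact prd_chi_meas.comp (measurable_snd.prodMk (measurable_norm.comp measurable_fst))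
    · obtain ⟨x, t⟩ := p
      simp only [Function.uncurry, Real.norm_eq_abs]
      rw [abs_mul]
      by_cases ht : t ∈ Set.Ioo a b
      · exact mul_le_mul_of_nonneg_right (prd_dom_le u ht.1.le ht.2.le x) (abs_nonneg _)
      · rw [hs0 t ht]; simp
  have hswap := integral_integral_swap hH
  have hL : ∀ x : E N, ∫ t, prd_W u x * prd_chi t ‖x‖ * deriv s t = - (prd_W u x * s ‖x‖) := by
    intro x
    have e : (fun t => prd_W u x * prd_chi t ‖x‖ * deriv s t) = fun t =>
        prd_W u x * (Set.indicator (Set.Ici ‖x‖) (deriv s) t) -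
          prd_W u x * ((if ‖x‖ ≤ 1 then 1 else 0) * deriv s t) := by
      ext t
      unfold prd_chi
      by_cases h : ‖x‖ ≤ t
      · rw [Set.indicator_of_mem (by exact h)]
        simp only [h, if_true]; ring
      · rw [Set.indicator_of_notMem (by exact h)]
        simp only [h, if_false]; ring
    rw [e, integral_sub ((hsi.indicator measurableSet_Ici).const_mul _)
      ((hsi.const_mul _).const_mul _), integral_const_mul, integral_const_mul, integral_const_mul,
      integral_indicator measurableSet_Ici, integral_Ici_eq_integral_Ioi]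
    have hlim : Tendsto s atTop (𝓝 0) := by
      refine tendsto_const_nhds.congr' ?_
      filter_upwards [eventually_ge_atTop b] with r hr
      exact (hab r fun h => absurd h.2 (not_lt.2 hr)).symm
    have hlim' : Tendsto s atBot (𝓝 0) := by
      refine tendsto_const_nhds.congr' ?_
      filter_upwards [eventually_le_atBot a] with r hr
      exact (hab r fun h => absurd h.1 (not_lt.2 hr)).symm
    have hd : ∀ r, HasDerivAt s (deriv s r) r := fun r =>
      (hs.differentiable (by norm_num) r).hasDerivAt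
    rw [integral_Ioi_of_hasDerivAt_of_tendsto' (fun r _ => hd r) hsi.integrableOn hlim,
      integral_of_hasDerivAt_of_tendsto hd hsi hlim' hlim]
    ring
  have hR : ∀ t : ℝ, ∫ x, prd_W u x * prd_chi t ‖x‖ * deriv s t = prd_G u t * deriv s t := by
    intro t
    unfold prd_G
    rw [integral_mul_const]
  simp only [hL, hR] at hswap
  rw [integral_neg] at hswap
  have hrest : ∫ t in Set.Ioi (0 : ℝ), prd_G u t * deriv s t = ∫ t, prd_G u t * deriv s t := by
    refine setIntegral_eq_integral_of_forall_compl_eq_zero fun t ht => ?_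
    rw [hs0 t fun h => ht (ha.trans h.1)]
    simp
  rw [hrest]
  linarith

private theorem prd_Floc [Dim N] {u : H1 N} {F : ℝ → ℝ} (hF : fn u =ᵐ[volume] fun x => F ‖x‖) :
    LocallyIntegrableOn F (Set.Ioi 0) volume := by
  rw [locallyIntegrableOn_iff isOpen_Ioi.isLocallyClosed]
  intro K hK hKc
  rcases K.eq_empty_or_nonempty with rfl | hKn
  · simp
  obtain ⟨m, hmK, hm⟩ := hKc.exists_isLeast hKn
  obtain ⟨M, hMK, hM⟩ := hKc.exists_isGreatest hKn
  have hm0 : 0 < m := hK hmK
  have hsub : K ⊆ Set.Icc m M := fun x hx => ⟨hm hx, hM hx⟩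
  refine IntegrableOn.mono_set ?_ hsub
  have hms : MeasurableSet {x : E N | m ≤ ‖x‖ ∧ ‖x‖ ≤ M} :=
    ((isClosed_le continuous_const continuous_norm).inter
      (isClosed_le continuous_norm continuous_const)).measurableSet
  have h1 : Integrable (Set.indicator {x : E N | m ≤ ‖x‖ ∧ ‖x‖ ≤ M} (fn u))
      (volume : Measure (E N)) := by
    rw [integrable_indicator_iff hms]
    have h : LocallyIntegrable (fn u) (volume : Measure (E N)) :=
      (fn_memLp u).locallyIntegrable (by norm_num)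
    refine (h.integrableOn_isCompact (isCompact_closedBall (0 : E N) M)).mono_set fun x hx => ?_
    rw [mem_closedBall_zero_iff]; exact hx.2
  have h2 : Integrable (fun x : E N => (Set.Icc m M).indicator F ‖x‖) (volume : Measure (E N)) := by
    refine h1.congr ?_
    filter_upwards [hF] with x hx
    by_cases h : x ∈ {x : E N | m ≤ ‖x‖ ∧ ‖x‖ ≤ M}
    · rw [Set.indicator_of_mem h, Set.indicator_of_mem (by exact h), hx]
    · rw [Set.indicator_of_notMem h, Set.indicator_of_notMem (by exact h)]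
  have h3 := pra_integrable.1 h2
  have h4 : IntegrableOn (fun r : ℝ => r ^ (N - 1) * (Set.Icc m M).indicator F r) (Set.Icc m M) :=
    h3.mono_set fun x hx => hm0.trans_le hx.1
  have h5 := h4.mul_continuousOn (g' := fun r : ℝ => (r ^ (N - 1))⁻¹) (by
    refine ContinuousOn.inv₀ (continuousOn_pow _) fun x hx => ?_
    have : 0 < x := hm0.trans_le hx.1
    positivity) isCompact_Icc
  refine h5.congr_fun (fun r hr => ?_) measurableSet_Icc
  have hr0 : 0 < r := hm0.trans_le hr.1
  simp only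
  rw [Set.indicator_of_mem hr]
  field_simp

/-- module prd. Existence of the continuous profile.
Proof: `F0` from `Rad_prof0`; `G(r) = c_N^{-1} ∫_{1<|x|<r} ⟨∇u,x⟩/|x|^N` for `r ≥ 1` (minus the integral over `r < |x| < 1` for
`r < 1`): `G` is continuous on `(0,∞)` (absolute continuity of the integral, integrable away from `0`). Fubini (integration by
parts) for `s ∈ C¹_c(0,∞)`: `∫ ⟨∇u,x⟩|x|^{-N} s(|x|) = - c_N ∫ G s'` (write `s(|x|) = -∫_{|x|}^∞ s'`), and by `weak_radial` and
`int_radial` it is `- c_N ∫ F0 s'` . `du_bois`: `F0 = G + c` a.e. on `(0,∞)`; `F := G + c`. -/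
theorem exists_prof [Dim N] {u : H1 N} (hu : Rad u) : ∃ F : ℝ → ℝ, IsProf u F := by
  obtain ⟨F0, hF0m, hF0⟩ := Rad_prof0 hu
  have hc := cN_pos (N := N)
  have hFloc := prd_Floc hF0
  have hGloc : LocallyIntegrableOn (prd_G u) (Set.Ioi 0) volume :=
    (prd_Gcont u).locallyIntegrableOn measurableSet_Ioi
  have hGloc' : LocallyIntegrableOn (fun t => (cN N)⁻¹ * prd_G u t) (Set.Ioi 0) volume :=
    ((prd_Gcont u).const_smul (cN N)⁻¹).locallyIntegrableOn measurableSet_Ioi
  obtain ⟨c, hcc⟩ := du_bois (fun t => F0 t - (cN N)⁻¹ * prd_G u t) (hFloc.sub hGloc') (by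
    intro s a b hs ha hab
    have hs0 := prb_zero_deriv hs hab
    have hsc : Continuous (deriv s) := hs.continuous_deriv (by norm_num)
    have h1 := weak_radial u s hs ha hab
    have h2 := prd_fub u s hs ha hab
    have h3 : ∫ x, fn u x * (deriv s ‖x‖ / ‖x‖ ^ (N - 1)) =
        cN N * ∫ r in Set.Ioi (0 : ℝ), F0 r * deriv s r := by
      have e1 : ∫ x, fn u x * (deriv s ‖x‖ / ‖x‖ ^ (N - 1)) =
          ∫ x : E N, (fun r => F0 r * (deriv s r / r ^ (N - 1))) ‖x‖ := by
        refine integral_congr_ae ?_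
        filter_upwards [hF0] with x hx
        rw [hx]
      rw [e1, int_radial (N := N) (fun r => F0 r * (deriv s r / r ^ (N - 1)))]
      congr 1
      refine setIntegral_congr_fun measurableSet_Ioi fun r hr => ?_
      have hr0 : (0 : ℝ) < r := hr
      field_simp
    have i1 := prc_int hFloc hsc ha hs0
    have i2 := prc_int hGloc hsc ha hs0
    have e : (fun r => (F0 r - (cN N)⁻¹ * prd_G u r) * deriv s r) = fun r =>
        F0 r * deriv s r - (cN N)⁻¹ * (prd_G u r * deriv s r) := by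
      ext r; ring
    rw [e, integral_sub i1 (i2.const_mul _), integral_const_mul]
    have h4 : ∫ x, prd_W u x * s ‖x‖ = - (cN N * ∫ r in Set.Ioi (0 : ℝ), F0 r * deriv s r) := by
      rw [← h3]; exact h1
    have h5 : ∫ t in Set.Ioi (0 : ℝ), prd_G u t * deriv s t =
        cN N * ∫ r in Set.Ioi (0 : ℝ), F0 r * deriv s r := by
      rw [h2] at h4; linarith
    rw [h5]
    field_simp
    ring)
  refine ⟨fun r => (cN N)⁻¹ * prd_G u r + c, ?_, ?_, ?_⟩
  · exact ((prd_Gcont u).const_smul (cN N)⁻¹).add continuousOn_const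
  · filter_upwards [hF0, prd_ae (N := N) hcc] with x hx h1
    rw [hx]; linarith
  · intro r1 r2 h1 h2
    rw [← prd_Gdiff u h1 h2]
    field_simp
    ring

private theorem pre_dense [Dim N] {P : ℝ → Prop} (h : ∀ᵐ x : E N, P ‖x‖) {a b : ℝ} (ha : 0 ≤ a)
    (hab : a < b) : ∃ r ∈ Set.Ioo a b, P r := by
  have := pra_nontriv (N := N)
  by_contra hcon
  push Not at hcon
  have hopen : IsOpen {x : E N | a < ‖x‖ ∧ ‖x‖ < b} :=
    (isOpen_lt continuous_const continuous_norm).inter (isOpen_lt continuous_norm continuous_const)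
  obtain ⟨x, hx⟩ := exists_norm_eq (E N) (show 0 ≤ (a + b) / 2 by linarith)
  have hne : {x : E N | a < ‖x‖ ∧ ‖x‖ < b}.Nonempty := ⟨x, by
    constructor <;> rw [hx] <;> linarith⟩
  have hpos := hopen.measure_pos (volume : Measure (E N)) hne
  have hsub : {x : E N | a < ‖x‖ ∧ ‖x‖ < b} ⊆ {x : E N | ¬ P ‖x‖} := fun x hx => hcon _ hx
  have hz : volume {x : E N | ¬ P ‖x‖} = 0 := ae_iff.1 h
  exact absurd (measure_mono_null hsub hz) hpos.ne'

private theorem pre_seq [Dim N] {P : ℝ → Prop} (h : ∀ᵐ x : E N, P ‖x‖) {r : ℝ} (hr : 0 ≤ r) :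
    ∃ p : ℕ → ℝ, Tendsto p atTop (𝓝 r) ∧ (∀ n, r < p n) ∧ ∀ n, P (p n) := by
  have h1 : ∀ n : ℕ, ∃ s ∈ Set.Ioo r (r + 1 / ((n : ℝ) + 1)), P s := fun n =>
    pre_dense h hr (by
      have : (0 : ℝ) < 1 / ((n : ℝ) + 1) := by positivity
      linarith)
  choose p hp1 hp2 using h1
  refine ⟨p, ?_, fun n => (hp1 n).1, hp2⟩
  have h2 : Tendsto (fun n : ℕ => r + 1 / ((n : ℝ) + 1)) atTop (𝓝 (r + 0)) :=
    tendsto_const_nhds.add tendsto_one_div_add_atTop_nhds_zero_nat
  rw [add_zero] at h2
  exact tendsto_of_tendsto_of_tendsto_of_le_of_le tendsto_const_nhds h2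
    (fun n => (hp1 n).1.le) (fun n => (hp1 n).2.le)

private theorem pre_cont {F : ℝ → ℝ} (hF : ContinuousOn F (Set.Ioi 0)) {r : ℝ} (hr : 0 < r) :
    ContinuousAt F r := hF.continuousAt (Ioi_mem_nhds hr)

/-- module pre. The profile is unique, and inherits signs and monotonicity. -/
theorem prof_unique [Dim N] {u : H1 N} {F G : ℝ → ℝ} (hF : IsProf u F) (hG : IsProf u G) :
    ∀ r, 0 < r → F r = G r := by
  intro r hr
  have h : ∀ᵐ x : E N, F ‖x‖ = G ‖x‖ := by
    filter_upwards [hF.2.1, hG.2.1] with x h1 h2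
    rw [← h1, ← h2]
  obtain ⟨p, hp1, -, hp3⟩ := pre_seq (P := fun r => F r = G r) h hr.le
  have h1 := (pre_cont hF.1 hr).tendsto.comp hp1
  have h2 := (pre_cont hG.1 hr).tendsto.comp hp1
  have e : F ∘ p = G ∘ p := by ext n; exact hp3 n
  rw [e] at h1
  exact tendsto_nhds_unique h1 h2

/-- module pre (two continuous functions which satisfy an inequality for almost all norms satisfy it everywhere:
a.e. `x` in `ℝ^N` means a.e. `r` in `(0,∞)`) -/
theorem prof_anti [Dim N] {u : H1 N} {F : ℝ → ℝ} (hF : IsProf u F) (hu : RD u) :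
    AntitoneOn F (Set.Ioi 0) ∧ ∀ r, 0 < r → 0 ≤ F r := by
  obtain ⟨f, hf1, hf2, hf3⟩ := RD_prof hu
  have h : ∀ᵐ x : E N, F ‖x‖ = f ‖x‖ := by
    filter_upwards [hF.2.1, hf3] with x h1 h2
    rw [← h1, ← h2]
  constructor
  · intro r1 h1 r2 h2 h12
    rcases h12.eq_or_lt with rfl | h12
    · exact le_rfl
    have h1' : (0 : ℝ) < r1 := h1
    have h2' : (0 : ℝ) < r2 := h2
    obtain ⟨p, hp1, hp2, hp3⟩ := pre_seq (P := fun r => F r = f r) h h1'.le
    obtain ⟨q, hq1, hq2, hq3⟩ := pre_seq (P := fun r => F r = f r) h h2'.le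
    have a1 := (pre_cont hF.1 h1').tendsto.comp hp1
    have a2 := (pre_cont hF.1 h2').tendsto.comp hq1
    refine le_of_tendsto_of_tendsto a2 a1 ?_
    filter_upwards [hp1.eventually (gt_mem_nhds h12)] with n hn
    simp only [Function.comp]
    rw [hp3 n, hq3 n]
    refine hf1 (h1'.trans (hp2 n)) (h2'.trans (hq2 n)) ?_
    exact (hn.trans (hq2 n)).le
  · intro r hr
    obtain ⟨p, hp1, hp2, hp3⟩ := pre_seq (P := fun r => F r = f r) h hr.le
    have a1 := (pre_cont hF.1 hr).tendsto.comp hp1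
    refine ge_of_tendsto' a1 fun n => ?_
    simp only [Function.comp]
    rw [hp3 n]
    exact hf2 _

/-- module pre -/
theorem prof_zero [Dim N] {u : H1 N} {F : ℝ → ℝ} (hF : IsProf u F) (h : ∀ r, 0 < r → F r = 0) :
    u = 0 := by
  refine H1_ext ?_
  filter_upwards [hF.2.1, fn_zero (N := N), prd_sphere (N := N) 0] with x h1 h2 h3
  rw [h1, h2]
  exact h _ (lt_of_le_of_ne (norm_nonneg x) (Ne.symm h3))

/-- module pre: if the function vanishes a.e. outside the ball of radius `z` then `F r = 0` for `r ≥ z` -/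
theorem prof_out [Dim N] {u : H1 N} {F : ℝ → ℝ} (hF : IsProf u F) {z : ℝ} (hz : 0 < z)
    (h : ∀ᵐ x : E N, z < ‖x‖ → fn u x = 0) : ∀ r, z ≤ r → F r = 0 := by
  intro r hr
  have hr0 : 0 < r := hz.trans_le hr
  have h' : ∀ᵐ x : E N, z < ‖x‖ → F ‖x‖ = 0 := by
    filter_upwards [hF.2.1, h] with x h1 h2 h3
    rw [← h1]; exact h2 h3
  obtain ⟨p, hp1, hp2, hp3⟩ := pre_seq (P := fun r => z < r → F r = 0) h' hr0.le
  have a1 := (pre_cont hF.1 hr0).tendsto.comp hp1
  have e : F ∘ p = fun _ => 0 := by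
    ext n; exact hp3 n (hr.trans_lt (hp2 n))
  rw [e] at a1
  exact tendsto_nhds_unique a1 tendsto_const_nhds |>.symm ▸ rfl

private theorem pre_cs {μ : Measure (E N)} {f g : E N → ℝ} (hf : Integrable (fun x => f x ^ 2) μ)
    (hg : Integrable (fun x => g x ^ 2) μ) (hfg : Integrable (fun x => f x * g x) μ) :
    (∫ x, f x * g x ∂μ) ^ 2 ≤ (∫ x, f x ^ 2 ∂μ) * ∫ x, g x ^ 2 ∂μ := by
  have key : ∀ t : ℝ, 0 ≤ (∫ x, f x ^ 2 ∂μ) * (t * t) + (2 * ∫ x, f x * g x ∂μ) * t +
      ∫ x, g x ^ 2 ∂μ := by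
    intro t
    have h1 : 0 ≤ ∫ x, (t * f x + g x) ^ 2 ∂μ := integral_nonneg fun x => sq_nonneg _
    have h2 : ∫ x, (t * f x + g x) ^ 2 ∂μ =
        (∫ x, f x ^ 2 ∂μ) * (t * t) + (2 * ∫ x, f x * g x ∂μ) * t + ∫ x, g x ^ 2 ∂μ := by
      have e : (fun x => (t * f x + g x) ^ 2) =
          fun x => (t * t) * f x ^ 2 + (2 * t) * (f x * g x) + g x ^ 2 := by
        ext x; ring
      have a1 : Integrable (fun x => (t * t) * f x ^ 2) μ := hf.const_mul _
      have a2 : Integrable (fun x => (2 * t) * (f x * g x)) μ := hfg.const_mul _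
      have a3 : Integrable (fun x => (t * t) * f x ^ 2 + (2 * t) * (f x * g x)) μ := a1.add a2
      rw [e, integral_add a3 hg, integral_add a1 a2, integral_const_mul, integral_const_mul]
      ring
    rw [← h2]; exact h1
  have := discrim_le_zero key
  unfold discrim at this
  nlinarith

private theorem pre_ann (r1 r2 : ℝ) : MeasurableSet {x : E N | r1 < ‖x‖ ∧ ‖x‖ < r2} :=
  ((isOpen_lt continuous_const continuous_norm).inter
      (isOpen_lt continuous_norm continuous_const)).measurableSet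

private theorem pre_gr2 (u : H1 N) : Integrable (fun x => ‖gr u x‖ ^ 2) (volume : Measure (E N)) := by
  have h := (gr_memLp u).integrable_norm_pow (by norm_num)
  exact h

private theorem pre_rho [Dim N] {r1 r2 : ℝ} (h1 : 0 < r1) (h2 : r1 ≤ r2) :
    Integrable (fun x : E N => ((‖x‖ ^ (N - 1))⁻¹) ^ 2)
      (volume.restrict {x : E N | r1 < ‖x‖ ∧ ‖x‖ < r2}) ∧
    ∫ x in {x : E N | r1 < ‖x‖ ∧ ‖x‖ < r2}, ((‖x‖ ^ (N - 1))⁻¹) ^ 2 ≤
      cN N * ((r1 ^ (N - 1))⁻¹ * (r2 - r1)) := by
  set f : ℝ → ℝ := (Set.Ioo r1 r2).indicator fun r => ((r ^ (N - 1))⁻¹) ^ 2 with hf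
  have hc := cN_pos (N := N)
  have hle : ∀ r : ℝ, r ^ (N - 1) * f r ≤ (Set.Ioo r1 r2).indicator (fun _ => (r1 ^ (N - 1))⁻¹) r := by
    intro r
    by_cases hr : r ∈ Set.Ioo r1 r2
    · have hr0 : 0 < r := h1.trans hr.1
      rw [hf, Set.indicator_of_mem hr, Set.indicator_of_mem hr]
      have e : r ^ (N - 1) * ((r ^ (N - 1))⁻¹) ^ 2 = (r ^ (N - 1))⁻¹ := by
        field_simp
      rw [e]
      exact inv_anti₀ (by positivity) (pow_le_pow_left₀ h1.le hr.1.le _)
    · rw [hf, Set.indicator_of_notMem hr, Set.indicator_of_notMem hr]; simp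
  have hnn : ∀ r ∈ Set.Ioi (0 : ℝ), 0 ≤ r ^ (N - 1) * f r := by
    intro r hr
    have hr0 : (0 : ℝ) < r := hr
    have : 0 ≤ f r := Set.indicator_nonneg (fun _ _ => by positivity) _
    positivity
  have hcI : Integrable ((Set.Ioo r1 r2).indicator (fun _ => (r1 ^ (N - 1))⁻¹)) (volume : Measure ℝ) := by
    rw [integrable_indicator_iff measurableSet_Ioo]
    exact integrableOn_const (by simp)
  have hfm : Measurable f := by
    refine Measurable.indicator ?_ measurableSet_Ioo
    exact (((measurable_id.pow_const _).inv).pow_const 2)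
  have hI : IntegrableOn (fun r : ℝ => r ^ (N - 1) * f r) (Set.Ioi 0) := by
    refine Integrable.mono' hcI.integrableOn
      ((measurable_id.pow_const _).mul hfm).aestronglyMeasurable ?_
    refine (ae_restrict_iff' measurableSet_Ioi).2 (Eventually.of_forall fun r hr => ?_)
    rw [Real.norm_eq_abs, abs_of_nonneg (hnn r hr)]
    exact hle r
  have hE := pra_integrable.2 hI
  have e : (fun x : E N => f ‖x‖) = Set.indicator {x : E N | r1 < ‖x‖ ∧ ‖x‖ < r2}
      (fun x => ((‖x‖ ^ (N - 1))⁻¹) ^ 2) := by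
    ext x
    rfl
  constructor
  · rw [e, integrable_indicator_iff (pre_ann r1 r2)] at hE
    exact hE
  · rw [← integral_indicator (pre_ann r1 r2), ← e, int_radial]
    refine mul_le_mul_of_nonneg_left ?_ hc.le
    have h3 : ∫ r in Set.Ioi (0 : ℝ), r ^ (N - 1) * f r ≤
        ∫ r in Set.Ioi (0 : ℝ), (Set.Ioo r1 r2).indicator (fun _ => (r1 ^ (N - 1))⁻¹) r := by
      refine setIntegral_mono_on hI hcI.integrableOn measurableSet_Ioi fun r _ => hle r
    refine h3.trans ?_
    have h4 : ∫ r in Set.Ioi (0 : ℝ), (Set.Ioo r1 r2).indicator (fun _ => (r1 ^ (N - 1))⁻¹) r =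
        (r1 ^ (N - 1))⁻¹ * (r2 - r1) := by
      rw [setIntegral_indicator measurableSet_Ioo]
      have : Set.Ioi (0 : ℝ) ∩ Set.Ioo r1 r2 = Set.Ioo r1 r2 := by
        ext x; simp only [Set.mem_inter_iff, Set.mem_Ioi, Set.mem_Ioo]
        constructor
        · exact fun h => h.2
        · exact fun h => ⟨h1.trans h.1, h⟩
      rw [this, setIntegral_const]
      simp only [Measure.real, Real.volume_Ioo, smul_eq_mul]
      rw [ENNReal.toReal_ofReal (by linarith)]
      ring
    rw [h4]

/-- module pre. Hoelder estimate: `c_N |F r2 - F r1| ≤ (∫_{r1<|x|<r2} |∇u|²)^{1/2} (∫_{r1<|x|<r2} |x|^{2-2N})^{1/2}`, the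
last integral is `≤ c_N r1^{1-N} (r2 - r1)`. -/
theorem prof_holder [Dim N] {u : H1 N} {F : ℝ → ℝ} (hF : IsProf u F) {r1 r2 : ℝ} (h1 : 0 < r1)
    (h2 : r1 ≤ r2) :
    cN N * (F r2 - F r1) ^ 2 ≤ (r1 ^ (N - 1))⁻¹ * (r2 - r1) *
      ∫ x in {x : E N | r1 < ‖x‖ ∧ ‖x‖ < r2}, ‖gr u x‖ ^ 2 := by
  have hc := cN_pos (N := N)
  obtain ⟨hr1, hr2⟩ := pre_rho (N := N) h1 h2
  set A : Set (E N) := {x : E N | r1 < ‖x‖ ∧ ‖x‖ < r2} with hA
  have hg2 : Integrable (fun x => ‖gr u x‖ ^ 2) (volume.restrict A) := (pre_gr2 u).integrableOn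
  have hgr : IntegrableOn (fun x => ‖gr u x‖) A volume := by
    refine (prd_gint u r2).mono_set fun x hx => ?_
    rw [mem_closedBall_zero_iff]; exact hx.2.le
  have hgρ : Integrable (fun x => ‖gr u x‖ * (‖x‖ ^ (N - 1))⁻¹) (volume.restrict A) := by
    refine Integrable.mono' (hgr.mul_const (r1 ^ (N - 1))⁻¹) ?_ ?_
    · have hm : Measurable (gr u) := (Lp.stronglyMeasurable u.val.snd).measurable
      exact (hm.norm.mul ((measurable_norm.pow_const _).inv)).aestronglyMeasurable
    · refine (ae_restrict_iff' (pre_ann r1 r2)).2 (Eventually.of_forall fun x hx => ?_)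
      have hx0 : 0 < ‖x‖ := h1.trans hx.1
      rw [Real.norm_eq_abs, abs_of_nonneg (by positivity)]
      refine mul_le_mul_of_nonneg_left ?_ (norm_nonneg _)
      exact inv_anti₀ (by positivity) (pow_le_pow_left₀ h1.le hx.1.le _)
  have hcs := pre_cs hg2 hr1 hgρ
  have h3 : |∫ x in A, inner ℝ (gr u x) x / ‖x‖ ^ N| ≤ ∫ x in A, ‖gr u x‖ * (‖x‖ ^ (N - 1))⁻¹ := by
    rw [← Real.norm_eq_abs]
    refine norm_integral_le_of_norm_le hgρ (Eventually.of_forall fun x => ?_)
    rw [Real.norm_eq_abs]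
    exact prd_Wle u x
  have h4 := hF.2.2 r1 r2 h1 h2
  have h5 : (cN N * (F r2 - F r1)) ^ 2 ≤
      (∫ x in A, ‖gr u x‖ ^ 2) * (cN N * ((r1 ^ (N - 1))⁻¹ * (r2 - r1))) := by
    rw [h4]
    have hX : 0 ≤ ∫ x in A, ‖gr u x‖ ^ 2 := integral_nonneg fun x => by positivity
    calc (∫ x in A, inner ℝ (gr u x) x / ‖x‖ ^ N) ^ 2
        = |∫ x in A, inner ℝ (gr u x) x / ‖x‖ ^ N| ^ 2 := (sq_abs _).symm
      _ ≤ (∫ x in A, ‖gr u x‖ * (‖x‖ ^ (N - 1))⁻¹) ^ 2 :=
          pow_le_pow_left₀ (abs_nonneg _) h3 2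
      _ ≤ (∫ x in A, ‖gr u x‖ ^ 2) * ∫ x in A, ((‖x‖ ^ (N - 1))⁻¹) ^ 2 := hcs
      _ ≤ _ := mul_le_mul_of_nonneg_left hr2 hX
  have h6 : cN N * (cN N * (F r2 - F r1) ^ 2) ≤ cN N * ((r1 ^ (N - 1))⁻¹ * (r2 - r1) *
      ∫ x in A, ‖gr u x‖ ^ 2) := by
    calc cN N * (cN N * (F r2 - F r1) ^ 2) = (cN N * (F r2 - F r1)) ^ 2 := by ring
      _ ≤ _ := h5
      _ = _ := by ring
  exact le_of_mul_le_mul_left h6 hc

private theorem prf_dst {t : ℝ} (h : t ≤ 0 ∨ 1 ≤ t) : deriv Real.smoothTransition t = 0 := by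
  rcases h with h | h
  · refine IsLocalMin.deriv_eq_zero ?_
    refine Eventually.of_forall fun s => ?_
    rw [Real.smoothTransition.zero_of_nonpos h]
    exact Real.smoothTransition.nonneg s
  · refine IsLocalMax.deriv_eq_zero ?_
    refine Eventually.of_forall fun s => ?_
    rw [Real.smoothTransition.one_of_one_le h]
    exact Real.smoothTransition.le_one s

private theorem prf_bound : ∃ M : ℝ, 1 ≤ M ∧ ∀ t, |deriv Real.smoothTransition t| ≤ M := by
  have hc : Continuous (deriv Real.smoothTransition) :=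
    (Real.smoothTransition.contDiff (n := 1)).continuous_deriv (by norm_num)
  obtain ⟨C, hC⟩ := (isCompact_Icc (a := (0 : ℝ)) (b := 1)).exists_bound_of_continuousOn hc.continuousOn
  refine ⟨max 1 C, le_max_left _ _, fun t => ?_⟩
  by_cases ht : t ∈ Set.Icc (0 : ℝ) 1
  · exact (hC t ht).trans (le_max_right _ _)
  · have : deriv Real.smoothTransition t = 0 := by
      refine prf_dst ?_
      simp only [Set.mem_Icc, not_and_or, not_le] at ht
      rcases ht with h | h
      · exact Or.inl h.le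
      · exact Or.inr h.le
    rw [this, abs_zero]
    exact zero_le_one.trans (le_max_left _ _)

private noncomputable def prf_k (z ν r : ℝ) : ℝ := Real.smoothTransition (ν * (z - r) - 1)

private theorem prf_kC (z ν : ℝ) : ContDiff ℝ 1 (prf_k z ν) := by
  unfold prf_k
  refine (Real.smoothTransition.contDiff (n := 1)).comp ?_
  exact (contDiff_const.mul (contDiff_const.sub contDiff_id)).sub contDiff_const

private theorem prf_kd (z ν r : ℝ) :
    deriv (prf_k z ν) r = - ν * deriv Real.smoothTransition (ν * (z - r) - 1) := by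
  have h1 : HasDerivAt (fun r : ℝ => ν * (z - r) - 1) (-ν) r := by
    have := (((hasDerivAt_id r).const_sub z).const_mul ν).sub_const 1
    refine this.congr_deriv ?_
    ring
  have h2 : HasDerivAt Real.smoothTransition (deriv Real.smoothTransition (ν * (z - r) - 1))
      (ν * (z - r) - 1) :=
    ((Real.smoothTransition.contDiff (n := 1)).differentiable (by norm_num) _).hasDerivAt
  have h3 := h2.comp r h1
  have h4 : HasDerivAt (prf_k z ν) _ r := h3
  rw [h4.deriv]; ring

private theorem prf_k_one {z ν r : ℝ} (h : 2 ≤ ν * (z - r)) : prf_k z ν r = 1 :=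
  Real.smoothTransition.one_of_one_le (by linarith)

private theorem prf_k_zero {z ν r : ℝ} (h : ν * (z - r) ≤ 1) : prf_k z ν r = 0 :=
  Real.smoothTransition.zero_of_nonpos (by linarith)

private theorem prf_k_le (z ν r : ℝ) : |prf_k z ν r| ≤ 1 := by
  unfold prf_k
  rw [abs_of_nonneg (Real.smoothTransition.nonneg _)]
  exact Real.smoothTransition.le_one _

private theorem prf_k_sub (z ν r : ℝ) (_h : 0 ≤ ν) :
    |prf_k z ν r - (if r < z then 1 else 0)| ≤ 1 := by
  unfold prf_k
  have h1 := Real.smoothTransition.nonneg (ν * (z - r) - 1)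
  have h2 := Real.smoothTransition.le_one (ν * (z - r) - 1)
  split_ifs with hr
  · rw [abs_le]; constructor <;> linarith
  · rw [abs_le]; constructor <;> linarith

private theorem prf_gradB {z ν : ℝ} (hz : 0 < z) (hν : 4 / z ≤ ν) (x : E N) :
    gradient (fun x : E N => prf_k z ν ‖x‖) x = (deriv (prf_k z ν) ‖x‖ / ‖x‖) • x := by
  refine prb_gradient (prf_kC z ν) (half_pos hz) (c := 1) (fun r hr => prf_k_one ?_) x
  have h1 : 4 ≤ ν * z := by
    rw [div_le_iff₀ hz] at hν; exact hν
  have hν0 : 0 < ν := lt_of_lt_of_le (by positivity) hν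
  nlinarith

private theorem prf_CB {z ν : ℝ} (hz : 0 < z) (hν : 4 / z ≤ ν) :
    ContDiff ℝ 1 (fun x : E N => prf_k z ν ‖x‖) := by
  refine prb_contDiff (prf_kC z ν) (half_pos hz) (c := 1) (fun r hr => prf_k_one ?_)
  have h1 : 4 ≤ ν * z := by
    rw [div_le_iff₀ hz] at hν; exact hν
  have hν0 : 0 < ν := lt_of_lt_of_le (by positivity) hν
  nlinarith

private theorem prf_gn {z ν : ℝ} (hz : 0 < z) (hν : 4 / z ≤ ν) (x : E N) :
    ‖gradient (fun x : E N => prf_k z ν ‖x‖) x‖ ≤ |deriv (prf_k z ν) ‖x‖| := by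
  rw [prf_gradB hz hν, norm_smul, Real.norm_eq_abs, abs_div, abs_norm]
  by_cases hx : ‖x‖ = 0
  · rw [hx]; simp
  · rw [div_mul_cancel₀ _ hx]

private theorem prf_lim (z : ℝ) {ν : ℕ → ℝ} (hν : Tendsto ν atTop atTop) (r : ℝ) :
    Tendsto (fun n => prf_k z (ν n) r - (if r < z then 1 else 0)) atTop (𝓝 0) := by
  refine tendsto_const_nhds.congr' ?_
  by_cases hr : r < z
  · have h1 : 0 < z - r := sub_pos.2 hr
    filter_upwards [hν.eventually_ge_atTop (2 / (z - r))] with n hn
    rw [div_le_iff₀ h1] at hn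
    rw [prf_k_one hn]
    simp [hr]
  · filter_upwards [hν.eventually_ge_atTop 0] with n hn
    have h1 : z - r ≤ 0 := by linarith [not_lt.1 hr]
    rw [prf_k_zero (by nlinarith)]
    simp [hr]

/-- the energy in the thin annulus -/
private noncomputable def prf_X (u : H1 N) (z ν : ℝ) : ℝ :=
  ∫ x in {x : E N | z - 2 / ν < ‖x‖ ∧ ‖x‖ < z}, ‖gr u x‖ ^ 2

private theorem prf_Xlim (u : H1 N) (z : ℝ) {ν : ℕ → ℝ} (hν : Tendsto ν atTop atTop) :
    Tendsto (fun n => prf_X u z (ν n)) atTop (𝓝 0) := by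
  have h : Tendsto (fun n => ∫ x, Set.indicator {x : E N | z - 2 / (ν n) < ‖x‖ ∧ ‖x‖ < z}
      (fun x => ‖gr u x‖ ^ 2) x) atTop (𝓝 (∫ x : E N, (0 : ℝ))) := by
    refine tendsto_integral_of_dominated_convergence (fun x => ‖gr u x‖ ^ 2) ?_ (pre_gr2 u) ?_ ?_
    · intro n
      exact ((pre_gr2 u).1.indicator (pre_ann _ _))
    · intro n
      refine Eventually.of_forall fun x => ?_
      rw [Real.norm_eq_abs]
      by_cases hx : x ∈ {x : E N | z - 2 / (ν n) < ‖x‖ ∧ ‖x‖ < z}
      · rw [Set.indicator_of_mem hx, abs_of_nonneg (by positivity)]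
      · rw [Set.indicator_of_notMem hx, abs_zero]; positivity
    · refine Eventually.of_forall fun x => ?_
      refine tendsto_const_nhds.congr' ?_
      by_cases hx : ‖x‖ < z
      · have h1 : 0 < z - ‖x‖ := sub_pos.2 hx
        filter_upwards [hν.eventually_ge_atTop (2 / (z - ‖x‖)), hν.eventually_gt_atTop 0] with n hn hn0
        rw [Set.indicator_of_notMem]
        intro hmem
        have h2 : z - 2 / ν n < ‖x‖ := hmem.1
        rw [div_le_iff₀ h1] at hn
        have h3 : 2 / ν n ≤ z - ‖x‖ := by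
          rw [div_le_iff₀ hn0]; linarith
        linarith
      · refine Eventually.of_forall fun n => ?_
        have h1 : x ∉ {x : E N | z - 2 / ν n < ‖x‖ ∧ ‖x‖ < z} := fun hmem => hx hmem.2
        exact (Set.indicator_of_notMem h1 _).symm
  simp only [integral_zero] at h
  refine h.congr fun n => ?_
  unfold prf_X
  rw [integral_indicator (pre_ann _ _)]

private theorem prf_est [Dim N] {u : H1 N} {F : ℝ → ℝ} (hF : IsProf u F) {z ν M : ℝ} (hz : 0 < z)
    (h0 : F z = 0) (hν : 4 / z ≤ ν) (hM : ∀ t, |deriv Real.smoothTransition t| ≤ M) :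
    ∫ x : E N, F ‖x‖ ^ 2 * deriv (prf_k z ν) ‖x‖ ^ 2 ≤ 4 * M ^ 2 * prf_X u z ν := by
  have hc := cN_pos (N := N)
  have hν0 : 0 < ν := lt_of_lt_of_le (by positivity) hν
  have hνz : 4 ≤ ν * z := by
    rw [div_le_iff₀ hz] at hν; exact hν
  have h2z : 2 / ν ≤ z / 2 := by
    rw [div_le_iff₀ hν0]; linarith
  have hX : 0 ≤ prf_X u z ν := integral_nonneg fun x => by positivity
  rw [int_radial (N := N) (fun r => F r ^ 2 * deriv (prf_k z ν) r ^ 2)]
  set K : ℝ := (cN N)⁻¹ * (2 / ν) * prf_X u z ν * (ν * M) ^ 2 with hK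
  have hcI : Integrable ((Set.Ioo (z - 2 / ν) z).indicator (fun _ => K)) (volume : Measure ℝ) := by
    rw [integrable_indicator_iff measurableSet_Ioo]
    exact integrableOn_const (by simp)
  have hle : ∀ r ∈ Set.Ioi (0 : ℝ), r ^ (N - 1) * (F r ^ 2 * deriv (prf_k z ν) r ^ 2) ≤
      (Set.Ioo (z - 2 / ν) z).indicator (fun _ => K) r := by
    intro r hr
    have hr0 : (0 : ℝ) < r := hr
    by_cases hri : r ∈ Set.Ioo (z - 2 / ν) z
    · rw [Set.indicator_of_mem hri]
      have h1 := prof_holder hF hr0 hri.2.le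
      rw [h0] at h1
      have h2 : ∫ x in {x : E N | r < ‖x‖ ∧ ‖x‖ < z}, ‖gr u x‖ ^ 2 ≤ prf_X u z ν := by
        unfold prf_X
        refine setIntegral_mono_set (pre_gr2 u).integrableOn
          (Eventually.of_forall fun x => by positivity) ?_
        refine Eventually.of_forall fun x hx => ?_
        exact ⟨hri.1.trans hx.1, hx.2⟩
      have h2' : 0 ≤ ∫ x in {x : E N | r < ‖x‖ ∧ ‖x‖ < z}, ‖gr u x‖ ^ 2 :=
        integral_nonneg fun x => by positivity
      have h3 : cN N * (F r) ^ 2 ≤ (r ^ (N - 1))⁻¹ * ((2 / ν) * prf_X u z ν) := by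
        have h4 : (z - r) * ∫ x in {x : E N | r < ‖x‖ ∧ ‖x‖ < z}, ‖gr u x‖ ^ 2 ≤
            (2 / ν) * prf_X u z ν := by
          refine mul_le_mul ?_ h2 h2' (by positivity)
          linarith [hri.1]
        calc cN N * (F r) ^ 2 = cN N * (0 - F r) ^ 2 := by ring
          _ ≤ _ := h1
          _ = (r ^ (N - 1))⁻¹ * ((z - r) * ∫ x in {x : E N | r < ‖x‖ ∧ ‖x‖ < z}, ‖gr u x‖ ^ 2) := by
              ring
          _ ≤ _ := mul_le_mul_of_nonneg_left h4 (by positivity)
      have h5 : r ^ (N - 1) * F r ^ 2 ≤ (cN N)⁻¹ * ((2 / ν) * prf_X u z ν) := by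
        have hrp : 0 < r ^ (N - 1) := by positivity
        have h6 := mul_le_mul_of_nonneg_left h3 (show 0 ≤ (cN N)⁻¹ * r ^ (N - 1) by positivity)
        calc r ^ (N - 1) * F r ^ 2 = (cN N)⁻¹ * r ^ (N - 1) * (cN N * (F r) ^ 2) := by
              field_simp
          _ ≤ _ := h6
          _ = _ := by field_simp
      have h7 : deriv (prf_k z ν) r ^ 2 ≤ (ν * M) ^ 2 := by
        rw [← sq_abs]
        refine pow_le_pow_left₀ (abs_nonneg _) ?_ 2
        rw [prf_kd, abs_mul, abs_neg, abs_of_pos hν0]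
        exact mul_le_mul_of_nonneg_left (hM _) hν0.le
      calc r ^ (N - 1) * (F r ^ 2 * deriv (prf_k z ν) r ^ 2)
          = (r ^ (N - 1) * F r ^ 2) * deriv (prf_k z ν) r ^ 2 := by ring
        _ ≤ ((cN N)⁻¹ * ((2 / ν) * prf_X u z ν)) * (ν * M) ^ 2 :=
            mul_le_mul h5 h7 (by positivity) (by positivity)
        _ = K := by rw [hK]; ring
    · rw [Set.indicator_of_notMem hri]
      have h1 : deriv (prf_k z ν) r = 0 := by
        rw [prf_kd, prf_dst, mul_zero]
        simp only [Set.mem_Ioo, not_and_or, not_lt] at hri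
        rcases hri with h | h
        · right
          have h2 : 2 / ν ≤ z - r := by linarith
          rw [div_le_iff₀ hν0] at h2
          linarith
        · left
          nlinarith
      rw [h1]; simp
  have h1 : ∫ r in Set.Ioi (0 : ℝ), r ^ (N - 1) * (F r ^ 2 * deriv (prf_k z ν) r ^ 2) ≤
      ∫ r in Set.Ioi (0 : ℝ), (Set.Ioo (z - 2 / ν) z).indicator (fun _ => K) r := by
    refine integral_mono_of_nonneg ?_ hcI.integrableOn ?_
    · refine (ae_restrict_iff' measurableSet_Ioi).2 (Eventually.of_forall fun r hr => ?_)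
      have hr0 : (0 : ℝ) < r := hr
      simp only [Pi.zero_apply]
      positivity
    · exact (ae_restrict_iff' measurableSet_Ioi).2 (Eventually.of_forall hle)
  have h2 : ∫ r in Set.Ioi (0 : ℝ), (Set.Ioo (z - 2 / ν) z).indicator (fun _ => K) r = K * (2 / ν) := by
    rw [setIntegral_indicator measurableSet_Ioo]
    have : Set.Ioi (0 : ℝ) ∩ Set.Ioo (z - 2 / ν) z = Set.Ioo (z - 2 / ν) z := by
      ext x; simp only [Set.mem_inter_iff, Set.mem_Ioi, Set.mem_Ioo]
      constructor
      · exact fun h => h.2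
      · intro h
        exact ⟨by linarith [h.1], h⟩
    rw [this, setIntegral_const]
    simp only [Measure.real, Real.volume_Ioo, smul_eq_mul]
    rw [ENNReal.toReal_ofReal (by have : 0 ≤ 2 / ν := by positivity
                                  linarith)]
    ring
  calc cN N * ∫ r in Set.Ioi (0 : ℝ), r ^ (N - 1) * (F r ^ 2 * deriv (prf_k z ν) r ^ 2)
      ≤ cN N * (K * (2 / ν)) := mul_le_mul_of_nonneg_left (h1.trans_eq h2) hc.le
    _ = 4 * M ^ 2 * prf_X u z ν := by rw [hK]; field_simp; ring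

/-- module prf. Truncation at a zero of the profile.
Proof: cutoffs `c n (x) = k n ‖x‖`, `k n` of class `C¹`, `k n = 1` on `[0, z - 2/n]`, `k n = 0` on `[z - 1/n, ∞)`, `|k n'| ≤ 2n`.
`mul_H`: `c n u` in `H1`, gradient `c n ∇u + u ∇c n`. `∫ |u ∇c n|² ≤ 4n² ∫_{z-2/n < |x| < z} F(|x|)²`, and by
`prof_holder` (with `F z = 0`) `F(r)² ≤ C (z - r) ∫_{r<|x|<z} |∇u|²`, so the bound is
`≤ C' ∫_{z-2/n<|x|<z} |∇u|² → 0`. `H1_closed`. -/
theorem trunc_H [Dim N] {u : H1 N} {F : ℝ → ℝ} (hF : IsProf u F) {z : ℝ} (hz : 0 < z)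
    (h0 : F z = 0) : ∃ v : H1 N, (fn v =ᵐ[volume] (Metric.ball (0 : E N) z).indicator (fn u)) ∧
      (gr v =ᵐ[volume] (Metric.ball (0 : E N) z).indicator (gr u)) ∧ Rad v := by
  obtain ⟨M, hM1, hM⟩ := prf_bound
  set ν : ℕ → ℝ := fun n => 4 / z + n with hν
  have hνz : ∀ n, 4 / z ≤ ν n := fun n => by
    simp only [hν]
    have : (0 : ℝ) ≤ n := Nat.cast_nonneg n
    linarith
  have hν0 : ∀ n, 0 < ν n := fun n => lt_of_lt_of_le (by positivity) (hνz n)
  have hνt : Tendsto ν atTop atTop :=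
    tendsto_atTop_add_const_left _ _ tendsto_natCast_atTop_atTop
  have hw : ∀ n : ℕ, ∃ w : H1 N, fn w =ᵐ[volume] (fun x => prf_k z (ν n) ‖x‖ * fn u x) ∧
      gr w =ᵐ[volume] fun x => prf_k z (ν n) ‖x‖ • gr u x +
        fn u x • gradient (fun x : E N => prf_k z (ν n) ‖x‖) x := by
    intro n
    refine mul_H (fun x : E N => prf_k z (ν n) ‖x‖) (prf_CB hz (hνz n)) (max 1 (ν n * M))
      (fun x => (prf_k_le _ _ _).trans (le_max_left _ _)) (fun x => ?_) u
    refine (prf_gn hz (hνz n) x).trans (le_trans ?_ (le_max_right _ _))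
    rw [prf_kd, abs_mul, abs_neg, abs_of_pos (hν0 n)]
    exact mul_le_mul_of_nonneg_left (hM _) (hν0 n).le
  choose w hw1 hw2 using hw
  have hB : MeasurableSet (Metric.ball (0 : E N) z) := measurableSet_ball
  have hind : ∀ x : E N, (Metric.ball (0 : E N) z).indicator (fn u) x =
      (if ‖x‖ < z then 1 else 0) * fn u x := by
    intro x
    by_cases hx : ‖x‖ < z
    · rw [Set.indicator_of_mem (mem_ball_zero_iff.2 hx)]; simp [hx]
    · rw [Set.indicator_of_notMem (fun h => hx (mem_ball_zero_iff.1 h))]; simp [hx]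
  have hindg : ∀ x : E N, (Metric.ball (0 : E N) z).indicator (gr u) x =
      (if ‖x‖ < z then (1 : ℝ) else 0) • gr u x := by
    intro x
    by_cases hx : ‖x‖ < z
    · rw [Set.indicator_of_mem (mem_ball_zero_iff.2 hx)]; simp [hx]
    · rw [Set.indicator_of_notMem (fun h => hx (mem_ball_zero_iff.1 h))]; simp [hx]
  have hkm : ∀ n, Measurable fun x : E N => prf_k z (ν n) ‖x‖ - (if ‖x‖ < z then (1 : ℝ) else 0) := by
    intro n
    refine Measurable.sub ((prf_kC z (ν n)).continuous.measurable.comp measurable_norm) ?_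
    exact Measurable.ite (isOpen_lt continuous_norm continuous_const).measurableSet
      measurable_const measurable_const
  have hfn2 : Integrable (fun x => fn u x ^ 2) (volume : Measure (E N)) := by
    have h := (fn_memLp u).integrable_norm_pow (by norm_num)
    refine h.congr (Eventually.of_forall fun x => ?_)
    change ‖fn u x‖ ^ 2 = fn u x ^ 2
    rw [Real.norm_eq_abs, sq_abs]
  -- dominated convergence for both functions
  have hDC : ∀ G : E N → ℝ, Integrable G volume → (∀ x, 0 ≤ G x) → Tendsto (fun n => ∫ x,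
      (prf_k z (ν n) ‖x‖ - (if ‖x‖ < z then (1 : ℝ) else 0)) ^ 2 * G x) atTop (𝓝 0) := by
    intro G hG hG0
    have h : Tendsto (fun n => ∫ x, (prf_k z (ν n) ‖x‖ - (if ‖x‖ < z then (1 : ℝ) else 0)) ^ 2 * G x)
        atTop (𝓝 (∫ x : E N, (0 : ℝ))) := by
      refine tendsto_integral_of_dominated_convergence G ?_ hG ?_ ?_
      · intro n
        exact ((hkm n).pow_const 2).aestronglyMeasurable.mul hG.1
      · intro n
        refine Eventually.of_forall fun x => ?_
        rw [Real.norm_eq_abs, abs_mul, abs_of_nonneg (hG0 x), abs_pow]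
        have h1 := prf_k_sub z (ν n) ‖x‖ (hν0 n).le
        have h2 : |prf_k z (ν n) ‖x‖ - (if ‖x‖ < z then (1 : ℝ) else 0)| ^ 2 ≤ 1 := by
          exact pow_le_one₀ (abs_nonneg _) h1
        calc _ ≤ 1 * G x := mul_le_mul_of_nonneg_right h2 (hG0 x)
          _ = G x := one_mul _
      · refine Eventually.of_forall fun x => ?_
        have h1 := ((prf_lim z hνt ‖x‖).pow 2).mul_const (G x)
        simpa using h1
    simpa using h
  -- the second part of the gradient
  have hS : Tendsto (fun n => ∫ x : E N, F ‖x‖ ^ 2 * deriv (prf_k z (ν n)) ‖x‖ ^ 2) atTop (𝓝 0) := by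
    have h1 := (prf_Xlim u z hνt).const_mul (4 * M ^ 2)
    rw [mul_zero] at h1
    refine squeeze_zero (fun n => integral_nonneg fun x => by positivity) (fun n => ?_) h1
    exact prf_est hF hz h0 (hνz n) hM
  have hSi : ∀ n, Integrable (fun x : E N => F ‖x‖ ^ 2 * deriv (prf_k z (ν n)) ‖x‖ ^ 2) volume := by
    intro n
    refine Integrable.mono' (hfn2.mul_const ((ν n * M) ^ 2)) ?_ ?_
    · have h1 : AEStronglyMeasurable (fun x => fn u x ^ 2 * deriv (prf_k z (ν n)) ‖x‖ ^ 2)
        (volume : Measure (E N)) := by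
        refine hfn2.1.mul ?_
        have h2 : Continuous (deriv (prf_k z (ν n))) := (prf_kC z (ν n)).continuous_deriv (by norm_num)
        exact ((h2.comp continuous_norm).pow 2).aestronglyMeasurable
      refine h1.congr ?_
      filter_upwards [hF.2.1] with x hx
      rw [hx]
    · filter_upwards [hF.2.1] with x hx
      rw [Real.norm_eq_abs, abs_of_nonneg (by positivity), hx]
      refine mul_le_mul_of_nonneg_left ?_ (by positivity)
      rw [← sq_abs]
      refine pow_le_pow_left₀ (abs_nonneg _) ?_ 2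
      rw [prf_kd, abs_mul, abs_neg, abs_of_pos (hν0 n)]
      exact mul_le_mul_of_nonneg_left (hM _) (hν0 n).le
  obtain ⟨v, hv1, hv2, -⟩ := H1_closed w ((Metric.ball (0 : E N) z).indicator (fn u))
    ((Metric.ball (0 : E N) z).indicator (gr u)) ((fn_memLp u).indicator hB)
    ((gr_memLp u).indicator hB) (by
      refine (hDC (fun x => fn u x ^ 2) hfn2 (fun x => sq_nonneg _)).congr fun n => ?_
      refine integral_congr_ae ?_
      filter_upwards [hw1 n] with x hx
      rw [hx, hind]; ring) (by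
      have h1 := (hDC (fun x => ‖gr u x‖ ^ 2) (pre_gr2 u) (fun x => sq_nonneg _)).const_mul 2
      have h2 := h1.add (hS.const_mul 2)
      simp only [mul_zero, add_zero] at h2
      refine squeeze_zero (fun n => integral_nonneg fun x => by positivity) (fun n => ?_) h2
      have i1 : Integrable (fun x : E N => (prf_k z (ν n) ‖x‖ - (if ‖x‖ < z then (1 : ℝ) else 0)) ^ 2 *
          ‖gr u x‖ ^ 2) volume := by
        refine Integrable.mono' (pre_gr2 u) (((hkm n).pow_const 2).aestronglyMeasurable.mul (pre_gr2 u).1) ?_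
        refine Eventually.of_forall fun x => ?_
        rw [Real.norm_eq_abs, abs_mul, abs_pow, abs_of_nonneg (by positivity : 0 ≤ ‖gr u x‖ ^ 2)]
        have h2 : |prf_k z (ν n) ‖x‖ - (if ‖x‖ < z then (1 : ℝ) else 0)| ^ 2 ≤ 1 :=
          pow_le_one₀ (abs_nonneg _) (prf_k_sub z (ν n) ‖x‖ (hν0 n).le)
        calc _ ≤ 1 * ‖gr u x‖ ^ 2 := mul_le_mul_of_nonneg_right h2 (by positivity)
          _ = _ := one_mul _
      rw [← integral_const_mul, ← integral_const_mul, ← integral_add (i1.const_mul 2) ((hSi n).const_mul 2)]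
      refine integral_mono_of_nonneg (Eventually.of_forall fun x => by positivity)
        ((i1.const_mul 2).add ((hSi n).const_mul 2)) ?_
      filter_upwards [hw2 n, hF.2.1] with x hx hx2
      rw [hx, hindg]
      have e : prf_k z (ν n) ‖x‖ • gr u x + fn u x • gradient (fun x : E N => prf_k z (ν n) ‖x‖) x -
          (if ‖x‖ < z then (1 : ℝ) else 0) • gr u x =
          (prf_k z (ν n) ‖x‖ - (if ‖x‖ < z then (1 : ℝ) else 0)) • gr u x +
          fn u x • gradient (fun x : E N => prf_k z (ν n) ‖x‖) x := by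
        rw [sub_smul]; abel
      rw [e]
      set p : E N := (prf_k z (ν n) ‖x‖ - (if ‖x‖ < z then (1 : ℝ) else 0)) • gr u x with hp
      set q : E N := fn u x • gradient (fun x : E N => prf_k z (ν n) ‖x‖) x with hq
      have hpq : ‖p + q‖ ≤ ‖p‖ + ‖q‖ := norm_add_le _ _
      have h3 : ‖p + q‖ ^ 2 ≤ 2 * ‖p‖ ^ 2 + 2 * ‖q‖ ^ 2 := by
        have : ‖p + q‖ ^ 2 ≤ (‖p‖ + ‖q‖) ^ 2 := pow_le_pow_left₀ (norm_nonneg _) hpq 2
        nlinarith [sq_nonneg (‖p‖ - ‖q‖)]
      have h4 : ‖p‖ ^ 2 = (prf_k z (ν n) ‖x‖ - (if ‖x‖ < z then (1 : ℝ) else 0)) ^ 2 * ‖gr u x‖ ^ 2 := by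
        rw [hp, norm_smul, mul_pow, Real.norm_eq_abs, sq_abs]
      have h5 : ‖q‖ ^ 2 ≤ F ‖x‖ ^ 2 * deriv (prf_k z (ν n)) ‖x‖ ^ 2 := by
        rw [hq, norm_smul, mul_pow, Real.norm_eq_abs, sq_abs, ← hx2]
        refine mul_le_mul_of_nonneg_left ?_ (sq_nonneg _)
        rw [← sq_abs (deriv (prf_k z (ν n)) ‖x‖)]
        exact pow_le_pow_left₀ (norm_nonneg _) (prf_gn hz (hνz n) x) 2
      change ‖p + q‖ ^ 2 ≤ 2 * ((prf_k z (ν n) ‖x‖ - (if ‖x‖ < z then (1 : ℝ) else 0)) ^ 2 * ‖gr u x‖ ^ 2) +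
        2 * (F ‖x‖ ^ 2 * deriv (prf_k z (ν n)) ‖x‖ ^ 2)
      rw [← h4]
      linarith)
  refine ⟨v, hv1, hv2, fun R => ?_⟩
  have hmp : MeasurePreserving (R : E N → E N) volume volume := R.measurePreserving
  have a1 : ∀ᵐ x : E N, fn v (R x) = (Metric.ball (0 : E N) z).indicator (fn u) (R x) :=
    hmp.quasiMeasurePreserving.ae hv1
  have a2 : ∀ᵐ x : E N, fn u (R x) = F ‖R x‖ := hmp.quasiMeasurePreserving.ae hF.2.1
  filter_upwards [a1, a2, hv1, hF.2.1] with x h1 h2 h3 h4
  rw [h1, h3, hind, hind, h2, h4, R.norm_map]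

/-- `∫_{max(ρ,r1)}^{r2} t^{1-N} dt` for `ρ < r2`, and `0` for `ρ ≥ r2` -/
noncomputable def Hk (N : ℕ) (r1 r2 ρ : ℝ) : ℝ :=
  if ρ < r2 then ∫ t in (max ρ r1)..r2, (t ^ (N - 1))⁻¹ else 0

private noncomputable def prg_chi (r1 r2 : ℝ) (n : ℕ) (t : ℝ) : ℝ :=
  max 0 (min 1 (min ((n : ℝ) * (t - r1)) ((n : ℝ) * (r2 - t))))

private theorem prg_chi_cont (r1 r2 : ℝ) (n : ℕ) : Continuous (prg_chi r1 r2 n) := by
  unfold prg_chi
  fun_prop

private theorem prg_chi_nonneg (r1 r2 : ℝ) (n : ℕ) (t : ℝ) : 0 ≤ prg_chi r1 r2 n t := le_max_left _ _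

private theorem prg_chi_le (r1 r2 : ℝ) (n : ℕ) (t : ℝ) : prg_chi r1 r2 n t ≤ 1 :=
  max_le zero_le_one (min_le_left _ _)

private theorem prg_chi_zero {r1 r2 : ℝ} (n : ℕ) {t : ℝ} (h : t ≤ r1 ∨ r2 ≤ t) :
    prg_chi r1 r2 n t = 0 := by
  unfold prg_chi
  refine max_eq_left ?_
  have hn : (0 : ℝ) ≤ n := Nat.cast_nonneg n
  rcases h with h | h
  · refine (min_le_right _ _).trans ((min_le_left _ _).trans ?_)
    nlinarith
  · refine (min_le_right _ _).trans ((min_le_right _ _).trans ?_)
    nlinarith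

private theorem prg_chi_lim {r1 r2 t : ℝ} (h1 : r1 < t) (h2 : t < r2) :
    Tendsto (fun n => prg_chi r1 r2 n t) atTop (𝓝 1) := by
  refine tendsto_const_nhds.congr' ?_
  have a1 : 0 < t - r1 := sub_pos.2 h1
  have a2 : 0 < r2 - t := sub_pos.2 h2
  filter_upwards [tendsto_natCast_atTop_atTop.eventually_ge_atTop (1 / (t - r1)),
    tendsto_natCast_atTop_atTop.eventually_ge_atTop (1 / (r2 - t))] with n hn1 hn2
  rw [div_le_iff₀ a1] at hn1
  rw [div_le_iff₀ a2] at hn2
  unfold prg_chi
  rw [min_eq_left (le_min hn1 hn2)]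
  norm_num

private noncomputable def prg_k (N : ℕ) (r1 r2 : ℝ) (n : ℕ) (t : ℝ) : ℝ :=
  (t ^ (N - 1))⁻¹ * prg_chi r1 r2 n t

private theorem prg_k_cont {r1 r2 : ℝ} (h1 : 0 < r1) (n : ℕ) : Continuous (prg_k N r1 r2 n) := by
  rw [continuous_iff_continuousAt]
  intro t
  by_cases ht : t < r1
  · have : prg_k N r1 r2 n =ᶠ[𝓝 t] fun _ => 0 := by
      filter_upwards [gt_mem_nhds ht] with s hs
      unfold prg_k
      rw [prg_chi_zero n (Or.inl (le_of_lt hs))]; simp
    exact continuousAt_const.congr this.symm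
  · have ht0 : 0 < t := h1.trans_le (not_lt.1 ht)
    unfold prg_k
    refine ContinuousAt.mul ?_ (prg_chi_cont r1 r2 n).continuousAt
    exact (continuousAt_pow t _).inv₀ (by positivity)

private theorem prg_k_zero {r1 r2 : ℝ} (n : ℕ) {t : ℝ} (h : t ≤ r1 ∨ r2 ≤ t) :
    prg_k N r1 r2 n t = 0 := by
  unfold prg_k
  rw [prg_chi_zero n h, mul_zero]

private theorem prg_k_nonneg {r1 r2 : ℝ} (h1 : 0 < r1) (n : ℕ) (t : ℝ) : 0 ≤ prg_k N r1 r2 n t := by
  by_cases ht : t ≤ r1
  · rw [prg_k_zero n (Or.inl ht)]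
  · have ht0 : 0 < t := h1.trans (not_le.1 ht)
    unfold prg_k
    have := prg_chi_nonneg r1 r2 n t
    positivity

private theorem prg_k_le {r1 r2 : ℝ} (h1 : 0 < r1) (n : ℕ) (t : ℝ) :
    prg_k N r1 r2 n t ≤ (r1 ^ (N - 1))⁻¹ := by
  by_cases ht : t ≤ r1
  · rw [prg_k_zero n (Or.inl ht)]; positivity
  · have ht0 : 0 < t := h1.trans (not_le.1 ht)
    unfold prg_k
    have h2 := prg_chi_le r1 r2 n t
    have h3 := prg_chi_nonneg r1 r2 n t
    have h4 : (t ^ (N - 1))⁻¹ ≤ (r1 ^ (N - 1))⁻¹ :=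
      inv_anti₀ (by positivity) (pow_le_pow_left₀ h1.le (not_le.1 ht).le _)
    calc (t ^ (N - 1))⁻¹ * prg_chi r1 r2 n t ≤ (r1 ^ (N - 1))⁻¹ * 1 :=
          mul_le_mul h4 h2 h3 (by positivity)
      _ = _ := mul_one _

private noncomputable def prg_psi (N : ℕ) (r1 r2 : ℝ) (n : ℕ) (ρ : ℝ) : ℝ :=
  ∫ t in ρ..r2, prg_k N r1 r2 n t

private theorem prg_psi_deriv {r1 r2 : ℝ} (h1 : 0 < r1) (n : ℕ) (ρ : ℝ) :
    HasDerivAt (prg_psi N r1 r2 n) (- prg_k N r1 r2 n ρ) ρ := by
  have hc := prg_k_cont (N := N) (r2 := r2) h1 n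
  exact intervalIntegral.integral_hasDerivAt_left (hc.intervalIntegrable _ _)
      hc.stronglyMeasurable.stronglyMeasurableAtFilter hc.continuousAt

private theorem prg_psi_C1 {r1 r2 : ℝ} (h1 : 0 < r1) (n : ℕ) : ContDiff ℝ 1 (prg_psi N r1 r2 n) := by
  rw [contDiff_one_iff_deriv]
  refine ⟨fun ρ => (prg_psi_deriv h1 n ρ).differentiableAt, ?_⟩
  have : deriv (prg_psi N r1 r2 n) = fun ρ => - prg_k N r1 r2 n ρ := by
    ext ρ; exact (prg_psi_deriv h1 n ρ).deriv
  rw [this]
  exact (prg_k_cont h1 n).neg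

private theorem prg_psi_eq {r1 r2 : ℝ} (h1 : 0 < r1) (n : ℕ) (ρ : ℝ) :
    prg_psi N r1 r2 n ρ = if ρ < r2 then ∫ t in (max ρ r1)..r2, prg_k N r1 r2 n t else 0 := by
  have hc := prg_k_cont (N := N) (r2 := r2) h1 n
  unfold prg_psi
  split_ifs with h
  · by_cases hρ : ρ ≤ r1
    · rw [max_eq_right hρ, ← intervalIntegral.integral_add_adjacent_intervals
        (hc.intervalIntegrable ρ r1) (hc.intervalIntegrable r1 r2)]
      have : ∫ t in ρ..r1, prg_k N r1 r2 n t = 0 := by
        rw [intervalIntegral.integral_congr (g := fun _ => 0)]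
        · simp
        · intro t ht
          rw [Set.uIcc_of_le hρ] at ht
          exact prg_k_zero n (Or.inl ht.2)
      rw [this, zero_add]
    · rw [max_eq_left (not_le.1 hρ).le]
  · rw [intervalIntegral.integral_congr (g := fun _ => 0)]
    · simp
    · intro t ht
      rw [Set.uIcc_of_ge (not_lt.1 h)] at ht
      exact prg_k_zero n (Or.inr ht.1)

private theorem prg_psi_low {r1 r2 : ℝ} (h1 : 0 < r1) (h2 : r1 ≤ r2) (n : ℕ) {ρ : ℝ} (hρ : ρ < r1) :
    prg_psi N r1 r2 n ρ = ∫ t in r1..r2, prg_k N r1 r2 n t := by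
  rw [prg_psi_eq h1, if_pos (hρ.trans_le h2), max_eq_right hρ.le]

private theorem prg_psi_bound {r1 r2 : ℝ} (h1 : 0 < r1) (h2 : r1 ≤ r2) (n : ℕ) (ρ : ℝ) :
    |prg_psi N r1 r2 n ρ| ≤ (r1 ^ (N - 1))⁻¹ * (r2 - r1) := by
  rw [prg_psi_eq h1]
  split_ifs with h
  · have h3 : max ρ r1 ≤ r2 := max_le h.le h2
    have h4 := intervalIntegral.norm_integral_le_of_norm_le_const (a := max ρ r1) (b := r2)
      (f := prg_k N r1 r2 n) (C := (r1 ^ (N - 1))⁻¹) (fun t _ => by
        rw [Real.norm_eq_abs, abs_of_nonneg (prg_k_nonneg h1 n t)]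
        exact prg_k_le h1 n t)
    rw [Real.norm_eq_abs] at h4
    refine h4.trans ?_
    rw [abs_of_nonneg (by linarith)]
    refine mul_le_mul_of_nonneg_left ?_ (by positivity)
    linarith [le_max_right ρ r1]
  · rw [abs_zero]
    have : 0 ≤ r2 - r1 := by linarith
    positivity

private theorem prg_psi_lim {r1 r2 : ℝ} (h1 : 0 < r1) (h2 : r1 ≤ r2) (ρ : ℝ) :
    Tendsto (fun n => prg_psi N r1 r2 n ρ) atTop (𝓝 (Hk N r1 r2 ρ)) := by
  simp only [prg_psi_eq h1]
  unfold Hk
  split_ifs with h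
  · have h3 : max ρ r1 ≤ r2 := max_le h.le h2
    refine intervalIntegral.tendsto_integral_filter_of_dominated_convergence
      (fun _ => (r1 ^ (N - 1))⁻¹) ?_ ?_ ?_ ?_
    · exact Eventually.of_forall fun n => (prg_k_cont h1 n).aestronglyMeasurable
    · refine Eventually.of_forall fun n => Eventually.of_forall fun t _ => ?_
      rw [Real.norm_eq_abs, abs_of_nonneg (prg_k_nonneg h1 n t)]
      exact prg_k_le h1 n t
    · exact intervalIntegrable_const
    · have hne : ∀ᵐ t : ℝ, t ≠ r2 := by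
        rw [ae_iff]; simp
      filter_upwards [hne] with t htne ht
      rw [Set.uIoc_of_le h3] at ht
      have ht1 : r1 < t := (le_max_right _ _).trans_lt ht.1
      have ht2 : t < r2 := lt_of_le_of_ne ht.2 htne
      have h4 := (prg_chi_lim ht1 ht2).const_mul ((t ^ (N - 1))⁻¹)
      rw [mul_one] at h4
      exact h4
  · exact tendsto_const_nhds

/-- module prg. FLUX IDENTITY: test the equation `-Δu = f` with `Hk(|x|)`.
Proof: for `k` continuous with compact support in `(0,∞)` the function `x ↦ ∫_{|x|}^∞ k` is `C¹_c` with gradient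
`- k(|x|) x/|x|`, so `- ∫ ⟨∇u,x⟩ k(|x|)/|x| = ∫ f(x) (∫_{|x|}^∞ k) dx`. Let `k → t^{1-N} 1_{[r1,r2]}` boundedly
(dominated convergence; everything lives in a fixed ball, `f` is locally integrable), and use the third property of
`IsProf`. -/
theorem flux [Dim N] {u : H1 N} {F : ℝ → ℝ} (hF : IsProf u F) (f : E N → ℝ)
    (hf : LocallyIntegrable f (volume : Measure (E N)))
    (h : ∀ p : E N → ℝ, ContDiff ℝ 1 p → HasCompactSupport p →
      ∫ x, inner ℝ (gr u x) (gradient p x) = ∫ x, f x * p x) {r1 r2 : ℝ} (h1 : 0 < r1)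
    (h2 : r1 ≤ r2) :
    cN N * (F r2 - F r1) = - ∫ x, f x * Hk N r1 r2 ‖x‖ := by
  have hN := pra_two_le (N := N)
  rw [hF.2.2 r1 r2 h1 h2]
  have hkey : ∀ n : ℕ, - ∫ x, prd_W u x * prg_chi r1 r2 n ‖x‖ =
      ∫ x, f x * prg_psi N r1 r2 n ‖x‖ := by
    intro n
    have hC := prg_psi_C1 (N := N) (r2 := r2) h1 n
    have hlow : ∀ ρ, ρ < r1 → prg_psi N r1 r2 n ρ = ∫ t in r1..r2, prg_k N r1 r2 n t :=
      fun ρ hρ => prg_psi_low h1 h2 n hρ
    have h3 := h (fun x : E N => prg_psi N r1 r2 n ‖x‖) (prb_contDiff hC h1 hlow) (by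
      refine HasCompactSupport.of_support_subset_isCompact (isCompact_closedBall (0 : E N) r2) ?_
      intro x hx
      rw [Function.mem_support] at hx
      rw [mem_closedBall_zero_iff]
      by_contra hlt
      apply hx
      rw [prg_psi_eq h1, if_neg (not_lt.2 (not_le.1 hlt).le)])
    rw [← h3, ← integral_neg]
    congr 1
    ext x
    rw [prb_gradient hC h1 hlow x, (prg_psi_deriv h1 n ‖x‖).deriv, real_inner_smul_right]
    unfold prd_W prg_k
    have e1 : ‖x‖ ^ N = ‖x‖ ^ (N - 1) * ‖x‖ := by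
      rw [← pow_succ]; congr 1; omega
    rw [e1, div_eq_mul_inv, div_eq_mul_inv, mul_inv]
    ring
  have hL : Tendsto (fun n => ∫ x, prd_W u x * prg_chi r1 r2 n ‖x‖) atTop
      (𝓝 (∫ x, Set.indicator {x : E N | r1 < ‖x‖ ∧ ‖x‖ < r2} (prd_W u) x)) := by
    have hms : MeasurableSet {x : E N | r1 ≤ ‖x‖ ∧ ‖x‖ ≤ r2} :=
      ((isClosed_le continuous_const continuous_norm).inter
        (isClosed_le continuous_norm continuous_const)).measurableSet
    refine tendsto_integral_of_dominated_convergence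
      (Set.indicator {x : E N | r1 ≤ ‖x‖ ∧ ‖x‖ ≤ r2} fun x => |prd_W u x|) ?_ ?_ ?_ ?_
    · intro n
      exact ((prd_Wm u).mul ((prg_chi_cont r1 r2 n).measurable.comp measurable_norm)).aestronglyMeasurable
    · rw [integrable_indicator_iff hms]
      exact (prd_Wint u h1).abs
    · intro n
      refine Eventually.of_forall fun x => ?_
      rw [Real.norm_eq_abs, abs_mul, abs_of_nonneg (prg_chi_nonneg r1 r2 n ‖x‖)]
      by_cases hx : x ∈ {x : E N | r1 ≤ ‖x‖ ∧ ‖x‖ ≤ r2}
      · rw [Set.indicator_of_mem hx]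
        calc _ ≤ |prd_W u x| * 1 :=
              mul_le_mul_of_nonneg_left (prg_chi_le r1 r2 n ‖x‖) (abs_nonneg _)
          _ = _ := mul_one _
      · rw [Set.indicator_of_notMem hx, prg_chi_zero n, mul_zero]
        simp only [Set.mem_ofPred_eq, not_and_or, not_le] at hx
        rcases hx with hx | hx
        · exact Or.inl hx.le
        · exact Or.inr hx.le
    · refine Eventually.of_forall fun x => ?_
      by_cases hx : x ∈ {x : E N | r1 < ‖x‖ ∧ ‖x‖ < r2}
      · rw [Set.indicator_of_mem hx]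
        have h3 := (prg_chi_lim hx.1 hx.2).const_mul (prd_W u x)
        rw [mul_one] at h3
        exact h3
      · rw [Set.indicator_of_notMem hx]
        refine tendsto_const_nhds.congr fun n => ?_
        rw [prg_chi_zero n, mul_zero]
        simp only [Set.mem_ofPred_eq, not_and_or, not_lt] at hx
        exact hx
  have hR : Tendsto (fun n => ∫ x, f x * prg_psi N r1 r2 n ‖x‖) atTop
      (𝓝 (∫ x, f x * Hk N r1 r2 ‖x‖)) := by
    refine tendsto_integral_of_dominated_convergence
      (Set.indicator (Metric.closedBall (0 : E N) r2) fun x => |f x| * ((r1 ^ (N - 1))⁻¹ * (r2 - r1)))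
      ?_ ?_ ?_ ?_
    · intro n
      exact hf.aestronglyMeasurable.mul
        ((prg_psi_C1 h1 n).continuous.comp continuous_norm).aestronglyMeasurable
    · rw [integrable_indicator_iff Metric.isClosed_closedBall.measurableSet]
      exact ((hf.integrableOn_isCompact (isCompact_closedBall (0 : E N) r2)).abs).mul_const _
    · intro n
      refine Eventually.of_forall fun x => ?_
      rw [Real.norm_eq_abs, abs_mul]
      by_cases hx : x ∈ Metric.closedBall (0 : E N) r2
      · rw [Set.indicator_of_mem hx]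
        exact mul_le_mul_of_nonneg_left (prg_psi_bound h1 h2 n ‖x‖) (abs_nonneg _)
      · rw [Set.indicator_of_notMem hx]
        rw [mem_closedBall_zero_iff, not_le] at hx
        rw [prg_psi_eq h1, if_neg (not_lt.2 hx.le)]
        simp
    · exact Eventually.of_forall fun x => (prg_psi_lim h1 h2 ‖x‖).const_mul (f x)
  have hL' : Tendsto (fun n => ∫ x, f x * prg_psi N r1 r2 n ‖x‖) atTop
      (𝓝 (- ∫ x, Set.indicator {x : E N | r1 < ‖x‖ ∧ ‖x‖ < r2} (prd_W u) x)) := by
    refine hL.neg.congr fun n => ?_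
    exact hkey n
  have h3 := tendsto_nhds_unique hL' hR
  rw [← h3, neg_neg, integral_indicator (pre_ann r1 r2)]
  rfl

end Sir
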