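import Pool.Agent.Sir.Gn
/-!
# The quartic form `Q4`
modules: qa, qb, qc, qd
-/

namespace Sir

open MeasureTheory Filter Topology

variable {N : ℕ}

theorem Q4_swap12 (u v w z : H1 N) : Q4 u v w z = Q4 v u w z := by
  unfold Q4
  congr 1
  ext x
  ring

theorem Q4_swap23 (u v w z : H1 N) : Q4 u v w z = Q4 u w v z := by
  unfold Q4
  congr 1
  ext x
  ring

theorem Q4_swap34 (u v w z : H1 N) : Q4 u v w z = Q4 u v z w := by
  unfold Q4
  congr 1
  ext x
  ring

theorem Q4_swapp (u v w z : H1 N) : Q4 u v w z = Q4 w z u v := by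
  unfold Q4
  congr 1
  ext x
  ring

private theorem qa_int4 [Dim N] (u : H1 N) :
    Integrable (fun x => fn u x ^ 4) (volume : Measure (E N)) := by
  have h := (fn_memLp4 u).integrable_norm_pow (by norm_num)
  refine h.congr (Eventually.of_forall fun x => ?_)
  have e : (4 : ENNReal).toReal = ((4 : ℕ) : ℝ) := by norm_num
  simp only [Real.norm_eq_abs]
  exact (Even.pow_abs (by decide) _)

private theorem qa_meas (u v w z : H1 N) :
    AEStronglyMeasurable (fun x => fn u x * fn v x * fn w x * fn z x) (volume : Measure (E N)) :=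
  (((Lp.aestronglyMeasurable u.val.fst).mul (Lp.aestronglyMeasurable v.val.fst)).mul
    (Lp.aestronglyMeasurable w.val.fst)).mul (Lp.aestronglyMeasurable z.val.fst)

private theorem qa_amgm (a b c d : ℝ) : |a * b * c * d| ≤ a ^ 4 + b ^ 4 + c ^ 4 + d ^ 4 := by
  rw [abs_le]
  constructor <;>
  nlinarith [sq_nonneg (a * b - c * d), sq_nonneg (a * b + c * d), sq_nonneg (a ^ 2 - b ^ 2),
    sq_nonneg (c ^ 2 - d ^ 2), sq_nonneg (a ^ 2 + b ^ 2), sq_nonneg (c ^ 2 + d ^ 2),
    sq_nonneg (a ^ 2), sq_nonneg (b ^ 2), sq_nonneg (c ^ 2), sq_nonneg (d ^ 2)]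

private theorem qa_integrable [Dim N] (u v w z : H1 N) :
    Integrable (fun x => fn u x * fn v x * fn w x * fn z x) (volume : Measure (E N)) := by
  refine Integrable.mono' ((((qa_int4 u).add (qa_int4 v)).add (qa_int4 w)).add (qa_int4 z))
    (qa_meas u v w z) (Eventually.of_forall fun x => ?_)
  rw [Real.norm_eq_abs]
  exact qa_amgm _ _ _ _

private theorem qa_cs {f g : E N → ℝ} (hf : Integrable (fun x => f x ^ 2) (volume : Measure (E N)))
    (hg : Integrable (fun x => g x ^ 2) (volume : Measure (E N)))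
    (hfg : Integrable (fun x => f x * g x) (volume : Measure (E N))) :
    (∫ x, f x * g x) ^ 2 ≤ (∫ x, f x ^ 2) * ∫ x, g x ^ 2 := by
  have key : ∀ t : ℝ, 0 ≤ (∫ x, f x ^ 2) * (t * t) + (2 * ∫ x, f x * g x) * t + ∫ x, g x ^ 2 := by
    intro t
    have h1 : 0 ≤ ∫ x, (t * f x + g x) ^ 2 := integral_nonneg fun x => sq_nonneg _
    have h2 : ∫ x, (t * f x + g x) ^ 2 =
        (∫ x, f x ^ 2) * (t * t) + (2 * ∫ x, f x * g x) * t + ∫ x, g x ^ 2 := by
      have e : (fun x => (t * f x + g x) ^ 2) =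
          fun x => (t * t) * f x ^ 2 + (2 * t) * (f x * g x) + g x ^ 2 := by
        ext x; ring
      have a1 : Integrable (fun x => (t * t) * f x ^ 2) (volume : Measure (E N)) := hf.const_mul _
      have a2 : Integrable (fun x => (2 * t) * (f x * g x)) (volume : Measure (E N)) :=
        hfg.const_mul _
      have a3 : Integrable (fun x => (t * t) * f x ^ 2 + (2 * t) * (f x * g x))
        (volume : Measure (E N)) := a1.add a2
      rw [e, integral_add a3 hg, integral_add a1 a2, integral_const_mul, integral_const_mul]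
      ring
    rw [← h2]; exact h1
  have := discrim_le_zero key
  unfold discrim at this
  nlinarith

private theorem qa_cs' [Dim N] (u v w z : H1 N) : Q4 u v w z ^ 2 ≤ Q4 u u v v * Q4 w w z z := by
  have h := qa_cs (N := N) (f := fun x => fn u x * fn v x) (g := fun x => fn w x * fn z x)
    ((qa_integrable u u v v).congr (Eventually.of_forall fun x => by ring))
    ((qa_integrable w w z z).congr (Eventually.of_forall fun x => by ring))
    ((qa_integrable u v w z).congr (Eventually.of_forall fun x => by ring))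
  have e1 : Q4 u v w z = ∫ x, (fn u x * fn v x) * (fn w x * fn z x) := by
    unfold Q4; congr 1; ext x; ring
  have e2 : Q4 u u v v = ∫ x, (fn u x * fn v x) ^ 2 := by
    unfold Q4; congr 1; ext x; ring
  have e3 : Q4 w w z z = ∫ x, (fn w x * fn z x) ^ 2 := by
    unfold Q4; congr 1; ext x; ring
  rw [e1, e2, e3]
  exact h

/-- module qa: Hoelder with four functions in `L⁴` -/
theorem Q4_integrable [Dim N] (u v w z : H1 N) :
    Integrable (fun x => fn u x * fn v x * fn w x * fn z x) (volume : Measure (E N)) := by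
  exact qa_integrable u v w z

/-- module qa -/
theorem Q4_add1 [Dim N] (u u' v w z : H1 N) : Q4 (u + u') v w z = Q4 u v w z + Q4 u' v w z := by
  unfold Q4
  rw [← integral_add (qa_integrable u v w z) (qa_integrable u' v w z)]
  refine integral_congr_ae ?_
  filter_upwards [fn_add u u'] with x hx
  rw [hx]; ring

/-- module qa -/
theorem Q4_smul1 (c : ℝ) (u v w z : H1 N) : Q4 (c • u) v w z = c * Q4 u v w z := by
  unfold Q4
  rw [← integral_const_mul]
  refine integral_congr_ae ?_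
  filter_upwards [fn_smul c u] with x hx
  rw [hx]; ring

theorem Q4_add2 [Dim N] (u u' v w z : H1 N) : Q4 v (u + u') w z = Q4 v u w z + Q4 v u' w z := by
  rw [Q4_swap12, Q4_add1, Q4_swap12 u, Q4_swap12 u']

theorem Q4_add3 [Dim N] (u u' v w z : H1 N) : Q4 v w (u + u') z = Q4 v w u z + Q4 v w u' z := by
  rw [Q4_swap23, Q4_add2, Q4_swap23 v u, Q4_swap23 v u']

theorem Q4_add4 [Dim N] (u u' v w z : H1 N) : Q4 v w z (u + u') = Q4 v w z u + Q4 v w z u' := by
  rw [Q4_swap34, Q4_add3, Q4_swap34 v w u, Q4_swap34 v w u']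

theorem Q4_smul2 (c : ℝ) (u v w z : H1 N) : Q4 v (c • u) w z = c * Q4 v u w z := by
  rw [Q4_swap12, Q4_smul1, Q4_swap12 u]

theorem Q4_smul3 (c : ℝ) (u v w z : H1 N) : Q4 v w (c • u) z = c * Q4 v w u z := by
  rw [Q4_swap23, Q4_smul2, Q4_swap23 v u]

theorem Q4_smul4 (c : ℝ) (u v w z : H1 N) : Q4 v w z (c • u) = c * Q4 v w z u := by
  rw [Q4_swap34, Q4_smul3, Q4_swap34 v w u]

theorem Q4_neg1 (u v w z : H1 N) : Q4 (-u) v w z = - Q4 u v w z := by
  rw [← neg_one_smul ℝ u, Q4_smul1]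
  ring

theorem Q4_neg2 (u v w z : H1 N) : Q4 v (-u) w z = - Q4 v u w z := by
  rw [Q4_swap12, Q4_neg1, Q4_swap12 u]

theorem Q4_neg3 (u v w z : H1 N) : Q4 v w (-u) z = - Q4 v w u z := by
  rw [Q4_swap23, Q4_neg2, Q4_swap23 v u]

theorem Q4_neg4 (u v w z : H1 N) : Q4 v w z (-u) = - Q4 v w z u := by
  rw [Q4_swap34, Q4_neg3, Q4_swap34 v w u]

theorem Q4_sub1 [Dim N] (u u' v w z : H1 N) : Q4 (u - u') v w z = Q4 u v w z - Q4 u' v w z := by
  rw [sub_eq_add_neg, Q4_add1, Q4_neg1]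
  ring

theorem Q4_sub2 [Dim N] (u u' v w z : H1 N) : Q4 v (u - u') w z = Q4 v u w z - Q4 v u' w z := by
  rw [sub_eq_add_neg, Q4_add2, Q4_neg2]
  ring

theorem Q4_sub3 [Dim N] (u u' v w z : H1 N) : Q4 v w (u - u') z = Q4 v w u z - Q4 v w u' z := by
  rw [sub_eq_add_neg, Q4_add3, Q4_neg3]
  ring

theorem Q4_sub4 [Dim N] (u u' v w z : H1 N) : Q4 v w z (u - u') = Q4 v w z u - Q4 v w z u' := by
  rw [sub_eq_add_neg, Q4_add4, Q4_neg4]
  ring

/-- module qa -/
theorem Q4_zero1 (v w z : H1 N) : Q4 0 v w z = 0 := by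
  have h := Q4_smul1 0 (0 : H1 N) v w z
  simpa using h

/-- module qa: `∫ (u + t h)⁴` -/
theorem P_expand [Dim N] (u h : H1 N) (t : ℝ) :
    Q4 (u + t • h) (u + t • h) (u + t • h) (u + t • h) =
      Q4 u u u u + 4 * t * Q4 u u u h + 6 * t ^ 2 * Q4 u u h h + 4 * t ^ 3 * Q4 u h h h
        + t ^ 4 * Q4 h h h h := by
  simp only [Q4_add1, Q4_add2, Q4_add3, Q4_add4, Q4_smul1, Q4_smul2, Q4_smul3, Q4_smul4]
  have a1 : Q4 h u u u = Q4 u u u h := by unfold Q4; congr 1; ext x; ring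
  have a2 : Q4 u h u u = Q4 u u u h := by unfold Q4; congr 1; ext x; ring
  have a3 : Q4 u u h u = Q4 u u u h := by unfold Q4; congr 1; ext x; ring
  have b1 : Q4 h u h u = Q4 u u h h := by unfold Q4; congr 1; ext x; ring
  have b2 : Q4 h u u h = Q4 u u h h := by unfold Q4; congr 1; ext x; ring
  have b3 : Q4 u h h u = Q4 u u h h := by unfold Q4; congr 1; ext x; ring
  have b4 : Q4 u h u h = Q4 u u h h := by unfold Q4; congr 1; ext x; ring
  have b5 : Q4 h h u u = Q4 u u h h := by unfold Q4; congr 1; ext x; ring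
  have c1 : Q4 h h h u = Q4 u h h h := by unfold Q4; congr 1; ext x; ring
  have c2 : Q4 h h u h = Q4 u h h h := by unfold Q4; congr 1; ext x; ring
  have c3 : Q4 h u h h = Q4 u h h h := by unfold Q4; congr 1; ext x; ring
  rw [a1, a2, a3, b1, b2, b3, b4, b5, c1, c2, c3]
  ring

/-- module qa: `∫ (u + t h)² v w` -/
theorem Q_expand [Dim N] (u h v w : H1 N) (t : ℝ) :
    Q4 (u + t • h) (u + t • h) v w =
      Q4 u u v w + 2 * t * Q4 u h v w + t ^ 2 * Q4 h h v w := by
  simp only [Q4_add1, Q4_add2, Q4_smul1, Q4_smul2]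
  have a1 : Q4 h u v w = Q4 u h v w := Q4_swap12 h u v w
  rw [a1]
  ring

theorem Q4_nonneg (u v : H1 N) : 0 ≤ Q4 u u v v := by
  unfold Q4
  refine integral_nonneg fun x => ?_
  have : fn u x * fn u x * fn v x * fn v x = (fn u x * fn v x) ^ 2 := by ring
  simp only [this]
  positivity

/-- module qb: `fn u ≠ 0` on a set of positive measure (`H1_ext` with `v = 0`) -/
theorem Q4_pos [Dim N] {u : H1 N} (h : u ≠ 0) : 0 < Q4 u u u u := by
  rcases (Q4_nonneg u u).lt_or_eq with h1 | h1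
  · exact h1
  exfalso
  apply h
  unfold Q4 at h1
  have h2 := (integral_eq_zero_iff_of_nonneg (μ := (volume : Measure (E N)))
    (f := fun x => fn u x * fn u x * fn u x * fn u x) (fun x => by
      have : fn u x * fn u x * fn u x * fn u x = (fn u x * fn u x) ^ 2 := by ring
      simp only [Pi.zero_apply, this]
      positivity) (qa_integrable u u u u)).1 h1.symm
  refine H1_ext ?_
  filter_upwards [h2, fn_zero (N := N)] with x hx h0
  rw [h0]
  simpa using hx

/-- the norm of `L⁴` -/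
noncomputable def n4 (u : H1 N) : ℝ := (Q4 u u u u) ^ ((1 : ℝ) / 4)

theorem n4_nonneg (u : H1 N) : 0 ≤ n4 u := Real.rpow_nonneg (Q4_nonneg u u) _

/-- module qb -/
theorem n4_pow (u : H1 N) : n4 u ^ 4 = Q4 u u u u := by
  unfold n4
  rw [← Real.rpow_natCast, ← Real.rpow_mul (Q4_nonneg u u)]
  norm_num

/-- module qb -/
theorem n4_smul (c : ℝ) (u : H1 N) : n4 (c • u) = |c| * n4 u := by
  have h1 : n4 (c • u) ^ 4 = (|c| * n4 u) ^ 4 := by
    rw [n4_pow, mul_pow, n4_pow, Even.pow_abs (by decide)]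
    rw [Q4_smul1, Q4_smul2, Q4_smul3, Q4_smul4]
    ring
  exact (pow_left_inj₀ (n4_nonneg _) (mul_nonneg (abs_nonneg _) (n4_nonneg _)) (by norm_num)).1 h1

private theorem qb_eLpNorm [Dim N] (u : H1 N) :
    eLpNorm (fn u) 4 (volume : Measure (E N)) = ENNReal.ofReal (n4 u) := by
  rw [(fn_memLp4 u).eLpNorm_eq_integral_rpow_norm (by norm_num) (by norm_num)]
  congr 1
  unfold n4 Q4
  have e : (4 : ENNReal).toReal = ((4 : ℕ) : ℝ) := by norm_num
  rw [e]
  congr 1
  · congr 1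
    ext x
    rw [Real.rpow_natCast, Real.norm_eq_abs, Even.pow_abs (by decide)]
    ring
  · norm_num

/-- module qb: Minkowski in `L⁴` (`n4 u` is `(eLpNorm (fn u) 4 volume).toReal`) -/
theorem n4_add [Dim N] (u v : H1 N) : n4 (u + v) ≤ n4 u + n4 v := by
  have h := eLpNorm_add_le (μ := (volume : Measure (E N))) (f := fn u) (g := fn v) (p := 4)
    (fn_memLp4 u).1 (fn_memLp4 v).1 (by norm_num)
  have e : eLpNorm (fn u + fn v) 4 (volume : Measure (E N)) =
      eLpNorm (fn (u + v)) 4 (volume : Measure (E N)) := by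
    refine eLpNorm_congr_ae ?_
    filter_upwards [fn_add u v] with x hx
    rw [hx]; rfl
  rw [e, qb_eLpNorm, qb_eLpNorm, qb_eLpNorm, ← ENNReal.ofReal_add (n4_nonneg _) (n4_nonneg _)] at h
  exact (ENNReal.ofReal_le_ofReal_iff (add_nonneg (n4_nonneg _) (n4_nonneg _))).1 h

theorem n4_neg (u : H1 N) : n4 (-u) = n4 u := by
  rw [← neg_one_smul ℝ u, n4_smul]
  simp

theorem n4_sub_comm (u v : H1 N) : n4 (u - v) = n4 (v - u) := by
  rw [← neg_sub, n4_neg]

/-- module qb: generalised Hoelder inequality -/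
theorem Q4_le [Dim N] (u v w z : H1 N) : |Q4 u v w z| ≤ n4 u * n4 v * n4 w * n4 z := by
  have hn := n4_nonneg u
  have hv := n4_nonneg v
  have hw := n4_nonneg w
  have hz := n4_nonneg z
  have h1 := qa_cs' u v w z
  have h2 : Q4 u u v v ≤ (n4 u * n4 v) ^ 2 := by
    have := qa_cs' u u v v
    rw [← n4_pow u, ← n4_pow v] at this
    refine (abs_le_of_sq_le_sq' (b := (n4 u * n4 v) ^ 2) ?_ (by positivity)).2
    calc Q4 u u v v ^ 2 ≤ n4 u ^ 4 * n4 v ^ 4 := this
      _ = ((n4 u * n4 v) ^ 2) ^ 2 := by ring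
  have h3 : Q4 w w z z ≤ (n4 w * n4 z) ^ 2 := by
    have := qa_cs' w w z z
    rw [← n4_pow w, ← n4_pow z] at this
    refine (abs_le_of_sq_le_sq' (b := (n4 w * n4 z) ^ 2) ?_ (by positivity)).2
    calc Q4 w w z z ^ 2 ≤ n4 w ^ 4 * n4 z ^ 4 := this
      _ = ((n4 w * n4 z) ^ 2) ^ 2 := by ring
  refine abs_le_of_sq_le_sq ?_ (by positivity)
  calc Q4 u v w z ^ 2 ≤ Q4 u u v v * Q4 w w z z := h1
    _ ≤ (n4 u * n4 v) ^ 2 * (n4 w * n4 z) ^ 2 :=
        mul_le_mul h2 h3 (Q4_nonneg w z) (by positivity)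
    _ = (n4 u * n4 v * n4 w * n4 z) ^ 2 := by ring

/-- module qb: from `gn` -/
theorem n4_gn [Dim N] : ∃ C : ℝ, 0 < C ∧ ∀ u : H1 N, n4 u ^ 8 ≤ C * gY u u * ‖u‖ ^ 6 := by
  obtain ⟨C, hC, H⟩ := gn (N := N)
  refine ⟨C, hC, fun u => ?_⟩
  have h := H u
  have e1 : n4 u ^ 8 = (∫ x, fn u x ^ 4) ^ 2 := by
    have e2 : (∫ x, fn u x ^ 4) = Q4 u u u u := by
      unfold Q4; congr 1; ext x; ring
    rw [e2, ← n4_pow]; ring
  have e3 : ‖u‖ ^ 6 = (‖u‖ ^ 2) ^ 3 := by ring
  rw [e1, e3]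
  exact h

/-- module qb: from `n4_gn` and `gY u u ≤ ‖u‖²` -/
theorem n4_le [Dim N] : ∃ C : ℝ, 0 < C ∧ ∀ u : H1 N, n4 u ≤ C * ‖u‖ := by
  obtain ⟨C, hC, H⟩ := n4_gn (N := N)
  refine ⟨C + 1, by positivity, fun u => ?_⟩
  have h := H u
  have h2 : gY u u ≤ ‖u‖ ^ 2 := by
    rw [norm_sq_eq]
    have := gY_le_ip (l := 1) u
    linarith
  refine (pow_le_pow_iff_left₀ (n4_nonneg u) (by positivity) (n := 8) (by norm_num)).1 ?_
  calc n4 u ^ 8 ≤ C * gY u u * ‖u‖ ^ 6 := h
    _ ≤ C * ‖u‖ ^ 2 * ‖u‖ ^ 6 := by gcongr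
    _ = C * ‖u‖ ^ 8 := by ring
    _ ≤ (C + 1) ^ 8 * ‖u‖ ^ 8 := by
        gcongr
        calc C ≤ C + 1 := by linarith
          _ = (C + 1) ^ 1 := by ring
          _ ≤ (C + 1) ^ 8 := pow_le_pow_right₀ (by linarith) (by norm_num)
    _ = ((C + 1) * ‖u‖) ^ 8 := by ring

/-- module qb -/
theorem Q4_bound [Dim N] : ∃ C : ℝ, 0 < C ∧ ∀ u v w z : H1 N,
    |Q4 u v w z| ≤ C * ‖u‖ * ‖v‖ * ‖w‖ * ‖z‖ := by
  obtain ⟨C, hC, H⟩ := n4_le (N := N)
  refine ⟨C ^ 4, by positivity, fun u v w z => ?_⟩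
  have hn := n4_nonneg u
  have hv := n4_nonneg v
  have hw := n4_nonneg w
  have hz := n4_nonneg z
  calc |Q4 u v w z| ≤ n4 u * n4 v * n4 w * n4 z := Q4_le u v w z
    _ ≤ (C * ‖u‖) * (C * ‖v‖) * (C * ‖w‖) * (C * ‖z‖) := by
        gcongr
        · exact H u
        · exact H v
        · exact H w
        · exact H z
    _ = C ^ 4 * ‖u‖ * ‖v‖ * ‖w‖ * ‖z‖ := by ring

/-- module qc: Cauchy-Schwarz `(∫ u²v²)² ≤ ∫u⁴ ∫v⁴` -/
theorem Q4_cs [Dim N] (u v : H1 N) : Q4 u u v v ^ 2 ≤ Q4 u u u u * Q4 v v v v := by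
  exact qa_cs' u u v v

/-- module qc: more general: `(∫ u v w z)² ≤ ∫ u²v² ∫ w²z²` -/
theorem Q4_cs' [Dim N] (u v w z : H1 N) : Q4 u v w z ^ 2 ≤ Q4 u u v v * Q4 w w z z := by
  exact qa_cs' u v w z

/-- module qc: equality in Cauchy-Schwarz: with `k = Q4 u u v v / Q4 u u u u` one has
`∫ (v² - k u²)² = Q4 v v v v - 2 k Q4 u u v v + k² Q4 u u u u = 0`. -/
theorem Q4_cs_eq [Dim N] {u v : H1 N} (hu : u ≠ 0)
    (h : Q4 u u v v ^ 2 = Q4 u u u u * Q4 v v v v) :
    ∀ᵐ x, fn v x ^ 2 = (Q4 u u v v / Q4 u u u u) * fn u x ^ 2 := by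
  have hp := Q4_pos hu
  set k : ℝ := Q4 u u v v / Q4 u u u u with hk
  have hint : Integrable (fun x => (fn v x ^ 2 - k * fn u x ^ 2) ^ 2) (volume : Measure (E N)) := by
    have h1 := (qa_integrable v v v v).add
      (((qa_integrable u u v v).const_mul (-2 * k)).add ((qa_integrable u u u u).const_mul (k ^ 2)))
    refine h1.congr (Eventually.of_forall fun x => ?_)
    simp only [Pi.add_apply]
    ring
  have hval : ∫ x, (fn v x ^ 2 - k * fn u x ^ 2) ^ 2 = 0 := by
    have e : (fun x => (fn v x ^ 2 - k * fn u x ^ 2) ^ 2) = fun x =>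
        fn v x * fn v x * fn v x * fn v x + ((-2 * k) * (fn u x * fn u x * fn v x * fn v x) +
          k ^ 2 * (fn u x * fn u x * fn u x * fn u x)) := by
      ext x; ring
    have i1 : Integrable (fun x => (-2 * k) * (fn u x * fn u x * fn v x * fn v x))
      (volume : Measure (E N)) := (qa_integrable u u v v).const_mul _
    have i2 : Integrable (fun x => k ^ 2 * (fn u x * fn u x * fn u x * fn u x))
      (volume : Measure (E N)) := (qa_integrable u u u u).const_mul _
    have i3 : Integrable (fun x => (-2 * k) * (fn u x * fn u x * fn v x * fn v x) +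
          k ^ 2 * (fn u x * fn u x * fn u x * fn u x)) (volume : Measure (E N)) := i1.add i2
    rw [e, integral_add (qa_integrable v v v v) i3, integral_add i1 i2, integral_const_mul,
      integral_const_mul]
    change Q4 v v v v + ((-2 * k) * Q4 u u v v + k ^ 2 * Q4 u u u u) = 0
    have hk' : Q4 u u v v = k * Q4 u u u u := by
      rw [hk]; field_simp
    rw [hk'] at h ⊢
    have : Q4 v v v v = k ^ 2 * Q4 u u u u := by
      have h5 : Q4 u u u u * (Q4 v v v v - k ^ 2 * Q4 u u u u) = 0 := by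
        nlinarith
      rcases mul_eq_zero.1 h5 with h6 | h6
      · exact absurd h6 hp.ne'
      · linarith
    rw [this]; ring
  have h2 := (integral_eq_zero_iff_of_nonneg (μ := (volume : Measure (E N)))
    (f := fun x => (fn v x ^ 2 - k * fn u x ^ 2) ^ 2) (fun x => sq_nonneg _) hint).1 hval
  filter_upwards [h2] with x hx
  have h3 : (fn v x ^ 2 - k * fn u x ^ 2) ^ 2 = 0 := hx
  have h4 := pow_eq_zero_iff (n := 2) (by norm_num) |>.1 h3
  linarith

/-- module qc: if the squares agree the quartic forms agree -/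
theorem Q4_congr_sq {u u' : H1 N} (h : ∀ᵐ x, fn u x ^ 2 = fn u' x ^ 2) (v w : H1 N) :
    Q4 u u v w = Q4 u' u' v w := by
  unfold Q4
  refine integral_congr_ae ?_
  filter_upwards [h] with x hx
  calc fn u x * fn u x * fn v x * fn w x = fn u x ^ 2 * (fn v x * fn w x) := by ring
    _ = fn u' x ^ 2 * (fn v x * fn w x) := by rw [hx]
    _ = fn u' x * fn u' x * fn v x * fn w x := by ring

private theorem qc_n4 [Dim N] {u : ℕ → H1 N} {u0 : H1 N}
    (hu : Tendsto (fun n => n4 (u n - u0)) atTop (𝓝 0)) :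
    Tendsto (fun n => n4 (u n)) atTop (𝓝 (n4 u0)) := by
  rw [tendsto_iff_norm_sub_tendsto_zero]
  refine squeeze_zero (fun n => norm_nonneg _) (fun n => ?_) hu
  rw [Real.norm_eq_abs, abs_le]
  constructor
  · have h := n4_add (u0 - u n) (u n)
    rw [sub_add_cancel, n4_sub_comm] at h
    linarith
  · have h := n4_add (u n - u0) u0
    rw [sub_add_cancel] at h
    linarith

private theorem qc_zero [Dim N] {a b c d : ℕ → H1 N} {lb lc ld : ℝ}
    (ha : Tendsto (fun n => n4 (a n)) atTop (𝓝 0))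
    (hb : Tendsto (fun n => n4 (b n)) atTop (𝓝 lb))
    (hc : Tendsto (fun n => n4 (c n)) atTop (𝓝 lc))
    (hd : Tendsto (fun n => n4 (d n)) atTop (𝓝 ld)) :
    Tendsto (fun n => Q4 (a n) (b n) (c n) (d n)) atTop (𝓝 0) := by
  have h := ((ha.mul hb).mul hc).mul hd
  simp only [zero_mul] at h
  exact squeeze_zero_norm (fun n => Q4_le _ _ _ _) h

/-- module qc: convergence in `L⁴` of all four factors -/
theorem Q4_tendsto [Dim N] (u v w z : ℕ → H1 N) (u0 v0 w0 z0 : H1 N)
    (hu : Tendsto (fun n => n4 (u n - u0)) atTop (𝓝 0))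
    (hv : Tendsto (fun n => n4 (v n - v0)) atTop (𝓝 0))
    (hw : Tendsto (fun n => n4 (w n - w0)) atTop (𝓝 0))
    (hz : Tendsto (fun n => n4 (z n - z0)) atTop (𝓝 0)) :
    Tendsto (fun n => Q4 (u n) (v n) (w n) (z n)) atTop (𝓝 (Q4 u0 v0 w0 z0)) := by
  have hu' := qc_n4 hu
  have hv' := qc_n4 hv
  have hw' := qc_n4 hw
  have hz' := qc_n4 hz
  have hcst : ∀ y : H1 N, Tendsto (fun _ : ℕ => n4 y) atTop (𝓝 (n4 y)) := fun y => tendsto_const_nhds
  have t1 : Tendsto (fun n => Q4 (u n - u0) (v n) (w n) (z n)) atTop (𝓝 0) :=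
    qc_zero hu hv' hw' hz'
  have t2 : Tendsto (fun n => Q4 u0 (v n - v0) (w n) (z n)) atTop (𝓝 0) := by
    have := qc_zero (b := fun _ => u0) hv (hcst u0) hw' hz'
    refine this.congr fun n => ?_
    exact Q4_swap12 _ _ _ _
  have t3 : Tendsto (fun n => Q4 u0 v0 (w n - w0) (z n)) atTop (𝓝 0) := by
    have := qc_zero (b := fun _ => u0) (c := fun _ => v0) hw (hcst u0) (hcst v0) hz'
    refine this.congr fun n => ?_
    rw [Q4_swap12, Q4_swap23]
  have t4 : Tendsto (fun n => Q4 u0 v0 w0 (z n - z0)) atTop (𝓝 0) := by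
    have := qc_zero (b := fun _ => u0) (c := fun _ => v0) (d := fun _ => w0) hz
      (hcst u0) (hcst v0) (hcst w0)
    refine this.congr fun n => ?_
    rw [Q4_swap12, Q4_swap23, Q4_swap34]
  have hsum := (((tendsto_const_nhds (x := Q4 u0 v0 w0 z0)).add t1).add t2).add (t3.add t4)
  simp only [add_zero] at hsum
  refine hsum.congr fun n => ?_
  simp only [Q4_sub1, Q4_sub2, Q4_sub3, Q4_sub4]
  ring

/-- module qc: convergence in `H1` implies convergence in `L⁴` -/
theorem n4_tendsto [Dim N] {u : ℕ → H1 N} {u0 : H1 N} (h : Tendsto u atTop (𝓝 u0)) :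
    Tendsto (fun n => n4 (u n - u0)) atTop (𝓝 0) := by
  obtain ⟨C, hC, H⟩ := n4_le (N := N)
  have h1 := (tendsto_iff_norm_sub_tendsto_zero.1 h).const_mul C
  rw [mul_zero] at h1
  exact squeeze_zero (fun n => n4_nonneg _) (fun n => H _) h1

private theorem qd_loc [Dim N] (u v w : H1 N) :
    LocallyIntegrable (fun x => fn u x * fn v x * fn w x) (volume : Measure (E N)) := by
  have h1 : LocallyIntegrable (fun x => fn u x ^ 4 + fn v x ^ 4 + fn w x ^ 4 + 1)
      (volume : Measure (E N)) :=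
    (((qa_int4 u).add (qa_int4 v)).add (qa_int4 w)).locallyIntegrable.add
      (locallyIntegrable_const (1 : ℝ))
  refine h1.mono (((Lp.aestronglyMeasurable u.val.fst).mul (Lp.aestronglyMeasurable v.val.fst)).mul
    (Lp.aestronglyMeasurable w.val.fst)) (Eventually.of_forall fun x => ?_)
  rw [Real.norm_eq_abs, Real.norm_eq_abs]
  have h := qa_amgm (fn u x) (fn v x) (fn w x) 1
  rw [mul_one] at h
  calc |fn u x * fn v x * fn w x| ≤ fn u x ^ 4 + fn v x ^ 4 + fn w x ^ 4 + 1 ^ 4 := h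
    _ = fn u x ^ 4 + fn v x ^ 4 + fn w x ^ 4 + 1 := by norm_num
    _ ≤ _ := le_abs_self _

private theorem qd_const_mul {f : E N → ℝ} (c : ℝ)
    (h : LocallyIntegrable f (volume : Measure (E N))) :
    LocallyIntegrable (fun x => c * f x) (volume : Measure (E N)) := h.smul c

/-- module qd: a fundamental lemma: if `∫ (α u v w - β a b c) h = 0` for all `h` in `H1` then
`α u v w = β a b c` almost everywhere (test functions `C^∞_c` are in `H1` by `ofCc`;
`ae_eq_zero_of_integral_contDiff_smul_eq_zero`). -/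
theorem Q4_fund [Dim N] (al be : ℝ) (u v w a b c : H1 N)
    (h : ∀ z : H1 N, al * Q4 u v w z = be * Q4 a b c z) :
    ∀ᵐ x, al * (fn u x * fn v x * fn w x) = be * (fn a x * fn b x * fn c x) := by
  have hloc := fun u v w : H1 N => qd_loc u v w
  have hF : LocallyIntegrable (fun x => al * (fn u x * fn v x * fn w x) -
      be * (fn a x * fn b x * fn c x)) (volume : Measure (E N)) :=
    (qd_const_mul al (hloc u v w)).sub
      (qd_const_mul be (hloc a b c))
  have h2 := ae_eq_zero_of_integral_contDiff_smul_eq_zero hF (fun g hg1 hg2 => by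
    obtain ⟨z, hz, -⟩ := ofCc g (hg1.of_le (by exact_mod_cast le_top)) hg2
    have hz' := h z
    have e : ∫ x, g x • (al * (fn u x * fn v x * fn w x) - be * (fn a x * fn b x * fn c x)) =
        ∫ x, (al * (fn u x * fn v x * fn w x * fn z x) -
          be * (fn a x * fn b x * fn c x * fn z x)) := by
      refine integral_congr_ae ?_
      filter_upwards [hz] with x hx
      rw [hx, smul_eq_mul]; ring
    rw [e, integral_sub ((qa_integrable u v w z).const_mul _) ((qa_integrable a b c z).const_mul _),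
      integral_const_mul, integral_const_mul]
    change al * Q4 u v w z - be * Q4 a b c z = 0
    linarith)
  filter_upwards [h2] with x hx
  linarith

end Sir
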