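import Pool.Agent.Sir.Weak
/-!
# Radial and radially nonincreasing functions
modules: rda, rdb, rdc
-/

namespace Sir

open MeasureTheory Filter Topology

variable {N : ℕ}

/-- radial elements of `H1` (invariant under all linear isometries) -/
def Rad (u : H1 N) : Prop := ∀ R : E N ≃ₗᵢ[ℝ] E N, (fun x => fn u (R x)) =ᵐ[volume] fn u

/-- nonnegative, radially nonincreasing elements of `H1`, expressed by ball integrals -/
def RD (u : H1 N) : Prop := (∀ᵐ x : E N, 0 ≤ fn u x) ∧
  ∀ (r : ℝ) (x y : E N), 0 < r → ‖x‖ ≤ ‖y‖ →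
    ∫ z in Metric.ball y r, fn u z ≤ ∫ z in Metric.ball x r, fn u z

/-- module rda -/
theorem Rad_add {u v : H1 N} (hu : Rad u) (hv : Rad v) : Rad (u + v) := by
  intro R
  have hq := R.measurePreserving.quasiMeasurePreserving
  filter_upwards [fn_add u v, hq.tendsto_ae.eventually (fn_add u v), hu R, hv R]
    with x h1 h2 h3 h4
  rw [h1, h2, h3, h4]

/-- module rda -/
theorem Rad_smul {u : H1 N} (hu : Rad u) (c : ℝ) : Rad (c • u) := by
  intro R
  have hq := R.measurePreserving.quasiMeasurePreserving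
  filter_upwards [fn_smul c u, hq.tendsto_ae.eventually (fn_smul c u), hu R]
    with x h1 h2 h3
  rw [h1, h2, h3]

theorem Rad_neg {u : H1 N} (hu : Rad u) : Rad (-u) := by
  have := Rad_smul hu (-1)
  simpa using this

theorem Rad_sub {u v : H1 N} (hu : Rad u) (hv : Rad v) : Rad (u - v) := by
  rw [sub_eq_add_neg]
  exact Rad_add hu (Rad_neg hv)

/-- module rda: the radial elements form a weakly closed set
(`∫ u(Rx) h(x) dx = ∫ u(x) h(R⁻¹x) dx`, `WC_L2`) -/
theorem Rad_WC {u : ℕ → H1 N} {w : H1 N} (h : WC u w) (hu : ∀ n, Rad (u n)) : Rad w := by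
  intro R
  set d : E N → ℝ := fun x => fn w (R x) - fn w x with hd
  have hmR : MemLp (fun x => fn w (R x)) 2 (volume : Measure (E N)) :=
    (fn_memLp w).comp_measurePreserving R.measurePreserving
  have hdm : MemLp d 2 (volume : Measure (E N)) := hmR.sub (fn_memLp w)
  have hdR : MemLp (fun x => d (R.symm x)) 2 (volume : Measure (E N)) :=
    hdm.comp_measurePreserving R.symm.measurePreserving
  have hch : ∀ f : E N → ℝ, ∫ x, f (R x) * d x = ∫ x, f x * d (R.symm x) := fun f => by
    have h1 := R.measurePreserving.integral_comp R.toHomeomorph.measurableEmbedding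
      (fun x => f x * d (R.symm x))
    rw [← h1]
    refine integral_congr_ae (Eventually.of_forall fun x => ?_)
    simp only [LinearIsometryEquiv.symm_apply_apply]
  have h1 : Tendsto (fun n => ∫ x, fn (u n) x * d (R.symm x)) atTop
      (𝓝 (∫ x, fn w (R x) * d x)) := by
    rw [hch]
    exact WC_L2 h _ hdR
  have h2 : Tendsto (fun n => ∫ x, fn (u n) x * d x) atTop (𝓝 (∫ x, fn w x * d x)) :=
    WC_L2 h _ hdm
  have h3 : ∀ n, ∫ x, fn (u n) x * d (R.symm x) = ∫ x, fn (u n) x * d x := fun n => by
    rw [← hch]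
    refine integral_congr_ae ?_
    filter_upwards [hu n R] with x hx
    rw [hx]
  have h4 : ∫ x, fn w (R x) * d x = ∫ x, fn w x * d x :=
    tendsto_nhds_unique (h1.congr h3) h2
  have h5 : ∫ x, d x ^ 2 = 0 := by
    have h6 : ∫ x, d x ^ 2 = (∫ x, fn w (R x) * d x) - ∫ x, fn w x * d x := by
      have h7 : Integrable (fun x => fn w (R x) * d x) (volume : Measure (E N)) :=
        hmR.integrable_mul hdm
      have h8 : Integrable (fun x => fn w x * d x) (volume : Measure (E N)) :=
        (fn_memLp w).integrable_mul hdm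
      rw [← integral_sub h7 h8]
      refine integral_congr_ae (Eventually.of_forall fun x => ?_)
      simp only [hd]
      ring
    rw [h6, h4, sub_self]
  have h6 := (integral_eq_zero_iff_of_nonneg (fun x => sq_nonneg (d x)) hdm.integrable_sq).mp h5
  filter_upwards [h6] with x hx
  have h7 : d x = 0 := pow_eq_zero_iff two_ne_zero |>.mp hx
  exact sub_eq_zero.mp h7

/-- module rda -/
theorem RD_smul {u : H1 N} (hu : RD u) {c : ℝ} (hc : 0 ≤ c) : RD (c • u) := by
  refine ⟨?_, fun r x y hr hxy => ?_⟩
  · filter_upwards [hu.1, fn_smul c u] with x h1 h2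
    rw [h2]
    exact mul_nonneg hc h1
  · have h1 : ∀ z : E N, ∫ t in Metric.ball z r, fn (c • u) t =
        c * ∫ t in Metric.ball z r, fn u t := fun z => by
      rw [← integral_const_mul]
      refine integral_congr_ae (ae_restrict_of_ae ?_)
      filter_upwards [fn_smul c u] with t ht
      rw [ht]
    rw [h1, h1]
    exact mul_le_mul_of_nonneg_left (hu.2 r x y hr hxy) hc

private theorem rda_ind (s : Set (E N)) (f : E N → ℝ) (z : E N) :
    s.indicator f z = s.indicator (fun _ => (1 : ℝ)) z * f z := by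
  by_cases h : z ∈ s
  · rw [Set.indicator_of_mem h, Set.indicator_of_mem h, one_mul]
  · rw [Set.indicator_of_notMem h, Set.indicator_of_notMem h, zero_mul]

/-- module rda: weakly closed (`WC_L2` with indicators of balls; nonnegativity: `∫ w g ≥ 0` for all `g ≥ 0` in
`L²`) -/
theorem RD_WC {u : ℕ → H1 N} {w : H1 N} (h : WC u w) (hu : ∀ n, RD (u n)) : RD w := by
  refine ⟨?_, fun r x y hr hxy => ?_⟩
  · set g : E N → ℝ := fun x => max (-(fn w x)) 0 with hg
    have hgm : MemLp g 2 (volume : Measure (E N)) := by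
      have h1 : MemLp (fun x => -(fn w x)) 2 (volume : Measure (E N)) := (fn_memLp w).neg
      exact h1.pos_part
    have h1 := WC_L2 h g hgm
    have h2 : 0 ≤ ∫ x, fn w x * g x := by
      refine ge_of_tendsto' h1 fun n => integral_nonneg_of_ae ?_
      filter_upwards [(hu n).1] with x hx
      exact mul_nonneg hx (le_max_right _ _)
    have h3 : ∫ x, g x ^ 2 = - ∫ x, fn w x * g x := by
      rw [← integral_neg]
      refine integral_congr_ae (Eventually.of_forall fun x => ?_)
      simp only [hg]
      rcases le_total 0 (-(fn w x)) with h4 | h4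
      · rw [max_eq_left h4]; ring
      · rw [max_eq_right h4]; ring
    have h4 : ∫ x, g x ^ 2 = 0 :=
      le_antisymm (by rw [h3]; linarith) (integral_nonneg fun x => sq_nonneg _)
    have h6 := (integral_eq_zero_iff_of_nonneg (fun x => sq_nonneg (g x)) hgm.integrable_sq).mp h4
    filter_upwards [h6] with x hx
    have h7 : g x = 0 := pow_eq_zero_iff two_ne_zero |>.mp hx
    have h8 : -(fn w x) ≤ g x := le_max_left _ _
    linarith
  · have key : ∀ z : E N, Tendsto (fun n => ∫ t in Metric.ball z r, fn (u n) t) atTop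
        (𝓝 (∫ t in Metric.ball z r, fn w t)) := fun z => by
      have hm : MemLp ((Metric.ball z r).indicator fun _ => (1 : ℝ)) 2
          (volume : Measure (E N)) :=
        memLp_indicator_const 2 measurableSet_ball 1
          (Or.inr (Metric.isBounded_ball.measure_lt_top).ne)
      have h1 := WC_L2 h _ hm
      have h2 : ∀ v : H1 N, ∫ t, fn v t * (Metric.ball z r).indicator (fun _ => (1 : ℝ)) t =
          ∫ t in Metric.ball z r, fn v t := fun v => by
        rw [← integral_indicator measurableSet_ball]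
        refine integral_congr_ae (Eventually.of_forall fun t => ?_)
        simp only
        rw [rda_ind _ (fn v), mul_comm]
      simp only [h2] at h1
      exact h1
    exact le_of_tendsto_of_tendsto' (key y) (key x) fun n => (hu n).2 r x y hr hxy

private theorem rdb_nontriv [Dim N] : Nontrivial (E N) := by
  rcases (inferInstance : Dim N).h with h | h
  · subst h; infer_instance
  · subst h; infer_instance

/-- module rdb: Lebesgue differentiation (`Besicovitch`/`VitaliFamily` or
`IsUnifLocDoublingMeasure.ae_tendsto_average`): the means over `ball x (1/n)` depend only on `‖x‖` and are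
nonincreasing in `‖x‖`, and converge a.e. to `fn u x`. Put `f r = limsup` of the means at a point with norm `r`
(careful with real valued limsup; e.g. use `liminf` in `EReal`, or `f r = sInf/sSup` over good points), and modify
it on the exceptional set: an antitone function on `(0,∞)`. -/
theorem RD_prof [Dim N] {u : H1 N} (hu : RD u) : ∃ f : ℝ → ℝ, AntitoneOn f (Set.Ioi 0) ∧
    (∀ r, 0 ≤ f r) ∧ fn u =ᵐ[volume] fun x => f ‖x‖ := by
  have hN := rdb_nontriv (N := N)
  have hli : LocallyIntegrable (fn u) (volume : Measure (E N)) :=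
    (fn_memLp u).locallyIntegrable one_le_two
  have hcb : ∀ (r : ℝ) (x y : E N), 0 < r → ‖x‖ ≤ ‖y‖ →
      ⨍ z in Metric.closedBall y r, fn u z ≤ ⨍ z in Metric.closedBall x r, fn u z := by
    intro r x y hr hxy
    have h1 : ∀ z : E N, ∫ t in Metric.closedBall z r, fn u t =
        ∫ t in Metric.ball z r, fn u t := fun z => by
      refine setIntegral_congr_set ?_
      rw [← Metric.ball_union_sphere]
      have h2 : (Metric.sphere z r : Set (E N)) =ᵐ[volume] (∅ : Set (E N)) :=
        ae_eq_empty.mpr (Measure.addHaar_sphere_of_ne_zero volume z hr.ne')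
      have h3 := (ae_eq_refl (Metric.ball z r)).union h2
      rw [Set.union_empty] at h3
      exact h3
    have h2 : ∀ z : E N, (volume : Measure (E N)).real (Metric.closedBall z r) =
        (volume : Measure (E N)).real (Metric.closedBall 0 r) := fun z => by
      rw [measureReal_def, measureReal_def, Measure.addHaar_closedBall_center]
    rw [setAverage_eq, setAverage_eq, h1, h1, h2 y, h2 x]
    exact mul_le_mul_of_nonneg_left (hu.2 r x y hr hxy) (by positivity)
  have hleb := (Besicovitch.vitaliFamily (volume : Measure (E N))).ae_tendsto_average hli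
  have hleb2 : ∀ᵐ x : E N, Tendsto (fun r : ℝ => ⨍ z in Metric.closedBall x r, fn u z) (𝓝[>] 0)
      (𝓝 (fn u x)) := by
    filter_upwards [hleb] with x hx
    exact hx.comp (Besicovitch.tendsto_filterAt volume x)
  set G : Set (E N) := {x | 0 ≤ fn u x ∧
    Tendsto (fun r : ℝ => ⨍ z in Metric.closedBall x r, fn u z) (𝓝[>] 0) (𝓝 (fn u x))} with hG
  have hGae : ∀ᵐ x : E N, x ∈ G := by
    filter_upwards [hu.1, hleb2] with x h1 h2
    exact ⟨h1, h2⟩
  have hanti : ∀ x ∈ G, ∀ y ∈ G, ‖x‖ ≤ ‖y‖ → fn u y ≤ fn u x := by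
    intro x hx y hy hxy
    refine le_of_tendsto_of_tendsto hy.2 hx.2 ?_
    filter_upwards [self_mem_nhdsWithin] with r hr
    exact hcb r x y hr hxy
  have hex : ∀ (z : E N) (r : ℝ), 0 < r → ∃ x ∈ G, x ∈ Metric.ball z r ∧ x ≠ 0 := by
    intro z r hr
    have h1 : 0 < volume (Metric.ball z r : Set (E N)) := Metric.measure_ball_pos volume z hr
    have h0 : ∀ᵐ x : E N, x ≠ 0 := by
      rw [ae_iff]
      simp
    have h2 : ∃ᶠ x in ae (volume : Measure (E N)), x ∈ Metric.ball z r := by
      intro h3
      rw [← measure_eq_zero_iff_ae_notMem] at h3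
      exact h1.ne' h3
    obtain ⟨x, hx1, hx2, hx3⟩ := (h2.and_eventually (hGae.and h0)).exists
    exact ⟨x, hx2, hx1, hx3⟩
  have hsm : ∀ r : ℝ, 0 < r → ∃ x ∈ G, ‖x‖ ≤ r ∧ x ≠ 0 := fun r hr => by
    obtain ⟨x, h1, h2, h3⟩ := hex 0 r hr
    exact ⟨x, h1, (mem_ball_zero_iff.mp h2).le, h3⟩
  have hlg : ∀ r : ℝ, 0 < r → ∃ x ∈ G, r ≤ ‖x‖ := fun r hr => by
    obtain ⟨z, hz⟩ := exists_norm_eq (E N) (show (0 : ℝ) ≤ r + 1 by linarith)
    obtain ⟨x, h1, h2, -⟩ := hex z 1 one_pos
    refine ⟨x, h1, ?_⟩
    rw [Metric.mem_ball, dist_eq_norm] at h2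
    have h3 := norm_sub_norm_le z x
    rw [norm_sub_rev z x] at h3
    linarith
  set S : ℝ → Set ℝ := fun r => fn u '' {y | y ∈ G ∧ r ≤ ‖y‖} with hS
  have hSbd : ∀ r, 0 < r → BddAbove (S r) := fun r hr => by
    obtain ⟨x, hx, hxr, -⟩ := hsm r hr
    refine ⟨fn u x, ?_⟩
    rintro _ ⟨y, ⟨hy, hry⟩, rfl⟩
    exact hanti x hx y hy (hxr.trans hry)
  have hSne : ∀ r, 0 < r → (S r).Nonempty := fun r hr => by
    obtain ⟨x, hx, hxr⟩ := hlg r hr
    exact ⟨fn u x, x, ⟨hx, hxr⟩, rfl⟩
  refine ⟨fun r => sSup (S r), ?_, fun r => ?_, ?_⟩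
  · intro r hr r' hr' hrr
    refine csSup_le_csSup (hSbd r hr) (hSne r' hr') ?_
    rintro _ ⟨y, ⟨hy, hry⟩, rfl⟩
    exact ⟨y, ⟨hy, hrr.trans hry⟩, rfl⟩
  · refine Real.sSup_nonneg ?_
    rintro _ ⟨y, ⟨hy, hry⟩, rfl⟩
    exact hy.1
  · filter_upwards [hGae] with x hx
    have hgr : IsGreatest (S ‖x‖) (fn u x) := by
      refine ⟨⟨x, ⟨hx, le_rfl⟩, rfl⟩, ?_⟩
      rintro _ ⟨y, ⟨hy, hry⟩, rfl⟩
      exact hanti x hx y hy hry
    exact hgr.csSup_eq.symm

/-- module rdb: from `RD_prof` -/
theorem RD_Rad [Dim N] {u : H1 N} (hu : RD u) : Rad u := by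
  intro R
  obtain ⟨f, -, -, hf⟩ := RD_prof hu
  have hq := R.measurePreserving.quasiMeasurePreserving
  filter_upwards [hf, hq.tendsto_ae.eventually hf] with x h1 h2
  rw [h1, h2, LinearIsometryEquiv.norm_map]

private theorem rdb_ind_le {s t : Set (E N)} {z : E N} (h : z ∈ s → z ∈ t) :
    s.indicator (fun _ => (1 : ℝ)) z ≤ t.indicator (fun _ => (1 : ℝ)) z := by
  by_cases h1 : z ∈ s
  · rw [Set.indicator_of_mem h1, Set.indicator_of_mem (h h1)]
  · rw [Set.indicator_of_notMem h1]
    exact Set.indicator_nonneg (fun _ _ => zero_le_one) z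

/-- module rdb: converse of `RD_prof`. Proof: for `‖x‖ < ‖y‖` the reflection `s` in the bisecting hyperplane of `x, y` maps
`ball y r` to `ball x r`; on the side `H` of `x` one has `‖z‖ ≤ ‖s z‖` and `ball y r ∩ H ⊆ ball x r`, so
`∫_{ball x r} u - ∫_{ball y r} u = ∫_H (1_{ball x r} - 1_{ball y r}) (u - u∘s) ≥ 0`. (`‖x‖ = ‖y‖`: by invariance or
by continuity.) -/
theorem RD_of_prof [Dim N] {u : H1 N} {f : ℝ → ℝ} (hf : AntitoneOn f (Set.Ioi 0))
    (h0 : ∀ r, 0 ≤ f r) (h : fn u =ᵐ[volume] fun x => f ‖x‖) : RD u := by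
  have hN := rdb_nontriv (N := N)
  refine ⟨?_, fun r x y hr hxy => ?_⟩
  · filter_upwards [h] with x hx
    rw [hx]
    exact h0 _
  · rcases eq_or_ne x y with hne | hne
    · rw [hne]
    have hxy0 : 0 < ‖y - x‖ := norm_pos_iff.mpr (sub_ne_zero.mpr hne.symm)
    set e : E N := (‖y - x‖)⁻¹ • (y - x) with he
    have he1 : ‖e‖ = 1 := by
      rw [he, norm_smul, norm_inv, norm_norm, inv_mul_cancel₀ hxy0.ne']
    have hyx : y - x = ‖y - x‖ • e := by
      rw [he, smul_smul, mul_inv_cancel₀ hxy0.ne', one_smul]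
    set d : ℝ := (‖y‖ ^ 2 - ‖x‖ ^ 2) / (2 * ‖y - x‖) with hd
    have hd0 : 0 ≤ d := by
      have h1 : ‖x‖ ^ 2 ≤ ‖y‖ ^ 2 := pow_le_pow_left₀ (norm_nonneg _) hxy 2
      exact div_nonneg (by linarith) (by positivity)
    have hd2 : 2 * d * ‖y - x‖ = ‖y‖ ^ 2 - ‖x‖ ^ 2 := by
      rw [hd]
      field_simp
    set s : E N → E N := fun z => z - (2 * (inner ℝ z e - d)) • e with hs
    have hse : ∀ z, inner ℝ (s z) e = 2 * d - inner ℝ z e := fun z => by
      simp only [hs, inner_sub_left, real_inner_smul_left, real_inner_self_eq_norm_sq, he1]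
      ring
    have hss : ∀ z, s (s z) = z := fun z => by
      have h1 := hse z
      change s z - (2 * (inner ℝ (s z) e - d)) • e = z
      rw [h1]
      simp only [hs]
      rw [sub_sub, ← add_smul]
      have h2 : 2 * (inner ℝ z e - d) + 2 * (2 * d - inner ℝ z e - d) = 0 := by ring
      rw [h2, zero_smul, sub_zero]
    have hsn : ∀ z, ‖s z‖ ^ 2 = ‖z‖ ^ 2 - 4 * d * (inner ℝ z e - d) := fun z => by
      simp only [hs]
      rw [norm_sub_sq_real, norm_smul, he1, real_inner_smul_right, mul_one, Real.norm_eq_abs,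
        sq_abs]
      ring
    have hsub : ∀ z w : E N, ‖s z - w‖ ^ 2 = ‖z - w‖ ^ 2 -
        4 * (inner ℝ z e - d) * (inner ℝ z e - inner ℝ w e) +
          4 * (inner ℝ z e - d) ^ 2 := fun z w => by
      have h1 : s z - w = (z - w) - (2 * (inner ℝ z e - d)) • e := by
        simp only [hs]; abel
      rw [h1, norm_sub_sq_real, norm_smul, he1, real_inner_smul_right, mul_one,
        Real.norm_eq_abs, sq_abs, inner_sub_left]
      ring
    have hie : inner ℝ x e + inner ℝ y e = 2 * d := by
      have h1 : (inner ℝ x e + inner ℝ y e) * ‖y - x‖ = 2 * d * ‖y - x‖ := by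
        rw [hd2, he]
        simp only [real_inner_smul_right, inner_sub_right, real_inner_self_eq_norm_sq]
        rw [real_inner_comm x y]
        field_simp
        ring
      exact mul_right_cancel₀ hxy0.ne' h1
    have hdf : ∀ z : E N, ‖z - x‖ ^ 2 = ‖z - y‖ ^ 2 + 2 * ‖y - x‖ * (inner ℝ z e - d) := fun z => by
      have h1 : z - x = (z - y) + ‖y - x‖ • e := by rw [← hyx]; abel
      rw [h1, norm_add_sq_real, norm_smul, he1, real_inner_smul_right, mul_one, norm_norm,
        inner_sub_left]
      have h2 : inner ℝ y e - inner ℝ x e = ‖y - x‖ := by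
        rw [← inner_sub_left, hyx, real_inner_smul_left, real_inner_self_eq_norm_sq, he1, norm_smul,
          he1, norm_norm]
        ring
      have h3 : inner ℝ y e = d + ‖y - x‖ / 2 := by linarith
      rw [h3]
      ring
    have hsx : s x = y := by
      have h2 : inner ℝ y e - inner ℝ x e = ‖y - x‖ := by
        rw [← inner_sub_left, hyx, real_inner_smul_left, real_inner_self_eq_norm_sq, he1, norm_smul,
          he1, norm_norm]
        ring
      have h3 : 2 * (inner ℝ x e - d) = - ‖y - x‖ := by linarith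
      change x - (2 * (inner ℝ x e - d)) • e = y
      rw [h3, neg_smul, sub_neg_eq_add, ← hyx]
      abel
    have hsiso : ∀ z w : E N, ‖s z - s w‖ = ‖z - w‖ := fun z w => by
      have h1 : ‖s z - s w‖ ^ 2 = ‖z - w‖ ^ 2 := by
        have h2 : s z - s w = (z - w) - (2 * inner ℝ (z - w) e) • e := by
          simp only [hs, inner_sub_left]
          have h3 : 2 * (inner ℝ z e - inner ℝ w e) =
            2 * (inner ℝ z e - d) - 2 * (inner ℝ w e - d) := by ring
          rw [h3, sub_smul]
          abel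
        rw [h2, norm_sub_sq_real, norm_smul, he1, real_inner_smul_right, mul_one,
          Real.norm_eq_abs, sq_abs]
        ring
      exact (pow_left_inj₀ (norm_nonneg _) (norm_nonneg _) two_ne_zero).mp h1
    have hsmp : MeasurePreserving s (volume : Measure (E N)) volume := by
      have h1 : s = (fun z => z + (2 * d) • e) ∘ ((ℝ ∙ e)ᗮ.reflection) := by
        funext z
        simp only [Function.comp_apply, hs, Submodule.reflection_orthogonal_apply,
          Submodule.reflection_singleton_apply, he1]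
        rw [real_inner_comm e z]
        simp only [RCLike.ofReal_real_eq_id, id_eq, one_pow, div_one, mul_sub, sub_smul, mul_smul,
          two_smul]
        abel
      rw [h1]
      exact (measurePreserving_add_right volume ((2 * d) • e)).comp
        (ℝ ∙ e)ᗮ.reflection.measurePreserving
    have hsc : Continuous s := by
      simp only [hs]
      fun_prop
    have hsemb : MeasurableEmbedding s := by
      have h1 : Function.Involutive s := hss
      exact (Homeomorph.mk h1.toPerm hsc hsc).measurableEmbedding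
    have hint : ∀ z : E N, IntegrableOn (fn u) (Metric.ball z r) volume := fun z =>
      (((fn_memLp u).locallyIntegrable one_le_two).integrableOn_isCompact
        (isCompact_closedBall z r)).mono_set Metric.ball_subset_closedBall
    set A : E N → ℝ := (Metric.ball x r).indicator (fun _ => (1 : ℝ)) with hA
    set B : E N → ℝ := (Metric.ball y r).indicator (fun _ => (1 : ℝ)) with hB
    have hAi : Integrable (fun z => A z * fn u z) (volume : Measure (E N)) := by
      have h1 := (integrable_indicator_iff measurableSet_ball).mpr (hint x)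
      exact h1.congr (Eventually.of_forall fun z => rda_ind _ (fn u) z)
    have hBi : Integrable (fun z => B z * fn u z) (volume : Measure (E N)) := by
      have h1 := (integrable_indicator_iff measurableSet_ball).mpr (hint y)
      exact h1.congr (Eventually.of_forall fun z => rda_ind _ (fn u) z)
    have hAe : ∫ z in Metric.ball x r, fn u z = ∫ z, A z * fn u z := by
      rw [← integral_indicator measurableSet_ball]
      exact integral_congr_ae (Eventually.of_forall fun z => rda_ind _ (fn u) z)
    have hBe : ∫ z in Metric.ball y r, fn u z = ∫ z, B z * fn u z := by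
      rw [← integral_indicator measurableSet_ball]
      exact integral_congr_ae (Eventually.of_forall fun z => rda_ind _ (fn u) z)
    have hAs : ∀ z, A (s z) = B z := fun z => by
      have h1 : ‖s z - x‖ = ‖z - y‖ := by
        rw [← hsiso (s z) x, hss, hsx]
      have h2 : s z ∈ Metric.ball x r ↔ z ∈ Metric.ball y r := by
        rw [Metric.mem_ball, Metric.mem_ball, dist_eq_norm, dist_eq_norm, h1]
      by_cases h3 : z ∈ Metric.ball y r
      · rw [hA, hB, Set.indicator_of_mem h3, Set.indicator_of_mem (h2.mpr h3)]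
      · rw [hA, hB, Set.indicator_of_notMem h3, Set.indicator_of_notMem fun h4 => h3 (h2.mp h4)]
    have hBs : ∀ z, B (s z) = A z := fun z => by
      rw [← hAs, hss]
    have hcomp : ∀ F : E N → ℝ, ∫ z, F (s z) = ∫ z, F z := fun F =>
      hsmp.integral_comp hsemb F
    have hAi' : Integrable (fun z => A z * fn u (s z)) (volume : Measure (E N)) := by
      have h1 := (hsmp.integrable_comp_emb hsemb).mpr hBi
      refine h1.congr (Eventually.of_forall fun z => ?_)
      simp only [Function.comp_apply, hBs]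
    have hBi' : Integrable (fun z => B z * fn u (s z)) (volume : Measure (E N)) := by
      have h1 := (hsmp.integrable_comp_emb hsemb).mpr hAi
      refine h1.congr (Eventually.of_forall fun z => ?_)
      simp only [Function.comp_apply, hAs]
    have hF : 0 ≤ ∫ z, (A z * fn u z - B z * fn u z - (A z * fn u (s z) - B z * fn u (s z))) := by
      refine integral_nonneg_of_ae ?_
      have hz0 : ∀ᵐ z : E N, z ≠ 0 := by
        rw [ae_iff]; simp
      filter_upwards [h, hsmp.quasiMeasurePreserving.tendsto_ae.eventually h, hz0,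
        hsmp.quasiMeasurePreserving.tendsto_ae.eventually hz0] with z h1 h2 h3 h4
      have hpz : 0 < ‖z‖ := norm_pos_iff.mpr h3
      have hpsz : 0 < ‖s z‖ := norm_pos_iff.mpr h4
      have h5 : A z * fn u z - B z * fn u z - (A z * fn u (s z) - B z * fn u (s z)) =
          (A z - B z) * (f ‖z‖ - f ‖s z‖) := by
        rw [h1, h2]; ring
      rw [Pi.zero_apply, h5]
      rcases le_total (inner ℝ z e) d with h6 | h6
      · have h7 : ‖z‖ ≤ ‖s z‖ := by
          refine (pow_le_pow_iff_left₀ (norm_nonneg _) (norm_nonneg _) two_ne_zero).mp ?_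
          rw [hsn z]
          nlinarith
        have h8 : f ‖s z‖ ≤ f ‖z‖ := hf hpz hpsz h7
        have h9 : B z ≤ A z := by
          have h10 : ‖z - x‖ ≤ ‖z - y‖ := by
            refine (pow_le_pow_iff_left₀ (norm_nonneg _) (norm_nonneg _) two_ne_zero).mp ?_
            rw [hdf z]
            nlinarith
          exact rdb_ind_le fun h11 => by
            rw [Metric.mem_ball, dist_eq_norm] at h11 ⊢
            exact h10.trans_lt h11
        exact mul_nonneg (by linarith) (by linarith)
      · have h7 : ‖s z‖ ≤ ‖z‖ := by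
          refine (pow_le_pow_iff_left₀ (norm_nonneg _) (norm_nonneg _) two_ne_zero).mp ?_
          rw [hsn z]
          nlinarith
        have h8 : f ‖z‖ ≤ f ‖s z‖ := hf hpsz hpz h7
        have h9 : A z ≤ B z := by
          have h10 : ‖z - y‖ ≤ ‖z - x‖ := by
            refine (pow_le_pow_iff_left₀ (norm_nonneg _) (norm_nonneg _) two_ne_zero).mp ?_
            rw [hdf z]
            nlinarith
          exact rdb_ind_le fun h11 => by
            rw [Metric.mem_ball, dist_eq_norm] at h11 ⊢
            exact h10.trans_lt h11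
        exact mul_nonneg_of_nonpos_of_nonpos (by linarith) (by linarith)
    have hs1 : Integrable (fun z => A z * fn u z - B z * fn u z) (volume : Measure (E N)) :=
      hAi.sub hBi
    have hs2 : Integrable (fun z => A z * fn u (s z) - B z * fn u (s z))
      (volume : Measure (E N)) := hAi'.sub hBi'
    rw [integral_sub hs1 hs2, integral_sub hAi hBi, integral_sub hAi' hBi'] at hF
    have h1 : ∫ z, A z * fn u (s z) = ∫ z, B z * fn u z := by
      rw [← hcomp (fun z => B z * fn u z)]
      simp only [hBs]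
    have h2 : ∫ z, B z * fn u (s z) = ∫ z, A z * fn u z := by
      rw [← hcomp (fun z => A z * fn u z)]
      simp only [hAs]
    rw [h1, h2] at hF
    rw [hAe, hBe]
    linarith

/-- module rdc: the pointwise bound `u(x)² |B_{|x|}| ≤ ∫ u²` (from `RD_prof`). -/
theorem RD_decay [Dim N] {u : H1 N} (hu : RD u) :
    ∀ᵐ x : E N, fn u x ^ 2 * (volume (Metric.ball (0 : E N) ‖x‖)).toReal ≤ gY u u := by
  have hN := rdb_nontriv (N := N)
  obtain ⟨f, hf1, hf2, hf3⟩ := RD_prof hu
  have hz0 : ∀ᵐ z : E N, z ≠ 0 := by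
    rw [ae_iff]; simp
  have hi : Integrable (fun z => fn u z ^ 2) (volume : Measure (E N)) :=
    (fn_memLp u).integrable_sq
  have hgY : gY u u = ∫ z, fn u z ^ 2 := by
    unfold gY
    simp only [sq]
  filter_upwards [hf3, hz0] with x hx hx0
  have hpx : 0 < ‖x‖ := norm_pos_iff.mpr hx0
  have hfin : volume (Metric.ball (0 : E N) ‖x‖) ≠ ⊤ := Metric.isBounded_ball.measure_lt_top.ne
  rw [hgY]
  calc fn u x ^ 2 * (volume (Metric.ball (0 : E N) ‖x‖)).toReal
      = ∫ _z in Metric.ball (0 : E N) ‖x‖, fn u x ^ 2 := by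
        rw [setIntegral_const, measureReal_def, smul_eq_mul, mul_comm]
    _ ≤ ∫ z in Metric.ball (0 : E N) ‖x‖, fn u z ^ 2 := by
        refine integral_mono_ae (integrableOn_const hfin) hi.integrableOn ?_
        have h1 : ∀ᵐ z ∂(volume.restrict (Metric.ball (0 : E N) ‖x‖)), z ∈
            Metric.ball (0 : E N) ‖x‖ := ae_restrict_mem measurableSet_ball
        filter_upwards [h1, ae_restrict_of_ae hf3, ae_restrict_of_ae hz0] with z h2 h3 h4
        have hpz : 0 < ‖z‖ := norm_pos_iff.mpr h4
        rw [hx, h3]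
        exact pow_le_pow_left₀ (hf2 _) (hf1 hpz hpx (mem_ball_zero_iff.mp h2).le) 2
    _ ≤ ∫ z, fn u z ^ 2 :=
        setIntegral_le_integral hi (Eventually.of_forall fun z => sq_nonneg _)

/-- module rdc: uniform smallness of the tails in `L⁴`:
`∫_{|x| ≥ R} u⁴ ≤ (sup_{|x| ≥ R} u²) ∫ u² ≤ (gY u u)² / |B_R|`. -/
theorem RD_tail [Dim N] {u : H1 N} (hu : RD u) {R : ℝ} (hR : 0 < R) :
    (∫ x in (Metric.ball (0 : E N) R)ᶜ, fn u x ^ 4) * (volume (Metric.ball (0 : E N) R)).toReal
      ≤ gY u u ^ 2 := by
  have hi : Integrable (fun z => fn u z ^ 2) (volume : Measure (E N)) :=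
    (fn_memLp u).integrable_sq
  have hgY : gY u u = ∫ z, fn u z ^ 2 := by
    unfold gY
    simp only [sq]
  have hgY0 := gY_nonneg u
  rw [← integral_mul_const]
  calc ∫ x in (Metric.ball (0 : E N) R)ᶜ, fn u x ^ 4 *
        (volume (Metric.ball (0 : E N) R)).toReal
      ≤ ∫ x in (Metric.ball (0 : E N) R)ᶜ, gY u u * fn u x ^ 2 := by
        refine integral_mono_of_nonneg (Eventually.of_forall fun x => by positivity)
          (hi.integrableOn.const_mul _) ?_
        have h1 : ∀ᵐ z ∂(volume.restrict (Metric.ball (0 : E N) R)ᶜ), z ∈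
            (Metric.ball (0 : E N) R)ᶜ := ae_restrict_mem measurableSet_ball.compl
        filter_upwards [h1, ae_restrict_of_ae (RD_decay hu)] with z h2 h3
        have h4 : R ≤ ‖z‖ := by
          rw [Set.mem_compl_iff, mem_ball_zero_iff, not_lt] at h2
          exact h2
        have h5 : (volume (Metric.ball (0 : E N) R)).toReal ≤
            (volume (Metric.ball (0 : E N) ‖z‖)).toReal :=
          ENNReal.toReal_mono Metric.isBounded_ball.measure_lt_top.ne
            (measure_mono (Metric.ball_subset_ball h4))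
        have h6 : fn u z ^ 2 * (volume (Metric.ball (0 : E N) R)).toReal ≤ gY u u :=
          (mul_le_mul_of_nonneg_left h5 (sq_nonneg _)).trans h3
        calc fn u z ^ 4 * (volume (Metric.ball (0 : E N) R)).toReal
            = (fn u z ^ 2 * (volume (Metric.ball (0 : E N) R)).toReal) * fn u z ^ 2 := by ring
          _ ≤ gY u u * fn u z ^ 2 := mul_le_mul_of_nonneg_right h6 (sq_nonneg _)
    _ = gY u u * ∫ x in (Metric.ball (0 : E N) R)ᶜ, fn u x ^ 2 := integral_const_mul _ _
    _ ≤ gY u u * gY u u := by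
        refine mul_le_mul_of_nonneg_left ?_ hgY0
        rw [hgY]
        exact setIntegral_le_integral hi (Eventually.of_forall fun z => sq_nonneg _)
    _ = gY u u ^ 2 := by ring

private theorem rdc_gY_le (u : H1 N) : gY u u ≤ ‖u‖ ^ 2 := by
  have h1 := norm_sq_eq u
  unfold ip at h1
  have := gX_nonneg u
  linarith

private theorem rdc_big [Dim N] (K : ℝ) :
    ∃ R : ℝ, 0 < R ∧ K < (volume (Metric.ball (0 : E N) R)).toReal := by
  have hN : N ≠ 0 := by
    rcases (inferInstance : Dim N).h with h | h <;> omega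
  have h1 : 0 < (volume (Metric.ball (0 : E N) 1)).toReal :=
    ENNReal.toReal_pos (Metric.measure_ball_pos volume 0 one_pos).ne'
      Metric.isBounded_ball.measure_lt_top.ne
  set v : ℝ := (volume (Metric.ball (0 : E N) 1)).toReal with hv
  refine ⟨1 + |K| / v, by positivity, ?_⟩
  have hR : 0 < 1 + |K| / v := by positivity
  rw [Measure.addHaar_ball_of_pos volume (0 : E N) hR, ENNReal.toReal_mul,
    ENNReal.toReal_ofReal (by positivity), finrank_euclideanSpace_fin, ← hv]
  have h2 : 1 + |K| / v ≤ (1 + |K| / v) ^ N := by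
    refine le_self_pow₀ ?_ hN
    have : 0 ≤ |K| / v := by positivity
    linarith
  have h3 : (1 + |K| / v) * v ≤ (1 + |K| / v) ^ N * v := mul_le_mul_of_nonneg_right h2 h1.le
  have h4 : (1 + |K| / v) * v = v + |K| := by
    field_simp
  have h5 := le_abs_self K
  linarith

/-- module rdc: compactness in `L⁴` of weakly convergent sequences of radially nonincreasing functions
(`WC_loc4` on a large ball, `RD_tail` outside for `u n` and for `w`, `RD_WC`). -/
theorem RD_comp [Dim N] {u : ℕ → H1 N} {w : H1 N} (h : WC u w) (hu : ∀ n, RD (u n)) :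
    Tendsto (fun n => n4 (u n - w)) atTop (𝓝 0) := by
  have hN := rdb_nontriv (N := N)
  obtain ⟨M, hM⟩ := WC_bdd h
  have hw : RD w := RD_WC h hu
  have hM0 : 0 ≤ M := (norm_nonneg _).trans (hM 0)
  have hgYn : ∀ n, gY (u n) (u n) ≤ M ^ 2 := fun n =>
    (rdc_gY_le _).trans (pow_le_pow_left₀ (norm_nonneg _) (hM n) 2)
  set K : ℝ := 8 * (M ^ 2) ^ 2 + 8 * gY w w ^ 2 with hK
  have hK0 : 0 ≤ K := by positivity
  have hi4 : ∀ v : H1 N, Integrable (fun x => fn v x ^ 4) (volume : Measure (E N)) := fun v => by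
    refine (Q4_integrable v v v v).congr (Eventually.of_forall fun x => ?_)
    simp only
    ring
  have hQ : ∀ v : H1 N, Q4 v v v v = ∫ x, fn v x ^ 4 := fun v => by
    unfold Q4
    refine integral_congr_ae (Eventually.of_forall fun x => ?_)
    simp only
    ring
  have hsub : ∀ n, (fun x => fn (u n - w) x ^ 4) =ᵐ[volume]
      fun x => (fn (u n) x - fn w x) ^ 4 := fun n => by
    filter_upwards [fn_sub (u n) w] with x hx
    rw [hx]
  have hid : ∀ n, Integrable (fun x => (fn (u n) x - fn w x) ^ 4) (volume : Measure (E N)) :=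
    fun n => (hi4 (u n - w)).congr (hsub n)
  have htail : ∀ n (R : ℝ), 0 < R → (∫ x in (Metric.ball (0 : E N) R)ᶜ,
      (fn (u n) x - fn w x) ^ 4) * (volume (Metric.ball (0 : E N) R)).toReal ≤ K := by
    intro n R hR
    have h1 : ∫ x in (Metric.ball (0 : E N) R)ᶜ, (fn (u n) x - fn w x) ^ 4 ≤
        8 * (∫ x in (Metric.ball (0 : E N) R)ᶜ, fn (u n) x ^ 4) +
          8 * ∫ x in (Metric.ball (0 : E N) R)ᶜ, fn w x ^ 4 := by
      rw [← integral_const_mul, ← integral_const_mul, ← integral_add
        ((hi4 (u n)).integrableOn.const_mul 8) ((hi4 w).integrableOn.const_mul 8)]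
      refine integral_mono (hid n).integrableOn (((hi4 (u n)).integrableOn.const_mul 8).add
        ((hi4 w).integrableOn.const_mul 8)) fun x => ?_
      have e : 8 * fn (u n) x ^ 4 + 8 * fn w x ^ 4 - (fn (u n) x - fn w x) ^ 4 =
          (fn (u n) x + fn w x) ^ 4 + 6 * (fn (u n) x ^ 2 - fn w x ^ 2) ^ 2 := by ring
      have h2 : 0 ≤ (fn (u n) x + fn w x) ^ 4 + 6 * (fn (u n) x ^ 2 - fn w x ^ 2) ^ 2 := by
        positivity
      simp only
      linarith
    have h2 := RD_tail (hu n) hR
    have h3 := RD_tail hw hR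
    have h4 : gY (u n) (u n) ^ 2 ≤ (M ^ 2) ^ 2 := pow_le_pow_left₀ (gY_nonneg _) (hgYn n) 2
    have h5 : 0 ≤ (volume (Metric.ball (0 : E N) R)).toReal := ENNReal.toReal_nonneg
    have h6 := mul_le_mul_of_nonneg_right h1 h5
    calc _ ≤ _ := h6
      _ = 8 * ((∫ x in (Metric.ball (0 : E N) R)ᶜ, fn (u n) x ^ 4) *
            (volume (Metric.ball (0 : E N) R)).toReal) +
          8 * ((∫ x in (Metric.ball (0 : E N) R)ᶜ, fn w x ^ 4) *
            (volume (Metric.ball (0 : E N) R)).toReal) := by ring
      _ ≤ K := by rw [hK]; linarith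
  have hQt : Tendsto (fun n => Q4 (u n - w) (u n - w) (u n - w) (u n - w)) atTop (𝓝 0) := by
    rw [Metric.tendsto_atTop]
    intro ε hε
    obtain ⟨R, hR, hRK⟩ := rdc_big (N := N) (K / (ε / 2))
    have h1 := WC_loc4 h R
    rw [Metric.tendsto_atTop] at h1
    obtain ⟨n₀, hn₀⟩ := h1 (ε / 2) (half_pos hε)
    refine ⟨n₀, fun n hn => ?_⟩
    have h2 := hn₀ n hn
    rw [Real.dist_eq, sub_zero] at h2 ⊢
    rw [hQ, integral_congr_ae (hsub n), ← integral_add_compl measurableSet_ball (hid n)]
    have h3 : 0 ≤ ∫ x in (Metric.ball (0 : E N) R)ᶜ, (fn (u n) x - fn w x) ^ 4 :=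
      integral_nonneg fun x => by positivity
    have h4 : ∫ x in (Metric.ball (0 : E N) R)ᶜ, (fn (u n) x - fn w x) ^ 4 < ε / 2 := by
      have h5 := htail n R hR
      by_contra h6
      push Not at h6
      have hpos : 0 < (volume (Metric.ball (0 : E N) R)).toReal :=
        lt_of_le_of_lt (div_nonneg hK0 (half_pos hε).le) hRK
      have h7 : K < (ε / 2) * (volume (Metric.ball (0 : E N) R)).toReal := by
        rwa [div_lt_iff₀ (half_pos hε), mul_comm] at hRK
      have h8 := mul_le_mul_of_nonneg_right h6 hpos.le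
      linarith
    have h5 := abs_lt.mp h2
    rw [abs_lt]
    constructor <;> linarith
  have h1 : Tendsto (fun n => (Q4 (u n - w) (u n - w) (u n - w) (u n - w)) ^ ((1 : ℝ) / 4))
      atTop (𝓝 (0 ^ ((1 : ℝ) / 4))) :=
    hQt.rpow_const (Or.inr (by norm_num))
  rw [Real.zero_rpow (by norm_num)] at h1
  exact h1

end Sir
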