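import Pool.Agent.Sir.Pol
/-!
# Symmetrisation by polarisation
modules: sya, syb, syc
-/

namespace Sir

open MeasureTheory Filter Topology

variable {N : ℕ}

/-- the orbit of a pair under simultaneous polarisations with respect to half spaces containing `0` -/
inductive Orb (u v : H1 N) : H1 N → H1 N → Prop
  | base : Orb u v u v
  | step (e : E N) (c : ℝ) (u1 v1 u2 v2 : H1 N) : Orb u v u1 v1 → ‖e‖ = 1 → 0 < c →
      IsPol e c u1 u2 → IsPol e c v1 v2 → Orb u v u2 v2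

/-- module sya: induction with `pol_gX`, `pol_gY`, `pol_P`, `pol_Q`, `pol_nonneg`, `pol_tail` -/
theorem Orb_inv [Dim N] {u v : H1 N} (h1 : ∀ᵐ x : E N, 0 ≤ fn u x) (h2 : ∀ᵐ x : E N, 0 ≤ fn v x)
    {u' v' : H1 N} (h : Orb u v u' v') :
    ((∀ᵐ x : E N, 0 ≤ fn u' x) ∧ ∀ᵐ x : E N, 0 ≤ fn v' x) ∧ gX u' u' = gX u u ∧
      gX v' v' = gX v v ∧ gY u' u' = gY u u ∧ gY v' v' = gY v v ∧
      Q4 u' u' u' u' = Q4 u u u u ∧ Q4 v' v' v' v' = Q4 v v v v ∧ Q4 u u v v ≤ Q4 u' u' v' v' ∧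
      ∀ R : ℝ, (∫ x in (Metric.ball (0 : E N) R)ᶜ, fn u' x ^ 2 ≤
          ∫ x in (Metric.ball (0 : E N) R)ᶜ, fn u x ^ 2) ∧
        ∫ x in (Metric.ball (0 : E N) R)ᶜ, fn v' x ^ 2 ≤
          ∫ x in (Metric.ball (0 : E N) R)ᶜ, fn v x ^ 2 := by
  induction h with
  | base => exact ⟨⟨h1, h2⟩, rfl, rfl, rfl, rfl, rfl, rfl, le_rfl, fun R => ⟨le_rfl, le_rfl⟩⟩
  | step e c u1 v1 u2 v2 _ he hc hu hv ih =>
    obtain ⟨⟨a1, a2⟩, b1, b2, b3, b4, b5, b6, b7, b8⟩ := ih
    refine ⟨⟨pol_nonneg e he c hu a1, pol_nonneg e he c hv a2⟩, ?_, ?_, ?_, ?_, ?_, ?_, ?_, ?_⟩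
    · rw [pol_gX e he c hu, b1]
    · rw [pol_gX e he c hv, b2]
    · rw [pol_gY e he c hu, b3]
    · rw [pol_gY e he c hv, b4]
    · rw [pol_P e he c hu, b5]
    · rw [pol_P e he c hv, b6]
    · exact b7.trans (pol_Q e he c hu hv a1 a2)
    · intro R
      exact ⟨(pol_tail e he c hc.le hu a1 R).trans (b8 R).1,
        (pol_tail e he c hc.le hv a2 R).trans (b8 R).2⟩

private theorem syb_sub (a b : H1 N) : gY (a - b) (a - b) = ∫ x, (fn a x - fn b x) ^ 2 := by
  unfold gY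
  apply integral_congr_ae
  filter_upwards [fn_sub a b] with x hx
  rw [hx]; ring

private theorem syb_sq (a : H1 N) : Integrable (fun x => fn a x ^ 2) (volume : Measure (E N)) :=
  (fn_memLp a).integrable_sq

private theorem syb_sq_sub (a b : H1 N) :
    Integrable (fun x => (fn a x - fn b x) ^ 2) (volume : Measure (E N)) :=
  ((fn_memLp a).sub (fn_memLp b)).integrable_sq

private theorem syb_tail (a : H1 N) :
    Tendsto (fun k : ℕ => ∫ x in (Metric.ball (0 : E N) k)ᶜ, fn a x ^ 2) atTop (𝓝 0) := by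
  have h1 := tendsto_setIntegral_of_antitone (μ := (volume : Measure (E N)))
    (f := fun x => fn a x ^ 2) (s := fun k : ℕ => (Metric.ball (0 : E N) k)ᶜ)
    (fun k => Metric.isOpen_ball.measurableSet.compl)
    (fun i j hij => Set.compl_subset_compl.2 (Metric.ball_subset_ball (by exact_mod_cast hij)))
    ⟨0, (syb_sq a).integrableOn⟩
  have h2 : ⋂ k : ℕ, (Metric.ball (0 : E N) k)ᶜ = ∅ := by
    rw [← Set.compl_iUnion, Metric.iUnion_ball_nat, Set.compl_univ]
  rw [h2] at h1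
  simpa using h1

/-- module syb: a weakly convergent sequence whose tails are uniformly bounded by the tails of one function converges
in `L²` (`WC_loc`). -/
theorem L2_of_tail {a : ℕ → H1 N} {w u : H1 N} (h : WC a w)
    (ht : ∀ n (R : ℝ), ∫ x in (Metric.ball (0 : E N) R)ᶜ, fn (a n) x ^ 2 ≤
      ∫ x in (Metric.ball (0 : E N) R)ᶜ, fn u x ^ 2) :
    Tendsto (fun n => gY (a n - w) (a n - w)) atTop (𝓝 0) := by
  rw [Metric.tendsto_atTop]
  intro ε hε
  have h1 := ((syb_tail u).add (syb_tail w)).const_mul 2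
  rw [add_zero, mul_zero] at h1
  obtain ⟨R, hR⟩ := ((tendsto_order.1 h1).2 (ε / 2) (by positivity)).exists
  have h2 := WC_loc h R
  obtain ⟨n0, hn0⟩ := Filter.eventually_atTop.1 ((tendsto_order.1 h2).2 (ε / 2) (by positivity))
  refine ⟨n0, fun n hn => ?_⟩
  have h3 := hn0 n hn
  have h0 := gY_nonneg (a n - w)
  rw [Real.dist_eq, sub_zero, abs_of_nonneg h0, syb_sub,
    ← integral_add_compl (Metric.isOpen_ball.measurableSet (s := Metric.ball (0 : E N) R))
      (syb_sq_sub (a n) w)]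
  have h4 : ∫ x in (Metric.ball (0 : E N) R)ᶜ, (fn (a n) x - fn w x) ^ 2 ≤
      2 * ((∫ x in (Metric.ball (0 : E N) R)ᶜ, fn u x ^ 2) +
        ∫ x in (Metric.ball (0 : E N) R)ᶜ, fn w x ^ 2) := by
    calc ∫ x in (Metric.ball (0 : E N) R)ᶜ, (fn (a n) x - fn w x) ^ 2
        ≤ ∫ x in (Metric.ball (0 : E N) R)ᶜ, (2 * fn (a n) x ^ 2 + 2 * fn w x ^ 2) := by
          refine integral_mono (syb_sq_sub (a n) w).integrableOn
            (((syb_sq (a n)).const_mul 2).add ((syb_sq w).const_mul 2)).integrableOn fun x => ?_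
          show (fn (a n) x - fn w x) ^ 2 ≤ 2 * fn (a n) x ^ 2 + 2 * fn w x ^ 2
          nlinarith [sq_nonneg (fn (a n) x + fn w x)]
      _ = 2 * (∫ x in (Metric.ball (0 : E N) R)ᶜ, fn (a n) x ^ 2) +
          2 * ∫ x in (Metric.ball (0 : E N) R)ᶜ, fn w x ^ 2 := by
          rw [integral_add ((syb_sq (a n)).const_mul 2).integrableOn
            ((syb_sq w).const_mul 2).integrableOn, integral_const_mul, integral_const_mul]
      _ ≤ _ := by
          have := ht n R
          linarith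
  linarith

private theorem syc_abs (w : H1 N) {a : ℕ → H1 N} (h : WC a w)
    (h1 : ∀ n, ∀ᵐ x : E N, 0 ≤ fn (a n) x) : ∀ᵐ x : E N, 0 ≤ fn w x := by
  have hg : MemLp (fun x => |fn w x| - fn w x) 2 (volume : Measure (E N)) :=
    (fn_memLp w).abs.sub (fn_memLp w)
  have h2 := WC_L2 h _ hg
  have h3 : 0 ≤ ∫ x, fn w x * (|fn w x| - fn w x) := by
    refine ge_of_tendsto' h2 fun n => ?_
    refine integral_nonneg_of_ae ?_
    filter_upwards [h1 n] with x hx
    exact mul_nonneg hx (sub_nonneg.2 (le_abs_self _))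
  have h4 : ∀ x, fn w x * (|fn w x| - fn w x) = -(1 / 2) * (|fn w x| - fn w x) ^ 2 := by
    intro x
    have := sq_abs (fn w x)
    nlinarith
  simp only [h4] at h3
  rw [integral_const_mul] at h3
  have h5 : ∫ x, (|fn w x| - fn w x) ^ 2 = 0 := by
    have h6 : 0 ≤ ∫ x, (|fn w x| - fn w x) ^ 2 := integral_nonneg fun x => sq_nonneg _
    linarith
  rw [integral_eq_zero_iff_of_nonneg (fun x => sq_nonneg _) hg.integrable_sq] at h5
  filter_upwards [h5] with x hx
  have h7 : |fn w x| - fn w x = 0 := pow_eq_zero_iff two_ne_zero |>.1 hx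
  have := abs_nonneg (fn w x)
  linarith

private theorem syc_norm (a : H1 N) : ‖a‖ = Real.sqrt (gX a a + gY a a) := by
  have h1 := norm_sq_eq a
  unfold ip at h1
  rw [one_mul] at h1
  rw [← h1, Real.sqrt_sq (norm_nonneg _)]

private theorem syc_J (a : H1 N) : ∫ x, fn a x * gau x ≤
    (gY a a + ∫ x : E N, gau x ^ 2) / 2 := by
  have i1 : Integrable (fun x : E N => fn a x * gau x) volume := by
    have := (fn_memLp a).integrable_mul gau_memLp
    exact this
  have i2 : Integrable (fun x : E N => fn a x * fn a x) volume := by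
    have := (fn_memLp a).integrable_mul (fn_memLp a)
    exact this
  have i3 : Integrable (fun x : E N => gau x ^ 2) volume := gau_memLp.integrable_sq
  have h1 : ∫ x, fn a x * gau x ≤ ∫ x, (1 / 2 * (fn a x * fn a x) + 1 / 2 * gau x ^ 2) := by
    refine integral_mono i1 ((i2.const_mul _).add (i3.const_mul _)) fun x => ?_
    show fn a x * gau x ≤ 1 / 2 * (fn a x * fn a x) + 1 / 2 * gau x ^ 2
    nlinarith [sq_nonneg (fn a x - gau x)]
  rw [integral_add (i2.const_mul _) (i3.const_mul _), integral_const_mul, integral_const_mul] at h1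
  unfold gY
  linarith

/-- `L²` convergence and boundedness give weak convergence -/
private theorem syc_WC {a : ℕ → H1 N} {w : H1 N} {M : ℝ} (hM : ∀ n, ‖a n‖ ≤ M)
    (h : Tendsto (fun n => gY (a n - w) (a n - w)) atTop (𝓝 0)) : WC a w := by
  simp only [syb_sub] at h
  obtain ⟨z, hz, hw⟩ := WC_of_L2 a M hM (fn w) (fn_memLp w) h
  rwa [H1_ext hz] at hw

/-- module syc. SYMMETRISATION. The orbit of a nonnegative pair contains a sequence which converges in `L²` (and weakly in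
`H1`) to a pair of radially nonincreasing functions.
Proof: let `G u v = ∫ (u+v) gau` and `s` its supremum over the orbit (bounded, since the `L²` norms are constant). Take
`(a n, b n)` in the orbit with `G → s`; a subsequence converges weakly to `(U,V)` (`exists_WC`, twice) and in `L²`
(`L2_of_tail`), `G U V = s`. For `e, c` with `c > 0` let `U', V'` be the polarisations of `U, V` (`pol_H`) and
`a' n, b' n` those of `a n, b n`, which are in the orbit: `G (a' n) (b' n) ≤ s`; by `pol_contr` `a' n → U'`, `b' n → V'` in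
`L²`, so `G U' V' ≤ s = G U V`, and `pol_gau` gives `U' = U`, `V' = V`. `RD_of_fixed`. -/
theorem orb_RD [Dim N] {u v : H1 N} (h1 : ∀ᵐ x : E N, 0 ≤ fn u x) (h2 : ∀ᵐ x : E N, 0 ≤ fn v x) :
    ∃ (a b : ℕ → H1 N) (U V : H1 N), (∀ n, Orb u v (a n) (b n)) ∧ RD U ∧ RD V ∧
      WC a U ∧ WC b V ∧ Tendsto (fun n => gY (a n - U) (a n - U)) atTop (𝓝 0) ∧
      Tendsto (fun n => gY (b n - V) (b n - V)) atTop (𝓝 0) := by
  classical
  have hinv := fun u' v' (h : Orb u v u' v') => Orb_inv h1 h2 h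
  set J : H1 N → ℝ := fun a => ∫ x, fn a x * gau x with hJ
  set S : Set ℝ := {t | ∃ u' v', Orb u v u' v' ∧ t = J u' + J v'} with hS
  have hSne : S.Nonempty := ⟨_, u, v, Orb.base, rfl⟩
  set Q : ℝ := (gY u u + ∫ x : E N, gau x ^ 2) / 2 + (gY v v + ∫ x : E N, gau x ^ 2) / 2 with hQ
  have hSb : ∀ t ∈ S, t ≤ Q := by
    rintro t ⟨u', v', ho, rfl⟩
    obtain ⟨-, -, -, k1, k2, -⟩ := hinv u' v' ho
    have k3 := syc_J u'
    have k4 := syc_J v'
    rw [k1] at k3
    rw [k2] at k4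
    rw [hQ]
    exact add_le_add k3 k4
  have hSbdd : BddAbove S := ⟨Q, hSb⟩
  set σ : ℝ := sSup S with hσ
  have hle : ∀ u' v', Orb u v u' v' → J u' + J v' ≤ σ := fun u' v' ho =>
    le_csSup hSbdd ⟨u', v', ho, rfl⟩
  have hseq : ∀ n : ℕ, ∃ u' v', Orb u v u' v' ∧ σ - 1 / ((n : ℝ) + 1) < J u' + J v' := by
    intro n
    have h3 : σ - 1 / ((n : ℝ) + 1) < σ := by
      have : (0 : ℝ) < 1 / ((n : ℝ) + 1) := by positivity
      linarith
    obtain ⟨t, ⟨u', v', ho, rfl⟩, ht⟩ := exists_lt_of_lt_csSup hSne h3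
    exact ⟨u', v', ho, ht⟩
  choose a0 b0 ho0 hlt0 using hseq
  set M : ℝ := Real.sqrt (gX u u + gY u u) with hM
  set M' : ℝ := Real.sqrt (gX v v + gY v v) with hM'
  have hnorm : ∀ u' v', Orb u v u' v' → ‖u'‖ = M ∧ ‖v'‖ = M' := by
    intro u' v' ho
    obtain ⟨-, k1, k2, k3, k4, -⟩ := hinv u' v' ho
    rw [syc_norm, syc_norm, k1, k2, k3, k4]
    exact ⟨rfl, rfl⟩
  obtain ⟨f1, U, hf1, hU⟩ := exists_WC a0 M (fun n => (hnorm _ _ (ho0 n)).1.le)
  obtain ⟨f2, V, hf2, hV⟩ := exists_WC (fun n => b0 (f1 n)) M' (fun n => (hnorm _ _ (ho0 (f1 n))).2.le)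
  have hU' : WC (fun n => a0 (f1 (f2 n))) U := WC_comp hU hf2
  set a : ℕ → H1 N := fun n => a0 (f1 (f2 n)) with ha
  set b : ℕ → H1 N := fun n => b0 (f1 (f2 n)) with hb
  have hab : ∀ n, Orb u v (a n) (b n) := fun n => ho0 _
  have hVb : WC b V := hV
  have hLU : Tendsto (fun n => gY (a n - U) (a n - U)) atTop (𝓝 0) :=
    L2_of_tail (u := u) hU' fun n R => ((hinv _ _ (hab n)).2.2.2.2.2.2.2.2 R).1
  have hLV : Tendsto (fun n => gY (b n - V) (b n - V)) atTop (𝓝 0) :=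
    L2_of_tail (u := v) hVb fun n R => ((hinv _ _ (hab n)).2.2.2.2.2.2.2.2 R).2
  have hU0 : ∀ᵐ x : E N, 0 ≤ fn U x := syc_abs U hU' fun n => (hinv _ _ (hab n)).1.1
  have hV0 : ∀ᵐ x : E N, 0 ≤ fn V x := syc_abs V hVb fun n => (hinv _ _ (hab n)).1.2
  -- the value at the limit
  have hlim : Tendsto (fun n => J (a n) + J (b n)) atTop (𝓝 (J U + J V)) :=
    (WC_L2 hU' gau gau_memLp).add (WC_L2 hVb gau gau_memLp)
  have hφ : Tendsto (fun n => f1 (f2 n)) atTop atTop := hf1.tendsto_atTop.comp hf2.tendsto_atTop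
  have hσ' : Tendsto (fun n => J (a n) + J (b n)) atTop (𝓝 σ) := by
    have h3 : Tendsto (fun n : ℕ => σ - 1 / ((n : ℝ) + 1)) atTop (𝓝 (σ - 0)) :=
      tendsto_const_nhds.sub tendsto_one_div_add_atTop_nhds_zero_nat
    rw [sub_zero] at h3
    exact tendsto_of_tendsto_of_tendsto_of_le_of_le (h3.comp hφ) tendsto_const_nhds
      (fun n => (hlt0 (f1 (f2 n))).le) (fun n => hle _ _ (hab n))
  have hval : J U + J V = σ := tendsto_nhds_unique hlim hσ'
  -- the limit is fixed by all polarisations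
  have hfix : ∀ (e : E N) (c : ℝ), ‖e‖ = 1 → 0 < c → IsPol e c U U ∧ IsPol e c V V := by
    intro e c he hc
    obtain ⟨U', hUU', -⟩ := pol_H e he c U
    obtain ⟨V', hVV', -⟩ := pol_H e he c V
    choose a' ha' _ using fun n => pol_H e he c (a n)
    choose b' hb' _ using fun n => pol_H e he c (b n)
    have hab' : ∀ n, Orb u v (a' n) (b' n) := fun n =>
      Orb.step e c _ _ _ _ (hab n) he hc (ha' n) (hb' n)
    have k1 : Tendsto (fun n => gY (a' n - U') (a' n - U')) atTop (𝓝 0) :=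
      squeeze_zero (fun n => gY_nonneg _) (fun n => pol_contr e he c (ha' n) hUU') hLU
    have k2 : Tendsto (fun n => gY (b' n - V') (b' n - V')) atTop (𝓝 0) :=
      squeeze_zero (fun n => gY_nonneg _) (fun n => pol_contr e he c (hb' n) hVV') hLV
    have w1 : WC a' U' := syc_WC (fun n => (hnorm _ _ (hab' n)).1.le) k1
    have w2 : WC b' V' := syc_WC (fun n => (hnorm _ _ (hab' n)).2.le) k2
    have h3 : J U' + J V' ≤ σ :=
      le_of_tendsto' ((WC_L2 w1 gau gau_memLp).add (WC_L2 w2 gau gau_memLp))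
        fun n => hle _ _ (hab' n)
    obtain ⟨p1, p2⟩ := pol_gau e he c hc hUU'
    obtain ⟨q1, q2⟩ := pol_gau e he c hc hVV'
    have p3 : J U ≤ J U' := p1
    have q3 : J V ≤ J V' := q1
    have e1 : U' = U := p2 (show J U' ≤ J U by linarith)
    have e2 : V' = V := q2 (show J V' ≤ J V by linarith)
    rw [e1] at hUU'
    rw [e2] at hVV'
    exact ⟨hUU', hVV'⟩
  exact ⟨a, b, U, V, hab, RD_of_fixed hU0 fun e c he hc => (hfix e c he hc).1,
    RD_of_fixed hV0 fun e c he hc => (hfix e c he hc).2, hU', hVb, hLU, hLV⟩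

private theorem syc_gY {a : ℕ → H1 N} {w : H1 N} {M : ℝ} (h : WC a w) (hM : ∀ n, gY (a n) (a n) = M)
    (h0 : Tendsto (fun n => gY (a n - w) (a n - w)) atTop (𝓝 0)) : gY w w = M := by
  have h1 : ∀ n, gY (a n - w) (a n - w) = M - 2 * gY (a n) w + gY w w := by
    intro n
    have e1 : gY (-w) (a n - w) = - gY w (a n - w) := by
      rw [← neg_one_smul ℝ w, gY_smul_left]; ring
    have e2 : gY (a n) (-w) = - gY (a n) w := by
      rw [← neg_one_smul ℝ w, gY_smul_right]; ring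
    have e3 : gY w (-w) = - gY w w := by
      rw [← neg_one_smul ℝ w, gY_smul_right]; ring
    rw [sub_eq_add_neg, gY_add_left, ← sub_eq_add_neg, e1, sub_eq_add_neg, gY_add_right,
      gY_add_right, e2, e3, hM n, gY_comm w (a n)]
    ring
  have h2 : Tendsto (fun n => gY (a n) w) atTop (𝓝 (gY w w)) := WC_L2 h (fn w) (fn_memLp w)
  have h3 : Tendsto (fun n => gY (a n - w) (a n - w)) atTop (𝓝 (M - 2 * gY w w + gY w w)) := by
    simp only [h1]
    exact (tendsto_const_nhds.sub (h2.const_mul 2)).add_const _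
  have h4 := tendsto_nhds_unique h3 h0
  linarith

private theorem syc_n4 [Dim N] {a : ℕ → H1 N} {w : H1 N} {M : ℝ} (hM : ∀ n, ‖a n‖ ≤ M)
    (h0 : Tendsto (fun n => gY (a n - w) (a n - w)) atTop (𝓝 0)) :
    Tendsto (fun n => n4 (a n - w)) atTop (𝓝 0) := by
  obtain ⟨C, hC, hgn⟩ := n4_gn (N := N)
  have h1 : Tendsto (fun n => n4 (a n - w) ^ 8) atTop (𝓝 0) := by
    have h2 : Tendsto (fun n => C * gY (a n - w) (a n - w) * (M + ‖w‖) ^ 6) atTop (𝓝 0) := by
      have := (h0.const_mul C).mul_const ((M + ‖w‖) ^ 6)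
      simpa using this
    refine squeeze_zero (fun n => pow_nonneg (n4_nonneg _) _) (fun n => ?_) h2
    refine (hgn (a n - w)).trans ?_
    refine mul_le_mul_of_nonneg_left ?_ (mul_nonneg hC.le (gY_nonneg _))
    exact pow_le_pow_left₀ (norm_nonneg _)
      ((norm_sub_le _ _).trans (add_le_add (hM n) le_rfl)) 6
  have h3 : Tendsto (fun n => (n4 (a n - w) ^ 8) ^ ((1 : ℝ) / 8)) atTop (𝓝 ((0 : ℝ) ^ ((1 : ℝ) / 8))) :=
    h1.rpow_const (Or.inr (by norm_num))
  rw [Real.zero_rpow (by norm_num)] at h3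
  refine h3.congr fun n => ?_
  rw [← Real.rpow_natCast, ← Real.rpow_mul (n4_nonneg _)]
  norm_num

/-- module syc: corollary: for every pair there is a radially nonincreasing pair with better data. (First `|u|, |v|`
(`abs_H'`), then `orb_RD`; `L²` convergence and boundedness give `L⁴` convergence by `n4_gn`; `WC_lsc` for `gX = ip 0`.) -/
theorem symm_pair [Dim N] (u v : H1 N) : ∃ U V : H1 N, RD U ∧ RD V ∧ gX U U ≤ gX u u ∧
    gX V V ≤ gX v v ∧ gY U U = gY u u ∧ gY V V = gY v v ∧ Q4 U U U U = Q4 u u u u ∧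
    Q4 V V V V = Q4 v v v v ∧ Q4 u u v v ≤ Q4 U U V V := by
  obtain ⟨p, hp, hpX, hpY⟩ := abs_H' u
  obtain ⟨q, hq, hqX, hqY⟩ := abs_H' v
  have hp0 : ∀ᵐ x : E N, 0 ≤ fn p x := by
    filter_upwards [hp] with x hx
    rw [hx]; exact abs_nonneg _
  have hq0 : ∀ᵐ x : E N, 0 ≤ fn q x := by
    filter_upwards [hq] with x hx
    rw [hx]; exact abs_nonneg _
  obtain ⟨a, b, U, V, hab, hU, hV, hwU, hwV, hLU, hLV⟩ := orb_RD hp0 hq0
  have hinv := fun n => Orb_inv hp0 hq0 (hab n)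
  have na : ∀ n, ‖a n‖ ≤ Real.sqrt (gX p p + gY p p) := fun n => by
    rw [syc_norm, (hinv n).2.1, (hinv n).2.2.2.1]
  have nb : ∀ n, ‖b n‖ ≤ Real.sqrt (gX q q + gY q q) := fun n => by
    rw [syc_norm, (hinv n).2.2.1, (hinv n).2.2.2.2.1]
  have ip0 : ∀ z : H1 N, ip 0 z z = gX z z := fun z => by unfold ip; ring
  have hXU : gX U U ≤ gX u u := by
    have h1 := WC_lsc hwU (l := 0) le_rfl (c := fun _ => gX p p) tendsto_const_nhds
      (Filter.Eventually.of_forall fun n => by rw [ip0, (hinv n).2.1])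
    rw [ip0, hpX] at h1
    exact h1
  have hXV : gX V V ≤ gX v v := by
    have h1 := WC_lsc hwV (l := 0) le_rfl (c := fun _ => gX q q) tendsto_const_nhds
      (Filter.Eventually.of_forall fun n => by rw [ip0, (hinv n).2.2.1])
    rw [ip0, hqX] at h1
    exact h1
  have hYU : gY U U = gY u u := by
    rw [← hpY]; exact syc_gY hwU (fun n => (hinv n).2.2.2.1) hLU
  have hYV : gY V V = gY v v := by
    rw [← hqY]; exact syc_gY hwV (fun n => (hinv n).2.2.2.2.1) hLV
  have t1 := syc_n4 na hLU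
  have t2 := syc_n4 nb hLV
  have hsq1 : ∀ᵐ x : E N, fn u x ^ 2 = fn p x ^ 2 := by
    filter_upwards [hp] with x hx
    rw [hx, sq_abs]
  have hsq2 : ∀ᵐ x : E N, fn v x ^ 2 = fn q x ^ 2 := by
    filter_upwards [hq] with x hx
    rw [hx, sq_abs]
  have hQu : Q4 u u u u = Q4 p p p p := by
    rw [Q4_congr_sq hsq1 u u, Q4_swapp, Q4_congr_sq hsq1 p p]
  have hQv : Q4 v v v v = Q4 q q q q := by
    rw [Q4_congr_sq hsq2 v v, Q4_swapp, Q4_congr_sq hsq2 q q]
  have hQuv : Q4 u u v v = Q4 p p q q := by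
    rw [Q4_congr_sq hsq1 v v, Q4_swapp, Q4_congr_sq hsq2 p p, Q4_swapp]
  have l1 := Q4_tendsto a a a a U U U U t1 t1 t1 t1
  have l2 := Q4_tendsto b b b b V V V V t2 t2 t2 t2
  have l3 := Q4_tendsto a a b b U U V V t1 t1 t2 t2
  have hPU : Q4 U U U U = Q4 u u u u := by
    rw [hQu]
    refine tendsto_nhds_unique l1 ?_
    have : (fun n => Q4 (a n) (a n) (a n) (a n)) = fun _ => Q4 p p p p :=
      funext fun n => (hinv n).2.2.2.2.2.1
    rw [this]
    exact tendsto_const_nhds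
  have hPV : Q4 V V V V = Q4 v v v v := by
    rw [hQv]
    refine tendsto_nhds_unique l2 ?_
    have : (fun n => Q4 (b n) (b n) (b n) (b n)) = fun _ => Q4 q q q q :=
      funext fun n => (hinv n).2.2.2.2.2.2.1
    rw [this]
    exact tendsto_const_nhds
  refine ⟨U, V, hU, hV, hXU, hXV, hYU, hYV, hPU, hPV, ?_⟩
  rw [hQuv]
  exact ge_of_tendsto' l3 fun n => (hinv n).2.2.2.2.2.2.2.1

end Sir
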