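import Pool.Agent.Sir.Scal
/-!
# The system: algebra, minimisers
modules: ssa, ssb, ssc, ssd
-/

namespace Sir

open MeasureTheory Filter Topology

variable {N : ℕ}

/-- critical value of `(xa+yb)/2 - (x²p+2xyq+y²r)/4` -/
noncomputable def EEn (a b p q r : ℝ) : ℝ :=
  (2 * a * b * q - a ^ 2 * r - b ^ 2 * p) / (4 * (q ^ 2 - p * r))

/-- the region with positive discriminant -/
def OmM (a b p q r : ℝ) : Prop := 0 < q ^ 2 - p * r ∧ a * r < b * q ∧ b * p < a * q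

/-- the region with negative discriminant -/
def OmP (a b p q r : ℝ) : Prop := q ^ 2 - p * r < 0 ∧ b * q < a * r ∧ a * q < b * p

/-- the discriminant `q² - p r` of a pair -/
noncomputable def Dl (m1 m2 be : ℝ) (u v : H1 N) : ℝ :=
  (be * Q4 u u v v) ^ 2 - m1 * Q4 u u u u * (m2 * Q4 v v v v)

/-- `EEn` for a pair of functions -/
noncomputable def EEp (l1 l2 m1 m2 be : ℝ) (u v : H1 N) : ℝ :=
  EEn (ip l1 u u) (ip l2 v v) (m1 * Q4 u u u u) (be * Q4 u u v v) (m2 * Q4 v v v v)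

def OmMp (l1 l2 m1 m2 be : ℝ) (u v : H1 N) : Prop :=
  OmM (ip l1 u u) (ip l2 v v) (m1 * Q4 u u u u) (be * Q4 u u v v) (m2 * Q4 v v v v)

def OmPp (l1 l2 m1 m2 be : ℝ) (u v : H1 N) : Prop :=
  OmP (ip l1 u u) (ip l2 v v) (m1 * Q4 u u u u) (be * Q4 u u v v) (m2 * Q4 v v v v)

/-- minimiser of the energy on the Nehari type set -/
def IsMin (l1 l2 m1 m2 be : ℝ) (u v : H1 N) : Prop :=
  Neh l1 l2 m1 m2 be u v ∧ ∀ u' v' : H1 N, Neh l1 l2 m1 m2 be u' v' →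
    En l1 l2 m1 m2 be u v ≤ En l1 l2 m1 m2 be u' v'

/-- module ssa (real algebra) -/
theorem EE_b {a b p q r : ℝ} (hr : r ≠ 0) (hD : q ^ 2 - p * r ≠ 0) :
    b ^ 2 / (4 * r) - EEn a b p q r = (b * q - a * r) ^ 2 / (4 * r * (q ^ 2 - p * r)) := by
  unfold EEn
  obtain ⟨D, hD1⟩ : ∃ D, D = q ^ 2 - p * r := ⟨_, rfl⟩
  rw [← hD1] at hD ⊢
  field_simp
  rw [hD1]
  ring

/-- module ssa (real algebra) -/
theorem EE_a {a b p q r : ℝ} (hp : p ≠ 0) (hD : q ^ 2 - p * r ≠ 0) :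
    a ^ 2 / (4 * p) - EEn a b p q r = (a * q - b * p) ^ 2 / (4 * p * (q ^ 2 - p * r)) := by
  unfold EEn
  obtain ⟨D, hD1⟩ : ∃ D, D = q ^ 2 - p * r := ⟨_, rfl⟩
  rw [← hD1] at hD ⊢
  field_simp
  rw [hD1]
  ring

/-- module ssa. In the region with positive discriminant `EEn` is strictly decreasing in `q`.
`d/dq` of `(bq-ar)²/(q²-pr)` is `2(bq-ar) r (aq-bp)/(q²-pr)² > 0`; the region is preserved when `q` grows. -/
theorem EE_q {a b p q q' r : ℝ} (hp : 0 < p) (hr : 0 < r) (ha : 0 < a) (hb : 0 < b) (hq : 0 < q)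
    (h : OmM a b p q r) (hqq : q < q') : OmM a b p q' r ∧ EEn a b p q' r < EEn a b p q r := by
  obtain ⟨h1, h2, h3⟩ := h
  have hq' : 0 < q' := hq.trans hqq
  have hD' : 0 < q' ^ 2 - p * r := by nlinarith
  have h2' : a * r < b * q' := by nlinarith
  have h3' : b * p < a * q' := by nlinarith
  refine ⟨⟨hD', h2', h3'⟩, ?_⟩
  have e1 := EE_b (a := a) (b := b) (p := p) hr.ne' h1.ne'
  have e2 := EE_b (a := a) (b := b) (p := p) hr.ne' hD'.ne'
  have key : (b * q - a * r) ^ 2 / (4 * r * (q ^ 2 - p * r)) <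
      (b * q' - a * r) ^ 2 / (4 * r * (q' ^ 2 - p * r)) := by
    rw [div_lt_div_iff₀ (by positivity) (by positivity)]
    have e : (b * q' - a * r) ^ 2 * (4 * r * (q ^ 2 - p * r)) -
        (b * q - a * r) ^ 2 * (4 * r * (q' ^ 2 - p * r)) =
        4 * r * (r * (q' - q) * ((a * q - b * p) * (b * q' - a * r) +
          (a * q' - b * p) * (b * q - a * r))) := by ring
    have f1 : 0 < (a * q - b * p) * (b * q' - a * r) := mul_pos (by linarith) (by linarith)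
    have f2 : 0 < (a * q' - b * p) * (b * q - a * r) := mul_pos (by linarith) (by linarith)
    have f3 : 0 < 4 * r * (r * (q' - q) * ((a * q - b * p) * (b * q' - a * r) +
          (a * q' - b * p) * (b * q - a * r))) := by
      have : 0 < q' - q := by linarith
      positivity
    linarith
  linarith

/-- module ssa. ... and increasing in `a`: `∂_a = (bq - ar)/(2(q²-pr))`. -/
theorem EE_mono_a {a a' b p q r : ℝ} (hr : 0 < r) (h : OmM a b p q r) (h' : OmM a' b p q r)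
    (haa : a ≤ a') : EEn a b p q r ≤ EEn a' b p q r := by
  obtain ⟨h1, h2, h3⟩ := h
  obtain ⟨-, h2', -⟩ := h'
  unfold EEn
  rw [div_le_div_iff_of_pos_right (by positivity)]
  nlinarith [mul_nonneg (sub_nonneg.2 haa) (sub_nonneg.2 h2.le),
    mul_nonneg (sub_nonneg.2 haa) (sub_nonneg.2 h2'.le)]

/-- module ssb -/
theorem Neh_En {l1 l2 m1 m2 be : ℝ} {u v : H1 N} (h : Neh l1 l2 m1 m2 be u v) :
    En l1 l2 m1 m2 be u v = (ip l1 u u + ip l2 v v) / 4 := by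
  obtain ⟨-, -, h1, h2⟩ := h
  unfold En
  linarith

/-- module ssb -/
theorem Neh_of_Sol {l1 l2 m1 m2 be : ℝ} {u v : H1 N} (hu : u ≠ 0) (hv : v ≠ 0)
    (h : Sol l1 l2 m1 m2 be u v) : Neh l1 l2 m1 m2 be u v := by
  obtain ⟨h1, h2⟩ := h
  refine ⟨hu, hv, ?_, h2 v⟩
  rw [h1 u, Q4_swapp v v u u]

/-- module ssb. Ground states in the sense of the problem are the solutions which are minimisers. -/
theorem HasGS_iff {l1 l2 m1 m2 be : ℝ} (h1 : 0 < l1) (h2 : 0 < l2) :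
    HasGS N l1 l2 m1 m2 be ↔
      ∃ u v : H1 N, Sol l1 l2 m1 m2 be u v ∧ IsMin l1 l2 m1 m2 be u v := by
  have hbdd : BddBelow {e : ℝ | ∃ u v : H1 N, Neh l1 l2 m1 m2 be u v ∧
      e = En l1 l2 m1 m2 be u v} := by
    refine ⟨0, ?_⟩
    rintro e ⟨u, v, h, rfl⟩
    rw [Neh_En h]
    have := ip_nonneg h1.le u
    have := ip_nonneg h2.le v
    positivity
  constructor
  · rintro ⟨u, v, hu, hv, hs, he⟩
    refine ⟨u, v, hs, Neh_of_Sol hu hv hs, fun u' v' h' => ?_⟩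
    rw [he]
    exact csInf_le hbdd ⟨u', v', h', rfl⟩
  · rintro ⟨u, v, hs, hN, hm⟩
    refine ⟨u, v, hN.1, hN.2.1, hs, ?_⟩
    apply le_antisymm
    · refine le_csInf ⟨_, u, v, hN, rfl⟩ ?_
      rintro e ⟨u', v', h', rfl⟩
      exact hm u' v' h'
    · exact csInf_le hbdd ⟨u, v, hN, rfl⟩

/-- module ssb. Projection to the Nehari type set: `x = (bq-ar)/D`, `y = (aq-bp)/D`. -/
theorem proj [Dim N] {l1 l2 m1 m2 be : ℝ} (h1 : 0 < l1) (h2 : 0 < l2) (hm1 : 0 < m1) (hm2 : 0 < m2)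
    {u v : H1 N} (h : OmMp l1 l2 m1 m2 be u v ∨ OmPp l1 l2 m1 m2 be u v) :
    ∃ x y : ℝ, 0 < x ∧ 0 < y ∧ Neh l1 l2 m1 m2 be (Real.sqrt x • u) (Real.sqrt y • v) ∧
      En l1 l2 m1 m2 be (Real.sqrt x • u) (Real.sqrt y • v) = EEp l1 l2 m1 m2 be u v := by
  have hD : Dl m1 m2 be u v ≠ 0 := by
    unfold Dl
    rcases h with h | h
    · exact h.1.ne'
    · exact h.1.ne
  have hu : u ≠ 0 := by
    rintro rfl
    apply hD
    unfold Dl
    rw [Q4_zero1, Q4_zero1]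
    ring
  have hv : v ≠ 0 := by
    rintro rfl
    apply hD
    unfold Dl
    rw [Q4_swapp, Q4_zero1, Q4_zero1]
    ring
  obtain ⟨a, ha⟩ : ∃ a, a = ip l1 u u := ⟨_, rfl⟩
  obtain ⟨b, hb⟩ : ∃ b, b = ip l2 v v := ⟨_, rfl⟩
  obtain ⟨p, hp⟩ : ∃ p, p = m1 * Q4 u u u u := ⟨_, rfl⟩
  obtain ⟨q, hq⟩ : ∃ q, q = be * Q4 u u v v := ⟨_, rfl⟩
  obtain ⟨r, hr⟩ : ∃ r, r = m2 * Q4 v v v v := ⟨_, rfl⟩
  unfold OmMp OmPp at h
  unfold Dl at hD
  unfold EEp
  rw [← hp, ← hq, ← hr] at hD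
  rw [← ha, ← hb, ← hp, ← hq, ← hr] at h ⊢
  obtain ⟨x, hx⟩ : ∃ x, x = (b * q - a * r) / (q ^ 2 - p * r) := ⟨_, rfl⟩
  obtain ⟨y, hy⟩ : ∃ y, y = (a * q - b * p) / (q ^ 2 - p * r) := ⟨_, rfl⟩
  have hD' : q ^ 2 - p * r ≠ 0 := hD
  have hx0 : 0 < x := by
    rw [hx]
    rcases h with h | h
    · exact div_pos (by linarith [h.2.1]) h.1
    · exact div_pos_of_neg_of_neg (by linarith [h.2.1]) h.1
  have hy0 : 0 < y := by
    rw [hy]
    rcases h with h | h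
    · exact div_pos (by linarith [h.2.2]) h.1
    · exact div_pos_of_neg_of_neg (by linarith [h.2.2]) h.1
  have xD : x * (q ^ 2 - p * r) = b * q - a * r := by
    rw [hx]
    exact div_mul_cancel₀ _ hD'
  have yD : y * (q ^ 2 - p * r) = a * q - b * p := by
    rw [hy]
    exact div_mul_cancel₀ _ hD'
  have ea : a = x * p + y * q := by
    apply mul_right_cancel₀ hD'
    linear_combination (-p) * xD - q * yD
  have eb : b = x * q + y * r := by
    apply mul_right_cancel₀ hD'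
    linear_combination (-q) * xD - r * yD
  have sx : Real.sqrt x * Real.sqrt x = x := Real.mul_self_sqrt hx0.le
  have sy : Real.sqrt y * Real.sqrt y = y := Real.mul_self_sqrt hy0.le
  have e1 : ip l1 (Real.sqrt x • u) (Real.sqrt x • u) = x * a := by
    rw [ip_smul_left, ip_smul_right, ← ha, ← mul_assoc, sx]
  have e2 : ip l2 (Real.sqrt y • v) (Real.sqrt y • v) = y * b := by
    rw [ip_smul_left, ip_smul_right, ← hb, ← mul_assoc, sy]
  have e3 : m1 * Q4 (Real.sqrt x • u) (Real.sqrt x • u) (Real.sqrt x • u) (Real.sqrt x • u) =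
      x * x * p := by
    rw [Q4_smul1, Q4_smul2, Q4_smul3, Q4_smul4, hp]
    linear_combination (m1 * Q4 u u u u * (Real.sqrt x * Real.sqrt x + x)) * sx
  have e4 : m2 * Q4 (Real.sqrt y • v) (Real.sqrt y • v) (Real.sqrt y • v) (Real.sqrt y • v) =
      y * y * r := by
    rw [Q4_smul1, Q4_smul2, Q4_smul3, Q4_smul4, hr]
    linear_combination (m2 * Q4 v v v v * (Real.sqrt y * Real.sqrt y + y)) * sy
  have e5 : be * Q4 (Real.sqrt x • u) (Real.sqrt x • u) (Real.sqrt y • v) (Real.sqrt y • v) =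
      x * y * q := by
    rw [Q4_smul1, Q4_smul2, Q4_smul3, Q4_smul4, hq]
    linear_combination (be * Q4 u u v v * (Real.sqrt y * Real.sqrt y)) * sx +
      (be * Q4 u u v v * x) * sy
  have hN : Neh l1 l2 m1 m2 be (Real.sqrt x • u) (Real.sqrt y • v) := by
    refine ⟨smul_ne_zero (Real.sqrt_pos.2 hx0).ne' hu, smul_ne_zero (Real.sqrt_pos.2 hy0).ne' hv,
      ?_, ?_⟩
    · rw [e1, e3, e5]
      linear_combination x * ea
    · rw [e2, e4, e5]
      linear_combination y * eb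
  refine ⟨x, y, hx0, hy0, hN, ?_⟩
  rw [Neh_En hN, e1, e2]
  unfold EEn
  rw [eq_div_iff (mul_ne_zero (by norm_num) hD')]
  linear_combination a * xD + b * yD

/-- module ssb -/
theorem min_le [Dim N] {l1 l2 m1 m2 be : ℝ} (h1 : 0 < l1) (h2 : 0 < l2) (hm1 : 0 < m1)
    (hm2 : 0 < m2) {u0 v0 : H1 N} (h0 : IsMin l1 l2 m1 m2 be u0 v0) {u v : H1 N}
    (h : OmMp l1 l2 m1 m2 be u v ∨ OmPp l1 l2 m1 m2 be u v) :
    En l1 l2 m1 m2 be u0 v0 ≤ EEp l1 l2 m1 m2 be u v := by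
  obtain ⟨x, y, -, -, h3, h4⟩ := proj h1 h2 hm1 hm2 h
  rw [← h4]
  exact h0.2 _ _ h3

/-- module ssc. On the Nehari type set `a = p+q`, `b = q+r`, so `bq - ar = aq - bp = D`. -/
theorem Neh_Om [Dim N] {l1 l2 m1 m2 be : ℝ} {u v : H1 N} (h : Neh l1 l2 m1 m2 be u v) :
    (0 < Dl m1 m2 be u v → OmMp l1 l2 m1 m2 be u v) ∧
      (Dl m1 m2 be u v < 0 → OmPp l1 l2 m1 m2 be u v) ∧
      (Dl m1 m2 be u v ≠ 0 → EEp l1 l2 m1 m2 be u v = En l1 l2 m1 m2 be u v) := by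
  obtain ⟨hu, hv, ha, hb⟩ := h
  have hN : Neh l1 l2 m1 m2 be u v := ⟨hu, hv, ha, hb⟩
  unfold Dl OmMp OmPp EEp
  rw [Neh_En hN, ha, hb]
  obtain ⟨p, hp⟩ : ∃ p, p = m1 * Q4 u u u u := ⟨_, rfl⟩
  obtain ⟨q, hq⟩ : ∃ q, q = be * Q4 u u v v := ⟨_, rfl⟩
  obtain ⟨r, hr⟩ : ∃ r, r = m2 * Q4 v v v v := ⟨_, rfl⟩
  rw [← hp, ← hq, ← hr]
  refine ⟨fun h => ⟨h, by nlinarith, by nlinarith⟩, fun h => ⟨h, by nlinarith, by nlinarith⟩,
    fun h => ?_⟩
  unfold EEn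
  rw [div_eq_iff (mul_ne_zero (by norm_num) h)]
  ring

/-- module ssc. `E = b²/(4r) - D/(4r)` on the Nehari type set, and `b²/(4r) ≥ S2(l2)/(4 m2)`; the same for `a, p`. -/
theorem Neh_ge [Dim N] {l1 l2 m1 m2 be : ℝ} (h1 : 0 < l1) (h2 : 0 < l2) (hm1 : 0 < m1)
    (hm2 : 0 < m2) {u v : H1 N} (h : Neh l1 l2 m1 m2 be u v) :
    S2 N l2 / (4 * m2) ≤ En l1 l2 m1 m2 be u v + Dl m1 m2 be u v / (4 * (m2 * Q4 v v v v)) ∧
      S2 N l1 / (4 * m1) ≤ En l1 l2 m1 m2 be u v + Dl m1 m2 be u v / (4 * (m1 * Q4 u u u u)) := by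
  obtain ⟨hu, hv, ha, hb⟩ := h
  have hN : Neh l1 l2 m1 m2 be u v := ⟨hu, hv, ha, hb⟩
  have hP := Q4_pos hu
  have hR := Q4_pos hv
  have s1 := S2_le h1 u
  have s2 := S2_le h2 v
  unfold Dl
  rw [Neh_En hN]
  constructor
  · have e : (ip l1 u u + ip l2 v v) / 4 + ((be * Q4 u u v v) ^ 2 - m1 * Q4 u u u u *
        (m2 * Q4 v v v v)) / (4 * (m2 * Q4 v v v v)) = ip l2 v v ^ 2 / (4 * (m2 * Q4 v v v v)) := by
      rw [ha, hb]
      field_simp
      ring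
    rw [e, div_le_div_iff₀ (by positivity) (by positivity)]
    nlinarith
  · have e : (ip l1 u u + ip l2 v v) / 4 + ((be * Q4 u u v v) ^ 2 - m1 * Q4 u u u u *
        (m2 * Q4 v v v v)) / (4 * (m1 * Q4 u u u u)) = ip l1 u u ^ 2 / (4 * (m1 * Q4 u u u u)) := by
      rw [ha, hb]
      field_simp
      ring
    rw [e, div_le_div_iff₀ (by positivity) (by positivity)]
    nlinarith

/-- module ssc. `D < 0` if `β² < μ1 μ2`. -/
theorem Dl_neg [Dim N] {m1 m2 be : ℝ} (hb : be ^ 2 < m1 * m2) {u v : H1 N} (hu : u ≠ 0)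
    (hv : v ≠ 0) : Dl m1 m2 be u v < 0 := by
  have hP := Q4_pos hu
  have hR := Q4_pos hv
  have hc := Q4_cs u v
  have hPR : 0 < Q4 u u u u * Q4 v v v v := mul_pos hP hR
  unfold Dl
  have e1 : (be * Q4 u u v v) ^ 2 ≤ be ^ 2 * (Q4 u u u u * Q4 v v v v) := by
    rw [mul_pow]
    exact mul_le_mul_of_nonneg_left hc (sq_nonneg be)
  have e2 : be ^ 2 * (Q4 u u u u * Q4 v v v v) < m1 * m2 * (Q4 u u u u * Q4 v v v v) :=
    mul_lt_mul_of_pos_right hb hPR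
  have e3 : m1 * m2 * (Q4 u u u u * Q4 v v v v) = m1 * Q4 u u u u * (m2 * Q4 v v v v) := by ring
  linarith

private theorem ssd_Dl {m1 m2 be : ℝ} (u v : H1 N) : Dl m2 m1 be v u = Dl m1 m2 be u v := by
  unfold Dl
  rw [Q4_swapp v v u u]
  ring

private theorem ssd_Neh {l1 l2 m1 m2 be : ℝ} {u v : H1 N} (h : Neh l1 l2 m1 m2 be u v) :
    Neh l2 l1 m2 m1 be v u := by
  obtain ⟨a, b, c, d⟩ := h
  refine ⟨b, a, ?_, ?_⟩
  · rw [Q4_swapp v v u u]
    exact d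
  · rw [Q4_swapp v v u u]
    exact c

private theorem ssd_En (l1 l2 m1 m2 be : ℝ) (u v : H1 N) :
    En l2 l1 m2 m1 be v u = En l1 l2 m1 m2 be u v := by
  unfold En
  rw [Q4_swapp v v u u]
  ring

private theorem ssd_IsMin {l1 l2 m1 m2 be : ℝ} {u v : H1 N} (h : IsMin l1 l2 m1 m2 be u v) :
    IsMin l2 l1 m2 m1 be v u := by
  refine ⟨ssd_Neh h.1, fun u' v' h' => ?_⟩
  rw [ssd_En, ssd_En l1 l2 m1 m2 be v' u']
  exact h.2 v' u' (ssd_Neh h')

private theorem ssd_half [Dim N] {l1 l2 m1 m2 be : ℝ} (h1 : 0 < l1) (h2 : 0 < l2) (hm1 : 0 < m1)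
    (hm2 : 0 < m2) {u v : H1 N} (h : IsMin l1 l2 m1 m2 be u v) (hD : Dl m1 m2 be u v ≠ 0)
    (k : H1 N) : ip l1 u k = m1 * Q4 u u u k + be * Q4 v v u k := by
  obtain ⟨O1, O2, O3⟩ := Neh_Om h.1
  have hN := h.1
  obtain ⟨hu, hv, ea, eb⟩ := hN
  -- the polynomials
  have eA : ∀ t : ℝ, ip l1 (u + t • k) (u + t • k) =
      ip l1 u u + 2 * ip l1 u k * t + ip l1 k k * t ^ 2 := by
    intro t
    rw [ip_add_left, ip_add_right, ip_add_right, ip_smul_left, ip_smul_right, ip_smul_left,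
      ip_smul_right, ip_comm l1 k u]
    ring
  have eP : ∀ t : ℝ, m1 * Q4 (u + t • k) (u + t • k) (u + t • k) (u + t • k) =
      m1 * Q4 u u u u + 4 * m1 * Q4 u u u k * t + 6 * m1 * Q4 u u k k * t ^ 2 +
        4 * m1 * Q4 u k k k * t ^ 3 + m1 * Q4 k k k k * t ^ 4 := by
    intro t
    rw [P_expand]
    ring
  have eQ : ∀ t : ℝ, be * Q4 (u + t • k) (u + t • k) v v =
      be * Q4 u u v v + 2 * be * Q4 u k v v * t + be * Q4 k k v v * t ^ 2 := by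
    intro t
    rw [Q_expand]
    ring
  obtain ⟨b, hb⟩ : ∃ b, b = ip l2 v v := ⟨_, rfl⟩
  obtain ⟨r, hr⟩ : ∃ r, r = m2 * Q4 v v v v := ⟨_, rfl⟩
  obtain ⟨A, hA⟩ : ∃ A : ℝ → ℝ, A = fun t => ip l1 u u + 2 * ip l1 u k * t + ip l1 k k * t ^ 2 :=
    ⟨_, rfl⟩
  obtain ⟨P, hP⟩ : ∃ P : ℝ → ℝ, P = fun t => m1 * Q4 u u u u + 4 * m1 * Q4 u u u k * t +
      6 * m1 * Q4 u u k k * t ^ 2 + 4 * m1 * Q4 u k k k * t ^ 3 + m1 * Q4 k k k k * t ^ 4 :=
    ⟨_, rfl⟩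
  obtain ⟨Q, hQ⟩ : ∃ Q : ℝ → ℝ, Q = fun t => be * Q4 u u v v + 2 * be * Q4 u k v v * t +
      be * Q4 k k v v * t ^ 2 := ⟨_, rfl⟩
  have dA : HasDerivAt A (2 * ip l1 u k) 0 := by
    rw [hA]
    have := (((hasDerivAt_id (0 : ℝ)).const_mul (2 * ip l1 u k)).const_add (ip l1 u u)).add
      (((hasDerivAt_id (0 : ℝ)).pow 2).const_mul (ip l1 k k))
    exact this.congr_deriv (by simp)
  have dP : HasDerivAt P (4 * m1 * Q4 u u u k) 0 := by
    rw [hP]
    have := (((((hasDerivAt_id (0 : ℝ)).const_mul (4 * m1 * Q4 u u u k)).const_add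
      (m1 * Q4 u u u u)).add
      (((hasDerivAt_id (0 : ℝ)).pow 2).const_mul (6 * m1 * Q4 u u k k))).add
      (((hasDerivAt_id (0 : ℝ)).pow 3).const_mul (4 * m1 * Q4 u k k k))).add
      (((hasDerivAt_id (0 : ℝ)).pow 4).const_mul (m1 * Q4 k k k k))
    exact this.congr_deriv (by simp)
  have dQ : HasDerivAt Q (2 * be * Q4 u k v v) 0 := by
    rw [hQ]
    have := (((hasDerivAt_id (0 : ℝ)).const_mul (2 * be * Q4 u k v v)).const_add
      (be * Q4 u u v v)).add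
      (((hasDerivAt_id (0 : ℝ)).pow 2).const_mul (be * Q4 k k v v))
    exact this.congr_deriv (by simp)
  have A0 : A 0 = ip l1 u u := by rw [hA]; simp
  have P0 : P 0 = m1 * Q4 u u u u := by rw [hP]; simp
  have Q0 : Q 0 = be * Q4 u u v v := by rw [hQ]; simp
  have hD0 : Q 0 ^ 2 - P 0 * r ≠ 0 := by
    rw [P0, Q0, hr]
    exact hD
  have hF : ∀ t, EEp l1 l2 m1 m2 be (u + t • k) v = EEn (A t) b (P t) (Q t) r := by
    intro t
    unfold EEp
    rw [eA, eP, eQ, ← hb, ← hr, hA, hP, hQ]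
  have cA := dA.continuousAt
  have cP := dP.continuousAt
  have cQ := dQ.continuousAt
  have cD : ContinuousAt (fun t => Q t ^ 2 - P t * r) 0 := (cQ.pow 2).sub (cP.mul_const r)
  have c1 : ContinuousAt (fun t => b * Q t - A t * r) 0 := (cQ.const_mul b).sub (cA.mul_const r)
  have c2 : ContinuousAt (fun t => A t * Q t - b * P t) 0 := (cA.mul cQ).sub (cP.const_mul b)
  -- nearby pairs are in the region
  have hreg : ∀ᶠ t in 𝓝 (0 : ℝ), OmM (A t) b (P t) (Q t) r ∨ OmP (A t) b (P t) (Q t) r := by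
    rcases lt_or_gt_of_ne hD with hD | hD
    · have O := O2 hD
      unfold OmPp at O
      rw [← A0, ← P0, ← Q0, ← hb, ← hr] at O
      obtain ⟨o1, o2, o3⟩ := O
      have f1 : ∀ᶠ t in 𝓝 (0 : ℝ), Q t ^ 2 - P t * r < 0 := cD.eventually_lt_const o1
      have f2 : ∀ᶠ t in 𝓝 (0 : ℝ), b * Q t - A t * r < 0 :=
        c1.eventually_lt_const (by change b * Q 0 - A 0 * r < 0; linarith)
      have f3 : ∀ᶠ t in 𝓝 (0 : ℝ), A t * Q t - b * P t < 0 :=
        c2.eventually_lt_const (by change A 0 * Q 0 - b * P 0 < 0; linarith)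
      filter_upwards [f1, f2, f3] with t g1 g2 g3
      exact Or.inr ⟨g1, by linarith, by linarith⟩
    · have O := O1 hD
      unfold OmMp at O
      rw [← A0, ← P0, ← Q0, ← hb, ← hr] at O
      obtain ⟨o1, o2, o3⟩ := O
      have f1 : ∀ᶠ t in 𝓝 (0 : ℝ), 0 < Q t ^ 2 - P t * r := cD.eventually_const_lt o1
      have f2 : ∀ᶠ t in 𝓝 (0 : ℝ), 0 < b * Q t - A t * r :=
        c1.eventually_const_lt (by change 0 < b * Q 0 - A 0 * r; linarith)
      have f3 : ∀ᶠ t in 𝓝 (0 : ℝ), 0 < A t * Q t - b * P t :=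
        c2.eventually_const_lt (by change 0 < A 0 * Q 0 - b * P 0; linarith)
      filter_upwards [f1, f2, f3] with t g1 g2 g3
      exact Or.inl ⟨g1, by linarith, by linarith⟩
  have hmin : IsLocalMin (fun t => EEn (A t) b (P t) (Q t) r) 0 := by
    filter_upwards [hreg] with t ht
    have e0 : EEn (A 0) b (P 0) (Q 0) r = En l1 l2 m1 m2 be u v := by
      rw [← O3 hD]
      unfold EEp
      rw [A0, P0, Q0, hb, hr]
    change EEn (A 0) b (P 0) (Q 0) r ≤ EEn (A t) b (P t) (Q t) r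
    rw [e0, ← hF]
    apply min_le h1 h2 hm1 hm2 h
    unfold OmMp OmPp
    rw [eA, eP, eQ, ← hb, ← hr]
    rw [hA, hP, hQ] at ht
    exact ht
  have hder : HasDerivAt (fun t => EEn (A t) b (P t) (Q t) r)
      (((2 * (2 * ip l1 u k) * b * Q 0 + 2 * A 0 * b * (2 * be * Q4 u k v v) -
        (2 * A 0 * (2 * ip l1 u k)) * r - b ^ 2 * (4 * m1 * Q4 u u u k)) *
          (4 * (Q 0 ^ 2 - P 0 * r)) -
        (2 * A 0 * b * Q 0 - A 0 ^ 2 * r - b ^ 2 * P 0) *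
          (4 * (2 * Q 0 * (2 * be * Q4 u k v v) - 4 * m1 * Q4 u u u k * r))) /
        (4 * (Q 0 ^ 2 - P 0 * r)) ^ 2) 0 := by
    unfold EEn
    have n1 : HasDerivAt (fun t => 2 * A t * b * Q t - A t ^ 2 * r - b ^ 2 * P t)
        (2 * (2 * ip l1 u k) * b * Q 0 + 2 * A 0 * b * (2 * be * Q4 u k v v) -
        (2 * A 0 * (2 * ip l1 u k)) * r - b ^ 2 * (4 * m1 * Q4 u u u k)) 0 := by
      have := ((((dA.const_mul 2).mul_const b).mul dQ).sub ((dA.pow 2).mul_const r)).sub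
        (dP.const_mul (b ^ 2))
      exact this.congr_deriv (by simp)
    have n2 : HasDerivAt (fun t => 4 * (Q t ^ 2 - P t * r))
        (4 * (2 * Q 0 * (2 * be * Q4 u k v v) - 4 * m1 * Q4 u u u k * r)) 0 := by
      have := ((dQ.pow 2).sub (dP.mul_const r)).const_mul 4
      exact this.congr_deriv (by simp)
    exact n1.div n2 (by
      intro e
      exact hD0 (by linarith))
  have hz := hmin.hasDerivAt_eq_zero hder
  have hden : (4 * (Q 0 ^ 2 - P 0 * r)) ^ 2 ≠ 0 := by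
    have : 4 * (Q 0 ^ 2 - P 0 * r) ≠ 0 := mul_ne_zero (by norm_num) hD0
    exact pow_ne_zero 2 this
  rw [div_eq_zero_iff] at hz
  have hz := hz.resolve_right hden
  have a0 : A 0 = P 0 + Q 0 := by rw [A0, P0, Q0, ea]
  have b0 : b = r + Q 0 := by rw [hb, Q0, eb, hr]
  have fin : 16 * (Q 0 ^ 2 - P 0 * r) ^ 2 *
      (ip l1 u k - be * Q4 u k v v - m1 * Q4 u u u k) = 0 := by
    rw [a0, b0] at hz
    linear_combination hz
  have fin2 := (mul_eq_zero.1 fin).resolve_left (by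
    have := pow_ne_zero 2 hD0
    positivity)
  rw [Q4_swapp v v u k]
  linarith

/-- module ssd. A minimiser with nonzero discriminant is a weak solution.
Proof: `(u,v)` lies in the open region (`Neh_Om`), so `(u + t h, v)` is in the region for small `|t|` and
`EEp (u+th) v ≥ En u v = EEp u v` (`min_le`); `t ↦ EEp (u+th) v` is differentiable at `0` (quotient of polynomials,
`P_expand`, `Q_expand`, `ip_add..`) and its derivative is `ip l1 u h - m1 Q4 u u u h - be Q4 v v u h`, because at the point of the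
Nehari type set `∂_a EEn = 1/2`, `∂_p EEn = -1/4`, `∂_q EEn = -1/2`. The same for `v`. -/
theorem IsMin_sol [Dim N] {l1 l2 m1 m2 be : ℝ} (h1 : 0 < l1) (h2 : 0 < l2) (hm1 : 0 < m1)
    (hm2 : 0 < m2) {u v : H1 N} (h : IsMin l1 l2 m1 m2 be u v) (hD : Dl m1 m2 be u v ≠ 0) :
    Sol l1 l2 m1 m2 be u v := by
  refine ⟨ssd_half h1 h2 hm1 hm2 h hD, ?_⟩
  have hD' : Dl m2 m1 be v u ≠ 0 := by
    rw [ssd_Dl]
    exact hD
  exact ssd_half h2 h1 hm2 hm1 (ssd_IsMin h) hD'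

end Sir
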