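import Pool.Agent.Sir.Sys
/-!
# The thresholds `tau`, swap and scaling invariance
modules: taa, tab, tac
-/

namespace Sir

open MeasureTheory Filter Topology

variable {N : ℕ}

/-- module taa -/
theorem tau_lt [Dim N] {l m l' t : ℝ} (hl : 0 < l) (hm : 0 < m) (h : tau N l m l' < t) :
    ∃ w p : H1 N, GNo l m w ∧ 0 < Q4 w w p p ∧ ip l' p p < t * Q4 w w p p := by
  obtain ⟨w, hw, -⟩ := exists_GNo (N := N) hl hm
  have hne : {t : ℝ | ∃ w p : H1 N, SGS l m w ∧ Q4 w w p p ≠ 0 ∧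
      t = ip l' p p / Q4 w w p p}.Nonempty :=
    ⟨_, w, w, (SGS_iff hl hm w).2 hw, (Q4_pos hw.1).ne', rfl⟩
  obtain ⟨s, ⟨w', p, h1, h2, rfl⟩, h3⟩ := exists_lt_of_csInf_lt hne h
  have h4 : 0 < Q4 w' w' p p := lt_of_le_of_ne (Q4_nonneg w' p) h2.symm
  exact ⟨w', p, (SGS_iff hl hm w').1 h1, h4, (div_lt_iff₀ h4).1 h3⟩

/-- module taa -/
theorem tau_le [Dim N] {l m l' : ℝ} (hl : 0 < l) (hm : 0 < m) (hl' : 0 < l') {w : H1 N}
    (h : GNo l m w) (p : H1 N) : tau N l m l' * Q4 w w p p ≤ ip l' p p := by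
  rcases (Q4_nonneg w p).eq_or_lt with h0 | h0
  · rw [← h0, mul_zero]
    exact ip_nonneg hl'.le p
  · have h1 : tau N l m l' ≤ ip l' p p / Q4 w w p p := by
      refine csInf_le ⟨0, ?_⟩ ⟨w, p, (SGS_iff hl hm w).2 h, h0.ne', rfl⟩
      rintro t ⟨w', p', -, -, rfl⟩
      exact div_nonneg (ip_nonneg hl'.le p') (Q4_nonneg w' p')
    exact (le_div_iff₀ h0).1 h1

/-- module taa: from `cs_le`: `ip l' p p ≥ min 1 (l'/l) ip l p p ≥ min 1 (l'/l) m Q4 w w p p` -/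
theorem tau_ge [Dim N] {l m l' : ℝ} (hl : 0 < l) (hm : 0 < m) (hl' : 0 < l') :
    m * min 1 (l' / l) ≤ tau N l m l' := by
  obtain ⟨w, hw, -⟩ := exists_GNo (N := N) hl hm
  refine le_csInf ⟨_, w, w, (SGS_iff hl hm w).2 hw, (Q4_pos hw.1).ne', rfl⟩ ?_
  rintro t ⟨w', p, h1, h2, rfl⟩
  have h4 : 0 < Q4 w' w' p p := lt_of_le_of_ne (Q4_nonneg w' p) h2.symm
  rw [le_div_iff₀ h4]
  have h5 := cs_le hl hm ((SGS_iff hl hm w').1 h1) p
  have hX := gX_nonneg p
  have hY := gY_nonneg p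
  have hmin0 : 0 ≤ min 1 (l' / l) := le_min zero_le_one (div_nonneg hl'.le hl.le)
  have h6 : min 1 (l' / l) * ip l p p ≤ ip l' p p := by
    unfold ip
    have e1 : min 1 (l' / l) * gX p p ≤ 1 * gX p p :=
      mul_le_mul_of_nonneg_right (min_le_left _ _) hX
    have e2 : min 1 (l' / l) * (l * gY p p) ≤ l' / l * (l * gY p p) :=
      mul_le_mul_of_nonneg_right (min_le_right _ _) (mul_nonneg hl.le hY)
    have e3 : l' / l * (l * gY p p) = l' * gY p p := by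
      field_simp
    rw [mul_add]
    linarith
  have h7 := mul_le_mul_of_nonneg_left h5 hmin0
  calc m * min 1 (l' / l) * Q4 w' w' p p = min 1 (l' / l) * (m * Q4 w' w' p p) := by ring
    _ ≤ _ := h7.trans h6

/-- module taa: `p = w` -/
theorem tau_self [Dim N] {l m l' : ℝ} (hl : 0 < l) (hm : 0 < m) (hl' : 0 < l') {w : H1 N}
    (h : GNo l m w) : tau N l m l' ≤ m + (l' - l) * (gY w w / Q4 w w w w) := by
  have h0 := Q4_pos h.1
  have h1 := tau_le hl hm hl' h w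
  rw [← le_div_iff₀ h0] at h1
  refine h1.trans (le_of_eq ?_)
  have h2 := h.2.1
  have h3 : ip l' w w = m * Q4 w w w w + (l' - l) * gY w w := by
    rw [← h2]
    unfold ip
    ring
  rw [h3]
  field_simp

/-- module taa: `gY w w / Q4 w w w w ≤ m / l` since `l gY w w ≤ ip l w w = m Q4 w w w w` -/
theorem tau_upper [Dim N] {l m l' : ℝ} (hl : 0 < l) (hm : 0 < m) (hl' : 0 < l') :
    tau N l m l' ≤ m * (1 + |l' - l| / l) := by
  obtain ⟨w, hw, -⟩ := exists_GNo (N := N) hl hm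
  have h0 := Q4_pos hw.1
  refine (tau_self hl hm hl' hw).trans ?_
  have h1 : gY w w / Q4 w w w w ≤ m / l := by
    rw [div_le_div_iff₀ h0 hl]
    have := gY_le_ip (l := l) w
    rw [hw.2.1] at this
    linarith
  have h2 : 0 ≤ gY w w / Q4 w w w w := div_nonneg (gY_nonneg w) h0.le
  have h3 : (l' - l) * (gY w w / Q4 w w w w) ≤ |l' - l| * (m / l) :=
    mul_le_mul (le_abs_self _) h1 h2 (abs_nonneg _)
  have h4 : m * (1 + |l' - l| / l) = m + |l' - l| * (m / l) := by ring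
  rw [h4]
  linarith

/-- module tab -/
theorem tau_scale [Dim N] {l m l' s : ℝ} (hl : 0 < l) (hm : 0 < m) (hs : 0 < s) :
    tau N (s ^ 2 * l) m (s ^ 2 * l') = tau N l m l' := by
  obtain ⟨T, -, h1, h2⟩ := dil_H (N := N) s hs
  have hl2 : 0 < s ^ 2 * l := by positivity
  have hsp : s ^ (4 - N) ≠ 0 := (pow_pos hs _).ne'
  have hval : ∀ w p : H1 N, ip (s ^ 2 * l') (T p) (T p) / Q4 (T w) (T w) (T p) (T p) =
      ip l' p p / Q4 w w p p := by
    intro w p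
    rw [h1, h2]
    exact mul_div_mul_left _ _ hsp
  unfold tau
  congr 1
  ext t
  constructor
  · rintro ⟨w, p, hw, hq, rfl⟩
    obtain ⟨w', rfl⟩ := T.surjective w
    obtain ⟨p', rfl⟩ := T.surjective p
    refine ⟨w', p', ?_, ?_, hval w' p'⟩
    · rw [SGS_iff hl hm, ← GNo_scale hl hs h1 h2, ← SGS_iff hl2 hm]
      exact hw
    · intro h0
      apply hq
      rw [h2, h0, mul_zero]
  · rintro ⟨w, p, hw, hq, rfl⟩
    refine ⟨T w, T p, ?_, ?_, (hval w p).symm⟩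
    · rw [SGS_iff hl2 hm, GNo_scale hl hs h1 h2, ← SGS_iff hl hm]
      exact hw
    · rw [h2]
      exact mul_ne_zero hsp hq

open scoped Pointwise in
private theorem tab_one [Dim N] {l1 l2 m1 m2 be s : ℝ} (hs : 0 < s) {T : H1 N ≃ₗ[ℝ] H1 N}
    (h1 : ∀ (l : ℝ) (u v : H1 N), ip (s ^ 2 * l) (T u) (T v) = s ^ (4 - N) * ip l u v)
    (h2 : ∀ u v w z : H1 N, Q4 (T u) (T v) (T w) (T z) = s ^ (4 - N) * Q4 u v w z) :
    (∀ u v : H1 N, Neh (s ^ 2 * l1) (s ^ 2 * l2) m1 m2 be (T u) (T v) ↔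
      Neh l1 l2 m1 m2 be u v) ∧
    (∀ u v : H1 N, En (s ^ 2 * l1) (s ^ 2 * l2) m1 m2 be (T u) (T v) =
      s ^ (4 - N) * En l1 l2 m1 m2 be u v) ∧
    (∀ u v : H1 N, Sol (s ^ 2 * l1) (s ^ 2 * l2) m1 m2 be (T u) (T v) ↔
      Sol l1 l2 m1 m2 be u v) ∧
    level N (s ^ 2 * l1) (s ^ 2 * l2) m1 m2 be = s ^ (4 - N) * level N l1 l2 m1 m2 be := by
  have hsp : 0 < s ^ (4 - N) := pow_pos hs _
  have hT0 : ∀ u : H1 N, T u = 0 ↔ u = 0 := fun u => T.map_eq_zero_iff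
  have key : ∀ a b : ℝ, s ^ (4 - N) * a = s ^ (4 - N) * b ↔ a = b := fun a b =>
    ⟨fun h => mul_left_cancel₀ hsp.ne' h, fun h => by rw [h]⟩
  have hN : ∀ u v : H1 N, Neh (s ^ 2 * l1) (s ^ 2 * l2) m1 m2 be (T u) (T v) ↔
      Neh l1 l2 m1 m2 be u v := by
    intro u v
    unfold Neh
    rw [h1, h1, h2, h2, h2]
    have e1 : m1 * (s ^ (4 - N) * Q4 u u u u) + be * (s ^ (4 - N) * Q4 u u v v) =
        s ^ (4 - N) * (m1 * Q4 u u u u + be * Q4 u u v v) := by ring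
    have e2 : m2 * (s ^ (4 - N) * Q4 v v v v) + be * (s ^ (4 - N) * Q4 u u v v) =
        s ^ (4 - N) * (m2 * Q4 v v v v + be * Q4 u u v v) := by ring
    rw [e1, e2, key, key, Ne, hT0, Ne, hT0]
  have hE : ∀ u v : H1 N, En (s ^ 2 * l1) (s ^ 2 * l2) m1 m2 be (T u) (T v) =
      s ^ (4 - N) * En l1 l2 m1 m2 be u v := by
    intro u v
    unfold En
    rw [h1, h1, h2, h2, h2]
    ring
  refine ⟨hN, hE, ?_, ?_⟩
  · intro u v
    unfold Sol
    constructor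
    · rintro ⟨a, b⟩
      refine ⟨fun h => ?_, fun h => ?_⟩
      · have := a (T h)
        rw [h1, h2, h2] at this
        apply (key _ _).1
        rw [this]
        ring
      · have := b (T h)
        rw [h1, h2, h2] at this
        apply (key _ _).1
        rw [this]
        ring
    · rintro ⟨a, b⟩
      refine ⟨fun h => ?_, fun h => ?_⟩
      · obtain ⟨h, rfl⟩ := T.surjective h
        rw [h1, h2, h2, a h]
        ring
      · obtain ⟨h, rfl⟩ := T.surjective h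
        rw [h1, h2, h2, b h]
        ring
  · unfold level
    have : {e : ℝ | ∃ u v : H1 N, Neh (s ^ 2 * l1) (s ^ 2 * l2) m1 m2 be u v ∧
        e = En (s ^ 2 * l1) (s ^ 2 * l2) m1 m2 be u v} =
        s ^ (4 - N) • {e : ℝ | ∃ u v : H1 N, Neh l1 l2 m1 m2 be u v ∧
          e = En l1 l2 m1 m2 be u v} := by
      ext e
      rw [Set.mem_smul_set]
      constructor
      · rintro ⟨u, v, a, rfl⟩
        obtain ⟨u, rfl⟩ := T.surjective u
        obtain ⟨v, rfl⟩ := T.surjective v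
        exact ⟨_, ⟨u, v, (hN u v).1 a, rfl⟩, (hE u v).symm⟩
      · rintro ⟨e', ⟨u, v, a, rfl⟩, rfl⟩
        exact ⟨T u, T v, (hN u v).2 a, (hE u v).symm⟩
    rw [this, Real.sInf_smul_of_nonneg hsp.le]
    rfl

/-- module tab -/
theorem HasGS_scale [Dim N] {l1 l2 m1 m2 be s : ℝ} (hs : 0 < s) :
    HasGS N (s ^ 2 * l1) (s ^ 2 * l2) m1 m2 be ↔ HasGS N l1 l2 m1 m2 be := by
  obtain ⟨T, -, h1, h2⟩ := dil_H (N := N) s hs
  have hsp : 0 < s ^ (4 - N) := pow_pos hs _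
  obtain ⟨-, hE, hS, hL⟩ := tab_one (l1 := l1) (l2 := l2) (m1 := m1) (m2 := m2) (be := be) hs h1 h2
  unfold HasGS
  constructor
  · rintro ⟨u, v, hu, hv, a, b⟩
    obtain ⟨u, rfl⟩ := T.surjective u
    obtain ⟨v, rfl⟩ := T.surjective v
    refine ⟨u, v, ?_, ?_, (hS u v).1 a, ?_⟩
    · rintro rfl
      exact hu (map_zero T)
    · rintro rfl
      exact hv (map_zero T)
    · rw [hE, hL] at b
      exact mul_left_cancel₀ hsp.ne' b
  · rintro ⟨u, v, hu, hv, a, b⟩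
    refine ⟨T u, T v, ?_, ?_, (hS u v).2 a, ?_⟩
    · exact fun h => hu (T.map_eq_zero_iff.1 h)
    · exact fun h => hv (T.map_eq_zero_iff.1 h)
    · rw [hE, hL, b]

private theorem tab_Neh {l1 l2 m1 m2 be : ℝ} {u v : H1 N} (h : Neh l1 l2 m1 m2 be u v) :
    Neh l2 l1 m2 m1 be v u := by
  obtain ⟨a, b, c, d⟩ := h
  refine ⟨b, a, ?_, ?_⟩
  · rw [Q4_swapp v v u u]
    exact d
  · rw [Q4_swapp v v u u]
    exact c

private theorem tab_En (l1 l2 m1 m2 be : ℝ) (u v : H1 N) :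
    En l2 l1 m2 m1 be v u = En l1 l2 m1 m2 be u v := by
  unfold En
  rw [Q4_swapp v v u u]
  ring

private theorem tab_level (l1 l2 m1 m2 be : ℝ) :
    level N l2 l1 m2 m1 be = level N l1 l2 m1 m2 be := by
  unfold level
  congr 1
  ext e
  constructor
  · rintro ⟨u, v, h, rfl⟩
    exact ⟨v, u, tab_Neh h, tab_En _ _ _ _ _ _ _⟩
  · rintro ⟨u, v, h, rfl⟩
    exact ⟨v, u, tab_Neh h, tab_En _ _ _ _ _ _ _⟩

private theorem tab_swap {l1 l2 m1 m2 be : ℝ} (h : HasGS N l1 l2 m1 m2 be) :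
    HasGS N l2 l1 m2 m1 be := by
  obtain ⟨u, v, hu, hv, ⟨a, b⟩, c⟩ := h
  refine ⟨v, u, hv, hu, ⟨b, a⟩, ?_⟩
  rw [tab_En, tab_level]
  exact c

/-- module tab -/
theorem HasGS_swap {l1 l2 m1 m2 be : ℝ} :
    HasGS N l1 l2 m1 m2 be ↔ HasGS N l2 l1 m2 m1 be := by
  exact ⟨tab_swap, tab_swap⟩

/-- module tac. `β = 0`: the pair of two scalar ground states. -/
theorem GS_zero [Dim N] {l1 l2 m1 m2 : ℝ} (h1 : 0 < l1) (h2 : 0 < l2) (hm1 : 0 < m1)
    (hm2 : 0 < m2) : HasGS N l1 l2 m1 m2 0 := by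
  obtain ⟨w1, g1, -⟩ := exists_GNo (N := N) h1 hm1
  obtain ⟨w2, g2, -⟩ := exists_GNo (N := N) h2 hm2
  rw [HasGS_iff h1 h2]
  have hS : Sol l1 l2 m1 m2 0 w1 w2 := by
    refine ⟨fun h => ?_, fun h => ?_⟩
    · rw [GNo_sol h1 hm1 g1 h]
      ring
    · rw [GNo_sol h2 hm2 g2 h]
      ring
  have hN := Neh_of_Sol g1.1 g2.1 hS
  refine ⟨w1, w2, hS, hN, fun u' v' h' => ?_⟩
  rw [Neh_En hN, Neh_En h', (GNo_vals h1 hm1 g1).2, (GNo_vals h2 hm2 g2).2]
  obtain ⟨a, b, c, d⟩ := h'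
  rw [zero_mul, add_zero] at c d
  have e1 := (SNeh_ge h1 hm1 ⟨a, c⟩).1
  have e2 := (SNeh_ge h2 hm2 ⟨b, d⟩).1
  linarith

/-- the function `1_{|x| ≥ n/2} f⁴` has integral tending to zero -/
private theorem tac_tail (f : E N → ℝ) (hf : Integrable f (volume : Measure (E N))) :
    Tendsto (fun n : ℕ => ∫ x, {x : E N | (n : ℝ) / 2 ≤ ‖x‖}.indicator f x) atTop (𝓝 0) := by
  have h0 : (0 : ℝ) = ∫ x : E N, (0 : ℝ) := by simp
  rw [h0]
  refine tendsto_integral_of_dominated_convergence (fun x => ‖f x‖) ?_ hf.norm ?_ ?_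
  · intro n
    exact hf.aestronglyMeasurable.indicator
      (measurableSet_le measurable_const measurable_norm)
  · intro n
    exact Eventually.of_forall fun x => norm_indicator_le_norm_self _ _
  · refine Eventually.of_forall fun x => ?_
    apply tendsto_const_nhds.congr'
    obtain ⟨k, hk⟩ := exists_nat_gt (2 * ‖x‖)
    filter_upwards [eventually_ge_atTop k] with n hn
    rw [Set.indicator_of_notMem]
    intro h
    have h1 : (n : ℝ) / 2 ≤ ‖x‖ := h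
    have h2 : (k : ℝ) ≤ n := by exact_mod_cast hn
    linarith

/-- `∫ w₁² w₂(· - n e)² → 0` -/
private theorem tac_far [Dim N] (w1 w2 : H1 N) : ∃ v : ℕ → H1 N,
    (∀ n l, ip l (v n) (v n) = ip l w2 w2) ∧ (∀ n, Q4 (v n) (v n) (v n) (v n) = Q4 w2 w2 w2 w2) ∧
      (∀ n, w2 ≠ 0 → v n ≠ 0) ∧
      Tendsto (fun n => Q4 w1 w1 (v n) (v n)) atTop (𝓝 0) := by
  have hN : 0 < N := by
    rcases (Dim.h (N := N)) with h | h <;> omega
  obtain ⟨e, he⟩ : ∃ e : E N, ‖e‖ = 1 := by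
    refine ⟨EuclideanSpace.single ⟨0, hN⟩ (1 : ℝ), ?_⟩
    simp
  have hT : ∀ n : ℕ, ∃ T : H1 N ≃ₗᵢ[ℝ] H1 N, ∀ u : H1 N,
      fn (T u) =ᵐ[volume] (fun x => fn u (x - (n : ℝ) • e)) ∧
      gr (T u) =ᵐ[volume] fun x => gr u (x - (n : ℝ) • e) := by
    intro n
    obtain ⟨T, hT⟩ := aff_H (N := N) (AffineIsometryEquiv.vaddConst ℝ (-((n : ℝ) • e)))
    refine ⟨T, fun u => ⟨?_, ?_⟩⟩
    · filter_upwards [(hT u).1] with x hx
      rw [hx]
      simp [sub_eq_add_neg]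
    · filter_upwards [(hT u).2] with x hx
      rw [hx]
      have e1 : (AffineIsometryEquiv.vaddConst ℝ (-((n : ℝ) • e))) x = x - (n : ℝ) • e := by
        simp [sub_eq_add_neg]
      rw [e1]
      rfl
  choose T hT using hT
  have hQ : ∀ (n : ℕ) (u v w z : H1 N), Q4 (T n u) (T n v) (T n w) (T n z) = Q4 u v w z := by
    intro n u v w z
    unfold Q4
    rw [← integral_sub_right_eq_self (fun x => fn u x * fn v x * fn w x * fn z x) ((n : ℝ) • e)]
    apply integral_congr_ae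
    filter_upwards [(hT n u).1, (hT n v).1, (hT n w).1, (hT n z).1] with x a b c d
    rw [a, b, c, d]
  have hI : ∀ (n : ℕ) (l : ℝ) (u : H1 N), ip l (T n u) (T n u) = ip l u u := by
    intro n l u
    unfold ip gX gY
    rw [← integral_sub_right_eq_self (fun x => fn u x * fn u x) ((n : ℝ) • e),
      ← integral_sub_right_eq_self (fun x => inner ℝ (gr u x) (gr u x)) ((n : ℝ) • e)]
    congr 1
    · apply integral_congr_ae
      filter_upwards [(hT n u).2] with x a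
      rw [a]
    · congr 1
      apply integral_congr_ae
      filter_upwards [(hT n u).1] with x a
      rw [a]
  refine ⟨fun n => T n w2, fun n l => hI n l w2, fun n => hQ n w2 w2 w2 w2, fun n h h' => ?_, ?_⟩
  · exact h ((LinearIsometryEquiv.map_eq_zero_iff (T n)).1 h')
  have i1 := Q4_integrable w1 w1 w1 w1
  have i2 := Q4_integrable w2 w2 w2 w2
  have t1 := tac_tail _ i1
  have t2 := tac_tail _ i2
  obtain ⟨F1, hF1⟩ : ∃ F : E N → ℝ, F = fun x => fn w1 x * fn w1 x * fn w1 x * fn w1 x := ⟨_, rfl⟩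
  obtain ⟨F2, hF2⟩ : ∃ F : E N → ℝ, F = fun x => fn w2 x * fn w2 x * fn w2 x * fn w2 x := ⟨_, rfl⟩
  rw [← hF1] at i1 t1
  rw [← hF2] at i2 t2
  -- the basic estimate
  have est : ∀ (d : ℝ), 0 < d → ∀ n : ℕ, Q4 w1 w1 (T n w2) (T n w2) ≤
      1 / (2 * d) * ((∫ x, {x : E N | (n : ℝ) / 2 ≤ ‖x‖}.indicator F1 x) +
        ∫ x, {x : E N | (n : ℝ) / 2 ≤ ‖x‖}.indicator F2 x) +
        d / 2 * ((∫ x, F1 x) + ∫ x, F2 x) := by
    intro d hd n
    rw [← integral_sub_right_eq_self ({x : E N | (n : ℝ) / 2 ≤ ‖x‖}.indicator F2) ((n : ℝ) • e),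
      ← integral_sub_right_eq_self F2 ((n : ℝ) • e)]
    have m1 : MeasurableSet {x : E N | (n : ℝ) / 2 ≤ ‖x‖} :=
      measurableSet_le measurable_const measurable_norm
    have j1 : Integrable ({x : E N | (n : ℝ) / 2 ≤ ‖x‖}.indicator F1) (volume : Measure (E N)) :=
      i1.indicator m1
    have j2 : Integrable (fun x => {x : E N | (n : ℝ) / 2 ≤ ‖x‖}.indicator F2
        (x - (n : ℝ) • e)) (volume : Measure (E N)) :=
      (i2.indicator m1).comp_sub_right _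
    have j3 : Integrable (fun x => F2 (x - (n : ℝ) • e)) (volume : Measure (E N)) :=
      i2.comp_sub_right _
    have j4 : Integrable (fun x => 1 / (2 * d) * ({x : E N | (n : ℝ) / 2 ≤ ‖x‖}.indicator F1 x +
        {x : E N | (n : ℝ) / 2 ≤ ‖x‖}.indicator F2 (x - (n : ℝ) • e)))
        (volume : Measure (E N)) := (j1.add j2).const_mul _
    have j5 : Integrable (fun x => d / 2 * (F1 x + F2 (x - (n : ℝ) • e)))
        (volume : Measure (E N)) := (i1.add j3).const_mul _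
    rw [← integral_add j1 j2, ← integral_add i1 j3, ← integral_const_mul, ← integral_const_mul,
      ← integral_add j4 j5]
    unfold Q4
    refine integral_mono_ae (Q4_integrable _ _ _ _) (j4.add j5) ?_
    filter_upwards [(hT n w2).1] with x hx
    change fn w1 x * fn w1 x * fn (T n w2) x * fn (T n w2) x ≤
      1 / (2 * d) * ({x : E N | (n : ℝ) / 2 ≤ ‖x‖}.indicator F1 x +
        {x : E N | (n : ℝ) / 2 ≤ ‖x‖}.indicator F2 (x - (n : ℝ) • e)) +
        d / 2 * (F1 x + F2 (x - (n : ℝ) • e))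
    rw [hx]
    obtain ⟨a, ha⟩ : ∃ a, a = fn w1 x ^ 2 := ⟨_, rfl⟩
    obtain ⟨b, hb⟩ : ∃ b, b = fn w2 (x - (n : ℝ) • e) ^ 2 := ⟨_, rfl⟩
    have a0 : 0 ≤ a := by rw [ha]; positivity
    have b0 : 0 ≤ b := by rw [hb]; positivity
    have e1 : F1 x = a ^ 2 := by rw [hF1, ha]; ring
    have e2 : F2 (x - (n : ℝ) • e) = b ^ 2 := by rw [hF2, hb]; ring
    have e3 : fn w1 x * fn w1 x * fn w2 (x - (n : ℝ) • e) * fn w2 (x - (n : ℝ) • e) = a * b := by
      rw [ha, hb]; ring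
    rw [e3, e2, e1]
    have g1 : 0 ≤ {x : E N | (n : ℝ) / 2 ≤ ‖x‖}.indicator F1 x := by
      by_cases hx1 : x ∈ {x : E N | (n : ℝ) / 2 ≤ ‖x‖}
      · rw [Set.indicator_of_mem hx1, e1]
        positivity
      · rw [Set.indicator_of_notMem hx1]
    have g2 : 0 ≤ {x : E N | (n : ℝ) / 2 ≤ ‖x‖}.indicator F2 (x - (n : ℝ) • e) := by
      by_cases hx1 : (x - (n : ℝ) • e) ∈ {x : E N | (n : ℝ) / 2 ≤ ‖x‖}
      · rw [Set.indicator_of_mem hx1, e2]
        positivity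
      · rw [Set.indicator_of_notMem hx1]
    have hor : (n : ℝ) / 2 ≤ ‖x‖ ∨ (n : ℝ) / 2 ≤ ‖x - (n : ℝ) • e‖ := by
      by_contra hcon
      push Not at hcon
      have k1 : ‖(n : ℝ) • e‖ = n := by
        rw [norm_smul, he, mul_one, Real.norm_of_nonneg (Nat.cast_nonneg n)]
      have k2 : ‖(n : ℝ) • e‖ ≤ ‖x‖ + ‖x - (n : ℝ) • e‖ := by
        have : (n : ℝ) • e = x - (x - (n : ℝ) • e) := by abel
        calc ‖(n : ℝ) • e‖ = ‖x - (x - (n : ℝ) • e)‖ := by rw [← this]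
          _ ≤ _ := norm_sub_le _ _
      linarith [hcon.1, hcon.2]
    have q1 : a * b ≤ 1 / (2 * d) * a ^ 2 + d / 2 * b ^ 2 := by
      have : 0 ≤ 1 / (2 * d) * (a - d * b) ^ 2 := by positivity
      have e4 : 1 / (2 * d) * (a - d * b) ^ 2 = 1 / (2 * d) * a ^ 2 + d / 2 * b ^ 2 - a * b := by
        field_simp
        ring
      linarith
    have q2 : a * b ≤ 1 / (2 * d) * b ^ 2 + d / 2 * a ^ 2 := by
      have : 0 ≤ 1 / (2 * d) * (b - d * a) ^ 2 := by positivity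
      have e4 : 1 / (2 * d) * (b - d * a) ^ 2 = 1 / (2 * d) * b ^ 2 + d / 2 * a ^ 2 - a * b := by
        field_simp
        ring
      linarith
    have c1 : 0 < 1 / (2 * d) := by positivity
    have c2 : 0 ≤ d / 2 * a ^ 2 := by positivity
    have c3 : 0 ≤ d / 2 * b ^ 2 := by positivity
    rcases hor with hor | hor
    · have : {x : E N | (n : ℝ) / 2 ≤ ‖x‖}.indicator F1 x = a ^ 2 := by
        rw [Set.indicator_of_mem (show x ∈ {x : E N | (n : ℝ) / 2 ≤ ‖x‖} from hor), e1]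
      rw [this]
      have := mul_nonneg c1.le g2
      rw [mul_add, mul_add]
      linarith
    · have : {x : E N | (n : ℝ) / 2 ≤ ‖x‖}.indicator F2 (x - (n : ℝ) • e) = b ^ 2 := by
        rw [Set.indicator_of_mem
          (show (x - (n : ℝ) • e) ∈ {x : E N | (n : ℝ) / 2 ≤ ‖x‖} from hor), e2]
      rw [this]
      have := mul_nonneg c1.le g1
      rw [mul_add, mul_add]
      linarith
  have hsum : Tendsto (fun n : ℕ => (∫ x, {x : E N | (n : ℝ) / 2 ≤ ‖x‖}.indicator F1 x) +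
        ∫ x, {x : E N | (n : ℝ) / 2 ≤ ‖x‖}.indicator F2 x) atTop (𝓝 0) := by
    simpa using t1.add t2
  obtain ⟨C, hC⟩ : ∃ C, C = (∫ x, F1 x) + ∫ x, F2 x := ⟨_, rfl⟩
  have hC0 : 0 ≤ C := by
    rw [hC]
    refine add_nonneg (integral_nonneg fun x => ?_) (integral_nonneg fun x => ?_)
    · rw [hF1]
      change 0 ≤ fn w1 x * fn w1 x * fn w1 x * fn w1 x
      have : fn w1 x * fn w1 x * fn w1 x * fn w1 x = (fn w1 x * fn w1 x) ^ 2 := by ring
      rw [this]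
      positivity
    · rw [hF2]
      change 0 ≤ fn w2 x * fn w2 x * fn w2 x * fn w2 x
      have : fn w2 x * fn w2 x * fn w2 x * fn w2 x = (fn w2 x * fn w2 x) ^ 2 := by ring
      rw [this]
      positivity
  rw [Metric.tendsto_atTop]
  intro ε hε
  obtain ⟨d, hd, hdC⟩ : ∃ d : ℝ, 0 < d ∧ d / 2 * C < ε / 2 := by
    refine ⟨ε / (C + 1), by positivity, ?_⟩
    have e1 : ε / (C + 1) / 2 * C = ε / 2 * (C / (C + 1)) := by
      field_simp
    rw [e1]
    have e2 : C / (C + 1) < 1 := by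
      rw [div_lt_one (by positivity)]
      linarith
    have : 0 < ε / 2 := by positivity
    nlinarith
  have hlim : Tendsto (fun n : ℕ => 1 / (2 * d) *
      ((∫ x, {x : E N | (n : ℝ) / 2 ≤ ‖x‖}.indicator F1 x) +
        ∫ x, {x : E N | (n : ℝ) / 2 ≤ ‖x‖}.indicator F2 x)) atTop (𝓝 0) := by
    simpa using hsum.const_mul (1 / (2 * d))
  have hev := hlim.eventually_lt_const (show (0 : ℝ) < ε / 2 by positivity)
  obtain ⟨n0, hn0⟩ := eventually_atTop.1 hev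
  refine ⟨n0, fun n hn => ?_⟩
  have h1 := est d hd n
  have h2 := hn0 n hn
  rw [← hC] at h1
  have h3 : 0 ≤ Q4 w1 w1 (T n w2) (T n w2) := Q4_nonneg _ _
  rw [Real.dist_eq, sub_zero, abs_of_nonneg h3]
  linarith

/-- module tac. `β < 0`, upper bound: the level is at most the sum of the scalar levels.
Proof: `(w1, w2(· - n e))` for ground states `w1, w2` and a unit vector `e` (`aff_H`); `Q4 w1 w1 w2n w2n → 0` as `n → ∞` (local part
of `w1⁴` and `w2⁴`); for small `|q|` the pair is in the region `OmP`, and `EEp → (ip w1 + ip w2)/4`. -/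
theorem level_neg [Dim N] {l1 l2 m1 m2 be : ℝ} (h1 : 0 < l1) (h2 : 0 < l2) (hm1 : 0 < m1)
    (hm2 : 0 < m2) {u v : H1 N} (h : IsMin l1 l2 m1 m2 be u v) :
    En l1 l2 m1 m2 be u v ≤ S2 N l1 / (4 * m1) + S2 N l2 / (4 * m2) := by
  obtain ⟨w1, g1, -⟩ := exists_GNo (N := N) h1 hm1
  obtain ⟨w2, g2, -⟩ := exists_GNo (N := N) h2 hm2
  obtain ⟨v', i1, i2, -, i4⟩ := tac_far w1 w2
  obtain ⟨a, ha⟩ : ∃ a, a = S2 N l1 / m1 := ⟨_, rfl⟩
  obtain ⟨b, hb⟩ : ∃ b, b = S2 N l2 / m2 := ⟨_, rfl⟩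
  have ha0 : 0 < a := by
    rw [ha]
    exact div_pos (S2_pos h1) hm1
  have hb0 : 0 < b := by
    rw [hb]
    exact div_pos (S2_pos h2) hm2
  have ea : ip l1 w1 w1 = a := by rw [ha, (GNo_vals h1 hm1 g1).2]
  have eb : ip l2 w2 w2 = b := by rw [hb, (GNo_vals h2 hm2 g2).2]
  have ep : m1 * Q4 w1 w1 w1 w1 = a := by rw [← g1.2.1, ea]
  have er : m2 * Q4 w2 w2 w2 w2 = b := by rw [← g2.2.1, eb]
  obtain ⟨q, hq⟩ : ∃ q : ℕ → ℝ, q = fun n => be * Q4 w1 w1 (v' n) (v' n) := ⟨_, rfl⟩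
  have hqt : Tendsto q atTop (𝓝 0) := by
    rw [hq]
    simpa using i4.const_mul be
  have hEE : ∀ n, EEp l1 l2 m1 m2 be w1 (v' n) = EEn a b a (q n) b := by
    intro n
    unfold EEp
    rw [i1, i2, ea, eb, ep, er, hq]
  have r1 : ∀ᶠ n in atTop, q n ^ 2 - a * b < 0 := by
    have : Tendsto (fun n => q n ^ 2 - a * b) atTop (𝓝 (0 ^ 2 - a * b)) :=
      (hqt.pow 2).sub_const _
    refine this.eventually_lt_const ?_
    have := mul_pos ha0 hb0
    linarith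
  have r2 : ∀ᶠ n in atTop, q n < a := hqt.eventually_lt_const ha0
  have r3 : ∀ᶠ n in atTop, q n < b := hqt.eventually_lt_const hb0
  have hle : ∀ᶠ n in atTop, En l1 l2 m1 m2 be u v ≤ EEn a b a (q n) b := by
    filter_upwards [r1, r2, r3] with n k1 k2 k3
    rw [← hEE]
    apply min_le h1 h2 hm1 hm2 h
    right
    unfold OmPp
    rw [i1, i2, ea, eb, ep, er]
    rw [hq] at k1 k2 k3
    refine ⟨k1, ?_, ?_⟩
    · have := mul_lt_mul_of_pos_left k2 hb0
      linarith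
    · have := mul_lt_mul_of_pos_left k3 ha0
      linarith
  have hlim : Tendsto (fun n => EEn a b a (q n) b) atTop (𝓝 ((a + b) / 4)) := by
    have e : (a + b) / 4 = (2 * a * b * 0 - a ^ 2 * b - b ^ 2 * a) / (4 * (0 ^ 2 - a * b)) := by
      field_simp
      ring
    rw [e]
    unfold EEn
    refine Tendsto.div ?_ ?_ ?_
    · exact ((hqt.const_mul (2 * a * b)).sub_const _).sub_const _
    · exact ((hqt.pow 2).sub_const _).const_mul 4
    · have := mul_pos ha0 hb0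
      intro h0
      nlinarith
  have := ge_of_tendsto hlim hle
  refine this.trans (le_of_eq ?_)
  rw [ha, hb]
  field_simp

end Sir
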