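import Pool.Agent.Sir.Quart
/-!
# Isometries, dilations, translations
modules: afm, dil, tre
-/

namespace Sir

open MeasureTheory Filter Topology

variable {N : ℕ}

private theorem afm_int {F : Type*} [NormedAddCommGroup F] [NormedSpace ℝ F]
    (g : E N ≃ₜ E N) (c : ℝ) (hc : 0 ≤ c)
    (hg : Measure.map g (volume : Measure (E N)) = ENNReal.ofReal c • volume) (f : E N → F) :
    ∫ x, f (g x) = c • ∫ x, f x := by
  have h1 := integral_map_equiv (μ := (volume : Measure (E N))) g.toMeasurableEquiv f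
  have h2 : Measure.map g.toMeasurableEquiv (volume : Measure (E N)) =
      ENNReal.ofReal c • volume := hg
  rw [h2, integral_smul_measure, ENNReal.toReal_ofReal hc] at h1
  exact h1.symm

private theorem afm_qmp (g : E N ≃ₜ E N) (c : ℝ)
    (hg : Measure.map g (volume : Measure (E N)) = ENNReal.ofReal c • volume) :
    Measure.QuasiMeasurePreserving g (volume : Measure (E N)) volume := by
  refine ⟨g.measurable, ?_⟩
  rw [hg]
  exact Measure.smul_absolutelyContinuous

private theorem afm_memLp {F : Type*} [NormedAddCommGroup F] (g : E N ≃ₜ E N) (c : ℝ)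
    (hg : Measure.map g (volume : Measure (E N)) = ENNReal.ofReal c • volume) {f : E N → F}
    (hf : MemLp f 2 (volume : Measure (E N))) : MemLp (fun x => f (g x)) 2 volume := by
  have h1 : MemLp f 2 (Measure.map g (volume : Measure (E N))) := by
    rw [hg]
    exact hf.smul_measure ENNReal.ofReal_ne_top
  exact (g.measurableEmbedding.memLp_map_measure_iff).mp h1

private theorem afm_grad (g : E N ≃ₜ E N) (L : E N →L[ℝ] E N) (hL : ∀ x, HasFDerivAt g L x)
    (a : ℝ) {φ : E N → ℝ} (h1 : ContDiff ℝ 1 φ) (x : E N) :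
    gradient (fun x => a * φ (g x)) x =
      a • ContinuousLinearMap.adjoint L (gradient φ (g x)) := by
  have hφ : HasFDerivAt φ (fderiv ℝ φ (g x)) (g x) :=
    (h1.differentiable one_ne_zero (g x)).hasFDerivAt
  have h2 : HasFDerivAt (fun x => a * φ (g x)) (a • (fderiv ℝ φ (g x)).comp L) x :=
    (hφ.comp x (hL x)).const_mul a
  have h3 : HasGradientAt (fun x => a * φ (g x))
      (a • ContinuousLinearMap.adjoint L (gradient φ (g x))) x := by
    rw [hasGradientAt_iff_hasFDerivAt]
    refine h2.congr_fderiv ?_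
    ext v
    rw [InnerProductSpace.toDual_apply_apply, real_inner_smul_left,
      ContinuousLinearMap.adjoint_inner_left]
    have h4 : inner ℝ (gradient φ (g x)) (L v) = fderiv ℝ φ (g x) (L v) := by
      unfold gradient
      rw [InnerProductSpace.toDual_symm_apply]
    rw [h4]
    rfl
  exact h3.gradient

private theorem afm_gY_le (u : H1 N) : gY u u ≤ ‖u‖ ^ 2 := by
  have h1 := norm_sq_eq u
  unfold ip at h1
  have := gX_nonneg u
  linarith

private theorem afm_gX_le (u : H1 N) : gX u u ≤ ‖u‖ ^ 2 := by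
  have h1 := norm_sq_eq u
  unfold ip at h1
  have := gY_nonneg u
  linarith

private theorem afm_ex (g : E N ≃ₜ E N) (L : E N →L[ℝ] E N) (c a : ℝ) (hc : 0 ≤ c)
    (hL : ∀ x, HasFDerivAt g L x)
    (hg : Measure.map g (volume : Measure (E N)) = ENNReal.ofReal c • volume) (u : H1 N) :
    ∃ v : H1 N, fn v =ᵐ[volume] (fun x => a * fn u (g x)) ∧
      gr v =ᵐ[volume] fun x => a • ContinuousLinearMap.adjoint L (gr u (g x)) := by
  obtain ⟨w, φ, hφ, hw⟩ := exists_approx u
  have hgC : ContDiff ℝ 1 g := by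
    rw [contDiff_one_iff_fderiv]
    refine ⟨fun x => (hL x).differentiableAt, ?_⟩
    have h1 : fderiv ℝ g = fun _ => L := funext fun x => (hL x).fderiv
    rw [h1]
    exact continuous_const
  have hex : ∀ n, ∃ v : H1 N, fn v =ᵐ[volume] (fun x => a * φ n (g x)) ∧
      gr v =ᵐ[volume] fun x => gradient (fun x => a * φ n (g x)) x := fun n => by
    refine ofCc _ (contDiff_const.mul ((hφ n).1.comp hgC)) ?_
    exact ((hφ n).2.1.comp_homeomorph g).mul_left
  choose v hv1 hv2 using hex
  have hq := afm_qmp g c hg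
  have hm1 : MemLp (fun x => a * fn u (g x)) 2 (volume : Measure (E N)) :=
    (afm_memLp g c hg (fn_memLp u)).const_mul a
  have hm2 : MemLp (fun x => a • ContinuousLinearMap.adjoint L (gr u (g x))) 2
      (volume : Measure (E N)) := by
    have h1 := (ContinuousLinearMap.adjoint L).comp_memLp' (afm_memLp g c hg (gr_memLp u))
    exact h1.const_smul a
  have hlim : Tendsto (fun n => ‖w n - u‖ ^ 2) atTop (𝓝 0) := by
    have h1 : Tendsto (fun n => ‖w n - u‖) atTop (𝓝 0) := tendsto_iff_norm_sub_tendsto_zero.mp hw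
    simpa using h1.pow 2
  have hc1 : Tendsto (fun n => ∫ x, (fn (v n) x - a * fn u (g x)) ^ 2) atTop (𝓝 0) := by
    have h2 : ∀ n, ∫ x, (fn (v n) x - a * fn u (g x)) ^ 2 ≤ (a ^ 2 * c) * ‖w n - u‖ ^ 2 := by
      intro n
      have h3 : ∫ x, (fn (v n) x - a * fn u (g x)) ^ 2 =
          ∫ x, (fun z => a ^ 2 * (fn (w n - u) z * fn (w n - u) z)) (g x) := by
        refine integral_congr_ae ?_
        filter_upwards [hv1 n, hq.tendsto_ae.eventually (hφ n).2.2.1,
          hq.tendsto_ae.eventually (fn_sub (w n) u)] with x h4 h5 h6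
        rw [h4, h6, ← h5]
        ring
      have h3' := h3.trans (afm_int g c hc hg
        (fun z => a ^ 2 * (fn (w n - u) z * fn (w n - u) z)))
      rw [h3', integral_const_mul, smul_eq_mul]
      have h4 := afm_gY_le (w n - u)
      unfold gY at h4
      calc c * (a ^ 2 * ∫ x, fn (w n - u) x * fn (w n - u) x)
          = (a ^ 2 * c) * ∫ x, fn (w n - u) x * fn (w n - u) x := by ring
        _ ≤ _ := mul_le_mul_of_nonneg_left h4 (by positivity)
    refine squeeze_zero (fun n => integral_nonneg fun x => sq_nonneg _) h2 ?_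
    simpa using hlim.const_mul (a ^ 2 * c)
  have hc2 : Tendsto (fun n => ∫ x, ‖gr (v n) x -
      a • ContinuousLinearMap.adjoint L (gr u (g x))‖ ^ 2) atTop (𝓝 0) := by
    have h2 : ∀ n, ∫ x, ‖gr (v n) x - a • ContinuousLinearMap.adjoint L (gr u (g x))‖ ^ 2 ≤
        (a ^ 2 * ‖ContinuousLinearMap.adjoint L‖ ^ 2 * c) * ‖w n - u‖ ^ 2 := by
      intro n
      have h3 : ∫ x, ‖gr (v n) x - a • ContinuousLinearMap.adjoint L (gr u (g x))‖ ^ 2 ≤
          ∫ x, (fun z => a ^ 2 * ‖ContinuousLinearMap.adjoint L‖ ^ 2 *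
            (inner ℝ (gr (w n - u) z) (gr (w n - u) z))) (g x) := by
        refine integral_mono_of_nonneg (Eventually.of_forall fun x => by positivity) ?_ ?_
        · have h4 : Integrable (fun z => inner ℝ (gr (w n - u) z) (gr (w n - u) z))
              (volume : Measure (E N)) := by
            have h5 := (gr_memLp (w n - u)).norm.integrable_sq
            refine h5.congr (Eventually.of_forall fun z => ?_)
            simp only [real_inner_self_eq_norm_sq]
          have h5 : Integrable (fun z => inner ℝ (gr (w n - u) z) (gr (w n - u) z))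
              (Measure.map g (volume : Measure (E N))) := by
            rw [hg]
            exact h4.smul_measure ENNReal.ofReal_ne_top
          have h6 := (g.measurableEmbedding.integrable_map_iff).mp h5
          exact h6.const_mul _
        · filter_upwards [hv2 n, hq.tendsto_ae.eventually (hφ n).2.2.2,
            hq.tendsto_ae.eventually (gr_sub (w n) u)] with x h4 h5 h6
          rw [h4, afm_grad g L hL a (hφ n).1, h6, ← h5, ← smul_sub, ← map_sub, norm_smul,
            real_inner_self_eq_norm_sq, mul_pow, Real.norm_eq_abs, sq_abs, mul_assoc]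
          refine mul_le_mul_of_nonneg_left ?_ (sq_nonneg a)
          rw [← mul_pow]
          exact pow_le_pow_left₀ (norm_nonneg _) (ContinuousLinearMap.le_opNorm _ _) 2
      have h3' := h3.trans_eq (afm_int g c hc hg
        (fun z => a ^ 2 * ‖ContinuousLinearMap.adjoint L‖ ^ 2 *
            (inner ℝ (gr (w n - u) z) (gr (w n - u) z))))
      refine h3'.trans ?_
      rw [integral_const_mul, smul_eq_mul]
      have h4 := afm_gX_le (w n - u)
      unfold gX at h4
      calc c * (a ^ 2 * ‖ContinuousLinearMap.adjoint L‖ ^ 2 *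
            ∫ x, inner ℝ (gr (w n - u) x) (gr (w n - u) x))
          = (a ^ 2 * ‖ContinuousLinearMap.adjoint L‖ ^ 2 * c) *
            ∫ x, inner ℝ (gr (w n - u) x) (gr (w n - u) x) := by ring
        _ ≤ _ := mul_le_mul_of_nonneg_left h4 (by positivity)
    refine squeeze_zero (fun n => integral_nonneg fun x => sq_nonneg _) h2 ?_
    simpa using hlim.const_mul (a ^ 2 * ‖ContinuousLinearMap.adjoint L‖ ^ 2 * c)
  obtain ⟨z, hz1, hz2, -⟩ := H1_closed v _ _ hm1 hm2 hc1 hc2
  exact ⟨z, hz1, hz2⟩

private theorem afm_lin (g : E N ≃ₜ E N) (L : E N →L[ℝ] E N) (c a : ℝ) (hc : 0 ≤ c)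
    (hL : ∀ x, HasFDerivAt g L x)
    (hg : Measure.map g (volume : Measure (E N)) = ENNReal.ofReal c • volume) :
    ∃ T : H1 N →ₗ[ℝ] H1 N, ∀ u : H1 N, fn (T u) =ᵐ[volume] (fun x => a * fn u (g x)) ∧
      gr (T u) =ᵐ[volume] fun x => a • ContinuousLinearMap.adjoint L (gr u (g x)) := by
  choose T hT1 hT2 using fun u : H1 N => afm_ex g L c a hc hL hg u
  have hq := afm_qmp g c hg
  refine ⟨{ toFun := T, map_add' := fun u v => H1_ext ?_, map_smul' := fun r u => H1_ext ?_ },
    fun u => ⟨hT1 u, hT2 u⟩⟩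
  · filter_upwards [hT1 (u + v), hT1 u, hT1 v, fn_add (T u) (T v),
      hq.tendsto_ae.eventually (fn_add u v)] with x h1 h2 h3 h4 h5
    rw [h1, h4, h2, h3, h5]
    ring
  · filter_upwards [hT1 (r • u), hT1 u, fn_smul r (T u),
      hq.tendsto_ae.eventually (fn_smul r u)] with x h1 h2 h3 h4
    simp only [RingHom.id_apply]
    rw [h1, h3, h2, h4]
    ring

private theorem afm_iso_fd (g : E N ≃ᵃⁱ[ℝ] E N) (x : E N) :
    HasFDerivAt g.toHomeomorph (g.linearIsometryEquiv : E N →L[ℝ] E N) x := by
  have hb : ∀ x, g x = g.linearIsometryEquiv x + g 0 := fun x => by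
    have h := g.map_vadd (0 : E N) x
    simpa using h
  have h1 : (g.toHomeomorph : E N → E N) =
      fun x => (g.linearIsometryEquiv : E N →L[ℝ] E N) x + g 0 := funext hb
  rw [h1]
  exact (ContinuousLinearMap.hasFDerivAt _).add_const _

private theorem afm_iso_mp (g : E N ≃ᵃⁱ[ℝ] E N) :
    Measure.map g.toHomeomorph (volume : Measure (E N)) = ENNReal.ofReal 1 • volume := by
  have hb : ∀ x, g x = g.linearIsometryEquiv x + g 0 := fun x => by
    have h := g.map_vadd (0 : E N) x
    simpa using h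
  have h1 : (g.toHomeomorph : E N → E N) =
      (fun x => x + g 0) ∘ (fun x => g.linearIsometryEquiv x) := funext hb
  have h2 : MeasurePreserving ((fun x => x + g 0) ∘ (fun x => g.linearIsometryEquiv x))
      (volume : Measure (E N)) volume :=
    (measurePreserving_add_right volume (g 0)).comp g.linearIsometryEquiv.measurePreserving
  rw [h1, h2.map_eq, ENNReal.ofReal_one, one_smul]

/-- module afm. Composition with an affine isometry of `ℝ^N` (in particular with linear isometries, translations,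
affine reflections).
Proof: for a pair `(f, F)` in `L² × L²` the pair `(f ∘ g, G⁻¹ F ∘ g)` (`G` the linear part) is a linear isometry of the
ambient space (`g` is measure preserving: `AffineIsometryEquiv`/`LinearIsometryEquiv.measurePreserving` and
translations) which maps `graph0` to `graph0` (`∇(φ∘g) = Gᵀ (∇φ ∘ g) = G⁻¹ (∇φ∘g)`), hence the closure to the
closure; the inverse comes from `g⁻¹`. -/
theorem aff_H (g : E N ≃ᵃⁱ[ℝ] E N) : ∃ T : H1 N ≃ₗᵢ[ℝ] H1 N, ∀ u : H1 N,
    fn (T u) =ᵐ[volume] (fun x => fn u (g x)) ∧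
      gr (T u) =ᵐ[volume] fun x => g.linearIsometryEquiv.symm (gr u (g x)) := by
  have hb : ∀ x, g x = g.linearIsometryEquiv x + g 0 := fun x => by
    have h := g.map_vadd (0 : E N) x
    simpa using h
  have hb' : ∀ x, g.symm x = g.symm.linearIsometryEquiv x + g.symm 0 := fun x => by
    have h := g.symm.map_vadd (0 : E N) x
    simpa using h
  obtain ⟨T, hT⟩ := afm_lin g.toHomeomorph (g.linearIsometryEquiv : E N →L[ℝ] E N) 1 1
    zero_le_one (afm_iso_fd g) (afm_iso_mp g)
  obtain ⟨T', hT'⟩ := afm_lin g.symm.toHomeomorph (g.symm.linearIsometryEquiv : E N →L[ℝ] E N) 1 1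
    zero_le_one (afm_iso_fd g.symm) (afm_iso_mp g.symm)
  have hq := afm_qmp g.toHomeomorph 1 (afm_iso_mp g)
  have hq' := afm_qmp g.symm.toHomeomorph 1 (afm_iso_mp g.symm)
  have h12 : ∀ u, T' (T u) = u := fun u => by
    refine H1_ext ?_
    filter_upwards [(hT' (T u)).1, hq'.tendsto_ae.eventually (hT u).1] with x h1 h2
    rw [h1]
    have e : g (g.symm x) = x := g.apply_symm_apply x
    simp only [one_mul] at h2 ⊢
    refine h2.trans ?_
    exact congrArg (fn u) e
  have h21 : ∀ u, T (T' u) = u := fun u => by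
    refine H1_ext ?_
    filter_upwards [(hT (T' u)).1, hq.tendsto_ae.eventually (hT' u).1] with x h1 h2
    rw [h1]
    have e : g.symm (g x) = x := g.symm_apply_apply x
    simp only [one_mul] at h2 ⊢
    refine h2.trans ?_
    exact congrArg (fn u) e
  have hfn : ∀ u : H1 N, fn (T u) =ᵐ[volume] fun x => fn u (g x) := fun u => by
    filter_upwards [(hT u).1] with x h1
    rw [h1, one_mul]
    rfl
  have hgr : ∀ u : H1 N, gr (T u) =ᵐ[volume]
      fun x => g.linearIsometryEquiv.symm (gr u (g x)) := fun u => by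
    filter_upwards [(hT u).2] with x h1
    rw [h1, one_smul, LinearIsometryEquiv.adjoint_eq_symm]
    rfl
  have hnorm : ∀ u : H1 N, ‖T u‖ = ‖u‖ := fun u => by
    have h1 : ‖T u‖ ^ 2 = ‖u‖ ^ 2 := by
      rw [norm_sq_eq, norm_sq_eq]
      unfold ip
      have e1 : gX (T u) (T u) = gX u u := by
        unfold gX
        have e2 : ∫ x, inner ℝ (gr (T u) x) (gr (T u) x) =
            ∫ x, (fun z => inner ℝ (gr u z) (gr u z)) (g.toHomeomorph x) := by
          refine integral_congr_ae ?_
          filter_upwards [hgr u] with x h1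
          rw [h1, LinearIsometryEquiv.inner_map_map]
          rfl
        have e2' := e2.trans (afm_int g.toHomeomorph 1 zero_le_one (afm_iso_mp g)
          (fun z => inner ℝ (gr u z) (gr u z)))
        rw [e2', one_smul]
      have e3 : gY (T u) (T u) = gY u u := by
        unfold gY
        have e2 : ∫ x, fn (T u) x * fn (T u) x =
            ∫ x, (fun z => fn u z * fn u z) (g.toHomeomorph x) := by
          refine integral_congr_ae ?_
          filter_upwards [hfn u] with x h1
          rw [h1]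
          rfl
        have e2' := e2.trans (afm_int g.toHomeomorph 1 zero_le_one (afm_iso_mp g)
          (fun z => fn u z * fn u z))
        rw [e2', one_smul]
      rw [e1, e3]
    exact (pow_left_inj₀ (norm_nonneg _) (norm_nonneg _) two_ne_zero).mp h1
  exact ⟨⟨LinearEquiv.ofLinearMap T T' (LinearMap.ext h21) (LinearMap.ext h12), hnorm⟩,
    fun u => ⟨hfn u, hgr u⟩⟩

private theorem dil_mp (s : ℝ) (hs : 0 < s) :
    Measure.map (Homeomorph.smulOfNeZero s hs.ne' : E N ≃ₜ E N) (volume : Measure (E N)) =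
      ENNReal.ofReal (s ^ N)⁻¹ • volume := by
  have h1 := Measure.map_addHaar_smul (volume : Measure (E N)) hs.ne'
  rw [finrank_euclideanSpace_fin, abs_of_pos (inv_pos.mpr (pow_pos hs N))] at h1
  exact h1

private theorem dil_qmp (s : ℝ) (hs : 0 < s) :
    Measure.QuasiMeasurePreserving (fun x : E N => s • x) (volume : Measure (E N)) volume :=
  afm_qmp (Homeomorph.smulOfNeZero s hs.ne') _ (dil_mp s hs)

private theorem dil_lin (s : ℝ) (hs : 0 < s) :
    ∃ T : H1 N →ₗ[ℝ] H1 N, ∀ u : H1 N, fn (T u) =ᵐ[volume] (fun x => s * fn u (s • x)) ∧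
      gr (T u) =ᵐ[volume] fun x => s • (s • gr u (s • x)) := by
  have hfd : ∀ x, HasFDerivAt (Homeomorph.smulOfNeZero s hs.ne' : E N ≃ₜ E N)
      (s • ContinuousLinearMap.id ℝ (E N)) x := fun x =>
    ((hasFDerivAt_id x).const_smul s)
  obtain ⟨T, hT⟩ := afm_lin (Homeomorph.smulOfNeZero s hs.ne' : E N ≃ₜ E N)
    (s • ContinuousLinearMap.id ℝ (E N)) (s ^ N)⁻¹ s (by positivity) hfd (dil_mp s hs)
  refine ⟨T, fun u => ⟨(hT u).1, ?_⟩⟩
  filter_upwards [(hT u).2] with x hx
  rw [hx]
  have h1 : ContinuousLinearMap.adjoint (s • ContinuousLinearMap.id ℝ (E N)) =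
      s • ContinuousLinearMap.id ℝ (E N) := by
    ext1 y
    refine ext_inner_right ℝ fun z => ?_
    rw [ContinuousLinearMap.adjoint_inner_left]
    simp [real_inner_smul_left, real_inner_smul_right]
  rw [h1]
  rfl

/-- module dil. Dilations `(T u)(x) = s u(s x)`.
Proof: `∇(s φ(s·)) = s² (∇φ)(s·)`; `∫ f(s x) dx = s^{-N} ∫ f` (`Measure.integral_comp_smul`). Density as in `aff_H`
(a bounded linear bijection of the ambient space preserving `graph0`); the formulas by the change of variables:
`gX ↦ s^{4-N} gX`, `gY ↦ s^{2-N} gY`, `Q4 ↦ s^{4-N} Q4`. -/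
theorem dil_H [Dim N] (s : ℝ) (hs : 0 < s) : ∃ T : H1 N ≃ₗ[ℝ] H1 N,
    (∀ u : H1 N, fn (T u) =ᵐ[volume] fun x => s * fn u (s • x)) ∧
      (∀ (l : ℝ) (u v : H1 N), ip (s ^ 2 * l) (T u) (T v) = s ^ (4 - N) * ip l u v) ∧
      ∀ u v w z : H1 N, Q4 (T u) (T v) (T w) (T z) = s ^ (4 - N) * Q4 u v w z := by
  have hs0 : s ≠ 0 := hs.ne'
  have hi0 : 0 < s⁻¹ := inv_pos.mpr hs
  obtain ⟨T, hT⟩ := dil_lin (N := N) s hs
  obtain ⟨T', hT'⟩ := dil_lin (N := N) s⁻¹ hi0
  have hq := dil_qmp (N := N) s hs
  have hq' := dil_qmp (N := N) s⁻¹ hi0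
  have h12 : ∀ u, T' (T u) = u := fun u => by
    refine H1_ext ?_
    filter_upwards [(hT' (T u)).1, hq'.tendsto_ae.eventually (hT u).1] with x h1 h2
    rw [h1, h2, smul_smul, mul_inv_cancel₀ hs0, one_smul, ← mul_assoc, inv_mul_cancel₀ hs0,
      one_mul]
  have h21 : ∀ u, T (T' u) = u := fun u => by
    refine H1_ext ?_
    filter_upwards [(hT (T' u)).1, hq.tendsto_ae.eventually (hT' u).1] with x h1 h2
    rw [h1, h2, smul_smul, inv_mul_cancel₀ hs0, one_smul, ← mul_assoc, mul_inv_cancel₀ hs0,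
      one_mul]
  have hN4 : N ≤ 4 := by
    rcases (inferInstance : Dim N).h with h | h <;> omega
  have hpow : s ^ (4 - N) = s ^ 4 * (s ^ N)⁻¹ := pow_sub₀ s hs0 hN4
  have hint : ∀ f : E N → ℝ, ∫ x, f (s • x) = (s ^ N)⁻¹ * ∫ x, f x := fun f => by
    rw [Measure.integral_comp_smul, finrank_euclideanSpace_fin, smul_eq_mul,
      abs_of_pos (inv_pos.mpr (pow_pos hs N))]
  refine ⟨LinearEquiv.ofLinearMap T T' (LinearMap.ext h21) (LinearMap.ext h12),
    fun u => (hT u).1, fun l u v => ?_, fun u v w z => ?_⟩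
  · change ip (s ^ 2 * l) (T u) (T v) = s ^ (4 - N) * ip l u v
    have e1 : gX (T u) (T v) = s ^ 4 * ((s ^ N)⁻¹ * gX u v) := by
      unfold gX
      rw [← hint (fun z => inner ℝ (gr u z) (gr v z)), ← integral_const_mul]
      refine integral_congr_ae ?_
      filter_upwards [(hT u).2, (hT v).2] with x h1 h2
      rw [h1, h2]
      simp only [real_inner_smul_left, real_inner_smul_right]
      ring
    have e2 : gY (T u) (T v) = s ^ 2 * ((s ^ N)⁻¹ * gY u v) := by
      unfold gY
      rw [← hint (fun z => fn u z * fn v z), ← integral_const_mul]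
      refine integral_congr_ae ?_
      filter_upwards [(hT u).1, (hT v).1] with x h1 h2
      rw [h1, h2]
      ring
    unfold ip
    rw [e1, e2, hpow]
    ring
  · change Q4 (T u) (T v) (T w) (T z) = s ^ (4 - N) * Q4 u v w z
    rw [hpow, mul_assoc]
    unfold Q4
    rw [← hint (fun y => fn u y * fn v y * fn w y * fn z y), ← integral_const_mul]
    refine integral_congr_ae ?_
    filter_upwards [(hT u).1, (hT v).1, (hT w).1, (hT z).1] with x h1 h2 h3 h4
    rw [h1, h2, h3, h4]
    ring

private theorem tre_contF (A : Set (E N)) :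
    Continuous fun v : H1 N => ∫ x in A, fn v x ^ 2 := by
  have h1 : Continuous fun v : H1 N => v.val.fst :=
    (WithLp.prod_continuous_ofLp 2 _ _).fst.comp continuous_subtype_val
  have h2 : Continuous fun v : H1 N =>
      ‖LpToLpRestrictCLM (E N) ℝ ℝ volume 2 A v.val.fst‖ ^ 2 :=
    (((LpToLpRestrictCLM (E N) ℝ ℝ volume 2 A).continuous.comp h1).norm).pow 2
  have h3 : (fun v : H1 N => ∫ x in A, fn v x ^ 2) = fun v : H1 N =>
      ‖LpToLpRestrictCLM (E N) ℝ ℝ volume 2 A v.val.fst‖ ^ 2 := by
    funext v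
    rw [← real_inner_self_eq_norm_sq, L2.inner_def]
    refine integral_congr_ae ?_
    filter_upwards [LpToLpRestrictCLM_coeFn ℝ A v.val.fst] with x hx
    rw [hx, real_inner_self_eq_norm_sq, Real.norm_eq_abs, sq_abs]
    rfl
  rw [h3]
  exact h2

private theorem tre_contG (A : Set (E N)) :
    Continuous fun v : H1 N => ∫ x in A, ‖gr v x‖ ^ 2 := by
  have h1 : Continuous fun v : H1 N => v.val.snd :=
    (WithLp.prod_continuous_ofLp 2 _ _).snd.comp continuous_subtype_val
  have h2 : Continuous fun v : H1 N =>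
      ‖LpToLpRestrictCLM (E N) (E N) ℝ volume 2 A v.val.snd‖ ^ 2 :=
    (((LpToLpRestrictCLM (E N) (E N) ℝ volume 2 A).continuous.comp h1).norm).pow 2
  have h3 : (fun v : H1 N => ∫ x in A, ‖gr v x‖ ^ 2) = fun v : H1 N =>
      ‖LpToLpRestrictCLM (E N) (E N) ℝ volume 2 A v.val.snd‖ ^ 2 := by
    funext v
    rw [← real_inner_self_eq_norm_sq, L2.inner_def]
    refine integral_congr_ae ?_
    filter_upwards [LpToLpRestrictCLM_coeFn ℝ A v.val.snd] with x hx
    rw [hx, real_inner_self_eq_norm_sq]
    rfl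
  rw [h3]
  exact h2

private theorem tre_sq (h : ℝ → ℝ) (hc : Continuous h) :
    (∫ t in (0 : ℝ)..1, h t) ^ 2 ≤ ∫ t in (0 : ℝ)..1, h t ^ 2 := by
  set m : ℝ := ∫ t in (0 : ℝ)..1, h t with hm
  have h1 : 0 ≤ ∫ t in (0 : ℝ)..1, (h t - m) ^ 2 :=
    intervalIntegral.integral_nonneg zero_le_one fun t _ => sq_nonneg _
  have h2 : ∫ t in (0 : ℝ)..1, (h t - m) ^ 2 =
      (∫ t in (0 : ℝ)..1, h t ^ 2) - 2 * m * m + m ^ 2 := by
    have e : ∀ t, (h t - m) ^ 2 = h t ^ 2 - 2 * m * h t + m ^ 2 := fun t => by ring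
    simp only [e]
    rw [intervalIntegral.integral_add, intervalIntegral.integral_sub,
      intervalIntegral.integral_const_mul, intervalIntegral.integral_const]
    · simp [hm]
    · exact (hc.pow 2).intervalIntegrable _ _
    · exact (continuous_const.mul hc).intervalIntegrable _ _
    · exact ((hc.pow 2).sub (continuous_const.mul hc)).intervalIntegrable _ _
    · exact continuous_const.intervalIntegrable _ _
  rw [h2] at h1
  nlinarith

private theorem tre_pt (φ : E N → ℝ) (h1 : ContDiff ℝ 1 φ) (y x : E N) :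
    (φ (x + y) - φ x) ^ 2 ≤
      ‖y‖ ^ 2 * ∫ t in (0 : ℝ)..1, ‖gradient φ (x + t • y)‖ ^ 2 := by
  have hgc : Continuous fun z => gradient φ z := by
    have h2 := h1.continuous_fderiv one_ne_zero
    exact (InnerProductSpace.toDual ℝ (E N)).symm.continuous.comp h2
  have hline : Continuous fun t : ℝ => x + t • y := by fun_prop
  have hder : ∀ t : ℝ, HasDerivAt (fun t : ℝ => φ (x + t • y))
      (inner ℝ (gradient φ (x + t • y)) y) t := fun t => by
    have h2 : HasFDerivAt φ (fderiv ℝ φ (x + t • y)) (x + t • y) :=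
      (h1.differentiable one_ne_zero _).hasFDerivAt
    have h3 : HasDerivAt (fun t : ℝ => x + t • y) y t := by
      have := ((hasDerivAt_id t).smul_const y).const_add x
      simpa using this
    have h4 := h2.comp_hasDerivAt t h3
    have e : inner ℝ (gradient φ (x + t • y)) y = fderiv ℝ φ (x + t • y) y := by
      unfold gradient
      rw [InnerProductSpace.toDual_symm_apply]
    rw [e]
    exact h4
  have hic : Continuous fun t : ℝ => inner ℝ (gradient φ (x + t • y)) y :=
    (hgc.comp hline).inner continuous_const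
  have h2 : ∫ t in (0 : ℝ)..1, inner ℝ (gradient φ (x + t • y)) y = φ (x + y) - φ x := by
    rw [intervalIntegral.integral_eq_sub_of_hasDerivAt (fun t _ => hder t)
      (hic.intervalIntegrable _ _)]
    simp
  rw [← h2]
  refine (tre_sq _ hic).trans ?_
  rw [← intervalIntegral.integral_const_mul]
  refine intervalIntegral.integral_mono_on zero_le_one ((hic.pow 2).intervalIntegrable _ _)
    ((continuous_const.mul ((hgc.comp hline).norm.pow 2)).intervalIntegrable _ _) fun t _ => ?_
  have h3 := abs_real_inner_le_norm (gradient φ (x + t • y)) y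
  calc inner ℝ (gradient φ (x + t • y)) y ^ 2 = |inner ℝ (gradient φ (x + t • y)) y| ^ 2 :=
        (sq_abs _).symm
    _ ≤ (‖gradient φ (x + t • y)‖ * ‖y‖) ^ 2 := pow_le_pow_left₀ (abs_nonneg _) h3 2
    _ = _ := by ring

private theorem tre_smooth (φ : E N → ℝ) (h1 : ContDiff ℝ 1 φ) (h2 : HasCompactSupport φ)
    (y : E N) (R : ℝ) :
    ∫ x in Metric.ball (0 : E N) R, (φ (x + y) - φ x) ^ 2 ≤
      ‖y‖ ^ 2 * ∫ x in Metric.ball (0 : E N) (R + ‖y‖), ‖gradient φ x‖ ^ 2 := by
  have hgc : Continuous fun z => gradient φ z := by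
    have h2 := h1.continuous_fderiv one_ne_zero
    exact (InnerProductSpace.toDual ℝ (E N)).symm.continuous.comp h2
  have hgs : HasCompactSupport fun z => ‖gradient φ z‖ ^ 2 := by
    have h3 : HasCompactSupport (fderiv ℝ φ) := h2.fderiv ℝ
    refine h3.mono fun z hz => ?_
    rw [Function.mem_support] at hz ⊢
    intro h4
    apply hz
    unfold gradient
    rw [h4]
    simp
  have hFc : Continuous fun z => ‖gradient φ z‖ ^ 2 := hgc.norm.pow 2
  have hFi : Integrable (fun z => ‖gradient φ z‖ ^ 2) (volume : Measure (E N)) :=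
    hFc.integrable_of_hasCompactSupport hgs
  have hcont2 : Continuous fun p : E N × ℝ => ‖gradient φ (p.1 + p.2 • y)‖ ^ 2 := by
    have : Continuous fun p : E N × ℝ => p.1 + p.2 • y := by fun_prop
    exact hFc.comp this
  have hprod : Integrable (Function.uncurry fun (x : E N) (t : ℝ) =>
      ‖gradient φ (x + t • y)‖ ^ 2) ((volume.restrict (Metric.ball (0 : E N) R)).prod
        (volume.restrict (Set.uIoc (0 : ℝ) 1))) := by
    obtain ⟨C, hC⟩ := hFc.bounded_above_of_compact_support hgs
    have hfin1 : IsFiniteMeasure (volume.restrict (Metric.ball (0 : E N) R)) :=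
      ⟨by rw [Measure.restrict_apply_univ]; exact Metric.isBounded_ball.measure_lt_top⟩
    have hfin2 : IsFiniteMeasure ((volume : Measure ℝ).restrict (Set.uIoc (0 : ℝ) 1)) :=
      ⟨by rw [Measure.restrict_apply_univ]; simp [Set.uIoc]⟩
    refine Integrable.of_bound hcont2.aestronglyMeasurable C ?_
    exact Eventually.of_forall fun p => hC _
  have hsw := integral_integral_swap hprod
  have hin : ∀ t ∈ Set.Icc (0 : ℝ) 1, ∫ x in Metric.ball (0 : E N) R,
      ‖gradient φ (x + t • y)‖ ^ 2 ≤
        ∫ x in Metric.ball (0 : E N) (R + ‖y‖), ‖gradient φ x‖ ^ 2 := by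
    intro t ht
    have e1 : ∫ x in Metric.ball (0 : E N) R, ‖gradient φ (x + t • y)‖ ^ 2 =
        ∫ x in Metric.ball (t • y) R, ‖gradient φ x‖ ^ 2 := by
      have hmp : MeasurePreserving (fun x : E N => x + t • y) volume volume :=
        measurePreserving_add_right volume (t • y)
      have h3 := hmp.setIntegral_preimage_emb
        (Homeomorph.addRight (t • y)).measurableEmbedding (fun x => ‖gradient φ x‖ ^ 2)
        (Metric.ball (t • y) R)
      rw [← h3]
      have h4 : (fun x : E N => x + t • y) ⁻¹' Metric.ball (t • y) R = Metric.ball 0 R := by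
        ext x
        rw [Set.mem_preimage, Metric.mem_ball, Metric.mem_ball, dist_zero_right, dist_eq_norm,
          add_sub_cancel_right]
      rw [h4]
    rw [e1]
    refine setIntegral_mono_set hFi.integrableOn (Eventually.of_forall fun x => by positivity)
      (LE.le.eventuallyLE ?_)
    intro x hx
    rw [Metric.mem_ball] at hx ⊢
    calc dist x 0 ≤ dist x (t • y) + dist (t • y) 0 := dist_triangle _ _ _
      _ < R + dist (t • y) 0 := by linarith
      _ ≤ R + ‖y‖ := by
          rw [dist_zero_right, norm_smul, Real.norm_eq_abs, abs_of_nonneg ht.1]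
          have := mul_le_mul_of_nonneg_right ht.2 (norm_nonneg y)
          linarith
  have hinner : Integrable (fun x => ∫ t in Set.uIoc (0 : ℝ) 1, ‖gradient φ (x + t • y)‖ ^ 2)
      (volume.restrict (Metric.ball (0 : E N) R)) := hprod.integral_prod_left
  have hinner2 : Integrable (fun t => ∫ x in Metric.ball (0 : E N) R,
      ‖gradient φ (x + t • y)‖ ^ 2) (volume.restrict (Set.uIoc (0 : ℝ) 1)) :=
    hprod.integral_prod_right
  have hstep1 : ∫ x in Metric.ball (0 : E N) R, (φ (x + y) - φ x) ^ 2 ≤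
      ∫ x in Metric.ball (0 : E N) R, ‖y‖ ^ 2 *
        ∫ t in Set.uIoc (0 : ℝ) 1, ‖gradient φ (x + t • y)‖ ^ 2 := by
    refine integral_mono_of_nonneg (Eventually.of_forall fun x => sq_nonneg _)
      (hinner.const_mul _) (Eventually.of_forall fun x => ?_)
    have h3 := tre_pt φ h1 y x
    rw [intervalIntegral.integral_of_le zero_le_one] at h3
    simp only [Set.uIoc_of_le (zero_le_one (α := ℝ))]
    exact h3
  refine hstep1.trans ?_
  rw [integral_const_mul]
  refine mul_le_mul_of_nonneg_left ?_ (sq_nonneg _)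
  rw [hsw]
  calc ∫ t in Set.uIoc (0 : ℝ) 1, ∫ x in Metric.ball (0 : E N) R, ‖gradient φ (x + t • y)‖ ^ 2
      ≤ ∫ _t in Set.uIoc (0 : ℝ) 1,
          ∫ x in Metric.ball (0 : E N) (R + ‖y‖), ‖gradient φ x‖ ^ 2 := by
        have hfin2 : IsFiniteMeasure ((volume : Measure ℝ).restrict (Set.uIoc (0 : ℝ) 1)) :=
          ⟨by rw [Measure.restrict_apply_univ]; simp [Set.uIoc]⟩
        refine setIntegral_mono_on hinner2 (integrable_const _) measurableSet_uIoc fun t ht => ?_
        rw [Set.uIoc_of_le (zero_le_one (α := ℝ))] at ht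
        exact hin t ⟨ht.1.le, ht.2⟩
    _ = ∫ x in Metric.ball (0 : E N) (R + ‖y‖), ‖gradient φ x‖ ^ 2 := by
        rw [setIntegral_const]
        simp [Set.uIoc]

/-- module tre. Translation estimate on balls: first `C¹_c`
(`φ(x+y) - φ(x) = ∫₀¹ ⟨∇φ(x+ty), y⟩ dt`, Cauchy-Schwarz, Fubini), then density. -/
theorem transl_ball (u : H1 N) (y : E N) (R : ℝ) :
    ∫ x in Metric.ball (0 : E N) R, (fn u (x + y) - fn u x) ^ 2 ≤
      ‖y‖ ^ 2 * ∫ x in Metric.ball (0 : E N) (R + ‖y‖), ‖gr u x‖ ^ 2 := by
  obtain ⟨T, hT⟩ := aff_H (AffineIsometryEquiv.constVAdd ℝ (E N) y)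
  obtain ⟨w, φ, hφ, hw⟩ := exists_approx u
  have hTf : ∀ v : H1 N, fn (T v - v) =ᵐ[volume] fun x => fn v (x + y) - fn v x := fun v => by
    filter_upwards [fn_sub (T v) v, (hT v).1] with x h1 h2
    rw [h1, h2]
    have e : (AffineIsometryEquiv.constVAdd ℝ (E N) y) x = x + y := by
      change y + x = x + y
      exact add_comm y x
    rw [e]
  have hLc : Continuous fun v : H1 N => ∫ x in Metric.ball (0 : E N) R,
      fn (T v - v) x ^ 2 :=
    (tre_contF (Metric.ball (0 : E N) R)).comp (T.continuous.sub continuous_id)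
  have hRc : Continuous fun v : H1 N =>
      ‖y‖ ^ 2 * ∫ x in Metric.ball (0 : E N) (R + ‖y‖), ‖gr v x‖ ^ 2 :=
    continuous_const.mul (tre_contG _)
  have hle : ∀ n, ∫ x in Metric.ball (0 : E N) R, fn (T (w n) - w n) x ^ 2 ≤
      ‖y‖ ^ 2 * ∫ x in Metric.ball (0 : E N) (R + ‖y‖), ‖gr (w n) x‖ ^ 2 := fun n => by
    have h1 := tre_smooth (φ n) (hφ n).1 (hφ n).2.1 y R
    have hq : Measure.QuasiMeasurePreserving (fun x : E N => x + y) volume volume :=
      (measurePreserving_add_right volume y).quasiMeasurePreserving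
    have e1 : ∫ x in Metric.ball (0 : E N) R, fn (T (w n) - w n) x ^ 2 =
        ∫ x in Metric.ball (0 : E N) R, (φ n (x + y) - φ n x) ^ 2 := by
      refine integral_congr_ae (ae_restrict_of_ae ?_)
      filter_upwards [hTf (w n), (hφ n).2.2.1,
        hq.tendsto_ae.eventually (hφ n).2.2.1] with x h2 h3 h4
      rw [h2, h3, h4]
    have e2 : ∫ x in Metric.ball (0 : E N) (R + ‖y‖), ‖gr (w n) x‖ ^ 2 =
        ∫ x in Metric.ball (0 : E N) (R + ‖y‖), ‖gradient (φ n) x‖ ^ 2 := by
      refine integral_congr_ae (ae_restrict_of_ae ?_)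
      filter_upwards [(hφ n).2.2.2] with x h2
      rw [h2]
    rw [e1, e2]
    exact h1
  have hlim := le_of_tendsto_of_tendsto' ((hLc.tendsto u).comp hw) ((hRc.tendsto u).comp hw) hle
  have e1 : ∫ x in Metric.ball (0 : E N) R, (fn u (x + y) - fn u x) ^ 2 =
      ∫ x in Metric.ball (0 : E N) R, fn (T u - u) x ^ 2 := by
    refine integral_congr_ae (ae_restrict_of_ae ?_)
    filter_upwards [hTf u] with x h2
    rw [h2]
  rw [e1]
  exact hlim

/-- module tre. Translation estimate on `ℝ^N`. -/
theorem transl (u : H1 N) (y : E N) :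
    ∫ x, (fn u (x + y) - fn u x) ^ 2 ≤ ‖y‖ ^ 2 * gX u u := by
  have hi2 : Integrable (fun x => ‖gr u x‖ ^ 2) (volume : Measure (E N)) :=
    (gr_memLp u).norm.integrable_sq
  have hgX : gX u u = ∫ x, ‖gr u x‖ ^ 2 := by
    unfold gX
    simp only [real_inner_self_eq_norm_sq]
  have hm : MemLp (fun x => fn u (x + y) - fn u x) 2 (volume : Measure (E N)) :=
    ((fn_memLp u).comp_measurePreserving (measurePreserving_add_right volume y)).sub (fn_memLp u)
  have hi1 : Integrable (fun x => (fn u (x + y) - fn u x) ^ 2) (volume : Measure (E N)) :=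
    hm.integrable_sq
  have hun : (⋃ n : ℕ, Metric.ball (0 : E N) n) = Set.univ := Metric.iUnion_ball_nat 0
  have hmono : Monotone fun n : ℕ => Metric.ball (0 : E N) n := fun a b hab =>
    Metric.ball_subset_ball (by exact_mod_cast hab)
  have hlim := tendsto_setIntegral_of_monotone (fun n : ℕ => measurableSet_ball) hmono
    (hi1.integrableOn (s := ⋃ n : ℕ, Metric.ball (0 : E N) n))
  rw [hun, setIntegral_univ] at hlim
  refine le_of_tendsto' hlim fun n => ?_
  refine (transl_ball u y n).trans (mul_le_mul_of_nonneg_left ?_ (sq_nonneg _))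
  rw [hgX]
  exact setIntegral_le_integral hi2 (Eventually.of_forall fun x => by positivity)

end Sir
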