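import Pool.Agent.Sir.Trans
import Pool.Agent.Sir.Chain
/-!
# Weak convergence in `H1`
modules: wka, wkb, wkc, loc, wqt
-/

namespace Sir

open MeasureTheory Filter Topology

variable {N : ℕ}

/-- weak convergence in the Hilbert space `H1 N` -/
def WC (u : ℕ → H1 N) (w : H1 N) : Prop :=
  ∀ h : H1 N, Tendsto (fun n => inner ℝ (u n) h) atTop (𝓝 (inner ℝ w h))

private theorem wka_general {H : Type*} [NormedAddCommGroup H] [InnerProductSpace ℝ H]
    [CompleteSpace H] (u : ℕ → H) (M : ℝ) (hM : ∀ n, ‖u n‖ ≤ M) :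
    ∃ (f : ℕ → ℕ) (w : H), StrictMono f ∧
      ∀ h : H, Tendsto (fun n => inner ℝ (u (f n)) h) atTop (𝓝 (inner ℝ w h)) := by
  have hM0 : 0 ≤ M := le_trans (norm_nonneg _) (hM 0)
  -- a subsequence along which all `⟨u (f n), u m⟩` converge
  obtain ⟨L, _, f, hf, hL⟩ := (isCompact_univ_pi (fun _ : ℕ => isCompact_Icc
    (a := -(M * M)) (b := M * M))).tendsto_subseq (x := fun n m => inner ℝ (u n) (u m)) (by
      intro n m _
      have h1 : |inner ℝ (u n) (u m)| ≤ M * M :=
        (abs_real_inner_le_norm _ _).trans (mul_le_mul (hM n) (hM m) (norm_nonneg _) hM0)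
      exact Set.mem_Icc.2 (abs_le.1 h1))
  have hm : ∀ m, Tendsto (fun n => inner ℝ (u (f n)) (u m)) atTop (𝓝 (L m)) := fun m =>
    (tendsto_pi_nhds.1 hL) m
  -- the subspace of all `h` with convergence
  let S : Submodule ℝ H :=
    { carrier := {h | ∃ l, Tendsto (fun n => inner ℝ (u (f n)) h) atTop (𝓝 l)}
      add_mem' := by
        rintro a b ⟨la, ha⟩ ⟨lb, hb⟩
        refine ⟨la + lb, ?_⟩
        simp only [inner_add_right]
        exact ha.add hb
      zero_mem' := ⟨0, by simp⟩
      smul_mem' := by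
        rintro c a ⟨la, ha⟩
        refine ⟨c * la, ?_⟩
        simp only [real_inner_smul_right]
        exact ha.const_mul c }
  have hScl : ∀ h, h ∈ closure (S : Set H) → h ∈ S := by
    intro h hh
    have hc : CauchySeq (fun n => inner ℝ (u (f n)) h) := by
      rw [Metric.cauchySeq_iff']
      intro ε hε
      obtain ⟨k, ⟨l, hl⟩, hk⟩ := Metric.mem_closure_iff.1 hh (ε / (4 * (M + 1))) (by positivity)
      obtain ⟨n0, hn0⟩ := (Metric.tendsto_atTop.1 hl) (ε / 4) (by positivity)
      refine ⟨n0, fun n hn => ?_⟩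
      have e1 := hn0 n hn
      have e2 := hn0 n0 le_rfl
      have e3 : ∀ i, |inner ℝ (u (f i)) h - inner ℝ (u (f i)) k| < ε / 4 := by
        intro i
        rw [← inner_sub_right]
        calc |inner ℝ (u (f i)) (h - k)| ≤ ‖u (f i)‖ * ‖h - k‖ := abs_real_inner_le_norm _ _
          _ ≤ (M + 1) * ‖h - k‖ :=
              mul_le_mul_of_nonneg_right (by linarith [hM (f i)]) (norm_nonneg _)
          _ < (M + 1) * (ε / (4 * (M + 1))) := by
              apply mul_lt_mul_of_pos_left _ (by linarith)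
              rw [← dist_eq_norm]
              exact hk
          _ = ε / 4 := by field_simp
      rw [Real.dist_eq] at e1 e2 ⊢
      have f1 := abs_lt.1 e1
      have f2 := abs_lt.1 e2
      have f3 := abs_lt.1 (e3 n)
      have f4 := abs_lt.1 (e3 n0)
      rw [abs_lt]
      constructor <;> linarith
    obtain ⟨l, hl⟩ := cauchySeq_tendsto_of_complete hc
    exact ⟨l, hl⟩
  have hSK : ∀ h, h ∈ (Submodule.span ℝ (Set.range u)).topologicalClosure → h ∈ S := by
    intro h hh
    apply hScl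
    have h1 : (Submodule.span ℝ (Set.range u) : Set H) ⊆ S := by
      rw [SetLike.coe_subset_coe, Submodule.span_le]
      rintro _ ⟨m, rfl⟩
      exact ⟨L m, hm m⟩
    have h2 : h ∈ closure (Submodule.span ℝ (Set.range u) : Set H) := hh
    exact closure_mono h1 h2
  have hall : ∀ h, ∃ l, Tendsto (fun n => inner ℝ (u (f n)) h) atTop (𝓝 l) := by
    intro h
    obtain ⟨y, hy, z, hz, rfl⟩ := Submodule.exists_add_mem_mem_orthogonal
      (K := (Submodule.span ℝ (Set.range u)).topologicalClosure) h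
    obtain ⟨l, hl⟩ := hSK y hy
    refine ⟨l, ?_⟩
    have e : ∀ n, inner ℝ (u (f n)) (y + z) = inner ℝ (u (f n)) y := by
      intro n
      rw [inner_add_right]
      have h1 : u (f n) ∈ (Submodule.span ℝ (Set.range u)).topologicalClosure :=
        Submodule.le_topologicalClosure _ (Submodule.subset_span ⟨f n, rfl⟩)
      have h2 : inner ℝ (u (f n)) z = 0 := (Submodule.mem_orthogonal _ _).1 hz _ h1
      rw [h2, add_zero]
    simp only [e]
    exact hl
  choose l hl using hall
  let T : H →ₗ[ℝ] ℝ :=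
    { toFun := l
      map_add' := by
        intro a b
        refine tendsto_nhds_unique (hl (a + b)) ?_
        simp only [inner_add_right]
        exact (hl a).add (hl b)
      map_smul' := by
        intro c a
        refine tendsto_nhds_unique (hl (c • a)) ?_
        simp only [real_inner_smul_right]
        exact (hl a).const_mul c }
  have hT : ∀ x, ‖T x‖ ≤ M * ‖x‖ := by
    intro x
    have h1 : Tendsto (fun n => ‖inner ℝ (u (f n)) x‖) atTop (𝓝 ‖l x‖) := (hl x).norm
    refine le_of_tendsto h1 (Eventually.of_forall fun n => ?_)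
    rw [Real.norm_eq_abs]
    exact (abs_real_inner_le_norm _ _).trans
      (mul_le_mul_of_nonneg_right (hM (f n)) (norm_nonneg _))
  let T' : H →L[ℝ] ℝ := T.mkContinuous M hT
  refine ⟨f, (InnerProductSpace.toDual ℝ H).symm T', hf, fun h => ?_⟩
  rw [InnerProductSpace.toDual_symm_apply]
  exact hl h

/-- module wka. Bounded sequences have weakly convergent subsequences.
Proof: e.g. diagonal argument on a countable dense subset of the closed span of the sequence, or sequential
Banach-Alaoglu in `WeakDual` (`H1` is separable) and the Riesz representation. -/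
theorem exists_WC (u : ℕ → H1 N) (M : ℝ) (hM : ∀ n, ‖u n‖ ≤ M) :
    ∃ (f : ℕ → ℕ) (w : H1 N), StrictMono f ∧ WC (fun n => u (f n)) w :=
  wka_general u M hM

/-- module wka. Weakly convergent sequences are bounded (`banach_steinhaus`). -/
theorem WC_bdd {u : ℕ → H1 N} {w : H1 N} (h : WC u w) : ∃ M : ℝ, ∀ n, ‖u n‖ ≤ M := by
  have h1 : ∀ x : H1 N, ∃ C, ∀ n, ‖innerSL ℝ (u n) x‖ ≤ C := by
    intro x
    obtain ⟨C, hC⟩ := (h x).norm.bddAbove_range
    exact ⟨C, fun n => hC ⟨n, rfl⟩⟩
  obtain ⟨C, hC⟩ := banach_steinhaus h1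
  refine ⟨C, fun n => ?_⟩
  have := hC n
  rwa [innerSL_apply_norm] at this

/-- module wkb. Every bounded linear functional converges. -/
theorem WC_clm {u : ℕ → H1 N} {w : H1 N} (h : WC u w) (f : H1 N →L[ℝ] ℝ) :
    Tendsto (fun n => f (u n)) atTop (𝓝 (f w)) := by
  have e : ∀ x : H1 N, f x = inner ℝ x ((InnerProductSpace.toDual ℝ (H1 N)).symm f) := by
    intro x
    rw [real_inner_comm, InnerProductSpace.toDual_symm_apply]
  simp only [e]
  exact h _

/-- module wkb -/
theorem WC_ip {u : ℕ → H1 N} {w : H1 N} (h : WC u w) (l : ℝ) (z : H1 N) :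
    Tendsto (fun n => ip l (u n) z) atTop (𝓝 (ip l w z)) := by
  obtain ⟨C, hC, hb⟩ := ip_bound (N := N) l
  let T : H1 N →ₗ[ℝ] ℝ :=
    { toFun := fun x => ip l x z
      map_add' := fun a b => ip_add_left l a b z
      map_smul' := fun c a => ip_smul_left l c a z }
  let T' : H1 N →L[ℝ] ℝ := T.mkContinuous (C * ‖z‖) (by
    intro x
    have := hb x z
    rw [Real.norm_eq_abs]
    calc |ip l x z| ≤ C * ‖x‖ * ‖z‖ := this
      _ = C * ‖z‖ * ‖x‖ := by ring)
  exact WC_clm h T'

/-- the pairing with a function of `L²` as a bounded linear functional -/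
private theorem wkb_pair (g : E N → ℝ) (hg : MemLp g 2 (volume : Measure (E N))) :
    ∃ T : H1 N →L[ℝ] ℝ, ∀ u : H1 N, T u = ∫ x, fn u x * g x := by
  have e : ∀ u : H1 N, inner ℝ (u.val.fst : Lp ℝ 2 (volume : Measure (E N))) (hg.toLp g) =
      ∫ x, fn u x * g x := by
    intro u
    rw [L2.inner_def]
    refine integral_congr_ae ?_
    filter_upwards [hg.coeFn_toLp] with x hx
    rw [hx]
    simp only [fn, RCLike.inner_apply, conj_trivial]
    ring
  let T : H1 N →ₗ[ℝ] ℝ :=
    { toFun := fun u => inner ℝ (u.val.fst : Lp ℝ 2 (volume : Measure (E N))) (hg.toLp g)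
      map_add' := fun a b => by
        change inner ℝ (a.val.fst + b.val.fst : Lp ℝ 2 (volume : Measure (E N))) (hg.toLp g) = _
        rw [inner_add_left]
      map_smul' := fun c a => by
        change inner ℝ (c • a.val.fst : Lp ℝ 2 (volume : Measure (E N))) (hg.toLp g) = _
        rw [real_inner_smul_left]
        rfl }
  refine ⟨T.mkContinuous ‖hg.toLp g‖ (fun u => ?_), fun u => e u⟩
  rw [Real.norm_eq_abs]
  calc |inner ℝ (u.val.fst : Lp ℝ 2 (volume : Measure (E N))) (hg.toLp g)| ≤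
        ‖u.val.fst‖ * ‖hg.toLp g‖ := abs_real_inner_le_norm _ _
    _ ≤ ‖u.val‖ * ‖hg.toLp g‖ :=
        mul_le_mul_of_nonneg_right (WithLp.norm_fst_le _ _) (norm_nonneg _)
    _ = ‖hg.toLp g‖ * ‖u‖ := by
        rw [mul_comm]
        rfl

/-- module wkb: pairing with a function of `L²` -/
theorem WC_L2 {u : ℕ → H1 N} {w : H1 N} (h : WC u w) (g : E N → ℝ)
    (hg : MemLp g 2 (volume : Measure (E N))) :
    Tendsto (fun n => ∫ x, fn (u n) x * g x) atTop (𝓝 (∫ x, fn w x * g x)) := by
  obtain ⟨T, hT⟩ := wkb_pair g hg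
  simp only [← hT]
  exact WC_clm h T

theorem WC_comp {u : ℕ → H1 N} {w : H1 N} (h : WC u w) {f : ℕ → ℕ} (hf : StrictMono f) :
    WC (fun n => u (f n)) w := fun z => (h z).comp hf.tendsto_atTop

theorem WC_of_tendsto {u : ℕ → H1 N} {w : H1 N} (h : Tendsto u atTop (𝓝 w)) : WC u w :=
  fun z => h.inner tendsto_const_nhds

theorem WC_add {u v : ℕ → H1 N} {w z : H1 N} (h : WC u w) (k : WC v z) :
    WC (fun n => u n + v n) (w + z) := by
  intro y
  simp only [inner_add_left]
  exact (h y).add (k y)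

theorem WC_sub {u v : ℕ → H1 N} {w z : H1 N} (h : WC u w) (k : WC v z) :
    WC (fun n => u n - v n) (w - z) := by
  intro y
  simp only [inner_sub_left]
  exact (h y).sub (k y)

theorem WC_const_smul {u : ℕ → H1 N} {w : H1 N} (h : WC u w) (c : ℝ) :
    WC (fun n => c • u n) (c • w) := by
  intro y
  simp only [real_inner_smul_left]
  exact (h y).const_mul _

/-- module wkb -/
theorem WC_unique {u : ℕ → H1 N} {w z : H1 N} (h : WC u w) (k : WC u z) : w = z :=
  ext_inner_right ℝ fun x => tendsto_nhds_unique (h x) (k x)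

/-- module wkb. Weak lower semicontinuity of the nonnegative form `ip l`, `l ≥ 0`:
`ip l w w = lim ip l (u n) w ≤ liminf √(ip l (u n) (u n)) √(ip l w w)`. -/
theorem WC_lsc {u : ℕ → H1 N} {w : H1 N} (h : WC u w) {l : ℝ} (hl : 0 ≤ l) {c : ℕ → ℝ} {c0 : ℝ}
    (hc : Tendsto c atTop (𝓝 c0)) (hu : ∀ᶠ n in atTop, ip l (u n) (u n) ≤ c n) :
    ip l w w ≤ c0 := by
  have h1 : Tendsto (fun n => c n - 2 * ip l (u n) w + ip l w w) atTop
      (𝓝 (c0 - 2 * ip l w w + ip l w w)) :=
    (hc.sub ((WC_ip h l w).const_mul 2)).add_const _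
  have h2 : 0 ≤ c0 - 2 * ip l w w + ip l w w := by
    refine ge_of_tendsto h1 ?_
    filter_upwards [hu] with n hn
    have h3 := ip_nonneg hl (u n - w)
    rw [ip_sub_left, ip_sub_right, ip_sub_right, ip_comm l w (u n)] at h3
    linarith
  linarith

/-- module wkb. Weak convergence and convergence of the norms imply strong convergence. -/
theorem WC_strong {u : ℕ → H1 N} {w : H1 N} (h : WC u w) {l : ℝ} (hl : 0 < l)
    (hn : Tendsto (fun n => ip l (u n) (u n)) atTop (𝓝 (ip l w w))) : Tendsto u atTop (𝓝 w) := by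
  obtain ⟨C, hC, hb⟩ := norm_le_ip (N := N) hl
  have h1 : Tendsto (fun n => C * (ip l (u n) (u n) - 2 * ip l (u n) w + ip l w w)) atTop
      (𝓝 (C * (ip l w w - 2 * ip l w w + ip l w w))) :=
    ((hn.sub ((WC_ip h l w).const_mul 2)).add_const _).const_mul C
  have e0 : C * (ip l w w - 2 * ip l w w + ip l w w) = 0 := by ring
  rw [e0] at h1
  have h2 : Tendsto (fun n => ‖u n - w‖ ^ 2) atTop (𝓝 0) := by
    refine squeeze_zero (fun n => sq_nonneg _) (fun n => ?_) h1
    have h3 := hb (u n - w)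
    rw [ip_sub_left, ip_sub_right, ip_sub_right, ip_comm l w (u n)] at h3
    calc ‖u n - w‖ ^ 2 ≤ _ := h3
      _ = _ := by ring
  rw [tendsto_iff_norm_sub_tendsto_zero]
  have h3 : Tendsto (fun n => Real.sqrt (‖u n - w‖ ^ 2)) atTop (𝓝 (Real.sqrt 0)) :=
    (Real.continuous_sqrt.tendsto 0).comp h2
  rw [Real.sqrt_zero] at h3
  simpa only [Real.sqrt_sq (norm_nonneg _)] using h3

/-- Cauchy-Schwarz for functions in `L²` -/
private theorem wkc_cs {α : Type*} [MeasurableSpace α] {μ : Measure α} {a b : α → ℝ}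
    (ha : MemLp a 2 μ) (hb : MemLp b 2 μ) :
    (∫ x, a x * b x ∂μ) ^ 2 ≤ (∫ x, a x ^ 2 ∂μ) * ∫ x, b x ^ 2 ∂μ := by
  have e : ∀ {c d : α → ℝ} (hc : MemLp c 2 μ) (hd : MemLp d 2 μ),
      inner ℝ (hc.toLp c) (hd.toLp d) = ∫ x, c x * d x ∂μ := by
    intro c d hc hd
    rw [L2.inner_def]
    refine integral_congr_ae ?_
    filter_upwards [hc.coeFn_toLp, hd.coeFn_toLp] with x h1 h2
    rw [h1, h2]
    simp only [RCLike.inner_apply, conj_trivial]
    ring
  have h1 := real_inner_mul_inner_self_le (ha.toLp a) (hb.toLp b)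
  rw [e ha hb, e ha ha, e hb hb] at h1
  calc (∫ x, a x * b x ∂μ) ^ 2 = (∫ x, a x * b x ∂μ) * ∫ x, a x * b x ∂μ := sq _
    _ ≤ (∫ x, a x * a x ∂μ) * ∫ x, b x * b x ∂μ := h1
    _ = _ := by simp only [← sq]

/-- the weak limit of a sequence converging in `L²` -/
private theorem wkc_lim {v : ℕ → H1 N} {w : H1 N} (hv : WC v w) {f : E N → ℝ}
    (hf : MemLp f 2 (volume : Measure (E N)))
    (h : Tendsto (fun n => ∫ x, (fn (v n) x - f x) ^ 2) atTop (𝓝 0)) : fn w =ᵐ[volume] f := by
  have hg : MemLp (fun x => fn w x - f x) 2 (volume : Measure (E N)) := (fn_memLp w).sub hf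
  have h1 := WC_L2 hv _ hg
  have h2 : Tendsto (fun n => ∫ x, (fn (v n) x - f x) * (fn w x - f x)) atTop (𝓝 0) := by
    have h3 : Tendsto (fun n => Real.sqrt ((∫ x, (fn (v n) x - f x) ^ 2) *
        ∫ x, (fn w x - f x) ^ 2)) atTop (𝓝 (Real.sqrt (0 * ∫ x, (fn w x - f x) ^ 2))) :=
      (Real.continuous_sqrt.tendsto _).comp (h.mul_const _)
    rw [zero_mul, Real.sqrt_zero] at h3
    refine squeeze_zero_norm (fun n => ?_) h3
    rw [Real.norm_eq_abs]
    apply Real.abs_le_sqrt
    exact wkc_cs ((fn_memLp (v n)).sub hf) hg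
  have h4 : ∀ n, ∫ x, (fn (v n) x - f x) * (fn w x - f x) =
      (∫ x, fn (v n) x * (fn w x - f x)) - ∫ x, f x * (fn w x - f x) := by
    intro n
    rw [← integral_sub]
    · refine integral_congr_ae (Eventually.of_forall fun x => ?_)
      simp only
      ring
    · exact (fn_memLp (v n)).integrable_mul hg
    · exact hf.integrable_mul hg
  simp only [h4] at h2
  have h5 := tendsto_nhds_unique h2 (h1.sub_const _)
  have h6 : ∫ x, (fn w x - f x) ^ 2 = 0 := by
    calc ∫ x, (fn w x - f x) ^ 2 = (∫ x, fn w x * (fn w x - f x)) - ∫ x, f x * (fn w x - f x) := by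
          rw [← integral_sub]
          · refine integral_congr_ae (Eventually.of_forall fun x => ?_)
            simp only
            ring
          · exact (fn_memLp w).integrable_mul hg
          · exact hf.integrable_mul hg
      _ = 0 := h5.symm
  rw [integral_eq_zero_iff_of_nonneg (fun x => sq_nonneg _) hg.integrable_sq] at h6
  filter_upwards [h6] with x hx
  have : (fn w x - f x) ^ 2 = 0 := hx
  have := pow_eq_zero_iff (two_ne_zero) |>.1 this
  linarith

/-- module wkc. A bounded sequence in `H1` which converges in `L²` to `f`: `f` is in `H1` and the convergence is weak in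
`H1` (every subsequence has a weakly convergent subsequence whose limit has function `f`, by `H1_ext` it is always
the same). -/
theorem WC_of_L2 (u : ℕ → H1 N) (M : ℝ) (hM : ∀ n, ‖u n‖ ≤ M) (f : E N → ℝ)
    (hf : MemLp f 2 (volume : Measure (E N)))
    (h : Tendsto (fun n => ∫ x, (fn (u n) x - f x) ^ 2) atTop (𝓝 0)) :
    ∃ w : H1 N, fn w =ᵐ[volume] f ∧ WC u w := by
  obtain ⟨ph, w, hph, hw⟩ := exists_WC u M hM
  have hwf : fn w =ᵐ[volume] f := wkc_lim hw hf (h.comp hph.tendsto_atTop)
  refine ⟨w, hwf, fun z => ?_⟩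
  refine tendsto_of_subseq_tendsto fun ns hns => ?_
  obtain ⟨ms, w', hms, hw'⟩ := exists_WC (fun n => u (ns n)) M (fun n => hM _)
  have hwf' : fn w' =ᵐ[volume] f :=
    wkc_lim hw' hf (h.comp (hns.comp hms.tendsto_atTop))
  have hww : w' = w := H1_ext (hwf'.trans hwf.symm)
  rw [hww] at hw'
  exact ⟨ms, hw' z⟩

private theorem loc_cs {α : Type*} [MeasurableSpace α] {μ : Measure α} [IsFiniteMeasure μ]
    {a : α → ℝ} (ha : MemLp a 2 μ) : (∫ x, a x ∂μ) ^ 2 ≤ μ.real Set.univ * ∫ x, a x ^ 2 ∂μ := by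
  have h1 := wkc_cs ha (memLp_const (1 : ℝ) (μ := μ) (p := 2))
  simp only [mul_one, one_pow, integral_const, smul_eq_mul] at h1
  linarith

/-- the integral over the ball around `x` -/
private noncomputable def locA (r : ℝ) (v : H1 N) (x : E N) : ℝ :=
  ∫ y in Metric.ball (0 : E N) r, fn v (x + y)

private theorem loc_tr (v : H1 N) (x : E N) :
    MemLp (fun y => fn v (x + y)) 2 (volume : Measure (E N)) :=
  (fn_memLp v).comp_measurePreserving (measurePreserving_add_left volume x)

private theorem loc_sm (v : H1 N) : StronglyMeasurable (fn v) := Lp.stronglyMeasurable _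

private theorem loc_A_sm (r : ℝ) (v : H1 N) : StronglyMeasurable (locA r v) := by
  unfold locA
  have h1 : StronglyMeasurable (fun p : E N × E N => fn v (p.1 + p.2)) :=
    (loc_sm v).comp_measurable (measurable_fst.add measurable_snd)
  exact h1.integral_prod_right (ν := volume.restrict (Metric.ball (0 : E N) r))

private theorem loc_A_bound (r : ℝ) (v : H1 N) (x : E N) :
    locA r v x ^ 2 ≤ volume.real (Metric.ball (0 : E N) r) * gY v v := by
  have : IsFiniteMeasure (volume.restrict (Metric.ball (0 : E N) r)) :=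
    ⟨by rw [Measure.restrict_apply_univ]; exact measure_ball_lt_top⟩
  have h1 := loc_cs ((loc_tr v x).restrict (Metric.ball (0 : E N) r))
  rw [measureReal_restrict_apply_univ] at h1
  refine le_trans h1 (mul_le_mul_of_nonneg_left ?_ measureReal_nonneg)
  calc ∫ y in Metric.ball (0 : E N) r, fn v (x + y) ^ 2 ≤ ∫ y, fn v (x + y) ^ 2 :=
        setIntegral_le_integral (loc_tr v x).integrable_sq
          (Eventually.of_forall fun y => sq_nonneg _)
    _ = ∫ y, fn v y ^ 2 := integral_add_left_eq_self (fun y => fn v y ^ 2) x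
    _ = gY v v := by
        unfold gY
        simp only [sq]

private theorem loc_A_lim (r : ℝ) {v : ℕ → H1 N} (hv : WC v 0) (x : E N) :
    Tendsto (fun n => locA r (v n) x) atTop (𝓝 0) := by
  have hg : MemLp ((Metric.ball x r).indicator (fun _ => (1 : ℝ))) 2
      (volume : Measure (E N)) :=
    memLp_indicator_const 2 measurableSet_ball 1 (Or.inr measure_ball_lt_top.ne)
  have h1 := WC_L2 hv _ hg
  have h2 : ∫ y, fn (0 : H1 N) y * (Metric.ball x r).indicator (fun _ => (1 : ℝ)) y = 0 := by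
    have : ∀ᵐ y : E N, fn (0 : H1 N) y * (Metric.ball x r).indicator (fun _ => (1 : ℝ)) y = 0 := by
      filter_upwards [fn_zero (N := N)] with y hy
      rw [hy, zero_mul]
    rw [integral_congr_ae this]
    simp
  rw [h2] at h1
  refine h1.congr fun n => ?_
  unfold locA
  rw [← integral_indicator measurableSet_ball,
    ← integral_add_left_eq_self
      (fun y => fn (v n) y * (Metric.ball x r).indicator (fun _ => (1 : ℝ)) y) x]
  refine integral_congr_ae (Eventually.of_forall fun y => ?_)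
  have hm : x + y ∈ Metric.ball x r ↔ y ∈ Metric.ball (0 : E N) r := by
    simp [Metric.mem_ball, dist_eq_norm]
  by_cases hy : y ∈ Metric.ball (0 : E N) r
  · simp only [Set.indicator_of_mem (hm.2 hy), Set.indicator_of_mem hy, mul_one]
  · simp only [Set.indicator_of_notMem (fun h => hy (hm.1 h)), Set.indicator_of_notMem hy,
      mul_zero]

/-- the mean is close to the function -/
private theorem loc_main (r : ℝ) (v : H1 N) :
    ∫⁻ x, ENNReal.ofReal ((volume.real (Metric.ball (0 : E N) r) * fn v x - locA r v x) ^ 2) ≤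
      ENNReal.ofReal (volume.real (Metric.ball (0 : E N) r) ^ 2 * (r ^ 2 * gX v v)) := by
  obtain ⟨V, hV⟩ : ∃ V, V = volume.real (Metric.ball (0 : E N) r) := ⟨_, rfl⟩
  have hV0 : 0 ≤ V := by rw [hV]; exact measureReal_nonneg
  have hfin : IsFiniteMeasure (volume.restrict (Metric.ball (0 : E N) r)) :=
    ⟨by rw [Measure.restrict_apply_univ]; exact measure_ball_lt_top⟩
  rw [← hV]
  have hd : ∀ x, MemLp (fun y => fn v x - fn v (x + y)) 2
      (volume.restrict (Metric.ball (0 : E N) r)) := fun x =>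
    (memLp_const _).sub ((loc_tr v x).restrict _)
  have h1 : ∀ x, ENNReal.ofReal ((V * fn v x - locA r v x) ^ 2) ≤ ENNReal.ofReal V *
      ∫⁻ y in Metric.ball (0 : E N) r, ENNReal.ofReal ((fn v (x + y) - fn v x) ^ 2) := by
    intro x
    have e1 : V * fn v x - locA r v x =
        ∫ y in Metric.ball (0 : E N) r, (fn v x - fn v (x + y)) := by
      unfold locA
      rw [integral_sub (integrable_const _)
        (((loc_tr v x).restrict _).integrable (by norm_num)), integral_const, smul_eq_mul,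
        measureReal_restrict_apply_univ, hV]
    have h2 := loc_cs (hd x)
    rw [measureReal_restrict_apply_univ, ← hV] at h2
    rw [e1]
    refine le_trans (ENNReal.ofReal_le_ofReal h2) ?_
    rw [ENNReal.ofReal_mul hV0, ofReal_integral_eq_lintegral_ofReal (hd x).integrable_sq
      (Eventually.of_forall fun y => sq_nonneg _)]
    refine mul_le_mul_right (lintegral_mono fun y => ?_) _
    rw [sub_sq_comm]
  calc ∫⁻ x, ENNReal.ofReal ((V * fn v x - locA r v x) ^ 2) ≤
      ∫⁻ x, ENNReal.ofReal V *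
        ∫⁻ y in Metric.ball (0 : E N) r, ENNReal.ofReal ((fn v (x + y) - fn v x) ^ 2) :=
        lintegral_mono h1
    _ = ENNReal.ofReal V * ∫⁻ x,
        ∫⁻ y in Metric.ball (0 : E N) r, ENNReal.ofReal ((fn v (x + y) - fn v x) ^ 2) := by
        rw [lintegral_const_mul']
        exact ENNReal.ofReal_ne_top
    _ = ENNReal.ofReal V * ∫⁻ y in Metric.ball (0 : E N) r,
        ∫⁻ x, ENNReal.ofReal ((fn v (x + y) - fn v x) ^ 2) := by
        rw [lintegral_lintegral_swap]
        have h3 : StronglyMeasurable (fun p : E N × E N => (fn v (p.1 + p.2) - fn v p.1) ^ 2) :=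
          (((loc_sm v).comp_measurable (measurable_fst.add measurable_snd)).sub
            ((loc_sm v).comp_measurable measurable_fst)).pow 2
        exact (h3.measurable.ennreal_ofReal).aemeasurable
    _ ≤ ENNReal.ofReal V * ∫⁻ y in Metric.ball (0 : E N) r,
        ENNReal.ofReal (r ^ 2 * gX v v) := by
        refine mul_le_mul_right ?_ _
        refine setLIntegral_mono' measurableSet_ball fun y hy => ?_
        have h4 : MemLp (fun x => fn v (x + y) - fn v x) 2 (volume : Measure (E N)) :=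
          ((fn_memLp v).comp_measurePreserving (measurePreserving_add_right volume y)).sub
            (fn_memLp v)
        rw [← ofReal_integral_eq_lintegral_ofReal h4.integrable_sq
          (Eventually.of_forall fun x => sq_nonneg _)]
        refine ENNReal.ofReal_le_ofReal ((transl v y).trans ?_)
        refine mul_le_mul_of_nonneg_right ?_ (gX_nonneg v)
        have h5 : ‖y‖ < r := by simpa using hy
        exact pow_le_pow_left₀ (norm_nonneg _) h5.le 2
    _ = ENNReal.ofReal (V ^ 2 * (r ^ 2 * gX v v)) := by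
        rw [setLIntegral_const, sq V, mul_assoc, ENNReal.ofReal_mul hV0, ENNReal.ofReal_mul hV0]
        congr 1
        rw [mul_comm]
        congr 1
        rw [hV]
        exact (ENNReal.ofReal_toReal measure_ball_lt_top.ne).symm

private theorem loc_est {r : ℝ} (hr : 0 < r) (R : ℝ) (v : H1 N) :
    volume.real (Metric.ball (0 : E N) r) ^ 2 * ∫ x in Metric.ball (0 : E N) R, fn v x ^ 2 ≤
      2 * (∫ x in Metric.ball (0 : E N) R, locA r v x ^ 2) +
        2 * (volume.real (Metric.ball (0 : E N) r) ^ 2 * (r ^ 2 * gX v v)) := by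
  obtain ⟨V, hV⟩ : ∃ V, V = volume.real (Metric.ball (0 : E N) r) := ⟨_, rfl⟩
  have hV0 : 0 ≤ V := by rw [hV]; exact measureReal_nonneg
  have hfin : IsFiniteMeasure (volume.restrict (Metric.ball (0 : E N) R)) :=
    ⟨by rw [Measure.restrict_apply_univ]; exact measure_ball_lt_top⟩
  have hmain := loc_main r v
  have hAb := loc_A_bound r v
  rw [← hV] at hmain hAb ⊢
  have hA : MemLp (locA r v) 2 (volume.restrict (Metric.ball (0 : E N) R)) := by
    refine MemLp.of_bound (loc_A_sm r v).aestronglyMeasurable (Real.sqrt (V * gY v v))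
      (Eventually.of_forall fun x => ?_)
    rw [Real.norm_eq_abs]
    exact Real.abs_le_sqrt (hAb x)
  have hv : MemLp (fn v) 2 (volume.restrict (Metric.ball (0 : E N) R)) := (fn_memLp v).restrict _
  have hd : MemLp (fun x => V * fn v x - locA r v x) 2
      (volume.restrict (Metric.ball (0 : E N) R)) := (hv.const_mul V).sub hA
  have h1 : ∫ x in Metric.ball (0 : E N) R, (V * fn v x - locA r v x) ^ 2 ≤
      V ^ 2 * (r ^ 2 * gX v v) := by
    have h2 : ENNReal.ofReal (∫ x in Metric.ball (0 : E N) R, (V * fn v x - locA r v x) ^ 2) ≤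
        ENNReal.ofReal (V ^ 2 * (r ^ 2 * gX v v)) := by
      rw [ofReal_integral_eq_lintegral_ofReal hd.integrable_sq
        (Eventually.of_forall fun x => sq_nonneg _)]
      exact le_trans (setLIntegral_le_lintegral _ _) hmain
    refine (ENNReal.ofReal_le_ofReal_iff ?_).1 h2
    have := gX_nonneg v
    positivity
  have h3 : V ^ 2 * ∫ x in Metric.ball (0 : E N) R, fn v x ^ 2 =
      ∫ x in Metric.ball (0 : E N) R, (V * fn v x) ^ 2 := by
    rw [← integral_const_mul]
    refine integral_congr_ae (Eventually.of_forall fun x => ?_)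
    simp only
    ring
  have h4 : ∫ x in Metric.ball (0 : E N) R, (V * fn v x) ^ 2 ≤
      ∫ x in Metric.ball (0 : E N) R, (2 * locA r v x ^ 2 + 2 * (V * fn v x - locA r v x) ^ 2) := by
    refine integral_mono (hv.const_mul V).integrable_sq
      ((hA.integrable_sq.const_mul 2).add (hd.integrable_sq.const_mul 2)) fun x => ?_
    simp only
    nlinarith [sq_nonneg (locA r v x - (V * fn v x - locA r v x))]
  have h5 : ∫ x in Metric.ball (0 : E N) R, (2 * locA r v x ^ 2 +
      2 * (V * fn v x - locA r v x) ^ 2) = 2 * (∫ x in Metric.ball (0 : E N) R, locA r v x ^ 2) +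
        2 * ∫ x in Metric.ball (0 : E N) R, (V * fn v x - locA r v x) ^ 2 := by
    rw [integral_add (hA.integrable_sq.const_mul 2) (hd.integrable_sq.const_mul 2),
      integral_const_mul, integral_const_mul]
  rw [h3]
  rw [h5] at h4
  linarith

private theorem loc_zero {v : ℕ → H1 N} (hv : WC v 0) (R : ℝ) :
    Tendsto (fun n => ∫ x in Metric.ball (0 : E N) R, fn (v n) x ^ 2) atTop (𝓝 0) := by
  obtain ⟨M, hM⟩ := WC_bdd hv
  have hfin : IsFiniteMeasure (volume.restrict (Metric.ball (0 : E N) R)) :=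
    ⟨by rw [Measure.restrict_apply_univ]; exact measure_ball_lt_top⟩
  have hK : ∀ n, gX (v n) (v n) ≤ M ^ 2 ∧ gY (v n) (v n) ≤ M ^ 2 := by
    intro n
    have h1 : ‖v n‖ ^ 2 ≤ M ^ 2 := pow_le_pow_left₀ (norm_nonneg _) (hM n) 2
    rw [norm_sq_eq] at h1
    have h2 := gX_nonneg (v n)
    have h3 := gY_nonneg (v n)
    unfold ip at h1
    constructor <;> linarith
  rw [Metric.tendsto_atTop]
  intro ε hε
  obtain ⟨r, hr, hr2⟩ : ∃ r : ℝ, 0 < r ∧ r ^ 2 * M ^ 2 ≤ ε / 8 := by
    refine ⟨Real.sqrt (ε / (8 * (M ^ 2 + 1))), Real.sqrt_pos.2 (by positivity), ?_⟩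
    rw [Real.sq_sqrt (by positivity), div_mul_eq_mul_div, div_le_div_iff₀ (by positivity)
      (by norm_num)]
    nlinarith [sq_nonneg M]
  obtain ⟨V, hVd⟩ : ∃ V, V = volume.real (Metric.ball (0 : E N) r) := ⟨_, rfl⟩
  have hV0 : 0 < V := by
    rw [hVd]
    exact ENNReal.toReal_pos (Metric.measure_ball_pos _ _ hr).ne' measure_ball_lt_top.ne
  have hA0 : Tendsto (fun n => ∫ x in Metric.ball (0 : E N) R, locA r (v n) x ^ 2) atTop
      (𝓝 0) := by
    have h1 : Tendsto (fun n => ∫ x in Metric.ball (0 : E N) R, locA r (v n) x ^ 2) atTop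
        (𝓝 (∫ x in Metric.ball (0 : E N) R, (0 : ℝ))) := by
      refine tendsto_integral_of_dominated_convergence (fun _ => V * M ^ 2)
        (fun n => ((loc_A_sm r (v n)).pow 2).aestronglyMeasurable) (integrable_const _)
        (fun n => Eventually.of_forall fun x => ?_) (Eventually.of_forall fun x => ?_)
      · rw [Real.norm_eq_abs, abs_of_nonneg (sq_nonneg _)]
        refine (loc_A_bound r (v n) x).trans ?_
        rw [← hVd]
        exact mul_le_mul_of_nonneg_left (hK n).2 hV0.le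
      · have h2 := (loc_A_lim r hv x).pow 2
        simpa using h2
    simpa using h1
  obtain ⟨n0, hn0⟩ := (Metric.tendsto_atTop.1 hA0) (V ^ 2 * (ε / 8)) (by positivity)
  refine ⟨n0, fun n hn => ?_⟩
  have h1 := hn0 n hn
  rw [Real.dist_eq, sub_zero] at h1 ⊢
  have h2 := (abs_lt.1 h1).2
  have h3 := loc_est hr R (v n)
  rw [← hVd] at h3
  have h4 : 0 ≤ ∫ x in Metric.ball (0 : E N) R, fn (v n) x ^ 2 :=
    integral_nonneg fun x => sq_nonneg _
  rw [abs_of_nonneg h4]
  have h5 : r ^ 2 * gX (v n) (v n) ≤ ε / 8 :=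
    (mul_le_mul_of_nonneg_left (hK n).1 (sq_nonneg _)).trans hr2
  have h6 : V ^ 2 * (r ^ 2 * gX (v n) (v n)) ≤ V ^ 2 * (ε / 8) :=
    mul_le_mul_of_nonneg_left h5 (sq_nonneg _)
  have h7 : V ^ 2 * (∫ x in Metric.ball (0 : E N) R, fn (v n) x ^ 2) ≤ V ^ 2 * (ε / 2) := by
    linarith
  have h8 := le_of_mul_le_mul_left h7 (by positivity)
  linarith

/-- module loc. Local compactness (Rellich).
Proof: for `ρ > 0` let `A u (x)` be the mean of `fn u` over `ball x ρ`. By `transl` and Jensen / Fubini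
`‖A u - u‖²_{L²} ≤ ρ² gX u u`. For fixed `ρ` and `x`, `A (u n) x → A w x` (`WC_L2` with the indicator of the ball) and
`|A (u n) x| ≤ C(ρ) ‖u n‖`, so `∫_{ball 0 R} (A (u n) - A w)² → 0` by dominated convergence. Triangle inequality, `ρ → 0`. -/
theorem WC_loc {u : ℕ → H1 N} {w : H1 N} (h : WC u w) (R : ℝ) :
    Tendsto (fun n => ∫ x in Metric.ball (0 : E N) R, (fn (u n) x - fn w x) ^ 2) atTop (𝓝 0) := by
  have h1 : WC (fun n => u n - w) 0 := by
    have h2 := WC_sub h (fun z => tendsto_const_nhds : WC (fun _ => w) w)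
    rwa [sub_self] at h2
  refine (loc_zero h1 R).congr fun n => ?_
  refine integral_congr_ae (ae_restrict_of_ae ?_)
  filter_upwards [fn_sub (u n) w] with x hx
  rw [hx]

/-- the gradient of a cutoff function is bounded -/
private theorem wqt_bump {R : ℝ} (hR : 0 < R) : ∃ (c : E N → ℝ) (M : ℝ), ContDiff ℝ 1 c ∧
    (∀ x, |c x| ≤ M) ∧ (∀ x, ‖gradient c x‖ ≤ M) ∧ 0 ≤ M ∧ (∀ x, ‖x‖ < R → c x = 1) ∧
    ∀ x, R + 1 ≤ ‖x‖ → c x = 0 := by
  let b : ContDiffBump (0 : E N) := ⟨R, R + 1, hR, by linarith⟩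
  have hb : ContDiff ℝ 1 (b : E N → ℝ) := b.contDiff
  have hf : Continuous (fderiv ℝ (b : E N → ℝ)) := hb.continuous_fderiv (by norm_num)
  obtain ⟨C, hC⟩ := hf.bounded_above_of_compact_support (b.hasCompactSupport.fderiv ℝ)
  refine ⟨b, max 1 C, hb, fun x => ?_, fun x => ?_, ?_, fun x hx => ?_, fun x hx => ?_⟩
  · rw [abs_of_nonneg b.nonneg]
    exact b.le_one.trans (le_max_left _ _)
  · unfold gradient
    rw [LinearIsometryEquiv.norm_map]
    exact (hC x).trans (le_max_right _ _)
  · exact zero_le_one.trans (le_max_left _ _)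
  · apply b.one_of_mem_closedBall
    simpa using hx.le
  · apply b.zero_of_le_dist
    simpa using hx

/-- cutting off a sequence which converges weakly to zero -/
private theorem wqt_cut [Dim N] {x : ℕ → H1 N} (hx : WC x 0) {R : ℝ} (hR : 0 < R) :
    ∃ W : ℕ → H1 N, (∀ n, ∀ᵐ y : E N, ‖y‖ < R → fn (W n) y = fn (x n) y) ∧
      Tendsto (fun n => n4 (W n)) atTop (𝓝 0) := by
  obtain ⟨c, M, hc, h1, h2, hM0, h3, h4⟩ := wqt_bump (N := N) hR
  obtain ⟨K, hK⟩ := WC_bdd hx
  have hK0 : 0 ≤ K := (norm_nonneg _).trans (hK 0)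
  choose W hW hW' using fun n => mul_H c hc M h1 h2 (x n)
  refine ⟨W, fun n => ?_, ?_⟩
  · filter_upwards [hW n] with y hy hyR
    rw [hy, h3 y hyR, one_mul]
  -- `gY (W n)` tends to zero
  have hY : Tendsto (fun n => gY (W n) (W n)) atTop (𝓝 0) := by
    have h5 := (loc_zero hx (R + 1)).const_mul (M ^ 2)
    rw [mul_zero] at h5
    refine squeeze_zero (fun n => gY_nonneg _) (fun n => ?_) h5
    rw [← integral_const_mul, ← integral_indicator measurableSet_ball]
    unfold gY
    refine integral_mono_ae ?_ ?_ ?_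
    · exact (fn_memLp (W n)).integrable_mul (fn_memLp (W n))
    · exact (((fn_memLp (x n)).integrable_sq).const_mul _).indicator measurableSet_ball
    · filter_upwards [hW n] with y hy
      simp only [hy]
      by_cases hyR : y ∈ Metric.ball (0 : E N) (R + 1)
      · simp only [Set.indicator_of_mem hyR]
        have h6 : c y ^ 2 ≤ M ^ 2 := by
          rw [← sq_abs]
          exact pow_le_pow_left₀ (abs_nonneg _) (h1 y) 2
        calc c y * fn (x n) y * (c y * fn (x n) y) = c y ^ 2 * fn (x n) y ^ 2 := by ring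
          _ ≤ M ^ 2 * fn (x n) y ^ 2 := mul_le_mul_of_nonneg_right h6 (sq_nonneg _)
      · simp only [Set.indicator_of_notMem hyR]
        have h6 : c y = 0 := h4 y (by simpa using hyR)
        rw [h6]
        simp
  -- `W n` is bounded
  have hB : ∀ n, ‖W n‖ ^ 2 ≤ 3 * M ^ 2 * K ^ 2 := by
    intro n
    have h5 : ‖x n‖ ^ 2 ≤ K ^ 2 := pow_le_pow_left₀ (norm_nonneg _) (hK n) 2
    have hYn : gY (W n) (W n) ≤ M ^ 2 * gY (x n) (x n) := by
      unfold gY
      rw [← integral_const_mul]
      refine integral_mono_ae ?_ ?_ ?_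
      · exact (fn_memLp (W n)).integrable_mul (fn_memLp (W n))
      · exact ((fn_memLp (x n)).integrable_mul (fn_memLp (x n))).const_mul _
      · filter_upwards [hW n] with y hy
        simp only [hy]
        have h6 : c y ^ 2 ≤ M ^ 2 := by
          rw [← sq_abs]
          exact pow_le_pow_left₀ (abs_nonneg _) (h1 y) 2
        calc c y * fn (x n) y * (c y * fn (x n) y) = c y ^ 2 * fn (x n) y ^ 2 := by ring
          _ ≤ M ^ 2 * fn (x n) y ^ 2 := mul_le_mul_of_nonneg_right h6 (sq_nonneg _)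
          _ = M ^ 2 * (fn (x n) y * fn (x n) y) := by ring
    have hXn : gX (W n) (W n) ≤ 2 * M ^ 2 * gX (x n) (x n) + 2 * M ^ 2 * gY (x n) (x n) := by
      unfold gX gY
      have i1 : Integrable (fun y => inner ℝ (gr (x n) y) (gr (x n) y))
          (volume : Measure (E N)) := by
        have := (gr_memLp (x n)).integrable_norm_pow (by norm_num)
        refine this.congr (Eventually.of_forall fun y => ?_)
        simp only [real_inner_self_eq_norm_sq]
      have i2 : Integrable (fun y => fn (x n) y * fn (x n) y) (volume : Measure (E N)) :=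
        (fn_memLp (x n)).integrable_mul (fn_memLp (x n))
      have i3 : Integrable (fun y => inner ℝ (gr (W n) y) (gr (W n) y))
          (volume : Measure (E N)) := by
        have := (gr_memLp (W n)).integrable_norm_pow (by norm_num)
        refine this.congr (Eventually.of_forall fun y => ?_)
        simp only [real_inner_self_eq_norm_sq]
      rw [← integral_const_mul, ← integral_const_mul, ← integral_add (i1.const_mul _)
        (i2.const_mul _)]
      refine integral_mono_ae i3 ((i1.const_mul _).add (i2.const_mul _)) ?_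
      filter_upwards [hW' n] with y hy
      simp only [hy, real_inner_self_eq_norm_sq]
      have h6 : ‖c y • gr (x n) y + fn (x n) y • gradient c y‖ ≤
          M * ‖gr (x n) y‖ + M * |fn (x n) y| := by
        refine (norm_add_le _ _).trans (add_le_add ?_ ?_)
        · rw [norm_smul, Real.norm_eq_abs]
          exact mul_le_mul_of_nonneg_right (h1 y) (norm_nonneg _)
        · rw [norm_smul, Real.norm_eq_abs, mul_comm]
          exact mul_le_mul_of_nonneg_right (h2 y) (abs_nonneg _)
      have h7 := pow_le_pow_left₀ (norm_nonneg _) h6 2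
      refine h7.trans ?_
      have h8 : |fn (x n) y| ^ 2 = fn (x n) y * fn (x n) y := by rw [sq_abs, sq]
      rw [← h8]
      nlinarith [sq_nonneg (M * ‖gr (x n) y‖ - M * |fn (x n) y|)]
    have h9 := gX_nonneg (x n)
    have h10 := gY_nonneg (x n)
    rw [norm_sq_eq] at h5 ⊢
    unfold ip at h5 ⊢
    have h11 : 0 ≤ M ^ 2 := sq_nonneg M
    have h12 : 3 * M ^ 2 * (gX (x n) (x n) + 1 * gY (x n) (x n)) ≤ 3 * M ^ 2 * K ^ 2 :=
      mul_le_mul_of_nonneg_left h5 (by positivity)
    nlinarith [mul_nonneg h11 h9, mul_nonneg h11 h10]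
  obtain ⟨C, hC, hgn⟩ := n4_gn (N := N)
  have h8 : Tendsto (fun n => n4 (W n) ^ 8) atTop (𝓝 0) := by
    have h9 := (hY.const_mul C).mul_const ((3 * M ^ 2 * K ^ 2) ^ 3)
    rw [mul_zero, zero_mul] at h9
    refine squeeze_zero (fun n => pow_nonneg (n4_nonneg _) 8) (fun n => ?_) h9
    refine (hgn (W n)).trans ?_
    apply mul_le_mul_of_nonneg_left _ (mul_nonneg hC.le (gY_nonneg _))
    calc ‖W n‖ ^ 6 = (‖W n‖ ^ 2) ^ 3 := by ring
      _ ≤ _ := pow_le_pow_left₀ (sq_nonneg _) (hB n) 3
  rw [Metric.tendsto_atTop] at h8 ⊢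
  intro ε hε
  obtain ⟨n0, hn0⟩ := h8 (ε ^ 8) (by positivity)
  refine ⟨n0, fun n hn => ?_⟩
  have h9 := hn0 n hn
  rw [Real.dist_eq, sub_zero, abs_of_nonneg (pow_nonneg (n4_nonneg _) 8)] at h9
  rw [Real.dist_eq, sub_zero, abs_of_nonneg (n4_nonneg _)]
  exact lt_of_pow_lt_pow_left₀ 8 hε.le h9

/-- the weakly null version of `WC_quart` -/
private theorem wqt_zero [Dim N] (a : H1 N) {x y z : ℕ → H1 N} (hx : WC x 0) {K : ℝ}
    (hy : ∀ n, ‖y n‖ ≤ K) (hz : ∀ n, ‖z n‖ ≤ K) :
    Tendsto (fun n => Q4 a (x n) (y n) (z n)) atTop (𝓝 0) := by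
  obtain ⟨K', hK'⟩ := WC_bdd hx
  have hK0 : 0 ≤ K := (norm_nonneg _).trans (hy 0)
  have hK'0 : 0 ≤ K' := (norm_nonneg _).trans (hK' 0)
  obtain ⟨C, hC, hQ⟩ := Q4_bound (N := N)
  obtain ⟨C4, hC4, h4⟩ := n4_le (N := N)
  obtain ⟨w, ph, hw, hwa⟩ := exists_approx a
  rw [Metric.tendsto_atTop]
  intro ε hε
  have hD : 0 < C * K' * K * K + 1 := by positivity
  obtain ⟨k, hk⟩ := (Metric.tendsto_atTop.1 hwa) (ε / (2 * (C * K' * K * K + 1))) (by positivity)
  have hk1 := hk k le_rfl
  rw [dist_eq_norm] at hk1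
  obtain ⟨_, hsupp, hfk, _⟩ := hw k
  obtain ⟨R, hR, hsR⟩ : ∃ R : ℝ, 0 < R ∧ ∀ v : E N, R ≤ ‖v‖ → ph k v = 0 := by
    obtain ⟨R, hR⟩ := hsupp.isCompact.isBounded.subset_closedBall (0 : E N)
    refine ⟨max R 0 + 1, by positivity, fun v hv => ?_⟩
    apply image_eq_zero_of_notMem_tsupport
    intro hmem
    have h1 := hR hmem
    rw [Metric.mem_closedBall, dist_zero_right] at h1
    linarith [le_max_left R 0]
  obtain ⟨W, hW1, hW2⟩ := wqt_cut hx hR
  have h5 := (hW2.const_mul (n4 (w k) * (C4 * K) * (C4 * K)))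
  rw [mul_zero] at h5
  obtain ⟨n0, hn0⟩ := (Metric.tendsto_atTop.1 h5) (ε / 2) (by positivity)
  refine ⟨n0, fun n hn => ?_⟩
  have h6 := hn0 n hn
  rw [Real.dist_eq, sub_zero] at h6 ⊢
  have e1 : Q4 (w k) (x n) (y n) (z n) = Q4 (w k) (W n) (y n) (z n) := by
    unfold Q4
    refine integral_congr_ae ?_
    filter_upwards [hfk, hW1 n] with v hv1 hv2
    rcases lt_or_ge ‖v‖ R with h7 | h7
    · rw [hv2 h7]
    · rw [hv1, hsR v h7]
      ring
  have e2 : Q4 a (x n) (y n) (z n) = Q4 (w k) (W n) (y n) (z n) -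
      Q4 (w k - a) (x n) (y n) (z n) := by
    rw [Q4_sub1, ← e1]
    ring
  have h7 : |Q4 (w k) (W n) (y n) (z n)| ≤ n4 (w k) * (C4 * K) * (C4 * K) * n4 (W n) := by
    refine (Q4_le _ _ _ _).trans ?_
    have h8 : n4 (y n) ≤ C4 * K := (h4 _).trans (mul_le_mul_of_nonneg_left (hy n) hC4.le)
    have h9 : n4 (z n) ≤ C4 * K := (h4 _).trans (mul_le_mul_of_nonneg_left (hz n) hC4.le)
    have h10 := n4_nonneg (w k)
    have h11 := n4_nonneg (W n)
    have h12 := n4_nonneg (y n)
    calc n4 (w k) * n4 (W n) * n4 (y n) * n4 (z n) ≤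
        n4 (w k) * n4 (W n) * (C4 * K) * (C4 * K) := by
          apply mul_le_mul _ h9 (n4_nonneg _) (by positivity)
          exact mul_le_mul_of_nonneg_left h8 (mul_nonneg h10 h11)
      _ = _ := by ring
  have h8 : |Q4 (w k - a) (x n) (y n) (z n)| ≤ ‖w k - a‖ * (C * K' * K * K) := by
    refine (hQ _ _ _ _).trans ?_
    calc C * ‖w k - a‖ * ‖x n‖ * ‖y n‖ * ‖z n‖ ≤ C * ‖w k - a‖ * K' * K * K := by
          have g1 : C * ‖w k - a‖ * ‖x n‖ ≤ C * ‖w k - a‖ * K' :=
            mul_le_mul_of_nonneg_left (hK' n) (by positivity)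
          have g2 : C * ‖w k - a‖ * ‖x n‖ * ‖y n‖ ≤ C * ‖w k - a‖ * K' * K :=
            mul_le_mul g1 (hy n) (norm_nonneg _) (by positivity)
          exact mul_le_mul g2 (hz n) (norm_nonneg _) (by positivity)
      _ = _ := by ring
  have h9 : ‖w k - a‖ * (C * K' * K * K) ≤ ε / 2 := by
    have g1 : ‖w k - a‖ * (C * K' * K * K) ≤ ‖w k - a‖ * (C * K' * K * K + 1) :=
      mul_le_mul_of_nonneg_left (by linarith) (norm_nonneg _)
    have g2 : ‖w k - a‖ * (C * K' * K * K + 1) ≤
        ε / (2 * (C * K' * K * K + 1)) * (C * K' * K * K + 1) :=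
      mul_le_mul_of_nonneg_right hk1.le hD.le
    have g3 : ε / (2 * (C * K' * K * K + 1)) * (C * K' * K * K + 1) = ε / 2 := by
      field_simp
    linarith
  have h10 : |Q4 a (x n) (y n) (z n)| ≤ |Q4 (w k) (W n) (y n) (z n)| +
      |Q4 (w k - a) (x n) (y n) (z n)| := by
    rw [e2]
    exact abs_sub _ _
  have h11 := (abs_lt.1 h6).2
  linarith

/-- module wqt. If `u n` converges weakly to `0` in `H1` then `∫ a⁰ ...`: local convergence in `L⁴`.
Proof: take a `C¹` cutoff `χ` with `χ = 1` on `ball 0 R`, support in `ball 0 (R+1)`, `0 ≤ χ ≤ 1`, bounded gradient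
(`ContDiffBump`); `χ (u n - w)` is in `H1` (`mul_H`), bounded, and its `gY` tends to `0` (`WC_loc`), so its `n4` tends to `0`
by `n4_gn`. -/
theorem WC_loc4 [Dim N] {u : ℕ → H1 N} {w : H1 N} (h : WC u w) (R : ℝ) :
    Tendsto (fun n => ∫ x in Metric.ball (0 : E N) R, (fn (u n) x - fn w x) ^ 4) atTop (𝓝 0) := by
  rcases le_or_gt R 0 with hR | hR
  · have e : ∀ n, ∫ x in Metric.ball (0 : E N) R, (fn (u n) x - fn w x) ^ 4 = 0 := by
      intro n
      rw [Metric.ball_eq_empty.2 hR]
      simp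
    simp only [e]
    exact tendsto_const_nhds
  have h1 : WC (fun n => u n - w) 0 := by
    have h2 := WC_sub h (fun z => tendsto_const_nhds : WC (fun _ => w) w)
    rwa [sub_self] at h2
  obtain ⟨W, hW1, hW2⟩ := wqt_cut h1 hR
  have h2 := hW2.pow 4
  rw [zero_pow (by norm_num)] at h2
  refine squeeze_zero (fun n => ?_) (fun n => ?_) h2
  · exact integral_nonneg fun x => by positivity
  · rw [n4_pow]
    have e : ∫ x in Metric.ball (0 : E N) R, (fn (u n) x - fn w x) ^ 4 =
        ∫ x in Metric.ball (0 : E N) R, fn (W n) x * fn (W n) x * fn (W n) x * fn (W n) x := by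
      refine integral_congr_ae ?_
      filter_upwards [ae_restrict_of_ae (hW1 n), ae_restrict_of_ae (fn_sub (u n) w),
        ae_restrict_mem measurableSet_ball] with x hx1 hx2 hx3
      have hx4 : ‖x‖ < R := by simpa using hx3
      rw [hx1 hx4, hx2]
      ring
    rw [e]
    unfold Q4
    refine setIntegral_le_integral (Q4_integrable _ _ _ _) (Eventually.of_forall fun x => ?_)
    have : fn (W n) x * fn (W n) x * fn (W n) x * fn (W n) x = fn (W n) x ^ 4 := by ring
    simp only [this]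
    positivity

/-- module wqt. Weak continuity of the quartic form with ONE fixed factor.
Proof: split the integral in `ball 0 R` (there `WC_loc4`) and its complement, where it is at most
`(∫_{|x|≥R} a⁴)^{1/4} n4 n4 n4`, small uniformly in `n` for large `R` (Hoelder, bounded sequences). -/
theorem WC_quart [Dim N] (a : H1 N) {u v w : ℕ → H1 N} {u0 v0 w0 : H1 N} (hu : WC u u0)
    (hv : WC v v0) (hw : WC w w0) :
    Tendsto (fun n => Q4 a (u n) (v n) (w n)) atTop (𝓝 (Q4 a u0 v0 w0)) := by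
  have hc : ∀ b : H1 N, WC (fun _ => b) b := fun b z => tendsto_const_nhds
  have hu' : WC (fun n => u n - u0) 0 := by
    have h2 := WC_sub hu (hc u0)
    rwa [sub_self] at h2
  have hv' : WC (fun n => v n - v0) 0 := by
    have h2 := WC_sub hv (hc v0)
    rwa [sub_self] at h2
  have hw' : WC (fun n => w n - w0) 0 := by
    have h2 := WC_sub hw (hc w0)
    rwa [sub_self] at h2
  obtain ⟨K1, hK1⟩ := WC_bdd hv
  obtain ⟨K2, hK2⟩ := WC_bdd hw
  obtain ⟨K, hKd⟩ : ∃ K, K = max (max K1 K2) (max ‖u0‖ ‖v0‖) := ⟨_, rfl⟩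
  have k1 : ∀ n, ‖v n‖ ≤ K := fun n => (hK1 n).trans
    (by rw [hKd]; exact (le_max_left _ _).trans (le_max_left _ _))
  have k2 : ∀ n, ‖w n‖ ≤ K := fun n => (hK2 n).trans
    (by rw [hKd]; exact (le_max_right _ _).trans (le_max_left _ _))
  have k3 : ‖u0‖ ≤ K := by rw [hKd]; exact (le_max_left _ _).trans (le_max_right _ _)
  have k4 : ‖v0‖ ≤ K := by rw [hKd]; exact (le_max_right _ _).trans (le_max_right _ _)
  have t1 := wqt_zero a hu' k1 k2
  have t2 := wqt_zero a hv' (y := fun _ => u0) (fun _ => k3) k2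
  have t3 := wqt_zero a hw' (y := fun _ => u0) (z := fun _ => v0) (fun _ => k3) (fun _ => k4)
  have t4 := ((t1.add t2).add t3).add_const (Q4 a u0 v0 w0)
  rw [add_zero, add_zero, zero_add] at t4
  refine t4.congr fun n => ?_
  rw [Q4_sub2, Q4_sub2, Q4_sub2, Q4_swap23 a v0 u0, Q4_swap23 a (v n) u0,
    Q4_swap23 a (w n) u0, Q4_swap34 a u0 (w n), Q4_swap23 a w0 u0, Q4_swap34 a u0 w0]
  ring

theorem WC_const (a : H1 N) : WC (fun _ => a) a := fun _ => tendsto_const_nhds

/-- two fixed factors -/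
theorem WC_quart2 [Dim N] (a b : H1 N) {u v : ℕ → H1 N} {u0 v0 : H1 N} (hu : WC u u0)
    (hv : WC v v0) :
    Tendsto (fun n => Q4 a b (u n) (v n)) atTop (𝓝 (Q4 a b u0 v0)) :=
  WC_quart a (WC_const b) hu hv

end Sir
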